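import Pool.Agent.Lib.MP_b07157_agO.RDef
import Pool.Agent.Lib.MP_b07157_agR.Der

/-!
# Quasi-ordinary germs: the roots `-1/m_i` and `-1/N0_j`
-/

noncomputable section

namespace MPb07157

namespace QO

namespace RLh

open MvPowerSeries

theorem X_pow_dvd_iff_wo {n : ℕ} (i : Fin n) (k : ℕ) (F : MvPowerSeries (Fin n) ℂ) :
    X i ^ k ∣ F ↔ (k : ℕ∞) ≤ weightedOrder (Pi.single i 1 : Fin n → ℕ) F := by
  rw [X_pow_dvd_iff]
  have hw : ∀ m : Fin n →₀ ℕ, Finsupp.weight (Pi.single i 1 : Fin n → ℕ) m = m i := by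
    intro m
    rw [Finsupp.weight_apply, Finsupp.sum_fintype _ _ (by simp)]
    simp [Pi.single_apply]
  constructor
  · intro h
    exact nat_le_weightedOrder _ fun d hd => h d (by rwa [hw] at hd)
  · intro h m hm
    refine coeff_eq_zero_of_lt_weightedOrder _ (lt_of_lt_of_le ?_ h)
    rw [hw]
    exact_mod_cast hm

theorem prime_X {n : ℕ} (i : Fin n) : Prime (X i : MvPowerSeries (Fin n) ℂ) := by
  refine ⟨?_, ?_, ?_⟩
  · intro h
    have h1 := congrArg (coeff (Finsupp.single i 1)) h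
    rw [coeff_index_single_self_X, map_zero] at h1
    exact one_ne_zero h1
  · intro h
    have h1 := h.map (constantCoeff (σ := Fin n) (R := ℂ))
    rw [constantCoeff_X] at h1
    exact not_isUnit_zero h1
  · intro a b hab
    have h1 := (X_pow_dvd_iff_wo i 1 (a * b)).1 (by rwa [pow_one])
    rw [weightedOrder_mul] at h1
    by_contra hcon
    rw [not_or] at hcon
    have h2 : ∀ c : MvPowerSeries (Fin n) ℂ, ¬ X i ∣ c →
        weightedOrder (Pi.single i 1 : Fin n → ℕ) c = 0 := by
      intro c hc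
      by_contra h3
      apply hc
      have h4 := (X_pow_dvd_iff_wo i 1 c).2 (by
        rw [Nat.cast_one]; exact Order.one_le_iff_ne_zero.2 h3)
      rwa [pow_one] at h4
    rw [h2 a hcon.1, h2 b hcon.2, add_zero] at h1
    exact absurd h1 (by simp)

theorem eval_C_derivC {n : ℕ} (i : Fin n) (g : Polynomial (MvPowerSeries (Fin n) ℂ)) (c : ℂ) :
    (derivC i g).eval (MvPowerSeries.C c) =
      MvPowerSeries.pderiv ℂ i (g.eval (MvPowerSeries.C c)) := by
  unfold derivC
  rw [Polynomial.sum_def, Polynomial.eval_finsetSum, Polynomial.eval_eq_sum, Polynomial.sum_def,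
    map_sum]
  refine Finset.sum_congr rfl fun j _ => ?_
  rw [Polynomial.eval_monomial, Derivation.leibniz]
  have h : MvPowerSeries.pderiv ℂ i ((MvPowerSeries.C c : MvPowerSeries (Fin n) ℂ) ^ j) = 0 := by
    rw [← map_pow]
    exact Derivation.map_algebraMap (MvPowerSeries.pderiv ℂ i) (c ^ j)
  rw [h, smul_zero, zero_add, smul_eq_mul, mul_comm]

/-- The computation along the variable. -/
theorem axis_core {A : Type} [CommRing A] [NoZeroDivisors A] [Algebra ℂ A] (D : Derivation ℂ A A)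
    {x F F₁ H h₁ S : A} (hx : x ≠ 0) (hDx : D x = 1) {B k : ℕ} (hF : F = x ^ B * F₁)
    (hH : x ^ B * H = x ^ (B * k + 1) * h₁) (hS : 1 + S * (B : A) = 0) :
    x ^ B * (F * D H + (S + 1 - (k : A)) * D F * H) =
      x ^ (B * (k + 1) + 1) * (F₁ * D h₁ + (S + 1 - (k : A)) * D F₁ * h₁) := by
  have hpow : ∀ m : ℕ, x * D (x ^ m) = (m : A) * x ^ m := by
    intro m
    rw [Derivation.leibniz_pow, hDx, smul_eq_mul, mul_one, nsmul_eq_mul]
    rcases m with _ | m
    · simp
    · rw [Nat.add_sub_cancel]; ring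
  have e1 := congrArg D hH
  rw [Derivation.leibniz, Derivation.leibniz, smul_eq_mul, smul_eq_mul, smul_eq_mul,
    smul_eq_mul] at e1
  have e2 : x * D F = (B : A) * x ^ B * F₁ + x ^ (B + 1) * D F₁ := by
    rw [hF, Derivation.leibniz, smul_eq_mul, smul_eq_mul]
    linear_combination F₁ * hpow B
  have e3 := hpow B
  have e4 := hpow (B * k + 1)
  push_cast at e4
  refine mul_left_cancel₀ hx ?_
  have e5 : x * (x ^ B * D H) = x * (x ^ (B * k + 1) * D h₁) +
      ((B : A) * k + 1 - B) * (x ^ (B * k + 1) * h₁) := by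
    linear_combination x * e1 + h₁ * e4 - H * e3 - (B : A) * hH
  have e6 : x ^ (B * (k + 1) + 1) = x ^ B * x ^ (B * k + 1) := by
    rw [← pow_add]; congr 1; ring
  rw [e6]
  have e7 : x * (x ^ B * (F * D H + (S + 1 - (k : A)) * D F * H)) =
      F * (x * (x ^ B * D H)) + (S + 1 - (k : A)) * (x * D F) * (x ^ B * H) := by ring
  rw [e7, e5, e2, hH, hF]
  linear_combination (x ^ B * F₁ * (x ^ (B * k + 1) * h₁)) * hS

/-- The computation in the other direction. -/
theorem axis_core' {A : Type} [CommRing A] [Algebra ℂ A] (D : Derivation ℂ A A)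
    {x F F₁ H h₁ S : A} (hDx : D x = 0) {B k : ℕ} (hF : F = x ^ B * F₁)
    (hH : x ^ B * H = x ^ (B * k + 1) * h₁) :
    x ^ B * (F * D H + (S + 1 - (k : A)) * D F * H) =
      x ^ (B * (k + 1) + 1) * (F₁ * D h₁ + (S + 1 - (k : A)) * D F₁ * h₁) := by
  have hpow : ∀ m : ℕ, D (x ^ m) = 0 := by
    intro m
    rw [Derivation.leibniz_pow, hDx, smul_zero, smul_zero]
  have e1 := congrArg D hH
  rw [Derivation.leibniz, Derivation.leibniz, hpow, hpow, smul_zero, smul_zero, add_zero,
    add_zero, smul_eq_mul, smul_eq_mul] at e1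
  have e2 : D F = x ^ B * D F₁ := by
    rw [hF, Derivation.leibniz, hpow, smul_zero, add_zero, smul_eq_mul]
  have e6 : x ^ (B * (k + 1) + 1) = x ^ B * x ^ (B * k + 1) := by
    rw [← pow_add]; congr 1; ring
  rw [e6]
  have e7 : x ^ B * (F * D H + (S + 1 - (k : A)) * D F * H) =
      F * (x ^ B * D H) + (S + 1 - (k : A)) * D F * (x ^ B * H) := by ring
  rw [e7, e1, e2, hH, hF]
  ring

/-- The orders along a prime `x`, general form. -/
theorem gen_dvd {n : ℕ} {A : Type} [CommRing A] [IsDomain A] [Algebra ℂ A]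
    {f : MvPowerSeries (Fin n) ℂ} (θ : MvPowerSeries (Fin n) ℂ →ₐ[ℂ] A) {x : A} (hx : Prime x)
    {J : Type} (D : J → Derivation ℂ A A) (hD : ∀ j, D j x = 1 ∨ D j x = 0) (M : Fin n → J → A)
    (hchain : ∀ j a, D j (θ a) = ∑ l, θ (MvPowerSeries.pderiv ℂ l a) * M l j)
    (hinv : ∀ (N : ℕ) (e : Fin n → A), (∀ j, x ^ N ∣ ∑ l, e l * M l j) → ∀ l, x ^ N ∣ e l)
    {B : ℕ} (hB0 : 0 < B) {F₁ : A} (hF : θ f = x ^ B * F₁) (hF₁ : ¬ x ∣ F₁) {s : ℂ}
    (hs : 1 + s * B = 0) {k : ℕ} {g : Polynomial (MvPowerSeries (Fin n) ℂ)} (hg : InPs f k g) :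
    x ^ (B * k + 1) ∣ x ^ B * θ (g.eval (MvPowerSeries.C s)) := by
  have hC : ∀ c : ℂ, θ (MvPowerSeries.C c) = algebraMap ℂ A c := fun c => θ.commutes c
  have hsC : (1 : A) + algebraMap ℂ A s * (B : A) = 0 := by
    have h1 := congrArg (algebraMap ℂ A) hs
    rw [map_add, map_mul, map_one, map_natCast, map_zero] at h1
    exact h1
  induction hg with
  | base =>
    rw [Polynomial.eval_one, map_one, mul_one, mul_zero, zero_add]
    exact pow_dvd_pow _ hB0
  | add _ _ ih1 ih2 =>
    rw [Polynomial.eval_add, map_add, mul_add]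
    exact dvd_add ih1 ih2
  | mul c _ ih =>
    rw [Polynomial.eval_mul, map_mul, mul_left_comm]
    exact Dvd.dvd.mul_left ih _
  | raise _ ih =>
    rw [Polynomial.eval_mul, Polynomial.eval_C, map_mul, hF]
    obtain ⟨c, hc⟩ := ih
    refine ⟨F₁ * c, ?_⟩
    linear_combination (x ^ B * F₁) * hc
  | @lower k g _ ih =>
    rw [Polynomial.eval_mul, Polynomial.eval_C, map_mul, hF] at ih
    obtain ⟨c, hc⟩ := ih
    refine hx.pow_dvd_of_dvd_mul_left _ hF₁ ?_
    refine ⟨c, ?_⟩
    refine mul_left_cancel₀ (pow_ne_zero B hx.ne_zero) ?_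
    linear_combination hc
  | @deriv k g l _ ih =>
    obtain ⟨h₁, hh₁⟩ := ih
    rw [Polynomial.eval_add, Polynomial.eval_mul, Polynomial.eval_mul, Polynomial.eval_mul,
      Polynomial.eval_C, Polynomial.eval_C, Polynomial.eval_sub, Polynomial.eval_add,
      Polynomial.eval_X, Polynomial.eval_one, Polynomial.eval_natCast, eval_C_derivC]
    set G := g.eval (MvPowerSeries.C s) with hG
    set H := θ G with hH
    set S : A := algebraMap ℂ A s with hS
    set E : Fin n → A := fun l => θ f * θ (MvPowerSeries.pderiv ℂ l G) +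
      (S + 1 - (k : A)) * θ (MvPowerSeries.pderiv ℂ l f) * H with hE
    have hEl : θ (f * MvPowerSeries.pderiv ℂ l G +
        (MvPowerSeries.C s + 1 - (k : MvPowerSeries (Fin n) ℂ)) *
          MvPowerSeries.pderiv ℂ l f * G) = E l := by
      rw [map_add, map_mul, map_mul, map_mul, map_sub, map_add, map_one, map_natCast, hC]
    rw [hEl]
    set T : J → A := fun j => θ f * D j H + (S + 1 - (k : A)) * D j (θ f) * H with hT
    have hTE : ∀ j, x ^ B * T j = ∑ l, (x ^ B * E l) * M l j := by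
      intro j
      simp only [hT, hE]
      rw [hH, hchain j G, hchain j f]
      rw [Finset.mul_sum, Finset.mul_sum, Finset.sum_mul, ← Finset.sum_add_distrib,
        Finset.mul_sum]
      exact Finset.sum_congr rfl fun i _ => by ring
    have hTd : ∀ j, x ^ (B * (k + 1) + 1) ∣ x ^ B * T j := by
      intro j
      rcases hD j with h | h
      · exact ⟨_, axis_core (D j) hx.ne_zero h hF hh₁ hsC⟩
      · exact ⟨_, axis_core' (D j) h hF hh₁⟩
    exact hinv _ (fun l => x ^ B * E l) (fun j => by rw [← hTE]; exact hTd j) l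

/-- The consequence for `b`. -/
theorem gen_root {n : ℕ} {A : Type} [CommRing A] [IsDomain A] [Algebra ℂ A]
    {f : MvPowerSeries (Fin n) ℂ} (θ : MvPowerSeries (Fin n) ℂ →ₐ[ℂ] A) {x : A} (hx : Prime x)
    {J : Type} (D : J → Derivation ℂ A A) (hD : ∀ j, D j x = 1 ∨ D j x = 0) (M : Fin n → J → A)
    (hchain : ∀ j a, D j (θ a) = ∑ l, θ (MvPowerSeries.pderiv ℂ l a) * M l j)
    (hinv : ∀ (N : ℕ) (e : Fin n → A), (∀ j, x ^ N ∣ ∑ l, e l * M l j) → ∀ l, x ^ N ∣ e l)
    {B : ℕ} (hB0 : 0 < B) {F₁ : A} (hF : θ f = x ^ B * F₁) (hF₁ : ¬ x ∣ F₁)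
    (hxC : ∀ c : ℂ, x ∣ algebraMap ℂ A c → c = 0) {b : Polynomial ℂ}
    (hb : InPs f 1 (b.map (MvPowerSeries.C (σ := Fin n) (R := ℂ)))) :
    b.eval (-(1 / (B : ℂ))) = 0 := by
  have hBC : (B : ℂ) ≠ 0 := by exact_mod_cast hB0.ne'
  have h1 := gen_dvd θ hx D hD M hchain hinv hB0 hF hF₁ (s := -(1 / (B : ℂ)))
    (by field_simp; ring) hb
  rw [Polynomial.eval_map_apply, mul_one] at h1
  have h2 : θ (MvPowerSeries.C (b.eval (-(1 / (B : ℂ))))) =
      algebraMap ℂ A (b.eval (-(1 / (B : ℂ)))) := θ.commutes _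
  rw [h2, pow_succ] at h1
  exact hxC _ ((mul_dvd_mul_iff_left (pow_ne_zero B hx.ne_zero)).1 h1)

instance instDom (n : ℕ) : IsDomain (MvPowerSeries (Fin n) ℂ) := NoZeroDivisors.to_isDomain _

variable {d : ℕ}

/-! ### The substitution `t ↦ t^E` -/

theorem hasSubst_tsub {E : ℕ} (hE : 0 < E) : HasSubst (tsub d E) := by
  refine hasSubst_of_constantCoeff_zero fun s => ?_
  refine Fin.lastCases ?_ (fun k => ?_) s
  · simp [tsub]
  · simp [tsub, hE.ne']

/-- The weights of `tsub`. -/
def tw (d E : ℕ) : Fin (d + 1) → ℕ := Fin.lastCases 1 (fun _ => E)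

theorem tsub_eq (E : ℕ) (s : Fin (d + 1)) : tsub d E s = X s ^ tw d E s := by
  refine Fin.lastCases ?_ (fun k => ?_) s
  · simp [tsub, tw]
  · simp [tsub, tw]

theorem tw_pos {E : ℕ} (hE : 0 < E) (s : Fin (d + 1)) : 0 < tw d E s := by
  refine Fin.lastCases ?_ (fun k => ?_) s
  · simp [tw]
  · simpa [tw] using hE

/-- The map on exponents. -/
def te (d E : ℕ) (v : Fin (d + 1) →₀ ℕ) : Fin (d + 1) →₀ ℕ :=
  Finsupp.equivFunOnFinite.symm fun s => tw d E s * v s

theorem te_apply (E : ℕ) (v : Fin (d + 1) →₀ ℕ) (s : Fin (d + 1)) :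
    te d E v s = tw d E s * v s := rfl

theorem tsub_prod (E : ℕ) (v : Fin (d + 1) →₀ ℕ) :
    v.prod (fun s e => tsub d E s ^ e) = monomial (te d E v) (1 : ℂ) := by
  rw [Finsupp.prod_fintype _ _ (fun s => pow_zero _), monomial_one_eq,
    Finsupp.prod_fintype _ _ (fun s => pow_zero _)]
  refine Finset.prod_congr rfl fun s _ => ?_
  rw [tsub_eq, te_apply, ← pow_mul]

theorem coeff_tsub {E : ℕ} (hE : 0 < E) (F : MvPowerSeries (Fin (d + 1)) ℂ)
    (v : Fin (d + 1) →₀ ℕ) :
    coeff (te d E v) (MvPowerSeries.subst (tsub d E) F) = coeff v F := by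
  classical
  rw [coeff_subst (hasSubst_tsub hE), finsum_eq_single _ v]
  · rw [tsub_prod, coeff_monomial_same, smul_eq_mul, mul_one]
  · intro u hu
    rw [tsub_prod, coeff_monomial, if_neg, smul_zero]
    intro h
    apply hu
    ext s
    have h1 := DFunLike.congr_fun h s
    rw [te_apply, te_apply] at h1
    exact (Nat.eq_of_mul_eq_mul_left (tw_pos hE s) h1).symm

/-! ### The embedding -/

theorem hasSubst_cs : HasSubst (fun k : Fin d => (X k.castSucc : MvPowerSeries (Fin (d + 1)) ℂ)) :=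
  hasSubst_of_constantCoeff_zero fun _ => constantCoeff_X _

/-- The embedding as a homomorphism of algebras. -/
def embA (d : ℕ) : MvPowerSeries (Fin d) ℂ →ₐ[ℂ] MvPowerSeries (Fin (d + 1)) ℂ :=
  MvPowerSeries.substAlgHom (hasSubst_cs (d := d))

theorem embA_apply (a : MvPowerSeries (Fin d) ℂ) : embA d a = emb a :=
  congrFun (MvPowerSeries.coe_substAlgHom hasSubst_cs) a

theorem embA_X (k : Fin d) : embA d (X k) = X k.castSucc := by
  rw [embA_apply]
  exact subst_X hasSubst_cs k

theorem constantCoeff_emb {a : MvPowerSeries (Fin d) ℂ} (ha : constantCoeff a = 0) :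
    constantCoeff (emb a) = 0 :=
  constantCoeff_subst_eq_zero hasSubst_cs (fun _ => constantCoeff_X _) ha

theorem pderiv_last_emb (a : MvPowerSeries (Fin d) ℂ) :
    MvPowerSeries.pderiv ℂ (Fin.last d) (emb a) = 0 := by
  rw [← embA_apply, ARL.chain (θ := embA d) (fun i => by rw [embA_X]; exact constantCoeff_X _)]
  refine Finset.sum_eq_zero fun i _ => ?_
  rw [embA_X, pderiv_X_of_ne (Fin.castSucc_lt_last i).ne, mul_zero]

/-- The map `X last ↦ 0`. -/
def pim (d : ℕ) : Fin (d + 1) → MvPowerSeries (Fin d) ℂ := Fin.lastCases 0 (fun k => X k)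

theorem hasSubst_pim : HasSubst (pim d) := by
  refine hasSubst_of_constantCoeff_zero fun s => ?_
  refine Fin.lastCases ?_ (fun k => ?_) s
  · simp [pim]
  · simp [pim]

/-- The map `X last ↦ 0` as a homomorphism. -/
def piA (d : ℕ) : MvPowerSeries (Fin (d + 1)) ℂ →ₐ[ℂ] MvPowerSeries (Fin d) ℂ :=
  MvPowerSeries.substAlgHom (hasSubst_pim (d := d))

theorem piA_X (s : Fin (d + 1)) : piA d (X s) = pim d s := by
  have h := congrFun (MvPowerSeries.coe_substAlgHom (hasSubst_pim (d := d)))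
    (X s : MvPowerSeries (Fin (d + 1)) ℂ)
  exact h.trans (subst_X hasSubst_pim s)

theorem piA_last : piA d (X (Fin.last d)) = 0 := by
  rw [piA_X]; simp [pim]

theorem piA_cs (k : Fin d) : piA d (X k.castSucc) = X k := by
  rw [piA_X]; simp [pim]

theorem piA_emb (a : MvPowerSeries (Fin d) ℂ) : piA d (emb a) = a := by
  have h := congrFun (MvPowerSeries.coe_substAlgHom (hasSubst_pim (d := d))) (emb a)
  have h2 : MvPowerSeries.subst (pim d) (emb a) = a := by
    unfold emb
    rw [subst_comp_subst_apply hasSubst_cs hasSubst_pim]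
    have h3 : (fun s : Fin d => MvPowerSeries.subst (pim d)
        (X s.castSucc : MvPowerSeries (Fin (d + 1)) ℂ)) = (X : Fin d → MvPowerSeries (Fin d) ℂ) := by
      funext s
      rw [subst_X hasSubst_pim]
      simp [pim]
    rw [h3, subst_self]
    rfl
  exact h.trans h2

theorem not_last_dvd {a : MvPowerSeries (Fin (d + 1)) ℂ} (ha : piA d a ≠ 0) :
    ¬ X (Fin.last d) ∣ a := by
  rintro ⟨c, rfl⟩
  apply ha
  rw [map_mul, piA_last, zero_mul]

theorem piA_const (a : MvPowerSeries (Fin (d + 1)) ℂ) :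
    constantCoeff (piA d a) = constantCoeff a := by
  have h : a = C (constantCoeff a) + (a - C (constantCoeff a)) := by ring
  have h0 : constantCoeff (a - C (constantCoeff a)) = 0 := by
    rw [map_sub, constantCoeff_C, sub_self]
  have h1 : constantCoeff (piA d (a - C (constantCoeff a))) = 0 := by
    have h2 := congrFun (MvPowerSeries.coe_substAlgHom (hasSubst_pim (d := d)))
      (a - C (constantCoeff a))
    have h3 : constantCoeff (MvPowerSeries.subst (pim d) (a - C (constantCoeff a))) = 0 := by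
      refine constantCoeff_subst_eq_zero hasSubst_pim (fun s => ?_) h0
      refine Fin.lastCases ?_ (fun k => ?_) s
      · simp [pim]
      · simp [pim]
    exact (congrArg constantCoeff h2).trans h3
  conv_lhs => rw [h]
  rw [map_add, map_add, h1, add_zero]
  have h4 : piA d (C (constantCoeff a)) = C (constantCoeff a) := (piA d).commutes _
  rw [h4, constantCoeff_C]

/-! ### The shift -/

/-- The map `X last ↦ X last + emb ζ`. -/
def shm (ζ : MvPowerSeries (Fin d) ℂ) : Fin (d + 1) → MvPowerSeries (Fin (d + 1)) ℂ :=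
  Fin.lastCases (X (Fin.last d) + emb ζ) (fun k => X k.castSucc)

theorem constantCoeff_shm {ζ : MvPowerSeries (Fin d) ℂ} (h0 : constantCoeff ζ = 0)
    (s : Fin (d + 1)) : constantCoeff (shm ζ s) = 0 := by
  refine Fin.lastCases ?_ (fun k => ?_) s
  · simp [shm, constantCoeff_emb h0]
  · simp [shm]

/-- The shift as a homomorphism. -/
def shA {ζ : MvPowerSeries (Fin d) ℂ} (h0 : constantCoeff ζ = 0) :
    MvPowerSeries (Fin (d + 1)) ℂ →ₐ[ℂ] MvPowerSeries (Fin (d + 1)) ℂ :=
  MvPowerSeries.substAlgHom (hasSubst_of_constantCoeff_zero (constantCoeff_shm h0))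

theorem shA_apply {ζ : MvPowerSeries (Fin d) ℂ} (h0 : constantCoeff ζ = 0)
    (a : MvPowerSeries (Fin (d + 1)) ℂ) : shA h0 a = MvPowerSeries.subst (shm ζ) a :=
  congrFun (MvPowerSeries.coe_substAlgHom _) a

theorem shA_X {ζ : MvPowerSeries (Fin d) ℂ} (h0 : constantCoeff ζ = 0) (s : Fin (d + 1)) :
    shA h0 (X s) = shm ζ s := by
  rw [shA_apply]
  exact subst_X (hasSubst_of_constantCoeff_zero (constantCoeff_shm h0)) s

theorem shA_emb {ζ : MvPowerSeries (Fin d) ℂ} (h0 : constantCoeff ζ = 0)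
    (a : MvPowerSeries (Fin d) ℂ) : shA h0 (emb a) = emb a := by
  rw [shA_apply]
  unfold emb
  rw [subst_comp_subst_apply hasSubst_cs
    (hasSubst_of_constantCoeff_zero (constantCoeff_shm h0))]
  congr 1
  funext s
  rw [subst_X (hasSubst_of_constantCoeff_zero (constantCoeff_shm h0))]
  simp [shm]

theorem shA_const {ζ : MvPowerSeries (Fin d) ℂ} (h0 : constantCoeff ζ = 0)
    (a : MvPowerSeries (Fin (d + 1)) ℂ) : constantCoeff (shA h0 a) = constantCoeff a := by
  have h : a = C (constantCoeff a) + (a - C (constantCoeff a)) := by ring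
  have h0' : constantCoeff (a - C (constantCoeff a)) = 0 := by
    rw [map_sub, constantCoeff_C, sub_self]
  have h1 : constantCoeff (shA h0 (a - C (constantCoeff a))) = 0 := by
    rw [shA_apply]
    exact constantCoeff_subst_eq_zero
      (hasSubst_of_constantCoeff_zero (constantCoeff_shm h0)) (constantCoeff_shm h0) h0'
  conv_lhs => rw [h]
  rw [map_add, map_add, h1, add_zero]
  have h4 : shA h0 (C (constantCoeff a)) = C (constantCoeff a) := (shA h0).commutes _
  rw [h4, constantCoeff_C]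

/-- `tsub` as a homomorphism. -/
def tsA (d : ℕ) {E : ℕ} (hE : 0 < E) :
    MvPowerSeries (Fin (d + 1)) ℂ →ₐ[ℂ] MvPowerSeries (Fin (d + 1)) ℂ :=
  MvPowerSeries.substAlgHom (hasSubst_tsub (d := d) hE)

theorem tsA_apply {E : ℕ} (hE : 0 < E) (a : MvPowerSeries (Fin (d + 1)) ℂ) :
    tsA d hE a = MvPowerSeries.subst (tsub d E) a :=
  congrFun (MvPowerSeries.coe_substAlgHom _) a

theorem tsA_X {E : ℕ} (hE : 0 < E) (s : Fin (d + 1)) : tsA d hE (X s) = tsub d E s := by
  rw [tsA_apply]
  exact subst_X (hasSubst_tsub hE) s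

end RLh

open RLh

variable {d r : ℕ} {F : MvPowerSeries (Fin (d + 1)) ℂ} {E : ℕ} {N0 : Fin d → ℕ}
  {ζ : Fin r → MvPowerSeries (Fin d) ℂ} {m : Fin r → ℕ} {L : Fin r → Fin r → Fin d → ℕ}

theorem root_leaf (h : IsQO F E N0 ζ m L) (i : Fin r) {b : Polynomial ℂ} (hb : IsB F b) :
    b.eval (-(1 / (m i : ℂ))) = 0 := by
  classical
  obtain ⟨U, hU0, hFU⟩ := h.hF
  have h0 := h.h0 i
  set θ : MvPowerSeries (Fin (d + 1)) ℂ →ₐ[ℂ] MvPowerSeries (Fin (d + 1)) ℂ :=
    (shA h0).comp (tsA d h.hE) with hθ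
  have hθl : θ (MvPowerSeries.X (Fin.last d)) =
      MvPowerSeries.X (Fin.last d) + emb (ζ i) := by
    rw [hθ, AlgHom.comp_apply, tsA_X]
    simp [tsub, shA_X, shm]
  have hθc : ∀ k : Fin d, θ (MvPowerSeries.X k.castSucc) = MvPowerSeries.X k.castSucc ^ E := by
    intro k
    rw [hθ, AlgHom.comp_apply, tsA_X]
    simp [tsub, shA_X, shm]
  have hθ0 : ∀ s, MvPowerSeries.constantCoeff (θ (MvPowerSeries.X s)) = 0 := by
    intro s
    refine Fin.lastCases ?_ (fun k => ?_) s
    · rw [hθl, map_add, MvPowerSeries.constantCoeff_X, constantCoeff_emb h0, add_zero]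
    · rw [hθc, map_pow, MvPowerSeries.constantCoeff_X, zero_pow h.hE.ne']
  set F₁ : MvPowerSeries (Fin (d + 1)) ℂ := shA h0 U *
    (∏ k : Fin d, MvPowerSeries.X k.castSucc ^ (E * N0 k)) *
    ∏ l ∈ Finset.univ.erase i, (MvPowerSeries.X (Fin.last d) + emb (ζ i - ζ l)) ^ m l with hF₁
  have hθF : θ F = MvPowerSeries.X (Fin.last d) ^ m i * F₁ := by
    rw [hθ, AlgHom.comp_apply, tsA_apply, hFU, map_mul, map_mul, map_prod, map_prod,
      ← Finset.mul_prod_erase Finset.univ _ (Finset.mem_univ i)]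
    have e1 : ∀ k : Fin d, shA h0 (MvPowerSeries.X k.castSucc ^ (E * N0 k)) =
        MvPowerSeries.X k.castSucc ^ (E * N0 k) := by
      intro k
      rw [map_pow, shA_X]
      simp [shm]
    have e2 : ∀ l : Fin r, shA h0 ((MvPowerSeries.X (Fin.last d) - emb (ζ l)) ^ m l) =
        (MvPowerSeries.X (Fin.last d) + emb (ζ i - ζ l)) ^ m l := by
      intro l
      rw [map_pow, map_sub, shA_X, shA_emb]
      have : emb (ζ i - ζ l) = emb (ζ i) - emb (ζ l) := by
        rw [← embA_apply, ← embA_apply, ← embA_apply, map_sub]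
      rw [this]
      simp only [shm, Fin.lastCases_last]
      congr 1
      ring
    simp only [e1, e2]
    have e3 : emb (ζ i - ζ i) = 0 := by
      rw [sub_self, ← embA_apply, map_zero]
    rw [e3, add_zero, hF₁]
    ring
  have hF₁n : ¬ MvPowerSeries.X (Fin.last d) ∣ F₁ := by
    refine not_last_dvd ?_
    rw [hF₁, map_mul, map_mul, map_prod, map_prod]
    refine mul_ne_zero (mul_ne_zero ?_ ?_) ?_
    · intro h1
      apply hU0
      rw [← shA_const h0 U, ← piA_const, h1, map_zero]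
    · refine Finset.prod_ne_zero_iff.2 fun k _ => ?_
      rw [map_pow, piA_cs]
      exact pow_ne_zero _ (prime_X k).ne_zero
    · refine Finset.prod_ne_zero_iff.2 fun l hl => ?_
      rw [map_pow, map_add, piA_last, zero_add, piA_emb]
      refine pow_ne_zero _ ?_
      obtain ⟨u, hu, he⟩ := h.hL i l (Finset.ne_of_mem_erase hl).symm
      rw [he]
      refine mul_ne_zero (Finset.prod_ne_zero_iff.2 fun k _ =>
        pow_ne_zero _ (prime_X k).ne_zero) ?_
      rintro rfl
      exact hu (map_zero _)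
  refine gen_root θ (prime_X (Fin.last d)) (fun j => MvPowerSeries.pderiv ℂ j) (fun j => ?_)
    (fun l j => MvPowerSeries.pderiv ℂ j (θ (MvPowerSeries.X l)))
    (fun j a => ARL.chain (θ := θ) hθ0 _ a) ?_ (h.hm i) hθF hF₁n (fun c hc => ?_) hb
  · by_cases hj : j = Fin.last d
    · left
      rw [hj]
      exact MvPowerSeries.pderiv_X_self
    · right
      exact MvPowerSeries.pderiv_X_of_ne (Ne.symm hj)
  · intro N e he
    have hlast : MvPowerSeries.X (Fin.last d) ^ N ∣ e (Fin.last d) := by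
      have h1 := he (Fin.last d)
      rw [Fin.sum_univ_castSucc] at h1
      have h2 : ∀ k : Fin d, MvPowerSeries.pderiv ℂ (Fin.last d)
          (θ (MvPowerSeries.X k.castSucc)) = 0 := by
        intro k
        rw [hθc, Derivation.leibniz_pow,
          MvPowerSeries.pderiv_X_of_ne (Fin.castSucc_lt_last k).ne, smul_zero, smul_zero]
      simp only [h2, mul_zero, Finset.sum_const_zero, zero_add] at h1
      rw [hθl, map_add, MvPowerSeries.pderiv_X_self, pderiv_last_emb, add_zero, mul_one] at h1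
      exact h1
    intro l
    refine Fin.lastCases hlast (fun k => ?_) l
    have h1 := he k.castSucc
    rw [Fin.sum_univ_castSucc, Finset.sum_eq_single k] at h1
    · rw [hθc, Derivation.leibniz_pow, MvPowerSeries.pderiv_X_self] at h1
      have h3 := (dvd_add_left (Dvd.dvd.mul_right hlast
        (MvPowerSeries.pderiv ℂ k.castSucc (θ (MvPowerSeries.X (Fin.last d)))))).1 h1
      refine (prime_X (Fin.last d)).pow_dvd_of_dvd_mul_right _ ?_ h3
      refine not_last_dvd ?_
      rw [smul_eq_mul, mul_one, nsmul_eq_mul, map_mul, map_natCast, map_pow, piA_cs]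
      refine mul_ne_zero ?_ (pow_ne_zero _ (prime_X k).ne_zero)
      have hE0 := h.hE.ne'
      intro hh
      have h5 := congrArg MvPowerSeries.constantCoeff hh
      rw [map_natCast, map_zero] at h5
      exact hE0 (by exact_mod_cast h5)
    · intro l' _ hl'
      rw [hθc, Derivation.leibniz_pow, MvPowerSeries.pderiv_X_of_ne
        (fun hh => hl' (Fin.castSucc_injective d hh)), smul_zero, smul_zero, mul_zero]
    · intro hk
      exact absurd (Finset.mem_univ k) hk
  · by_contra hc0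
    refine not_last_dvd ?_ hc
    have h1 : piA d (algebraMap ℂ (MvPowerSeries (Fin (d + 1)) ℂ) c) = algebraMap ℂ _ c :=
      (piA d).commutes c
    rw [h1]
    intro h2
    apply hc0
    have h3 := congrArg MvPowerSeries.constantCoeff h2
    rw [map_zero] at h3
    have h4 : MvPowerSeries.constantCoeff (algebraMap ℂ (MvPowerSeries (Fin d) ℂ) c) = c :=
      MvPowerSeries.constantCoeff_C c
    rwa [h4] at h3

theorem root_axis (h : IsQO F E N0 ζ m L) (j : Fin d) (hj : 0 < N0 j) {b : Polynomial ℂ}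
    (hb : IsB F b) : b.eval (-(1 / (N0 j : ℂ))) = 0 := by
  classical
  obtain ⟨U, hU0, hFU⟩ := h.hF
  have hpr := prime_X j.castSucc
  have htw : RLh.tw d E j.castSucc = E := by simp [RLh.tw]
  have hE : 0 < E := h.hE
  set R : MvPowerSeries (Fin (d + 1)) ℂ := U *
    (∏ k ∈ Finset.univ.erase j, MvPowerSeries.X k.castSucc ^ (E * N0 k)) *
    ∏ i, (MvPowerSeries.X (Fin.last d) - emb (ζ i)) ^ m i with hR
  have hFR : MvPowerSeries.subst (tsub d E) F =
      MvPowerSeries.X j.castSucc ^ (E * N0 j) * R := by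
    rw [hFU, ← Finset.mul_prod_erase Finset.univ _ (Finset.mem_univ j), hR]
    ring
  have hRn : ¬ MvPowerSeries.X j.castSucc ∣ R := by
    rw [hR]
    intro hd
    rcases hpr.dvd_or_dvd hd with hd | hd
    · rcases hpr.dvd_or_dvd hd with hd | hd
      · obtain ⟨c, hc⟩ := hd
        apply hU0
        rw [hc, map_mul, MvPowerSeries.constantCoeff_X, zero_mul]
      · obtain ⟨k, hk, hd⟩ := (hpr.dvd_finsetProd_iff _).1 hd
        have h1 := hpr.dvd_of_dvd_pow hd
        obtain ⟨c, hc⟩ := h1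
        have h2 := congrArg (MvPowerSeries.pderiv ℂ k.castSucc) hc
        have hne : (k.castSucc : Fin (d + 1)) ≠ j.castSucc := fun hh =>
          Finset.ne_of_mem_erase hk (Fin.castSucc_injective d hh)
        rw [MvPowerSeries.pderiv_X_self, Derivation.leibniz,
          MvPowerSeries.pderiv_X_of_ne hne.symm, smul_zero, add_zero, smul_eq_mul] at h2
        have h3 := congrArg MvPowerSeries.constantCoeff h2
        rw [map_mul, MvPowerSeries.constantCoeff_X, zero_mul, map_one] at h3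
        exact one_ne_zero h3
    · obtain ⟨l, _, hd⟩ := (hpr.dvd_finsetProd_iff _).1 hd
      obtain ⟨c, hc⟩ := hpr.dvd_of_dvd_pow hd
      have h2 := congrArg (MvPowerSeries.pderiv ℂ (Fin.last d)) hc
      rw [map_sub, MvPowerSeries.pderiv_X_self, pderiv_last_emb, Derivation.leibniz,
        MvPowerSeries.pderiv_X_of_ne (Fin.castSucc_lt_last j).ne, smul_zero, add_zero,
        smul_eq_mul, sub_zero] at h2
      have h3 := congrArg MvPowerSeries.constantCoeff h2
      rw [map_mul, MvPowerSeries.constantCoeff_X, zero_mul, map_one] at h3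
      exact one_ne_zero h3
  have hdv : MvPowerSeries.X j.castSucc ^ N0 j ∣ F := by
    rw [MvPowerSeries.X_pow_dvd_iff]
    intro v hv
    rw [← coeff_tsub h.hE F v]
    have h1 : MvPowerSeries.X j.castSucc ^ (E * N0 j) ∣ MvPowerSeries.subst (tsub d E) F :=
      ⟨R, hFR⟩
    refine MvPowerSeries.X_pow_dvd_iff.1 h1 _ ?_
    rw [te_apply, htw]
    exact Nat.mul_lt_mul_of_pos_left hv h.hE
  obtain ⟨F₁, hF₁⟩ := hdv
  have hF₁n : ¬ MvPowerSeries.X j.castSucc ∣ F₁ := by
    rintro ⟨c, hc⟩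
    have h1 : tsA d hE F = MvPowerSeries.X j.castSucc ^ (E * N0 j) *
        (MvPowerSeries.X j.castSucc ^ E * tsA d hE c) := by
      rw [hF₁, hc, map_mul, map_mul, map_pow, tsA_X]
      have : tsub d E j.castSucc = MvPowerSeries.X j.castSucc ^ E := by simp [tsub]
      rw [this, ← pow_mul]
    rw [tsA_apply, hFR] at h1
    have h2 := mul_left_cancel₀ (pow_ne_zero _ hpr.ne_zero) h1
    apply hRn
    rw [h2]
    exact Dvd.dvd.mul_right (dvd_pow_self _ h.hE.ne') _
  refine gen_root (AlgHom.id ℂ _) hpr (fun l => MvPowerSeries.pderiv ℂ l) (fun l => ?_)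
    (fun l l' => if l = l' then 1 else 0) (fun l a => ?_) ?_ hj hF₁ hF₁n (fun c hc => ?_) hb
  · by_cases hl : l = j.castSucc
    · left
      rw [hl]
      exact MvPowerSeries.pderiv_X_self
    · right
      exact MvPowerSeries.pderiv_X_of_ne (Ne.symm hl)
  · simp
  · intro N e he l
    have h1 := he l
    simpa using h1
  · obtain ⟨c', hc'⟩ := hc
    have h3 := congrArg MvPowerSeries.constantCoeff hc'
    rw [map_mul, MvPowerSeries.constantCoeff_X, zero_mul] at h3
    have h4 : MvPowerSeries.constantCoeff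
        (algebraMap ℂ (MvPowerSeries (Fin (d + 1)) ℂ) c) = c :=
      MvPowerSeries.constantCoeff_C c
    rwa [h4] at h3

end QO

end MPb07157
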