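import Pool.Agent.Lib.MP_b07157_agO.RV
import Pool.Agent.Lib.MP_b07157_agO.RL

/-!
# Quasi-ordinary germs: the root side
-/

noncomputable section

namespace MPb07157

namespace QO

variable {d r : ℕ} {F : MvPowerSeries (Fin (d + 1)) ℂ} {E : ℕ} {N0 : Fin d → ℕ}
  {ζ : Fin r → MvPowerSeries (Fin d) ℂ} {m : Fin r → ℕ} {L : Fin r → Fin r → Fin d → ℕ}

/-- The contacts with two roots of a cluster agree below `Q`. -/
theorem min_contact_eq (h : IsQO F E N0 ζ m L) {i l1 : Fin r} {j : Fin d} {Q : ℕ}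
    (hl1 : l1 ∈ clu L i j Q) (l : Fin r) :
    (if l = l1 then Q else min (L l1 l j) Q) = if l = i then Q else min (L i l j) Q := by
  simp only [clu, Finset.mem_filter, Finset.mem_univ, true_and] at hl1
  by_cases h1i : l1 = i
  · rw [h1i]
  · have hQ1 : Q ≤ L i l1 j := hl1.resolve_left h1i
    by_cases hl : l = l1
    · have hli : l ≠ i := hl ▸ h1i
      rw [if_pos hl, if_neg hli, hl, min_eq_right hQ1]
    · rw [if_neg hl]
      by_cases hli : l = i
      · rw [if_pos hli, hli, L_symm h h1i, min_eq_right hQ1]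
      · rw [if_neg hli]
        have hll : l ≠ l1 := hl
        rcases L_total h hli h1i with h3 | h3
        · by_cases h4 : L i l = L i l1
          · have h5 := L_ultra h hli h1i hll h3 j
            rw [L_symm h (Ne.symm hll)]
            rw [h4] at h5 ⊢
            rw [min_eq_right (hQ1.trans h5), min_eq_right hQ1]
          · have h5 := L_eq h hli h1i hll h3 h4
            rw [L_symm h (Ne.symm hll), h5]
        · have h5 := L_ultra h h1i hli (Ne.symm hll) h3 j
          rw [min_eq_right (hQ1.trans h5), min_eq_right (hQ1.trans (h3 j))]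

/-- The node `(i, j, Q)` is not bad: some vertex of its class is not bad. -/
theorem exists_vertex (h : IsQO F E N0 ζ m L) {i l : Fin r} {j : Fin d} {Q : ℕ} (hl : l ≠ i)
    (hQ : L i l j = Q) (hQ0 : 0 < Q) (hbad : ¬ Bad E N0 L i j Q) :
    ∃ (i' : Fin r) (Λ : Fin d → ℕ), IsV L i' Λ ∧ Λ j = Q ∧ ¬ VBad E N0 ζ L i' Λ j ∧
      gam E N0 m L i' Λ j = NN E N0 m L i j Q := by
  classical
  -- the minimal contact exponent with value `Q` at `j`
  obtain ⟨l0, hl0, hmin⟩ : ∃ l0 ∈ Finset.univ.filter (fun l => l ≠ i ∧ L i l j = Q),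
      ∀ l ∈ Finset.univ.filter (fun l => l ≠ i ∧ L i l j = Q), ∀ k, L i l0 k ≤ L i l k := by
    have hne : (Finset.univ.filter (fun l => l ≠ i ∧ L i l j = Q)).Nonempty := by
      refine ⟨l, ?_⟩
      simp only [Finset.mem_filter, Finset.mem_univ, true_and]
      exact ⟨hl, hQ⟩
    obtain ⟨l0, hl0, hl0min⟩ := Finset.exists_min_image _ (fun l => ∑ k, L i l k) hne
    refine ⟨l0, hl0, fun l hl k => ?_⟩
    have hl' := (Finset.mem_filter.mp hl).2
    have hl0' := (Finset.mem_filter.mp hl0).2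
    rcases L_total h hl0'.1 hl'.1 with h3 | h3
    · exact h3 k
    · have h4 := hl0min l hl
      by_contra h5
      push Not at h5
      have h6 : ∑ k, L i l k < ∑ k, L i l0 k :=
        Finset.sum_lt_sum (fun k _ => h3 k) ⟨k, Finset.mem_univ k, h5⟩
      omega
  have hl0' := (Finset.mem_filter.mp hl0).2
  obtain ⟨Λ, hΛdef⟩ : ∃ Λ, Λ = L i l0 := ⟨_, rfl⟩
  have hV : IsV L i Λ := ⟨l0, hl0'.1, hΛdef.symm⟩
  have hΛj : Λ j = Q := by rw [hΛdef]; exact hl0'.2
  by_cases hVB : VBad E N0 ζ L i Λ j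
  · obtain ⟨hN, hcon, p, hp, hcard⟩ := hVB
    have hcl : ∀ l ∈ clu L i j Q, l ∈ vcl L i Λ := by
      intro l hl
      simp only [clu, vcl, Finset.mem_filter, Finset.mem_univ, true_and] at hl ⊢
      rcases hl with hl | hl
      · exact Or.inl hl
      · by_cases hli : l = i
        · exact Or.inl hli
        · right
          rcases hcon l hli with h3 | h3
          · omega
          · exact h3
    have hS : ∃ S : Finset (Fin r), S ⊆ clu L i j Q ∧
        (∀ l ∈ S, ∀ l' ∈ S, l ≠ l' → L l l' j = Q) ∧ p + 1 < S.card := by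
      by_contra hcon2
      refine hbad ⟨hN, fun l hl => ?_, p, ?_, fun S hS1 hS2 => ?_⟩
      · rcases hcon l hl with h3 | h3
        · exact Or.inl h3
        · right
          rw [← hΛj]
          exact h3 j
      · rw [hp, hΛj]
      · by_contra h4
        push Not at h4
        exact hcon2 ⟨S, hS1, hS2, h4⟩
    obtain ⟨S, hS1, hS2, hS3⟩ := hS
    have hlt : (S.image (val ζ Λ)).card < S.card := by
      refine lt_of_le_of_lt ?_ hS3
      refine le_trans (Finset.card_le_card (Finset.image_subset_image ?_)) hcard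
      exact fun l hl => hcl l (hS1 hl)
    obtain ⟨l1, hl1, l2, hl2, h12, hval⟩ : ∃ l1 ∈ S, ∃ l2 ∈ S, l1 ≠ l2 ∧
        val ζ Λ l1 = val ζ Λ l2 := by
      obtain ⟨l1, hl1, l2, hl2, h12, hval⟩ :=
        Finset.exists_ne_map_eq_of_card_lt_of_maps_to hlt
          (fun l hl => Finset.mem_coe.mpr (Finset.mem_image_of_mem (val ζ Λ) hl))
      exact ⟨l1, hl1, l2, hl2, h12, hval⟩
    have hv1 := hcl l1 (hS1 hl1)
    have hv2 := hcl l2 (hS1 hl2)
    have hvi := mem_vcl_self L i Λ
    have hv0 : l0 ∈ vcl L i Λ := by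
      simp only [vcl, Finset.mem_filter, Finset.mem_univ, true_and]
      right
      intro k
      rw [hΛdef]
    have hne12 : L l1 l2 ≠ Λ := fun h5 => ((val_ne_iff h hV hv1 hv2 h12).mpr h5) hval
    have hj12 : L l1 l2 j = Q := hS2 l1 hl1 l2 hl2 h12
    have hge : ∀ k, Λ k ≤ L l1 l2 k := by
      have hv1' := hv1
      have hv2' := hv2
      simp only [vcl, Finset.mem_filter, Finset.mem_univ, true_and] at hv1' hv2'
      by_cases h1i : l1 = i
      · rw [h1i]
        have h2i : l2 ≠ i := fun h5 => h12 (h1i.trans h5.symm)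
        exact hv2'.resolve_left h2i
      · by_cases h2i : l2 = i
        · rw [h2i, L_symm h h1i]
          exact hv1'.resolve_left h1i
        · have h3 := hv1'.resolve_left h1i
          have h4 := hv2'.resolve_left h2i
          rcases L_total h h1i h2i with h5 | h5
          · exact fun k => (h3 k).trans (L_ultra h h1i h2i h12 h5 k)
          · intro k
            rw [L_symm h h12]
            exact (h4 k).trans (L_ultra h h2i h1i h12.symm h5 k)
    obtain ⟨l3, hl3, hl31⟩ : ∃ l3, l3 ≠ l1 ∧ L l1 l3 = Λ := by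
      have hne0 : val ζ Λ i ≠ val ζ Λ l0 :=
        (val_ne_iff h hV hvi hv0 hl0'.1.symm).mpr hΛdef.symm
      by_cases h5 : val ζ Λ l1 = val ζ Λ i
      · have h6 : val ζ Λ l1 ≠ val ζ Λ l0 := by rw [h5]; exact hne0
        have h7 : l1 ≠ l0 := fun h8 => h6 (by rw [h8])
        exact ⟨l0, h7.symm, (val_ne_iff h hV hv1 hv0 h7).mp h6⟩
      · have h7 : l1 ≠ i := fun h8 => h5 (by rw [h8])
        exact ⟨i, h7.symm, (val_ne_iff h hV hv1 hvi h7).mp h5⟩
    refine ⟨l1, L l1 l2, ⟨l2, h12.symm, rfl⟩, hj12, ?_, ?_⟩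
    · rintro ⟨_, hcon3, _⟩
      rcases hcon3 l3 hl3 with h5 | h5
      · rw [hl31, hΛj] at h5
        omega
      · apply hne12
        funext k
        refine le_antisymm ?_ (hge k)
        rw [hl31] at h5
        exact h5 k
    · unfold gam NN
      congr 1
      refine Finset.sum_congr rfl fun l _ => ?_
      rw [hj12, min_contact_eq h (hS1 hl1) l]
  · refine ⟨i, Λ, hV, hΛj, hVB, ?_⟩
    unfold gam NN
    rw [hΛj]

/-- **Root side.** -/
theorem noCand (h : IsQO F E N0 ζ m L) {b : Polynomial ℂ} (hb : IsB F b) {s₀ : ℚ}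
    (hs : b.eval (s₀ : ℂ) ≠ 0) (h1 : s₀ ≠ -1) : NoCand E N0 m L s₀ := by
  refine ⟨h1, fun i h2 => ?_, fun j h2 => ?_, fun i j Q l hl hQ hQ0 hbad h2 => ?_,
    fun i j j' Q hQ0 htwo h2 => ?_⟩
  · have hm : (m i : ℚ) ≠ 0 := by
      have := h.hm i
      positivity
    apply hs
    have h3 : s₀ = -(1 / (m i : ℚ)) := by
      field_simp
      linarith
    rw [h3]
    push_cast
    exact root_leaf h i hb
  · have hN : 0 < N0 j := by
      by_contra h3
      have h4 : N0 j = 0 := by omega
      rw [h4] at h2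
      norm_num at h2
    have hm : (N0 j : ℚ) ≠ 0 := by
      positivity
    apply hs
    have h3 : s₀ = -(1 / (N0 j : ℚ)) := by
      field_simp
      linarith
    rw [h3]
    push_cast
    exact root_axis h j hN hb
  · obtain ⟨i', Λ, hV, hΛj, hVB, hgam⟩ := exists_vertex h hl hQ hQ0 hbad
    have hE : (0 : ℚ) < E := by exact_mod_cast h.hE
    have hN : (NN E N0 m L i j Q : ℚ) ≠ 0 := by
      intro h3
      rw [h3, mul_zero] at h2
      have : (0 : ℚ) ≤ Q := by positivity
      linarith
    apply hs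
    have h3 : s₀ = -(((E : ℚ) + Q) / (NN E N0 m L i j Q : ℚ)) := by
      field_simp
      linarith
    rw [h3]
    have h4 := root_vertex h hV (j := j) (by rw [hΛj]; exact hQ0) hVB hb
    rw [hgam, hΛj] at h4
    push_cast
    exact h4
  · have hE : (0 : ℚ) < E := by exact_mod_cast h.hE
    have hN : ((mas m L i j Q * Q : ℕ) : ℚ) ≠ 0 := by
      intro h3
      rw [h3, mul_zero] at h2
      have : (0 : ℚ) ≤ Q := by positivity
      linarith
    apply hs
    have h3 : s₀ = -(((E : ℚ) + Q) / ((mas m L i j Q * Q : ℕ) : ℚ)) := by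
      rw [eq_neg_iff_add_eq_zero, eq_comm, ← sub_eq_zero]
      field_simp
      linarith
    rw [h3]
    have h4 := root_two h hQ0 htwo hb
    rw [Rat.cast_neg, Rat.cast_div, Rat.cast_add, Rat.cast_natCast, Rat.cast_natCast,
      Rat.cast_natCast]
    exact h4

end QO

end MPb07157
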