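import Pool.Agent.Lib.MP_b07157_agO.MZ
import Pool.Agent.Lib.MP_b07157_agO.RM

/-!
# Quasi-ordinary germs: assembly
-/

noncomputable section

namespace MPb07157

open MvPolynomial

namespace QO

/-- A formal equation `b(s) f^s = P(s) f^(s+1)` gives one for `F` if `f` is a unit times the image of
`F` under a formal change of coordinates. -/
theorem inPs_of_formEquiv {n : ℕ} {f : MvPolynomial (Fin n) ℂ} {F : MvPowerSeries (Fin n) ℂ}
    {e : MvPowerSeries (Fin n) ℂ ≃ₐ[ℂ] MvPowerSeries (Fin n) ℂ} (u : (MvPowerSeries (Fin n) ℂ)ˣ)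
    (hf : (f : MvPowerSeries (Fin n) ℂ) = u * e F) {b : Polynomial ℂ}
    (hb : InDnForm f 1 (b.map (MvPowerSeries.C (σ := Fin n) (R := ℂ)))) :
    InPs F 1 (b.map (MvPowerSeries.C (σ := Fin n) (R := ℂ))) := by
  have h1 := (inPs_of_form hb).unit_pow (G := e F) one_pos u (by rw [hf, pow_one])
  set v : MvPowerSeries (Fin n) ℂ := ((u⁻¹ : (MvPowerSeries (Fin n) ℂ)ˣ) : MvPowerSeries (Fin n) ℂ)
    with hv
  have huv : (u : MvPowerSeries (Fin n) ℂ) * v = 1 := Units.mul_inv u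
  have hcomp : (b.map (MvPowerSeries.C (σ := Fin n) (R := ℂ))).comp
      (Polynomial.C (MvPowerSeries.C (((1 : ℕ) : ℂ)⁻¹)) * Polynomial.X) =
      b.map (MvPowerSeries.C (σ := Fin n) (R := ℂ)) := by
    rw [Nat.cast_one, inv_one, map_one, map_one, one_mul, Polynomial.comp_X]
  rw [hcomp] at h1
  have h2 : InPs (e F) 1 (b.map (MvPowerSeries.C (σ := Fin n) (R := ℂ))) := by
    refine (h1.mul (Polynomial.C (u : MvPowerSeries (Fin n) ℂ))).of_eq (by norm_num) ?_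
    rw [← mul_assoc, ← map_mul]
    rw [pow_one, Nat.sub_self, pow_zero, mul_one, huv, map_one, one_mul]
  have h3 := h2.equiv e.symm
  have h4 : e.symm (e F) = F := AlgEquiv.symm_apply_apply _ _
  rw [h4] at h3
  refine h3.of_eq rfl ?_
  refine Polynomial.ext fun j => ?_
  rw [Polynomial.coeff_map, Polynomial.coeff_map]
  exact e.symm.commutes _

/-- The germ of `f` at the origin is quasi-ordinary: in suitable formal coordinates
`(x_1, …, x_d, z)` it is a unit times a series `F` with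
`F(t^E, z) = U(t, z) t^(E N0) ∏ (z - ζ_i(t))^(m_i)`, where `U` is a unit and the differences of the
roots `ζ_i` are monomials times units. -/
def QuasiOrd {d : ℕ} (f : MvPolynomial (Fin (d + 1)) ℂ) : Prop :=
  ∃ (e : MvPowerSeries (Fin (d + 1)) ℂ ≃ₐ[ℂ] MvPowerSeries (Fin (d + 1)) ℂ)
    (u : (MvPowerSeries (Fin (d + 1)) ℂ)ˣ) (F : MvPowerSeries (Fin (d + 1)) ℂ)
    (E : ℕ) (N0 : Fin d → ℕ) (r : ℕ) (ζ : Fin r → MvPowerSeries (Fin d) ℂ) (m : Fin r → ℕ)
    (L : Fin r → Fin r → Fin d → ℕ),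
    (f : MvPowerSeries (Fin (d + 1)) ℂ) = u * e F ∧ IsQO F E N0 ζ m L

/-- **The strong monodromy conjecture, local version**, for quasi-ordinary germs, from the pole
side. -/
theorem smcLoc_of_pole
    (hpole : ∀ {d r : ℕ} {F : MvPowerSeries (Fin (d + 1)) ℂ} {E : ℕ} {N0 : Fin d → ℕ}
      {ζ : Fin r → MvPowerSeries (Fin d) ℂ} {m : Fin r → ℕ} {L : Fin r → Fin r → Fin d → ℕ}
      (_ : IsQO F E N0 ζ m L) {s₀ : ℚ} (_ : s₀ < 0) (_ : NoCand E N0 m L s₀),
      ZQ F ∈ regularAt s₀)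
    {d : ℕ} {f : MvPolynomial (Fin (d + 1)) ℂ} (hf : f ≠ 0) (h0 : coeff 0 f = 0)
    (h : QuasiOrd f) : SmcLoc f := by
  obtain ⟨e, u, F, E, N0, r, ζ, m, L, hfF, hQ⟩ := h
  intro s₀ hs hp b hb
  by_contra hb0
  apply hp
  rw [Zmot0_eq_ZQ u hfF]
  refine hpole hQ hs (noCand hQ (inPs_of_formEquiv u hfF hb) hb0 ?_)
  rintro rfl
  exact hb0 (neg_one_root hf (MvPolynomial.notMem_support_iff.2 h0) b hb)

end QO

end MPb07157
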