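import Pool.Agent.Lib.MP_b07157_ag.K0
import Mathlib.RingTheory.Spectrum.Prime.Chevalley
import Mathlib.RingTheory.Nullstellensatz

/-!
# Chevalley's theorem for constructible subsets of affine spaces
-/

noncomputable section

namespace MPb07157

open MvPolynomial

variable {σ τ : Type}

/-- The closed point of the spectrum defined by `x`. -/
def ptSpec (x : σ → ℂ) : PrimeSpectrum (MvPolynomial σ ℂ) :=
  ⟨RingHom.ker (eval x), RingHom.ker_isPrime _⟩

theorem mem_ptSpec {x : σ → ℂ} {p : MvPolynomial σ ℂ} : p ∈ (ptSpec x).asIdeal ↔ eval x p = 0 :=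
  Iff.rfl

theorem comap_ptSpec (φ : τ → MvPolynomial σ ℂ) (x : σ → ℂ) :
    PrimeSpectrum.comap (aeval φ : MvPolynomial τ ℂ →ₐ[ℂ] MvPolynomial σ ℂ).toRingHom (ptSpec x) =
      ptSpec (polyMap φ x) := by
  ext p
  rw [PrimeSpectrum.comap_asIdeal, Ideal.mem_comap, mem_ptSpec, mem_ptSpec, eval_polyMap]
  rfl

/-- A constructible set is the set of closed points of a constructible subset of the spectrum. -/
theorem IsConstr.exists_isConstructible {S : Set (σ → ℂ)} (hS : IsConstr S) :
    ∃ s : Set (PrimeSpectrum (MvPolynomial σ ℂ)), Topology.IsConstructible s ∧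
      ∀ x, x ∈ S ↔ ptSpec x ∈ s := by
  induction hS with
  | zeros p =>
    refine ⟨PrimeSpectrum.zeroLocus {p}, ?_, fun x => ?_⟩
    · rw [← Topology.isConstructible_compl]
      exact (PrimeSpectrum.isRetrocompact_zeroLocus_compl (Set.finite_singleton _)).isConstructible
        (PrimeSpectrum.isClosed_zeroLocus _).isOpen_compl
    · rw [PrimeSpectrum.mem_zeroLocus, Set.singleton_subset_iff]
      exact Iff.rfl
  | compl _ ih =>
    obtain ⟨s, hs, h⟩ := ih
    exact ⟨sᶜ, hs.compl, fun x => by rw [Set.mem_compl_iff, Set.mem_compl_iff, h]⟩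
  | inter _ _ ih₁ ih₂ =>
    obtain ⟨s, hs, h⟩ := ih₁
    obtain ⟨t, ht, h'⟩ := ih₂
    exact ⟨s ∩ t, hs.inter ht, fun x => by rw [Set.mem_inter_iff, Set.mem_inter_iff, h, h']⟩

/-- The closed points of a constructible subset of the spectrum are a constructible set. -/
theorem isConstr_of_isConstructible {s : Set (PrimeSpectrum (MvPolynomial σ ℂ))}
    (hs : Topology.IsConstructible s) : IsConstr {x : σ → ℂ | ptSpec x ∈ s} := by
  classical
  obtain ⟨S, rfl⟩ := PrimeSpectrum.exists_constructibleSetData_iff.2 hs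
  have h : {x : σ → ℂ | ptSpec x ∈ S.toSet} = {x : σ → ℂ | ∃ C ∈ S, (∀ i ∈ Finset.univ,
      eval x (C.g i) = 0) ∧ eval x C.f ≠ 0} := by
    ext x
    simp only [Set.mem_ofPred_eq, PrimeSpectrum.ConstructibleSetData.toSet, Set.mem_iUnion,
      exists_prop, PrimeSpectrum.BasicConstructibleSetData.toSet, Set.mem_sdiff,
      PrimeSpectrum.mem_zeroLocus, Set.singleton_subset_iff, Set.range_subset_iff,
      Finset.mem_univ, forall_true_left]
    rfl
  rw [h]
  refine isConstr_exists_mem S _ fun C _ => isConstr_setOf_and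
    (isConstr_forall_mem Finset.univ _ fun i _ => isConstr_eq_zero _) (isConstr_ne_zero _)

/-- **Chevalley's theorem**: polynomial maps map constructible sets to constructible sets. -/
theorem IsConstr.image [Finite σ] [Finite τ] {S : Set (σ → ℂ)} (hS : IsConstr S)
    (φ : τ → MvPolynomial σ ℂ) : IsConstr (polyMap φ '' S) := by
  classical
  obtain ⟨s, hs, h⟩ := hS.exists_isConstructible
  set f : MvPolynomial τ ℂ →+* MvPolynomial σ ℂ :=
    (aeval φ : MvPolynomial τ ℂ →ₐ[ℂ] MvPolynomial σ ℂ).toRingHom with hf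
  have hfp : f.FinitePresentation := by
    have h1 : (f.comp (algebraMap ℂ (MvPolynomial τ ℂ))).FinitePresentation := by
      have h2 : f.comp (algebraMap ℂ (MvPolynomial τ ℂ)) = algebraMap ℂ (MvPolynomial σ ℂ) := by
        ext x
        simp [hf]
      rw [h2, RingHom.finitePresentation_algebraMap]
      infer_instance
    exact RingHom.FinitePresentation.of_comp_finiteType _ h1
      (RingHom.finiteType_algebraMap.2 inferInstance)
  have h1 := PrimeSpectrum.isConstructible_comap_image hfp hs
  have h2 : polyMap φ '' S = {y | ptSpec y ∈ PrimeSpectrum.comap f '' s} := by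
    ext y
    constructor
    · rintro ⟨x, hx, rfl⟩
      exact ⟨ptSpec x, (h x).1 hx, comap_ptSpec φ x⟩
    · rintro ⟨Q, hQ, hQy⟩
      obtain ⟨D, rfl⟩ := PrimeSpectrum.exists_constructibleSetData_iff.2 hs
      obtain ⟨C, hC, hQC⟩ : ∃ C ∈ D, Q ∈ C.toSet := by
        simpa [PrimeSpectrum.ConstructibleSetData.toSet] using hQ
      have hQ1 : ∀ i, C.g i ∈ Q.asIdeal := by
        have := hQC.1
        rw [PrimeSpectrum.mem_zeroLocus, Set.range_subset_iff] at this
        exact this
      have hQ2 : C.f ∉ Q.asIdeal := by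
        have := hQC.2
        rwa [PrimeSpectrum.mem_zeroLocus, Set.singleton_subset_iff] at this
      have hQ3 : ∀ j, φ j - MvPolynomial.C (y j) ∈ Q.asIdeal := by
        intro j
        have h3 : X j - MvPolynomial.C (y j) ∈ (PrimeSpectrum.comap f Q).asIdeal := by
          rw [hQy, mem_ptSpec, map_sub, eval_X, eval_C, sub_self]
        rw [PrimeSpectrum.comap_asIdeal, Ideal.mem_comap] at h3
        have h4 : f (X j - MvPolynomial.C (y j)) = φ j - MvPolynomial.C (y j) := by
          rw [map_sub]
          congr 1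
          · exact aeval_X φ j
          · exact aeval_C φ (y j)
        rwa [h4] at h3
      set I : Ideal (MvPolynomial σ ℂ) := Ideal.span (Set.range C.g) ⊔
        Ideal.span (Set.range fun j => φ j - MvPolynomial.C (y j)) with hI
      have hIQ : I ≤ Q.asIdeal := by
        rw [hI, sup_le_iff, Ideal.span_le, Ideal.span_le, Set.range_subset_iff,
          Set.range_subset_iff]
        exact ⟨hQ1, hQ3⟩
      have h5 : C.f ∉ I.radical := by
        intro h6
        exact hQ2 ((Ideal.IsPrime.radical_le_iff Q.2).2 hIQ h6)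
      rw [← vanishingIdeal_zeroLocus_eq_radical (K := ℂ), mem_vanishingIdeal_iff] at h5
      push Not at h5
      obtain ⟨x, hx, hx2⟩ := h5
      rw [mem_zeroLocus_iff] at hx
      have hx1 : ∀ p ∈ I, eval x p = 0 := fun p hp => by simpa using hx p hp
      refine ⟨x, (h x).2 ?_, ?_⟩
      · simp only [PrimeSpectrum.ConstructibleSetData.toSet, Set.mem_iUnion, exists_prop]
        refine ⟨C, hC, ?_, ?_⟩
        · rw [PrimeSpectrum.mem_zeroLocus, Set.range_subset_iff]
          intro i
          exact hx1 _ (Ideal.mem_sup_left (Ideal.subset_span ⟨i, rfl⟩))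
        · rw [PrimeSpectrum.mem_zeroLocus, Set.singleton_subset_iff]
          intro h7
          apply hx2
          have : eval x C.f = 0 := h7
          simpa using this
      · funext j
        have h8 := hx1 _ (Ideal.mem_sup_right (Ideal.subset_span ⟨j, rfl⟩))
        rw [map_sub, eval_C, sub_eq_zero] at h8
        exact h8
  rw [h2]
  exact isConstr_of_isConstructible h1

end MPb07157
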