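import Pool.Agent.Lib.MP_b07157_agO.QDef

/-!
# Evaluation of power series at arcs
-/

noncomputable section

namespace MPb07157

open MvPolynomial

namespace QO

variable {n : ℕ}

/-- The product of powers is divisible by the power of `t`. -/
theorem X_pow_dvd_finsupp_prod {w : Fin n → ℕ} {x : Fin n → PowerSeries ℂ}
    (hx : ∀ j, PowerSeries.X ^ w j ∣ x j) (v : Fin n →₀ ℕ) :
    (PowerSeries.X : PowerSeries ℂ) ^ wt w v ∣ v.prod fun s e => x s ^ e := by
  rw [Finsupp.prod_fintype _ _ (fun i => pow_zero _), wt, ← Finset.prod_pow_eq_pow_sum]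
  refine Finset.prod_dvd_prod_of_dvd _ _ fun i _ => ?_
  rw [pow_mul]
  exact pow_dvd_pow_of_dvd (hx i) _

theorem constantCoeff_of_dvd {w : Fin n → ℕ} (hw : ∀ j, 0 < w j) {x : Fin n → PowerSeries ℂ}
    (hx : ∀ j, PowerSeries.X ^ w j ∣ x j) (j : Fin n) :
    MvPowerSeries.constantCoeff (σ := Unit) (R := ℂ) (x j) = 0 := by
  have h1 : (PowerSeries.X : PowerSeries ℂ) ∣ x j := (dvd_pow_self _ (hw j).ne').trans (hx j)
  exact PowerSeries.X_dvd_iff.1 h1

theorem hasSubst_of_dvd {w : Fin n → ℕ} (hw : ∀ j, 0 < w j) {x : Fin n → PowerSeries ℂ}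
    (hx : ∀ j, PowerSeries.X ^ w j ∣ x j) :
    MvPowerSeries.HasSubst (x : Fin n → MvPowerSeries Unit ℂ) :=
  MvPowerSeries.hasSubst_of_constantCoeff_zero (constantCoeff_of_dvd hw hx)

theorem hasSubst_of_const {x : Fin n → PowerSeries ℂ}
    (hx : ∀ j, PowerSeries.constantCoeff (x j) = 0) :
    MvPowerSeries.HasSubst (x : Fin n → MvPowerSeries Unit ℂ) :=
  MvPowerSeries.hasSubst_of_constantCoeff_zero hx

/-- If the `w`-weights of the terms of `F` are at least `r` and `ord x_j ≥ w_j`, then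
`ord F(x) ≥ r`. -/
theorem dvd_subst {F : MvPowerSeries (Fin n) ℂ} {w : Fin n → ℕ} {r : ℕ} (hw : ∀ j, 0 < w j)
    (hF : ∀ v : Fin n →₀ ℕ, wt w v < r → MvPowerSeries.coeff v F = 0)
    {x : Fin n → PowerSeries ℂ} (hx : ∀ j, PowerSeries.X ^ w j ∣ x j) :
    PowerSeries.X ^ r ∣
      (MvPowerSeries.subst (x : Fin n → MvPowerSeries Unit ℂ) F : PowerSeries ℂ) := by
  rw [PowerSeries.X_pow_dvd_iff]
  intro k hk
  have h1 := MvPowerSeries.coeff_subst (hasSubst_of_dvd hw hx) F (Finsupp.single () k)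
  have h2 : PowerSeries.coeff k
      (MvPowerSeries.subst (x : Fin n → MvPowerSeries Unit ℂ) F : PowerSeries ℂ) =
      MvPowerSeries.coeff (Finsupp.single () k)
        (MvPowerSeries.subst (x : Fin n → MvPowerSeries Unit ℂ) F) := rfl
  rw [h2, h1]
  refine finsum_eq_zero_of_forall_eq_zero fun v => ?_
  by_cases hv : wt w v < r
  · rw [hF v hv, zero_smul]
  · have h3 : (PowerSeries.X : PowerSeries ℂ) ^ r ∣ v.prod fun s e => x s ^ e :=
      (pow_dvd_pow _ (not_lt.1 hv)).trans (X_pow_dvd_finsupp_prod hx v)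
    have h4 := PowerSeries.X_pow_dvd_iff.1 h3 k hk
    have h5 : MvPowerSeries.coeff (Finsupp.single () k)
        (v.prod fun s e => (x s : MvPowerSeries Unit ℂ) ^ e) = 0 := h4
    rw [h5, smul_zero]

/-- `F` minus a polynomial with the same terms of weight `< r`. -/
theorem subst_eq_add {F : MvPowerSeries (Fin n) ℂ} {w : Fin n → ℕ} {r : ℕ} (hw : ∀ j, 0 < w j)
    {P : MvPolynomial (Fin n) ℂ}
    (hP : ∀ v : Fin n →₀ ℕ, wt w v < r → MvPowerSeries.coeff v F = P.coeff v)
    {x : Fin n → PowerSeries ℂ} (hx : ∀ j, PowerSeries.X ^ w j ∣ x j) :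
    ∃ H : PowerSeries ℂ,
      (MvPowerSeries.subst (x : Fin n → MvPowerSeries Unit ℂ) F : PowerSeries ℂ) =
        aeval x P + PowerSeries.X ^ r * H := by
  have h1 := dvd_subst hw (F := F - (P : MvPowerSeries (Fin n) ℂ)) (r := r) (fun v hv => by
    rw [map_sub, hP v hv, MvPolynomial.coeff_coe, sub_self]) hx
  obtain ⟨H, hH⟩ := h1
  refine ⟨H, ?_⟩
  rw [← hH, MvPowerSeries.subst_sub (hasSubst_of_dvd hw hx), MvPowerSeries.subst_coe]
  exact (add_sub_cancel _ _).symm

/-- The terms of weight `< r`. -/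
def trW (w : Fin n → ℕ) (r : ℕ) (F : MvPowerSeries (Fin n) ℂ) : MvPolynomial (Fin n) ℂ :=
  ∑ v ∈ (MvPowerSeries.truncTotal r F).support.filter (fun v => wt w v < r),
    monomial v (MvPowerSeries.coeff v F)

theorem degree_le_wt {w : Fin n → ℕ} (hw : ∀ j, 0 < w j) (v : Fin n →₀ ℕ) :
    v.degree ≤ wt w v := by
  rw [Finsupp.degree_eq_sum, wt]
  exact Finset.sum_le_sum fun j _ => Nat.le_mul_of_pos_left _ (hw j)

theorem coeff_trW {w : Fin n → ℕ} (hw : ∀ j, 0 < w j) (r : ℕ) (F : MvPowerSeries (Fin n) ℂ)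
    (v : Fin n →₀ ℕ) :
    (trW w r F).coeff v = if wt w v < r then MvPowerSeries.coeff v F else 0 := by
  classical
  unfold trW
  rw [coeff_sum]
  simp only [coeff_monomial]
  rw [Finset.sum_ite_eq']
  by_cases h : wt w v < r
  · rw [if_pos h]
    split_ifs with h1
    · rfl
    · rw [Finset.mem_filter, MvPolynomial.mem_support_iff] at h1
      have h2 : ¬ (MvPowerSeries.truncTotal r F).coeff v ≠ 0 := fun h3 => h1 ⟨h3, h⟩
      rw [not_not, MvPowerSeries.coeff_truncTotal_eq_ite, if_pos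
        (lt_of_le_of_lt (degree_le_wt hw v) h)] at h2
      exact h2.symm
  · rw [if_neg h, if_neg]
    rw [Finset.mem_filter]
    exact fun h1 => h h1.2

theorem subst_trW (F : MvPowerSeries (Fin n) ℂ) {w : Fin n → ℕ} (r : ℕ) (hw : ∀ j, 0 < w j)
    {x : Fin n → PowerSeries ℂ} (hx : ∀ j, PowerSeries.X ^ w j ∣ x j) :
    PowerSeries.X ^ r ∣
      (MvPowerSeries.subst (x : Fin n → MvPowerSeries Unit ℂ) F : PowerSeries ℂ) -
        aeval x (trW w r F) := by
  obtain ⟨H, hH⟩ := subst_eq_add (F := F) (r := r) hw (P := trW w r F) (fun v hv => by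
    rw [coeff_trW hw, if_pos hv]) hx
  rw [hH]
  exact ⟨H, add_sub_cancel_left _ _⟩

/-- Congruent arcs have congruent values. -/
theorem subst_congr (F : MvPowerSeries (Fin n) ℂ) {N : ℕ} {x y : Fin n → PowerSeries ℂ}
    (hx : ∀ j, PowerSeries.constantCoeff (x j) = 0) (hy : ∀ j, PowerSeries.constantCoeff (y j) = 0)
    (h : ∀ j, (PowerSeries.X : PowerSeries ℂ) ^ N ∣ x j - y j) :
    (PowerSeries.X : PowerSeries ℂ) ^ N ∣
      (MvPowerSeries.subst (x : Fin n → MvPowerSeries Unit ℂ) F : PowerSeries ℂ) -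
        (MvPowerSeries.subst (y : Fin n → MvPowerSeries Unit ℂ) F : PowerSeries ℂ) := by
  have key : ∀ z : Fin n → PowerSeries ℂ, (∀ j, PowerSeries.constantCoeff (z j) = 0) →
      (PowerSeries.X : PowerSeries ℂ) ^ N ∣
        (MvPowerSeries.subst (z : Fin n → MvPowerSeries Unit ℂ) F : PowerSeries ℂ) -
          (aeval z (trW (fun _ => 1) N F) : PowerSeries ℂ) := fun z hz =>
    subst_trW F N (w := fun _ => 1) (fun _ => one_pos)
      (fun j => by rw [pow_one]; exact PowerSeries.X_dvd_iff.2 (hz j))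
  have h1 := dvd_add (dvd_sub (key x hx) (key y hy))
    (aeval_congr_X_pow N (trW (fun _ => 1) N F) x y h)
  have h2 : ∀ a b d e : PowerSeries ℂ, a - d - (b - e) + (d - e) = a - b := by
    intro a b d e
    ring
  rwa [h2] at h1

/-! ### Roots of units -/

/-- `E`-th roots of power series with non-zero constant coefficient. -/
theorem exists_root {E : ℕ} (hE : 0 < E) (f : PowerSeries ℂ)
    (hf : PowerSeries.constantCoeff f ≠ 0) : ∃ g : PowerSeries ℂ, g ^ E = f := by
  obtain ⟨c, hc⟩ := IsAlgClosed.exists_pow_nat_eq (PowerSeries.constantCoeff f) hE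
  set h := PowerSeries.constantCoeff f with hh
  set G : PowerSeries ℂ := PowerSeries.C h⁻¹ * f - 1 with hG
  have hG0 : PowerSeries.constantCoeff G = 0 := by
    rw [hG, map_sub, map_mul, PowerSeries.constantCoeff_C, ← hh, map_one, inv_mul_cancel₀ hf,
      sub_self]
  have hs : PowerSeries.HasSubst G := PowerSeries.HasSubst.of_constantCoeff_zero' hG0
  set B : PowerSeries ℂ := PowerSeries.binomialSeries ℂ ((1 : ℚ) / E) with hB
  have hpow : ∀ m : ℕ, B ^ m = PowerSeries.binomialSeries ℂ ((m : ℚ) * (1 / E)) := by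
    intro m
    induction m with
    | zero => simp
    | succ m ih =>
      rw [pow_succ, ih, hB, ← PowerSeries.binomialSeries_add]
      congr 1
      push_cast
      ring
  have hBN : B ^ E = 1 + PowerSeries.X := by
    have hN0 : (E : ℚ) ≠ 0 := by exact_mod_cast hE.ne'
    rw [hpow E, mul_one_div_cancel hN0]
    have := PowerSeries.binomialSeries_nat (R := ℚ) (A := ℂ) 1
    rw [pow_one, Nat.cast_one] at this
    exact this
  refine ⟨PowerSeries.C c * PowerSeries.subst G B, ?_⟩
  rw [mul_pow, ← map_pow, hc, ← PowerSeries.subst_pow hs, hBN, PowerSeries.subst_add hs,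
    PowerSeries.subst_X hs]
  have h1 : PowerSeries.subst G (1 : PowerSeries ℂ) = 1 := by
    rw [← PowerSeries.coe_substAlgHom hs, map_one]
  rw [h1, hG, add_sub_cancel, ← mul_assoc, ← map_mul, mul_inv_cancel₀ hf, map_one, one_mul]

/-- Uniqueness of roots up to a root of unity. -/
theorem root_unique {E : ℕ} (hE : 0 < E) {M : ℕ} {a b : PowerSeries ℂ}
    (ha : PowerSeries.constantCoeff a ≠ 0) (hb : PowerSeries.constantCoeff b ≠ 0)
    (h : (PowerSeries.X : PowerSeries ℂ) ^ M ∣ a ^ E - b ^ E) :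
    ∃ ε : ℂ, ε ^ E = 1 ∧ (PowerSeries.X : PowerSeries ℂ) ^ M ∣ a - PowerSeries.C ε * b := by
  rcases Nat.eq_zero_or_pos M with rfl | hM
  · exact ⟨1, one_pow _, by rw [pow_zero]; exact one_dvd _⟩
  have h0 : PowerSeries.constantCoeff a ^ E = PowerSeries.constantCoeff b ^ E := by
    have h1 := PowerSeries.X_dvd_iff.1 ((dvd_pow_self _ hM.ne').trans h)
    rwa [map_sub, sub_eq_zero, map_pow, map_pow] at h1
  set ε := PowerSeries.constantCoeff a / PowerSeries.constantCoeff b with hε
  have hεE : ε ^ E = 1 := by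
    rw [hε, div_pow, h0, div_self (pow_ne_zero _ hb)]
  refine ⟨ε, hεE, ?_⟩
  have h2 : b ^ E = (PowerSeries.C ε * b) ^ E := by
    rw [mul_pow, ← map_pow, hεE, map_one, one_mul]
  rw [h2] at h
  have h3 := Commute.geom_sum₂_mul (Commute.all a (PowerSeries.C ε * b)) E
  have h4 : PowerSeries.constantCoeff (∑ i ∈ Finset.range E, a ^ i *
      (PowerSeries.C ε * b) ^ (E - 1 - i)) ≠ 0 := by
    have h5 : PowerSeries.constantCoeff (PowerSeries.C ε * b) = PowerSeries.constantCoeff a := by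
      rw [map_mul, PowerSeries.constantCoeff_C, hε, div_mul_cancel₀ _ hb]
    rw [map_sum, Finset.sum_congr rfl (g := fun _ => PowerSeries.constantCoeff a ^ (E - 1))]
    · rw [Finset.sum_const, Finset.card_range, nsmul_eq_mul]
      exact mul_ne_zero (by exact_mod_cast hE.ne') (pow_ne_zero _ ha)
    · intro i hi
      rw [map_mul, map_pow, map_pow, h5, ← pow_add]
      congr 1
      have := Finset.mem_range.1 hi
      omega
  have h6 : IsUnit (∑ i ∈ Finset.range E, a ^ i * (PowerSeries.C ε * b) ^ (E - 1 - i)) :=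
    PowerSeries.isUnit_iff_constantCoeff.2 (IsUnit.mk0 _ h4)
  rw [← h3] at h
  exact (h6.dvd_mul_left).1 h

/-- Evaluation at an arc whose orders are known: a monomial times a unit. -/
theorem not_dvd_subst {G : MvPowerSeries (Fin n) ℂ} {k : Fin n → ℕ} (hk : ∀ j, 0 < k j)
    {t : Fin n → PowerSeries ℂ} (ht : ∀ j, PowerSeries.X ^ k j ∣ t j) {L : Fin n →₀ ℕ} {M : ℕ}
    (hL : wt k L < M) (hG0 : MvPowerSeries.coeff L G ≠ 0)
    (hG : ∀ v, MvPowerSeries.coeff v G ≠ 0 → L ≤ v)
    (htL : ∀ j, L j ≠ 0 → ¬ PowerSeries.X ^ (k j + 1) ∣ t j) :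
    ¬ PowerSeries.X ^ M ∣
      (MvPowerSeries.subst (t : Fin n → MvPowerSeries Unit ℂ) G : PowerSeries ℂ) := by
  classical
  intro hdiv
  have hs := hasSubst_of_dvd hk ht
  set G' : MvPowerSeries (Fin n) ℂ := fun v => MvPowerSeries.coeff (v + L) G with hG'
  have hG'c : ∀ v, MvPowerSeries.coeff v G' = MvPowerSeries.coeff (v + L) G := fun v => rfl
  have hfac : G = MvPowerSeries.monomial L 1 * G' := by
    ext v
    rw [MvPowerSeries.coeff_monomial_mul]
    split_ifs with h
    · rw [hG'c, tsub_add_cancel_of_le h, one_mul]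
    · by_contra h1
      exact h (hG v h1)
  choose u hu using ht
  have hprod : (MvPowerSeries.subst (t : Fin n → MvPowerSeries Unit ℂ)
      (MvPowerSeries.monomial L (1 : ℂ)) : PowerSeries ℂ) =
      PowerSeries.X ^ wt k L * ∏ j, u j ^ L j := by
    rw [MvPowerSeries.subst_monomial hs, Finsupp.prod_fintype _ _ (fun i => pow_zero _), map_one,
      one_mul,
      wt, ← Finset.prod_pow_eq_pow_sum, ← Finset.prod_mul_distrib]
    refine Finset.prod_congr rfl fun j _ => ?_
    rw [hu j, mul_pow, ← pow_mul]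
  have hc : PowerSeries.constantCoeff (∏ j, u j ^ L j) ≠ 0 := by
    rw [map_prod]
    refine Finset.prod_ne_zero_iff.2 fun j _ => ?_
    rw [map_pow]
    by_cases h : L j = 0
    · rw [h, pow_zero]
      exact one_ne_zero
    · refine pow_ne_zero _ fun h1 => htL j h ?_
      rw [hu j, pow_succ]
      exact mul_dvd_mul_left _ (PowerSeries.X_dvd_iff.2 h1)
  have hc' : PowerSeries.constantCoeff (MvPowerSeries.subst (t : Fin n → MvPowerSeries Unit ℂ) G' :
      PowerSeries ℂ) ≠ 0 := by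
    obtain ⟨H, hH⟩ := subst_eq_add (F := G') (w := k) (r := 1) hk
      (P := C (MvPowerSeries.coeff L G)) (fun v hv => by
        have h1 : v = 0 := by
          ext j
          have h2 : k j * v j ≤ wt k v := by
            rw [wt]
            exact Finset.single_le_sum (f := fun j => k j * v j) (fun _ _ => Nat.zero_le _)
              (Finset.mem_univ j)
          have h3 := hk j
          rcases Nat.eq_zero_or_pos (v j) with h4 | h4
          · exact h4
          · have := Nat.mul_le_mul h3 h4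
            omega
        rw [h1, hG'c, zero_add, coeff_zero_C]) (x := t) (fun j => ⟨u j, hu j⟩)
    rw [hH, map_add, aeval_C, map_mul, map_pow, PowerSeries.constantCoeff_X, zero_pow one_ne_zero,
      zero_mul, add_zero]
    exact hG0
  rw [hfac, MvPowerSeries.subst_mul hs] at hdiv
  have hdiv' : PowerSeries.X ^ M ∣ PowerSeries.X ^ wt k L * ((∏ j, u j ^ L j) *
      (MvPowerSeries.subst (t : Fin n → MvPowerSeries Unit ℂ) G' : PowerSeries ℂ)) := by
    rw [← mul_assoc, ← hprod]
    exact hdiv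
  obtain ⟨e, he⟩ := Nat.exists_eq_add_of_lt hL
  rw [he, add_assoc, pow_add] at hdiv'
  have h7 := (mul_dvd_mul_iff_left (pow_ne_zero _ PowerSeries.X_ne_zero)).1 hdiv'
  have h8 := PowerSeries.X_dvd_iff.1 ((dvd_pow_self _ (Nat.succ_ne_zero e)).trans h7)
  rw [map_mul] at h8
  exact mul_ne_zero hc hc' h8

end QO

end MPb07157
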