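import Pool.Agent.Lib.MP_b07157_agO.PDef

/-!
# Quasi-ordinary germs: the zeta function of a polynomial which is formally equivalent to a series
-/

noncomputable section

namespace MPb07157

open MvPolynomial

namespace QO

variable {n : ℕ} {e : MvPowerSeries (Fin n) ℂ ≃ₐ[ℂ] MvPowerSeries (Fin n) ℂ} {M : ℕ}
  {q q' : Fin n → MvPolynomial (Fin n) ℂ}

/-- The value at an arc of a polynomial with the same terms up to order `M`. -/
theorem ev_congr_trunc {F : MvPowerSeries (Fin n) ℂ} {g : MvPolynomial (Fin n) ℂ}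
    (hg : ∀ v : Fin n →₀ ℕ, ∑ i, v i ≤ M → coeff v g = MvPowerSeries.coeff v F)
    {x : Fin n → PowerSeries ℂ} (hx : ∀ j, PowerSeries.constantCoeff (x j) = 0) :
    (PowerSeries.X : PowerSeries ℂ) ^ (M + 1) ∣ ev x F - aeval x g := by
  obtain ⟨H, hH⟩ := subst_eq_add (F := F) (r := M + 1) (w := fun _ => 1) (fun _ => one_pos)
    (P := g) (fun v hv => by
      rw [wt] at hv
      simp only [one_mul] at hv
      exact (hg v (Nat.lt_succ_iff.mp hv)).symm)
    (x := x) (fun j => by rw [pow_one]; exact PowerSeries.X_dvd_iff.2 (hx j))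
  unfold ev
  rw [hH]
  exact ⟨H, add_sub_cancel_left _ _⟩

theorem exists_unit_congr' {f g : MvPolynomial (Fin n) ℂ}
    {u : (MvPowerSeries (Fin n) ℂ)ˣ}
    (hf : ∀ v : Fin n →₀ ℕ, ∑ i, v i ≤ M →
      coeff v f = MvPowerSeries.coeff v ((u : MvPowerSeries (Fin n) ℂ) * e (g : MvPowerSeries (Fin n) ℂ)))
    (hq : IsTr e M q) {γ : Fin n × Fin (M + 1) → ℂ} (hγ : ∀ i, γ (i, 0) = 0) :
    ∃ U : PowerSeries ℂ, PowerSeries.constantCoeff U ≠ 0 ∧
      (PowerSeries.X : PowerSeries ℂ) ^ (M + 1) ∣ aeval (arc γ) f -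
        U * (aeval (arc (polyMap (jetPoly q (M + 1)) γ)) g : PowerSeries ℂ) := by
  obtain ⟨P, hP⟩ := exists_truncP M (e (g : MvPowerSeries (Fin n) ℂ))
  obtain ⟨U, hU⟩ := exists_truncP M (u : MvPowerSeries (Fin n) ℂ)
  have hγ' := constantCoeff_arc hγ
  refine ⟨aeval (arc γ) U, ?_, ?_⟩
  · rw [constantCoeff_aeval hγ', hU 0 (by simp), MvPowerSeries.coeff_zero_eq_constantCoeff_apply]
    exact ((Units.isUnit u).map (MvPowerSeries.constantCoeff (σ := Fin n) (R := ℂ))).ne_zero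
  · have h1 : (PowerSeries.X : PowerSeries ℂ) ^ (M + 1) ∣
        aeval (arc γ) f - aeval (arc γ) (U * P) := by
      refine aeval_congr_low (fun v hv => ?_) hγ'
      rw [hf v hv, ← coeff_coe (U * P) v, coe_mul]
      exact coeff_mul_congr (fun v hv => by rw [coeff_coe, hU v hv])
        (fun v hv => by rw [coeff_coe, hP v hv]) v hv
    have h2 : (PowerSeries.X : PowerSeries ℂ) ^ (M + 1) ∣ aeval (arc γ) P -
        (aeval (fun j => (aeval (arc γ) (q j) : PowerSeries ℂ)) g : PowerSeries ℂ) := by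
      rw [PowerSeries.X_pow_dvd_iff]
      intro k hk
      rw [map_sub, aeval_arc_equiv e M q hq g P hP (arc γ) hγ' k (Nat.lt_succ_iff.1 hk), sub_self]
    have h3 := aeval_congr_X_pow (M + 1) g (arc (polyMap (jetPoly q (M + 1)) γ))
      (fun j => (aeval (arc γ) (q j) : PowerSeries ℂ)) (arc_jetPoly q γ)
    have h4 : (PowerSeries.X : PowerSeries ℂ) ^ (M + 1) ∣ aeval (arc γ) P -
        aeval (arc (polyMap (jetPoly q (M + 1)) γ)) g := by
      have h5 := dvd_sub h2 h3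
      rwa [sub_sub_sub_cancel_right] at h5
    have h7 := dvd_add h1 (h4.mul_left (aeval (arc γ) U))
    rw [map_mul] at h7
    convert h7 using 1
    ring

theorem order_jet' {f g : MvPolynomial (Fin n) ℂ} {u : (MvPowerSeries (Fin n) ℂ)ˣ}
    (hf : ∀ v : Fin n →₀ ℕ, ∑ i, v i ≤ M →
      coeff v f = MvPowerSeries.coeff v ((u : MvPowerSeries (Fin n) ℂ) * e (g : MvPowerSeries (Fin n) ℂ)))
    (hq : IsTr e M q) {γ : Fin n × Fin (M + 1) → ℂ} (hγ : ∀ i, γ (i, 0) = 0) {k : ℕ}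
    (hk : k ≤ M) :
    (aeval (arc γ) f : PowerSeries ℂ).order = k ↔
      (aeval (arc (polyMap (jetPoly q (M + 1)) γ)) g : PowerSeries ℂ).order = k := by
  obtain ⟨U, hU, h⟩ := exists_unit_congr' hf hq hγ
  rw [order_congr (Nat.lt_succ_iff.2 hk) h, PowerSeries.order_mul]
  have h1 : U.order = 0 := by
    by_contra h1
    exact hU (PowerSeries.order_ne_zero_iff_constCoeff_eq_zero.1 h1)
  rw [h1, zero_add]

/-- The zeta function at the origin is invariant under formal equivalence. -/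
theorem Zmot0_eq_ZQ {f : MvPolynomial (Fin n) ℂ} {F : MvPowerSeries (Fin n) ℂ}
    (u : (MvPowerSeries (Fin n) ℂ)ˣ)
    (hf : (f : MvPowerSeries (Fin n) ℂ) = u * e F) : Zmot0 f = ZQ F := by
  ext k
  unfold Zmot0 ZQ
  rw [PowerSeries.coeff_mk, PowerSeries.coeff_mk, Zcoeff0_eq_muE]
  obtain ⟨g, hg⟩ := exists_truncP k F
  obtain ⟨q, hq⟩ := exists_isTr e k
  obtain ⟨q', hq'⟩ := exists_isTr e.symm k
  have hf' : ∀ v : Fin n →₀ ℕ, ∑ i, v i ≤ k →
      coeff v f = MvPowerSeries.coeff v ((u : MvPowerSeries (Fin n) ℂ) * e (g : MvPowerSeries (Fin n) ℂ)) := by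
    intro v hv
    rw [← coeff_coe f v, hf]
    refine coeff_mul_congr (fun _ _ => rfl) (fun v hv => ?_) v hv
    have h3 := coeff_equiv_eq_zero e k (h := F - (g : MvPowerSeries (Fin n) ℂ)) (fun v hv => by
        rw [map_sub, coeff_coe, hg v hv, sub_self]) v hv
    rw [map_sub, map_sub, sub_eq_zero] at h3
    exact h3
  -- the set of arcs is the set of a polynomial
  have hset : arcsQ F (k + 1) k = arcs g (k + 1) k ∩ Start n 1 (k + 1) := by
    ext γ
    unfold arcsQ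
    simp only [Set.mem_ofPred_eq, Set.mem_inter_iff]
    constructor
    · rintro ⟨h1, h2⟩
      refine ⟨?_, h1⟩
      rw [mem_Start_one] at h1
      exact (order_congr (Nat.lt_succ_self k) (ev_congr_trunc hg (constantCoeff_arc h1))).1 h2
    · rintro ⟨h2, h1⟩
      refine ⟨h1, ?_⟩
      rw [mem_Start_one] at h1
      exact (order_congr (Nat.lt_succ_self k) (ev_congr_trunc hg (constantCoeff_arc h1))).2 h2
  unfold muE muQ clsM
  rw [hset]
  congr 2
  refine cls_bijOn ((isConstr_arcs _ _ _).inter (isConstr_Start _ _ _))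
    ((isConstr_arcs _ _ _).inter (isConstr_Start _ _ _)) (jetPoly q (k + 1)) ⟨?_, ?_, ?_⟩
  · rintro γ ⟨h1, h2⟩
    rw [mem_Start_one] at h2
    exact ⟨(order_jet' hf' hq h2 le_rfl).1 h1, mem_Start_one.2 (jet_zero hq h2)⟩
  · rintro γ ⟨-, h2⟩ γ' ⟨-, h2'⟩ heq
    rw [mem_Start_one] at h2 h2'
    rw [← jet_jet hq hq' h2, heq, jet_jet hq hq' h2']
  · rintro γ ⟨h1, h2⟩
    rw [mem_Start_one] at h2
    have h3 : polyMap (jetPoly q (k + 1)) (polyMap (jetPoly q' (k + 1)) γ) = γ :=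
      jet_jet (e := e.symm) hq' hq h2
    have h4 := jet_zero hq' h2
    refine ⟨polyMap (jetPoly q' (k + 1)) γ, ⟨?_, mem_Start_one.2 h4⟩, h3⟩
    refine (order_jet' hf' hq h4 le_rfl).2 ?_
    rw [h3]
    exact h1

end QO

end MPb07157
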