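import Pool.Agent.Lib.MP_b07157_agO.PDef

/-!
# The Galois action permutes the roots
-/

noncomputable section

namespace MPb07157

namespace QO

variable {d r : ℕ} {F : MvPowerSeries (Fin (d + 1)) ℂ} {E : ℕ} {N0 : Fin d → ℕ}
  {ζ : Fin r → PS d} {m : Fin r → ℕ} {L : Fin r → Fin r → Fin d → ℕ}

namespace P0h

theorem tsub_hs {E : ℕ} (hE : 0 < E) : MvPowerSeries.HasSubst (tsub d E) := by
  refine MvPowerSeries.hasSubst_of_constantCoeff_zero (fun s => ?_)
  refine Fin.lastCases ?_ (fun _ => ?_) s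
  · simp [tsub]
  · simp [tsub, hE.ne']

theorem X_ne {σ : Type} (s : σ) : (MvPowerSeries.X s : MvPowerSeries σ ℂ) ≠ 0 := by
  classical
  intro h
  have h1 := congrArg (MvPowerSeries.coeff (Finsupp.single s 1)) h
  rw [MvPowerSeries.coeff_X, if_pos rfl, map_zero] at h1
  exact one_ne_zero h1

theorem emb_hs : MvPowerSeries.HasSubst
    (fun k : Fin d => (MvPowerSeries.X k.castSucc : MvPowerSeries (Fin (d + 1)) ℂ)) :=
  MvPowerSeries.hasSubst_of_constantCoeff_zero (fun _ => MvPowerSeries.constantCoeff_X _)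

/-- The substitution `z ↦ a`. -/
def evv (a : PS d) : Fin (d + 1) → PS d := Fin.lastCases a (fun k => MvPowerSeries.X k)

theorem evv_last (a : PS d) : evv a (Fin.last d) = a := by simp [evv]

theorem evv_cast (a : PS d) (k : Fin d) : evv a k.castSucc = MvPowerSeries.X k := by simp [evv]

theorem evv_const {a : PS d} (ha : MvPowerSeries.constantCoeff a = 0) (s : Fin (d + 1)) :
    MvPowerSeries.constantCoeff (evv a s) = 0 := by
  refine Fin.lastCases ?_ (fun k => ?_) s
  · rw [evv_last, ha]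
  · rw [evv_cast, MvPowerSeries.constantCoeff_X]

theorem evv_hs {a : PS d} (ha : MvPowerSeries.constantCoeff a = 0) :
    MvPowerSeries.HasSubst (evv a) :=
  MvPowerSeries.hasSubst_of_constantCoeff_zero (evv_const ha)

/-- The evaluation `z ↦ a`. -/
def evh {a : PS d} (ha : MvPowerSeries.constantCoeff a = 0) :
    MvPowerSeries (Fin (d + 1)) ℂ →ₐ[ℂ] PS d :=
  MvPowerSeries.substAlgHom (evv_hs ha)

theorem evh_apply {a : PS d} (ha : MvPowerSeries.constantCoeff a = 0)
    (G : MvPowerSeries (Fin (d + 1)) ℂ) : evh ha G = MvPowerSeries.subst (evv a) G := by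
  rw [evh, MvPowerSeries.substAlgHom_apply]

theorem evh_last {a : PS d} (ha : MvPowerSeries.constantCoeff a = 0) :
    evh ha (MvPowerSeries.X (Fin.last d)) = a := by
  rw [evh_apply, MvPowerSeries.subst_X (evv_hs ha), evv_last]

theorem evh_emb {a : PS d} (ha : MvPowerSeries.constantCoeff a = 0) (b : PS d) :
    evh ha (emb b) = b := by
  rw [evh_apply, emb, MvPowerSeries.subst_comp_subst_apply emb_hs (evv_hs ha)]
  have h1 : (fun s : Fin d => MvPowerSeries.subst (evv a)
      (MvPowerSeries.X s.castSucc : MvPowerSeries (Fin (d + 1)) ℂ)) =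
      (MvPowerSeries.X : Fin d → PS d) := by
    funext k
    rw [MvPowerSeries.subst_X (evv_hs ha), evv_cast]
  rw [h1, MvPowerSeries.subst_self]
  rfl

theorem evh_const {a : PS d} (ha : MvPowerSeries.constantCoeff a = 0)
    (U : MvPowerSeries (Fin (d + 1)) ℂ) :
    MvPowerSeries.constantCoeff (evh ha U) = MvPowerSeries.constantCoeff U := by
  have h1 : U = algebraMap ℂ _ (MvPowerSeries.constantCoeff U) +
      (U - algebraMap ℂ _ (MvPowerSeries.constantCoeff U)) := by ring
  have h2 : MvPowerSeries.constantCoeff (U - algebraMap ℂ (MvPowerSeries (Fin (d + 1)) ℂ)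
      (MvPowerSeries.constantCoeff U)) = 0 := by
    rw [map_sub, MvPowerSeries.algebraMap_apply, MvPowerSeries.constantCoeff_C]
    simp
  conv_lhs => rw [h1]
  rw [map_add, map_add, AlgHom.commutes, evh_apply ha (U - _),
    MvPowerSeries.constantCoeff_subst_eq_zero (evv_hs ha) (evv_const ha) h2, add_zero,
    MvPowerSeries.algebraMap_apply, MvPowerSeries.constantCoeff_C]
  simp

theorem evh_ne {a : PS d} (ha : MvPowerSeries.constantCoeff a = 0)
    {U : MvPowerSeries (Fin (d + 1)) ℂ} (hU : MvPowerSeries.constantCoeff U ≠ 0) :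
    evh ha U ≠ 0 := by
  intro h
  apply hU
  rw [← evh_const ha U, h, map_zero]

/-- The vector `(ε, 1)`. -/
def eps1 (ε : Fin d → ℂ) : Fin (d + 1) → ℂ := Fin.lastCases 1 ε

theorem eps1_last (ε : Fin d → ℂ) : eps1 ε (Fin.last d) = 1 := by simp [eps1]

theorem eps1_cast (ε : Fin d → ℂ) (k : Fin d) : eps1 ε k.castSucc = ε k := by simp [eps1]

theorem rescale_X {σ : Type} (a : σ → ℂ) (s : σ) :
    MvPowerSeries.rescale a (MvPowerSeries.X s : MvPowerSeries σ ℂ) =
      a s • MvPowerSeries.X s := by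
  classical
  ext n
  rw [MvPowerSeries.coeff_rescale, map_smul, MvPowerSeries.coeff_X, smul_eq_mul]
  split_ifs with h
  · rw [h]
    simp
  · simp

theorem smul_hs (a : Fin d → ℂ) :
    MvPowerSeries.HasSubst (a • (MvPowerSeries.X : Fin d → MvPowerSeries (Fin d) ℂ)) := by
  refine MvPowerSeries.hasSubst_of_constantCoeff_zero (fun s => ?_)
  simp

theorem rescale_emb (ε : Fin d → ℂ) (a : PS d) :
    MvPowerSeries.rescale (eps1 ε) (emb a) = emb (MvPowerSeries.rescale ε a) := by
  rw [emb, emb, MvPowerSeries.rescale_eq_subst, MvPowerSeries.rescale_eq_subst,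
    MvPowerSeries.subst_comp_subst_apply emb_hs (smul_hs _),
    MvPowerSeries.subst_comp_subst_apply (smul_hs _) emb_hs]
  congr 1
  funext k
  rw [← MvPowerSeries.rescale_eq_subst, rescale_X, eps1_cast]
  change _ = MvPowerSeries.subst _ (ε k • (MvPowerSeries.X k : MvPowerSeries (Fin d) ℂ))
  rw [MvPowerSeries.subst_smul emb_hs, MvPowerSeries.subst_X emb_hs]

theorem rescale_tsub {ε : Fin d → ℂ} (hε : IsRt E ε) (hE : 0 < E)
    (F : MvPowerSeries (Fin (d + 1)) ℂ) :
    MvPowerSeries.rescale (eps1 ε) (MvPowerSeries.subst (tsub d E) F) =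
      MvPowerSeries.subst (tsub d E) F := by
  rw [MvPowerSeries.rescale_eq_subst, MvPowerSeries.subst_comp_subst_apply (tsub_hs hE) (smul_hs _)]
  congr 1
  funext s
  rw [← MvPowerSeries.rescale_eq_subst]
  refine Fin.lastCases ?_ (fun k => ?_) s
  · rw [tsub, Fin.lastCases_last, rescale_X, eps1_last, one_smul]
  · rw [tsub, Fin.lastCases_castSucc, map_pow, rescale_X, eps1_cast, smul_pow, hε k, one_smul]

theorem rescale_inj {ε : Fin d → ℂ} (hε : ∀ k, ε k ≠ 0) {a b : PS d}
    (h : MvPowerSeries.rescale ε a = MvPowerSeries.rescale ε b) : a = b := by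
  ext n
  have h1 := congrArg (MvPowerSeries.coeff n) h
  rw [MvPowerSeries.coeff_rescale, MvPowerSeries.coeff_rescale] at h1
  refine mul_left_cancel₀ ?_ h1
  exact Finsupp.prod_ne_zero_iff.2 fun k _ => pow_ne_zero _ (hε k)

theorem rescale_const {σ : Type} (a : σ → ℂ) (f : MvPowerSeries σ ℂ) :
    MvPowerSeries.constantCoeff (MvPowerSeries.rescale a f) = MvPowerSeries.constantCoeff f := by
  rw [← MvPowerSeries.coeff_zero_eq_constantCoeff_apply, MvPowerSeries.coeff_rescale,
    ← MvPowerSeries.coeff_zero_eq_constantCoeff_apply]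
  simp

/-- Comparison of two factorizations. -/
theorem compare {ζ ζ' : Fin r → PS d} {m : Fin r → ℕ} {U U' : MvPowerSeries (Fin (d + 1)) ℂ}
    (hm : ∀ i, 0 < m i)
    (hζ : ∀ i j, ζ i = ζ j → i = j) (hζ' : ∀ i j, ζ' i = ζ' j → i = j)
    (h0' : ∀ i, MvPowerSeries.constantCoeff (ζ' i) = 0)
    (hU : MvPowerSeries.constantCoeff U ≠ 0) (hU' : MvPowerSeries.constantCoeff U' ≠ 0)
    (h : U * ∏ i, (MvPowerSeries.X (Fin.last d) - emb (ζ i)) ^ m i =
      U' * ∏ i, (MvPowerSeries.X (Fin.last d) - emb (ζ' i)) ^ m i) (i : Fin r) :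
    ∃ i', ζ i' = ζ' i ∧ m i' = m i := by
  classical
  have ha := h0' i
  have hev : ∀ b : PS d, evh ha (MvPowerSeries.X (Fin.last d) - emb b) = ζ' i - b := by
    intro b
    rw [map_sub, evh_last, evh_emb]
  have h1 := congrArg (evh ha) h
  rw [map_mul, map_mul, map_prod, map_prod] at h1
  have h2 : ∏ l, evh ha ((MvPowerSeries.X (Fin.last d) - emb (ζ' l)) ^ m l) = 0 := by
    refine Finset.prod_eq_zero (Finset.mem_univ i) ?_
    rw [map_pow, hev, sub_self, zero_pow (hm i).ne']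
  rw [h2, mul_zero] at h1
  rcases mul_eq_zero.1 h1 with h3 | h3
  · exact absurd h3 (evh_ne ha hU)
  obtain ⟨i', -, h4⟩ := Finset.prod_eq_zero_iff.1 h3
  rw [map_pow, hev] at h4
  have h5 : ζ i' = ζ' i := (sub_eq_zero.1 (pow_eq_zero_iff (hm i').ne' |>.1 h4)).symm
  refine ⟨i', h5, ?_⟩
  set P : MvPowerSeries (Fin (d + 1)) ℂ := MvPowerSeries.X (Fin.last d) - emb (ζ' i) with hP
  have hP0 : evh ha P = 0 := by rw [hP, hev, sub_self]
  have hPne : P ≠ 0 := by
    intro hP1
    have h6 := congrArg (evh (a := (0 : PS d)) (map_zero _)) hP1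
    rw [hP, map_sub, evh_last, evh_emb, map_zero, zero_sub, neg_eq_zero] at h6
    -- evaluate at `0`: `ζ' i = 0`; then `P = z`
    have h7 : (MvPowerSeries.X (Fin.last d) : MvPowerSeries (Fin (d + 1)) ℂ) = emb (ζ' i) :=
      sub_eq_zero.1 hP1
    rw [h6] at h7
    have h8 : emb (0 : PS d) = 0 := by
      rw [emb, ← MvPowerSeries.coe_substAlgHom emb_hs, map_zero]
    rw [h8] at h7
    exact X_ne _ h7
  set A : MvPowerSeries (Fin (d + 1)) ℂ :=
    U * ∏ l ∈ Finset.univ.erase i', (MvPowerSeries.X (Fin.last d) - emb (ζ l)) ^ m l with hA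
  set B : MvPowerSeries (Fin (d + 1)) ℂ :=
    U' * ∏ l ∈ Finset.univ.erase i, (MvPowerSeries.X (Fin.last d) - emb (ζ' l)) ^ m l with hB
  have hAB : A * P ^ m i' = B * P ^ m i := by
    rw [← Finset.mul_prod_erase _ _ (Finset.mem_univ i'),
      ← Finset.mul_prod_erase _ _ (Finset.mem_univ i), h5] at h
    rw [hA, hB, hP]
    linear_combination h
  have hA0 : evh ha A ≠ 0 := by
    rw [hA, map_mul, map_prod]
    refine mul_ne_zero (evh_ne ha hU) (Finset.prod_ne_zero_iff.2 fun l hl => ?_)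
    rw [map_pow, hev]
    refine pow_ne_zero _ (fun h6 => ?_)
    rw [← h5, sub_eq_zero] at h6
    exact (Finset.mem_erase.1 hl).1 (hζ _ _ h6.symm)
  have hB0 : evh ha B ≠ 0 := by
    rw [hB, map_mul, map_prod]
    refine mul_ne_zero (evh_ne ha hU') (Finset.prod_ne_zero_iff.2 fun l hl => ?_)
    rw [map_pow, hev]
    refine pow_ne_zero _ (fun h6 => ?_)
    rw [sub_eq_zero] at h6
    exact (Finset.mem_erase.1 hl).1 (hζ' _ _ h6.symm)
  rcases lt_trichotomy (m i') (m i) with hlt | heq | hgt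
  · exfalso
    have h6 : A = B * P ^ (m i - m i') := by
      refine mul_right_cancel₀ (pow_ne_zero (m i') hPne) ?_
      rw [hAB, mul_assoc B, ← pow_add, Nat.sub_add_cancel hlt.le]
    apply hA0
    rw [h6, map_mul, map_pow, hP0, zero_pow (Nat.sub_pos_of_lt hlt).ne', mul_zero]
  · exact heq
  · exfalso
    have h6 : B = A * P ^ (m i' - m i) := by
      refine mul_right_cancel₀ (pow_ne_zero (m i) hPne) ?_
      rw [← hAB, mul_assoc A, ← pow_add, Nat.sub_add_cancel hgt.le]
    apply hB0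
    rw [h6, map_mul, map_pow, hP0, zero_pow (Nat.sub_pos_of_lt hgt).ne', mul_zero]

end P0h

/-- `t ↦ ε t` permutes the roots and preserves the multiplicities: compare
`F(t^E, z) = U t^(E N0) ∏ (z - ζ_i(t))^(m_i)` with the same identity at `ε t`; `z - ζ_i(ε t)` is a prime
element of `ℂ[[t, z]]`. -/
theorem IsQO.gal (h : IsQO F E N0 ζ m L) {ε : Fin d → ℂ} (hε : IsRt E ε) (i : Fin r) :
    ∃ i', ζ i' = MvPowerSeries.rescale ε (ζ i) ∧ m i' = m i := by
  classical
  obtain ⟨U, hU, hUF⟩ := h.hF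
  have hε0 : ∀ k, ε k ≠ 0 := by
    intro k hk
    have h1 := hε k
    rw [hk, zero_pow h.hE.ne'] at h1
    exact zero_ne_one h1
  have hζ : ∀ i j, ζ i = ζ j → i = j := by
    intro i j hij
    by_contra hne
    obtain ⟨u, hu, hu2⟩ := h.hL i j hne
    rw [hij, sub_self] at hu2
    rcases mul_eq_zero.1 hu2.symm with h1 | h1
    · obtain ⟨k, -, hk⟩ := Finset.prod_eq_zero_iff.1 h1
      exact pow_ne_zero _ (P0h.X_ne k) hk
    · rw [h1, map_zero] at hu
      exact hu rfl
  refine P0h.compare (U := U) (U' := MvPowerSeries.rescale (P0h.eps1 ε) U) h.hm hζ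
    (fun i j hij => hζ i j (P0h.rescale_inj hε0 hij))
    (fun i => by rw [P0h.rescale_const, h.h0 i]) hU (by rw [P0h.rescale_const]; exact hU) ?_ i
  have hM : MvPowerSeries.rescale (P0h.eps1 ε)
      (∏ k : Fin d, (MvPowerSeries.X k.castSucc : MvPowerSeries (Fin (d + 1)) ℂ) ^ (E * N0 k)) =
      ∏ k : Fin d, MvPowerSeries.X k.castSucc ^ (E * N0 k) := by
    rw [map_prod]
    refine Finset.prod_congr rfl fun k _ => ?_
    rw [map_pow, P0h.rescale_X, P0h.eps1_cast, smul_pow, pow_mul, hε k, one_pow, one_smul]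
  have hM0 : (∏ k : Fin d, (MvPowerSeries.X k.castSucc : MvPowerSeries (Fin (d + 1)) ℂ) ^
      (E * N0 k)) ≠ 0 :=
    Finset.prod_ne_zero_iff.2 fun k _ => pow_ne_zero _ (P0h.X_ne _)
  have h2 := congrArg (MvPowerSeries.rescale (P0h.eps1 ε)) hUF
  rw [P0h.rescale_tsub hε h.hE, hUF, map_mul, map_mul, hM, map_prod] at h2
  have h3 : ∀ l, MvPowerSeries.rescale (P0h.eps1 ε)
      ((MvPowerSeries.X (Fin.last d) - emb (ζ l)) ^ m l) =
      (MvPowerSeries.X (Fin.last d) - emb (MvPowerSeries.rescale ε (ζ l))) ^ m l := by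
    intro l
    rw [map_pow, map_sub, P0h.rescale_X, P0h.eps1_last, one_smul, P0h.rescale_emb]
  rw [Finset.prod_congr rfl fun l _ => h3 l] at h2
  refine mul_left_cancel₀ hM0 ?_
  linear_combination h2

end QO

end MPb07157
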