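import Pool.Agent.Lib.MP_b07157_agO.RDef

/-!
# Quasi-ordinary germs: the contact exponents
-/

noncomputable section

namespace MPb07157

namespace QO

variable {d r : ℕ} {F : MvPowerSeries (Fin (d + 1)) ℂ} {E : ℕ} {N0 : Fin d → ℕ}
  {ζ : Fin r → MvPowerSeries (Fin d) ℂ} {m : Fin r → ℕ} {L : Fin r → Fin r → Fin d → ℕ}

theorem expo_apply (Λ : Fin d → ℕ) (k : Fin d) : expo Λ k = Λ k := rfl

theorem expo_le_iff (Λ : Fin d → ℕ) (v : Fin d →₀ ℕ) : expo Λ ≤ v ↔ ∀ k, Λ k ≤ v k := Iff.rfl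

theorem expo_le_expo (Λ Λ' : Fin d → ℕ) : expo Λ ≤ expo Λ' ↔ ∀ k, Λ k ≤ Λ' k := Iff.rfl

theorem expo_inj {Λ Λ' : Fin d → ℕ} (h : expo Λ = expo Λ') : Λ = Λ' := by
  funext k
  have := DFunLike.congr_fun h k
  exact this

theorem prod_X_pow (Λ : Fin d → ℕ) :
    (∏ k, MvPowerSeries.X k ^ Λ k : MvPowerSeries (Fin d) ℂ) =
      MvPowerSeries.monomial (expo Λ) 1 := by
  classical
  have h1 : ∀ s : Finset (Fin d),
      (∏ k ∈ s, MvPowerSeries.X k ^ Λ k : MvPowerSeries (Fin d) ℂ) =
        MvPowerSeries.monomial (∑ k ∈ s, Finsupp.single k (Λ k)) 1 := by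
    intro s
    induction s using Finset.induction_on with
    | empty => simp
    | insert a s ha ih =>
      rw [Finset.prod_insert ha, Finset.sum_insert ha, ih, MvPowerSeries.X_pow_eq,
        MvPowerSeries.monomial_mul_monomial, one_mul]
  rw [h1]
  have h2 : ∑ k, Finsupp.single k (Λ k) = expo Λ := by
    ext k
    rw [Finsupp.finsetSum_apply, expo_apply]
    rw [Finset.sum_eq_single k]
    · simp
    · intro b _ hb
      exact Finsupp.single_eq_of_ne (Ne.symm hb)
    · intro hk; exact absurd (Finset.mem_univ k) hk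
  rw [h2]

/-- Basic coefficient facts. -/
theorem contact_coeff (h : IsQO F E N0 ζ m L) {i j : Fin r} (hij : i ≠ j) :
    (∀ v, MvPowerSeries.coeff v (ζ i) - MvPowerSeries.coeff v (ζ j) ≠ 0 → expo (L i j) ≤ v) ∧
      MvPowerSeries.coeff (expo (L i j)) (ζ i) - MvPowerSeries.coeff (expo (L i j)) (ζ j) ≠ 0 := by
  classical
  obtain ⟨u, hu, he⟩ := h.hL i j hij
  rw [prod_X_pow] at he
  constructor
  · intro v hv
    by_contra hcon
    apply hv
    rw [← map_sub, he, MvPowerSeries.coeff_monomial_mul, if_neg hcon]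
  · rw [← map_sub, he, MvPowerSeries.coeff_monomial_mul, if_pos le_rfl, tsub_self, one_mul]
    exact hu

theorem L_symm (h : IsQO F E N0 ζ m L) {i l : Fin r} (hil : i ≠ l) : L i l = L l i := by
  obtain ⟨h1, h2⟩ := contact_coeff h hil
  obtain ⟨h3, h4⟩ := contact_coeff h hil.symm
  apply expo_inj
  apply le_antisymm
  · apply h1
    intro hc
    apply h4
    rw [← neg_sub, hc, neg_zero]
  · apply h3
    intro hc
    apply h2
    rw [← neg_sub, hc, neg_zero]

theorem L_pos (h : IsQO F E N0 ζ m L) {i l : Fin r} (hil : i ≠ l) : ∃ k, 0 < L i l k := by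
  by_contra hcon
  push Not at hcon
  obtain ⟨h1, h2⟩ := contact_coeff h hil
  have h3 : expo (L i l) = 0 := by
    ext k
    rw [expo_apply]
    have := hcon k
    simp only [Finsupp.coe_zero, Pi.zero_apply]
    omega
  rw [h3] at h2
  apply h2
  have h4 : MvPowerSeries.coeff 0 (ζ i) = 0 := h.h0 i
  have h5 : MvPowerSeries.coeff 0 (ζ l) = 0 := h.h0 l
  rw [h4, h5, sub_zero]

/-- The contact exponents of a root are totally ordered. -/
theorem L_total (h : IsQO F E N0 ζ m L) {i l l' : Fin r} (hl : l ≠ i) (hl' : l' ≠ i) :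
    (∀ k, L i l k ≤ L i l' k) ∨ ∀ k, L i l' k ≤ L i l k := by
  by_cases hll : l = l'
  · subst hll; exact Or.inl fun k => le_rfl
  by_contra hcon
  push Not at hcon
  obtain ⟨hc1, hc2⟩ := hcon
  have hn1 : ¬ expo (L i l) ≤ expo (L i l') := by
    rw [expo_le_expo]
    intro hh
    obtain ⟨k, hk⟩ := hc1
    exact absurd (hh k) (by omega)
  have hn2 : ¬ expo (L i l') ≤ expo (L i l) := by
    rw [expo_le_expo]
    intro hh
    obtain ⟨k, hk⟩ := hc2
    exact absurd (hh k) (by omega)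
  obtain ⟨a1, a2⟩ := contact_coeff h hl.symm
  obtain ⟨b1, b2⟩ := contact_coeff h hl'.symm
  obtain ⟨c1, c2⟩ := contact_coeff h hll
  have hca : expo (L l l') ≤ expo (L i l) := by
    apply c1
    have e0 : MvPowerSeries.coeff (expo (L i l)) (ζ i) -
        MvPowerSeries.coeff (expo (L i l)) (ζ l') = 0 := by
      by_contra hne
      exact hn2 (b1 _ hne)
    intro hz
    apply a2
    linear_combination e0 - hz
  have hcb : expo (L l l') ≤ expo (L i l') := by
    apply c1
    have e0 : MvPowerSeries.coeff (expo (L i l')) (ζ i) -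
        MvPowerSeries.coeff (expo (L i l')) (ζ l) = 0 := by
      by_contra hne
      exact hn1 (a1 _ hne)
    intro hz
    apply b2
    linear_combination e0 + hz
  by_cases e1 : MvPowerSeries.coeff (expo (L l l')) (ζ i) -
      MvPowerSeries.coeff (expo (L l l')) (ζ l) = 0
  · have e2 : MvPowerSeries.coeff (expo (L l l')) (ζ i) -
        MvPowerSeries.coeff (expo (L l l')) (ζ l') ≠ 0 := by
      intro hz
      apply c2
      linear_combination hz - e1
    exact hn2 ((b1 _ e2).trans hca)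
  · exact hn1 ((a1 _ e1).trans hcb)

theorem L_ultra (h : IsQO F E N0 ζ m L) {i l l' : Fin r} (hl : l ≠ i) (hl' : l' ≠ i)
    (hll : l ≠ l') (hle : ∀ k, L i l k ≤ L i l' k) : ∀ k, L i l k ≤ L l l' k := by
  rw [← expo_le_expo] at hle ⊢
  obtain ⟨a1, a2⟩ := contact_coeff h hl.symm
  obtain ⟨b1, b2⟩ := contact_coeff h hl'.symm
  obtain ⟨c1, c2⟩ := contact_coeff h hll
  by_cases e1 : MvPowerSeries.coeff (expo (L l l')) (ζ i) -
      MvPowerSeries.coeff (expo (L l l')) (ζ l) = 0
  · have e2 : MvPowerSeries.coeff (expo (L l l')) (ζ i) -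
        MvPowerSeries.coeff (expo (L l l')) (ζ l') ≠ 0 := by
      intro hz
      apply c2
      linear_combination hz - e1
    exact hle.trans (b1 _ e2)
  · exact a1 _ e1

theorem L_eq (h : IsQO F E N0 ζ m L) {i l l' : Fin r} (hl : l ≠ i) (hl' : l' ≠ i)
    (hll : l ≠ l') (hle : ∀ k, L i l k ≤ L i l' k) (hne : L i l ≠ L i l') : L l l' = L i l := by
  have h1 := L_ultra h hl hl' hll hle
  rw [← expo_le_expo] at hle h1
  obtain ⟨a1, a2⟩ := contact_coeff h hl.symm
  obtain ⟨b1, b2⟩ := contact_coeff h hl'.symm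
  obtain ⟨c1, c2⟩ := contact_coeff h hll
  apply expo_inj
  refine le_antisymm ?_ h1
  apply c1
  have e0 : MvPowerSeries.coeff (expo (L i l)) (ζ i) -
      MvPowerSeries.coeff (expo (L i l)) (ζ l') = 0 := by
    by_contra hz
    exact hne (expo_inj (le_antisymm hle (b1 _ hz)))
  intro hz
  apply a2
  linear_combination e0 - hz

theorem vcl_coeff (h : IsQO F E N0 ζ m L) {i : Fin r} {Λ : Fin d → ℕ}
    {l : Fin r} (hl : l ∈ vcl L i Λ) {v : Fin d →₀ ℕ} (hv : ¬ expo Λ ≤ v) :
    MvPowerSeries.coeff v (ζ l) = MvPowerSeries.coeff v (ζ i) := by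
  rw [vcl, Finset.mem_filter] at hl
  rcases hl.2 with hli | hle
  · rw [hli]
  · by_cases hli : l = i
    · rw [hli]
    · obtain ⟨a1, a2⟩ := contact_coeff h (Ne.symm hli)
      by_contra hne
      apply hv
      refine le_trans ?_ (a1 v ?_)
      · rw [expo_le_expo]; exact hle
      · intro hz
        apply hne
        linear_combination -hz

/-- The roots of a cluster have different coefficients at `Λ` if and only if their contact is
`Λ`. -/
theorem val_ne_iff (h : IsQO F E N0 ζ m L) {i : Fin r} {Λ : Fin d → ℕ} (hΛ : IsV L i Λ)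
    {l l' : Fin r} (hl : l ∈ vcl L i Λ) (hl' : l' ∈ vcl L i Λ) (hne : l ≠ l') :
    val ζ Λ l ≠ val ζ Λ l' ↔ L l l' = Λ := by
  obtain ⟨c1, c2⟩ := contact_coeff h hne
  constructor
  · intro hv
    apply expo_inj
    apply le_antisymm
    · apply c1
      intro hz
      exact hv (sub_eq_zero.mp hz)
    · by_contra hcon
      apply c2
      rw [vcl_coeff h hl hcon, vcl_coeff h hl' hcon, sub_self]
  · intro hL hv
    rw [hL] at c2
    exact c2 (sub_eq_zero.mpr hv)

theorem trunc_eq (h : IsQO F E N0 ζ m L) {i : Fin r} {Λ : Fin d → ℕ} (hΛ : IsV L i Λ)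
    {l : Fin r} (hl : l ∈ vcl L i Λ) : trunc Λ (ζ l) = trunc Λ (ζ i) := by
  funext v
  unfold trunc
  by_cases hv : expo Λ ≤ v
  · simp only [if_pos hv]
  · simp only [if_neg hv]
    exact vcl_coeff h hl hv

end QO

end MPb07157
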