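import Pool.Agent.Lib.MP_b07157_agO.P0
import Pool.Agent.Lib.MP_b07157_agO.RO

/-!
# Existence of steps
-/

noncomputable section

namespace MPb07157

namespace QO

variable {d r : ℕ} {F : MvPowerSeries (Fin (d + 1)) ℂ} {E : ℕ} {N0 : Fin d → ℕ}
  {ζ : Fin r → PS d} {m : Fin r → ℕ} {L : Fin r → Fin r → Fin d → ℕ}

namespace P1aux

theorem coeff_mon_mul (c : Fin d → ℕ) (u : PS d) (v : Fin d →₀ ℕ) :
    MvPowerSeries.coeff v (mon c * u) =
      if expo c ≤ v then MvPowerSeries.coeff (v - expo c) u else 0 := by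
  classical
  rw [mon, MvPowerSeries.coeff_monomial_mul]
  split_ifs <;> simp

theorem coeff_mon_mul_self (c : Fin d → ℕ) (u : PS d) :
    MvPowerSeries.coeff (expo c) (mon c * u) = MvPowerSeries.constantCoeff u := by
  rw [coeff_mon_mul, if_pos le_rfl, tsub_self]
  rfl

theorem coeff_C_mul_mon (a : ℂ) (c : Fin d → ℕ) (v : Fin d →₀ ℕ) :
    MvPowerSeries.coeff v (MvPowerSeries.C a * mon c : PS d) = if v = expo c then a else 0 := by
  classical
  rw [MvPowerSeries.coeff_C_mul, mon, MvPowerSeries.coeff_monomial]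
  split_ifs <;> simp

theorem exists_mul_mon {c : Fin d → ℕ} {φ : PS d}
    (h : ∀ v, ¬ expo c ≤ v → MvPowerSeries.coeff v φ = 0) :
    ∃ g : PS d, φ = mon c * g ∧
      MvPowerSeries.constantCoeff g = MvPowerSeries.coeff (expo c) φ := by
  refine ⟨fun v => MvPowerSeries.coeff (expo c + v) φ, ?_, ?_⟩
  · ext v
    rw [coeff_mon_mul]
    split_ifs with hv
    · change _ = MvPowerSeries.coeff (expo c + (v - expo c)) φ
      rw [add_tsub_cancel_of_le hv]
    · exact h v hv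
  · change MvPowerSeries.coeff (expo c + 0) φ = _
    rw [add_zero]

theorem Nr_iff {c : Fin d → ℕ} {φ : PS d} :
    Nr c φ ↔ (∀ v, ¬ expo c ≤ v → MvPowerSeries.coeff v φ = 0) ∧
      MvPowerSeries.coeff (expo c) φ = 0 := by
  constructor
  · rintro ⟨g, hg, rfl⟩
    refine ⟨fun v hv => ?_, ?_⟩
    · rw [coeff_mon_mul, if_neg hv]
    · rw [coeff_mon_mul_self, hg]
  · rintro ⟨h1, h2⟩
    obtain ⟨g, hg, hg0⟩ := exists_mul_mon h1
    exact ⟨g, by rw [hg0, h2], hg⟩

theorem coeff_Ct {c : Fin d → ℕ} {φ : PS d} (h : Ct c φ) :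
    MvPowerSeries.coeff (expo c) φ ≠ 0 := by
  obtain ⟨u, hu, rfl⟩ := h
  rw [coeff_mon_mul_self]
  exact hu

theorem prod_eq_chr (ε : Fin d → ℂ) (c : Fin d → ℕ) :
    ((expo c).prod fun s e => ε s ^ e) = chr ε c := by
  rw [Finsupp.prod_fintype _ _ (fun i => pow_zero _)]
  rfl

/-- The roots of unity that fix `φ`. -/
def G (E : ℕ) (φ : PS d) : Subgroup (Fin d → ℂˣ) where
  carrier := {ε | (∀ k, ε k ^ E = 1) ∧
    MvPowerSeries.rescale (fun k => ((ε k : ℂˣ) : ℂ)) φ = φ}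
  one_mem' := by
    refine ⟨fun k => one_pow _, ?_⟩
    have h1 : (fun k : Fin d => (((1 : Fin d → ℂˣ) k : ℂˣ) : ℂ)) = 1 := by
      funext k; simp
    rw [h1, MvPowerSeries.rescale_one]
    rfl
  mul_mem' := by
    rintro a b ⟨ha, ha'⟩ ⟨hb, hb'⟩
    refine ⟨fun k => ?_, ?_⟩
    · rw [Pi.mul_apply, mul_pow, ha, hb, one_mul]
    · have h1 : (fun k : Fin d => (((a * b) k : ℂˣ) : ℂ)) =
          (fun k => ((a k : ℂˣ) : ℂ)) * fun k => ((b k : ℂˣ) : ℂ) := by
        funext k; simp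
      rw [h1, ← MvPowerSeries.rescale_rescale, ha', hb']
  inv_mem' := by
    rintro a ⟨ha, ha'⟩
    refine ⟨fun k => ?_, ?_⟩
    · rw [Pi.inv_apply, inv_pow, ha, inv_one]
    · have h1 : (fun k => ((a k : ℂˣ) : ℂ)) * (fun k : Fin d => (((a⁻¹) k : ℂˣ) : ℂ)) = 1 := by
        funext k; simp
      calc MvPowerSeries.rescale (fun k : Fin d => (((a⁻¹) k : ℂˣ) : ℂ)) φ =
          MvPowerSeries.rescale (fun k : Fin d => (((a⁻¹) k : ℂˣ) : ℂ))
            (MvPowerSeries.rescale (fun k => ((a k : ℂˣ) : ℂ)) φ) := by rw [ha']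
        _ = φ := by
          rw [MvPowerSeries.rescale_rescale, h1, MvPowerSeries.rescale_one]
          rfl

/-- The character. -/
def ch (c : Fin d → ℕ) : (Fin d → ℂˣ) →* ℂˣ where
  toFun ε := ∏ k, ε k ^ c k
  map_one' := by simp
  map_mul' a b := by simp [mul_pow, Finset.prod_mul_distrib]

theorem ch_coe (c : Fin d → ℕ) (ε : Fin d → ℂˣ) :
    ((ch c ε : ℂˣ) : ℂ) = chr (fun k => ((ε k : ℂˣ) : ℂ)) c := by
  simp [ch, chr]

theorem exists_lift {E : ℕ} (hE : 0 < E) {φ : PS d} {ε : Fin d → ℂ} (hε : IsRt E ε)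
    (hφ : MvPowerSeries.rescale ε φ = φ) :
    ∃ ε' ∈ G E φ, (fun k => ((ε' k : ℂˣ) : ℂ)) = ε := by
  have hne : ∀ k, ε k ≠ 0 := fun k h0 => by
    have := hε k
    rw [h0, zero_pow hE.ne'] at this
    exact zero_ne_one this
  have h1 : (fun k => ((Units.mk0 (ε k) (hne k) : ℂˣ) : ℂ)) = ε := by
    funext k; simp
  refine ⟨fun k => Units.mk0 (ε k) (hne k), ⟨fun k => ?_, ?_⟩, h1⟩
  · apply Units.ext
    rw [Units.val_pow_eq_pow_val, Units.val_mk0, Units.val_one]
    exact hε k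
  · rw [h1]; exact hφ

/-- The values of a character on the stabilizer are the `p`-th roots of unity. -/
theorem exists_p {E : ℕ} (hE : 0 < E) (φ : PS d) (c : Fin d → ℕ) :
    ∃ p : ℕ, 0 < p ∧
      (∀ ε : Fin d → ℂ, IsRt E ε → MvPowerSeries.rescale ε φ = φ → chr ε c ^ p = 1) ∧
      ∀ ω : ℂ, ω ^ p = 1 → ∃ ε : Fin d → ℂ, IsRt E ε ∧ MvPowerSeries.rescale ε φ = φ ∧
        chr ε c = ω := by
  haveI : NeZero E := ⟨hE.ne'⟩
  have hle : (G E φ).map (ch c) ≤ rootsOfUnity E ℂ := by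
    rintro _ ⟨ε, hε, rfl⟩
    rw [mem_rootsOfUnity, ← map_pow]
    have h1 : ε ^ E = 1 := by
      funext k
      exact hε.1 k
    rw [h1, map_one]
  haveI hfE : Finite (rootsOfUnity E ℂ) := inferInstance
  haveI hfin : Finite ((G E φ).map (ch c)) :=
    Finite.of_injective (Subgroup.inclusion hle) (Subgroup.inclusion_injective hle)
  have hp : 0 < Nat.card ((G E φ).map (ch c)) := Nat.card_pos
  haveI : NeZero (Nat.card ((G E φ).map (ch c))) := ⟨hp.ne'⟩
  have hle2 : (G E φ).map (ch c) ≤ rootsOfUnity (Nat.card ((G E φ).map (ch c))) ℂ := by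
    intro x hx
    rw [mem_rootsOfUnity]
    have h1 := pow_card_eq_one' (x := (⟨x, hx⟩ : (G E φ).map (ch c)))
    exact congrArg Subtype.val h1
  have heq : (G E φ).map (ch c) = rootsOfUnity (Nat.card ((G E φ).map (ch c))) ℂ := by
    refine Subgroup.eq_of_le_of_card_ge hle2 ?_
    rw [Complex.card_rootsOfUnity]
  refine ⟨Nat.card ((G E φ).map (ch c)), hp, ?_, ?_⟩
  · intro ε hε hφ
    obtain ⟨ε', hε', rfl⟩ := exists_lift hE hε hφ
    have h1 : ch c ε' ∈ rootsOfUnity (Nat.card ((G E φ).map (ch c))) ℂ :=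
      hle2 ⟨ε', hε', rfl⟩
    rw [mem_rootsOfUnity] at h1
    rw [← ch_coe, ← Units.val_pow_eq_pow_val, h1, Units.val_one]
  · intro ω hω
    have hω0 : ω ≠ 0 := by
      intro h0
      rw [h0, zero_pow hp.ne'] at hω
      exact zero_ne_one hω
    have h1 : Units.mk0 ω hω0 ∈ rootsOfUnity (Nat.card ((G E φ).map (ch c))) ℂ := by
      rw [mem_rootsOfUnity]
      apply Units.ext
      rw [Units.val_pow_eq_pow_val, Units.val_mk0, Units.val_one, hω]
    rw [← heq] at h1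
    obtain ⟨ε', hε', he⟩ := h1
    refine ⟨fun k => ((ε' k : ℂˣ) : ℂ), ?_, hε'.2, ?_⟩
    · intro k
      have := hε'.1 k
      change ((ε' k : ℂˣ) : ℂ) ^ E = 1
      rw [← Units.val_pow_eq_pow_val, this, Units.val_one]
    · rw [← ch_coe, he, Units.val_mk0]

/-- The smallest contact in `C`. -/
theorem exists_lam (h : IsQO F E N0 ζ m L) {C : Finset (Fin r)} (hC : 2 ≤ C.card) :
    ∃ i₀ ∈ C, ∃ i₁ ∈ C, i₁ ≠ i₀ ∧ ∀ i ∈ C, i ≠ i₀ → ∀ k, L i₀ i₁ k ≤ L i₀ i k := by
  classical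
  have hne : C.Nonempty := Finset.card_pos.1 (by omega)
  obtain ⟨i₀, hi₀⟩ := hne
  have hne2 : (C.erase i₀).Nonempty := by
    rw [← Finset.card_pos, Finset.card_erase_of_mem hi₀]
    omega
  obtain ⟨i₁, hi₁, hmin⟩ := Finset.exists_min_image (C.erase i₀) (fun i => ∑ k, L i₀ i k) hne2
  rw [Finset.mem_erase] at hi₁
  refine ⟨i₀, hi₀, i₁, hi₁.2, hi₁.1, fun i hi hii k => ?_⟩
  rcases L_total h hi₁.1 hii with h1 | h1
  · exact h1 k
  · have h2 := hmin i (Finset.mem_erase.2 ⟨hii, hi⟩)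
    have h3 : ∑ k, L i₀ i k ≤ ∑ k, L i₀ i₁ k := Finset.sum_le_sum fun k _ => h1 k
    have h4 : ∑ k, L i₀ i k = ∑ k, L i₀ i₁ k := le_antisymm h3 h2
    have h5 := (Finset.sum_eq_sum_iff_of_le (fun k _ => h1 k)).1 h4 k (Finset.mem_univ k)
    exact h5.symm.le

end P1aux

open P1aux in
/-- If there are at least two roots near the center, there is a step. -/
theorem Stage.exists_step (h : IsQO F E N0 ζ m L) {φ : PS d} {C : Finset (Fin r)}
    {l : Fin d → ℕ} {c : Fin r → Fin d → ℕ} (hst : Stage E ζ φ C l c) (hC : 2 ≤ C.card) :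
    ∃ (φ' : PS d) (lam : Fin d → ℕ) (p s : ℕ) (v : Fin s → ℂ) (C₀ : Finset (Fin r))
      (Cb : Fin s → Finset (Fin r)), Step E ζ φ C l φ' lam p s v C₀ Cb := by
  classical
  obtain ⟨i₀, hi₀, i₁, hi₁, hii, hmin⟩ := exists_lam h hC
  set lam : Fin d → ℕ := L i₀ i₁ with hlam
  -- the coefficients which are not divisible by `t ^ lam` are common
  have hcom : ∀ i ∈ C, ∀ v, ¬ expo lam ≤ v →
      MvPowerSeries.coeff v (ζ i) = MvPowerSeries.coeff v (ζ i₀) := by
    intro i hi v hv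
    by_cases hi0 : i = i₀
    · rw [hi0]
    · obtain ⟨a1, -⟩ := contact_coeff h (Ne.symm hi0)
      by_contra hne
      apply hv
      refine le_trans ?_ (a1 v ?_)
      · rw [expo_le_expo]; exact hmin i hi hi0
      · intro hz
        apply hne
        linear_combination -hz
  have hlamne : MvPowerSeries.coeff (expo lam) (ζ i₀) -
      MvPowerSeries.coeff (expo lam) (ζ i₁) ≠ 0 := (contact_coeff h hii.symm).2
  -- `l ≤ lam`
  have hN0 := (Nr_iff.1 (hst.near i₀ hi₀))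
  have hN1 := (Nr_iff.1 (hst.near i₁ hi₁))
  have hle' : expo l ≤ expo lam := by
    by_contra hcon
    apply hlamne
    have e0 := hN0.1 _ hcon
    have e1 := hN1.1 _ hcon
    rw [map_sub] at e0 e1
    linear_combination e0 - e1
  have hle : l ≤ lam := fun k => (expo_le_expo _ _).1 hle' k
  have hne : l ≠ lam := by
    intro hcon
    apply hlamne
    have e0 := hN0.2
    have e1 := hN1.2
    rw [map_sub, hcon] at e0 e1
    linear_combination e0 - e1
  obtain ⟨p, hp, hp1, hp2⟩ := exists_p h.hE φ lam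
  obtain ⟨c₀, hc₀, hc₀1⟩ : ∃ c₀ : ℂ, (p ≠ 1 → c₀ = 0) ∧
      (p = 1 → c₀ = MvPowerSeries.coeff (expo lam) (ζ i₀)) := by
    by_cases hp : p = 1
    · exact ⟨_, fun h => absurd hp h, fun _ => rfl⟩
    · exact ⟨0, fun _ => rfl, fun h => absurd h hp⟩
  set φ' : PS d := trunc lam (ζ i₀) + MvPowerSeries.C c₀ * mon lam with hφ'
  have hco : ∀ v, MvPowerSeries.coeff v φ' =
      if expo lam ≤ v then (if v = expo lam then c₀ else 0) else
        MvPowerSeries.coeff v (ζ i₀) := by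
    intro v
    rw [hφ', map_add, coeff_C_mul_mon]
    change (if expo lam ≤ v then (0 : ℂ) else MvPowerSeries.coeff v (ζ i₀)) + _ = _
    by_cases hv : expo lam ≤ v
    · rw [if_pos hv, if_pos hv, zero_add]
    · rw [if_neg hv, if_neg hv, if_neg, add_zero]
      intro hcon
      exact hv hcon.ge
  set y : Fin r → ℂ := fun i => MvPowerSeries.coeff (expo lam) (ζ i) - c₀ with hy
  have hoff : ∀ i ∈ C, ∀ a : ℂ, ∀ v, ¬ expo lam ≤ v →
      MvPowerSeries.coeff v (ζ i - (φ' + MvPowerSeries.C a * mon lam)) = 0 := by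
    intro i hi a v hv
    rw [map_sub, map_add, hco, if_neg hv, coeff_C_mul_mon, if_neg (fun hcon => hv hcon.ge),
      hcom i hi v hv, add_zero, sub_self]
  have hat : ∀ i, ∀ a : ℂ,
      MvPowerSeries.coeff (expo lam) (ζ i - (φ' + MvPowerSeries.C a * mon lam)) = y i - a := by
    intro i a
    rw [map_sub, map_add, hco, if_pos le_rfl, if_pos rfl, coeff_C_mul_mon, if_pos rfl, hy]
    ring
  have key : ∀ i ∈ C, ∀ a : ℂ,
      Nr lam (ζ i - (φ' + MvPowerSeries.C a * mon lam)) ↔ y i = a := by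
    intro i hi a
    rw [Nr_iff]
    constructor
    · rintro ⟨-, h2⟩
      rw [hat] at h2
      exact sub_eq_zero.1 h2
    · intro h2
      refine ⟨hoff i hi a, ?_⟩
      rw [hat, h2, sub_self]
  have hz : φ' = φ' + MvPowerSeries.C (0 : ℂ) * mon lam := by
    rw [map_zero, zero_mul, add_zero]
  have key0 : ∀ i ∈ C, Nr lam (ζ i - φ') ↔ y i = 0 := by
    intro i hi
    have := key i hi 0
    rwa [← hz] at this
  have hyne : y i₀ ≠ y i₁ := by
    intro hcon
    apply hlamne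
    simp only [hy] at hcon
    linear_combination hcon
  have hgal : ∀ ε : Fin d → ℂ, IsRt E ε → MvPowerSeries.rescale ε φ = φ →
      MvPowerSeries.rescale ε φ' = φ' := by
    intro ε hε hφ
    obtain ⟨i₂, hi₂, -⟩ := h.gal hε i₀
    have hi₂C : i₂ ∈ C := by
      by_contra hcon
      obtain ⟨hc1, hc2⟩ := hst.far i₂ hcon
      apply coeff_Ct hc2
      have e1 : ζ i₂ - φ = MvPowerSeries.rescale ε (ζ i₀ - φ) := by
        rw [map_sub, hφ, hi₂]
      rw [e1, MvPowerSeries.coeff_rescale]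
      by_cases hcl : expo l ≤ expo (c i₂)
      · have e2 : expo (c i₂) = expo l := le_antisymm ((expo_le_expo _ _).2 hc1) hcl
        rw [e2, hN0.2, mul_zero]
      · rw [hN0.1 _ hcl, mul_zero]
    ext v
    rw [MvPowerSeries.coeff_rescale, hco]
    by_cases hv : expo lam ≤ v
    · rw [if_pos hv]
      by_cases hv2 : v = expo lam
      · rw [if_pos hv2, hv2, prod_eq_chr]
        by_cases hp' : p = 1
        · have e3 := hp1 ε hε hφ
          rw [hp', pow_one] at e3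
          rw [e3, one_mul]
        · rw [hc₀ hp', mul_zero]
      · rw [if_neg hv2, mul_zero]
    · rw [if_neg hv, ← MvPowerSeries.coeff_rescale, ← hi₂]
      exact hcom i₂ hi₂C v hv
  -- representatives
  set Y : Finset ℂ := (C.image y).filter (fun x => x ≠ 0) with hY
  set P : Finset ℂ := Y.image (fun x => x ^ p) with hP
  have hYne : ∃ i ∈ C, y i ≠ 0 := by
    by_contra hcon
    push Not at hcon
    exact hyne (by rw [hcon i₀ hi₀, hcon i₁ hi₁])
  have hYmem : ∀ i ∈ C, y i ≠ 0 → y i ∈ Y := by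
    intro i hi h0
    rw [hY, Finset.mem_filter]
    exact ⟨Finset.mem_image_of_mem _ hi, h0⟩
  have hPmem : ∀ i ∈ C, y i ≠ 0 → y i ^ p ∈ P := by
    intro i hi h0
    exact Finset.mem_image_of_mem _ (hYmem i hi h0)
  have hex : ∀ x : P, ∃ z : ℂ, z ∈ Y ∧ z ^ p = (x : ℂ) := by
    intro x
    obtain ⟨z, hz1, hz2⟩ := Finset.mem_image.1 x.2
    exact ⟨z, hz1, hz2⟩
  choose g hgY hgp using hex
  refine ⟨φ', lam, p, P.card, fun a => g (P.equivFin.symm a),
    C.filter (fun i => y i = 0), fun a => C.filter (fun i => y i = g (P.equivFin.symm a)),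
    ?_⟩
  constructor
  · exact hle
  · exact hne
  · -- `φ'` is near `φ`
    rw [Nr_iff]
    have e1 : φ' - φ = (ζ i₀ - φ) - (ζ i₀ - φ') := by ring
    refine ⟨fun v hv => ?_, ?_⟩
    · rw [e1, map_sub, hN0.1 v hv, zero_sub, neg_eq_zero, hz]
      exact hoff i₀ hi₀ 0 v fun hcon => hv (hle'.trans hcon)
    · rw [e1, map_sub, hN0.2, zero_sub, neg_eq_zero, hz]
      refine hoff i₀ hi₀ 0 _ fun hcon => hne ?_
      exact expo_inj (le_antisymm hle' hcon)
  · intro i hi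
    have e1 := hoff i hi 0
    rw [← hz] at e1
    obtain ⟨g', hg', -⟩ := exists_mul_mon e1
    exact ⟨g', hg'⟩
  · intro i
    rw [Finset.mem_filter]
    constructor
    · rintro ⟨h1, h2⟩
      exact ⟨h1, (key0 i h1).2 h2⟩
    · rintro ⟨h1, h2⟩
      exact ⟨h1, (key0 i h1).1 h2⟩
  · intro a i
    rw [Finset.mem_filter]
    constructor
    · rintro ⟨h1, h2⟩
      exact ⟨h1, (key i h1 _).2 h2⟩
    · rintro ⟨h1, h2⟩
      exact ⟨h1, (key i h1 _).1 h2⟩
  · exact hp
  · obtain ⟨i, hi, hi0⟩ := hYne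
    exact Finset.card_pos.2 ⟨_, hPmem i hi hi0⟩
  · intro a
    have e1 := hgY (P.equivFin.symm a)
    rw [hY, Finset.mem_filter] at e1
    exact e1.2
  · intro a b hab
    rw [hgp, hgp] at hab
    exact P.equivFin.symm.injective (Subtype.ext hab)
  · intro i hi hi0
    rw [Finset.mem_filter, not_and] at hi0
    have hyi := hi0 hi
    refine ⟨P.equivFin ⟨y i ^ p, hPmem i hi hyi⟩, y i / g ⟨y i ^ p, hPmem i hi hyi⟩, ?_, ?_⟩
    · have e1 : g ⟨y i ^ p, hPmem i hi hyi⟩ ^ p = y i ^ p := hgp _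
      rw [div_pow, e1, div_self (pow_ne_zero _ hyi)]
    · rw [Equiv.symm_apply_apply, key i hi]
      have e1 := hgY ⟨y i ^ p, hPmem i hi hyi⟩
      rw [hY, Finset.mem_filter] at e1
      rw [div_mul_cancel₀ _ e1.2]
  · intro ε hε hφ
    exact ⟨hgal ε hε hφ, hp1 ε hε hφ⟩
  · exact hp2
  · intro hcon
    obtain ⟨i, hi, hi0⟩ := hYne
    rw [← hcon, Finset.mem_filter] at hi
    exact hi0 hi.2
  · intro a hcon
    apply hyne
    have e0 := hi₀
    have e1 := hi₁
    rw [← hcon, Finset.mem_filter] at e0 e1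
    rw [e0.2, e1.2]
  · intro a
    have e1 := hgY (P.equivFin.symm a)
    rw [hY, Finset.mem_filter, Finset.mem_image] at e1
    obtain ⟨⟨i, hi, hii⟩, -⟩ := e1
    exact ⟨i, Finset.mem_filter.2 ⟨hi, hii⟩⟩
  · intro hp'
    refine ⟨i₀, Finset.mem_filter.2 ⟨hi₀, ?_⟩⟩
    simp only [hy]
    rw [hc₀1 hp', sub_self]

end QO

end MPb07157
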