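import Pool.Agent.Lib.MP_b07157_agO.P0

/-!
# The stages of the children of a step
-/

noncomputable section

namespace MPb07157

namespace QO

variable {d r : ℕ} {F : MvPowerSeries (Fin (d + 1)) ℂ} {E : ℕ} {N0 : Fin d → ℕ}
  {ζ : Fin r → PS d} {m : Fin r → ℕ} {L : Fin r → Fin r → Fin d → ℕ}

namespace P2

theorem mon_add (a b : Fin d → ℕ) : (mon (a + b) : PS d) = mon a * mon b := by
  unfold mon
  rw [MvPowerSeries.monomial_mul_monomial, one_mul]
  have h : expo (a + b) = expo a + expo b := by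
    refine Finsupp.ext fun k => ?_
    rfl
  rw [h]

theorem mon_sub {a b : Fin d → ℕ} (h : a ≤ b) : (mon b : PS d) = mon a * mon (b - a) := by
  rw [← mon_add]
  congr 1
  funext k
  have h1 : a k ≤ b k := h k
  simp only [Pi.add_apply, Pi.sub_apply]
  omega

theorem constantCoeff_mon {a : Fin d → ℕ} (h : a ≠ 0) :
    MvPowerSeries.constantCoeff (mon a : PS d) = 0 := by
  classical
  unfold mon
  rw [← MvPowerSeries.coeff_zero_eq_constantCoeff_apply, MvPowerSeries.coeff_monomial, if_neg]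
  intro h0
  apply h
  funext k
  have := DFunLike.congr_fun h0 k
  exact this.symm

theorem mon_zero : (mon (0 : Fin d → ℕ) : PS d) = 1 := by
  unfold mon
  have : expo (0 : Fin d → ℕ) = 0 := by
    ext k
    rfl
  rw [this]
  exact MvPowerSeries.monomial_zero_one

theorem Nr.zero (l : Fin d → ℕ) : Nr l (0 : PS d) := ⟨0, map_zero _, by rw [mul_zero]⟩

theorem Nr.add {l : Fin d → ℕ} {x y : PS d} (hx : Nr l x) (hy : Nr l y) : Nr l (x + y) := by
  obtain ⟨g, hg, rfl⟩ := hx
  obtain ⟨g', hg', rfl⟩ := hy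
  exact ⟨g + g', by rw [map_add, hg, hg', add_zero], by rw [mul_add]⟩

theorem Nr.neg {l : Fin d → ℕ} {x : PS d} (hx : Nr l x) : Nr l (-x) := by
  obtain ⟨g, hg, rfl⟩ := hx
  exact ⟨-g, by rw [map_neg, hg, neg_zero], by rw [mul_neg]⟩

theorem Nr.sub {l : Fin d → ℕ} {x y : PS d} (hx : Nr l x) (hy : Nr l y) : Nr l (x - y) := by
  rw [sub_eq_add_neg]
  exact Nr.add hx (Nr.neg hy)

/-- A monomial of larger exponent. -/
theorem Nr.mon {l lam : Fin d → ℕ} (h : l ≤ lam) (hne : l ≠ lam) (c : ℂ) :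
    Nr l (MvPowerSeries.C c * QO.mon lam : PS d) := by
  refine ⟨MvPowerSeries.C c * QO.mon (lam - l), ?_, ?_⟩
  · rw [map_mul, constantCoeff_mon, mul_zero]
    intro h0
    apply hne
    funext k
    have h1 : l k ≤ lam k := h k
    have h2 := congrFun h0 k
    simp only [Pi.sub_apply, Pi.zero_apply] at h2
    omega
  · rw [mon_sub h]
    ring

theorem Ct.add_nr {a l : Fin d → ℕ} (h : a ≤ l) {x y : PS d} (hx : Ct a x) (hy : Nr l y) :
    Ct a (x + y) := by
  obtain ⟨u, hu, rfl⟩ := hx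
  obtain ⟨g, hg, rfl⟩ := hy
  refine ⟨u + QO.mon (l - a) * g, ?_, ?_⟩
  · rw [map_add, map_mul, hg, mul_zero, add_zero]
    exact hu
  · rw [mon_sub h]
    ring

theorem Ct.sub_nr {a l : Fin d → ℕ} (h : a ≤ l) {x y : PS d} (hx : Ct a x) (hy : Nr l y) :
    Ct a (x - y) := by
  rw [sub_eq_add_neg]
  exact Ct.add_nr h hx (Nr.neg hy)

theorem rescale_mon (ε : Fin d → ℂ) (a : Fin d → ℕ) :
    MvPowerSeries.rescale ε (QO.mon a : PS d) = MvPowerSeries.C (chr ε a) * QO.mon a := by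
  classical
  ext n
  rw [MvPowerSeries.coeff_rescale, MvPowerSeries.coeff_C_mul]
  unfold QO.mon
  rw [MvPowerSeries.coeff_monomial]
  split_ifs with h
  · rw [h]
    congr 1
    unfold chr
    rw [Finsupp.prod_fintype _ _ (fun k => pow_zero _)]
    rfl
  · rw [mul_zero, mul_zero]

theorem rescale_C (ε : Fin d → ℂ) (c : ℂ) :
    MvPowerSeries.rescale ε (MvPowerSeries.C c : PS d) = MvPowerSeries.C c := by
  classical
  ext n
  rw [MvPowerSeries.coeff_rescale, MvPowerSeries.coeff_C]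
  split_ifs with h
  · rw [h]; simp
  · rw [mul_zero]

theorem constantCoeff_rescale (ε : Fin d → ℂ) (x : PS d) :
    MvPowerSeries.constantCoeff (MvPowerSeries.rescale ε x) = MvPowerSeries.constantCoeff x := by
  rw [← MvPowerSeries.coeff_zero_eq_constantCoeff_apply, MvPowerSeries.coeff_rescale,
    Finsupp.prod_zero_index, one_mul, MvPowerSeries.coeff_zero_eq_constantCoeff_apply]

theorem Nr.rescale {l : Fin d → ℕ} {x : PS d} (hx : Nr l x) (ε : Fin d → ℂ) :
    Nr l (MvPowerSeries.rescale ε x) := by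
  obtain ⟨g, hg, rfl⟩ := hx
  refine ⟨MvPowerSeries.C (chr ε l) * MvPowerSeries.rescale ε g, ?_, ?_⟩
  · rw [map_mul, constantCoeff_rescale, hg, mul_zero]
  · rw [map_mul, rescale_mon]
    ring

/-- A change of the center by an element of `t^l 𝔪` does not change the far roots. -/
theorem far_of {l : Fin d → ℕ} {a : Fin d → ℕ} {x φ φ' : PS d} (ha : a ≤ l) (hx : Ct a (x - φ))
    (hc : Nr l (φ' - φ)) : Ct a (x - φ') := by
  have h : x - φ' = (x - φ) - (φ' - φ) := by ring
  rw [h]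
  exact Ct.sub_nr ha hx hc

theorem gal_of {l : Fin d → ℕ} {a : Fin d → ℕ} {φ φ' : PS d} (ha : a ≤ l) {ε : Fin d → ℂ}
    (hx : Ct a (MvPowerSeries.rescale ε φ - φ)) (hc : Nr l (φ' - φ)) :
    Ct a (MvPowerSeries.rescale ε φ' - φ') := by
  have h : MvPowerSeries.rescale ε φ' - φ' = (MvPowerSeries.rescale ε φ - φ) +
      (MvPowerSeries.rescale ε (φ' - φ) - (φ' - φ)) := by
    rw [map_sub]
    ring
  rw [h]
  exact Ct.add_nr ha hx (Nr.sub (Nr.rescale hc ε) hc)

theorem const_of {l : Fin d → ℕ} {φ φ' : PS d} (h0 : MvPowerSeries.constantCoeff φ = 0)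
    (hc : Nr l (φ' - φ)) : MvPowerSeries.constantCoeff φ' = 0 := by
  obtain ⟨g, hg, h⟩ := hc
  have h1 := congrArg MvPowerSeries.constantCoeff h
  rw [map_sub, map_mul, hg, mul_zero, h0, sub_zero] at h1
  exact h1

end P2

open P2

/-- The first stage. -/
theorem stage_zero (h : IsQO F E N0 ζ m L) :
    Stage E ζ (0 : PS d) Finset.univ 0 (fun _ => 0) where
  zero := map_zero _
  near := fun i _ => ⟨ζ i, h.h0 i, by rw [mon_zero, one_mul, sub_zero]⟩
  far := fun i hi => absurd (Finset.mem_univ i) hi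
  gal := fun ε _ => Or.inl (map_zero _)
  low := Or.inl rfl

theorem Step.stage₀ {φ : PS d} {C : Finset (Fin r)} {l : Fin d → ℕ} {c : Fin r → Fin d → ℕ}
    (hst : Stage E ζ φ C l c) {φ' : PS d} {lam : Fin d → ℕ} {p s : ℕ} {v : Fin s → ℂ}
    {C₀ : Finset (Fin r)} {Cb : Fin s → Finset (Fin r)}
    (hs : Step E ζ φ C l φ' lam p s v C₀ Cb) : Stage E ζ φ' C₀ lam (cc' C lam c) where
  zero := const_of hst.zero hs.cen
  near := fun i hi => ((hs.memC₀ i).1 hi).2
  far := fun i hi => by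
    unfold cc'
    split_ifs with hC
    · refine ⟨le_refl _, ?_⟩
      obtain ⟨g, hg⟩ := hs.val i hC
      refine ⟨g, fun h0 => hi ((hs.memC₀ i).2 ⟨hC, g, h0, hg⟩), hg⟩
    · obtain ⟨h1, h2⟩ := hst.far i hC
      exact ⟨h1.trans hs.le, far_of h1 h2 hs.cen⟩
  gal := fun ε hε => by
    rcases hst.gal ε hε with h | ⟨e, he, h⟩
    · exact Or.inl (hs.galp ε hε h).1
    · exact Or.inr ⟨e, he.trans hs.le, gal_of he h hs.cen⟩
  low := by
    right
    have h1 : C₀ ⊆ C := fun i hi => ((hs.memC₀ i).1 hi).1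
    obtain ⟨i, hi, hi'⟩ := Finset.exists_of_ssubset (lt_of_le_of_ne h1 hs.neC₀)
    exact ⟨i, hi', if_pos hi⟩

theorem Step.stageb {φ : PS d} {C : Finset (Fin r)} {l : Fin d → ℕ} {c : Fin r → Fin d → ℕ}
    (hst : Stage E ζ φ C l c) {φ' : PS d} {lam : Fin d → ℕ} {p s : ℕ} {v : Fin s → ℂ}
    {C₀ : Finset (Fin r)} {Cb : Fin s → Finset (Fin r)}
    (hs : Step E ζ φ C l φ' lam p s v C₀ Cb) (a : Fin s) :
    Stage E ζ (φ' + MvPowerSeries.C (v a) * mon lam) (Cb a) lam (cc' C lam c) := by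
  have hcen : Nr l (φ' + MvPowerSeries.C (v a) * mon lam - φ) := by
    have h : φ' + MvPowerSeries.C (v a) * mon lam - φ =
        (φ' - φ) + MvPowerSeries.C (v a) * mon lam := by ring
    rw [h]
    exact Nr.add hs.cen (Nr.mon hs.le hs.ne _)
  refine ⟨const_of hst.zero hcen, fun i hi => ((hs.memCb a i).1 hi).2, fun i hi => ?_,
    fun ε hε => ?_, ?_⟩
  · unfold cc'
    split_ifs with hC
    · refine ⟨le_refl _, ?_⟩
      obtain ⟨g, hg⟩ := hs.val i hC
      have hg' : ζ i - (φ' + MvPowerSeries.C (v a) * mon lam) =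
          mon lam * (g - MvPowerSeries.C (v a)) := by
        rw [mul_sub, ← hg]
        ring
      exact ⟨g - MvPowerSeries.C (v a), fun h0 => hi ((hs.memCb a i).2 ⟨hC, _, h0, hg'⟩), hg'⟩
    · obtain ⟨h1, h2⟩ := hst.far i hC
      exact ⟨h1.trans hs.le, far_of h1 h2 hcen⟩
  · rcases hst.gal ε hε with h | ⟨e, he, h⟩
    · obtain ⟨h1, _⟩ := hs.galp ε hε h
      have h2 : MvPowerSeries.rescale ε (φ' + MvPowerSeries.C (v a) * mon lam) -
          (φ' + MvPowerSeries.C (v a) * mon lam) =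
          mon lam * MvPowerSeries.C (v a * (chr ε lam - 1)) := by
        rw [map_add, map_mul, rescale_C, rescale_mon, h1, map_mul, map_sub, map_one]
        ring
      by_cases h3 : chr ε lam = 1
      · left
        rw [h3, sub_self, mul_zero, map_zero, mul_zero, sub_eq_zero] at h2
        exact h2
      · right
        refine ⟨lam, le_refl _, MvPowerSeries.C (v a * (chr ε lam - 1)), ?_, h2⟩
        rw [MvPowerSeries.constantCoeff_C]
        exact mul_ne_zero (hs.v_ne a) (sub_ne_zero.2 h3)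
    · exact Or.inr ⟨e, he.trans hs.le, gal_of he h hcen⟩
  · right
    have h1 : Cb a ⊆ C := fun i hi => ((hs.memCb a i).1 hi).1
    obtain ⟨i, hi, hi'⟩ := Finset.exists_of_ssubset (lt_of_le_of_ne h1 (hs.neCb a))
    exact ⟨i, hi', if_pos hi⟩

/-- A stage with one root: the root can be taken as center. -/
theorem Stage.single (h : IsQO F E N0 ζ m L) {φ : PS d} {i : Fin r} {l : Fin d → ℕ}
    {c : Fin r → Fin d → ℕ} (hst : Stage E ζ φ {i} l c) : Stage E ζ (ζ i) {i} l c := by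
  have hcen : Nr l (ζ i - φ) := hst.near i (Finset.mem_singleton_self i)
  refine ⟨h.h0 i, fun j hj => ?_, fun j hj => ?_, fun ε hε => ?_, hst.low⟩
  · rw [Finset.mem_singleton] at hj
    rw [hj, sub_self]
    exact Nr.zero l
  · obtain ⟨h1, h2⟩ := hst.far j hj
    exact ⟨h1, far_of h1 h2 hcen⟩
  · obtain ⟨j, hj, _⟩ := IsQO.gal h hε i
    by_cases hji : j = i
    · left
      rw [← hj, hji]
    · right
      obtain ⟨h1, h2⟩ := hst.far j (by rw [Finset.mem_singleton]; exact hji)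
      rw [← hj]
      exact ⟨c j, h1, far_of h1 h2 hcen⟩

end QO

end MPb07157
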