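import Pool.Agent.Lib.MP_b07157_agO.P0
import Pool.Agent.Lib.MP_b07157_agO.P1
import Pool.Agent.Lib.MP_b07157_agO.P2

/-!
# Multiplicities and contacts in a step
-/

noncomputable section

namespace MPb07157

namespace QO

variable {d r : ℕ} {F : MvPowerSeries (Fin (d + 1)) ℂ} {E : ℕ} {N0 : Fin d → ℕ}
  {ζ : Fin r → PS d} {m : Fin r → ℕ} {L : Fin r → Fin r → Fin d → ℕ}

namespace P2c

open P1aux

theorem Ct_iff {c : Fin d → ℕ} {φ : PS d} :
    Ct c φ ↔ (∀ v, MvPowerSeries.coeff v φ ≠ 0 → expo c ≤ v) ∧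
      MvPowerSeries.coeff (expo c) φ ≠ 0 := by
  constructor
  · intro h
    refine ⟨fun v hv => ?_, coeff_Ct h⟩
    obtain ⟨u, hu, rfl⟩ := h
    by_contra hcon
    rw [coeff_mon_mul, if_neg hcon] at hv
    exact hv rfl
  · rintro ⟨h1, h2⟩
    obtain ⟨g, hg, hg0⟩ := exists_mul_mon (c := c) (φ := φ) (fun v hv => by
      by_contra h
      exact hv (h1 v h))
    exact ⟨g, by rwa [hg0], hg⟩

theorem Ct_unique {a b : Fin d → ℕ} {φ : PS d} (ha : Ct a φ) (hb : Ct b φ) : a = b := by
  rw [Ct_iff] at ha hb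
  exact expo_inj (le_antisymm (ha.1 _ hb.2) (hb.1 _ ha.2))

theorem Ct_L (h : IsQO F E N0 ζ m L) {i j : Fin r} (hij : i ≠ j) : Ct (L i j) (ζ i - ζ j) := by
  obtain ⟨h1, h2⟩ := contact_coeff h hij
  rw [Ct_iff]
  refine ⟨fun v hv => h1 v ?_, ?_⟩
  · rwa [map_sub] at hv
  · rwa [map_sub]

theorem zeta_inj (h : IsQO F E N0 ζ m L) {i j : Fin r} (hij : ζ i = ζ j) : i = j := by
  by_contra hne
  have h1 := (Ct_iff.1 (Ct_L h hne)).2
  rw [hij, sub_self, map_zero] at h1
  exact h1 rfl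

theorem Ct_neg {a : Fin d → ℕ} {φ : PS d} (ha : Ct a φ) : Ct a (-φ) := by
  obtain ⟨u, hu, rfl⟩ := ha
  exact ⟨-u, by rw [map_neg]; exact neg_ne_zero.2 hu, by rw [mul_neg]⟩

theorem not_near_of_far {a l : Fin d → ℕ} (h : a ≤ l) {x : PS d} (hc : Ct a x) : ¬ Nr l x := by
  intro hn
  rw [Nr_iff] at hn
  apply coeff_Ct hc
  by_cases hcl : expo l ≤ expo a
  · have e2 : expo a = expo l := le_antisymm ((expo_le_expo _ _).2 h) hcl
    rw [e2]
    exact hn.2
  · exact hn.1 _ hcl

/-- The value of a root of a step. -/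
theorem key (lam : Fin d → ℕ) {x φ' : PS d} (hx : ∃ g : PS d, x - φ' = mon lam * g) (a : ℂ) :
    Nr lam (x - (φ' + MvPowerSeries.C a * mon lam)) ↔
      MvPowerSeries.coeff (expo lam) (x - φ') = a := by
  obtain ⟨g, hg⟩ := hx
  have h1 : x - (φ' + MvPowerSeries.C a * mon lam) = mon lam * (g - MvPowerSeries.C a) := by
    rw [mul_sub, ← hg]
    ring
  have h2 : MvPowerSeries.coeff (expo lam) (x - φ') = MvPowerSeries.constantCoeff g := by
    rw [hg, coeff_mon_mul_self]
  rw [h1, h2, Nr_iff, coeff_mon_mul_self, map_sub, MvPowerSeries.constantCoeff_C]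
  constructor
  · rintro ⟨-, h3⟩
    exact sub_eq_zero.1 h3
  · intro h3
    refine ⟨fun v hv => ?_, by rw [h3, sub_self]⟩
    rw [coeff_mon_mul, if_neg hv]

theorem key0 (lam : Fin d → ℕ) {x φ' : PS d} (hx : ∃ g : PS d, x - φ' = mon lam * g) :
    Nr lam (x - φ') ↔ MvPowerSeries.coeff (expo lam) (x - φ') = 0 := by
  have h := key lam hx 0
  rwa [map_zero, zero_mul, add_zero] at h

/-- The Galois action on the roots of a step. -/
theorem exists_perm (h : IsQO F E N0 ζ m L) {φ : PS d} {C : Finset (Fin r)} {l : Fin d → ℕ}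
    {c : Fin r → Fin d → ℕ} (hst : Stage E ζ φ C l c) {φ' : PS d} {lam : Fin d → ℕ} {p s : ℕ}
    {v : Fin s → ℂ} {C₀ : Finset (Fin r)} {Cb : Fin s → Finset (Fin r)}
    (hs : Step E ζ φ C l φ' lam p s v C₀ Cb) {ω : ℂ} (hω : ω ^ p = 1) :
    ∃ σ : Equiv.Perm (Fin r), (∀ i, σ i ∈ C ↔ i ∈ C) ∧ (∀ i, m (σ i) = m i) ∧
      ∀ i, MvPowerSeries.coeff (expo lam) (ζ (σ i) - φ') =
        ω * MvPowerSeries.coeff (expo lam) (ζ i - φ') := by
  classical
  obtain ⟨ε, hε, hφ, hchr⟩ := hs.gals ω hω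
  have h1 : ∀ i, ∃ i', ζ i' = MvPowerSeries.rescale ε (ζ i) ∧ m i' = m i := fun i => h.gal hε i
  choose σ hσ hm using h1
  have hne : ∀ k, ε k ≠ 0 := fun k h0 => by
    have := hε k
    rw [h0, zero_pow h.hE.ne'] at this
    exact zero_ne_one this
  have hinj : Function.Injective σ := by
    intro i j hij
    apply zeta_inj h
    have e1 : MvPowerSeries.rescale ε (ζ i) = MvPowerSeries.rescale ε (ζ j) := by
      rw [← hσ i, ← hσ j, hij]
    ext n
    have e2 := congrArg (MvPowerSeries.coeff n) e1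
    rw [MvPowerSeries.coeff_rescale, MvPowerSeries.coeff_rescale] at e2
    refine mul_left_cancel₀ ?_ e2
    rw [Finsupp.prod_fintype _ _ (fun k => pow_zero _)]
    exact Finset.prod_ne_zero_iff.2 fun k _ => pow_ne_zero _ (hne k)
  have hC1 : ∀ i ∈ C, σ i ∈ C := by
    intro i hi
    by_contra hcon
    obtain ⟨hc1, hc2⟩ := hst.far (σ i) hcon
    apply not_near_of_far hc1 hc2
    have e1 : ζ (σ i) - φ = MvPowerSeries.rescale ε (ζ i - φ) := by
      rw [map_sub, hφ, hσ i]
    rw [e1]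
    exact P2.Nr.rescale (hst.near i hi) ε
  have himg : C.image σ = C := by
    apply Finset.eq_of_subset_of_card_le
    · intro x hx
      obtain ⟨i, hi, rfl⟩ := Finset.mem_image.1 hx
      exact hC1 i hi
    · rw [Finset.card_image_of_injective _ hinj]
  refine ⟨Equiv.ofBijective σ (Finite.injective_iff_bijective.1 hinj), fun i => ?_, fun i => ?_,
    fun i => ?_⟩
  · rw [Equiv.ofBijective_apply]
    constructor
    · intro hi
      rw [← himg] at hi
      obtain ⟨j, hj, hji⟩ := Finset.mem_image.1 hi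
      rwa [← hinj hji]
    · exact hC1 i
  · rw [Equiv.ofBijective_apply]
    exact hm i
  · rw [Equiv.ofBijective_apply]
    have e1 : ζ (σ i) - φ' = MvPowerSeries.rescale ε (ζ i - φ') := by
      rw [map_sub, (hs.galp ε hε hφ).1, hσ i]
    rw [e1, MvPowerSeries.coeff_rescale, prod_eq_chr, hchr]

end P2c

open P2c P1aux

/-- The multiplicities add up: the nonzero values come in `μ_p`-orbits of roots with the same
multiplicities. -/
theorem Step.mass (h : IsQO F E N0 ζ m L) {φ : PS d} {C : Finset (Fin r)} {l : Fin d → ℕ}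
    {c : Fin r → Fin d → ℕ} (hst : Stage E ζ φ C l c) {φ' : PS d} {lam : Fin d → ℕ} {p s : ℕ}
    {v : Fin s → ℂ} {C₀ : Finset (Fin r)} {Cb : Fin s → Finset (Fin r)}
    (hs : Step E ζ φ C l φ' lam p s v C₀ Cb) :
    mss m C = mss m C₀ + p * ∑ a, mss m (Cb a) := by
  classical
  set y : Fin r → ℂ := fun i => MvPowerSeries.coeff (expo lam) (ζ i - φ') with hy
  have hC₀ : C₀ = C.filter (fun i => y i = 0) := by
    ext i
    rw [hs.memC₀, Finset.mem_filter]
    constructor
    · rintro ⟨h1, h2⟩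
      exact ⟨h1, (key0 lam (hs.val i h1)).1 h2⟩
    · rintro ⟨h1, h2⟩
      exact ⟨h1, (key0 lam (hs.val i h1)).2 h2⟩
  have hCb : ∀ a, Cb a = C.filter (fun i => y i = v a) := by
    intro a
    ext i
    rw [hs.memCb, Finset.mem_filter]
    constructor
    · rintro ⟨h1, h2⟩
      exact ⟨h1, (key lam (hs.val i h1) _).1 h2⟩
    · rintro ⟨h1, h2⟩
      exact ⟨h1, (key lam (hs.val i h1) _).2 h2⟩
  set R : Finset ℂ := Polynomial.nthRootsFinset p (1 : ℂ) with hR
  have hRmem : ∀ ω, ω ∈ R ↔ ω ^ p = 1 := fun ω => by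
    rw [hR, Polynomial.mem_nthRootsFinset hs.hp]
  have hRcard : R.card = p := by
    rw [hR]
    exact (Complex.isPrimitiveRoot_exp p hs.hp.ne').card_nthRootsFinset
  -- the masses of the other values of an orbit
  have horb : ∀ a, ∀ ω ∈ R, ∑ i ∈ C.filter (fun i => y i = ω * v a), m i = mss m (Cb a) := by
    intro a ω hω
    obtain ⟨σ, hσ1, hσ2, hσ3⟩ := exists_perm h hst hs ((hRmem ω).1 hω)
    have hω0 : ω ≠ 0 := by
      intro h0
      have := (hRmem ω).1 hω
      rw [h0, zero_pow hs.hp.ne'] at this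
      exact zero_ne_one this
    unfold mss
    rw [hCb a]
    symm
    refine Finset.sum_bij (fun i _ => σ i) ?_ ?_ ?_ ?_
    · intro i hi
      rw [Finset.mem_filter] at hi ⊢
      refine ⟨(hσ1 i).2 hi.1, ?_⟩
      rw [← hi.2]
      exact hσ3 i
    · intro i _ j _ hij
      exact σ.injective hij
    · intro j hj
      rw [Finset.mem_filter] at hj
      refine ⟨σ.symm j, ?_, σ.apply_symm_apply j⟩
      rw [Finset.mem_filter]
      have e1 := hσ3 (σ.symm j)
      rw [σ.apply_symm_apply] at e1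
      refine ⟨(hσ1 _).1 (by rw [σ.apply_symm_apply]; exact hj.1), ?_⟩
      apply mul_left_cancel₀ hω0
      rw [← hj.2]
      exact e1.symm
    · intro i _
      exact (hσ2 i).symm
  -- the values which are not zero
  have hone : ∀ i ∈ C.filter (fun i => ¬ y i = 0),
      m i = ∑ a : Fin s, ∑ ω ∈ R, if y i = ω * v a then m i else 0 := by
    intro i hi
    rw [Finset.mem_filter] at hi
    have hi0 : i ∉ C₀ := by
      rw [hC₀, Finset.mem_filter]
      exact fun hcon => hi.2 hcon.2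
    obtain ⟨a, ω, hω, hn⟩ := hs.cover i hi.1 hi0
    have hya : y i = ω * v a := (key lam (hs.val i hi.1) _).1 hn
    rw [Finset.sum_eq_single a, Finset.sum_eq_single ω, if_pos hya]
    · intro ω' hω' hne
      rw [if_neg]
      intro hcon
      apply hne
      rw [hya] at hcon
      exact (mul_right_cancel₀ (hs.v_ne a) hcon).symm
    · intro hcon
      exact absurd ((hRmem ω).2 hω) hcon
    · intro b _ hb
      refine Finset.sum_eq_zero fun ω' hω' => ?_
      rw [if_neg]
      intro hcon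
      apply hb
      apply hs.v_inj
      rw [hya] at hcon
      have e1 := congrArg (fun x => x ^ p) hcon
      simp only [mul_pow] at e1
      rw [hω, (hRmem ω').1 hω', one_mul, one_mul] at e1
      exact e1.symm
    · intro hcon
      exact absurd (Finset.mem_univ a) hcon
  have hsplit : mss m C = mss m C₀ + ∑ i ∈ C.filter (fun i => ¬ y i = 0), m i := by
    unfold mss
    rw [hC₀]
    exact (Finset.sum_filter_add_sum_filter_not C (fun i => y i = 0) m).symm
  rw [hsplit]
  congr 1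
  rw [Finset.sum_congr rfl hone, Finset.sum_comm, Finset.mul_sum]
  refine Finset.sum_congr rfl fun a _ => ?_
  rw [Finset.sum_comm]
  have e1 : ∀ ω ∈ R, ∑ i ∈ C.filter (fun i => ¬ y i = 0), (if y i = ω * v a then m i else 0) =
      mss m (Cb a) := by
    intro ω hω
    rw [← horb a ω hω, ← Finset.sum_filter, Finset.filter_filter]
    refine Finset.sum_congr ?_ fun i _ => rfl
    ext i
    rw [Finset.mem_filter, Finset.mem_filter]
    constructor
    · rintro ⟨h1, -, h2⟩
      exact ⟨h1, h2⟩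
    · rintro ⟨h1, h2⟩
      refine ⟨h1, ?_, h2⟩
      rw [h2]
      apply mul_ne_zero _ (hs.v_ne a)
      intro h0
      have := (hRmem ω).1 hω
      rw [h0, zero_pow hs.hp.ne'] at this
      exact zero_ne_one this
  rw [Finset.sum_congr rfl e1, Finset.sum_const, hRcard, smul_eq_mul]

/-- The contact of two roots of a stage, one near the center and the other not. -/
theorem Stage.contact (h : IsQO F E N0 ζ m L) {φ : PS d} {C : Finset (Fin r)} {l : Fin d → ℕ}
    {c : Fin r → Fin d → ℕ} (hst : Stage E ζ φ C l c) {i i' : Fin r} (hi : i ∈ C)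
    (hi' : i' ∉ C) : L i i' = c i' := by
  have hne : i ≠ i' := fun hcon => hi' (hcon ▸ hi)
  obtain ⟨h1, h2⟩ := hst.far i' hi'
  apply Ct_unique (Ct_L h hne)
  have e1 : ζ i - ζ i' = -(ζ i' - φ) + (ζ i - φ) := by ring
  rw [e1]
  exact P2.Ct.add_nr h1 (Ct_neg h2) (hst.near i hi)

/-- Two roots near the center have a contact `≥ l`, `≠ l`. -/
theorem Stage.contact_near (h : IsQO F E N0 ζ m L) {φ : PS d} {C : Finset (Fin r)}
    {l : Fin d → ℕ} {c : Fin r → Fin d → ℕ} (hst : Stage E ζ φ C l c) {i i' : Fin r}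
    (hi : i ∈ C) (hi' : i' ∈ C) (hne : i ≠ i') : l ≤ L i i' ∧ l ≠ L i i' := by
  have h1 := coeff_Ct (Ct_L h hne)
  have h2 : Nr l (ζ i - ζ i') := by
    have e1 : ζ i - ζ i' = (ζ i - φ) - (ζ i' - φ) := by ring
    rw [e1]
    exact P2.Nr.sub (hst.near i hi) (hst.near i' hi')
  rw [Nr_iff] at h2
  constructor
  · by_contra hcon
    exact h1 (h2.1 _ fun hc => hcon fun k => (expo_le_expo _ _).1 hc k)
  · intro hcon
    rw [← hcon] at h1
    exact h1 h2.2

/-- In a step: the contact of two roots of `C` is `≥ lam`, and it is `lam` if the values are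
different (in particular if one of them is in a child and the other is not). -/
theorem Step.contact (h : IsQO F E N0 ζ m L) {φ : PS d} {C : Finset (Fin r)} {l : Fin d → ℕ}
    {φ' : PS d} {lam : Fin d → ℕ} {p s : ℕ} {v : Fin s → ℂ} {C₀ : Finset (Fin r)}
    {Cb : Fin s → Finset (Fin r)} (hs : Step E ζ φ C l φ' lam p s v C₀ Cb) {i i' : Fin r}
    (hi : i ∈ C) (hi' : i' ∈ C) (hne : i ≠ i') : lam ≤ L i i' ∧
      ((i ∈ C₀ ∧ i' ∉ C₀ ∨ ∃ a, i ∈ Cb a ∧ i' ∉ Cb a) → L i i' = lam) := by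
  have hct := Ct_L h hne
  obtain ⟨g, hg⟩ := hs.val i hi
  obtain ⟨g', hg'⟩ := hs.val i' hi'
  have e1 : ζ i - ζ i' = mon lam * (g - g') := by
    rw [mul_sub, ← hg, ← hg']
    ring
  constructor
  · by_contra hcon
    apply coeff_Ct hct
    rw [e1, coeff_mon_mul, if_neg]
    intro hc
    exact hcon fun k => (expo_le_expo _ _).1 hc k
  · intro hor
    apply Ct_unique hct
    refine ⟨g - g', ?_, e1⟩
    have k1 : MvPowerSeries.coeff (expo lam) (ζ i - φ') = MvPowerSeries.constantCoeff g := by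
      rw [hg, coeff_mon_mul_self]
    have k2 : MvPowerSeries.coeff (expo lam) (ζ i' - φ') = MvPowerSeries.constantCoeff g' := by
      rw [hg', coeff_mon_mul_self]
    intro hcon
    rw [map_sub, ← k1, ← k2, sub_eq_zero] at hcon
    rcases hor with ⟨a1, a2⟩ | ⟨a, a1, a2⟩
    · apply a2
      rw [hs.memC₀] at a1 ⊢
      refine ⟨hi', ?_⟩
      rw [key0 lam (hs.val i' hi'), ← hcon]
      exact (key0 lam (hs.val i hi)).1 a1.2
    · apply a2
      rw [hs.memCb] at a1 ⊢
      refine ⟨hi', ?_⟩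
      rw [key lam (hs.val i' hi'), ← hcon]
      exact (key lam (hs.val i hi) _).1 a1.2

end QO

end MPb07157
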