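import Pool.Agent.Lib.MP_b07157_agO.P0

/-!
# Admissible orders
-/

noncomputable section

namespace MPb07157

namespace QO

variable {d r : ℕ} {F : MvPowerSeries (Fin (d + 1)) ℂ} {E : ℕ} {N0 : Fin d → ℕ}
  {ζ : Fin r → PS d} {m : Fin r → ℕ} {L : Fin r → Fin r → Fin d → ℕ}

/-- Divisibility for integral vectors. -/
def AdmZ (E : ℕ) (φ : PS d) (k : Fin d → ℤ) : Prop :=
  ∀ a : Fin d →₀ ℕ, MvPowerSeries.coeff a φ ≠ 0 → (E : ℤ) ∣ ∑ j, (a j : ℤ) * k j

theorem adm_iff_admZ (φ : PS d) (k : Fin d → ℕ) :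
    Adm E φ k ↔ AdmZ E φ (fun j => (k j : ℤ)) := by
  unfold Adm AdmZ
  refine forall_congr' fun a => imp_congr_right fun _ => ?_
  have h : (∑ j, (a j : ℤ) * (k j : ℤ)) = ((PT.dk a k : ℕ) : ℤ) := by
    unfold PT.dk
    push_cast
    rfl
  rw [h, Int.natCast_dvd_natCast]

namespace P3

/-- The roots of unity of an integral vector. -/
theorem exists_eps (hE : 0 < E) (k : Fin d → ℤ) : ∃ ε : Fin d → ℂ, IsRt E ε ∧
    (∀ a : Fin d → ℕ, chr ε a = 1 ↔ (E : ℤ) ∣ ∑ j, (a j : ℤ) * k j) ∧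
    ∀ φ : PS d, (AdmZ E φ k ↔ MvPowerSeries.rescale ε φ = φ) := by
  have hprim := Complex.isPrimitiveRoot_exp E hE.ne'
  set ω := Complex.exp (2 * Real.pi * Complex.I / E) with hω
  have hω0 : ω ≠ 0 := Complex.exp_ne_zero _
  have hchr : ∀ a : Fin d → ℕ, chr (fun j => ω ^ k j) a = ω ^ ∑ j, (a j : ℤ) * k j := by
    intro a
    unfold chr
    have h1 : ∀ s : Finset (Fin d), ∏ j ∈ s, (ω ^ k j) ^ a j = ω ^ ∑ j ∈ s, (a j : ℤ) * k j := by
      classical
      intro s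
      induction s using Finset.induction_on with
      | empty => simp
      | insert i s hi ih =>
        rw [Finset.prod_insert hi, Finset.sum_insert hi, zpow_add₀ hω0, ih, ← zpow_natCast,
          ← zpow_mul, mul_comm (k i)]
    exact h1 Finset.univ
  have h1 : ∀ a : Fin d → ℕ, chr (fun j => ω ^ k j) a = 1 ↔ (E : ℤ) ∣ ∑ j, (a j : ℤ) * k j := by
    intro a
    rw [hchr, hprim.zpow_eq_one_iff_dvd]
  refine ⟨fun j => ω ^ k j, fun j => ?_, h1, fun φ => ?_⟩
  · rw [← zpow_natCast, ← zpow_mul, mul_comm, zpow_mul, zpow_natCast, hprim.pow_eq_one, one_zpow]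
  · constructor
    · intro h
      ext a
      rw [MvPowerSeries.coeff_rescale, Finsupp.prod_fintype _ _ (fun i => pow_zero _)]
      by_cases ha : MvPowerSeries.coeff a φ = 0
      · rw [ha, mul_zero]
      · have h2 := (h1 a).2 (h a ha)
        unfold chr at h2
        rw [h2, one_mul]
    · intro h a ha
      rw [← h1]
      have h2 := congrArg (MvPowerSeries.coeff a) h
      rw [MvPowerSeries.coeff_rescale, Finsupp.prod_fintype _ _ (fun i => pow_zero _)] at h2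
      exact mul_right_cancel₀ ha (h2.trans (one_mul _).symm)

/-- The exponent of `Ct` is not larger than that of `Nr`. -/
theorem not_ct_nr {a l : Fin d → ℕ} (hal : a ≤ l) {x : PS d} (hx : Ct a x) (hy : Nr l x) :
    False := by
  classical
  obtain ⟨u, hu, h1⟩ := hx
  obtain ⟨g, hg, h2⟩ := hy
  have h3 := congrArg (MvPowerSeries.coeff (expo a)) (h1.symm.trans h2)
  unfold mon at h3
  rw [MvPowerSeries.coeff_monomial_mul, MvPowerSeries.coeff_monomial_mul, if_pos le_rfl,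
    tsub_self, one_mul, MvPowerSeries.coeff_zero_eq_constantCoeff_apply] at h3
  split_ifs at h3 with h4
  · have h5 : l = a := by
      refine le_antisymm (fun j => ?_) hal
      exact h4 j
    rw [h5, tsub_self, one_mul, MvPowerSeries.coeff_zero_eq_constantCoeff_apply, hg] at h3
    exact hu h3
  · exact hu h3

theorem rescale_mon' (ε : Fin d → ℂ) (a : Fin d → ℕ) (w : ℂ) :
    MvPowerSeries.rescale ε (MvPowerSeries.C w * mon a : PS d) =
      MvPowerSeries.C (w * chr ε a) * mon a := by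
  classical
  ext n
  rw [MvPowerSeries.coeff_rescale, MvPowerSeries.coeff_C_mul, MvPowerSeries.coeff_C_mul]
  unfold mon
  rw [MvPowerSeries.coeff_monomial]
  split_ifs with h
  · rw [h, Finsupp.prod_fintype _ _ (fun k => pow_zero _)]
    unfold chr
    rw [mul_one, mul_one, mul_comm]
    rfl
  · rw [mul_zero, mul_zero, mul_zero]

theorem coeff_mon_self (a : Fin d → ℕ) : MvPowerSeries.coeff (expo a) (mon a : PS d) = 1 := by
  classical
  unfold mon
  rw [MvPowerSeries.coeff_monomial, if_pos rfl]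

theorem nr_rescale {l : Fin d → ℕ} {x : PS d} (hx : Nr l x) (ε : Fin d → ℂ) :
    Nr l (MvPowerSeries.rescale ε x) := by
  obtain ⟨g, hg, rfl⟩ := hx
  refine ⟨MvPowerSeries.C (chr ε l) * MvPowerSeries.rescale ε g, ?_, ?_⟩
  · rw [map_mul, ← MvPowerSeries.coeff_zero_eq_constantCoeff_apply (MvPowerSeries.rescale ε g),
      MvPowerSeries.coeff_rescale, MvPowerSeries.coeff_zero_eq_constantCoeff_apply, hg, mul_zero,
      mul_zero]
  · have h1 := rescale_mon' ε l 1
    rw [map_one, one_mul, one_mul] at h1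
    rw [map_mul, h1]
    ring

end P3

open P3

/-- The admissible vectors in terms of the Galois action. -/
theorem admZ_iff (hE : 0 < E) (φ : PS d) (k : Fin d → ℤ) : ∃ ε : Fin d → ℂ, IsRt E ε ∧
    (∀ a : Fin d → ℕ, chr ε a = 1 ↔ (E : ℤ) ∣ ∑ j, (a j : ℤ) * k j) ∧
    (AdmZ E φ k ↔ MvPowerSeries.rescale ε φ = φ) := by
  obtain ⟨ε, h1, h2, h3⟩ := exists_eps hE k
  exact ⟨ε, h1, h2, h3 φ⟩

theorem Step.admZ₀ (hE : 0 < E) {φ : PS d} {C : Finset (Fin r)} {l : Fin d → ℕ} {φ' : PS d}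
    {lam : Fin d → ℕ} {p s : ℕ} {v : Fin s → ℂ} {C₀ : Finset (Fin r)}
    {Cb : Fin s → Finset (Fin r)} (hs : Step E ζ φ C l φ' lam p s v C₀ Cb) {k : Fin d → ℤ}
    (hk : AdmZ E φ k) : AdmZ E φ' k ∧ (E : ℤ) ∣ p * ∑ j, (lam j : ℤ) * k j := by
  obtain ⟨ε, h1, h2, h3⟩ := exists_eps hE k
  obtain ⟨h4, h5⟩ := hs.galp ε h1 ((h3 φ).1 hk)
  refine ⟨(h3 φ').2 h4, ?_⟩
  have h6 : chr ε (fun j => lam j * p) = 1 := by
    rw [← h5]
    unfold chr
    rw [← Finset.prod_pow]
    exact Finset.prod_congr rfl fun j _ => pow_mul _ _ _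
  have h7 := (h2 _).1 h6
  have h8 : ∑ j, ((lam j * p : ℕ) : ℤ) * k j = p * ∑ j, (lam j : ℤ) * k j := by
    rw [Finset.mul_sum]
    refine Finset.sum_congr rfl fun j _ => ?_
    push_cast
    ring
  rwa [h8] at h7

theorem Step.admZb (hE : 0 < E) {φ : PS d} {C : Finset (Fin r)} {l : Fin d → ℕ} {φ' : PS d}
    {lam : Fin d → ℕ} {p s : ℕ} {v : Fin s → ℂ} {C₀ : Finset (Fin r)}
    {Cb : Fin s → Finset (Fin r)} (hs : Step E ζ φ C l φ' lam p s v C₀ Cb) {k : Fin d → ℤ}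
    (hk : AdmZ E φ k) (a : Fin s) : AdmZ E (φ' + MvPowerSeries.C (v a) * mon lam) k ↔
      (E : ℤ) ∣ ∑ j, (lam j : ℤ) * k j := by
  obtain ⟨ε, h1, h2, h3⟩ := exists_eps hE k
  obtain ⟨h4, -⟩ := hs.galp ε h1 ((h3 φ).1 hk)
  rw [h3, ← h2, map_add, h4, rescale_mon']
  constructor
  · intro h5
    have h6 := congrArg (MvPowerSeries.coeff (expo lam)) (add_left_cancel h5)
    rw [MvPowerSeries.coeff_C_mul, MvPowerSeries.coeff_C_mul, coeff_mon_self, mul_one, mul_one]
      at h6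
    exact mul_left_cancel₀ (hs.v_ne a) (h6.trans (mul_one _).symm)
  · intro h5
    rw [h5, mul_one]

/-- A center of a stage with one root. -/
theorem Stage.admZ_single (hE : 0 < E) (h : IsQO F E N0 ζ m L) {φ : PS d} {i : Fin r}
    {l : Fin d → ℕ} {c : Fin r → Fin d → ℕ} (hst : Stage E ζ φ {i} l c) {k : Fin d → ℤ}
    (hk : AdmZ E φ k) : AdmZ E (ζ i) k := by
  obtain ⟨ε, h1, h2, h3⟩ := exists_eps hE k
  have h4 := (h3 φ).1 hk
  rw [h3]
  obtain ⟨j, hj, -⟩ := IsQO.gal h h1 i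
  by_cases hji : j = i
  · rw [← hj, hji]
  · exfalso
    obtain ⟨h5, h6⟩ := hst.far j (by rw [Finset.mem_singleton]; exact hji)
    have h7 := nr_rescale (hst.near i (Finset.mem_singleton_self i)) ε
    rw [map_sub, h4, ← hj] at h7
    exact not_ct_nr h5 h6 h7

end QO

end MPb07157
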