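import Pool.Agent.Lib.MP_b07157_agO.P1
import Pool.Agent.Lib.MP_b07157_agO.P2
import Pool.Agent.Lib.MP_b07157_agO.P2c
import Pool.Agent.Lib.MP_b07157_agO.P3

/-!
# The tree of a quasi-ordinary germ
-/

noncomputable section

namespace MPb07157

namespace QO

variable {d r : ℕ} {F : MvPowerSeries (Fin (d + 1)) ℂ} {E : ℕ} {N0 : Fin d → ℕ}
  {ζ : Fin r → PS d} {m : Fin r → ℕ} {L : Fin r → Fin r → Fin d → ℕ}

theorem Stage.exists_tree (h : IsQO F E N0 ζ m L) {φ : PS d} {C : Finset (Fin r)}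
    {l : Fin d → ℕ} {c : Fin r → Fin d → ℕ} (hst : Stage E ζ φ C l c) :
    ∃ t : PT.QT d, TreeOf E ζ m φ C l t := by
  induction hn : C.card using Nat.strong_induction_on generalizing φ C l c with
  | _ n ih =>
    subst hn
    rcases Nat.lt_or_ge C.card 2 with h1 | h1
    · rcases Nat.eq_zero_or_pos C.card with h2 | h2
      · rw [Finset.card_eq_zero] at h2
        subst h2
        exact ⟨_, TreeOf.none φ l⟩
      · obtain ⟨i, rfl⟩ := Finset.card_eq_one.1 (by omega : C.card = 1)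
        exact ⟨_, TreeOf.single φ i l⟩
    · obtain ⟨φ', lam, p, s, v, C₀, Cb, hs⟩ := hst.exists_step h h1
      have h2 : C₀.card < C.card := Finset.card_lt_card
        (lt_of_le_of_ne (fun i hi => ((hs.memC₀ i).1 hi).1) hs.neC₀)
      have h3 : ∀ a, (Cb a).card < C.card := fun a => Finset.card_lt_card
        (lt_of_le_of_ne (fun i hi => ((hs.memCb a i).1 hi).1) (hs.neCb a))
      obtain ⟨z, hz⟩ := ih _ h2 (hs.stage₀ hst) rfl
      have h4 : ∀ a, ∃ t : PT.QT d,
          TreeOf E ζ m (φ' + MvPowerSeries.C (v a) * mon lam) (Cb a) lam t :=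
        fun a => ih _ (h3 a) (hs.stageb hst a) rfl
      choose b hb using h4
      exact ⟨_, TreeOf.node hs hz hb⟩

theorem TreeOf.mass (h : IsQO F E N0 ζ m L) {φ : PS d} {C : Finset (Fin r)} {l : Fin d → ℕ}
    {c : Fin r → Fin d → ℕ} {t : PT.QT d} (ht : TreeOf E ζ m φ C l t)
    (hst : Stage E ζ φ C l c) : t.mass = mss m C := by
  induction ht generalizing c with
  | none φ l =>
    unfold PT.QT.mass mss
    rw [Finset.sum_empty]
  | single φ i l =>
    unfold PT.QT.mass mss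
    rw [Finset.sum_singleton]
  | node hs hz hb ihz ihb =>
    rw [Step.mass h hst hs, ← ihz (hs.stage₀ hst),
      Finset.sum_congr rfl fun a _ => (ihb a (hs.stageb hst a)).symm]
    rfl

theorem TreeOf.valid (h : IsQO F E N0 ζ m L) {φ : PS d} {C : Finset (Fin r)} {l : Fin d → ℕ}
    {c : Fin r → Fin d → ℕ} {t : PT.QT d} (ht : TreeOf E ζ m φ C l t)
    (hst : Stage E ζ φ C l c) (Λ : AddSubgroup (Fin d → ℤ)) (hΛ : ∀ k ∈ Λ, AdmZ E φ k) :
    PT.Valid E t Λ l := by
  induction ht generalizing c Λ with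
  | none φ l => exact trivial
  | single φ i l => exact trivial
  | node hs hz hb ihz ihb =>
    refine ⟨hs.le, fun k hk => (hs.admZ₀ h.hE (hΛ k hk)).2, hs.hp, hs.hs, fun a => ?_,
      ihz (hs.stage₀ hst) Λ fun k hk => (hs.admZ₀ h.hE (hΛ k hk)).1, fun a =>
      ihb a (hs.stageb hst a) _ fun k hk => ?_⟩
    · rw [(hb a).mass h (hs.stageb hst a)]
      obtain ⟨i, hi⟩ := hs.Cb_ne a
      unfold mss
      exact lt_of_lt_of_le (h.hm i) (Finset.single_le_sum (f := m) (fun _ _ => Nat.zero_le _) hi)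
    · obtain ⟨h1, h2⟩ := AddSubgroup.mem_inf.1 hk
      exact (hs.admZb h.hE (hΛ k h1) a).2 h2

end QO

end MPb07157
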