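import Pool.Agent.Lib.MP_b07157_agO.P4

/-!
# From `NoCand` to `PT.Good`
-/

noncomputable section

namespace MPb07157

namespace QO

variable {d r : ℕ} {F : MvPowerSeries (Fin (d + 1)) ℂ} {E : ℕ} {N0 : Fin d → ℕ}
  {ζ : Fin r → PS d} {m : Fin r → ℕ} {L : Fin r → Fin r → Fin d → ℕ}

namespace P5

open P1aux

/-- The part of `ζ_x` of degree `Q` in `t_j`. -/
def V (ζ : Fin r → PS d) (j : Fin d) (Q : ℕ) (x : Fin r) (a : Fin d →₀ ℕ) : ℂ :=
  if a j = Q then MvPowerSeries.coeff a (ζ x) else 0

theorem V_expo (ζ : Fin r → PS d) (j : Fin d) (lam : Fin d → ℕ) (x : Fin r) :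
    V ζ j (lam j) x (expo lam) = MvPowerSeries.coeff (expo lam) (ζ x) := by
  unfold V
  rw [if_pos (expo_apply lam j)]

theorem V_ne (h : IsQO F E N0 ζ m L) {x y : Fin r} (hxy : x ≠ y) {j : Fin d} {Q : ℕ}
    (hQ : L x y j = Q) : V ζ j Q x ≠ V ζ j Q y := by
  intro hc
  have h1 := congrFun hc (expo (L x y))
  have h2 := (contact_coeff h hxy).2
  have h3 : expo (L x y) j = Q := hQ
  unfold V at h1
  rw [if_pos h3, if_pos h3] at h1
  exact h2 (sub_eq_zero.2 h1)

theorem clu_pair (h : IsQO F E N0 ζ m L) {i x y : Fin r} {j : Fin d} {Q : ℕ}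
    (hx : x ∈ clu L i j Q) (hy : y ∈ clu L i j Q) (hxy : x ≠ y) : Q ≤ L x y j := by
  simp only [clu, Finset.mem_filter, Finset.mem_univ, true_and] at hx hy
  by_cases hxi : x = i
  · subst hxi
    exact hy.resolve_left (Ne.symm hxy)
  · by_cases hyi : y = i
    · subst hyi
      rw [L_symm h hxy]
      exact hx.resolve_left hxy
    · have h1 := hx.resolve_left hxi
      have h2 := hy.resolve_left hyi
      rcases L_total h hxi hyi with h3 | h3
      · exact h1.trans (L_ultra h hxi hyi hxy h3 j)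
      · have h4 := L_ultra h hyi hxi (Ne.symm hxy) h3 j
        rw [L_symm h (Ne.symm hxy)] at h4
        exact h2.trans h4

theorem L_eq_of_V_ne (h : IsQO F E N0 ζ m L) {i x y : Fin r} {j : Fin d} {Q : ℕ}
    (hx : x ∈ clu L i j Q) (hy : y ∈ clu L i j Q) (hV : V ζ j Q x ≠ V ζ j Q y) :
    L x y j = Q := by
  have hxy : x ≠ y := fun hc => hV (by rw [hc])
  apply le_antisymm _ (clu_pair h hx hy hxy)
  obtain ⟨a, ha⟩ := Function.ne_iff.1 hV
  unfold V at ha
  by_cases haQ : a j = Q
  · rw [if_pos haQ, if_pos haQ] at ha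
    have h1 := (contact_coeff h hxy).1 a (sub_ne_zero.2 ha)
    have h2 : L x y j ≤ a j := h1 j
    rw [haQ] at h2
    exact h2
  · rw [if_neg haQ, if_neg haQ] at ha
    exact absurd rfl ha

theorem cardV (h : IsQO F E N0 ζ m L) {i : Fin r} {j : Fin d} {Q p' : ℕ}
    (hB : ∀ S : Finset (Fin r), S ⊆ clu L i j Q →
      (∀ l ∈ S, ∀ l' ∈ S, l ≠ l' → L l l' j = Q) → S.card ≤ p' + 1)
    {ι : Type} [Fintype ι] (g : ι → Fin r) (hg : ∀ k, g k ∈ clu L i j Q)
    (hinj : Function.Injective (fun k => V ζ j Q (g k))) : Fintype.card ι ≤ p' + 1 := by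
  classical
  have hgi : Function.Injective g := fun a b hab => hinj (by simp only [hab])
  have h1 := hB (Finset.univ.image g) (by
    intro x hx
    obtain ⟨k, -, rfl⟩ := Finset.mem_image.1 hx
    exact hg k) (by
    intro x hx y hy hxy
    obtain ⟨k, -, rfl⟩ := Finset.mem_image.1 hx
    obtain ⟨k', -, rfl⟩ := Finset.mem_image.1 hy
    apply L_eq_of_V_ne h (hg k) (hg k')
    intro hc
    exact hxy (by rw [hinj hc]))
  rwa [Finset.card_image_of_injective _ hgi, Finset.card_univ] at h1

theorem three (h : IsQO F E N0 ζ m L) {i : Fin r} {j : Fin d} {Q : ℕ}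
    (hB : ∀ S : Finset (Fin r), S ⊆ clu L i j Q →
      (∀ l ∈ S, ∀ l' ∈ S, l ≠ l' → L l l' j = Q) → S.card ≤ 1 + 1)
    {x y w : Fin r} (hx : x ∈ clu L i j Q) (hy : y ∈ clu L i j Q) (hw : w ∈ clu L i j Q)
    (h1 : V ζ j Q x ≠ V ζ j Q y) (h2 : V ζ j Q x ≠ V ζ j Q w) (h3 : V ζ j Q y ≠ V ζ j Q w) :
    False := by
  have h4 := cardV h hB (ι := Fin 3) ![x, y, w] (by
    intro k
    fin_cases k
    · exact hx
    · exact hy
    · exact hw) (by
    intro k k' hk
    fin_cases k <;> fin_cases k'
    · rfl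
    · exact absurd hk h1
    · exact absurd hk h2
    · exact absurd hk.symm h1
    · rfl
    · exact absurd hk h3
    · exact absurd hk.symm h2
    · exact absurd hk.symm h3
    · rfl)
  rw [Fintype.card_fin] at h4
  omega

/-! ### Rotations in one direction -/

/-- The rotation by `ω` in the direction `j`. -/
def rot (j : Fin d) (ω : ℂ) : Fin d → ℂ := fun k => if k = j then ω else 1

theorem rot_isRt {j : Fin d} {ω : ℂ} (hω : ω ^ E = 1) : IsRt E (rot j ω) := by
  intro k
  unfold rot
  split_ifs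
  · exact hω
  · exact one_pow _

theorem chr_rot (j : Fin d) (ω : ℂ) (a : Fin d → ℕ) : chr (rot j ω) a = ω ^ a j := by
  classical
  unfold chr rot
  rw [Finset.prod_eq_single j]
  · rw [if_pos rfl]
  · intro b _ hb
    rw [if_neg hb, one_pow]
  · intro hc
    exact absurd (Finset.mem_univ j) hc

theorem coeff_rot (j : Fin d) (ω : ℂ) (a : Fin d →₀ ℕ) (φ : PS d) :
    MvPowerSeries.coeff a (MvPowerSeries.rescale (rot j ω) φ) =
      ω ^ a j * MvPowerSeries.coeff a φ := by
  classical
  rw [MvPowerSeries.coeff_rescale, Finsupp.prod_fintype _ _ (fun k => pow_zero _)]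
  congr 1
  have h := chr_rot j ω (fun k => a k)
  exact h

theorem F3 (h : IsQO F E N0 ζ m L) {i : Fin r} {j : Fin d} {Q : ℕ} (hQE : Q < E)
    (hB : ∀ l, l ≠ i → L i l j = 0 ∨ Q ≤ L i l j) {a : Fin d →₀ ℕ}
    (ha : MvPowerSeries.coeff a (ζ i) ≠ 0) (haQ : a j < Q) : a j = 0 := by
  by_contra h0
  have hω := Complex.isPrimitiveRoot_exp E (by omega)
  set ω : ℂ := Complex.exp (2 * Real.pi * Complex.I / E) with hωdef
  obtain ⟨i', hi', -⟩ := IsQO.gal h (rot_isRt (j := j) hω.pow_eq_one) i
  have h1 : ω ^ a j ≠ 1 := hω.pow_ne_one_of_pos_of_lt h0 (by omega)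
  have h2 : MvPowerSeries.coeff a (ζ i) - MvPowerSeries.coeff a (ζ i') ≠ 0 := by
    rw [hi', coeff_rot]
    have h3 : MvPowerSeries.coeff a (ζ i) - ω ^ a j * MvPowerSeries.coeff a (ζ i) =
        (1 - ω ^ a j) * MvPowerSeries.coeff a (ζ i) := by ring
    rw [h3]
    exact mul_ne_zero (sub_ne_zero.2 (Ne.symm h1)) ha
  have hne : i' ≠ i := by
    intro hc
    rw [hc, sub_self] at h2
    exact h2 rfl
  obtain ⟨c1, c2⟩ := contact_coeff h (Ne.symm hne)
  have h4 : L i i' j ≤ a j := (c1 a h2) j
  have h5 : L i i' j = 0 := by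
    rcases hB i' hne with h5 | h5
    · exact h5
    · omega
  apply c2
  have h6 : expo (L i i') j = 0 := h5
  rw [hi', coeff_rot, h6, pow_zero, one_mul, sub_self]

theorem rot_mem (h : IsQO F E N0 ζ m L) {i : Fin r} {j : Fin d} {Q : ℕ} (hQE : Q < E)
    (hB : ∀ l, l ≠ i → L i l j = 0 ∨ Q ≤ L i l j) {x x' : Fin r} (hx : x ∈ clu L i j Q)
    {ω : ℂ} (hx' : ζ x' = MvPowerSeries.rescale (rot j ω) (ζ x)) : x' ∈ clu L i j Q := by
  simp only [clu, Finset.mem_filter, Finset.mem_univ, true_and] at hx ⊢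
  by_cases hxi : x' = i
  · exact Or.inl hxi
  · right
    by_contra hcon
    obtain ⟨c1, c2⟩ := contact_coeff h (Ne.symm hxi)
    have hlt : expo (L i x') j < Q := by
      rw [expo_apply]
      omega
    have h1 : MvPowerSeries.coeff (expo (L i x')) (ζ x) =
        MvPowerSeries.coeff (expo (L i x')) (ζ i) := by
      by_cases hxx : x = i
      · rw [hxx]
      · by_contra hne
        have h2 := (contact_coeff h (Ne.symm hxx)).1 _ (sub_ne_zero.2 (Ne.symm hne))
        have h3 : L i x j ≤ expo (L i x') j := h2 j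
        have h4 := hx.resolve_left hxx
        omega
    rw [hx', coeff_rot, h1] at c2
    by_cases h5 : MvPowerSeries.coeff (expo (L i x')) (ζ i) = 0
    · rw [h5, mul_zero, sub_zero] at c2
      exact c2 rfl
    · have h6 := F3 h hQE hB h5 hlt
      rw [h6, pow_zero, one_mul, sub_self] at c2
      exact c2 rfl

theorem V_rot {x x' : Fin r} {j : Fin d} {Q : ℕ} {ω : ℂ}
    (hx' : ζ x' = MvPowerSeries.rescale (rot j ω) (ζ x)) (a : Fin d →₀ ℕ) :
    V ζ j Q x' a = ω ^ Q * V ζ j Q x a := by
  unfold V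
  split_ifs with haQ
  · rw [hx', coeff_rot, haQ]
  · rw [mul_zero]

/-- Two different orbits of nonzero values are impossible if `p' ≥ 2`. -/
theorem orbits (h : IsQO F E N0 ζ m L) {i : Fin r} {j : Fin d} {Q p' : ℕ} (hp' : 2 ≤ p')
    (hQ : 0 < Q) (hE : E = p' * Q)
    (hB : ∀ l, l ≠ i → L i l j = 0 ∨ Q ≤ L i l j)
    (hB2 : ∀ S : Finset (Fin r), S ⊆ clu L i j Q →
      (∀ l ∈ S, ∀ l' ∈ S, l ≠ l' → L l l' j = Q) → S.card ≤ p' + 1)
    {x y : Fin r} (hx : x ∈ clu L i j Q) (hy : y ∈ clu L i j Q)
    (hx0 : V ζ j Q x ≠ 0) (hy0 : V ζ j Q y ≠ 0)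
    (hxy : ∀ η : ℂ, η ^ p' = 1 → ∃ a, V ζ j Q y a ≠ η * V ζ j Q x a) : False := by
  have hQE : Q < E := by
    rw [hE]
    nlinarith
  have hω := Complex.isPrimitiveRoot_exp E (by omega)
  set ω : ℂ := Complex.exp (2 * Real.pi * Complex.I / E) with hωdef
  have hη : IsPrimitiveRoot (ω ^ Q) p' := hω.pow (by omega) (by rw [hE]; ring)
  have hη0 : ω ^ Q ≠ 0 := hη.ne_zero (by omega)
  have hrt : ∀ k : ℕ, (ω ^ k) ^ E = 1 := by
    intro k
    rw [← pow_mul, mul_comm, pow_mul, hω.pow_eq_one, one_pow]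
  have hex : ∀ (z : Fin r) (k : ℕ), ∃ z', ζ z' = MvPowerSeries.rescale (rot j (ω ^ k)) (ζ z) := by
    intro z k
    obtain ⟨z', hz', -⟩ := IsQO.gal h (rot_isRt (j := j) (hrt k)) z
    exact ⟨z', hz'⟩
  choose g hg using hex
  have hVg : ∀ z k a, V ζ j Q (g z k) a = (ω ^ Q) ^ k * V ζ j Q z a := by
    intro z k a
    rw [V_rot (hg z k) a, ← pow_mul, ← pow_mul, mul_comm k Q]
  obtain ⟨ax, hax⟩ := Function.ne_iff.1 hx0
  obtain ⟨ay, hay⟩ := Function.ne_iff.1 hy0
  have key := cardV h hB2 (ι := Fin p' ⊕ Fin p')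
    (Sum.elim (fun k => g x k) (fun k => g y k)) (by
      rintro (k | k)
      · exact rot_mem h hQE hB hx (hg x k)
      · exact rot_mem h hQE hB hy (hg y k)) (by
      have hcross : ∀ k l : Fin p', V ζ j Q (g x k) ≠ V ζ j Q (g y l) := by
        intro k l hc
        obtain ⟨a, ha⟩ := hxy ((ω ^ Q) ^ (k : ℕ) / (ω ^ Q) ^ (l : ℕ)) (by
          rw [div_pow, pow_right_comm _ (k : ℕ), pow_right_comm _ (l : ℕ), hη.pow_eq_one,
            one_pow, one_pow, div_one])
        apply ha
        have h1 := congrFun hc a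
        rw [hVg, hVg] at h1
        have h2 : (ω ^ Q) ^ (l : ℕ) ≠ 0 := pow_ne_zero _ hη0
        field_simp
        rw [h1]
        ring
      rintro (k | k) (l | l) hkl
      · have h1 := congrFun hkl ax
        simp only [Sum.elim_inl] at h1
        rw [hVg, hVg] at h1
        have h2 := mul_right_cancel₀ hax h1
        exact congrArg Sum.inl (Fin.ext (hη.pow_inj k.2 l.2 h2))
      · exact absurd hkl (hcross k l)
      · exact absurd hkl.symm (hcross l k)
      · have h1 := congrFun hkl ay
        simp only [Sum.elim_inr] at h1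
        rw [hVg, hVg] at h1
        have h2 := mul_right_cancel₀ hay h1
        exact congrArg Sum.inr (Fin.ext (hη.pow_inj k.2 l.2 h2)))
  rw [Fintype.card_sum, Fintype.card_fin] at key
  omega

/-! ### Steps -/

section step

variable {φ : PS d} {C : Finset (Fin r)} {l : Fin d → ℕ} {c : Fin r → Fin d → ℕ}
  {φ' : PS d} {lam : Fin d → ℕ} {p s : ℕ} {v : Fin s → ℂ} {C₀ : Finset (Fin r)}
  {Cb : Fin s → Finset (Fin r)}

theorem C₀_sub (hs : Step E ζ φ C l φ' lam p s v C₀ Cb) : C₀ ⊆ C :=
  fun i hi => ((hs.memC₀ i).1 hi).1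

theorem Cb_sub (hs : Step E ζ φ C l φ' lam p s v C₀ Cb) (a : Fin s) : Cb a ⊆ C :=
  fun i hi => ((hs.memCb a i).1 hi).1

theorem val₀ (hs : Step E ζ φ C l φ' lam p s v C₀ Cb) {x : Fin r} (hx : x ∈ C₀) :
    MvPowerSeries.coeff (expo lam) (ζ x) = MvPowerSeries.coeff (expo lam) φ' := by
  have h1 := (Nr_iff.1 ((hs.memC₀ x).1 hx).2).2
  rw [map_sub] at h1
  exact sub_eq_zero.1 h1

theorem valb (hs : Step E ζ φ C l φ' lam p s v C₀ Cb) {a : Fin s} {x : Fin r}
    (hx : x ∈ Cb a) :
    MvPowerSeries.coeff (expo lam) (ζ x) = MvPowerSeries.coeff (expo lam) φ' + v a := by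
  have h1 := (Nr_iff.1 ((hs.memCb a x).1 hx).2).2
  rw [map_sub, map_add, coeff_C_mul_mon, if_pos rfl] at h1
  exact sub_eq_zero.1 h1

theorem memC_of (hst : Stage E ζ φ C l c) {x y : Fin r} {ε : Fin d → ℂ} (hx : x ∈ C)
    (hy : ζ y = MvPowerSeries.rescale ε (ζ x)) (hφ : MvPowerSeries.rescale ε φ = φ) :
    y ∈ C := by
  by_contra hcon
  obtain ⟨hc1, hc2⟩ := hst.far y hcon
  apply coeff_Ct hc2
  have hN0 := Nr_iff.1 (hst.near x hx)
  have e1 : ζ y - φ = MvPowerSeries.rescale ε (ζ x - φ) := by
    rw [map_sub, hφ, hy]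
  rw [e1, MvPowerSeries.coeff_rescale]
  by_cases hcl : expo l ≤ expo (c y)
  · have e2 : expo (c y) = expo l := le_antisymm ((expo_le_expo _ _).2 hc1) hcl
    rw [e2, hN0.2, mul_zero]
  · rw [hN0.1 _ hcl, mul_zero]

theorem twist (h : IsQO F E N0 ζ m L) (hst : Stage E ζ φ C l c)
    (hs : Step E ζ φ C l φ' lam p s v C₀ Cb) (a : Fin s) {ω : ℂ} (hω : ω ^ p = 1) :
    ∃ y ∈ C, MvPowerSeries.coeff (expo lam) (ζ y) =
      MvPowerSeries.coeff (expo lam) φ' + ω * v a := by
  obtain ⟨ε, hε, hφ, hch⟩ := hs.gals ω hω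
  obtain ⟨x, hx⟩ := hs.Cb_ne a
  obtain ⟨y, hy, -⟩ := IsQO.gal h hε x
  refine ⟨y, memC_of hst (Cb_sub hs a hx) hy hφ, ?_⟩
  have h1 := (hs.galp ε hε hφ).1
  have h2 := congrArg (MvPowerSeries.coeff (expo lam)) h1
  rw [MvPowerSeries.coeff_rescale, prod_eq_chr, hch] at h2
  rw [hy, MvPowerSeries.coeff_rescale, prod_eq_chr, hch, valb hs hx, mul_add, h2]

theorem pair (h : IsQO F E N0 ζ m L) (hs : Step E ζ φ C l φ' lam p s v C₀ Cb) (a : Fin s) :
    ∃ x ∈ Cb a, ∃ y ∈ C, y ∉ Cb a ∧ x ≠ y ∧ L x y = lam := by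
  obtain ⟨x, hx⟩ := hs.Cb_ne a
  obtain ⟨y, hy, hy'⟩ := Finset.exists_of_ssubset (lt_of_le_of_ne (Cb_sub hs a) (hs.neCb a))
  have hne : x ≠ y := fun hc => hy' (hc ▸ hx)
  exact ⟨x, hx, y, hy, hy', hne,
    (Step.contact h hs (Cb_sub hs a hx) hy hne).2 (Or.inr ⟨a, hx, hy'⟩)⟩

theorem mem_clu (h : IsQO F E N0 ζ m L) (hs : Step E ζ φ C l φ' lam p s v C₀ Cb)
    {i x : Fin r} (hi : i ∈ C) (hx : x ∈ C) (j : Fin d) : x ∈ clu L i j (lam j) := by
  simp only [clu, Finset.mem_filter, Finset.mem_univ, true_and]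
  by_cases hxi : x = i
  · exact Or.inl hxi
  · exact Or.inr ((Step.contact h hs hi hx (Ne.symm hxi)).1 j)

theorem NN_eq (h : IsQO F E N0 ζ m L) (hst : Stage E ζ φ C l c)
    (hs : Step E ζ φ C l φ' lam p s v C₀ Cb) {i : Fin r} (hi : i ∈ C) (j : Fin d) :
    NN E N0 m L i j (lam j) = AA E N0 m C c j + mss m C * lam j := by
  classical
  unfold NN AA mss
  rw [← Finset.sum_add_sum_compl C, Finset.sum_mul, add_assoc]
  congr 1
  rw [add_comm]
  congr 1
  · apply Finset.sum_congr rfl
    intro x hx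
    rw [Finset.mem_compl] at hx
    have hxi : x ≠ i := fun hc => hx (hc ▸ hi)
    rw [if_neg hxi, Stage.contact h hst hi hx, min_eq_left]
    exact ((hst.far x hx).1 j).trans (hs.le j)
  · apply Finset.sum_congr rfl
    intro x hx
    by_cases hxi : x = i
    · rw [if_pos hxi]
    · rw [if_neg hxi, min_eq_right]
      exact (Step.contact h hs hi hx (Ne.symm hxi)).1 j

/-- The case `p' = 1`, `p = 2`, no root near the new center (as for `z^2 = x_1^2 x_2`). -/
theorem extra (h : IsQO F E N0 ζ m L) {s₀ : ℚ} (hN : NoCand E N0 m L s₀)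
    (hst : Stage E ζ φ C l c) (hs : Step E ζ φ C l φ' lam p s v C₀ Cb) {j : Fin d}
    (heq : (E : ℚ) + lam j = -s₀ * (AA E N0 m C c j + mss m C * lam j))
    (hpos : 0 < lam j) (hN0 : N0 j = 0) (hl : l j = 0) (hA : AA E N0 m C c j = 0)
    (hE : E = lam j) (hC₀ : C₀ = ∅) (hp : p = 2) (a : Fin s) (ha : ∀ b, b = a)
    {i i' : Fin r} (hi : i ∈ Cb a) (hi' : i' ∈ C) (hi'2 : i' ∉ Cb a) (hii : L i i' = lam)
    (hB2 : ∀ S : Finset (Fin r), S ⊆ clu L i j (lam j) →
      (∀ l ∈ S, ∀ l' ∈ S, l ≠ l' → L l l' j = lam j) → S.card ≤ 1 + 1) : False := by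
  classical
  have hne : i ≠ i' := fun hc => hi'2 (hc ▸ hi)
  have hmass : mss m C = 2 * mss m (Cb a) := by
    rw [Step.mass h hst hs, hC₀, hp, Finset.sum_eq_single a]
    · unfold mss
      rw [Finset.sum_empty, zero_add]
    · intro b _ hb
      exact absurd (ha b) hb
    · intro hc
      exact absurd (Finset.mem_univ a) hc
  have hQ : (0 : ℚ) < lam j := by exact_mod_cast hpos
  have heq2 : s₀ * mss m (Cb a) = -1 := by
    have h1 : (E : ℚ) = lam j := by exact_mod_cast hE
    rw [hA, hmass, h1] at heq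
    push_cast at heq
    have h2 : (lam j : ℚ) * (s₀ * mss m (Cb a) + 1) = 0 := by linarith
    rcases mul_eq_zero.1 h2 with h3 | h3
    · exact absurd h3 hQ.ne'
    · linarith
  by_cases hsing : Cb a = {i}
  · apply hN.leaf i
    rw [hsing] at heq2
    unfold mss at heq2
    rw [Finset.sum_singleton] at heq2
    exact heq2
  · have hne2 : ((Cb a).erase i).Nonempty := by
      rw [Finset.nonempty_iff_ne_empty]
      intro hc
      apply hsing
      rw [Finset.erase_eq_empty_iff] at hc
      rcases hc with hc | hc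
      · rw [hc] at hi
        exact absurd hi (Finset.notMem_empty i)
      · exact hc
    obtain ⟨i2, hi2, hmin⟩ := Finset.exists_min_image ((Cb a).erase i) (fun x => L i x j) hne2
    rw [Finset.mem_erase] at hi2
    have hiC := Cb_sub hs a hi
    have hi2C := Cb_sub hs a hi2.2
    have hQ2 : lam j < L i i2 j := by
      rcases lt_or_eq_of_le ((Step.contact h hs hiC hi2C (Ne.symm hi2.1)).1 j) with h1 | h1
      · exact h1
      · exfalso
        have h2 : i2 ≠ i' := fun hc => hi'2 (hc ▸ hi2.2)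
        have h3 : L i2 i' = lam :=
          (Step.contact h hs hi2C hi' h2).2 (Or.inr ⟨a, hi2.2, hi'2⟩)
        exact three h hB2 (mem_clu h hs hiC hiC j) (mem_clu h hs hiC hi2C j)
          (mem_clu h hs hiC hi' j) (V_ne h (Ne.symm hi2.1) h1.symm)
          (V_ne h hne (congrFun hii j)) (V_ne h h2 (congrFun h3 j))
    have hnb : ¬ Bad E N0 L i j (L i i2 j) := by
      rintro ⟨-, hB, -⟩
      have h1 := hB i' (Ne.symm hne)
      rw [hii] at h1
      omega
    have hNN : NN E N0 m L i j (L i i2 j) = mss m (Cb a) * (L i i2 j + lam j) := by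
      unfold NN
      rw [hN0, mul_zero, zero_add, ← Finset.sum_add_sum_compl C,
        ← Finset.sum_sdiff (Cb_sub hs a)]
      have h1 : ∑ x ∈ Cb a, m x * (if x = i then L i i2 j else min (L i x j) (L i i2 j)) =
          mss m (Cb a) * L i i2 j := by
        unfold mss
        rw [Finset.sum_mul]
        apply Finset.sum_congr rfl
        intro x hx
        by_cases hxi : x = i
        · rw [if_pos hxi]
        · rw [if_neg hxi, min_eq_right]
          exact hmin x (Finset.mem_erase.2 ⟨hxi, hx⟩)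
      have h2 : ∑ x ∈ C \ Cb a, m x * (if x = i then L i i2 j else min (L i x j) (L i i2 j)) =
          mss m (Cb a) * lam j := by
        have h3 : mss m (C \ Cb a) = mss m (Cb a) := by
          have h4 := Finset.sum_sdiff (f := m) (Cb_sub hs a)
          unfold mss at hmass ⊢
          omega
        rw [← h3]
        unfold mss
        rw [Finset.sum_mul]
        apply Finset.sum_congr rfl
        intro x hx
        rw [Finset.mem_sdiff] at hx
        have hxi : i ≠ x := fun hc => hx.2 (hc ▸ hi)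
        rw [if_neg (Ne.symm hxi),
          (Step.contact h hs hiC hx.1 hxi).2 (Or.inr ⟨a, hi, hx.2⟩), min_eq_left hQ2.le]
      have h5 : ∑ x ∈ Cᶜ, m x * (if x = i then L i i2 j else min (L i x j) (L i i2 j)) = 0 := by
        apply Finset.sum_eq_zero
        intro x hx
        rw [Finset.mem_compl] at hx
        have hxi : x ≠ i := fun hc => hx (hc ▸ hiC)
        have h6 : c x j = 0 := by
          have h9 : c x j ≤ l j := (hst.far x hx).1 j
          omega
        rw [if_neg hxi, Stage.contact h hst hiC hx, h6, Nat.zero_min, mul_zero]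
      rw [h1, h2, h5]
      ring
    have h7 := hN.node i j (L i i2 j) i2 hi2.1 rfl (by omega) hnb
    apply h7
    rw [hNN, hE]
    push_cast
    have h8 : s₀ * ((mss m (Cb a) : ℚ) * (L i i2 j + lam j)) =
        (s₀ * mss m (Cb a)) * (L i i2 j + lam j) := by ring
    rw [h8, heq2]
    ring

theorem V_ne_of_coeff {j : Fin d} {x y : Fin r}
    (hc : MvPowerSeries.coeff (expo lam) (ζ x) ≠ MvPowerSeries.coeff (expo lam) (ζ y)) :
    V ζ j (lam j) x ≠ V ζ j (lam j) y := by
  intro h1
  apply hc
  rw [← V_expo ζ j lam x, ← V_expo ζ j lam y, h1]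

/-- The lower contact vanishes in a bad direction. -/
theorem low_zero (h : IsQO F E N0 ζ m L) (hst : Stage E ζ φ C l c)
    (hs : Step E ζ φ C l φ' lam p s v C₀ Cb) {j : Fin d} (hpos : 0 < lam j) {p' : ℕ}
    (hE : E = p' * lam j) {i i' : Fin r} (hi : i ∈ C) (hi' : i' ∈ C) (hne : i ≠ i')
    (hii : L i i' = lam) (hB : ∀ x, x ≠ i → L i x j = 0 ∨ lam j ≤ L i x j)
    (hB2 : ∀ S : Finset (Fin r), S ⊆ clu L i j (lam j) →
      (∀ l ∈ S, ∀ l' ∈ S, l ≠ l' → L l l' j = lam j) → S.card ≤ p' + 1) : l j = 0 := by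
  rcases hst.low with h0 | ⟨w, hw, hcw⟩
  · rw [h0]; rfl
  by_contra hlj
  have hwi : i ≠ w := fun hc => hw (hc ▸ hi)
  have hwi' : i' ≠ w := fun hc => hw (hc ▸ hi')
  have h1 : L i w = l := by rw [Stage.contact h hst hi hw, hcw]
  have h2 : L i' w = l := by rw [Stage.contact h hst hi' hw, hcw]
  have hlj2 : l j = lam j := by
    have h3 := hB w (Ne.symm hwi)
    rw [h1] at h3
    have h4 : l j ≤ lam j := hs.le j
    omega
  have hV1 : V ζ j (lam j) i ≠ V ζ j (lam j) i' := V_ne h hne (congrFun hii j)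
  have hV2 : V ζ j (lam j) i ≠ V ζ j (lam j) w := V_ne h hwi ((congrFun h1 j).trans hlj2)
  have hV3 : V ζ j (lam j) i' ≠ V ζ j (lam j) w := V_ne h hwi' ((congrFun h2 j).trans hlj2)
  have hic : i ∈ clu L i j (lam j) := mem_clu h hs hi hi j
  have hi'c : i' ∈ clu L i j (lam j) := mem_clu h hs hi hi' j
  have hwc : w ∈ clu L i j (lam j) := by
    simp only [clu, Finset.mem_filter, Finset.mem_univ, true_and]
    right
    rw [h1, hlj2]
  have hp0 : p' ≠ 0 := by
    intro hc
    rw [hc, zero_mul] at hE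
    exact absurd hE h.hE.ne'
  by_cases hp1 : p' = 1
  · subst hp1
    exact three h hB2 hic hi'c hwc hV1 hV2 hV3
  have hp2 : 2 ≤ p' := by omega
  have hln : ¬ expo lam ≤ expo l := by
    intro hc
    apply hs.ne
    exact le_antisymm hs.le fun k => (expo_le_expo _ _).1 hc k
  have hcl : MvPowerSeries.coeff (expo l) (ζ i) = MvPowerSeries.coeff (expo l) (ζ i') := by
    by_contra hc
    apply hln
    have h3 := (contact_coeff h hne).1 (expo l) (sub_ne_zero.2 hc)
    rwa [hii] at h3
  have hcw' : MvPowerSeries.coeff (expo l) (ζ i) - MvPowerSeries.coeff (expo l) (ζ w) ≠ 0 := by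
    have h3 := (contact_coeff h hwi).2
    rwa [h1] at h3
  have hVl : ∀ x, V ζ j (lam j) x (expo l) = MvPowerSeries.coeff (expo l) (ζ x) := by
    intro x
    unfold V
    rw [if_pos]
    exact hlj2
  by_cases hc0 : MvPowerSeries.coeff (expo l) (ζ i) = 0
  · have hw0 : MvPowerSeries.coeff (expo l) (ζ w) ≠ 0 := by
      intro hc
      apply hcw'
      rw [hc0, hc, sub_zero]
    have hVw : V ζ j (lam j) w ≠ 0 := by
      intro hc
      apply hw0
      rw [← hVl, hc]
      rfl
    have hmain : ∀ y, y ∈ clu L i j (lam j) → MvPowerSeries.coeff (expo l) (ζ y) = 0 →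
        V ζ j (lam j) y = 0 := by
      intro y hy hy0
      by_contra hVy
      refine orbits h hp2 hpos hE hB hB2 hwc hy hVw hVy fun η hη => ⟨expo l, ?_⟩
      rw [hVl, hVl, hy0]
      have hη0 : η ≠ 0 := by
        intro hc
        rw [hc, zero_pow hp0] at hη
        exact zero_ne_one hη
      exact (mul_ne_zero hη0 hw0).symm
    exact hV1 (by rw [hmain i hic hc0, hmain i' hi'c (by rw [← hcl, hc0])])
  · refine orbits h hp2 hpos hE hB hB2 hic hi'c ?_ ?_ ?_
    · intro hc
      apply hc0
      rw [← hVl, hc]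
      rfl
    · intro hc
      apply hc0
      rw [hcl, ← hVl, hc]
      rfl
    · intro η _
      by_contra hcon
      push Not at hcon
      have h3 := hcon (expo l)
      rw [hVl, hVl, ← hcl] at h3
      have h4 : η = 1 := by
        have h5 : (1 - η) * MvPowerSeries.coeff (expo l) (ζ i) = 0 := by
          linear_combination h3
        rcases mul_eq_zero.1 h5 with h6 | h6
        · linear_combination -h6
        · exact absurd h6 hc0
      apply hV1
      funext a
      rw [hcon a, h4, one_mul]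

theorem node_aux (h : IsQO F E N0 ζ m L) {s₀ : ℚ} (hN : NoCand E N0 m L s₀)
    (hst : Stage E ζ φ C l c) (hs : Step E ζ φ C l φ' lam p s v C₀ Cb) {j : Fin d}
    (heq : (E : ℚ) + lam j = -s₀ * (AA E N0 m C c j + mss m C * lam j)) :
    0 < lam j ∧ N0 j = 0 ∧ l j = 0 ∧ AA E N0 m C c j = 0 ∧ p * lam j = E ∧ s = 1 ∧
      (∀ x ∈ C₀, ∀ y ∈ C₀, x ≠ y → L x y j ≠ lam j) ∧
      ∀ a, ∀ x ∈ Cb a, ∀ y ∈ Cb a, x ≠ y → L x y j ≠ lam j := by
  classical
  have hEq : (0 : ℚ) < E := by exact_mod_cast h.hE
  -- `lam j > 0`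
  have hpos : 0 < lam j := by
    rw [Nat.pos_iff_ne_zero]
    intro h0
    have hA : AA E N0 m C c j = E * N0 j := by
      unfold AA
      rw [Finset.sum_eq_zero, add_zero]
      intro x hx
      rw [Finset.mem_compl] at hx
      have h1 : c x j ≤ l j := (hst.far x hx).1 j
      have h2 : l j ≤ lam j := hs.le j
      have h3 : c x j = 0 := by omega
      rw [h3, mul_zero]
    rw [hA, h0] at heq
    push_cast at heq
    have h1 : (E : ℚ) * (1 + s₀ * N0 j) = 0 := by linear_combination heq
    rcases mul_eq_zero.1 h1 with h2 | h2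
    · exact hEq.ne' h2
    · exact hN.axis j (by linear_combination h2)
  set a₀ : Fin s := ⟨0, hs.hs⟩ with ha₀
  obtain ⟨i, hi, i', hi', hi'2, hne, hii⟩ := pair h hs a₀
  have hiC : i ∈ C := Cb_sub hs a₀ hi
  have hNN := NN_eq h hst hs hiC j
  have hBad : Bad E N0 L i j (lam j) := by
    by_contra hnb
    apply hN.node i j (lam j) i' (Ne.symm hne) (congrFun hii j) hpos hnb
    rw [hNN]
    push_cast
    linear_combination heq
  obtain ⟨hN0, hB, p', hE, hB2⟩ := hBad
  have hl : l j = 0 := low_zero h hst hs hpos hE hiC hi' hne hii hB hB2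
  have hA : AA E N0 m C c j = 0 := by
    unfold AA
    rw [hN0, mul_zero, zero_add]
    apply Finset.sum_eq_zero
    intro x hx
    rw [Finset.mem_compl] at hx
    have h1 : c x j ≤ l j := (hst.far x hx).1 j
    have h3 : c x j = 0 := by omega
    rw [h3, mul_zero]
  have hp0 : p' ≠ 0 := by
    intro hc
    rw [hc, zero_mul] at hE
    exact absurd hE h.hE.ne'
  have hic : i ∈ clu L i j (lam j) := mem_clu h hs hiC hiC j
  have hcl : ∀ x ∈ C, x ∈ clu L i j (lam j) := fun x hx => mem_clu h hs hiC hx j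
  -- rotations
  have hω := Complex.isPrimitiveRoot_exp E h.hE.ne'
  set ω : ℂ := Complex.exp (2 * Real.pi * Complex.I / E) with hωdef
  have hφ : MvPowerSeries.rescale (rot j ω) φ = φ := by
    rcases hst.gal _ (rot_isRt (j := j) hω.pow_eq_one) with h1 | ⟨e, he, h1⟩
    · exact h1
    · exfalso
      apply coeff_Ct h1
      have h2 : e j ≤ l j := he j
      have h3 : expo e j = 0 := by
        rw [expo_apply]
        omega
      rw [map_sub, coeff_rot, h3, pow_zero, one_mul, sub_self]
  obtain ⟨hφ', hchr⟩ := hs.galp _ (rot_isRt (j := j) hω.pow_eq_one) hφ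
  rw [chr_rot] at hchr
  have hη : IsPrimitiveRoot (ω ^ lam j) p' := hω.pow h.hE (by rw [hE]; ring)
  have hdvd : p' ∣ p := hη.dvd_of_pow_eq_one p hchr
  have hb0 : ∀ a, ∃ x, x ∈ Cb a := hs.Cb_ne
  by_cases hp1 : p' = 1
  · -- `p' = 1`
    subst hp1
    rw [one_mul] at hE
    have hthree : ∀ x ∈ C, ∀ y ∈ C, ∀ w ∈ C, V ζ j (lam j) x ≠ V ζ j (lam j) y →
        V ζ j (lam j) x ≠ V ζ j (lam j) w → V ζ j (lam j) y ≠ V ζ j (lam j) w → False :=
      fun x hx y hy w hw => three h hB2 (hcl x hx) (hcl y hy) (hcl w hw)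
    have hs1 : s = 1 := by
      by_contra hs1
      have hs2 : 1 < s := by have := hs.hs; omega
      set b₀ : Fin s := ⟨1, hs2⟩ with hb₀
      have hab : v a₀ ^ p ≠ v b₀ ^ p := by
        intro hc
        have := hs.v_inj _ _ hc
        rw [ha₀, hb₀, Fin.mk.injEq] at this
        omega
      have hab2 : v a₀ ≠ v b₀ := fun hc => hab (by rw [hc])
      obtain ⟨x, hx⟩ := hb0 a₀
      obtain ⟨y, hy⟩ := hb0 b₀
      rcases Finset.eq_empty_or_nonempty C₀ with h0 | ⟨w, hw⟩
      · have hpne : p ≠ 1 := by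
          intro hc
          have := hs.one hc
          rw [h0] at this
          exact Finset.not_nonempty_empty this
        have hp2 : 1 < p := by have := hs.hp; omega
        have hθ := Complex.isPrimitiveRoot_exp p (by omega)
        set θ : ℂ := Complex.exp (2 * Real.pi * Complex.I / p) with hθdef
        obtain ⟨w, hw, hw2⟩ := twist h hst hs a₀ hθ.pow_eq_one
        have hθ1 : θ ≠ 1 := hθ.ne_one hp2
        refine hthree x (Cb_sub hs _ hx) y (Cb_sub hs _ hy) w hw ?_ ?_ ?_
        · apply V_ne_of_coeff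
          rw [valb hs hx, valb hs hy]
          intro hc
          exact hab2 (add_left_cancel hc)
        · apply V_ne_of_coeff
          rw [valb hs hx, hw2]
          intro hc
          have h1 := add_left_cancel hc
          have h2 : (θ - 1) * v a₀ = 0 := by linear_combination -h1
          rcases mul_eq_zero.1 h2 with h3 | h3
          · exact hθ1 (by linear_combination h3)
          · exact hs.v_ne _ h3
        · apply V_ne_of_coeff
          rw [valb hs hy, hw2]
          intro hc
          have h1 := add_left_cancel hc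
          apply hab
          rw [h1, mul_pow, hθ.pow_eq_one, one_mul]
      · refine hthree x (Cb_sub hs _ hx) y (Cb_sub hs _ hy) w (C₀_sub hs hw) ?_ ?_ ?_
        · apply V_ne_of_coeff
          rw [valb hs hx, valb hs hy]
          intro hc
          exact hab2 (add_left_cancel hc)
        · apply V_ne_of_coeff
          rw [valb hs hx, val₀ hs hw]
          intro hc
          exact hs.v_ne a₀ (by linear_combination hc)
        · apply V_ne_of_coeff
          rw [valb hs hy, val₀ hs hw]
          intro hc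
          exact hs.v_ne b₀ (by linear_combination hc)
    have hall : ∀ b : Fin s, b = a₀ := by
      intro b
      apply Fin.ext
      have := b.2
      rw [ha₀]
      simp only
      omega
    rcases Finset.eq_empty_or_nonempty C₀ with h0 | ⟨w, hw⟩
    · exfalso
      have hpne : p ≠ 1 := by
        intro hc
        have := hs.one hc
        rw [h0] at this
        exact Finset.not_nonempty_empty this
      have hp2 : p = 2 := by
        by_contra hp2
        have hp3 : 2 < p := by have := hs.hp; omega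
        have hθ := Complex.isPrimitiveRoot_exp p (by omega)
        set θ : ℂ := Complex.exp (2 * Real.pi * Complex.I / p) with hθdef
        have hθ1 : θ ≠ 1 := hθ.ne_one (by omega)
        have hθ2 : θ ^ 2 ≠ 1 := hθ.pow_ne_one_of_pos_of_lt (by omega) hp3
        have hθ0 : θ ≠ 0 := hθ.ne_zero (by omega)
        obtain ⟨x, hx⟩ := hb0 a₀
        obtain ⟨y, hy, hy2⟩ := twist h hst hs a₀ hθ.pow_eq_one
        obtain ⟨w, hw, hw2⟩ := twist h hst hs a₀ (ω := θ ^ 2) (by
          rw [← pow_mul, mul_comm, pow_mul, hθ.pow_eq_one, one_pow])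
        refine hthree x (Cb_sub hs _ hx) y hy w hw ?_ ?_ ?_
        · apply V_ne_of_coeff
          rw [valb hs hx, hy2]
          intro hc
          have h1 := add_left_cancel hc
          have h2 : (θ - 1) * v a₀ = 0 := by linear_combination -h1
          rcases mul_eq_zero.1 h2 with h3 | h3
          · exact hθ1 (by linear_combination h3)
          · exact hs.v_ne _ h3
        · apply V_ne_of_coeff
          rw [valb hs hx, hw2]
          intro hc
          have h1 := add_left_cancel hc
          have h2 : (θ ^ 2 - 1) * v a₀ = 0 := by linear_combination -h1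
          rcases mul_eq_zero.1 h2 with h3 | h3
          · exact hθ2 (by linear_combination h3)
          · exact hs.v_ne _ h3
        · apply V_ne_of_coeff
          rw [hy2, hw2]
          intro hc
          have h1 := add_left_cancel hc
          have h2 : θ * (θ - 1) * v a₀ = 0 := by linear_combination -h1
          rcases mul_eq_zero.1 h2 with h3 | h3
          · rcases mul_eq_zero.1 h3 with h4 | h4
            · exact hθ0 h4
            · exact hθ1 (by linear_combination h4)
          · exact hs.v_ne _ h3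
      exact extra h hN hst hs heq hpos hN0 hl hA hE h0 hp2 a₀ hall hi hi' hi'2 hii hB2
    · have hp : p = 1 := by
        by_contra hp
        have hp2 : 1 < p := by have := hs.hp; omega
        have hθ := Complex.isPrimitiveRoot_exp p (by omega)
        set θ : ℂ := Complex.exp (2 * Real.pi * Complex.I / p) with hθdef
        have hθ1 : θ ≠ 1 := hθ.ne_one (by omega)
        have hθ0 : θ ≠ 0 := hθ.ne_zero (by omega)
        obtain ⟨x, hx⟩ := hb0 a₀
        obtain ⟨y, hy, hy2⟩ := twist h hst hs a₀ hθ.pow_eq_one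
        refine hthree x (Cb_sub hs _ hx) y hy w (C₀_sub hs hw) ?_ ?_ ?_
        · apply V_ne_of_coeff
          rw [valb hs hx, hy2]
          intro hc
          have h1 := add_left_cancel hc
          have h2 : (θ - 1) * v a₀ = 0 := by linear_combination -h1
          rcases mul_eq_zero.1 h2 with h3 | h3
          · exact hθ1 (by linear_combination h3)
          · exact hs.v_ne _ h3
        · apply V_ne_of_coeff
          rw [valb hs hx, val₀ hs hw]
          intro hc
          exact hs.v_ne a₀ (by linear_combination hc)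
        · apply V_ne_of_coeff
          rw [hy2, val₀ hs hw]
          intro hc
          have h2 : θ * v a₀ = 0 := by linear_combination hc
          exact (mul_ne_zero hθ0 (hs.v_ne a₀)) h2
      refine ⟨hpos, hN0, hl, hA, by rw [hp, one_mul, hE], hs1, ?_, ?_⟩
      · intro x hx y hy hxy hc
        obtain ⟨u, hu⟩ := hb0 a₀
        refine hthree x (C₀_sub hs hx) y (C₀_sub hs hy) u (Cb_sub hs _ hu) (V_ne h hxy hc) ?_ ?_
        · apply V_ne_of_coeff
          rw [valb hs hu, val₀ hs hx]
          intro hc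
          exact hs.v_ne a₀ (by linear_combination -hc)
        · apply V_ne_of_coeff
          rw [valb hs hu, val₀ hs hy]
          intro hc
          exact hs.v_ne a₀ (by linear_combination -hc)
      · intro a x hx y hy hxy hc
        refine hthree x (Cb_sub hs _ hx) y (Cb_sub hs _ hy) w (C₀_sub hs hw) (V_ne h hxy hc) ?_ ?_
        · apply V_ne_of_coeff
          rw [valb hs hx, val₀ hs hw]
          intro hc
          exact hs.v_ne a (by linear_combination hc)
        · apply V_ne_of_coeff
          rw [valb hs hy, val₀ hs hw]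
          intro hc
          exact hs.v_ne a (by linear_combination hc)
  · -- `p' ≥ 2`
    have hp2 : 2 ≤ p' := by omega
    have hφ0 : MvPowerSeries.coeff (expo lam) φ' = 0 := by
      have h1 := congrArg (MvPowerSeries.coeff (expo lam)) hφ'
      rw [coeff_rot, expo_apply] at h1
      have h2 : (ω ^ lam j - 1) * MvPowerSeries.coeff (expo lam) φ' = 0 := by
        linear_combination h1
      rcases mul_eq_zero.1 h2 with h3 | h3
      · exact absurd (by linear_combination h3) (hη.ne_one (by omega))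
      · exact h3
    have horb : ∀ x ∈ C, ∀ y ∈ C, V ζ j (lam j) x ≠ 0 → V ζ j (lam j) y ≠ 0 →
        (∀ η : ℂ, η ^ p' = 1 → ∃ a, V ζ j (lam j) y a ≠ η * V ζ j (lam j) x a) → False :=
      fun x hx y hy => orbits h hp2 hpos hE hB hB2 (hcl x hx) (hcl y hy)
    have hV0 : ∀ x ∈ C₀, V ζ j (lam j) x (expo lam) = 0 := by
      intro x hx
      rw [V_expo, val₀ hs hx, hφ0]
    have hVb : ∀ a, ∀ x ∈ Cb a, V ζ j (lam j) x (expo lam) = v a := by
      intro a x hx
      rw [V_expo, valb hs hx, hφ0, zero_add]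
    have hnz : ∀ x, V ζ j (lam j) x (expo lam) ≠ 0 → V ζ j (lam j) x ≠ 0 := by
      intro x hx hc
      apply hx
      rw [hc]
      rfl
    have hηne : ∀ η : ℂ, η ^ p' = 1 → η ≠ 0 := by
      intro η hη hc
      rw [hc, zero_pow hp0] at hη
      exact zero_ne_one hη
    have hs1 : s = 1 := by
      by_contra hs1
      have hs2 : 1 < s := by have := hs.hs; omega
      set b₀ : Fin s := ⟨1, hs2⟩ with hb₀
      obtain ⟨x, hx⟩ := hb0 a₀
      obtain ⟨y, hy⟩ := hb0 b₀
      refine horb x (Cb_sub hs _ hx) y (Cb_sub hs _ hy) (hnz x ?_) (hnz y ?_) ?_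
      · rw [hVb _ x hx]
        exact hs.v_ne _
      · rw [hVb _ y hy]
        exact hs.v_ne _
      · intro η hη
        refine ⟨expo lam, ?_⟩
        rw [hVb _ x hx, hVb _ y hy]
        intro hc
        have h1 : v b₀ ^ p = v a₀ ^ p := by
          obtain ⟨q, hq⟩ := hdvd
          rw [hc, mul_pow, hq, pow_mul η, hη, one_pow, one_mul]
        have := hs.v_inj _ _ h1
        rw [ha₀, hb₀, Fin.mk.injEq] at this
        omega
    have hpp : p = p' := by
      by_contra hpp
      have hlt : p' < p := lt_of_le_of_ne (Nat.le_of_dvd hs.hp hdvd) (Ne.symm hpp)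
      have hθ := Complex.isPrimitiveRoot_exp p (by omega)
      set θ : ℂ := Complex.exp (2 * Real.pi * Complex.I / p) with hθdef
      have hθp : θ ^ p' ≠ 1 := hθ.pow_ne_one_of_pos_of_lt hp0 hlt
      have hθ0 : θ ≠ 0 := hθ.ne_zero (by omega)
      obtain ⟨x, hx⟩ := hb0 a₀
      obtain ⟨y, hy, hy2⟩ := twist h hst hs a₀ hθ.pow_eq_one
      have hVy : V ζ j (lam j) y (expo lam) = θ * v a₀ := by
        rw [V_expo, hy2, hφ0, zero_add]
      refine horb x (Cb_sub hs _ hx) y hy (hnz x ?_) (hnz y ?_) ?_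
      · rw [hVb _ x hx]
        exact hs.v_ne _
      · rw [hVy]
        exact mul_ne_zero hθ0 (hs.v_ne _)
      · intro η hη
        refine ⟨expo lam, ?_⟩
        rw [hVb _ x hx, hVy]
        intro hc
        have h1 := mul_right_cancel₀ (hs.v_ne a₀) hc
        exact hθp (by rw [h1, hη])
    refine ⟨hpos, hN0, hl, hA, by rw [hpp, ← hE], hs1, ?_, ?_⟩
    · intro x hx y hy hxy hc
      obtain ⟨u, hu⟩ := hb0 a₀
      have hz : ∀ w ∈ C₀, V ζ j (lam j) w = 0 := by
        intro w hw
        by_contra hVw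
        refine horb u (Cb_sub hs _ hu) w (C₀_sub hs hw) (hnz u ?_) hVw ?_
        · rw [hVb _ u hu]
          exact hs.v_ne _
        · intro η hη
          refine ⟨expo lam, ?_⟩
          rw [hV0 w hw, hVb _ u hu]
          exact (mul_ne_zero (hηne η hη) (hs.v_ne _)).symm
      exact V_ne h hxy hc (by rw [hz x hx, hz y hy])
    · intro a x hx y hy hxy hc
      refine horb x (Cb_sub hs _ hx) y (Cb_sub hs _ hy) (hnz x ?_) (hnz y ?_) ?_
      · rw [hVb _ x hx]
        exact hs.v_ne _
      · rw [hVb _ y hy]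
        exact hs.v_ne _
      · intro η hη
        by_contra hcon
        push Not at hcon
        have h1 := hcon (expo lam)
        rw [hVb _ x hx, hVb _ y hy] at h1
        have h4 : η = 1 := by
          have h5 : (1 - η) * v a = 0 := by linear_combination h1
          rcases mul_eq_zero.1 h5 with h6 | h6
          · linear_combination -h6
          · exact absurd h6 (hs.v_ne a)
        apply V_ne h hxy hc
        funext b
        rw [hcon b, h4, one_mul]

/-- The contact of the first vertex of a subtree. -/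
theorem above (h : IsQO F E N0 ζ m L) {j : Fin d} {x : ℕ} {t : PT.QT d}
    (ht : TreeOf E ζ m φ C l t) (hx : x ≤ l j)
    (hC : ∀ y ∈ C, ∀ y' ∈ C, y ≠ y' → L y y' j ≠ x) : PT.Above j x t := by
  cases ht with
  | none => trivial
  | single => trivial
  | node hs hz hb =>
    obtain ⟨y, hy, y', hy', -, hne, hyy⟩ := pair h hs ⟨0, hs.hs⟩
    have h1 := hC y (Cb_sub hs _ hy) y' hy' hne
    rw [hyy] at h1
    have h2 := hs.le j
    exact lt_of_le_of_ne (hx.trans h2) (Ne.symm h1)

theorem nextA_eq (E : ℕ) (N0 : Fin d → ℕ) (m : Fin r → ℕ) {D : Finset (Fin r)} (hD : D ⊆ C) :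
    PT.nextA (mss m C) (mss m D) lam (AA E N0 m C c) = AA E N0 m D (cc' C lam c) := by
  classical
  funext j
  unfold PT.nextA AA cc'
  have h1 : ∑ i ∈ Dᶜ, m i * (if i ∈ C then lam else c i) j =
      ∑ i ∈ Cᶜ, m i * c i j + (mss m C - mss m D) * lam j := by
    have h2 : Dᶜ = Cᶜ ∪ C \ D := by
      ext x
      simp only [Finset.mem_compl, Finset.mem_union, Finset.mem_sdiff]
      constructor
      · intro hx
        by_cases hxC : x ∈ C
        · exact Or.inr ⟨hxC, hx⟩
        · exact Or.inl hxC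
      · rintro (hx | hx)
        · exact fun hc => hx (hD hc)
        · exact hx.2
    have h3 : Disjoint Cᶜ (C \ D) := by
      rw [Finset.disjoint_left]
      intro x hx hx'
      rw [Finset.mem_compl] at hx
      exact hx (Finset.mem_sdiff.1 hx').1
    rw [h2, Finset.sum_union h3]
    congr 1
    · apply Finset.sum_congr rfl
      intro x hx
      rw [Finset.mem_compl] at hx
      rw [if_neg hx]
    · have h4 : mss m C - mss m D = ∑ i ∈ C \ D, m i := by
        have h5 := Finset.sum_sdiff (f := m) hD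
        unfold mss
        omega
      rw [h4, Finset.sum_mul]
      apply Finset.sum_congr rfl
      intro x hx
      rw [if_pos (Finset.mem_sdiff.1 hx).1]
  rw [h1]
  ring

end step

end P5

open P5 in
theorem TreeOf.good (h : IsQO F E N0 ζ m L) {s₀ : ℚ} (hs₀ : s₀ < 0)
    (hN : NoCand E N0 m L s₀) {φ : PS d} {C : Finset (Fin r)} {l : Fin d → ℕ}
    {c : Fin r → Fin d → ℕ} {t : PT.QT d} (ht : TreeOf E ζ m φ C l t)
    (hst : Stage E ζ φ C l c) : PT.Good E s₀ t l (AA E N0 m C c) := by
  classical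
  induction ht generalizing c with
  | none φ l =>
    unfold PT.Good
    push_cast
    rw [mul_zero]
    exact one_ne_zero
  | single φ i l =>
    unfold PT.Good
    intro hc
    exact hN.leaf i (by linear_combination hc)
  | @node φ C l φ' lam p s v C₀ Cb hs z b hz hb ihz ihb =>
    have ht' : TreeOf E ζ m φ C l (.node lam p s z b) := TreeOf.node hs hz hb
    have hM := TreeOf.mass h ht' hst
    have hMz := TreeOf.mass h hz (Step.stage₀ hst hs)
    have hMb := fun a => TreeOf.mass h (hb a) (Step.stageb hst hs a)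
    unfold PT.Good
    refine ⟨?_, ?_, fun a => ?_⟩
    · rw [hM]
      refine ⟨Finset.univ.filter fun j => (E : ℚ) + lam j =
        -s₀ * (AA E N0 m C c j + mss m C * lam j), ?_, ?_, ?_⟩
      · rw [Finset.card_le_one]
        intro j hj j' hj'
        rw [Finset.mem_filter] at hj hj'
        by_contra hne
        obtain ⟨a1, a2, a3, a4, a5, -⟩ := node_aux h hN hst hs hj.2
        obtain ⟨b1, b2, b3, b4, b5, -⟩ := node_aux h hN hst hs hj'.2
        have hQQ : lam j = lam j' := Nat.eq_of_mul_eq_mul_left hs.hp (a5.trans b5.symm)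
        obtain ⟨i, hi, i', hi', hi'2, hii', hii⟩ := pair h hs ⟨0, hs.hs⟩
        have hiC := Cb_sub hs _ hi
        have hcl : ∀ x, x ≠ i → (x ∈ C ∧ lam j ≤ L i x j ∧ lam j ≤ L i x j') ∨
            (x ∉ C ∧ L i x j = 0 ∧ L i x j' = 0) := by
          intro x hx
          by_cases hxC : x ∈ C
          · left
            have h1 := (Step.contact h hs hiC hxC (Ne.symm hx)).1
            exact ⟨hxC, h1 j, by rw [hQQ]; exact h1 j'⟩
          · right
            have h1 : c x j ≤ l j := (hst.far x hxC).1 j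
            have h2 : c x j' ≤ l j' := (hst.far x hxC).1 j'
            rw [Stage.contact h hst hiC hxC]
            exact ⟨hxC, by omega, by omega⟩
        refine hN.two i j j' (lam j) a1 ⟨hne, a2, b2, ?_, i', Ne.symm hii', ?_, ?_⟩ ?_
        · intro x hx
          rcases hcl x hx with h1 | h1
          · exact Or.inr ⟨h1.2.1, h1.2.2⟩
          · exact Or.inl h1.2
        · exact congrFun hii j
        · rw [hQQ]
          exact congrFun hii j'
        · have hmas : mas m L i j (lam j) = mss m C := by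
            unfold mas mss
            congr 1
            ext x
            simp only [clu, Finset.mem_filter, Finset.mem_univ, true_and]
            constructor
            · rintro (h1 | h1)
              · rw [h1]; exact hiC
              · by_contra hxC
                have hx : x ≠ i := fun hc => hxC (hc ▸ hiC)
                rcases hcl x hx with h2 | h2
                · exact hxC h2.1
                · omega
            · intro hxC
              by_cases hx : x = i
              · exact Or.inl hx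
              · rcases hcl x hx with h2 | h2
                · exact Or.inr h2.2.1
                · exact absurd hxC h2.1
          rw [hmas]
          have h1 := hj.2
          rw [a4] at h1
          push_cast at h1 ⊢
          linear_combination h1
      · intro j hj
        rw [Finset.mem_filter] at hj
        obtain ⟨a1, a2, a3, a4, a5, a6, a7, a8⟩ := node_aux h hN hst hs hj.2
        exact ⟨a4, a3, a5, a6, above h hz le_rfl a7, fun a => above h (hb a) le_rfl (a8 a)⟩
      · intro j hj hc
        exact hj (Finset.mem_filter.2 ⟨Finset.mem_univ j, hc⟩)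
    · rw [hM, hMz, nextA_eq E N0 m (C₀_sub hs)]
      exact ihz (Step.stage₀ hst hs)
    · rw [hM, hMb, nextA_eq E N0 m (Cb_sub hs a)]
      exact ihb a (Step.stageb hst hs a)

end QO

end MPb07157
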