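import Pool.Agent.Lib.MP_b07157_agO.PB2
import Pool.Agent.Lib.MP_b07157_agO.P0

/-!
# Values of series on lifts of arcs
-/

noncomputable section

namespace MPb07157

namespace QO

variable {d r : ℕ}

/-- `z - φ(t)` for the arc `γ` and the lift `t` given by `η`. -/
def Df {E : ℕ} (hE : E ≠ 0) {N : ℕ} (k : Fin d → ℕ) (γ : Fin (d + 1) × Fin N → ℂ)
    (η : Fin d → PowerSeries ℂ) (φ : PS d) : PowerSeries ℂ :=
  PowerSeries.expand E hE (arc γ (Fin.last d)) - ev (tOf hE k η) φ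

/-- `η` gives a lift of the `x`-part of `γ`. -/
structure LiftE (E : ℕ) {N : ℕ} (k : Fin d → ℕ) (γ : Fin (d + 1) × Fin N → ℂ)
    (η : Fin d → PowerSeries ℂ) : Prop where
  adm : UAdm N k η
  eq : ∀ j, arc γ j.castSucc = PowerSeries.X ^ k j * η j ^ E

theorem mem_Ball_iff_Df {E : ℕ} (hE : E ≠ 0) {N : ℕ} {φ : PS d} {k : Fin d → ℕ}
    (hkN : ∀ j, k j ≤ N) {h : ℕ} {γ : Fin (d + 1) × Fin N → ℂ} :
    γ ∈ Ball E hE N φ k h ↔ ∃ η, LiftE E k γ η ∧
      (PowerSeries.X : PowerSeries ℂ) ^ (E * h) ∣ Df hE k γ η φ := by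
  rw [mem_Ball_iff hE hkN]
  constructor
  · rintro ⟨η, h1, h2, h3⟩
    exact ⟨η, ⟨h1, h2⟩, h3⟩
  · rintro ⟨η, h1, h3⟩
    exact ⟨η, h1.adm, h1.eq, h3⟩

/-! ### The map `ev` -/

theorem const_tOf {E : ℕ} (hE : E ≠ 0) {k : Fin d → ℕ} (hk : ∀ j, 0 < k j)
    (η : Fin d → PowerSeries ℂ) (j : Fin d) : PowerSeries.constantCoeff (tOf hE k η j) = 0 :=
  constantCoeff_of_dvd hk (X_pow_dvd_tOf hE k η) j

section ev

variable {n : ℕ} {t : Fin n → PowerSeries ℂ} (ht : ∀ j, PowerSeries.constantCoeff (t j) = 0)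

include ht

theorem ev_add (a b : MvPowerSeries (Fin n) ℂ) : ev t (a + b) = ev t a + ev t b :=
  MvPowerSeries.subst_add (hasSubst_of_const ht) a b

theorem ev_sub (a b : MvPowerSeries (Fin n) ℂ) : ev t (a - b) = ev t a - ev t b :=
  MvPowerSeries.subst_sub (hasSubst_of_const ht) a b

theorem ev_mul (a b : MvPowerSeries (Fin n) ℂ) : ev t (a * b) = ev t a * ev t b :=
  MvPowerSeries.subst_mul (hasSubst_of_const ht) a b

theorem ev_pow (a : MvPowerSeries (Fin n) ℂ) (e : ℕ) : ev t (a ^ e) = ev t a ^ e :=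
  MvPowerSeries.subst_pow (hasSubst_of_const ht) a e

theorem ev_C (c : ℂ) : ev t (MvPowerSeries.C c) = PowerSeries.C c := by
  unfold ev
  exact MvPowerSeries.subst_C _

theorem ev_X (i : Fin n) : ev t (MvPowerSeries.X i) = t i :=
  MvPowerSeries.subst_X (hasSubst_of_const ht) i

theorem ev_mon (a : Fin n → ℕ) : ev t (mon a) = ∏ j, t j ^ a j := by
  unfold ev mon
  rw [MvPowerSeries.subst_monomial (hasSubst_of_const ht), map_one, one_mul,
    Finsupp.prod_fintype _ _ (fun i => pow_zero _)]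
  rfl

theorem constantCoeff_ev (a : MvPowerSeries (Fin n) ℂ) :
    PowerSeries.constantCoeff (ev t a) = MvPowerSeries.constantCoeff a := by
  have h1 : a = MvPowerSeries.C (MvPowerSeries.constantCoeff a) +
      (a - MvPowerSeries.C (MvPowerSeries.constantCoeff a)) := by ring
  have h2 : PowerSeries.constantCoeff
      (ev t (a - MvPowerSeries.C (MvPowerSeries.constantCoeff a))) = 0 :=
    MvPowerSeries.constantCoeff_subst_eq_zero (hasSubst_of_const ht) ht (by simp)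
  rw [h1, ev_add ht, map_add, ev_C ht, PowerSeries.constantCoeff_C, h2, add_zero]
  simp

/-- `φ(ε t) = (rescale ε φ)(t)`. -/
theorem ev_smul (ε : Fin n → ℂ) (φ : PS n) :
    ev (fun j => PowerSeries.C (ε j) * t j) φ = ev t (MvPowerSeries.rescale ε φ) :=
  subst_smul_arc φ ht ε

end ev

theorem dvd_ev_mon {n : ℕ} {k : Fin n → ℕ} (hk : ∀ j, 0 < k j) {t : Fin n → PowerSeries ℂ}
    (ht : ∀ j, (PowerSeries.X : PowerSeries ℂ) ^ k j ∣ t j) (a : Fin n → ℕ) (g : PS n) :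
    (PowerSeries.X : PowerSeries ℂ) ^ PT.dk a k ∣ ev t (mon a * g) := by
  have hc := constantCoeff_of_dvd hk ht
  rw [ev_mul hc, ev_mon hc, PT.dk, ← Finset.prod_pow_eq_pow_sum]
  refine Dvd.dvd.mul_right (Finset.prod_dvd_prod_of_dvd _ _ fun j _ => ?_) _
  rw [mul_comm, pow_mul]
  exact pow_dvd_pow_of_dvd (ht j) _

theorem Nr.dvd_ev {n : ℕ} {k : Fin n → ℕ} (hk : ∀ j, 0 < k j) {t : Fin n → PowerSeries ℂ}
    (ht : ∀ j, (PowerSeries.X : PowerSeries ℂ) ^ k j ∣ t j) {l : Fin n → ℕ} {g : PS n}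
    (hg : Nr l g) : (PowerSeries.X : PowerSeries ℂ) ^ (PT.dk l k + 1) ∣ ev t g := by
  have hc := constantCoeff_of_dvd hk ht
  obtain ⟨u, hu, rfl⟩ := hg
  have h1 : (PowerSeries.X : PowerSeries ℂ) ∣ ev t u := by
    rw [PowerSeries.X_dvd_iff, constantCoeff_ev hc, hu]
  have h2 := dvd_ev_mon hk ht l 1
  rw [mul_one] at h2
  rw [ev_mul hc, pow_succ]
  exact mul_dvd_mul h2 h1

theorem Ct.dvd_ev {n : ℕ} {k : Fin n → ℕ} (hk : ∀ j, 0 < k j) {t : Fin n → PowerSeries ℂ}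
    (ht : ∀ j, (PowerSeries.X : PowerSeries ℂ) ^ k j ∣ t j) {c : Fin n → ℕ} {g : PS n}
    (hg : Ct c g) : (PowerSeries.X : PowerSeries ℂ) ^ PT.dk c k ∣ ev t g := by
  obtain ⟨u, hu, rfl⟩ := hg
  exact dvd_ev_mon hk ht c u

theorem Ct.not_dvd_ev {E : ℕ} (hE : E ≠ 0) {N : ℕ} {k : Fin d → ℕ} (hk : ∀ j, 0 < k j)
    {η : Fin d → PowerSeries ℂ} (hη : UAdm N k η) {c : Fin d → ℕ} (hc : PT.dk c k < N)
    {g : PS d} (hg : Ct c g) :
    ¬ (PowerSeries.X : PowerSeries ℂ) ^ (PT.dk c k + 1) ∣ ev (tOf hE k η) g := by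
  classical
  obtain ⟨u, hu, rfl⟩ := hg
  have hco : ∀ v : Fin d →₀ ℕ, MvPowerSeries.coeff v (mon c * u) =
      if expo c ≤ v then MvPowerSeries.coeff (v - expo c) u else 0 := by
    intro v
    rw [mon, MvPowerSeries.coeff_monomial_mul]
    split_ifs <;> simp
  have hwt : wt k (expo c) = PT.dk c k := by
    rw [wt, PT.dk]
    exact Finset.sum_congr rfl fun j _ => mul_comm _ _
  refine not_dvd_subst hk (X_pow_dvd_tOf hE k η) (L := expo c) (by rw [hwt]; omega) ?_ ?_ ?_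
  · rw [hco, if_pos le_rfl, tsub_self]
    exact hu
  · intro v hv
    by_contra h1
    exact hv (by rw [hco, if_neg h1])
  · intro j hj
    refine not_dvd_tOf hE hη ?_
    have h1 : c j * k j ≤ PT.dk c k :=
      Finset.single_le_sum (f := fun j => c j * k j) (fun _ _ => Nat.zero_le _)
        (Finset.mem_univ j)
    have h2 : c j ≠ 0 := hj
    have h3 : k j ≤ c j * k j := Nat.le_mul_of_pos_left _ (Nat.pos_of_ne_zero h2)
    omega

end QO

end MPb07157
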