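import Pool.Agent.Lib.MP_b07157_agO.PA

/-!
# Integrality and lifts
-/

noncomputable section

namespace MPb07157

namespace QO

variable {d r : ℕ}

/-! ### Integrality -/

/-- If the orders are admissible, `φ(t)` is a power series in `σ ^ E`. -/
theorem Adm.ev_expand {E : ℕ} (hE : E ≠ 0) {φ : PS d} {k : Fin d → ℕ} (hk : ∀ j, 0 < k j)
    (hA : Adm E φ k) (η : Fin d → PowerSeries ℂ) :
    ∃ f : PowerSeries ℂ, ev (tOf hE k η) φ = PowerSeries.expand E hE f := by
  have hprim := Complex.isPrimitiveRoot_exp E hE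
  set ω := Complex.exp (2 * Real.pi * Complex.I / E) with hω
  have hωE : ω ^ E = 1 := hprim.pow_eq_one
  have ht0 : ∀ j, PowerSeries.constantCoeff (tOf hE k η j) = 0 := const_tOf hE hk η
  have hresc : (fun j => PowerSeries.rescale ω (tOf hE k η j)) =
      fun j => PowerSeries.C (ω ^ k j) * tOf hE k η j := by
    funext j
    unfold tOf
    rw [map_mul, map_pow, PowerSeries.rescale_X, rescale_expand hE hωE, mul_pow, ← map_pow,
      mul_assoc]
  have hφ : MvPowerSeries.rescale (fun j => ω ^ k j) φ = φ := by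
    ext a
    rw [MvPowerSeries.coeff_rescale, Finsupp.prod_fintype _ _ (fun i => pow_zero _)]
    by_cases ha : MvPowerSeries.coeff a φ = 0
    · rw [ha, mul_zero]
    · have h1 := hA a ha
      have h2 : ∏ j, (ω ^ k j) ^ a j = ω ^ PT.dk a k := by
        unfold PT.dk
        rw [← Finset.prod_pow_eq_pow_sum]
        refine Finset.prod_congr rfl fun j _ => ?_
        rw [← pow_mul, mul_comm]
      rw [h2, (hprim.pow_eq_one_iff_dvd _).2 h1, one_mul]
  have h1 : PowerSeries.rescale ω (ev (tOf hE k η) φ) = ev (tOf hE k η) φ := by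
    unfold ev
    rw [rescale_subst_arc φ ht0, hresc, subst_smul_arc φ ht0, hφ]
  refine ⟨PowerSeries.mk fun n => PowerSeries.coeff (E * n) (ev (tOf hE k η) φ), ?_⟩
  ext n
  by_cases hn : E ∣ n
  · obtain ⟨q, rfl⟩ := hn
    rw [PowerSeries.coeff_expand_mul, PowerSeries.coeff_mk]
  · rw [PowerSeries.coeff_expand_of_not_dvd E hE _ hn]
    have h2 := congrArg (PowerSeries.coeff n) h1
    rw [PowerSeries.coeff_rescale] at h2
    have h3 : (ω ^ n - 1) * PowerSeries.coeff n (ev (tOf hE k η) φ) = 0 := by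
      rw [sub_mul, one_mul, h2, sub_self]
    rcases mul_eq_zero.1 h3 with h4 | h4
    · exact absurd ((hprim.pow_eq_one_iff_dvd n).1 (sub_eq_zero.1 h4)) hn
    · exact h4

/-- The order of a power series in `σ ^ E` is a multiple of `E`. -/
theorem expand_dvd {E : ℕ} (hE : E ≠ 0) {a h : ℕ} (ha : E * h < a + E) {f : PowerSeries ℂ}
    (hf : (PowerSeries.X : PowerSeries ℂ) ^ a ∣ PowerSeries.expand E hE f) :
    (PowerSeries.X : PowerSeries ℂ) ^ (E * h) ∣ PowerSeries.expand E hE f := by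
  rw [expand_dvd_iff hE, PowerSeries.X_pow_dvd_iff]
  rw [PowerSeries.X_pow_dvd_iff] at hf
  intro i hi
  have h1 := hf (E * i) (by
    have h2 : E * (i + 1) ≤ E * h := Nat.mul_le_mul_left _ hi
    rw [Nat.mul_add, mul_one] at h2
    omega)
  rwa [PowerSeries.coeff_expand_mul] at h1

/-- `z - φ(t)` is a power series in `σ ^ E`. -/
theorem Adm.Df_dvd {E : ℕ} (hE : E ≠ 0) {N : ℕ} {φ : PS d} {k : Fin d → ℕ}
    (hk : ∀ j, 0 < k j) (hA : Adm E φ k) {γ : Fin (d + 1) × Fin N → ℂ}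
    {η : Fin d → PowerSeries ℂ} {a h : ℕ} (ha : E * h < a + E)
    (hf : (PowerSeries.X : PowerSeries ℂ) ^ a ∣ Df hE k γ η φ) :
    (PowerSeries.X : PowerSeries ℂ) ^ (E * h) ∣ Df hE k γ η φ := by
  obtain ⟨f, h1⟩ := hA.ev_expand hE hk η
  unfold Df at hf ⊢
  rw [h1, ← map_sub] at hf ⊢
  exact expand_dvd hE ha hf

/-! ### Lifts -/

theorem exists_lift {E : ℕ} (hE : E ≠ 0) {N : ℕ} {k : Fin d → ℕ} (hkN : ∀ j, k j ≤ N)
    {γ : Fin (d + 1) × Fin N → ℂ} (hγ : γ ∈ XStr N k) : ∃ η, LiftE E k γ η := by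
  have hx : ∀ j, ∃ η : PowerSeries ℂ, (k j < N → PowerSeries.constantCoeff η ≠ 0) ∧
      (k j = N → η = 0) ∧ arc γ j.castSucc = PowerSeries.X ^ k j * η ^ E := by
    intro j
    have h1 : arc γ j.castSucc = PowerSeries.X ^ k j * tailS k (xPart γ) j :=
      arc_eq_tail (γ := xPart γ) hγ.1 j
    rcases lt_or_eq_of_le (hkN j) with hj | hj
    · have h2 : PowerSeries.constantCoeff (tailS k (xPart γ) j) ≠ 0 := by
        rw [constantCoeff_tailS]
        exact hγ.2 j hj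
      obtain ⟨η, hη⟩ := exists_root (Nat.pos_of_ne_zero hE) _ h2
      refine ⟨η, fun _ h3 => h2 ?_, fun h => absurd h hj.ne, by rw [h1, hη]⟩
      rw [← hη, map_pow, h3, zero_pow hE]
    · refine ⟨0, fun h => absurd hj h.ne, fun _ => rfl, ?_⟩
      rw [zero_pow hE, mul_zero]
      ext i
      rw [map_zero]
      rcases lt_or_ge i N with hi | hi
      · rw [h1, PowerSeries.coeff_X_pow_mul', if_neg (by omega)]
      · rw [coeff_arc, dif_neg (not_lt.2 hi)]
  choose η h1 h2 h3 using hx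
  exact ⟨η, ⟨h1, h2⟩, h3⟩

theorem LiftE.mem_XStr {E : ℕ} {N : ℕ} {k : Fin d → ℕ} (hkN : ∀ j, k j ≤ N)
    {γ : Fin (d + 1) × Fin N → ℂ} {η : Fin d → PowerSeries ℂ} (h : LiftE E k γ η) (hE : E ≠ 0) :
    γ ∈ XStr N k := by
  refine mem_Strat_of_adm (fun j hj => ⟨η j ^ E, h.eq j, ?_⟩) (fun j hj => ?_) hkN
  · rw [map_pow]
    exact pow_ne_zero _ (h.adm.unit j hj)
  · rw [h.eq j, h.adm.zero j hj, zero_pow hE, mul_zero]

/-- Other lifts. -/
theorem LiftE.smul {E : ℕ} (hE : E ≠ 0) {N : ℕ} {k : Fin d → ℕ}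
    {γ : Fin (d + 1) × Fin N → ℂ} {η : Fin d → PowerSeries ℂ} (h : LiftE E k γ η)
    {ε : Fin d → ℂ} (hε : IsRt E ε) : LiftE E k γ (fun j => PowerSeries.C (ε j) * η j) ∧
      tOf hE k (fun j => PowerSeries.C (ε j) * η j) =
        fun j => PowerSeries.C (ε j) * tOf hE k η j := by
  have hε0 : ∀ j, ε j ≠ 0 := by
    intro j h1
    have h2 := hε j
    rw [h1, zero_pow hE] at h2
    exact zero_ne_one h2
  refine ⟨⟨⟨fun j hj => ?_, fun j hj => ?_⟩, fun j => ?_⟩, ?_⟩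
  · rw [map_mul, PowerSeries.constantCoeff_C]
    exact mul_ne_zero (hε0 j) (h.adm.unit j hj)
  · rw [h.adm.zero j hj, mul_zero]
  · rw [h.eq j, mul_pow, ← map_pow, hε j, map_one, one_mul]
  · funext j
    unfold tOf
    rw [map_mul, PowerSeries.expand_C]
    ring

/-- Two lifts differ by roots of unity. -/
theorem LiftE.unique {E : ℕ} (hE : E ≠ 0) {N : ℕ} {k : Fin d → ℕ} (hkN : ∀ j, k j ≤ N)
    {γ : Fin (d + 1) × Fin N → ℂ} {η η' : Fin d → PowerSeries ℂ} (h : LiftE E k γ η)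
    (h' : LiftE E k γ η') : ∃ ε : Fin d → ℂ, IsRt E ε ∧
      tOf hE k η' = fun j => PowerSeries.C (ε j) * tOf hE k η j := by
  have hx : ∀ j, ∃ ε : ℂ, ε ^ E = 1 ∧ η' j = PowerSeries.C ε * η j := by
    intro j
    rcases lt_or_eq_of_le (hkN j) with hj | hj
    · refine root_unique_eq (Nat.pos_of_ne_zero hE) (h'.adm.unit j hj) (h.adm.unit j hj) ?_
      have h1 := h.eq j
      rw [h'.eq j] at h1
      exact mul_left_cancel₀ (pow_ne_zero _ PowerSeries.X_ne_zero) h1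
    · exact ⟨1, one_pow _, by rw [h.adm.zero j hj, h'.adm.zero j hj, mul_zero]⟩
  choose ε h1 h2 using hx
  refine ⟨ε, h1, funext fun j => ?_⟩
  unfold tOf
  rw [h2 j, map_mul, PowerSeries.expand_C]
  ring

end QO

end MPb07157
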