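import Pool.Agent.Lib.MP_b07157_agO.Ev

/-!
# Lattices of exponents
-/

noncomputable section

namespace MPb07157

open MvPolynomial

namespace QO

variable {d : ℕ}

theorem constantCoeff_unit (u : (PowerSeries ℂ)ˣ) :
    PowerSeries.constantCoeff (u : PowerSeries ℂ) ≠ 0 :=
  ((Units.isUnit u).map (PowerSeries.constantCoeff (R := ℂ))).ne_zero

theorem exists_unit_root {E : ℕ} (hE : 0 < E) (u : (PowerSeries ℂ)ˣ) :
    ∃ v : (PowerSeries ℂ)ˣ, v ^ E = u := by
  obtain ⟨g, hg⟩ := exists_root hE (u : PowerSeries ℂ) (constantCoeff_unit u)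
  have hu : IsUnit g := by
    rw [← isUnit_pow_iff hE.ne', hg]
    exact u.isUnit
  exact ⟨hu.unit, Units.ext (by rw [Units.val_pow_eq_pow_val]; exact hg)⟩

/-- The group of units of `ℂ[[t]]` is divisible. -/
@[reducible] def divUnits : DivisibleBy (Additive (PowerSeries ℂ)ˣ) ℤ := by
  let h : DivisibleBy (Additive (PowerSeries ℂ)ˣ) ℕ := by
    apply divisibleByOfSMulRightSurj
    intro n hn u
    obtain ⟨v, hv⟩ := exists_unit_root (Nat.pos_of_ne_zero hn) (Additive.toMul u)
    exact ⟨Additive.ofMul v, by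
      rw [← ofMul_toMul u, ← hv]
      rfl⟩
  exact AddGroup.divisibleByIntOfDivisibleByNat _

/-- A character of a sublattice extends to the lattice. -/
theorem exists_ext (M : Submodule ℤ (Fin d → ℤ)) (φ : M →+ Additive (PowerSeries ℂ)ˣ) :
    ∃ η : Fin d → (PowerSeries ℂ)ˣ, ∀ v : M,
      (∏ j, η j ^ ((v : Fin d → ℤ) j)) = Additive.toMul (φ v) := by
  let _ : DivisibleBy (Additive (PowerSeries ℂ)ˣ) ℤ := divUnits
  obtain ⟨h, hh⟩ := (Module.Baer.of_divisible
    (Additive (PowerSeries ℂ)ˣ)).extension_property_addMonoidHom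
    (M.subtype.toAddMonoidHom) Subtype.val_injective φ
  refine ⟨fun j => Additive.toMul (h (Pi.single j 1)), fun v => ?_⟩
  rw [← hh]
  change _ = Additive.toMul (h (v : Fin d → ℤ))
  have h1 : (v : Fin d → ℤ) = ∑ j, ((v : Fin d → ℤ) j) • (Pi.single j (1 : ℤ) : Fin d → ℤ) := by
    ext i
    simp [Finset.sum_apply, Pi.single_apply]
  conv_rhs => rw [h1, map_sum]
  rw [toMul_sum]
  refine Finset.prod_congr rfl fun j _ => ?_
  rw [map_zsmul, toMul_zsmul]

/-- The lattice generated by `E e_j`, `j ∈ K`, and the exponents in `A`. -/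
def latM (E : ℕ) (K : Finset (Fin d)) (A : Finset (Fin d →₀ ℕ)) : Submodule ℤ (Fin d → ℤ) :=
  Submodule.span ℤ ({v | ∃ j ∈ K, v = Pi.single j (E : ℤ)} ∪
    {v | ∃ a ∈ A, v = fun j => ((a j : ℕ) : ℤ)})

theorem single_mem_latM {E : ℕ} {K : Finset (Fin d)} {A : Finset (Fin d →₀ ℕ)} {j : Fin d}
    (hj : j ∈ K) : (Pi.single j (E : ℤ) : Fin d → ℤ) ∈ latM E K A :=
  Submodule.subset_span (Or.inl ⟨j, hj, rfl⟩)

theorem exp_mem_latM {E : ℕ} {K : Finset (Fin d)} {A : Finset (Fin d →₀ ℕ)} {a : Fin d →₀ ℕ}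
    (ha : a ∈ A) : (fun j => ((a j : ℕ) : ℤ)) ∈ latM E K A :=
  Submodule.subset_span (Or.inr ⟨a, ha, rfl⟩)

theorem eq_zero_of_mem_latM {E : ℕ} {K : Finset (Fin d)} {A : Finset (Fin d →₀ ℕ)}
    (hA : ∀ a ∈ A, ∀ j, j ∉ K → a j = 0) {v : Fin d → ℤ} (hv : v ∈ latM E K A) {j : Fin d}
    (hj : j ∉ K) : v j = 0 := by
  refine Submodule.span_induction (p := fun v _ => v j = 0) ?_ rfl ?_ ?_ hv
  · rintro v (⟨i, hi, rfl⟩ | ⟨a, ha, rfl⟩)
    · refine Pi.single_eq_of_ne ?_ _
      rintro rfl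
      exact hj hi
    · show ((a j : ℕ) : ℤ) = 0
      rw [hA a ha j hj, Nat.cast_zero]
  · intro x y _ _ hx hy
    rw [Pi.add_apply, hx, hy, add_zero]
  · intro c x _ hx
    rw [Pi.smul_apply, hx, smul_zero]

/-- The functions supported in `K`. -/
def supM (K : Finset (Fin d)) : Submodule ℤ (Fin d → ℤ) where
  carrier := {v | ∀ j, j ∉ K → v j = 0}
  add_mem' := fun ha hb j hj => by rw [Pi.add_apply, ha j hj, hb j hj, add_zero]
  zero_mem' := fun _ _ => rfl
  smul_mem' := fun c x hx j hj => by rw [Pi.smul_apply, hx j hj, smul_zero]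

/-- Extension by zero. -/
def supE (K : Finset (Fin d)) : (K → ℤ) ≃ₗ[ℤ] supM K where
  toFun := fun f => ⟨fun j => if h : j ∈ K then f ⟨j, h⟩ else 0, fun j hj => dif_neg hj⟩
  map_add' := fun f g => by
    ext j
    by_cases h : j ∈ K
    · simp [h]
    · simp [h]
  map_smul' := fun c f => by
    ext j
    by_cases h : j ∈ K
    · simp [h]
    · simp [h]
  invFun := fun v j => (v : Fin d → ℤ) j
  left_inv := fun f => by
    funext j
    simp
  right_inv := fun v => by
    ext j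
    by_cases h : j ∈ K
    · simp [h]
    · simp only [h, dif_neg, not_false_iff]
      exact (v.2 j h).symm

theorem finrank_supM (K : Finset (Fin d)) : Module.finrank ℤ (supM K) = K.card := by
  rw [← (supE K).finrank_eq, Module.finrank_pi, Fintype.card_coe]

theorem finrank_latM {E : ℕ} (hE : 0 < E) {K : Finset (Fin d)} {A : Finset (Fin d →₀ ℕ)}
    (hA : ∀ a ∈ A, ∀ j, j ∉ K → a j = 0) : Module.finrank ℤ (latM E K A) = K.card := by
  apply le_antisymm
  · rw [← finrank_supM K]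
    exact Submodule.finrank_mono fun v hv j hj => eq_zero_of_mem_latM hA hv hj
  · rw [← finrank_supM K]
    have hmem : ∀ v : supM K, (E : ℤ) • (v : Fin d → ℤ) ∈ latM E K A := by
      intro v
      have h1 : (E : ℤ) • (v : Fin d → ℤ) = ∑ j, ((v : Fin d → ℤ) j) • Pi.single j (E : ℤ) := by
        ext i
        simp [Finset.sum_apply, Pi.single_apply, mul_comm]
      rw [h1]
      refine Submodule.sum_mem _ fun j _ => ?_
      by_cases hj : j ∈ K
      · exact Submodule.smul_mem _ _ (single_mem_latM hj)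
      · rw [v.2 j hj, zero_smul]
        exact Submodule.zero_mem _
    let g : supM K →ₗ[ℤ] latM E K A :=
      { toFun := fun v => ⟨(E : ℤ) • (v : Fin d → ℤ), hmem v⟩
        map_add' := fun v w => by ext j; simp [mul_add]
        map_smul' := fun c v => by ext j; simp [mul_left_comm] }
    refine LinearMap.finrank_le_finrank_of_injective (f := g) fun v w h => ?_
    have h1 := congrArg (fun x : latM E K A => (x : Fin d → ℤ)) h
    simp only [g, LinearMap.coe_mk, AddHom.coe_mk] at h1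
    have h2 : (E : ℤ) ≠ 0 := by exact_mod_cast hE.ne'
    exact Subtype.ext (smul_right_injective _ h2 h1)

/-- A basis of the lattice. -/
def basM {E : ℕ} (hE : 0 < E) {K : Finset (Fin d)} {A : Finset (Fin d →₀ ℕ)}
    (hA : ∀ a ∈ A, ∀ j, j ∉ K → a j = 0) : Module.Basis (Fin K.card) ℤ (latM E K A) :=
  Module.finBasisOfFinrankEq ℤ (latM E K A) (finrank_latM hE hA)

/-- Monomials: for any units `χ_i` there are units `η_j` with `η^v = χ^(coordinates of v)`. -/
theorem exists_eta {M : Submodule ℤ (Fin d → ℤ)} {r : ℕ} (b : Module.Basis (Fin r) ℤ M)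
    (χ : Fin r → (PowerSeries ℂ)ˣ) : ∃ η : Fin d → (PowerSeries ℂ)ˣ, ∀ v : M,
      (∏ j, η j ^ ((v : Fin d → ℤ) j)) = ∏ i, χ i ^ (b.repr v i) := by
  let φ : M →+ Additive (PowerSeries ℂ)ˣ :=
    (b.constr ℤ (fun i => Additive.ofMul (χ i))).toAddMonoidHom
  obtain ⟨η, hη⟩ := exists_ext M φ
  refine ⟨η, fun v => ?_⟩
  rw [hη]
  change Additive.toMul (b.constr ℤ (fun i => Additive.ofMul (χ i)) v) = _
  rw [Module.Basis.constr_apply_fintype, toMul_sum]
  refine Finset.prod_congr rfl fun i _ => ?_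
  rw [toMul_zsmul]
  rfl

theorem zpow_sum' {G ι : Type} [CommGroup G] (s : Finset ι) (a : G) (f : ι → ℤ) :
    a ^ (∑ i ∈ s, f i) = ∏ i ∈ s, a ^ f i := by
  classical
  induction s using Finset.induction_on with
  | empty => simp
  | insert i s hi ih => rw [Finset.sum_insert hi, Finset.prod_insert hi, zpow_add, ih]

/-- The converse: `χ_i = η^(b_i)` implies `η^v = χ^(coordinates of v)`. -/
theorem prod_repr {G : Type} [CommGroup G] {M : Submodule ℤ (Fin d → ℤ)} {r : ℕ}
    (b : Module.Basis (Fin r) ℤ M) (η : Fin d → G) (v : M) :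
    (∏ i, (∏ j, η j ^ ((b i : Fin d → ℤ) j)) ^ (b.repr v i)) =
      ∏ j, η j ^ ((v : Fin d → ℤ) j) := by
  have h1 : (v : Fin d → ℤ) = ∑ i, (b.repr v i) • ((b i : M) : Fin d → ℤ) := by
    have h2 := congrArg (fun x : M => (x : Fin d → ℤ)) (b.sum_repr v)
    simp only [Submodule.coe_sum, Submodule.coe_smul] at h2
    exact h2.symm
  have h3 : ∀ j, η j ^ ((v : Fin d → ℤ) j) =
      ∏ i, η j ^ (((b i : M) : Fin d → ℤ) j * b.repr v i) := by
    intro j
    rw [← zpow_sum']
    congr 1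
    conv_lhs => rw [h1]
    rw [Finset.sum_apply]
    refine Finset.sum_congr rfl fun i _ => ?_
    rw [Pi.smul_apply, smul_eq_mul, mul_comm]
  rw [Finset.prod_congr rfl fun j _ => h3 j, Finset.prod_comm]
  refine Finset.prod_congr rfl fun i _ => ?_
  rw [← Finset.prod_zpow]
  refine Finset.prod_congr rfl fun j _ => ?_
  rw [zpow_mul]

end QO

end MPb07157
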