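import Pool.Agent.Lib.MP_b07157_ag.Defs

/-!
# Trees of quasi-ordinary germs: definitions of the combinatorial half of the pole side

Everything is scaled by `E`: contacts `L`, lower contacts `l` and the exponents `A` of the stage.
-/

noncomputable section

namespace MPb07157

open Finset

namespace PT

variable {d : ℕ}

/-- The tree of a quasi-ordinary germ: a leaf is a root of multiplicity `m` (`m = 0`: a virtual
centre); a node has the contact `L`, the order `p` of `L` modulo the lattice of the stage, the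
`0`-branch `z` and one branch `b i` for each orbit of nonzero values. -/
inductive QT (d : ℕ) : Type
  | leaf (m : ℕ) : QT d
  | node (L : Fin d → ℕ) (p s : ℕ) (z : QT d) (b : Fin s → QT d) : QT d

/-- The total multiplicity. -/
def QT.mass : QT d → ℕ
  | .leaf m => m
  | .node _ p _ z b => z.mass + p * ∑ i, (b i).mass

/-- `L ^ (-h)`. -/
def Lp (h : ℕ) : Mot := ((LU ^ (-(h : ℤ)) : Motˣ) : Mot)

/-- The pairing of an exponent and the orders of `x`. -/
def dk (a k : Fin d → ℕ) : ℕ := ∑ j, a j * k j

/-- The class of `ord x = k` for arcs modulo `τ ^ N` (`k = N` stands for `x = 0`). -/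
def w1 (N x : ℕ) : Mot := if x < N then Lp x - Lp (x + 1) else Lp x

/-- The class of `ord x_j = k_j` for all `j`. -/
def wN (N : ℕ) (k : Fin d → ℕ) : Mot := ∏ j, w1 N (k j)

/-- The exponents of the stage of a child of mass `μ` of a vertex of mass `M` and contact `L`. -/
def nextA (M μ : ℕ) (L A : Fin d → ℕ) : Fin d → ℕ := fun j => A j + (M - μ) * L j

open Classical in
/-- The coefficient of `T ^ m` of the contribution of the stage `(t, l, A)` at the orders `k`. -/
def psi (E m : ℕ) : QT d → (Fin d → ℕ) → (Fin d → ℕ) → (Fin d → ℕ) → Mot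
  | .leaf μ, l, A, k =>
    if μ = 0 then if dk A k = E * m then Lp (dk l k / E + 1) else 0
    else ∑ h ∈ Finset.Icc 1 (m + 1),
      if dk l k < E * h ∧ dk A k + μ * (E * h) = E * m then Lp h - Lp (h + 1) else 0
  | .node L p s z b, l, A, k =>
    (∑ h ∈ Finset.Icc 1 (m + 1),
      if dk l k < E * h ∧ E * h < dk L k ∧
        dk A k + (QT.node L p s z b).mass * (E * h) = E * m then Lp h - Lp (h + 1) else 0) +
    (if E ∣ dk L k then
      (if dk A k + (QT.node L p s z b).mass * dk L k = E * m then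
        Lp (dk L k / E) - (1 + s) * Lp (dk L k / E + 1) else 0) +
      ∑ i, psi E m (b i) L (nextA (QT.node L p s z b).mass (b i).mass L A) k
     else 0) +
    psi E m z L (nextA (QT.node L p s z b).mass z.mass L A) k

/-- The zeta function of the tree, with the cut-off `N = K (m + 1)`. -/
def ZT (E K : ℕ) (t : QT d) (A : Fin d → ℕ) : PowerSeries Mot :=
  PowerSeries.mk fun m => ∑ k ∈ Fintype.piFinset (fun _ : Fin d => Finset.Icc 1 (K * (m + 1))),
    wN (K * (m + 1)) k * psi E m t 0 A k

/-- The lattice `{k | E ∣ L·k}`. -/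
def latt (E : ℕ) (L : Fin d → ℕ) : AddSubgroup (Fin d → ℤ) where
  carrier := {k | (E : ℤ) ∣ ∑ j, (L j : ℤ) * k j}
  zero_mem' := by simp
  add_mem' := by
    intro a b ha hb
    simp only [Set.mem_ofPred_eq, Pi.add_apply, mul_add, Finset.sum_add_distrib] at ha hb ⊢
    exact dvd_add ha hb
  neg_mem' := by
    intro a ha
    simp only [Set.mem_ofPred_eq, Pi.neg_apply, mul_neg, Finset.sum_neg_distrib, dvd_neg] at ha ⊢
    exact ha

/-- Validity of the tree at the stage with the lattice `Λ` and the lower contact `l`. -/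
def Valid (E : ℕ) : QT d → AddSubgroup (Fin d → ℤ) → (Fin d → ℕ) → Prop
  | .leaf _, _, _ => True
  | .node L p s z b, Λ, l =>
    (∀ j, l j ≤ L j) ∧ (∀ k ∈ Λ, (E : ℤ) ∣ p * ∑ j, (L j : ℤ) * k j) ∧ 0 < p ∧ 0 < s ∧
      (∀ i, 0 < (b i).mass) ∧ Valid E z Λ L ∧ ∀ i, Valid E (b i) (Λ ⊓ latt E L) L

/-- The contact of the root of `t` is larger than `x` in the direction `j`. -/
def Above (j : Fin d) (x : ℕ) : QT d → Prop
  | .leaf _ => True
  | .node L _ _ _ _ => x < L j

/-- The direction `j` of a vertex is bad: only two special points. -/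
def BadN (E : ℕ) (j : Fin d) (L : Fin d → ℕ) (p s : ℕ) (z : QT d) (b : Fin s → QT d)
    (l A : Fin d → ℕ) : Prop :=
  A j = 0 ∧ l j = 0 ∧ p * L j = E ∧ s = 1 ∧ Above j (L j) z ∧ ∀ i, Above j (L j) (b i)

/-- The number `s₀` is not a candidate of the tree: at every vertex, all directions are good,
with at most one exception, which is bad. -/
def Good (E : ℕ) (s₀ : ℚ) : QT d → (Fin d → ℕ) → (Fin d → ℕ) → Prop
  | .leaf m, _, _ => (1 : ℚ) ≠ -s₀ * m
  | .node L p s z b, l, A =>
    (∃ F : Finset (Fin d), F.card ≤ 1 ∧ (∀ j ∈ F, BadN E j L p s z b l A) ∧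
      ∀ j, j ∉ F → (E : ℚ) + L j ≠ -s₀ * (A j + (QT.node L p s z b).mass * L j)) ∧
    Good E s₀ z L (nextA (QT.node L p s z b).mass z.mass L A) ∧
    ∀ i, Good E s₀ (b i) L (nextA (QT.node L p s z b).mass (b i).mass L A)

end PT

end MPb07157
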