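import Pool.Agent.Lib.MP_b07157_agO.RDef
import Pool.Agent.Lib.MP_b07157_agO.Ev
import Pool.Agent.Lib.MP_b07157_agO.PTDefs

/-!
# Quasi-ordinary germs, pole side: definitions

All exponents are multiplied by `E` (exponents in `t`), as in `IsQO`.
-/

noncomputable section

namespace MPb07157

namespace QO

variable {d r : ℕ}

/-- The ring `ℂ[[t_1, …, t_d]]`. -/
abbrev PS (d : ℕ) : Type := MvPowerSeries (Fin d) ℂ

/-- The monomial `t ^ a`. -/
def mon (a : Fin d → ℕ) : PS d := MvPowerSeries.monomial (expo a) 1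

/-- `φ` is `t ^ c` times a unit. -/
def Ct (c : Fin d → ℕ) (φ : PS d) : Prop :=
  ∃ u : PS d, MvPowerSeries.constantCoeff u ≠ 0 ∧ φ = mon c * u

/-- `φ` is `t ^ l` times an element of the maximal ideal. -/
def Nr (l : Fin d → ℕ) (φ : PS d) : Prop :=
  ∃ g : PS d, MvPowerSeries.constantCoeff g = 0 ∧ φ = mon l * g

/-- `ε` is a vector of `E`-th roots of unity. -/
def IsRt (E : ℕ) (ε : Fin d → ℂ) : Prop := ∀ k, ε k ^ E = 1

/-- The character `ε ^ a`. -/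
def chr (ε : Fin d → ℂ) (a : Fin d → ℕ) : ℂ := ∏ k, ε k ^ a k

/-- A stage: `C` is the set of roots near the center `φ` (`ζ_i - φ ∈ t ^ l 𝔪`), the other roots have
contact `c_i ≤ l` with `φ`. -/
structure Stage (E : ℕ) (ζ : Fin r → PS d) (φ : PS d) (C : Finset (Fin r)) (l : Fin d → ℕ)
    (c : Fin r → Fin d → ℕ) : Prop where
  zero : MvPowerSeries.constantCoeff φ = 0
  near : ∀ i ∈ C, Nr l (ζ i - φ)
  far : ∀ i, i ∉ C → c i ≤ l ∧ Ct (c i) (ζ i - φ)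
  gal : ∀ ε : Fin d → ℂ, IsRt E ε → MvPowerSeries.rescale ε φ = φ ∨
    ∃ e ≤ l, Ct e (MvPowerSeries.rescale ε φ - φ)
  low : l = 0 ∨ ∃ i, i ∉ C ∧ c i = l

/-- A step of the algorithm: `lam` is the smallest contact of the roots in `C`, `φ'` is the new
center, `C₀` the set of roots near `φ'`, the `v_a` (`a < s`) are representatives of the `μ_p`-orbits
of the nonzero values, `Cb_a` is the set of roots with the value `v_a`. -/
structure Step (E : ℕ) (ζ : Fin r → PS d) (φ : PS d) (C : Finset (Fin r)) (l : Fin d → ℕ)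
    (φ' : PS d) (lam : Fin d → ℕ) (p s : ℕ) (v : Fin s → ℂ) (C₀ : Finset (Fin r))
    (Cb : Fin s → Finset (Fin r)) : Prop where
  le : l ≤ lam
  ne : l ≠ lam
  cen : Nr l (φ' - φ)
  val : ∀ i ∈ C, ∃ g : PS d, ζ i - φ' = mon lam * g
  memC₀ : ∀ i, i ∈ C₀ ↔ i ∈ C ∧ Nr lam (ζ i - φ')
  memCb : ∀ a i, i ∈ Cb a ↔ i ∈ C ∧
    Nr lam (ζ i - (φ' + MvPowerSeries.C (v a) * mon lam))
  hp : 0 < p
  hs : 0 < s
  v_ne : ∀ a, v a ≠ 0
  v_inj : ∀ a b, v a ^ p = v b ^ p → a = b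
  cover : ∀ i ∈ C, i ∉ C₀ → ∃ (a : Fin s) (ω : ℂ), ω ^ p = 1 ∧
    Nr lam (ζ i - (φ' + MvPowerSeries.C (ω * v a) * mon lam))
  galp : ∀ ε : Fin d → ℂ, IsRt E ε → MvPowerSeries.rescale ε φ = φ →
    MvPowerSeries.rescale ε φ' = φ' ∧ chr ε lam ^ p = 1
  gals : ∀ ω : ℂ, ω ^ p = 1 → ∃ ε : Fin d → ℂ, IsRt E ε ∧ MvPowerSeries.rescale ε φ = φ ∧
    chr ε lam = ω
  neC₀ : C₀ ≠ C
  neCb : ∀ a, Cb a ≠ C
  Cb_ne : ∀ a, (Cb a).Nonempty
  one : p = 1 → C₀.Nonempty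

/-- The contacts with the roots outside of a child. -/
def cc' (C : Finset (Fin r)) (lam : Fin d → ℕ) (c : Fin r → Fin d → ℕ) (i : Fin r) : Fin d → ℕ :=
  if i ∈ C then lam else c i

/-- The total multiplicity of a set of roots. -/
def mss (m : Fin r → ℕ) (C : Finset (Fin r)) : ℕ := ∑ i ∈ C, m i

/-- The contribution of `x` and of the roots outside of `C` to the order of `F`. -/
def AA (E : ℕ) (N0 : Fin d → ℕ) (m : Fin r → ℕ) (C : Finset (Fin r)) (c : Fin r → Fin d → ℕ) :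
    Fin d → ℕ :=
  fun j => E * N0 j + ∑ i ∈ Cᶜ, m i * c i j

/-! ### Trees -/

/-- The tree of a stage. -/
inductive TreeOf (E : ℕ) (ζ : Fin r → PS d) (m : Fin r → ℕ) :
    PS d → Finset (Fin r) → (Fin d → ℕ) → PT.QT d → Prop
  | none (φ : PS d) (l : Fin d → ℕ) : TreeOf E ζ m φ ∅ l (.leaf 0)
  | single (φ : PS d) (i : Fin r) (l : Fin d → ℕ) : TreeOf E ζ m φ {i} l (.leaf (m i))
  | node {φ : PS d} {C : Finset (Fin r)} {l : Fin d → ℕ} {φ' : PS d} {lam : Fin d → ℕ} {p s : ℕ}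
      {v : Fin s → ℂ} {C₀ : Finset (Fin r)} {Cb : Fin s → Finset (Fin r)}
      (h : Step E ζ φ C l φ' lam p s v C₀ Cb) {z : PT.QT d} {b : Fin s → PT.QT d}
      (hz : TreeOf E ζ m φ' C₀ lam z)
      (hb : ∀ a, TreeOf E ζ m (φ' + MvPowerSeries.C (v a) * mon lam) (Cb a) lam (b a)) :
      TreeOf E ζ m φ C l (.node lam p s z b)

/-! ### Arcs -/

variable {n : ℕ}

/-- The value `F(x)`. -/
def ev (x : Fin n → PowerSeries ℂ) (F : MvPowerSeries (Fin n) ℂ) : PowerSeries ℂ :=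
  MvPowerSeries.subst (x : Fin n → MvPowerSeries Unit ℂ) F

/-- Truncated arcs at the origin with `ord F(γ) = m`. -/
def arcsQ (F : MvPowerSeries (Fin n) ℂ) (N m : ℕ) : Set (Fin n × Fin N → ℂ) :=
  {γ | γ ∈ Start n 1 N ∧ PowerSeries.order (ev (arc γ) F) = m}

/-- The measure of a set of truncated arcs. -/
def muQ (n N : ℕ) (S : Set (Fin n × Fin N → ℂ)) : Mot := ↑((LU ^ (n * N))⁻¹) * clsM S

/-- The zeta function of `F` at the origin. -/
def ZQ (F : MvPowerSeries (Fin n) ℂ) : PowerSeries Mot :=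
  PowerSeries.mk fun m => muQ n (m + 1) (arcsQ F (m + 1) m)

/-- The arcs with `ord x = k` (`k_j = N`: `x_j = 0` modulo `τ ^ N`). -/
def XStr (N : ℕ) (k : Fin d → ℕ) : Set (Fin (d + 1) × Fin N → ℂ) :=
  {γ | (fun p : Fin d × Fin N => γ (p.1.castSucc, p.2)) ∈ Strat N k}

/-- `t` is a lift of `x`: `t_j(σ)^E = x_j(σ^E)`. -/
def Lift (E : ℕ) (hE : E ≠ 0) {N : ℕ} (γ : Fin (d + 1) × Fin N → ℂ)
    (t : Fin d → PowerSeries ℂ) : Prop :=
  ∀ j : Fin d, t j ^ E = PowerSeries.expand E hE (arc γ j.castSucc)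

/-- The ball of radius `h` around the center `φ`. -/
def Ball (E : ℕ) (hE : E ≠ 0) (N : ℕ) (φ : PS d) (k : Fin d → ℕ) (h : ℕ) :
    Set (Fin (d + 1) × Fin N → ℂ) :=
  {γ | γ ∈ XStr N k ∧ ∃ t : Fin d → PowerSeries ℂ, Lift E hE γ t ∧
    (PowerSeries.X : PowerSeries ℂ) ^ (E * h) ∣
      PowerSeries.expand E hE (arc γ (Fin.last d)) - ev t φ}

/-- The order vector `k` is admissible for `φ`. -/
def Adm (E : ℕ) (φ : PS d) (k : Fin d → ℕ) : Prop :=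
  ∀ a : Fin d →₀ ℕ, MvPowerSeries.coeff a φ ≠ 0 → E ∣ PT.dk a k

end QO

end MPb07157
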