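import Pool.Agent.Lib.MP_b07157_agO.PB1
import Pool.Agent.Lib.MP_b07157_agO.PDef

/-!
# Balls around ramified series
-/

noncomputable section

namespace MPb07157

open MvPolynomial

namespace QO

variable {d : ℕ}

/-- For each tuple `ε` of `E`-th roots of unity, the terms of `ζ` which change under `t ↦ ε t` have a
common divisor among them: `ζ(εt) = ζ(t)` or `ζ(t) - ζ(εt)` is a monomial times a unit. -/
def Star (E : ℕ) (ζ : MvPowerSeries (Fin d) ℂ) : Prop :=
  ∀ ε : Fin d → ℂ, (∀ j, ε j ^ E = 1) →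
    (∀ a, MvPowerSeries.coeff a ζ ≠ 0 → ∏ j, ε j ^ a j = 1) ∨
    ∃ L, MvPowerSeries.coeff L ζ ≠ 0 ∧ ∏ j, ε j ^ L j ≠ 1 ∧
      ∀ a, MvPowerSeries.coeff a ζ ≠ 0 → ∏ j, ε j ^ a j ≠ 1 → L ≤ a

theorem subst_smul_arc (ζ : MvPowerSeries (Fin d) ℂ) {t : Fin d → PowerSeries ℂ}
    (ht : ∀ j, PowerSeries.constantCoeff (t j) = 0) (ε : Fin d → ℂ) :
    (MvPowerSeries.subst (fun j => PowerSeries.C (ε j) * t j : Fin d → MvPowerSeries Unit ℂ) ζ :
      PowerSeries ℂ) =
    MvPowerSeries.subst (t : Fin d → MvPowerSeries Unit ℂ) (MvPowerSeries.rescale ε ζ) := by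
  have hs : MvPowerSeries.HasSubst (t : Fin d → MvPowerSeries Unit ℂ) := hasSubst_of_const ht
  rw [MvPowerSeries.rescale_eq_subst,
    MvPowerSeries.subst_comp_subst_apply (MvPowerSeries.HasSubst.smul_X ε) hs]
  congr 1
  funext j
  have h1 : (ε • MvPowerSeries.X : Fin d → MvPowerSeries (Fin d) ℂ) j =
      ε j • MvPowerSeries.X j := rfl
  rw [h1, MvPowerSeries.subst_smul hs, MvPowerSeries.subst_X hs]
  exact (MvPowerSeries.smul_eq_C_mul _ _).symm

theorem rescale_subst_arc (ζ : MvPowerSeries (Fin d) ℂ) {t : Fin d → PowerSeries ℂ}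
    (ht : ∀ j, PowerSeries.constantCoeff (t j) = 0) (ω : ℂ) :
    PowerSeries.rescale ω
      (MvPowerSeries.subst (t : Fin d → MvPowerSeries Unit ℂ) ζ : PowerSeries ℂ) =
    MvPowerSeries.subst (fun j => PowerSeries.rescale ω (t j) : Fin d → MvPowerSeries Unit ℂ) ζ := by
  have hs : MvPowerSeries.HasSubst (t : Fin d → MvPowerSeries Unit ℂ) := hasSubst_of_const ht
  have h1 : ∀ f : PowerSeries ℂ, PowerSeries.rescale ω f =
      MvPowerSeries.subst ((fun _ : Unit => ω) • MvPowerSeries.X : Unit → MvPowerSeries Unit ℂ)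
        (f : MvPowerSeries Unit ℂ) := by
    intro f
    rw [PowerSeries.rescale_eq, MvPowerSeries.rescale_eq_subst]
  rw [h1, MvPowerSeries.subst_comp_subst_apply hs (MvPowerSeries.HasSubst.smul_X _)]
  congr 1
  funext j
  exact (h1 (t j)).symm

/-- If `ζ(t)` and `ζ(εt)` agree to high order, `ε` fixes all terms of small weight. -/
theorem eps_of_dvd {E M : ℕ} {ζ : MvPowerSeries (Fin d) ℂ} (hst : Star E ζ) {k : Fin d → ℕ}
    (hk : ∀ j, 0 < k j) {t : Fin d → PowerSeries ℂ} (ht : ∀ j, PowerSeries.X ^ k j ∣ t j)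
    (htk : ∀ j, k j < M → ¬ PowerSeries.X ^ (k j + 1) ∣ t j) {ε : Fin d → ℂ}
    (hε : ∀ j, ε j ^ E = 1)
    (h : PowerSeries.X ^ M ∣
      (MvPowerSeries.subst (t : Fin d → MvPowerSeries Unit ℂ) ζ : PowerSeries ℂ) -
        (MvPowerSeries.subst (fun j => PowerSeries.C (ε j) * t j : Fin d → MvPowerSeries Unit ℂ) ζ :
          PowerSeries ℂ)) :
    ∀ a, MvPowerSeries.coeff a ζ ≠ 0 → wt k a < M → ∏ j, ε j ^ a j = 1 := by
  intro a ha haM
  by_contra hne
  rcases hst ε hε with h1 | ⟨L, hL0, hL1, hL⟩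
  · exact hne (h1 a ha)
  have ht0 : ∀ j, PowerSeries.constantCoeff (t j) = 0 := constantCoeff_of_dvd hk ht
  have hs : MvPowerSeries.HasSubst (t : Fin d → MvPowerSeries Unit ℂ) := hasSubst_of_const ht0
  rw [subst_smul_arc ζ ht0, ← MvPowerSeries.subst_sub hs] at h
  have hcoef : ∀ v, MvPowerSeries.coeff v (ζ - MvPowerSeries.rescale ε ζ) =
      (1 - ∏ j, ε j ^ v j) * MvPowerSeries.coeff v ζ := by
    intro v
    rw [map_sub, MvPowerSeries.coeff_rescale, Finsupp.prod_fintype _ _ (fun i => pow_zero _)]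
    ring
  have hLa : wt k L ≤ wt k a := by
    rw [wt, wt]
    exact Finset.sum_le_sum fun j _ => Nat.mul_le_mul le_rfl (hL a ha hne j)
  have hLM : wt k L < M := lt_of_le_of_lt hLa haM
  refine not_dvd_subst hk ht hLM (G := ζ - MvPowerSeries.rescale ε ζ) ?_ ?_ ?_ h
  · rw [hcoef]
    exact mul_ne_zero (sub_ne_zero.2 (Ne.symm hL1)) hL0
  · intro v hv
    rw [hcoef] at hv
    exact hL v (right_ne_zero_of_mul hv) fun h1 => (left_ne_zero_of_mul hv) (by rw [h1, sub_self])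
  · intro j hj
    apply htk
    refine lt_of_le_of_lt ?_ hLM
    rw [wt]
    refine le_trans ?_ (Finset.single_le_sum (f := fun j => k j * L j) (fun _ _ => Nat.zero_le _)
      (Finset.mem_univ j))
    exact Nat.le_mul_of_pos_right _ (Nat.pos_of_ne_zero hj)

/-! ### Roots of arcs -/

theorem root_unique_eq {E : ℕ} (hE : 0 < E) {a b : PowerSeries ℂ}
    (ha : PowerSeries.constantCoeff a ≠ 0) (hb : PowerSeries.constantCoeff b ≠ 0)
    (h : a ^ E = b ^ E) : ∃ ε : ℂ, ε ^ E = 1 ∧ a = PowerSeries.C ε * b := by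
  have h0 : PowerSeries.constantCoeff a ^ E = PowerSeries.constantCoeff b ^ E := by
    rw [← map_pow, ← map_pow, h]
  refine ⟨PowerSeries.constantCoeff a / PowerSeries.constantCoeff b, ?_, ?_⟩
  · rw [div_pow, h0, div_self (pow_ne_zero _ hb)]
  · rw [← sub_eq_zero]
    by_contra hne
    have key : ∀ M : ℕ, (PowerSeries.X : PowerSeries ℂ) ^ (M + 1) ∣ a - PowerSeries.C
        (PowerSeries.constantCoeff a / PowerSeries.constantCoeff b) * b := by
      intro M
      obtain ⟨ε, hε, hd⟩ := root_unique hE (M := M + 1) ha hb (by rw [h, sub_self]; exact dvd_zero _)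
      have h1 := PowerSeries.X_dvd_iff.1 ((dvd_pow_self _ (Nat.succ_ne_zero M)).trans hd)
      rw [map_sub, map_mul, PowerSeries.constantCoeff_C, sub_eq_zero] at h1
      rw [h1, mul_div_assoc, div_self hb, mul_one]
      exact hd
    apply hne
    ext M
    rw [map_zero]
    exact PowerSeries.X_pow_dvd_iff.1 (key M) M (Nat.lt_succ_self M)

theorem expand_X_pow_mul {E : ℕ} (hE : E ≠ 0) (k : ℕ) (f : PowerSeries ℂ) :
    PowerSeries.expand E hE (PowerSeries.X ^ k * f) =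
      (PowerSeries.X : PowerSeries ℂ) ^ (E * k) * PowerSeries.expand E hE f := by
  rw [map_mul, map_pow, PowerSeries.expand_X, ← pow_mul]

/-- `E`-th roots of `x(t^E)` are powers of `t` times power series in `t^E`. -/
theorem exists_unram {E : ℕ} (hE : E ≠ 0) {x t ξ : PowerSeries ℂ} {k : ℕ}
    (hx : x = PowerSeries.X ^ k * ξ) (hξ : PowerSeries.constantCoeff ξ ≠ 0)
    (ht : t ^ E = PowerSeries.expand E hE x) :
    ∃ η : PowerSeries ℂ, t = PowerSeries.X ^ k * PowerSeries.expand E hE η ∧ η ^ E = ξ ∧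
      PowerSeries.constantCoeff η ≠ 0 := by
  have hE0 : 0 < E := Nat.pos_of_ne_zero hE
  obtain ⟨η₀, hη₀⟩ := exists_root hE0 ξ hξ
  have hη₀c : PowerSeries.constantCoeff η₀ ≠ 0 := by
    intro h
    apply hξ
    rw [← hη₀, map_pow, h, zero_pow hE]
  set s : PowerSeries ℂ := PowerSeries.X ^ k * PowerSeries.expand E hE η₀ with hs
  have hsE : s ^ E = t ^ E := by
    rw [ht, hx, expand_X_pow_mul, hs, mul_pow, ← pow_mul, ← map_pow, hη₀, mul_comm k E]
  have hs0 : s ≠ 0 := by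
    rw [hs]
    refine mul_ne_zero (pow_ne_zero _ PowerSeries.X_ne_zero) fun h => ?_
    apply hη₀c
    rw [← PowerSeries.constantCoeff_expand E hE η₀, h, map_zero]
  have hdvd : s ∣ t ∧ t ∣ s :=
    ⟨(IsIntegrallyClosed.pow_dvd_pow_iff hE).1 (dvd_of_eq hsE),
      (IsIntegrallyClosed.pow_dvd_pow_iff hE).1 (dvd_of_eq hsE.symm)⟩
  obtain ⟨u, hu⟩ := associated_of_dvd_dvd hdvd.1 hdvd.2
  have huE : (u : PowerSeries ℂ) ^ E = 1 ^ E := by
    have h1 : s ^ E * (u : PowerSeries ℂ) ^ E = s ^ E * 1 ^ E := by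
      rw [← mul_pow, hu, one_pow, mul_one, hsE]
    exact mul_left_cancel₀ (pow_ne_zero _ hs0) h1
  obtain ⟨ε, hε, hεu⟩ := root_unique_eq hE0 (constantCoeff_unit u)
    (by rw [map_one]; exact one_ne_zero) huE
  have hε0 : ε ≠ 0 := by
    intro h
    rw [h, zero_pow hE] at hε
    exact zero_ne_one hε
  refine ⟨PowerSeries.C ε * η₀, ?_, ?_, ?_⟩
  · rw [← hu, hεu, mul_one, map_mul, PowerSeries.expand_C, hs]
    ring
  · rw [mul_pow, ← map_pow, hε, map_one, one_mul, hη₀]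
  · rw [map_mul, PowerSeries.constantCoeff_C]
    exact mul_ne_zero hε0 hη₀c

/-- The `x`-part of an arc. -/
def xPart {N : ℕ} (γ : Fin (d + 1) × Fin N → ℂ) : Fin d × Fin N → ℂ :=
  fun p => γ (p.1.castSucc, p.2)

theorem arc_xPart {N : ℕ} (γ : Fin (d + 1) × Fin N → ℂ) (j : Fin d) :
    arc (xPart γ) j = arc γ j.castSucc := rfl

/-- The arcs `t_j = σ^(k_j) η_j(σ^E)`. -/
def tOf {E : ℕ} (hE : E ≠ 0) (k : Fin d → ℕ) (η : Fin d → PowerSeries ℂ) :
    Fin d → PowerSeries ℂ :=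
  fun j => PowerSeries.X ^ k j * PowerSeries.expand E hE (η j)

/-- `η_j` is a unit for `k_j < N` and zero for `k_j = N`. -/
structure UAdm (N : ℕ) (k : Fin d → ℕ) (η : Fin d → PowerSeries ℂ) : Prop where
  unit : ∀ j, k j < N → PowerSeries.constantCoeff (η j) ≠ 0
  zero : ∀ j, k j = N → η j = 0

theorem X_pow_dvd_tOf {E : ℕ} (hE : E ≠ 0) (k : Fin d → ℕ) (η : Fin d → PowerSeries ℂ)
    (j : Fin d) : PowerSeries.X ^ k j ∣ tOf hE k η j := dvd_mul_right _ _

theorem not_dvd_tOf {E : ℕ} (hE : E ≠ 0) {N : ℕ} {k : Fin d → ℕ} {η : Fin d → PowerSeries ℂ}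
    (hη : UAdm N k η) {j : Fin d} (hj : k j < N) : ¬ PowerSeries.X ^ (k j + 1) ∣ tOf hE k η j := by
  intro h
  unfold tOf at h
  rw [pow_succ] at h
  have h1 := (mul_dvd_mul_iff_left (pow_ne_zero _ PowerSeries.X_ne_zero)).1 h
  have h2 := PowerSeries.X_dvd_iff.1 h1
  rw [PowerSeries.constantCoeff_expand] at h2
  exact hη.unit j hj h2

theorem exists_adm {E : ℕ} (hE : E ≠ 0) {N : ℕ} {k : Fin d → ℕ} (hkN : ∀ j, k j ≤ N)
    {γ : Fin (d + 1) × Fin N → ℂ} (hγ : xPart γ ∈ Strat N k) {t : Fin d → PowerSeries ℂ}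
    (ht : ∀ j, t j ^ E = PowerSeries.expand E hE (arc γ j.castSucc)) :
    ∃ η, UAdm N k η ∧ t = tOf hE k η ∧
      ∀ j, arc γ j.castSucc = PowerSeries.X ^ k j * η j ^ E := by
  have hx : ∀ j, ∃ η : PowerSeries ℂ, (k j < N → PowerSeries.constantCoeff η ≠ 0) ∧
      (k j = N → η = 0) ∧ t j = PowerSeries.X ^ k j * PowerSeries.expand E hE η ∧
      arc γ j.castSucc = PowerSeries.X ^ k j * η ^ E := by
    intro j
    rcases lt_or_eq_of_le (hkN j) with hj | hj
    · have h1 : PowerSeries.X ^ k j ∣ arc γ j.castSucc := by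
        rw [PowerSeries.X_pow_dvd_iff]
        intro i hi
        rw [coeff_arc]
        split_ifs with h
        · exact hγ.1 j ⟨i, h⟩ hi
        · rfl
      obtain ⟨ξ, hξ⟩ := h1
      have h2 : PowerSeries.constantCoeff ξ ≠ 0 := by
        have h3 := hγ.2 j hj
        unfold lead0 at h3
        rw [dif_pos hj] at h3
        intro h4
        apply h3
        have h5 : PowerSeries.coeff (k j) (arc γ j.castSucc) = 0 := by
          rw [hξ, PowerSeries.coeff_X_pow_mul', if_pos le_rfl, Nat.sub_self,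
            PowerSeries.coeff_zero_eq_constantCoeff_apply, h4]
        rw [coeff_arc, dif_pos hj] at h5
        exact h5
      obtain ⟨η, h3, h4, h5⟩ := exists_unram hE hξ h2 (ht j)
      exact ⟨η, fun _ => h5, fun h => absurd h hj.ne, h3, by rw [h4]; exact hξ⟩
    · have h1 : arc γ j.castSucc = 0 := by
        ext i
        rw [coeff_arc, map_zero]
        split_ifs with h
        · exact hγ.1 j ⟨i, h⟩ (by show i < k j; omega)
        · rfl
      refine ⟨0, fun h => absurd hj h.ne, fun _ => rfl, ?_, ?_⟩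
      · rw [map_zero, mul_zero]
        have h2 := ht j
        rw [h1, map_zero] at h2
        exact pow_eq_zero_iff hE |>.1 h2
      · rw [zero_pow hE, mul_zero, h1]
  choose η h1 h2 h3 h4 using hx
  exact ⟨η, ⟨h1, h2⟩, funext h3, h4⟩

theorem mem_Strat_of_adm {N : ℕ} {k : Fin d → ℕ} {γ : Fin (d + 1) × Fin N → ℂ}
    (h : ∀ j, k j < N → ∃ ξ, arc γ j.castSucc = PowerSeries.X ^ k j * ξ ∧
      PowerSeries.constantCoeff ξ ≠ 0) (h0 : ∀ j, k j = N → arc γ j.castSucc = 0)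
    (hkN : ∀ j, k j ≤ N) : xPart γ ∈ Strat N k := by
  have hc : ∀ (j : Fin d) (i : Fin N), γ (j.castSucc, i) =
      PowerSeries.coeff (i : ℕ) (arc γ j.castSucc) := by
    intro j i
    rw [coeff_arc, dif_pos i.2]
  constructor
  · intro j i hi
    show γ (j.castSucc, i) = 0
    rw [hc]
    rcases lt_or_eq_of_le (hkN j) with hj | hj
    · obtain ⟨ξ, h1, -⟩ := h j hj
      rw [h1, PowerSeries.coeff_X_pow_mul', if_neg (not_le.2 hi)]
    · rw [h0 j hj, map_zero]
  · intro j hj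
    obtain ⟨ξ, h1, h2⟩ := h j hj
    unfold lead0
    rw [dif_pos hj]
    show γ (j.castSucc, ⟨k j, hj⟩) ≠ 0
    rw [hc, h1, PowerSeries.coeff_X_pow_mul', if_pos le_rfl]
    simpa using h2

theorem tOf_pow {E : ℕ} (hE : E ≠ 0) (k : Fin d → ℕ) (η : Fin d → PowerSeries ℂ) (j : Fin d) :
    tOf hE k η j ^ E = PowerSeries.expand E hE (PowerSeries.X ^ k j * η j ^ E) := by
  unfold tOf
  rw [expand_X_pow_mul, mul_pow, ← pow_mul, ← map_pow, mul_comm (k j) E]

theorem mem_Ball_iff {E : ℕ} (hE : E ≠ 0) {N : ℕ} {ζ : MvPowerSeries (Fin d) ℂ} {k : Fin d → ℕ}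
    (hkN : ∀ j, k j ≤ N) {h : ℕ} {γ : Fin (d + 1) × Fin N → ℂ} :
    γ ∈ Ball E hE N ζ k h ↔ ∃ η : Fin d → PowerSeries ℂ, UAdm N k η ∧
      (∀ j, arc γ j.castSucc = PowerSeries.X ^ k j * η j ^ E) ∧
      PowerSeries.X ^ (E * h) ∣ PowerSeries.expand E hE (arc γ (Fin.last d)) -
        (MvPowerSeries.subst (tOf hE k η : Fin d → MvPowerSeries Unit ℂ) ζ : PowerSeries ℂ) := by
  constructor
  · rintro ⟨h1, t, ht, h2⟩
    obtain ⟨η, hη, rfl, h3⟩ := exists_adm hE hkN h1 ht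
    exact ⟨η, hη, h3, h2⟩
  · rintro ⟨η, hη, h1, h2⟩
    refine ⟨mem_Strat_of_adm (fun j hj => ⟨η j ^ E, h1 j, ?_⟩) (fun j hj => ?_) hkN,
      tOf hE k η, fun j => ?_, h2⟩
    · rw [map_pow]
      exact pow_ne_zero _ (hη.unit j hj)
    · rw [h1 j, hη.zero j hj, zero_pow hE, mul_zero]
    · rw [tOf_pow, h1 j]

/-! ### The integral part -/

theorem rescale_expand {E : ℕ} (hE : E ≠ 0) {ω : ℂ} (hω : ω ^ E = 1) (f : PowerSeries ℂ) :
    PowerSeries.rescale ω (PowerSeries.expand E hE f) = PowerSeries.expand E hE f := by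
  ext n
  rw [PowerSeries.coeff_rescale]
  by_cases h : E ∣ n
  · obtain ⟨q, rfl⟩ := h
    rw [pow_mul, hω, one_pow, one_mul]
  · rw [PowerSeries.coeff_expand_of_not_dvd E hE f h, mul_zero]

theorem rescale_dvd {ω : ℂ} {M : ℕ} {f : PowerSeries ℂ} (h : PowerSeries.X ^ M ∣ f) :
    PowerSeries.X ^ M ∣ PowerSeries.rescale ω f := by
  rw [PowerSeries.X_pow_dvd_iff] at h ⊢
  intro i hi
  rw [PowerSeries.coeff_rescale, h i hi, mul_zero]

/-- A ball is empty unless the terms of `ζ` of small weight are integral. -/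
theorem Ball_integral {E : ℕ} (hE : E ≠ 0) {N : ℕ} {ζ : MvPowerSeries (Fin d) ℂ}
    (hst : Star E ζ) {k : Fin d → ℕ} (hk : ∀ j, 0 < k j) (hkN : ∀ j, k j ≤ N) {h : ℕ}
    (hN : E * h ≤ N) {γ : Fin (d + 1) × Fin N → ℂ} (hγ : γ ∈ Ball E hE N ζ k h) :
    ∀ a, MvPowerSeries.coeff a ζ ≠ 0 → wt k a < E * h → E ∣ wt k a := by
  obtain ⟨η, hη, -, hd⟩ := (mem_Ball_iff hE hkN).1 hγ
  have hprim := Complex.isPrimitiveRoot_exp E hE
  set ω := Complex.exp (2 * Real.pi * Complex.I / E) with hω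
  have hωE : ω ^ E = 1 := hprim.pow_eq_one
  have ht0 : ∀ j, PowerSeries.constantCoeff (tOf hE k η j) = 0 :=
    constantCoeff_of_dvd hk (X_pow_dvd_tOf hE k η)
  have hresc : ∀ j, PowerSeries.rescale ω (tOf hE k η j) =
      PowerSeries.C (ω ^ k j) * tOf hE k η j := by
    intro j
    unfold tOf
    rw [map_mul, map_pow, PowerSeries.rescale_X, rescale_expand hE hωE, mul_pow, ← map_pow,
      mul_assoc]
  have h1 := rescale_dvd (ω := ω) hd
  rw [map_sub, rescale_expand hE hωE, rescale_subst_arc ζ ht0] at h1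
  have h2 := dvd_sub h1 hd
  have h3 : ∀ a b c : PowerSeries ℂ, a - b - (a - c) = c - b := fun a b c => by ring
  rw [h3] at h2
  have h4 := eps_of_dvd hst hk (X_pow_dvd_tOf hE k η)
    (fun j hj => not_dvd_tOf hE hη (lt_of_lt_of_le hj hN)) (ε := fun j => ω ^ k j)
    (fun j => by rw [← pow_mul, mul_comm, pow_mul, hωE, one_pow])
    (by
      have h5 : (fun j => PowerSeries.rescale ω (tOf hE k η j)) =
          fun j => PowerSeries.C (ω ^ k j) * tOf hE k η j := funext hresc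
      rw [← h5]
      exact h2)
  intro a ha haM
  have h5 := h4 a ha haM
  rw [← hprim.pow_eq_one_iff_dvd]
  rw [← h5, wt, ← Finset.prod_pow_eq_pow_sum]
  refine Finset.prod_congr rfl fun j _ => ?_
  rw [pow_mul]

/-- The integral part of `ζ(t)`: the terms of weight `< E h`. -/
def intP (E : ℕ) (ζ : MvPowerSeries (Fin d) ℂ) (k : Fin d → ℕ) (h : ℕ)
    (η : Fin d → PowerSeries ℂ) : PowerSeries ℂ :=
  ∑ a ∈ (trW k (E * h) ζ).support, PowerSeries.C (MvPowerSeries.coeff a ζ) *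
    PowerSeries.X ^ (wt k a / E) * ∏ j, η j ^ a j

theorem mem_support_trW {E : ℕ} {ζ : MvPowerSeries (Fin d) ℂ} {k : Fin d → ℕ}
    (hk : ∀ j, 0 < k j) {h : ℕ} {a : Fin d →₀ ℕ} :
    a ∈ (trW k (E * h) ζ).support ↔ MvPowerSeries.coeff a ζ ≠ 0 ∧ wt k a < E * h := by
  rw [mem_support_iff, coeff_trW hk]
  split_ifs with h1
  · exact ⟨fun h2 => ⟨h2, h1⟩, fun h2 => h2.1⟩
  · exact ⟨fun h2 => absurd rfl h2, fun h2 => absurd h2.2 h1⟩

theorem subst_tOf {E : ℕ} (hE : E ≠ 0) {ζ : MvPowerSeries (Fin d) ℂ} {k : Fin d → ℕ}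
    (hk : ∀ j, 0 < k j) {h : ℕ}
    (hint : ∀ a, MvPowerSeries.coeff a ζ ≠ 0 → wt k a < E * h → E ∣ wt k a)
    (η : Fin d → PowerSeries ℂ) :
    PowerSeries.X ^ (E * h) ∣
      (MvPowerSeries.subst (tOf hE k η : Fin d → MvPowerSeries Unit ℂ) ζ : PowerSeries ℂ) -
        PowerSeries.expand E hE (intP E ζ k h η) := by
  have h1 := subst_trW ζ (E * h) hk (X_pow_dvd_tOf hE k η)
  have h2 : (aeval (tOf hE k η) (trW k (E * h) ζ) : PowerSeries ℂ) =
      PowerSeries.expand E hE (intP E ζ k h η) := by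
    rw [aeval_def, eval₂_eq']
    unfold intP
    rw [map_sum]
    refine Finset.sum_congr rfl fun a ha => ?_
    obtain ⟨h3, h4⟩ := (mem_support_trW hk).1 ha
    obtain ⟨q, hq⟩ := hint a h3 h4
    rw [coeff_trW hk, if_pos h4, map_mul, map_mul, map_pow, PowerSeries.expand_X,
      PowerSeries.expand_C, map_prod, hq, Nat.mul_div_cancel_left _ (Nat.pos_of_ne_zero hE),
      ← pow_mul, ← hq, wt, ← Finset.prod_pow_eq_pow_sum, mul_assoc, ← Finset.prod_mul_distrib]
    congr 1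
    refine Finset.prod_congr rfl fun j _ => ?_
    unfold tOf
    rw [mul_pow, ← pow_mul, map_pow]
  rwa [h2] at h1

theorem expand_dvd_iff {E : ℕ} (hE : E ≠ 0) {h : ℕ} {f : PowerSeries ℂ} :
    PowerSeries.X ^ (E * h) ∣ PowerSeries.expand E hE f ↔ PowerSeries.X ^ h ∣ f := by
  rw [PowerSeries.X_pow_dvd_iff, PowerSeries.X_pow_dvd_iff]
  constructor
  · intro h1 i hi
    have := h1 (E * i) ((Nat.mul_lt_mul_left (Nat.pos_of_ne_zero hE)).2 hi)
    rwa [PowerSeries.coeff_expand_mul] at this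
  · intro h1 i hi
    by_cases hi' : E ∣ i
    · obtain ⟨q, rfl⟩ := hi'
      rw [PowerSeries.coeff_expand_mul]
      exact h1 q ((Nat.mul_lt_mul_left (Nat.pos_of_ne_zero hE)).1 hi)
    · exact PowerSeries.coeff_expand_of_not_dvd E hE f hi'

/-- The ball in terms of the integral part. -/
theorem dvd_iff_PP {E : ℕ} (hE : E ≠ 0) {ζ : MvPowerSeries (Fin d) ℂ} {k : Fin d → ℕ}
    (hk : ∀ j, 0 < k j) {h : ℕ}
    (hint : ∀ a, MvPowerSeries.coeff a ζ ≠ 0 → wt k a < E * h → E ∣ wt k a)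
    (η : Fin d → PowerSeries ℂ) (z : PowerSeries ℂ) :
    PowerSeries.X ^ (E * h) ∣ PowerSeries.expand E hE z -
      (MvPowerSeries.subst (tOf hE k η : Fin d → MvPowerSeries Unit ℂ) ζ : PowerSeries ℂ) ↔
      PowerSeries.X ^ h ∣ z - intP E ζ k h η := by
  have h1 := subst_tOf hE hk hint η
  rw [← expand_dvd_iff hE (f := z - intP E ζ k h η), map_sub]
  have h3 : ∀ a b c : PowerSeries ℂ, a - c = a - b + (b - c) := fun a b c => by ring
  rw [h3 (PowerSeries.expand E hE z) (MvPowerSeries.subst (tOf hE k η) ζ : PowerSeries ℂ)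
    (PowerSeries.expand E hE (intP E ζ k h η)), dvd_add_left h1]

end QO

end MPb07157
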