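import Pool.Agent.Lib.MP_b07157_agO.PB2
import Pool.Agent.Lib.MP_b07157_agV.B1

/-!
# Balls around ramified series, in the coordinates `x_j / τ^(k_j)`
-/

noncomputable section

namespace MPb07157

open MvPolynomial

namespace QO

variable {d : ℕ}

/-- The shift of the coordinates `x`. -/
def cK (k : Fin d → ℕ) : Fin (d + 1) → ℕ := Fin.lastCases 0 k

theorem cK_castSucc (k : Fin d → ℕ) (j : Fin d) : cK k j.castSucc = k j := by
  unfold cK
  rw [Fin.lastCases_castSucc]

theorem cK_last (k : Fin d → ℕ) : cK k (Fin.last d) = 0 := by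
  unfold cK
  rw [Fin.lastCases_last]

theorem exists_root_near {E : ℕ} (hE : 0 < E) {M : ℕ} {a η : PowerSeries ℂ}
    (ha : PowerSeries.constantCoeff a ≠ 0) (hη : PowerSeries.constantCoeff η ≠ 0)
    (h : PowerSeries.X ^ M ∣ a - η ^ E) :
    ∃ η' : PowerSeries ℂ, η' ^ E = a ∧ PowerSeries.constantCoeff η' ≠ 0 ∧
      PowerSeries.X ^ M ∣ η' - η := by
  obtain ⟨η₀, h0⟩ := exists_root hE a ha
  have hη₀ : PowerSeries.constantCoeff η₀ ≠ 0 := by
    intro h1
    apply ha
    rw [← h0, map_pow, h1, zero_pow hE.ne']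
  obtain ⟨ε, hε, h1⟩ := root_unique hE (M := M) hη hη₀ (by
    rw [h0, ← neg_sub]
    exact (dvd_neg).2 h)
  have hε0 : ε ≠ 0 := by
    intro h
    rw [h, zero_pow hE.ne'] at hε
    exact zero_ne_one hε
  refine ⟨PowerSeries.C ε * η₀, ?_, ?_, ?_⟩
  · rw [mul_pow, ← map_pow, hε, map_one, one_mul, h0]
  · rw [map_mul, PowerSeries.constantCoeff_C]
    exact mul_ne_zero hε0 hη₀
  · rw [← neg_sub]
    exact (dvd_neg).2 h1

/-- The integral part depends only on `η_j` modulo `τ ^ (N - k_j)`. -/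
theorem intP_congr {E : ℕ} (hE : E ≠ 0) {N : ℕ} {ζ : MvPowerSeries (Fin d) ℂ} {k : Fin d → ℕ}
    (hk : ∀ j, 0 < k j) (hkN : ∀ j, k j ≤ N) {h : ℕ} (hN : E * h ≤ N)
    (hint : ∀ a, MvPowerSeries.coeff a ζ ≠ 0 → wt k a < E * h → E ∣ wt k a)
    {η η' : Fin d → PowerSeries ℂ}
    (hη : ∀ j, k j < N → PowerSeries.X ^ (N - k j) ∣ η j - η' j) :
    PowerSeries.X ^ h ∣ intP E ζ k h η - intP E ζ k h η' := by
  have h1 := subst_tOf hE hk hint η
  have h2 := subst_tOf hE hk hint η'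
  have h3 := subst_congr ζ (N := E * h) (constantCoeff_of_dvd hk (X_pow_dvd_tOf hE k η))
    (constantCoeff_of_dvd hk (X_pow_dvd_tOf hE k η')) (fun j => by
      have e : tOf hE k η j - tOf hE k η' j =
          PowerSeries.X ^ k j * PowerSeries.expand E hE (η j - η' j) := by
        unfold tOf
        rw [map_sub, mul_sub]
      rw [e]
      rcases lt_or_eq_of_le (hkN j) with hj | hj
      · obtain ⟨g, hg⟩ := hη j hj
        rw [hg, expand_X_pow_mul, ← mul_assoc, ← pow_add]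
        refine Dvd.dvd.mul_right (pow_dvd_pow _ (hN.trans ?_)) _
        have := Nat.le_mul_of_pos_left (N - k j) (Nat.pos_of_ne_zero hE)
        omega
      · rw [hj]
        exact Dvd.dvd.mul_right (pow_dvd_pow _ hN) _)
  rw [← expand_dvd_iff hE, map_sub]
  have h4 : ∀ s s' e e' : PowerSeries ℂ, s - s' - (s - e) + (s' - e') = e - e' := by
    intro s s' e e'
    ring
  have h5 := dvd_add (dvd_sub h3 h1) h2
  rw [h4] at h5
  exact h5

theorem coeff_arc_ge {n N : ℕ} (γ : Fin n × Fin N → ℂ) (j : Fin n) {i : ℕ} (hi : N ≤ i) :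
    PowerSeries.coeff i (arc γ j) = 0 := by
  rw [coeff_arc, dif_neg (not_lt.2 hi)]

theorem arc_shA_last {N : ℕ} (k : Fin d → ℕ) (Z : Fin (d + 1) × Fin N → ℂ) :
    arc (PC.B1.shA (cK k) Z) (Fin.last d) = arc Z (Fin.last d) := by
  have h := PC.B1.arc_shA (cK k) Z (Fin.last d)
  rw [cK_last, pow_zero, one_mul, PowerSeries.X_pow_dvd_iff] at h
  ext i
  rcases lt_or_ge i N with hi | hi
  · have := h i hi
    rwa [map_sub, sub_eq_zero] at this
  · rw [coeff_arc_ge _ _ hi, coeff_arc_ge _ _ hi]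

theorem constantCoeff_ne_of_dvd {M : ℕ} (hM : 0 < M) {a b : PowerSeries ℂ}
    (h : PowerSeries.X ^ M ∣ a - b) (hb : PowerSeries.constantCoeff b ≠ 0) :
    PowerSeries.constantCoeff a ≠ 0 := by
  have h1 := PowerSeries.X_dvd_iff.1 ((dvd_pow_self _ hM.ne').trans h)
  rw [map_sub, sub_eq_zero] at h1
  rwa [h1]

/-- The ball in the coordinates `x_j / τ^(k_j)`. -/
theorem shA_mem_Ball_iff {E : ℕ} (hE : E ≠ 0) {N : ℕ} {ζ : MvPowerSeries (Fin d) ℂ}
    {k : Fin d → ℕ} (hk : ∀ j, 0 < k j) (hkN : ∀ j, k j ≤ N) {h : ℕ} (hN : E * h ≤ N)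
    (hint : ∀ a, MvPowerSeries.coeff a ζ ≠ 0 → wt k a < E * h → E ∣ wt k a)
    {Z : Fin (d + 1) × Fin N → ℂ} :
    PC.B1.shA (cK k) Z ∈ Ball E hE N ζ k h ↔ ∃ η : Fin d → PowerSeries ℂ,
      (∀ j, k j < N → PowerSeries.constantCoeff (η j) ≠ 0 ∧
        PowerSeries.X ^ N ∣ arc Z j.castSucc - η j ^ E) ∧
      PowerSeries.X ^ h ∣ arc Z (Fin.last d) - intP E ζ k h η := by
  have hE0 : 0 < E := Nat.pos_of_ne_zero hE
  have hsh : ∀ j : Fin d, PowerSeries.X ^ N ∣
      arc (PC.B1.shA (cK k) Z) j.castSucc - PowerSeries.X ^ k j * arc Z j.castSucc := by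
    intro j
    have := PC.B1.arc_shA (cK k) Z j.castSucc
    rwa [cK_castSucc] at this
  have hcan : ∀ (j : Fin d) (f g : PowerSeries ℂ), PowerSeries.X ^ N ∣
      PowerSeries.X ^ k j * f - PowerSeries.X ^ k j * g → PowerSeries.X ^ (N - k j) ∣ f - g := by
    intro j f g h1
    have h2 : (PowerSeries.X : PowerSeries ℂ) ^ N =
        PowerSeries.X ^ k j * PowerSeries.X ^ (N - k j) := by
      rw [← pow_add, Nat.add_sub_cancel' (hkN j)]
    rw [h2, ← mul_sub] at h1
    exact (mul_dvd_mul_iff_left (pow_ne_zero _ PowerSeries.X_ne_zero)).1 h1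
  constructor
  · intro hB
    obtain ⟨η, hη, h1, h2⟩ := (mem_Ball_iff hE hkN).1 hB
    rw [arc_shA_last] at h2
    have h3 : PowerSeries.X ^ h ∣ arc Z (Fin.last d) - intP E ζ k h η :=
      (dvd_iff_PP hE hk hint η _).1 h2
    have h4 : ∀ j, ∃ η' : PowerSeries ℂ, k j < N → η' ^ E = arc Z j.castSucc ∧
        PowerSeries.constantCoeff η' ≠ 0 ∧ PowerSeries.X ^ (N - k j) ∣ η' - η j := by
      intro j
      by_cases hj : k j < N
      · have h5 := hsh j
        rw [h1 j] at h5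
        have h6 := hcan j _ _ h5
        rw [← dvd_neg, neg_sub] at h6
        have h7 := constantCoeff_ne_of_dvd (Nat.sub_pos_of_lt hj) h6 (by
          rw [map_pow]
          exact pow_ne_zero _ (hη.unit j hj))
        obtain ⟨η', h8, h9, h10⟩ := exists_root_near hE0 h7 (hη.unit j hj) h6
        exact ⟨η', fun _ => ⟨h8, h9, h10⟩⟩
      · exact ⟨0, fun h => absurd h hj⟩
    choose η' h5 using h4
    refine ⟨η', fun j hj => ⟨(h5 j hj).2.1, by rw [(h5 j hj).1, sub_self]; exact dvd_zero _⟩, ?_⟩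
    have h6 := intP_congr hE hk hkN hN hint (η := η') (η' := η) fun j hj => (h5 j hj).2.2
    have h7 := dvd_sub h3 h6
    have h8 : ∀ z a b : PowerSeries ℂ, z - a - (b - a) = z - b := fun z a b => by ring
    rwa [h8] at h7
  · rintro ⟨η, h1, h2⟩
    have h3 : ∀ j, ∃ η' : PowerSeries ℂ, (k j < N → PowerSeries.constantCoeff η' ≠ 0) ∧
        (k j = N → η' = 0) ∧
        arc (PC.B1.shA (cK k) Z) j.castSucc = PowerSeries.X ^ k j * η' ^ E ∧
        (k j < N → PowerSeries.X ^ (N - k j) ∣ η' - η j) := by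
      intro j
      have h4 := arc_eq_tail (PC.B1.Vn_shA (cK k) Z) j.castSucc
      rw [cK_castSucc] at h4
      rcases lt_or_eq_of_le (hkN j) with hj | hj
      · have h5 := hsh j
        rw [h4] at h5
        have h6 := hcan j _ _ h5
        have h7 := dvd_add h6 ((pow_dvd_pow _ (Nat.sub_le N (k j))).trans (h1 j hj).2)
        rw [sub_add_sub_cancel] at h7
        have h8 := constantCoeff_ne_of_dvd (Nat.sub_pos_of_lt hj) h7 (by
          rw [map_pow]
          exact pow_ne_zero _ (h1 j hj).1)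
        obtain ⟨η', h9, h10, h11⟩ := exists_root_near hE0 h8 (h1 j hj).1 h7
        exact ⟨η', fun _ => h10, fun h => absurd h hj.ne, by rw [h4, h9], fun _ => h11⟩
      · refine ⟨0, fun h => absurd hj h.ne, fun _ => rfl, ?_, fun h => absurd hj h.ne⟩
        rw [zero_pow hE, mul_zero]
        ext i
        rw [map_zero]
        rcases lt_or_ge i N with hi | hi
        · rw [h4, PowerSeries.coeff_X_pow_mul', if_neg (by omega)]
        · exact coeff_arc_ge _ _ hi
    choose η' h4 h5 h6 h7 using h3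
    refine (mem_Ball_iff hE hkN).2 ⟨η', ⟨h4, h5⟩, h6, ?_⟩
    rw [arc_shA_last]
    refine (dvd_iff_PP hE hk hint η' _).2 ?_
    have h8 := intP_congr hE hk hkN hN hint (η := η') (η' := η) h7
    have h9 := dvd_sub h2 h8
    have h10 : ∀ z a b : PowerSeries ℂ, z - a - (b - a) = z - b := fun z a b => by ring
    rwa [h10] at h9

end QO

end MPb07157
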