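import Pool.Agent.Lib.MP_b07157_agO.PB1

/-!
# Jets, monomials, and the lattice of a ball
-/

noncomputable section

namespace MPb07157

open MvPolynomial

namespace QO

variable {d r N : ℕ} {ι : Type}

/-! ### Truncated series -/

/-- Truncated series. -/
def garc (γ : ι × Fin N → ℂ) (i : ι) : PowerSeries ℂ :=
  PowerSeries.mk fun s => if h : s < N then γ (i, ⟨s, h⟩) else 0

theorem coeff_garc (γ : ι × Fin N → ℂ) (i : ι) (s : ℕ) :
    PowerSeries.coeff s (garc γ i) = if h : s < N then γ (i, ⟨s, h⟩) else 0 :=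
  PowerSeries.coeff_mk _ _

theorem garc_eq_arc {n : ℕ} (γ : Fin n × Fin N → ℂ) (i : Fin n) : garc γ i = arc γ i := by
  ext s
  rw [coeff_garc, coeff_arc]

theorem garc_dvd {γ : ι × Fin N → ℂ} {i : ι} {g : PowerSeries ℂ}
    (h : ∀ s : Fin N, γ (i, s) = PowerSeries.coeff (s : ℕ) g) :
    PowerSeries.X ^ N ∣ garc γ i - g := by
  rw [PowerSeries.X_pow_dvd_iff]
  intro s hs
  rw [map_sub, coeff_garc, dif_pos hs, h ⟨s, hs⟩, sub_self]

theorem coord_of_dvd {γ γ' : ι × Fin N → ℂ} {i i' : ι}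
    (h : PowerSeries.X ^ N ∣ garc γ i - garc γ' i') (s : Fin N) : γ (i, s) = γ' (i', s) := by
  have h1 := PowerSeries.X_pow_dvd_iff.1 h s s.2
  rwa [map_sub, coeff_garc, coeff_garc, dif_pos s.2, dif_pos s.2, sub_eq_zero] at h1

/-- The coefficients of `F(γ)` are polynomials in `γ`. -/
def IsJP (F : (ι × Fin N → ℂ) → PowerSeries ℂ) : Prop :=
  ∀ s : ℕ, ∃ P : MvPolynomial (ι × Fin N) ℂ, ∀ γ, eval γ P = PowerSeries.coeff s (F γ)

theorem IsJP.const (f : PowerSeries ℂ) : IsJP (fun _ : ι × Fin N → ℂ => f) :=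
  fun s => ⟨C (PowerSeries.coeff s f), fun _ => eval_C _⟩

theorem IsJP.garc (i : ι) : IsJP (fun γ : ι × Fin N → ℂ => garc γ i) := by
  intro s
  by_cases h : s < N
  · exact ⟨X (i, ⟨s, h⟩), fun γ => by rw [eval_X, coeff_garc, dif_pos h]⟩
  · exact ⟨0, fun γ => by rw [map_zero, coeff_garc, dif_neg h]⟩

theorem IsJP.add {F G : (ι × Fin N → ℂ) → PowerSeries ℂ} (hF : IsJP F) (hG : IsJP G) :
    IsJP (fun γ => F γ + G γ) := by
  intro s
  obtain ⟨P, hP⟩ := hF s
  obtain ⟨Q, hQ⟩ := hG s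
  exact ⟨P + Q, fun γ => by rw [map_add, map_add, hP, hQ]⟩

theorem IsJP.sub {F G : (ι × Fin N → ℂ) → PowerSeries ℂ} (hF : IsJP F) (hG : IsJP G) :
    IsJP (fun γ => F γ - G γ) := by
  intro s
  obtain ⟨P, hP⟩ := hF s
  obtain ⟨Q, hQ⟩ := hG s
  exact ⟨P - Q, fun γ => by rw [map_sub, map_sub, hP, hQ]⟩

theorem IsJP.mul {F G : (ι × Fin N → ℂ) → PowerSeries ℂ} (hF : IsJP F) (hG : IsJP G) :
    IsJP (fun γ => F γ * G γ) := by
  intro s
  choose P hP using hF
  choose Q hQ using hG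
  refine ⟨∑ p ∈ Finset.HasAntidiagonal.antidiagonal s, P p.1 * Q p.2, fun γ => ?_⟩
  rw [map_sum, PowerSeries.coeff_mul]
  exact Finset.sum_congr rfl fun p _ => by rw [map_mul, hP, hQ]

theorem IsJP.pow {F : (ι × Fin N → ℂ) → PowerSeries ℂ} (hF : IsJP F) (n : ℕ) :
    IsJP (fun γ => F γ ^ n) := by
  induction n with
  | zero =>
    have : (fun γ => F γ ^ 0) = fun _ : ι × Fin N → ℂ => (1 : PowerSeries ℂ) := by
      funext γ
      exact pow_zero _
    rw [this]
    exact IsJP.const 1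
  | succ n ih =>
    have : (fun γ => F γ ^ (n + 1)) = fun γ => F γ ^ n * F γ := by
      funext γ
      exact pow_succ _ _
    rw [this]
    exact ih.mul hF

theorem IsJP.prod {α : Type} (s : Finset α) {F : α → (ι × Fin N → ℂ) → PowerSeries ℂ}
    (hF : ∀ a ∈ s, IsJP (F a)) : IsJP (fun γ => ∏ a ∈ s, F a γ) := by
  classical
  induction s using Finset.induction_on with
  | empty => simpa using IsJP.const (ι := ι) (N := N) 1
  | insert a s ha ih =>
    have h1 : (fun γ => ∏ b ∈ insert a s, F b γ) = fun γ => F a γ * ∏ b ∈ s, F b γ := by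
      funext γ
      exact Finset.prod_insert ha
    rw [h1]
    exact (hF a (Finset.mem_insert_self a s)).mul
      (ih fun b hb => hF b (Finset.mem_insert_of_mem hb))

theorem IsJP.sum {α : Type} (s : Finset α) {F : α → (ι × Fin N → ℂ) → PowerSeries ℂ}
    (hF : ∀ a ∈ s, IsJP (F a)) : IsJP (fun γ => ∑ a ∈ s, F a γ) := by
  classical
  induction s using Finset.induction_on with
  | empty => simpa using IsJP.const (ι := ι) (N := N) 0
  | insert a s ha ih =>
    have h1 : (fun γ => ∑ b ∈ insert a s, F b γ) = fun γ => F a γ + ∑ b ∈ s, F b γ := by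
      funext γ
      exact Finset.sum_insert ha
    rw [h1]
    exact (hF a (Finset.mem_insert_self a s)).add
      (ih fun b hb => hF b (Finset.mem_insert_of_mem hb))

/-- The condition `X ^ N ∣ F(γ)` is constructible. -/
theorem IsJP.isConstr {F : (ι × Fin N → ℂ) → PowerSeries ℂ} (hF : IsJP F) (M : ℕ) :
    IsConstr {γ : ι × Fin N → ℂ | PowerSeries.X ^ M ∣ F γ} := by
  choose P hP using hF
  have h := isConstr_forall_mem (σ := ι × Fin N) (Finset.range M)
    (fun s γ => eval γ (P s) = 0) (fun s _ => isConstr_eq_zero (P s))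
  have h2 : {γ : ι × Fin N → ℂ | PowerSeries.X ^ M ∣ F γ} =
      {γ | ∀ s ∈ Finset.range M, eval γ (P s) = 0} := by
    ext γ
    rw [Set.mem_ofPred_eq, Set.mem_ofPred_eq, PowerSeries.X_pow_dvd_iff]
    constructor
    · intro h3 s hs
      rw [hP]
      exact h3 s (Finset.mem_range.1 hs)
    · intro h3 s hs
      rw [← hP]
      exact h3 s (Finset.mem_range.2 hs)
  rw [h2]
  exact h

/-! ### Congruences -/

/-- Reduction modulo `X ^ N`. -/
def qm (N : ℕ) : PowerSeries ℂ →+*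
    PowerSeries ℂ ⧸ Ideal.span {(PowerSeries.X : PowerSeries ℂ) ^ N} :=
  Ideal.Quotient.mk _

theorem qm_eq_iff {a b : PowerSeries ℂ} : qm N a = qm N b ↔ PowerSeries.X ^ N ∣ a - b := by
  unfold qm
  rw [Ideal.Quotient.eq, Ideal.mem_span_singleton]

/-- The monomial `x ^ m`, where `y` is the inverse of `x`. -/
def zp {R : Type} [CommRing R] (x y : R) (m : ℤ) : R := x ^ m.toNat * y ^ (-m).toNat

theorem zp_map {R S : Type} [CommRing R] [CommRing S] (f : R →+* S) (x y : R) (m : ℤ) :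
    f (zp x y m) = zp (f x) (f y) m := by
  unfold zp
  rw [map_mul, map_pow, map_pow]

theorem zp_unit {R : Type} [CommRing R] (u : Rˣ) (m : ℤ) :
    zp (u : R) ((u⁻¹ : Rˣ) : R) m = ((u ^ m : Rˣ) : R) := by
  unfold zp
  obtain ⟨n, rfl | rfl⟩ := m.eq_nat_or_neg
  · simp
  · simp

/-- `∏ x_i ^ (m_i)` for truncated series. -/
theorem zp_congr {x y : Fin r → PowerSeries ℂ} {χ : Fin r → (PowerSeries ℂ)ˣ}
    (hx : ∀ i, PowerSeries.X ^ N ∣ x i - (χ i : PowerSeries ℂ))
    (hy : ∀ i, PowerSeries.X ^ N ∣ y i - (((χ i)⁻¹ : (PowerSeries ℂ)ˣ) : PowerSeries ℂ))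
    (m : Fin r → ℤ) :
    PowerSeries.X ^ N ∣ ∏ i, zp (x i) (y i) (m i) -
      ((∏ i, χ i ^ m i : (PowerSeries ℂ)ˣ) : PowerSeries ℂ) := by
  rw [← qm_eq_iff, Units.coe_prod, map_prod, map_prod]
  refine Finset.prod_congr rfl fun i _ => ?_
  rw [zp_map, qm_eq_iff.2 (hx i), qm_eq_iff.2 (hy i), ← zp_map, zp_unit]

/-! ### The lattice -/

/-- Coordinates for the characters of the lattice generated by `E e_j`, `j ∈ K`, and `a ∈ A`. -/
theorem exists_par {E : ℕ} (hE : 0 < E) (K : Finset (Fin d)) (A : Finset (Fin d →₀ ℕ))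
    (hA : ∀ a ∈ A, ∀ j, j ∉ K → a j = 0) :
    ∃ (b : Fin K.card → Fin d → ℤ) (mE : Fin d → Fin K.card → ℤ)
      (mA : (Fin d →₀ ℕ) → Fin K.card → ℤ),
      (∀ χ : Fin K.card → (PowerSeries ℂ)ˣ, ∃ η : Fin d → (PowerSeries ℂ)ˣ,
        (∀ j ∈ K, η j ^ E = ∏ i, χ i ^ mE j i) ∧
        (∀ a ∈ A, ∏ j, η j ^ a j = ∏ i, χ i ^ mA a i) ∧
        ∀ i, χ i = ∏ j, η j ^ b i j) ∧
      (∀ η : Fin d → (PowerSeries ℂ)ˣ,
        (∀ j ∈ K, η j ^ E = ∏ i, (∏ j', η j' ^ b i j') ^ mE j i) ∧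
        (∀ a ∈ A, ∏ j, η j ^ a j = ∏ i, (∏ j, η j ^ b i j) ^ mA a i)) ∧
      (∀ ε : Fin d → ℂˣ, (∀ j ∈ K, ε j ^ E = 1) → (∀ a ∈ A, ∏ j, ε j ^ a j = 1) →
        ∀ i, ∏ j, ε j ^ b i j = 1) ∧
      ∀ i, ∀ j, j ∉ K → b i j = 0 := by
  classical
  set M := latM E K A with hM
  set B := basM hE hA with hB
  have hs : ∀ {G : Type} [CommGroup G] (η : Fin d → G) (j : Fin d),
      ∏ j', η j' ^ ((Pi.single j (E : ℤ) : Fin d → ℤ) j') = η j ^ E := by
    intro G _ η j
    rw [Finset.prod_eq_single j]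
    · rw [Pi.single_eq_same, zpow_natCast]
    · intro j' _ hj'
      rw [Pi.single_eq_of_ne hj', zpow_zero]
    · intro h
      exact absurd (Finset.mem_univ j) h
  have ha : ∀ {G : Type} [CommGroup G] (η : Fin d → G) (a : Fin d →₀ ℕ),
      ∏ j, η j ^ ((fun j => ((a j : ℕ) : ℤ)) j) = ∏ j, η j ^ a j := by
    intro G _ η a
    exact Finset.prod_congr rfl fun j _ => zpow_natCast _ _
  refine ⟨fun i => (B i : Fin d → ℤ), fun j i => if hj : j ∈ K then
      B.repr ⟨Pi.single j (E : ℤ), single_mem_latM hj⟩ i else 0,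
    fun a i => if ha : a ∈ A then B.repr ⟨fun j => ((a j : ℕ) : ℤ), exp_mem_latM ha⟩ i else 0,
    ?_, ?_, ?_, ?_⟩
  · intro χ
    obtain ⟨η, hη⟩ := exists_eta B χ
    refine ⟨η, ?_, ?_, ?_⟩
    · intro j hj
      rw [← hs η j]
      have := hη ⟨Pi.single j (E : ℤ), single_mem_latM hj⟩
      rw [this]
      refine Finset.prod_congr rfl fun i _ => ?_
      beta_reduce
      rw [dif_pos hj]
    · intro a haA
      rw [← ha η a]
      have := hη ⟨fun j => ((a j : ℕ) : ℤ), exp_mem_latM haA⟩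
      rw [this]
      refine Finset.prod_congr rfl fun i _ => ?_
      beta_reduce
      rw [dif_pos haA]
    · intro i
      rw [hη (B i), Module.Basis.repr_self, Finset.prod_eq_single i]
      · rw [Finsupp.single_eq_same, zpow_one]
      · intro i' _ hi'
        rw [Finsupp.single_eq_of_ne hi', zpow_zero]
      · intro h
        exact absurd (Finset.mem_univ i) h
  · intro η
    constructor
    · intro j hj
      have := prod_repr B η ⟨Pi.single j (E : ℤ), single_mem_latM hj⟩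
      rw [← hs η j]
      rw [← this]
      refine Finset.prod_congr rfl fun i _ => ?_
      beta_reduce
      rw [dif_pos hj]
    · intro a haA
      have := prod_repr B η ⟨fun j => ((a j : ℕ) : ℤ), exp_mem_latM haA⟩
      rw [← ha η a]
      rw [← this]
      refine Finset.prod_congr rfl fun i _ => ?_
      beta_reduce
      rw [dif_pos haA]
  · intro ε h1 h2 i
    have key : ∀ v ∈ latM E K A, ∏ j, ε j ^ (v j) = 1 := by
      intro v hv
      refine Submodule.span_induction (p := fun v _ => ∏ j, ε j ^ (v j) = 1) ?_ ?_ ?_ ?_ hv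
      · rintro v (⟨j, hj, rfl⟩ | ⟨a, haA, rfl⟩)
        · rw [hs ε j]
          exact h1 j hj
        · rw [ha ε a]
          exact h2 a haA
      · simp
      · intro x y _ _ hx hy
        have h3 : ∏ j, ε j ^ ((x + y) j) = (∏ j, ε j ^ (x j)) * ∏ j, ε j ^ (y j) := by
          rw [← Finset.prod_mul_distrib]
          refine Finset.prod_congr rfl fun j _ => ?_
          rw [Pi.add_apply, zpow_add]
        rw [h3, hx, hy, one_mul]
      · intro c x _ hx
        rw [← one_zpow c, ← hx, ← Finset.prod_zpow]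
        refine Finset.prod_congr rfl fun j _ => ?_
        rw [Pi.smul_apply, smul_eq_mul, mul_comm, zpow_mul]
    exact key _ (B i).2
  · intro i j hj
    exact eq_zero_of_mem_latM hA (B i).2 hj

end QO

end MPb07157
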