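import Pool.Agent.Lib.MP_b07157_agO.PB4
import Pool.Agent.Lib.MP_b07157_agV.B1
import Pool.Agent.Lib.MP_b07157_ag.N3.Cls1

/-!
# The parameter space of a ball
-/

noncomputable section

namespace MPb07157

open MvPolynomial

namespace QO

variable {d r N h : ℕ}

/-- The numbers of last coefficients which vanish in the parameter space. -/
def cT (K : Finset (Fin d)) (N h : ℕ) : Fin (d + 1) → ℕ :=
  Fin.lastCases h (fun j => if j ∈ K then N else 0)

theorem cT_le {K : Finset (Fin d)} (hh : h ≤ N) (j : Fin (d + 1)) : cT K N h j ≤ N := by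
  unfold cT
  refine Fin.lastCases ?_ (fun j => ?_) j
  · rw [Fin.lastCases_last]
    exact hh
  · rw [Fin.lastCases_castSucc]
    split_ifs
    · exact le_rfl
    · exact Nat.zero_le _

theorem sum_cT (K : Finset (Fin d)) : ∑ j, cT K N h j = K.card * N + h := by
  unfold cT
  rw [Fin.sum_univ_castSucc, Fin.lastCases_last]
  simp only [Fin.lastCases_castSucc]
  rw [Finset.sum_ite_mem, Finset.univ_inter, Finset.sum_const, smul_eq_mul]

/-- The vanishing coordinates of the parameter space. -/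
def Zp (r : ℕ) (K : Finset (Fin d)) (N h : ℕ) : Finset ((Fin r ⊕ Fin (d + 1)) × Fin N) :=
  (Finset.univ.filter fun p : Fin (d + 1) × Fin N => N ≤ (p.2 : ℕ) + cT K N h p.1).map
    ⟨fun p => (Sum.inr p.1, p.2), fun p q hpq => by
      simpa [Prod.ext_iff] using hpq⟩

theorem card_Zp {K : Finset (Fin d)} (hh : h ≤ N) : (Zp r K N h).card = K.card * N + h := by
  unfold Zp
  rw [Finset.card_map, ← sum_cT (N := N) (h := h) K, ← PC.B1.card_tail (cT_le hh),
    Fintype.card_subtype]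

/-- The units `χ_i`, the free coordinates `y_j` for `j ∉ K`, and `z'`. -/
def DB (r : ℕ) (K : Finset (Fin d)) (h : ℕ) (hN : 0 < N) :
    Set ((Fin r ⊕ Fin (d + 1)) × Fin N → ℂ) :=
  {δ | (fun i : Fin r => δ (Sum.inl i, ⟨0, hN⟩)) ∈ {x : Fin r → ℂ | ∀ i, x i ≠ 0} ∧
    ∀ p ∈ Zp r K N h, δ p = 0}

theorem isConstr_torusF : IsConstr {x : Fin r → ℂ | ∀ i, x i ≠ 0} := by
  have h := isConstr_forall_mem (σ := Fin r) Finset.univ
    (fun j u => u j ≠ 0) (fun j _ => by
      have := isConstr_ne_zero (X j : MvPolynomial (Fin r) ℂ)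
      simpa using this)
  simpa using h

theorem isConstr_DB (K : Finset (Fin d)) (hN : 0 < N) : IsConstr (DB r K h hN) := by
  refine isConstr_setOf_and (isConstr_torusF.reindex
    (fun i : Fin r => (Sum.inl i, (⟨0, hN⟩ : Fin N)))) ?_
  refine isConstr_forall_mem _ _ fun p _ => ?_
  have := isConstr_eq_zero (X p : MvPolynomial ((Fin r ⊕ Fin (d + 1)) × Fin N) ℂ)
  simpa using this

theorem cls_DB {K : Finset (Fin d)} (hr : K.card = r) (hN : 0 < N) (hh : h ≤ N) {M : ℕ}
    (hM : M + r + h = (d + 1) * N) : cls (DB r K h hN) = (L - 1) ^ r * L ^ M := by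
  have h1 := cls_cell (σ := (Fin r ⊕ Fin (d + 1)) × Fin N) (κ := Fin r)
    (fun i : Fin r => (Sum.inl i, (⟨0, hN⟩ : Fin N))) (fun i i' hi => by
      simpa [Prod.ext_iff] using hi) {x : Fin r → ℂ | ∀ i, x i ≠ 0} isConstr_torusF
    (Zp r K N h) (fun i hi => by
      unfold Zp at hi
      rw [Finset.mem_map] at hi
      obtain ⟨p, -, hp⟩ := hi
      simp at hp) M (by
      rw [card_Zp hh, Fintype.card_prod, Fintype.card_sum, Fintype.card_fin, Fintype.card_fin,
        Fintype.card_fin, hr]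
      nlinarith)
  rw [cls_torus, Fintype.card_fin] at h1
  exact h1

/-- The parameter space: `DB` and the inverses of the `χ_i`. -/
def DA (r : ℕ) (K : Finset (Fin d)) (h : ℕ) (hN : 0 < N) :
    Set ((Fin r ⊕ (Fin r ⊕ Fin (d + 1))) × Fin N → ℂ) :=
  {γ | (fun p : (Fin r ⊕ Fin (d + 1)) × Fin N => γ (Sum.inr p.1, p.2)) ∈ DB r K h hN ∧
    ∀ i ∈ (Finset.univ : Finset (Fin r)), PowerSeries.X ^ N ∣
      garc γ (Sum.inl i) * garc γ (Sum.inr (Sum.inl i)) - 1}

theorem isConstr_DA (K : Finset (Fin d)) (hN : 0 < N) : IsConstr (DA r K h hN) := by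
  refine isConstr_setOf_and ((isConstr_DB K hN).reindex fun p => (Sum.inr p.1, p.2)) ?_
  exact isConstr_forall_mem _ _ fun i _ =>
    IsJP.isConstr (((IsJP.garc _).mul (IsJP.garc _)).sub (IsJP.const 1)) N

theorem garc_comp {ι κ : Type} (e : κ → ι) (γ : ι × Fin N → ℂ) (i : κ) :
    garc (fun p : κ × Fin N => γ (e p.1, p.2)) i = garc γ (e i) := by
  ext s
  rw [coeff_garc, coeff_garc]

theorem constantCoeff_garc {ι : Type} (γ : ι × Fin N → ℂ) (i : ι) (hN : 0 < N) :
    PowerSeries.constantCoeff (garc γ i) = γ (i, ⟨0, hN⟩) := by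
  rw [← PowerSeries.coeff_zero_eq_constantCoeff_apply, coeff_garc, dif_pos hN]

theorem cls_DA (K : Finset (Fin d)) (hN : 0 < N) : cls (DA r K h hN) = cls (DB r K h hN) := by
  have hmap : ∀ γ : (Fin r ⊕ (Fin r ⊕ Fin (d + 1))) × Fin N → ℂ,
      polyMap (fun p : (Fin r ⊕ Fin (d + 1)) × Fin N =>
        (X (Sum.inr p.1, p.2) : MvPolynomial ((Fin r ⊕ (Fin r ⊕ Fin (d + 1))) × Fin N) ℂ)) γ =
        fun p => γ (Sum.inr p.1, p.2) := fun γ => polyMap_X _ γ
  refine cls_bijOn (isConstr_DA K hN) (isConstr_DB K hN) (fun p => X (Sum.inr p.1, p.2))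
    ⟨?_, ?_, ?_⟩
  · intro γ hγ
    rw [hmap]
    exact hγ.1
  · intro γ hγ γ' hγ' heq
    rw [hmap, hmap] at heq
    have h1 : ∀ q s, γ (Sum.inr q, s) = γ' (Sum.inr q, s) := fun q s => congrFun heq (q, s)
    funext p
    obtain ⟨i | q, s⟩ := p
    · have h2 := hγ.2 i (Finset.mem_univ i)
      have h3 := hγ'.2 i (Finset.mem_univ i)
      have h4 : garc γ (Sum.inr (Sum.inl i)) = garc γ' (Sum.inr (Sum.inl i)) := by
        ext s
        rw [coeff_garc, coeff_garc]
        split_ifs with h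
        · exact h1 _ _
        · rfl
      rw [h4] at h2
      refine coord_of_dvd (N := N) ?_ s
      have h5 := dvd_sub (h2.mul_left (garc γ' (Sum.inl i))) (h3.mul_left (garc γ (Sum.inl i)))
      have h6 : ∀ a a' u : PowerSeries ℂ, a' * (a * u - 1) - a * (a' * u - 1) = a - a' := by
        intro a a' u
        ring
      rwa [h6] at h5
    · exact h1 q s
  · intro δ hδ
    refine ⟨fun p => Sum.elim (fun i => PowerSeries.coeff (p.2 : ℕ) (garc δ (Sum.inl i))⁻¹)
      (fun q => δ (q, p.2)) p.1, ⟨?_, ?_⟩, ?_⟩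
    · exact hδ
    · intro i _
      have hc : PowerSeries.constantCoeff (garc δ (Sum.inl i)) ≠ 0 := by
        rw [constantCoeff_garc _ _ hN]
        exact hδ.1 i
      set γ : (Fin r ⊕ (Fin r ⊕ Fin (d + 1))) × Fin N → ℂ := fun p =>
        Sum.elim (fun i => PowerSeries.coeff (p.2 : ℕ) (garc δ (Sum.inl i))⁻¹)
          (fun q => δ (q, p.2)) p.1 with hγ
      have h1 : garc γ (Sum.inr (Sum.inl i)) = garc δ (Sum.inl i) := by
        ext s
        rw [coeff_garc, coeff_garc]
        rfl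
      have h2 : PowerSeries.X ^ N ∣ garc γ (Sum.inl i) - (garc δ (Sum.inl i))⁻¹ :=
        garc_dvd fun s => rfl
      rw [h1]
      have h3 := h2.mul_right (garc δ (Sum.inl i))
      rw [sub_mul, PowerSeries.inv_mul_cancel _ hc] at h3
      exact h3
    · rw [hmap]
      rfl

end QO

end MPb07157
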