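import Pool.Agent.Lib.MP_b07157_agO.PB3
import Pool.Agent.Lib.MP_b07157_agO.PB5
import Pool.Agent.Lib.MP_b07157_agO.Chev

/-!
# The parametrization of a ball
-/

noncomputable section

namespace MPb07157

open MvPolynomial

namespace QO

variable {d r N h : ℕ}

/-- The components of the parametrization. -/
def FZ (E : ℕ) (ζ : MvPowerSeries (Fin d) ℂ) (k : Fin d → ℕ) (h : ℕ) (K : Finset (Fin d))
    (mE : Fin d → Fin r → ℤ) (mA : (Fin d →₀ ℕ) → Fin r → ℤ)
    (γ : (Fin r ⊕ (Fin r ⊕ Fin (d + 1))) × Fin N → ℂ) : Fin (d + 1) → PowerSeries ℂ :=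
  Fin.lastCases
    (∑ a ∈ (trW k (E * h) ζ).support, PowerSeries.C (MvPowerSeries.coeff a ζ) *
      PowerSeries.X ^ (wt k a / E) *
        ∏ i, zp (garc γ (Sum.inr (Sum.inl i))) (garc γ (Sum.inl i)) (mA a i) +
      PowerSeries.X ^ h * garc γ (Sum.inr (Sum.inr (Fin.last d))))
    (fun j => if j ∈ K then
      ∏ i, zp (garc γ (Sum.inr (Sum.inl i))) (garc γ (Sum.inl i)) (mE j i)
      else garc γ (Sum.inr (Sum.inr j.castSucc)))

variable {E : ℕ} {ζ : MvPowerSeries (Fin d) ℂ} {k : Fin d → ℕ} {K : Finset (Fin d)}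
  {mE : Fin d → Fin r → ℤ} {mA : (Fin d →₀ ℕ) → Fin r → ℤ}

theorem FZ_last (γ : (Fin r ⊕ (Fin r ⊕ Fin (d + 1))) × Fin N → ℂ) :
    FZ E ζ k h K mE mA γ (Fin.last d) =
      ∑ a ∈ (trW k (E * h) ζ).support, PowerSeries.C (MvPowerSeries.coeff a ζ) *
      PowerSeries.X ^ (wt k a / E) *
        ∏ i, zp (garc γ (Sum.inr (Sum.inl i))) (garc γ (Sum.inl i)) (mA a i) +
      PowerSeries.X ^ h * garc γ (Sum.inr (Sum.inr (Fin.last d))) := by
  unfold FZ
  rw [Fin.lastCases_last]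

theorem FZ_mem (γ : (Fin r ⊕ (Fin r ⊕ Fin (d + 1))) × Fin N → ℂ) {j : Fin d} (hj : j ∈ K) :
    FZ E ζ k h K mE mA γ j.castSucc =
      ∏ i, zp (garc γ (Sum.inr (Sum.inl i))) (garc γ (Sum.inl i)) (mE j i) := by
  unfold FZ
  rw [Fin.lastCases_castSucc, if_pos hj]

theorem FZ_not_mem (γ : (Fin r ⊕ (Fin r ⊕ Fin (d + 1))) × Fin N → ℂ) {j : Fin d} (hj : j ∉ K) :
    FZ E ζ k h K mE mA γ j.castSucc = garc γ (Sum.inr (Sum.inr j.castSucc)) := by
  unfold FZ
  rw [Fin.lastCases_castSucc, if_neg hj]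

theorem isJP_zp {ι : Type} (i i' : ι) (m : ℤ) :
    IsJP (fun γ : ι × Fin N → ℂ => zp (garc γ i) (garc γ i') m) :=
  ((IsJP.garc i).pow _).mul ((IsJP.garc i').pow _)

theorem isJP_FZ (j : Fin (d + 1)) :
    IsJP (fun γ : (Fin r ⊕ (Fin r ⊕ Fin (d + 1))) × Fin N → ℂ => FZ E ζ k h K mE mA γ j) := by
  refine Fin.lastCases ?_ (fun j => ?_) j
  · simp only [FZ_last]
    refine (IsJP.sum _ fun a _ => ?_).add ((IsJP.const _).mul (IsJP.garc _))
    exact (IsJP.const _).mul (IsJP.prod _ fun i _ => isJP_zp _ _ _)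
  · by_cases hj : j ∈ K
    · simp only [FZ_mem _ hj]
      exact IsJP.prod _ fun i _ => isJP_zp _ _ _
    · simp only [FZ_not_mem _ hj]
      exact IsJP.garc _

/-- The parametrization is a polynomial map. -/
theorem exists_poly (E : ℕ) (ζ : MvPowerSeries (Fin d) ℂ) (k : Fin d → ℕ) (h : ℕ)
    (K : Finset (Fin d)) (mE : Fin d → Fin r → ℤ) (mA : (Fin d →₀ ℕ) → Fin r → ℤ) (N : ℕ) :
    ∃ φ : Fin (d + 1) × Fin N → MvPolynomial ((Fin r ⊕ (Fin r ⊕ Fin (d + 1))) × Fin N) ℂ,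
      ∀ γ j, PowerSeries.X ^ N ∣ arc (polyMap φ γ) j - FZ E ζ k h K mE mA γ j := by
  have h1 : ∀ p : Fin (d + 1) × Fin N, ∃ P : MvPolynomial
      ((Fin r ⊕ (Fin r ⊕ Fin (d + 1))) × Fin N) ℂ, ∀ γ, eval γ P =
        PowerSeries.coeff (p.2 : ℕ) (FZ E ζ k h K mE mA γ p.1) := fun p => isJP_FZ p.1 p.2
  choose φ hφ using h1
  refine ⟨φ, fun γ j => ?_⟩
  rw [← garc_eq_arc]
  exact garc_dvd fun s => hφ (j, s) γ

/-- The units of a point of the parameter space. -/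
theorem exists_units (hN : 0 < N) {γ : (Fin r ⊕ (Fin r ⊕ Fin (d + 1))) × Fin N → ℂ}
    (hγ : γ ∈ DA r K h hN) : ∃ χ : Fin r → (PowerSeries ℂ)ˣ,
      (∀ i, garc γ (Sum.inr (Sum.inl i)) = χ i) ∧
      ∀ i, PowerSeries.X ^ N ∣ garc γ (Sum.inl i) - (((χ i)⁻¹ : (PowerSeries ℂ)ˣ) :
        PowerSeries ℂ) := by
  have hu : ∀ i, IsUnit (garc γ (Sum.inr (Sum.inl i))) := by
    intro i
    rw [PowerSeries.isUnit_iff_constantCoeff, constantCoeff_garc _ _ hN, isUnit_iff_ne_zero]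
    exact hγ.1.1 i
  refine ⟨fun i => (hu i).unit, fun i => rfl, fun i => ?_⟩
  have h1 := (hγ.2 i (Finset.mem_univ i)).mul_right
    ((((hu i).unit)⁻¹ : (PowerSeries ℂ)ˣ) : PowerSeries ℂ)
  rw [sub_mul, one_mul, mul_assoc] at h1
  have h2 : garc γ (Sum.inr (Sum.inl i)) * ((((hu i).unit)⁻¹ : (PowerSeries ℂ)ˣ) : PowerSeries ℂ) =
      1 := (hu i).mul_val_inv
  rwa [h2, mul_one] at h1

/-- The value of the parametrization. -/
theorem FZ_congr {γ : (Fin r ⊕ (Fin r ⊕ Fin (d + 1))) × Fin N → ℂ}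
    {χ : Fin r → (PowerSeries ℂ)ˣ}
    (hχ : ∀ i, PowerSeries.X ^ N ∣ garc γ (Sum.inr (Sum.inl i)) - (χ i : PowerSeries ℂ))
    (hχ' : ∀ i, PowerSeries.X ^ N ∣ garc γ (Sum.inl i) - (((χ i)⁻¹ : (PowerSeries ℂ)ˣ) :
        PowerSeries ℂ)) {η : Fin d → (PowerSeries ℂ)ˣ}
    (hE : ∀ j ∈ K, η j ^ E = ∏ i, χ i ^ mE j i)
    (hA : ∀ a ∈ (trW k (E * h) ζ).support, ∏ j, η j ^ a j = ∏ i, χ i ^ mA a i) :
    (∀ j ∈ K, PowerSeries.X ^ N ∣ FZ E ζ k h K mE mA γ j.castSucc - (η j : PowerSeries ℂ) ^ E) ∧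
      PowerSeries.X ^ N ∣ FZ E ζ k h K mE mA γ (Fin.last d) -
        (intP E ζ k h (fun j => (η j : PowerSeries ℂ)) +
          PowerSeries.X ^ h * garc γ (Sum.inr (Sum.inr (Fin.last d)))) := by
  constructor
  · intro j hj
    rw [FZ_mem _ hj, ← Units.val_pow_eq_pow_val, hE j hj]
    exact zp_congr hχ hχ' (mE j)
  · rw [FZ_last, add_sub_add_right_eq_sub, intP, ← Finset.sum_sub_distrib]
    refine Finset.dvd_sum fun a ha => ?_
    rw [← mul_sub]
    refine Dvd.dvd.mul_left ?_ _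
    have h1 := zp_congr hχ hχ' (mA a)
    rw [← hA a ha, Units.coe_prod] at h1
    simpa only [Units.val_pow_eq_pow_val] using h1

/-- `C ε`, for `ε ≠ 0`, as a unit. -/
def Cu : ℂˣ →* (PowerSeries ℂ)ˣ := Units.map (PowerSeries.C (R := ℂ)).toMonoidHom

theorem coe_Cu (ε : ℂˣ) : ((Cu ε : (PowerSeries ℂ)ˣ) : PowerSeries ℂ) = PowerSeries.C (ε : ℂ) := rfl

/-- Injectivity: two points of the parameter space with the same image. -/
theorem param_inj (hE : E ≠ 0) (hk : ∀ j, 0 < k j) (hkN : ∀ j, k j ≤ N) (hN : E * h ≤ N)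
    (hN0 : 0 < N) (hst : Star E ζ)
    (hint : ∀ a, MvPowerSeries.coeff a ζ ≠ 0 → wt k a < E * h → E ∣ wt k a)
    (hK : ∀ j, j ∈ K ↔ k j < N) {b : Fin r → Fin d → ℤ}
    (h1 : ∀ χ : Fin r → (PowerSeries ℂ)ˣ, ∃ η : Fin d → (PowerSeries ℂ)ˣ,
        (∀ j ∈ K, η j ^ E = ∏ i, χ i ^ mE j i) ∧
        (∀ a ∈ (trW k (E * h) ζ).support, ∏ j, η j ^ a j = ∏ i, χ i ^ mA a i) ∧
        ∀ i, χ i = ∏ j, η j ^ b i j)
    (h3 : ∀ ε : Fin d → ℂˣ, (∀ j ∈ K, ε j ^ E = 1) →
      (∀ a ∈ (trW k (E * h) ζ).support, ∏ j, ε j ^ a j = 1) → ∀ i, ∏ j, ε j ^ b i j = 1)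
    (h4 : ∀ i, ∀ j, j ∉ K → b i j = 0)
    {γ γ' : (Fin r ⊕ (Fin r ⊕ Fin (d + 1))) × Fin N → ℂ} (hγ : γ ∈ DA r K h hN0)
    (hγ' : γ' ∈ DA r K h hN0)
    (heq : ∀ j, PowerSeries.X ^ N ∣ FZ E ζ k h K mE mA γ j - FZ E ζ k h K mE mA γ' j) :
    γ = γ' := by
  obtain ⟨χ, hχ, hχi⟩ := exists_units hN0 hγ
  obtain ⟨χ', hχ', hχi'⟩ := exists_units hN0 hγ'
  obtain ⟨η, e1, e2, e3⟩ := h1 χ
  obtain ⟨η', e1', e2', e3'⟩ := h1 χ'
  obtain ⟨f1, f2⟩ := FZ_congr (fun i => by rw [hχ i, sub_self]; exact dvd_zero _) hχi e1 e2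
  obtain ⟨f1', f2'⟩ := FZ_congr (fun i => by rw [hχ' i, sub_self]; exact dvd_zero _) hχi' e1' e2'
  have hE0 : 0 < E := Nat.pos_of_ne_zero hE
  -- the roots of unity
  have hε : ∀ j, ∃ ε : ℂˣ, ε ^ E = 1 ∧ (j ∈ K → PowerSeries.X ^ N ∣
      (η j : PowerSeries ℂ) - PowerSeries.C (ε : ℂ) * (η' j : PowerSeries ℂ)) := by
    intro j
    by_cases hj : j ∈ K
    · have g1 : PowerSeries.X ^ N ∣ (η j : PowerSeries ℂ) ^ E - (η' j : PowerSeries ℂ) ^ E := by
        have g2 := dvd_add (dvd_sub (heq j.castSucc) (f1 j hj)) (f1' j hj)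
        have g3 : ∀ F F' a a' : PowerSeries ℂ, F - F' - (F - a) + (F' - a') = a - a' := by
          intro F F' a a'
          ring
        rwa [g3] at g2
      obtain ⟨ε, h5, h6⟩ := root_unique hE0 (constantCoeff_unit (η j))
        (constantCoeff_unit (η' j)) g1
      have hε0 : ε ≠ 0 := by
        intro h
        rw [h, zero_pow hE] at h5
        exact zero_ne_one h5
      exact ⟨Units.mk0 ε hε0, Units.ext (by rw [Units.val_pow_eq_pow_val]; exact h5), fun _ => h6⟩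
    · exact ⟨1, one_pow _, fun h => absurd h hj⟩
  choose ε hεE hεη using hε
  -- the integral parts agree
  have g4 : PowerSeries.X ^ h ∣ intP E ζ k h (fun j => (η j : PowerSeries ℂ)) -
      intP E ζ k h (fun j => (η' j : PowerSeries ℂ)) := by
    have hhN : h ≤ N := le_trans (Nat.le_mul_of_pos_left h hE0) hN
    have g2 := (pow_dvd_pow (PowerSeries.X : PowerSeries ℂ) hhN).trans
      (dvd_add (dvd_sub (heq (Fin.last d)) f2) f2')
    have g3 : ∀ F F' a a' x z z' : PowerSeries ℂ,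
        F - F' - (F - (a + x * z)) + (F' - (a' + x * z')) = a - a' + x * (z - z') := by
      intro F F' a a' x z z'
      ring
    rw [g3] at g2
    exact (dvd_add_left (dvd_mul_right _ _)).1 g2
  set θ : Fin d → PowerSeries ℂ := fun j => PowerSeries.C (ε j : ℂ) * (η' j : PowerSeries ℂ) with hθ
  have g5 : PowerSeries.X ^ h ∣ intP E ζ k h θ - intP E ζ k h (fun j => (η' j : PowerSeries ℂ)) := by
    have g6 := intP_congr hE hk hkN hN hint (η := fun j => (η j : PowerSeries ℂ)) (η' := θ)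
      fun j hj => (pow_dvd_pow _ (Nat.sub_le N (k j))).trans (hεη j ((hK j).2 hj))
    have g7 := dvd_sub g4 g6
    have g8 : ∀ a b c : PowerSeries ℂ, a - b - (a - c) = c - b := fun a b c => by ring
    rwa [g8] at g7
  have g6 : PowerSeries.X ^ (E * h) ∣
      (MvPowerSeries.subst (tOf hE k (fun j => (η' j : PowerSeries ℂ)) :
        Fin d → MvPowerSeries Unit ℂ) ζ : PowerSeries ℂ) -
      (MvPowerSeries.subst (tOf hE k θ : Fin d → MvPowerSeries Unit ℂ) ζ : PowerSeries ℂ) := by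
    have a1 := subst_tOf hE hk hint (fun j => (η' j : PowerSeries ℂ))
    have a2 := subst_tOf hE hk hint θ
    have a3 := (expand_dvd_iff hE).2 g5
    rw [map_sub] at a3
    have a4 := dvd_sub (dvd_sub a1 a2) a3
    have a5 : ∀ s s' e e' : PowerSeries ℂ, s - e - (s' - e') - (e' - e) = s - s' := by
      intro s s' e e'
      ring
    rwa [a5] at a4
  have g7 : tOf hE k θ = fun j => PowerSeries.C (ε j : ℂ) *
      tOf hE k (fun j => (η' j : PowerSeries ℂ)) j := by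
    funext j
    rw [hθ]
    unfold tOf
    beta_reduce
    rw [map_mul, PowerSeries.expand_C]
    ring
  rw [g7] at g6
  have g8 := eps_of_dvd hst hk (X_pow_dvd_tOf hE k _) (fun j hj => by
    intro h8
    unfold tOf at h8
    rw [pow_succ] at h8
    have h9 := (mul_dvd_mul_iff_left (pow_ne_zero _ PowerSeries.X_ne_zero)).1 h8
    have h10 := PowerSeries.X_dvd_iff.1 h9
    rw [PowerSeries.constantCoeff_expand] at h10
    exact constantCoeff_unit (η' j) h10) (ε := fun j => (ε j : ℂ))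
    (fun j => by rw [← Units.val_pow_eq_pow_val, hεE, Units.val_one]) g6
  have g9 := h3 ε (fun j _ => hεE j) (fun a ha => by
    obtain ⟨b1, b2⟩ := (mem_support_trW hk).1 ha
    apply Units.ext
    rw [Units.coe_prod, Units.val_one]
    simpa only [Units.val_pow_eq_pow_val] using g8 a b1 b2)
  -- the `χ_i` agree
  have g10 : ∀ i, PowerSeries.X ^ N ∣ (χ i : PowerSeries ℂ) - (χ' i : PowerSeries ℂ) := by
    intro i
    have b1 : χ' i = ∏ j, (Cu (ε j) * η' j) ^ b i j := by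
      rw [e3' i]
      have b2 : ∏ j, (Cu (ε j)) ^ b i j = 1 := by
        rw [← map_one Cu, ← g9 i, map_prod]
        exact Finset.prod_congr rfl fun j _ => (map_zpow Cu _ _).symm
      simp only [mul_zpow]
      rw [Finset.prod_mul_distrib, b2, one_mul]
    have b3 : Units.map (qm N).toMonoidHom (∏ j, η j ^ b i j) =
        Units.map (qm N).toMonoidHom (∏ j, (Cu (ε j) * η' j) ^ b i j) := by
      rw [map_prod, map_prod]
      refine Finset.prod_congr rfl fun j _ => ?_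
      rw [map_zpow, map_zpow]
      by_cases hj : j ∈ K
      · congr 1
        apply Units.ext
        exact qm_eq_iff.2 (hεη j hj)
      · rw [h4 i j hj, zpow_zero, zpow_zero]
    rw [e3 i, b1, ← qm_eq_iff]
    exact congrArg Units.val b3
  have g11 : ∀ i s, γ (Sum.inr (Sum.inl i), s) = γ' (Sum.inr (Sum.inl i), s) := by
    intro i s
    refine coord_of_dvd ?_ s
    rw [hχ, hχ']
    exact g10 i
  have g12 : ∀ i s, γ (Sum.inl i, s) = γ' (Sum.inl i, s) := by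
    intro i s
    refine coord_of_dvd ?_ s
    have b1 := hγ.2 i (Finset.mem_univ i)
    have b2 := hγ'.2 i (Finset.mem_univ i)
    have b3 : garc γ (Sum.inr (Sum.inl i)) = garc γ' (Sum.inr (Sum.inl i)) := by
      ext s
      rw [coeff_garc, coeff_garc]
      split_ifs with h
      · exact g11 _ _
      · rfl
    rw [b3] at b1
    have b4 := dvd_sub (b1.mul_left (garc γ' (Sum.inl i))) (b2.mul_left (garc γ (Sum.inl i)))
    have b5 : ∀ a a' u : PowerSeries ℂ, a' * (a * u - 1) - a * (a' * u - 1) = a - a' := by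
      intro a a' u
      ring
    rwa [b5] at b4
  -- the coordinates `y`
  have hZ0 : ∀ {γ : (Fin r ⊕ (Fin r ⊕ Fin (d + 1))) × Fin N → ℂ}, γ ∈ DA r K h hN0 →
      ∀ (q : Fin (d + 1)) (s : Fin N), N ≤ (s : ℕ) + cT K N h q →
        γ (Sum.inr (Sum.inr q), s) = 0 := by
    intro γ hγ q s hs
    have b1 := hγ.1.2 (Sum.inr q, s) (by
      unfold Zp
      rw [Finset.mem_map]
      exact ⟨(q, s), Finset.mem_filter.2 ⟨Finset.mem_univ _, hs⟩, rfl⟩)
    exact b1
  have g13 : ∀ (j : Fin d) s, γ (Sum.inr (Sum.inr j.castSucc), s) =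
      γ' (Sum.inr (Sum.inr j.castSucc), s) := by
    intro j s
    by_cases hj : j ∈ K
    · have b1 : N ≤ (s : ℕ) + cT K N h j.castSucc := by
        unfold cT
        rw [Fin.lastCases_castSucc, if_pos hj]
        exact Nat.le_add_left _ _
      rw [hZ0 hγ _ _ b1, hZ0 hγ' _ _ b1]
    · have b1 := heq j.castSucc
      rw [FZ_not_mem _ hj, FZ_not_mem _ hj] at b1
      exact coord_of_dvd b1 s
  have g14 : ∀ s, γ (Sum.inr (Sum.inr (Fin.last d)), s) =
      γ' (Sum.inr (Sum.inr (Fin.last d)), s) := by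
    intro s
    by_cases hs : N ≤ (s : ℕ) + cT K N h (Fin.last d)
    · rw [hZ0 hγ _ _ hs, hZ0 hγ' _ _ hs]
    · unfold cT at hs
      rw [Fin.lastCases_last] at hs
      have b1 := heq (Fin.last d)
      rw [FZ_last, FZ_last] at b1
      have b3 : ∀ i, garc γ (Sum.inr (Sum.inl i)) = garc γ' (Sum.inr (Sum.inl i)) := by
        intro i
        ext s
        rw [coeff_garc, coeff_garc]
        split_ifs with h
        · exact g11 _ _
        · rfl
      have b4 : ∀ i, garc γ (Sum.inl i) = garc γ' (Sum.inl i) := by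
        intro i
        ext s
        rw [coeff_garc, coeff_garc]
        split_ifs with h
        · exact g12 _ _
        · rfl
      simp only [b3, b4] at b1
      rw [add_sub_add_left_eq_sub, ← mul_sub] at b1
      have b5 := PowerSeries.X_pow_dvd_iff.1 b1 ((s : ℕ) + h) (by omega)
      rw [PowerSeries.coeff_X_pow_mul', if_pos (Nat.le_add_left _ _), Nat.add_sub_cancel,
        map_sub, coeff_garc, coeff_garc, dif_pos s.2, dif_pos s.2, sub_eq_zero] at b5
      exact b5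
  funext p
  obtain ⟨i | i | q, s⟩ := p
  · exact g12 i s
  · exact g11 i s
  · refine Fin.lastCases ?_ (fun j => ?_) q
    · exact g14 s
    · exact g13 j s

end QO

end MPb07157
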