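import Pool.Agent.Lib.MP_b07157_agO.PB6

/-!
# The measure of a ball around a ramified series
-/

noncomputable section

namespace MPb07157

open MvPolynomial

namespace QO

variable {d r N h : ℕ} {E : ℕ} {ζ : MvPowerSeries (Fin d) ℂ} {k : Fin d → ℕ} {K : Finset (Fin d)}
  {mE : Fin d → Fin r → ℤ} {mA : (Fin d →₀ ℕ) → Fin r → ℤ}

/-- The parametrization maps the parameter space to the ball. -/
theorem param_mapsTo (hE : E ≠ 0) (hk : ∀ j, 0 < k j) (hkN : ∀ j, k j ≤ N) (hN : E * h ≤ N)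
    (hN0 : 0 < N)
    (hint : ∀ a, MvPowerSeries.coeff a ζ ≠ 0 → wt k a < E * h → E ∣ wt k a)
    (hK : ∀ j, j ∈ K ↔ k j < N)
    (h1 : ∀ χ : Fin r → (PowerSeries ℂ)ˣ, ∃ η : Fin d → (PowerSeries ℂ)ˣ,
        (∀ j ∈ K, η j ^ E = ∏ i, χ i ^ mE j i) ∧
        (∀ a ∈ (trW k (E * h) ζ).support, ∏ j, η j ^ a j = ∏ i, χ i ^ mA a i))
    {γ : (Fin r ⊕ (Fin r ⊕ Fin (d + 1))) × Fin N → ℂ} (hγ : γ ∈ DA r K h hN0)
    {Z : Fin (d + 1) × Fin N → ℂ}
    (hZ : ∀ j, PowerSeries.X ^ N ∣ arc Z j - FZ E ζ k h K mE mA γ j) :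
    PC.B1.shA (cK k) Z ∈ Ball E hE N ζ k h := by
  obtain ⟨χ, hχ, hχi⟩ := exists_units hN0 hγ
  obtain ⟨η, e1, e2⟩ := h1 χ
  obtain ⟨f1, f2⟩ := FZ_congr (fun i => by rw [hχ i, sub_self]; exact dvd_zero _) hχi e1 e2
  have hhN : h ≤ N := le_trans (Nat.le_mul_of_pos_left h (Nat.pos_of_ne_zero hE)) hN
  refine (shA_mem_Ball_iff hE hk hkN hN hint).2 ⟨fun j => (η j : PowerSeries ℂ), fun j hj =>
    ⟨constantCoeff_unit _, ?_⟩, ?_⟩
  · have h2 := dvd_add (hZ j.castSucc) (f1 j ((hK j).2 hj))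
    rwa [sub_add_sub_cancel] at h2
  · have h2 := (pow_dvd_pow (PowerSeries.X : PowerSeries ℂ) hhN).trans
      (dvd_add (hZ (Fin.last d)) f2)
    rw [sub_add_sub_cancel, ← sub_sub] at h2
    exact (dvd_sub_left (dvd_mul_right _ _)).1 h2

/-- The parametrization is surjective. -/
theorem param_surj (hE : E ≠ 0) (hk : ∀ j, 0 < k j) (hkN : ∀ j, k j ≤ N) (hN : E * h ≤ N)
    (hN0 : 0 < N)
    (hint : ∀ a, MvPowerSeries.coeff a ζ ≠ 0 → wt k a < E * h → E ∣ wt k a)
    (hK : ∀ j, j ∈ K ↔ k j < N) {b : Fin r → Fin d → ℤ}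
    (h2 : ∀ η : Fin d → (PowerSeries ℂ)ˣ,
        (∀ j ∈ K, η j ^ E = ∏ i, (∏ j', η j' ^ b i j') ^ mE j i) ∧
        (∀ a ∈ (trW k (E * h) ζ).support, ∏ j, η j ^ a j =
          ∏ i, (∏ j, η j ^ b i j) ^ mA a i))
    {Z : Fin (d + 1) × Fin N → ℂ} (hZ : PC.B1.shA (cK k) Z ∈ Ball E hE N ζ k h) :
    ∃ γ ∈ DA r K h hN0, ∀ j, PowerSeries.X ^ N ∣ arc Z j - FZ E ζ k h K mE mA γ j := by
  obtain ⟨η, g1, g2⟩ := (shA_mem_Ball_iff hE hk hkN hN hint).1 hZ
  have h3 : ∀ j, ∃ u : (PowerSeries ℂ)ˣ, k j < N → (u : PowerSeries ℂ) = η j := by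
    intro j
    by_cases hj : k j < N
    · have hu : IsUnit (η j) := by
        rw [PowerSeries.isUnit_iff_constantCoeff, isUnit_iff_ne_zero]
        exact (g1 j hj).1
      exact ⟨hu.unit, fun _ => rfl⟩
    · exact ⟨1, fun h => absurd h hj⟩
  choose ηu hηu using h3
  have g3 : PowerSeries.X ^ h ∣ arc Z (Fin.last d) -
      intP E ζ k h (fun j => (ηu j : PowerSeries ℂ)) := by
    have a1 := intP_congr hE hk hkN hN hint (η := fun j => (ηu j : PowerSeries ℂ)) (η' := η)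
      fun j hj => by
        rw [hηu j hj, sub_self]
        exact dvd_zero _
    have a2 := dvd_sub g2 a1
    have a3 : ∀ z a b : PowerSeries ℂ, z - a - (b - a) = z - b := fun z a b => by ring
    rwa [a3] at a2
  obtain ⟨g, hg⟩ := g3
  obtain ⟨e1, e2⟩ := h2 ηu
  set χ : Fin r → (PowerSeries ℂ)ˣ := fun i => ∏ j, ηu j ^ b i j with hχ
  set G : Fin (d + 1) → PowerSeries ℂ := Fin.lastCases g (fun j => arc Z j.castSucc) with hG
  set γ : (Fin r ⊕ (Fin r ⊕ Fin (d + 1))) × Fin N → ℂ := fun p =>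
    Sum.elim (fun i => PowerSeries.coeff (p.2 : ℕ) (((χ i)⁻¹ : (PowerSeries ℂ)ˣ) : PowerSeries ℂ))
      (Sum.elim (fun i => PowerSeries.coeff (p.2 : ℕ) (χ i : PowerSeries ℂ))
        (fun q => if N ≤ (p.2 : ℕ) + cT K N h q then 0 else PowerSeries.coeff (p.2 : ℕ) (G q))) p.1
    with hγ
  have a1 : ∀ i, PowerSeries.X ^ N ∣ garc γ (Sum.inl i) -
      (((χ i)⁻¹ : (PowerSeries ℂ)ˣ) : PowerSeries ℂ) := fun i => garc_dvd fun s => rfl
  have a2 : ∀ i, PowerSeries.X ^ N ∣ garc γ (Sum.inr (Sum.inl i)) - (χ i : PowerSeries ℂ) :=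
    fun i => garc_dvd fun s => rfl
  have a3 : γ ∈ DA r K h hN0 := by
    refine ⟨⟨?_, ?_⟩, ?_⟩
    · intro i
      show PowerSeries.coeff 0 (χ i : PowerSeries ℂ) ≠ 0
      rw [PowerSeries.coeff_zero_eq_constantCoeff_apply]
      exact constantCoeff_unit _
    · intro p hp
      unfold Zp at hp
      rw [Finset.mem_map] at hp
      obtain ⟨⟨q, s⟩, hq, rfl⟩ := hp
      rw [Finset.mem_filter] at hq
      show (if N ≤ (s : ℕ) + cT K N h q then 0 else PowerSeries.coeff (s : ℕ) (G q)) = 0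
      rw [if_pos hq.2]
    · intro i _
      have b1 := dvd_add ((a1 i).mul_right (garc γ (Sum.inr (Sum.inl i))))
        ((a2 i).mul_left (((χ i)⁻¹ : (PowerSeries ℂ)ˣ) : PowerSeries ℂ))
      have b2 : ∀ x y u v : PowerSeries ℂ, (x - u) * y + u * (y - v) = x * y - u * v := by
        intro x y u v
        ring
      rw [b2, Units.inv_mul] at b1
      exact b1
  obtain ⟨f1, f2⟩ := FZ_congr (mE := mE) (mA := mA) a2 a1 e1 e2
  refine ⟨γ, a3, fun j => ?_⟩
  refine Fin.lastCases ?_ (fun j => ?_) j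
  · have b1 : PowerSeries.X ^ N ∣ PowerSeries.X ^ h * g -
        PowerSeries.X ^ h * garc γ (Sum.inr (Sum.inr (Fin.last d))) := by
      rw [← mul_sub, PowerSeries.X_pow_dvd_iff]
      intro i hi
      rw [PowerSeries.coeff_X_pow_mul']
      split_ifs with hih
      · rw [map_sub, coeff_garc, dif_pos (by omega : i - h < N), sub_eq_zero]
        show _ = if N ≤ i - h + cT K N h (Fin.last d) then 0 else
          PowerSeries.coeff (i - h) (G (Fin.last d))
        have b2 : cT K N h (Fin.last d) = h := by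
          unfold cT
          rw [Fin.lastCases_last]
        have b3 : G (Fin.last d) = g := by
          rw [hG]
          exact Fin.lastCases_last
        rw [b2, b3, if_neg (by omega)]
      · rfl
    have b4 := dvd_sub b1 f2
    have b5 : ∀ F P x z a : PowerSeries ℂ, a - P = x →
        x - z - (F - (P + z)) = a - F := by
      intro F P x z a hx
      rw [← hx]
      ring
    rwa [b5 _ _ _ _ (arc Z (Fin.last d)) hg] at b4
  · by_cases hj : j ∈ K
    · have b1 := f1 j hj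
      have b2 := (g1 j ((hK j).1 hj)).2
      rw [hηu j ((hK j).1 hj)] at b1
      have b3 := dvd_sub b2 b1
      have b4 : ∀ z a F : PowerSeries ℂ, z - a - (F - a) = z - F := fun z a F => by ring
      rwa [b4] at b3
    · rw [FZ_not_mem _ hj, ← dvd_neg, neg_sub]
      refine garc_dvd fun s => ?_
      show (if N ≤ (s : ℕ) + cT K N h j.castSucc then 0 else
        PowerSeries.coeff (s : ℕ) (G j.castSucc)) = _
      have b2 : cT K N h j.castSucc = 0 := by
        unfold cT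
        rw [Fin.lastCases_castSucc, if_neg hj]
      have b3 : G j.castSucc = arc Z j.castSucc := by
        rw [hG]
        exact Fin.lastCases_castSucc _
      rw [b2, b3, if_neg (by have := s.2; omega)]

/-- The ball in the coordinates `x_j / τ^(k_j)` is constructible, with the class of the parameter
space. -/
theorem cls_TBall (hE : E ≠ 0) (hk : ∀ j, 0 < k j) (hkN : ∀ j, k j ≤ N) (hN : E * h ≤ N)
    (hN0 : 0 < N) (hst : Star E ζ)
    (hint : ∀ a, MvPowerSeries.coeff a ζ ≠ 0 → wt k a < E * h → E ∣ wt k a)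
    (hK : ∀ j, j ∈ K ↔ k j < N) :
    IsConstr {Z : Fin (d + 1) × Fin N → ℂ | PC.B1.shA (cK k) Z ∈ Ball E hE N ζ k h} ∧
      cls {Z : Fin (d + 1) × Fin N → ℂ | PC.B1.shA (cK k) Z ∈ Ball E hE N ζ k h} =
        cls (DA K.card K h hN0) := by
  have hA : ∀ a ∈ (trW k (E * h) ζ).support, ∀ j, j ∉ K → a j = 0 := by
    intro a ha j hj
    obtain ⟨-, h1⟩ := (mem_support_trW hk).1 ha
    by_contra h2
    apply hj
    rw [hK]
    refine lt_of_lt_of_le (lt_of_le_of_lt ?_ h1) hN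
    rw [wt]
    refine le_trans ?_ (Finset.single_le_sum (f := fun j => k j * a j) (fun _ _ => Nat.zero_le _)
      (Finset.mem_univ j))
    exact Nat.le_mul_of_pos_right _ (Nat.pos_of_ne_zero h2)
  obtain ⟨b, mE, mA, h1, h2, h3, h4⟩ := exists_par (Nat.pos_of_ne_zero hE) K
    (trW k (E * h) ζ).support hA
  obtain ⟨φ, hφ⟩ := exists_poly E ζ k h K mE mA N
  have hbij : Set.BijOn (polyMap φ) (DA K.card K h hN0)
      {Z : Fin (d + 1) × Fin N → ℂ | PC.B1.shA (cK k) Z ∈ Ball E hE N ζ k h} := by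
    refine ⟨?_, ?_, ?_⟩
    · intro γ hγ
      exact param_mapsTo hE hk hkN hN hN0 hint hK (fun χ => by
        obtain ⟨η, c1, c2, -⟩ := h1 χ
        exact ⟨η, c1, c2⟩) hγ (hφ γ)
    · intro γ hγ γ' hγ' heq
      refine param_inj hE hk hkN hN hN0 hst hint hK h1 h3 h4 hγ hγ' fun j => ?_
      have c1 := dvd_sub (hφ γ' j) (hφ γ j)
      rw [heq] at c1
      have c2 : ∀ z F F' : PowerSeries ℂ, z - F' - (z - F) = F - F' := fun z F F' => by ring
      rwa [c2] at c1
    · intro Z hZ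
      obtain ⟨γ, hγ, c1⟩ := param_surj hE hk hkN hN hN0 hint hK h2 hZ
      refine ⟨γ, hγ, ?_⟩
      funext p
      obtain ⟨j, s⟩ := p
      have c2 := dvd_sub (hφ γ j) (c1 j)
      rw [sub_sub_sub_cancel_right, ← garc_eq_arc, ← garc_eq_arc] at c2
      exact coord_of_dvd c2 s
  have hT : IsConstr {Z : Fin (d + 1) × Fin N → ℂ |
      PC.B1.shA (cK k) Z ∈ Ball E hE N ζ k h} := by
    rw [← hbij.image_eq]
    exact (isConstr_DA K hN0).image φ
  exact ⟨hT, (cls_bijOn (isConstr_DA K hN0) hT φ hbij).symm⟩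

theorem Vn_of_mem_Ball (hE : E ≠ 0) {γ : Fin (d + 1) × Fin N → ℂ}
    (hγ : γ ∈ Ball E hE N ζ k h) : Vn (cK k) γ := by
  intro j s hs
  revert hs
  refine Fin.lastCases ?_ (fun j => ?_) j
  · intro hs
    rw [cK_last] at hs
    exact absurd hs (Nat.not_lt_zero _)
  · intro hs
    rw [cK_castSucc] at hs
    exact hγ.1.1 j s hs

theorem isConstr_Ball_of_int (hE : E ≠ 0) (hk : ∀ j, 0 < k j) (hkN : ∀ j, k j ≤ N)
    (hN : E * h ≤ N) (hN0 : 0 < N) (hst : Star E ζ)
    (hint : ∀ a, MvPowerSeries.coeff a ζ ≠ 0 → wt k a < E * h → E ∣ wt k a) :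
    IsConstr (Ball E hE N ζ k h) := by
  have h1 := (cls_TBall hE hk hkN hN hN0 hst hint (K := Finset.univ.filter fun j => k j < N)
    (fun j => by simp)).1
  have h2 := h1.image (PC.B1.shP (N := N) (cK k))
  have h3 : polyMap (PC.B1.shP (cK k)) ''
      {Z : Fin (d + 1) × Fin N → ℂ | PC.B1.shA (cK k) Z ∈ Ball E hE N ζ k h} =
      Ball E hE N ζ k h := by
    ext γ
    constructor
    · rintro ⟨Z, hZ, rfl⟩
      rw [PC.B1.polyMap_shP]
      exact hZ
    · intro hγ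
      have h4 := PC.B1.shA_unshA (c := cK k) (z := Sum.elim γ fun _ => 0)
        (Vn_of_mem_Ball (N := N) (h := h) (ζ := ζ) hE hγ)
      simp only [Sum.elim_inl] at h4
      refine ⟨PC.B1.unshA (cK k) (Sum.elim γ fun _ => 0), ?_, ?_⟩
      · rw [Set.mem_ofPred_eq, h4]
        exact hγ
      · rw [PC.B1.polyMap_shP]
        exact h4
  rwa [h3] at h2

/-- The class of a ball. -/
theorem cls_Ball (hE : E ≠ 0) (hk : ∀ j, 0 < k j) (hkN : ∀ j, k j ≤ N)
    (hN : E * h ≤ N) (hN0 : 0 < N) (hst : Star E ζ)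
    (hint : ∀ a, MvPowerSeries.coeff a ζ ≠ 0 → wt k a < E * h → E ∣ wt k a)
    {M : ℕ} (hM : M + (Finset.univ.filter fun j => k j < N).card + h = (d + 1) * N) :
    cls (Ball E hE N ζ k h) * L ^ (∑ j, k j) =
      (L - 1) ^ (Finset.univ.filter fun j => k j < N).card * L ^ M := by
  have hhN : h ≤ N := le_trans (Nat.le_mul_of_pos_left h (Nat.pos_of_ne_zero hE)) hN
  have h1 := PC.B1.cls_shA (c := cK k) (N := N) (S := Ball E hE N ζ k h) (fun j => by
    refine Fin.lastCases ?_ (fun j => ?_) j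
    · rw [cK_last]
      exact Nat.zero_le _
    · rw [cK_castSucc]
      exact hkN j) (isConstr_Ball_of_int hE hk hkN hN hN0 hst hint)
    (fun γ hγ => Vn_of_mem_Ball hE hγ)
  rw [(cls_TBall hE hk hkN hN hN0 hst hint (K := Finset.univ.filter fun j => k j < N)
    (fun j => by simp)).2, cls_DA, cls_DB rfl hN0 hhN hM, Fin.sum_univ_castSucc, cK_last,
    add_zero] at h1
  simp only [cK_castSucc] at h1
  exact h1.symm

/-! ### The statements for the interface -/

theorem wt_expo (k e : Fin d → ℕ) : wt k (expo e) = PT.dk e k := by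
  unfold wt PT.dk
  exact Finset.sum_congr rfl fun j _ => mul_comm _ _

theorem wt_eq_dt (k : Fin d → ℕ) (a : Fin d →₀ ℕ) : wt k a = PT.dk a k := by
  unfold wt PT.dk
  exact Finset.sum_congr rfl fun j _ => mul_comm _ _

theorem coeff_rescale_sub (ε : Fin d → ℂ) (φ : PS d) (v : Fin d →₀ ℕ) :
    MvPowerSeries.coeff v (MvPowerSeries.rescale ε φ - φ) =
      (∏ j, ε j ^ v j - 1) * MvPowerSeries.coeff v φ := by
  rw [map_sub, MvPowerSeries.coeff_rescale, Finsupp.prod_fintype _ _ (fun i => pow_zero _)]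
  ring

theorem coeff_mon_mul (e : Fin d → ℕ) (u : PS d) (v : Fin d →₀ ℕ) :
    MvPowerSeries.coeff v (mon e * u) =
      if expo e ≤ v then MvPowerSeries.coeff (v - expo e) u else 0 := by
  unfold mon
  rw [MvPowerSeries.coeff_monomial_mul]
  split_ifs <;> simp

theorem star_of_gal {φ : PS d} {l : Fin d → ℕ}
    (hgal : ∀ ε : Fin d → ℂ, IsRt E ε → MvPowerSeries.rescale ε φ = φ ∨
      ∃ e ≤ l, Ct e (MvPowerSeries.rescale ε φ - φ)) : Star E φ := by
  intro ε hε
  rcases hgal ε hε with h1 | ⟨e, -, u, hu, h1⟩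
  · left
    intro a ha
    have h2 := coeff_rescale_sub ε φ a
    rw [h1, sub_self, map_zero] at h2
    exact sub_eq_zero.1 ((mul_eq_zero.1 h2.symm).resolve_right ha)
  · right
    have h2 := coeff_rescale_sub ε φ (expo e)
    rw [h1, coeff_mon_mul, if_pos le_rfl, tsub_self,
      MvPowerSeries.coeff_zero_eq_constantCoeff_apply] at h2
    rw [h2] at hu
    refine ⟨expo e, right_ne_zero_of_mul hu, fun h3 => ?_, fun a ha ha1 => ?_⟩
    · exact left_ne_zero_of_mul hu (by rw [h3, sub_self])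
    · by_contra h3
      have h4 := coeff_rescale_sub ε φ a
      rw [h1, coeff_mon_mul, if_neg h3] at h4
      exact (mul_ne_zero (sub_ne_zero.2 ha1) ha) h4.symm

/-- A ball is empty if the order vector is not admissible. -/
theorem Ball_eq_empty (hE : E ≠ 0) {φ : PS d} {l : Fin d → ℕ}
    (hgal : ∀ ε : Fin d → ℂ, IsRt E ε → MvPowerSeries.rescale ε φ = φ ∨
      ∃ e ≤ l, Ct e (MvPowerSeries.rescale ε φ - φ))
    (hk : ∀ j, 0 < k j) (hkN : ∀ j, k j ≤ N) (hl : PT.dk l k < E * h) (hN : E * h ≤ N)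
    (hadm : ¬ Adm E φ k) : Ball E hE N φ k h = ∅ := by
  rw [Set.eq_empty_iff_forall_notMem]
  intro γ hγ
  have hint := Ball_integral hE (star_of_gal hgal) hk hkN hN hγ
  unfold Adm at hadm
  push Not at hadm
  obtain ⟨a, ha, haE⟩ := hadm
  have hprim := Complex.isPrimitiveRoot_exp E hE
  set ω := Complex.exp (2 * Real.pi * Complex.I / E) with hω
  have hpow : ∀ v : Fin d →₀ ℕ, ∏ j, (ω ^ k j) ^ v j = ω ^ PT.dk v k := by
    intro v
    rw [← wt_eq_dt, wt, ← Finset.prod_pow_eq_pow_sum]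
    refine Finset.prod_congr rfl fun j _ => ?_
    rw [pow_mul]
  rcases hgal (fun j => ω ^ k j) (fun j => by
    rw [← pow_mul, mul_comm, pow_mul, hprim.pow_eq_one, one_pow]) with h1 | ⟨e, hel, u, hu, h1⟩
  · have h2 := coeff_rescale_sub (fun j => ω ^ k j) φ a
    rw [h1, sub_self, map_zero, hpow] at h2
    exact haE ((hprim.pow_eq_one_iff_dvd _).1
      (sub_eq_zero.1 ((mul_eq_zero.1 h2.symm).resolve_right ha)))
  · have h2 := coeff_rescale_sub (fun j => ω ^ k j) φ (expo e)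
    rw [h1, coeff_mon_mul, if_pos le_rfl, tsub_self,
      MvPowerSeries.coeff_zero_eq_constantCoeff_apply, hpow] at h2
    rw [h2] at hu
    have h3 : PT.dk e k ≤ PT.dk l k := by
      unfold PT.dk
      exact Finset.sum_le_sum fun j _ => Nat.mul_le_mul (hel j) le_rfl
    have h4 := hint (expo e) (right_ne_zero_of_mul hu) (by
      rw [wt_expo]
      exact lt_of_le_of_lt h3 hl)
    apply left_ne_zero_of_mul hu
    rw [sub_eq_zero, hprim.pow_eq_one_iff_dvd]
    rwa [wt_eq_dt] at h4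

/-- Balls are constructible. -/
theorem isConstr_Ball (hE : E ≠ 0) {φ : PS d} {l : Fin d → ℕ}
    (hgal : ∀ ε : Fin d → ℂ, IsRt E ε → MvPowerSeries.rescale ε φ = φ ∨
      ∃ e ≤ l, Ct e (MvPowerSeries.rescale ε φ - φ))
    (hk : ∀ j, 0 < k j) (hkN : ∀ j, k j ≤ N) (hl : PT.dk l k < E * h) (hN : E * h ≤ N) :
    IsConstr (Ball E hE N φ k h) := by
  by_cases hadm : Adm E φ k
  · exact isConstr_Ball_of_int hE hk hkN hN (by omega) (star_of_gal hgal) fun a ha _ => by
      rw [wt_eq_dt]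
      exact hadm a ha
  · rw [Ball_eq_empty hE hgal hk hkN hl hN hadm]
    exact IsConstr.empty

theorem Lp_add (a b : ℕ) : PT.Lp (a + b) = PT.Lp a * PT.Lp b := by
  unfold PT.Lp
  rw [← Units.val_mul, ← zpow_add]
  congr 2
  push_cast
  ring

theorem Lp_mul_L (a : ℕ) : PT.Lp a * algebraMap K0 Mot L ^ a = 1 := by
  have h1 : algebraMap K0 Mot L = (LU : Mot) := rfl
  unfold PT.Lp
  rw [h1, ← Units.val_pow_eq_pow_val, ← Units.val_mul, ← zpow_natCast, ← zpow_add,
    neg_add_cancel, zpow_zero, Units.val_one]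

theorem muQ_eq (n N : ℕ) (S : Set (Fin n × Fin N → ℂ)) :
    muQ n N S = PT.Lp (n * N) * algebraMap K0 Mot (cls S) := by
  unfold muQ PT.Lp clsM
  rw [zpow_neg, zpow_natCast]

theorem wN_eq (k : Fin d → ℕ) :
    PT.wN N k = (1 - PT.Lp 1) ^ (Finset.univ.filter fun j => k j < N).card * PT.Lp (∑ j, k j) := by
  have h1 : ∀ s : Finset (Fin d), PT.Lp (∑ j ∈ s, k j) = ∏ j ∈ s, PT.Lp (k j) := by
    classical
    intro s
    induction s using Finset.induction_on with
    | empty =>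
      rw [Finset.sum_empty, Finset.prod_empty]
      have := Lp_mul_L 0
      rwa [pow_zero, mul_one] at this
    | insert a s ha ih => rw [Finset.sum_insert ha, Finset.prod_insert ha, Lp_add, ih]
  rw [h1, PT.wN, ← Finset.prod_const, Finset.prod_filter, ← Finset.prod_mul_distrib]
  refine Finset.prod_congr rfl fun j _ => ?_
  unfold PT.w1
  split_ifs with hj
  · rw [Lp_add]
    ring
  · rw [one_mul]

/-- **The measure of a ball.** -/
theorem muQ_Ball (hE : E ≠ 0) {φ : PS d} {l : Fin d → ℕ}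
    (hgal : ∀ ε : Fin d → ℂ, IsRt E ε → MvPowerSeries.rescale ε φ = φ ∨
      ∃ e ≤ l, Ct e (MvPowerSeries.rescale ε φ - φ))
    (hk : ∀ j, 0 < k j) (hkN : ∀ j, k j ≤ N) (hl : PT.dk l k < E * h) (hN : E * h ≤ N)
    (hadm : Adm E φ k) : muQ (d + 1) N (Ball E hE N φ k h) = PT.wN N k * PT.Lp h := by
  have hN0 : 0 < N := by omega
  have hhN : h ≤ N := le_trans (Nat.le_mul_of_pos_left h (Nat.pos_of_ne_zero hE)) hN
  set ρ := (Finset.univ.filter fun j => k j < N).card with hρ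
  have hρd : ρ ≤ d := by
    rw [hρ]
    exact (Finset.card_le_univ _).trans (by rw [Fintype.card_fin])
  obtain ⟨M, hM⟩ : ∃ M, M + ρ + h = (d + 1) * N := by
    refine ⟨(d + 1) * N - ρ - h, ?_⟩
    have : ρ + h ≤ (d + 1) * N := by
      rw [add_mul, one_mul]
      exact Nat.add_le_add (hρd.trans (Nat.le_mul_of_pos_right _ hN0)) hhN
    omega
  have h1 := cls_Ball hE hk hkN hN hN0 (star_of_gal hgal) (fun a ha _ => by
    rw [wt_eq_dt]
    exact hadm a ha) hM
  have h2 := congrArg (algebraMap K0 Mot) h1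
  rw [map_mul, map_mul, map_pow, map_pow, map_pow, map_sub, map_one] at h2
  rw [muQ_eq, wN_eq k]
  set ℓ := algebraMap K0 Mot L with hℓ
  have h3 : algebraMap K0 Mot (cls (Ball E hE N φ k h)) =
      (ℓ - 1) ^ ρ * ℓ ^ M * PT.Lp (∑ j, k j) := by
    rw [← h2, mul_assoc, mul_comm (ℓ ^ _), Lp_mul_L, mul_one]
  have h4 : PT.Lp ((d + 1) * N) = PT.Lp M * PT.Lp ρ * PT.Lp h := by
    rw [← hM, Lp_add, Lp_add]
  have h5 : PT.Lp ρ * (ℓ - 1) ^ ρ = (1 - PT.Lp 1) ^ ρ := by
    have h6 : ∀ a : ℕ, PT.Lp a = PT.Lp 1 ^ a := by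
      intro a
      induction a with
      | zero =>
        have h8 := Lp_mul_L 0
        rw [pow_zero, mul_one] at h8
        rw [h8, pow_zero]
      | succ a ih => rw [Lp_add, ih, pow_succ]
    rw [h6 ρ, ← mul_pow, mul_sub, mul_one]
    have h7 := Lp_mul_L 1
    rw [pow_one] at h7
    rw [h7]
  calc PT.Lp ((d + 1) * N) * algebraMap K0 Mot (cls (Ball E hE N φ k h))
      = (PT.Lp M * ℓ ^ M) * (PT.Lp ρ * (ℓ - 1) ^ ρ) * PT.Lp (∑ j, k j) * PT.Lp h := by
        rw [h3, h4]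
        ring
    _ = (1 - PT.Lp 1) ^ ρ * PT.Lp (∑ j, k j) * PT.Lp h := by
        rw [Lp_mul_L, one_mul, h5]

end QO

end MPb07157

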