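import Pool.Agent.Lib.MP_b07157_agO.PA2
import Pool.Agent.Lib.MP_b07157_agO.P2

/-!
# Balls
-/

noncomputable section

namespace MPb07157

namespace QO

variable {d r : ℕ} {E : ℕ} {ζ : Fin r → PS d}

open P2

/-- The new center of a step is a center of the stage. -/
theorem Step.center {φ : PS d} {C : Finset (Fin r)} {l : Fin d → ℕ} {c : Fin r → Fin d → ℕ}
    (hst : Stage E ζ φ C l c) {φ' : PS d} {lam : Fin d → ℕ} {p s : ℕ} {v : Fin s → ℂ}
    {C₀ : Finset (Fin r)} {Cb : Fin s → Finset (Fin r)}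
    (hs : Step E ζ φ C l φ' lam p s v C₀ Cb) : Stage E ζ φ' C l c where
  zero := const_of hst.zero hs.cen
  near := fun i hi => by
    have h : ζ i - φ' = (ζ i - φ) - (φ' - φ) := by ring
    rw [h]
    exact Nr.sub (hst.near i hi) hs.cen
  far := fun i hi => by
    obtain ⟨h1, h2⟩ := hst.far i hi
    exact ⟨h1, far_of h1 h2 hs.cen⟩
  gal := fun ε hε => by
    rcases hst.gal ε hε with h | ⟨e, he, h⟩
    · exact Or.inl (hs.galp ε hε h).1
    · exact Or.inr ⟨e, he, gal_of he h hs.cen⟩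
  low := hst.low

theorem Ball_anti (hE : E ≠ 0) {N : ℕ} (φ : PS d) (k : Fin d → ℕ) {h h' : ℕ} (hh : h ≤ h') :
    Ball E hE N φ k h' ⊆ Ball E hE N φ k h := by
  rintro γ ⟨h1, t, h2, h3⟩
  exact ⟨h1, t, h2, (pow_dvd_pow _ (Nat.mul_le_mul_left _ hh)).trans h3⟩

/-- Change of the center. -/
theorem Ball_center (hE : E ≠ 0) {N : ℕ} {k : Fin d → ℕ} (hk : ∀ j, 0 < k j)
    (hkN : ∀ j, k j ≤ N) {φ φ' : PS d} (hA : Adm E φ k) (hA' : Adm E φ' k) {l : Fin d → ℕ}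
    (hN : Nr l (φ' - φ)) {h : ℕ} (hh : E * h ≤ PT.dk l k + E) :
    Ball E hE N φ' k h = Ball E hE N φ k h := by
  have hE0 := Nat.pos_of_ne_zero hE
  have key : ∀ {φ φ' : PS d}, Adm E φ k → Adm E φ' k → Nr l (φ' - φ) →
      Ball E hE N φ k h ⊆ Ball E hE N φ' k h := by
    intro φ φ' hA hA' hN γ hγ
    obtain ⟨η, h1, h2⟩ := (mem_Ball_iff_Df hE hkN).1 hγ
    refine (mem_Ball_iff_Df hE hkN).2 ⟨η, h1, ?_⟩
    have h3 : Df hE k γ η φ' = Df hE k γ η φ - ev (tOf hE k η) (φ' - φ) := by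
      unfold Df
      rw [ev_sub (const_tOf hE hk η)]
      ring
    have h4 := hN.dvd_ev hk (X_pow_dvd_tOf hE k η)
    -- `φ'(t) - φ(t)` is a power series in `σ ^ E`
    obtain ⟨f, hf⟩ := hA.ev_expand hE hk η
    obtain ⟨f', hf'⟩ := hA'.ev_expand hE hk η
    rw [ev_sub (const_tOf hE hk η), hf, hf', ← map_sub] at h4
    have h5 := expand_dvd hE (h := h) (by omega) h4
    rw [h3, ev_sub (const_tOf hE hk η), hf, hf', ← map_sub]
    exact dvd_sub h2 h5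
  refine Set.Subset.antisymm (key hA' hA ?_) (key hA hA' hN)
  have h1 : φ - φ' = -(φ' - φ) := by ring
  rw [h1]
  exact Nr.neg hN

/-- A ball around a child is contained in a ball around the parent. -/
theorem Ball_add_subset (hE : E ≠ 0) {N : ℕ} {k : Fin d → ℕ} (hk : ∀ j, 0 < k j)
    (hkN : ∀ j, k j ≤ N) (φ' : PS d) (v : ℂ) (lam : Fin d → ℕ) {h : ℕ}
    (hh : E * h ≤ PT.dk lam k) :
    Ball E hE N (φ' + MvPowerSeries.C v * mon lam) k h ⊆ Ball E hE N φ' k h := by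
  intro γ hγ
  obtain ⟨η, h1, h2⟩ := (mem_Ball_iff_Df hE hkN).1 hγ
  refine (mem_Ball_iff_Df hE hkN).2 ⟨η, h1, ?_⟩
  have h3 : Df hE k γ η φ' = Df hE k γ η (φ' + MvPowerSeries.C v * mon lam) +
      ev (tOf hE k η) (mon lam * MvPowerSeries.C v) := by
    unfold Df
    rw [ev_add (const_tOf hE hk η), mul_comm (mon lam)]
    ring
  rw [h3]
  exact dvd_add h2 ((pow_dvd_pow _ hh).trans (dvd_ev_mon hk (X_pow_dvd_tOf hE k η) lam _))

namespace PCx

/-- Two centers `φ' + w t^lam`, `φ' + w' t^lam` whose difference after `t ↦ ε t` has an exact contact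
define disjoint balls. -/
theorem disjoint_of (hE : E ≠ 0) {N : ℕ} {k : Fin d → ℕ} (hk : ∀ j, 0 < k j)
    (hkN : ∀ j, k j ≤ N) {ψ ψ' : PS d} {lam : Fin d → ℕ} (hlam : PT.dk lam k < N) {H : ℕ}
    (hH : PT.dk lam k < E * H)
    (hct : ∀ ε : Fin d → ℂ, IsRt E ε → ∃ e ≤ lam, Ct e (MvPowerSeries.rescale ε ψ' - ψ)) :
    Disjoint (Ball E hE N ψ k H) (Ball E hE N ψ' k H) := by
  rw [Set.disjoint_left]
  intro γ h1 h2
  obtain ⟨η, g1, g2⟩ := (mem_Ball_iff_Df hE hkN).1 h1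
  obtain ⟨η', g1', g2'⟩ := (mem_Ball_iff_Df hE hkN).1 h2
  obtain ⟨ε, hε, g3⟩ := g1.unique hE hkN g1'
  obtain ⟨e, he, hC⟩ := hct ε hε
  have hle : PT.dk e k ≤ PT.dk lam k := by
    unfold PT.dk
    exact Finset.sum_le_sum fun j _ => Nat.mul_le_mul (he j) le_rfl
  have g4 := dvd_sub g2 g2'
  have g5 : Df hE k γ η ψ - Df hE k γ η' ψ' =
      ev (tOf hE k η) (MvPowerSeries.rescale ε ψ' - ψ) := by
    unfold Df
    rw [ev_sub (const_tOf hE hk η), g3, ev_smul (const_tOf hE hk η)]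
    ring
  rw [g5] at g4
  exact hC.not_dvd_ev hE hk g1.adm (lt_of_le_of_lt hle hlam)
    ((pow_dvd_pow _ (Nat.succ_le_of_lt (lt_of_le_of_lt hle hH))).trans g4)

theorem ct_mon {w : ℂ} (hw : w ≠ 0) (lam : Fin d → ℕ) :
    Ct lam (MvPowerSeries.C w * mon lam : PS d) :=
  ⟨MvPowerSeries.C w, by rw [MvPowerSeries.constantCoeff_C]; exact hw, mul_comm _ _⟩

end PCx

open PCx

/-- The balls around the children are disjoint. -/
theorem Step.disjoint₀ (hE : E ≠ 0) {φ : PS d} {C : Finset (Fin r)} {l : Fin d → ℕ}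
    {c : Fin r → Fin d → ℕ} (hst : Stage E ζ φ C l c) {φ' : PS d} {lam : Fin d → ℕ} {p s : ℕ}
    {v : Fin s → ℂ} {C₀ : Finset (Fin r)} {Cb : Fin s → Finset (Fin r)}
    (hs : Step E ζ φ C l φ' lam p s v C₀ Cb) {N : ℕ} {k : Fin d → ℕ} (hk : ∀ j, 0 < k j)
    (hkN : ∀ j, k j ≤ N) (hlam : PT.dk lam k < N) {H : ℕ} (hH : PT.dk lam k < E * H)
    (a : Fin s) : Disjoint (Ball E hE N φ' k H)
      (Ball E hE N (φ' + MvPowerSeries.C (v a) * mon lam) k H) := by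
  refine disjoint_of hE hk hkN hlam hH fun ε hε => ?_
  rw [map_add, map_mul, rescale_C, rescale_mon]
  have e1 : MvPowerSeries.rescale ε φ' + MvPowerSeries.C (v a) *
      (MvPowerSeries.C (chr ε lam) * mon lam) - φ' =
      (MvPowerSeries.rescale ε φ' - φ') + MvPowerSeries.C (v a * chr ε lam) * mon lam := by
    rw [map_mul]
    ring
  rw [e1]
  rcases hst.gal ε hε with h | ⟨e, he, h⟩
  · obtain ⟨h1, h2⟩ := hs.galp ε hε h
    rw [h1, sub_self, zero_add]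
    refine ⟨lam, le_rfl, ct_mon (mul_ne_zero (hs.v_ne a) ?_) lam⟩
    intro h3
    rw [h3, zero_pow hs.hp.ne'] at h2
    exact zero_ne_one h2
  · exact ⟨e, he.trans hs.le, Ct.add_nr he (gal_of he h hs.cen) (Nr.mon hs.le hs.ne _)⟩

theorem Step.disjointb (hE : E ≠ 0) {φ : PS d} {C : Finset (Fin r)} {l : Fin d → ℕ}
    {c : Fin r → Fin d → ℕ} (hst : Stage E ζ φ C l c) {φ' : PS d} {lam : Fin d → ℕ} {p s : ℕ}
    {v : Fin s → ℂ} {C₀ : Finset (Fin r)} {Cb : Fin s → Finset (Fin r)}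
    (hs : Step E ζ φ C l φ' lam p s v C₀ Cb) {N : ℕ} {k : Fin d → ℕ} (hk : ∀ j, 0 < k j)
    (hkN : ∀ j, k j ≤ N) (hlam : PT.dk lam k < N) {H : ℕ} (hH : PT.dk lam k < E * H)
    {a b : Fin s} (hab : a ≠ b) :
    Disjoint (Ball E hE N (φ' + MvPowerSeries.C (v a) * mon lam) k H)
      (Ball E hE N (φ' + MvPowerSeries.C (v b) * mon lam) k H) := by
  refine disjoint_of hE hk hkN hlam hH fun ε hε => ?_
  rw [map_add, map_mul, rescale_C, rescale_mon]
  have e1 : MvPowerSeries.rescale ε φ' + MvPowerSeries.C (v b) *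
      (MvPowerSeries.C (chr ε lam) * mon lam) - (φ' + MvPowerSeries.C (v a) * mon lam) =
      (MvPowerSeries.rescale ε φ' - φ') +
        MvPowerSeries.C (v b * chr ε lam - v a) * mon lam := by
    rw [map_sub, map_mul]
    ring
  rw [e1]
  rcases hst.gal ε hε with h | ⟨e, he, h⟩
  · obtain ⟨h1, h2⟩ := hs.galp ε hε h
    rw [h1, sub_self, zero_add]
    refine ⟨lam, le_rfl, ct_mon (sub_ne_zero.2 ?_) lam⟩
    intro h3
    apply hab
    refine hs.v_inj a b ?_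
    rw [← h3, mul_pow, h2, mul_one]
  · exact ⟨e, he.trans hs.le, Ct.add_nr he (gal_of he h hs.cen) (Nr.mon hs.le hs.ne _)⟩

end QO

end MPb07157
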