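import Pool.Agent.Lib.MP_b07157_agO.PA2

/-!
# The order of `F` on arcs
-/

noncomputable section

namespace MPb07157

namespace QO

variable {d r : ℕ} {F : MvPowerSeries (Fin (d + 1)) ℂ} {E : ℕ} {N0 : Fin d → ℕ}
  {ζ : Fin r → PS d} {m : Fin r → ℕ} {L : Fin r → Fin r → Fin d → ℕ}

namespace PD

theorem hs_tsub {E : ℕ} (hE : 0 < E) : MvPowerSeries.HasSubst (tsub d E) := by
  refine MvPowerSeries.hasSubst_of_constantCoeff_zero fun i => ?_
  unfold tsub
  refine Fin.lastCases ?_ (fun k => ?_) i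
  · rw [Fin.lastCases_last, MvPowerSeries.constantCoeff_X]
  · rw [Fin.lastCases_castSucc, map_pow, MvPowerSeries.constantCoeff_X, zero_pow hE.ne']

theorem hs_emb : MvPowerSeries.HasSubst
    (fun k : Fin d => (MvPowerSeries.X k.castSucc : MvPowerSeries (Fin (d + 1)) ℂ)) :=
  MvPowerSeries.hasSubst_of_constantCoeff_zero fun _ => MvPowerSeries.constantCoeff_X _

/-- The arc `(t, z)`. -/
def tz {E : ℕ} (hE : E ≠ 0) {N : ℕ} (k : Fin d → ℕ) (γ : Fin (d + 1) × Fin N → ℂ)
    (η : Fin d → PowerSeries ℂ) : Fin (d + 1) → PowerSeries ℂ :=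
  Fin.lastCases (PowerSeries.expand E hE (arc γ (Fin.last d))) (tOf hE k η)

theorem tz_last {E : ℕ} (hE : E ≠ 0) {N : ℕ} (k : Fin d → ℕ) (γ : Fin (d + 1) × Fin N → ℂ)
    (η : Fin d → PowerSeries ℂ) :
    tz hE k γ η (Fin.last d) = PowerSeries.expand E hE (arc γ (Fin.last d)) := by
  unfold tz
  rw [Fin.lastCases_last]

theorem tz_castSucc {E : ℕ} (hE : E ≠ 0) {N : ℕ} (k : Fin d → ℕ) (γ : Fin (d + 1) × Fin N → ℂ)
    (η : Fin d → PowerSeries ℂ) (j : Fin d) : tz hE k γ η j.castSucc = tOf hE k η j := by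
  unfold tz
  rw [Fin.lastCases_castSucc]

theorem tz_const {E : ℕ} (hE : E ≠ 0) {N : ℕ} {k : Fin d → ℕ} (hk : ∀ j, 0 < k j)
    {γ : Fin (d + 1) × Fin N → ℂ} (hz : PowerSeries.constantCoeff (arc γ (Fin.last d)) = 0)
    (η : Fin d → PowerSeries ℂ) (i : Fin (d + 1)) :
    PowerSeries.constantCoeff (tz hE k γ η i) = 0 := by
  refine Fin.lastCases ?_ (fun j => ?_) i
  · rw [tz_last, PowerSeries.constantCoeff_expand, hz]
  · rw [tz_castSucc, const_tOf hE hk]

theorem ev_one {n : ℕ} {t : Fin n → PowerSeries ℂ} (ht : ∀ j, PowerSeries.constantCoeff (t j) = 0) :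
    ev t (1 : MvPowerSeries (Fin n) ℂ) = 1 := by
  have h1 := ev_C ht (1 : ℂ)
  rwa [map_one, map_one] at h1

theorem ev_prod {n : ℕ} {t : Fin n → PowerSeries ℂ} (ht : ∀ j, PowerSeries.constantCoeff (t j) = 0)
    {ι : Type} (s : Finset ι) (a : ι → MvPowerSeries (Fin n) ℂ) :
    ev t (∏ i ∈ s, a i) = ∏ i ∈ s, ev t (a i) := by
  classical
  induction s using Finset.induction_on with
  | empty => rw [Finset.prod_empty, Finset.prod_empty, ev_one ht]
  | insert i s hi ih => rw [Finset.prod_insert hi, Finset.prod_insert hi, ev_mul ht, ih]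

/-- `F` at the arc, after the substitution `σ ↦ σ^E`. -/
theorem expand_ev (h : IsQO F E N0 ζ m L) {N : ℕ} {k : Fin d → ℕ} (hk : ∀ j, 0 < k j)
    {γ : Fin (d + 1) × Fin N → ℂ} {η : Fin d → PowerSeries ℂ} (hγ : LiftE E k γ η)
    (hz : PowerSeries.constantCoeff (arc γ (Fin.last d)) = 0) :
    ∃ U : PowerSeries ℂ, PowerSeries.constantCoeff U ≠ 0 ∧
      PowerSeries.expand E h.hE.ne' (ev (arc γ) F) =
        U * (∏ j, tOf h.hE.ne' k η j ^ (E * N0 j)) * ∏ i, Df h.hE.ne' k γ η (ζ i) ^ m i := by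
  obtain ⟨U, hU, hF⟩ := h.hF
  have ht := tz_const h.hE.ne' hk hz η
  have hs := hasSubst_of_const ht
  have hct : ∀ i, PowerSeries.constantCoeff (arc γ i) = 0 := by
    intro i
    refine Fin.lastCases hz (fun j => ?_) i
    rw [hγ.eq j, map_mul, map_pow, PowerSeries.constantCoeff_X, zero_pow (hk j).ne', zero_mul]
  refine ⟨ev (tz h.hE.ne' k γ η) U, ?_, ?_⟩
  · rw [constantCoeff_ev ht]
    exact hU
  · have h1 : PowerSeries.expand E h.hE.ne' (ev (arc γ) F) =
        ev (tz h.hE.ne' k γ η) (MvPowerSeries.subst (tsub d E) F) := by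
      unfold ev
      rw [MvPowerSeries.subst_comp_subst_apply (hs_tsub h.hE) hs]
      have h2 : (fun i => MvPowerSeries.subst (tz h.hE.ne' k γ η : Fin (d + 1) →
          MvPowerSeries Unit ℂ) (tsub d E i)) =
          fun i => (PowerSeries.expand E h.hE.ne' (arc γ i) : MvPowerSeries Unit ℂ) := by
        funext i
        refine Fin.lastCases ?_ (fun j => ?_) i
        · unfold tsub
          rw [Fin.lastCases_last, MvPowerSeries.subst_X hs, tz_last]
        · unfold tsub
          rw [Fin.lastCases_castSucc, MvPowerSeries.subst_pow hs, MvPowerSeries.subst_X hs,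
            tz_castSucc]
          rw [hγ.eq j]
          exact tOf_pow h.hE.ne' k η j
      rw [h2]
      exact MvPowerSeries.expand_subst E h.hE.ne' (hasSubst_of_const hct) (φ := F)
    have h3 : ∀ a : PS d, ev (tz h.hE.ne' k γ η) (emb a) = ev (tOf h.hE.ne' k η) a := by
      intro a
      unfold ev emb
      rw [MvPowerSeries.subst_comp_subst_apply hs_emb hs]
      congr 1
      funext j
      rw [MvPowerSeries.subst_X hs, tz_castSucc]
    rw [h1, hF, ev_mul ht, ev_mul ht]
    congr 1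
    · congr 1
      rw [ev_prod ht]
      refine Finset.prod_congr rfl fun j _ => ?_
      rw [ev_pow ht, ev_X ht, tz_castSucc]
    · rw [ev_prod ht]
      refine Finset.prod_congr rfl fun i _ => ?_
      rw [ev_pow ht, ev_sub ht, ev_X ht, tz_last, h3]
      rfl

end PD

/-- Evaluate `F(t^E, z) = U t^(E N0) ∏ (z - ζ_i)^(m_i)` at the lift: a lower bound of the order. -/
theorem order_F_ne (h : IsQO F E N0 ζ m L) {N : ℕ} {k : Fin d → ℕ} (hk : ∀ j, 0 < k j)
    {γ : Fin (d + 1) × Fin N → ℂ} {η : Fin d → PowerSeries ℂ} (hγ : LiftE E k γ η)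
    (hz : PowerSeries.constantCoeff (arc γ (Fin.last d)) = 0) {b : Fin r → ℕ}
    (hb : ∀ i, (PowerSeries.X : PowerSeries ℂ) ^ b i ∣ Df h.hE.ne' k γ η (ζ i)) {q : ℕ}
    (hq : E * q < E * PT.dk N0 k + ∑ i, m i * b i) : (ev (arc γ) F).order ≠ q := by
  obtain ⟨U, hU, hG⟩ := PD.expand_ev h hk hγ hz
  have h1 : (PowerSeries.X : PowerSeries ℂ) ^ (E * PT.dk N0 k + ∑ i, m i * b i) ∣
      PowerSeries.expand E h.hE.ne' (ev (arc γ) F) := by
    rw [hG, pow_add, PT.dk, Finset.mul_sum, ← Finset.prod_pow_eq_pow_sum,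
      ← Finset.prod_pow_eq_pow_sum]
    refine mul_dvd_mul (Dvd.dvd.mul_left ?_ U) ?_
    · refine Finset.prod_dvd_prod_of_dvd _ _ fun j _ => ?_
      rw [← mul_assoc, mul_comm (E * N0 j), pow_mul]
      exact pow_dvd_pow_of_dvd (X_pow_dvd_tOf h.hE.ne' k η j) _
    · refine Finset.prod_dvd_prod_of_dvd _ _ fun i _ => ?_
      rw [mul_comm (m i), pow_mul]
      exact pow_dvd_pow_of_dvd (hb i) _
  intro h2
  have h3 := PowerSeries.order_expand (p := E) (hp := h.hE.ne') (φ := ev (arc γ) F)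
  have h4 : ((E * PT.dk N0 k + ∑ i, m i * b i : ℕ) : ℕ∞) ≤
      (PowerSeries.expand E h.hE.ne' (ev (arc γ) F)).order :=
    PowerSeries.le_order _ _ fun i hi => PowerSeries.X_pow_dvd_iff.1 h1 i (by exact_mod_cast hi)
  rw [h3, h2, nsmul_eq_mul] at h4
  have h5 : (E * PT.dk N0 k + ∑ i, m i * b i : ℕ) ≤ E * q := by
    exact_mod_cast h4
  omega

/-- The exact order. -/
theorem order_F_iff (h : IsQO F E N0 ζ m L) {N : ℕ} {k : Fin d → ℕ} (hk : ∀ j, 0 < k j)
    (hkN : ∀ j, k j ≤ N)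
    {γ : Fin (d + 1) × Fin N → ℂ} {η : Fin d → PowerSeries ℂ} (hγ : LiftE E k γ η)
    (hz : PowerSeries.constantCoeff (arc γ (Fin.last d)) = 0) {b : Fin r → ℕ}
    (hb : ∀ i, (PowerSeries.X : PowerSeries ℂ) ^ b i ∣ Df h.hE.ne' k γ η (ζ i))
    (hb' : ∀ i, b i < N →
      ¬ (PowerSeries.X : PowerSeries ℂ) ^ (b i + 1) ∣ Df h.hE.ne' k γ η (ζ i)) {q : ℕ}
    (hq : E * q < N) :
    (ev (arc γ) F).order = q ↔ E * PT.dk N0 k + ∑ i, m i * b i = E * q := by
  classical
  by_cases hex : (∀ j, N0 j ≠ 0 → k j < N) ∧ ∀ i, b i < N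
  · obtain ⟨hex1, hex2⟩ := hex
    obtain ⟨U, hU, hG⟩ := PD.expand_ev h hk hγ hz
    choose g hg using hb
    have hg0 : ∀ i, PowerSeries.constantCoeff (g i) ≠ 0 := by
      intro i h0
      apply hb' i (hex2 i)
      rw [hg i, pow_succ]
      exact mul_dvd_mul_left _ (PowerSeries.X_dvd_iff.2 h0)
    have h1 : PowerSeries.expand E h.hE.ne' (ev (arc γ) F) =
        PowerSeries.X ^ (E * PT.dk N0 k + ∑ i, m i * b i) *
          (U * (∏ j, PowerSeries.expand E h.hE.ne' (η j) ^ (E * N0 j)) * ∏ i, g i ^ m i) := by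
      have e1 : ∏ j, tOf h.hE.ne' k η j ^ (E * N0 j) = PowerSeries.X ^ (E * PT.dk N0 k) *
          ∏ j, PowerSeries.expand E h.hE.ne' (η j) ^ (E * N0 j) := by
        rw [PT.dk, Finset.mul_sum, ← Finset.prod_pow_eq_pow_sum, ← Finset.prod_mul_distrib]
        refine Finset.prod_congr rfl fun j _ => ?_
        have e3 : k j * (E * N0 j) = E * (N0 j * k j) := by ring
        rw [tOf, mul_pow, ← pow_mul, e3]
      have e2 : ∏ i, Df h.hE.ne' k γ η (ζ i) ^ m i = PowerSeries.X ^ (∑ i, m i * b i) *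
          ∏ i, g i ^ m i := by
        rw [← Finset.prod_pow_eq_pow_sum, ← Finset.prod_mul_distrib]
        refine Finset.prod_congr rfl fun i _ => ?_
        rw [hg i, mul_pow, ← pow_mul, mul_comm (b i)]
      rw [hG, e1, e2, pow_add]
      ring
    have h2 : PowerSeries.constantCoeff
        (U * (∏ j, PowerSeries.expand E h.hE.ne' (η j) ^ (E * N0 j)) * ∏ i, g i ^ m i) ≠ 0 := by
      rw [map_mul, map_mul, map_prod, map_prod]
      refine mul_ne_zero (mul_ne_zero hU ?_) ?_
      · refine Finset.prod_ne_zero_iff.2 fun j _ => ?_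
        rw [map_pow, PowerSeries.constantCoeff_expand]
        by_cases hj : N0 j = 0
        · rw [hj, mul_zero, pow_zero]
          exact one_ne_zero
        · exact pow_ne_zero _ (hγ.adm.unit j (hex1 j hj))
      · refine Finset.prod_ne_zero_iff.2 fun i _ => ?_
        rw [map_pow]
        exact pow_ne_zero _ (hg0 i)
    have h3 : (PowerSeries.expand E h.hE.ne' (ev (arc γ) F)).order =
        ((E * PT.dk N0 k + ∑ i, m i * b i : ℕ) : ℕ∞) := by
      rw [h1, PowerSeries.order_mul, PowerSeries.order_X_pow]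
      have h4 : (U * (∏ j, PowerSeries.expand E h.hE.ne' (η j) ^ (E * N0 j)) *
          ∏ i, g i ^ m i).order = 0 := by
        by_contra h4
        exact h2 (PowerSeries.order_ne_zero_iff_constCoeff_eq_zero.1 h4)
      rw [h4, add_zero]
    rw [PowerSeries.order_expand] at h3
    constructor
    · intro h4
      rw [h4, nsmul_eq_mul] at h3
      exact_mod_cast h3.symm
    · intro h4
      rw [h4] at h3
      exact (smul_eq_iff h.hE _).1 h3
  · have hbig : N ≤ E * PT.dk N0 k + ∑ i, m i * b i := by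
      rw [not_and_or] at hex
      rcases hex with hex | hex
      · push Not at hex
        obtain ⟨j, hj, hkj⟩ := hex
        have h1 : N0 j * k j ≤ PT.dk N0 k := by
          unfold PT.dk
          exact Finset.single_le_sum (f := fun j => N0 j * k j) (fun _ _ => Nat.zero_le _)
            (Finset.mem_univ j)
        have h2 : N ≤ N0 j * k j := hkj.trans (Nat.le_mul_of_pos_left _ (Nat.pos_of_ne_zero hj))
        have h3 : PT.dk N0 k ≤ E * PT.dk N0 k := Nat.le_mul_of_pos_left _ h.hE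
        omega
      · push Not at hex
        obtain ⟨i, hi⟩ := hex
        have h1 : m i * b i ≤ ∑ i, m i * b i :=
          Finset.single_le_sum (f := fun i => m i * b i) (fun _ _ => Nat.zero_le _)
            (Finset.mem_univ i)
        have h2 : N ≤ m i * b i := hi.trans (Nat.le_mul_of_pos_left _ (h.hm i))
        omega
    have h1 := order_F_ne h hk hγ hz hb (q := q) (by omega)
    constructor
    · intro h2
      exact absurd h2 h1
    · intro h2
      omega

end QO

end MPb07157
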