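import Pool.Agent.Lib.MP_b07157_agO.PC
import Pool.Agent.Lib.MP_b07157_agO.PD
import Pool.Agent.Lib.MP_b07157_agO.P3

/-!
# The order of `F` on balls
-/

noncomputable section

namespace MPb07157

namespace QO

variable {d r : ℕ} {F : MvPowerSeries (Fin (d + 1)) ℂ} {E : ℕ} {N0 : Fin d → ℕ}
  {ζ : Fin r → PS d} {m : Fin r → ℕ} {L : Fin r → Fin r → Fin d → ℕ}

namespace PE

theorem Df_sub {E : ℕ} (hE : E ≠ 0) {N : ℕ} {k : Fin d → ℕ} (hk : ∀ j, 0 < k j)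
    (γ : Fin (d + 1) × Fin N → ℂ) (η : Fin d → PowerSeries ℂ) (φ ψ : PS d) :
    Df hE k γ η ψ = Df hE k γ η φ - ev (tOf hE k η) (ψ - φ) := by
  unfold Df
  rw [ev_sub (const_tOf hE hk η)]
  ring

theorem const_arc_last {E : ℕ} (hE : E ≠ 0) {N : ℕ} {k : Fin d → ℕ} (hk : ∀ j, 0 < k j)
    {γ : Fin (d + 1) × Fin N → ℂ} {η : Fin d → PowerSeries ℂ} {φ : PS d}
    (h0 : MvPowerSeries.constantCoeff φ = 0) {B : ℕ} (hB0 : 0 < B)
    (hB : (PowerSeries.X : PowerSeries ℂ) ^ B ∣ Df hE k γ η φ) :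
    PowerSeries.constantCoeff (arc γ (Fin.last d)) = 0 := by
  have h3 := PowerSeries.X_dvd_iff.1 ((dvd_pow_self (PowerSeries.X : PowerSeries ℂ)
    hB0.ne').trans hB)
  unfold Df at h3
  rwa [map_sub, PowerSeries.constantCoeff_expand, constantCoeff_ev (const_tOf hE hk η), h0,
    sub_zero] at h3

open Classical in
/-- The contacts of the roots with an arc. -/
def bb (C : Finset (Fin r)) (c : Fin r → Fin d → ℕ) (k : Fin d → ℕ) (B : ℕ) (i : Fin r) : ℕ :=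
  if i ∈ C then B else PT.dk (c i) k

theorem sum_bb (E : ℕ) (N0 : Fin d → ℕ) (m : Fin r → ℕ) (C : Finset (Fin r))
    (c : Fin r → Fin d → ℕ) (k : Fin d → ℕ) (B : ℕ) :
    E * PT.dk N0 k + ∑ i, m i * bb C c k B i = PT.dk (AA E N0 m C c) k + mss m C * B := by
  have h1 : PT.dk (AA E N0 m C c) k = E * PT.dk N0 k + ∑ i ∈ Cᶜ, m i * PT.dk (c i) k := by
    unfold PT.dk AA
    simp only [add_mul, Finset.sum_add_distrib, Finset.sum_mul, Finset.mul_sum, mul_assoc]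
    rw [Finset.sum_comm]
  have h2 : ∑ i, m i * bb C c k B i = ∑ i ∈ C, m i * B + ∑ i ∈ Cᶜ, m i * PT.dk (c i) k := by
    rw [← Finset.sum_add_sum_compl C]
    congr 1
    · refine Finset.sum_congr rfl fun i hi => ?_
      unfold bb
      rw [if_pos hi]
    · refine Finset.sum_congr rfl fun i hi => ?_
      unfold bb
      rw [if_neg (Finset.mem_compl.1 hi)]
  rw [h1, h2, mss, Finset.sum_mul]
  ring

end PE

open PE

/-- The roots outside of `C`. -/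
theorem Stage.far_dvd (hE : E ≠ 0) {φ : PS d} {C : Finset (Fin r)} {l : Fin d → ℕ}
    {c : Fin r → Fin d → ℕ} (hst : Stage E ζ φ C l c) {N : ℕ} {k : Fin d → ℕ}
    (hk : ∀ j, 0 < k j) {γ : Fin (d + 1) × Fin N → ℂ} {η : Fin d → PowerSeries ℂ}
    (hη : UAdm N k η) {B : ℕ} (hl : PT.dk l k < B)
    (hB : (PowerSeries.X : PowerSeries ℂ) ^ B ∣ Df hE k γ η φ) {i : Fin r} (hi : i ∉ C) :
    (PowerSeries.X : PowerSeries ℂ) ^ PT.dk (c i) k ∣ Df hE k γ η (ζ i) ∧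
      (PT.dk (c i) k < N →
        ¬ (PowerSeries.X : PowerSeries ℂ) ^ (PT.dk (c i) k + 1) ∣ Df hE k γ η (ζ i)) := by
  obtain ⟨h1, h2⟩ := hst.far i hi
  have h3 : PT.dk (c i) k ≤ PT.dk l k := by
    unfold PT.dk
    exact Finset.sum_le_sum fun j _ => Nat.mul_le_mul (h1 j) le_rfl
  rw [Df_sub hE hk γ η φ (ζ i)]
  refine ⟨dvd_sub ((pow_dvd_pow _ (h3.trans hl.le)).trans hB)
    (h2.dvd_ev hk (X_pow_dvd_tOf hE k η)), fun h4 h5 => ?_⟩
  refine h2.not_dvd_ev hE hk hη h4 ?_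
  have h6 := (pow_dvd_pow (PowerSeries.X : PowerSeries ℂ) (Nat.succ_le_of_lt
    (lt_of_le_of_lt h3 hl))).trans hB
  exact (dvd_sub_right h6).1 h5

/-- The order of `F` if all roots of `C` have the contact `B` with the arc. -/
theorem Stage.order_iff (h : IsQO F E N0 ζ m L) {φ : PS d} {C : Finset (Fin r)}
    {l : Fin d → ℕ} {c : Fin r → Fin d → ℕ} (hst : Stage E ζ φ C l c) {N : ℕ}
    {k : Fin d → ℕ} (hk : ∀ j, 0 < k j) (hkN : ∀ j, k j ≤ N)
    {γ : Fin (d + 1) × Fin N → ℂ} {η : Fin d → PowerSeries ℂ} (hγ : LiftE E k γ η) {B : ℕ}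
    (hl : PT.dk l k < B)
    (hB : (PowerSeries.X : PowerSeries ℂ) ^ B ∣ Df h.hE.ne' k γ η φ)
    (hC : ∀ i ∈ C, (PowerSeries.X : PowerSeries ℂ) ^ B ∣ Df h.hE.ne' k γ η (ζ i) ∧
      ¬ (PowerSeries.X : PowerSeries ℂ) ^ (B + 1) ∣ Df h.hE.ne' k γ η (ζ i)) {q : ℕ}
    (hq : E * q < N) :
    (ev (arc γ) F).order = q ↔ PT.dk (AA E N0 m C c) k + mss m C * B = E * q := by
  have hz := const_arc_last h.hE.ne' hk hst.zero (by omega) hB
  rw [← sum_bb E N0 m C c k B]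
  refine order_F_iff h hk hkN hγ hz (b := bb C c k B) (fun i => ?_) (fun i => ?_) hq
  · unfold bb
    split_ifs with hi
    · exact (hC i hi).1
    · exact (hst.far_dvd h.hE.ne' hk hγ.adm hl hB hi).1
  · unfold bb
    split_ifs with hi
    · exact fun _ => (hC i hi).2
    · exact (hst.far_dvd h.hE.ne' hk hγ.adm hl hB hi).2

theorem Stage.order_ne (h : IsQO F E N0 ζ m L) {φ : PS d} {C : Finset (Fin r)}
    {l : Fin d → ℕ} {c : Fin r → Fin d → ℕ} (hst : Stage E ζ φ C l c) {N : ℕ}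
    {k : Fin d → ℕ} (hk : ∀ j, 0 < k j) (hkN : ∀ j, k j ≤ N)
    {γ : Fin (d + 1) × Fin N → ℂ} {η : Fin d → PowerSeries ℂ} (hγ : LiftE E k γ η) {B : ℕ}
    (hl : PT.dk l k < B)
    (hB : (PowerSeries.X : PowerSeries ℂ) ^ B ∣ Df h.hE.ne' k γ η φ)
    (hC : ∀ i ∈ C, (PowerSeries.X : PowerSeries ℂ) ^ B ∣ Df h.hE.ne' k γ η (ζ i)) {q : ℕ}
    (hq : E * q < PT.dk (AA E N0 m C c) k + mss m C * B) : (ev (arc γ) F).order ≠ q := by
  have hz := const_arc_last h.hE.ne' hk hst.zero (by omega) hB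
  rw [← sum_bb E N0 m C c k B] at hq
  refine order_F_ne h hk hγ hz (b := bb C c k B) (fun i => ?_) hq
  unfold bb
  split_ifs with hi
  · exact hC i hi
  · exact (hst.far_dvd h.hE.ne' hk hγ.adm hl hB hi).1

/-! ### On balls -/

/-- The roots of `C` compared with the center on a ball: the root is the center, or it has the
contact `lam` with it. -/
def Cl (ζ : Fin r → PS d) (φ : PS d) (C : Finset (Fin r)) (k : Fin d → ℕ) (B : ℕ) : Prop :=
  ∀ i ∈ C, ζ i = φ ∨ ∃ (lam : Fin d → ℕ) (g : PS d), ζ i - φ = mon lam * g ∧ B ≤ PT.dk lam k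

/-- No roots. -/
theorem Stage.order_leaf (h : IsQO F E N0 ζ m L) {φ : PS d} {l : Fin d → ℕ}
    {c : Fin r → Fin d → ℕ} (hst : Stage E ζ φ ∅ l c) {N : ℕ} {k : Fin d → ℕ}
    (hk : ∀ j, 0 < k j) (hkN : ∀ j, k j ≤ N) {R : ℕ} (hR : PT.dk l k < E * R)
    {γ : Fin (d + 1) × Fin N → ℂ} (hγ : γ ∈ Ball E h.hE.ne' N φ k R) {q : ℕ}
    (hq : E * q < N) :
    (ev (arc γ) F).order = q ↔ PT.dk (AA E N0 m ∅ c) k = E * q := by
  obtain ⟨η, h1, h2⟩ := (mem_Ball_iff_Df h.hE.ne' hkN).1 hγ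
  have h3 := Stage.order_iff h hst hk hkN h1 hR h2 (fun i hi => absurd hi (Finset.notMem_empty i))
    hq
  rwa [mss, Finset.sum_empty, zero_mul, add_zero] at h3

/-- Shells. -/
theorem Stage.order_shell (h : IsQO F E N0 ζ m L) {φ : PS d} {C : Finset (Fin r)}
    {l : Fin d → ℕ} {c : Fin r → Fin d → ℕ} (hst : Stage E ζ φ C l c) {N : ℕ}
    {k : Fin d → ℕ} (hk : ∀ j, 0 < k j) (hkN : ∀ j, k j ≤ N) (hA : Adm E φ k) {R : ℕ}
    (hR : PT.dk l k < E * R) (hC : Cl ζ φ C k (E * R + 1)) {γ : Fin (d + 1) × Fin N → ℂ}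
    (hγ : γ ∈ Ball E h.hE.ne' N φ k R) (hγ' : γ ∉ Ball E h.hE.ne' N φ k (R + 1)) {q : ℕ}
    (hq : E * q < N) :
    (ev (arc γ) F).order = q ↔ PT.dk (AA E N0 m C c) k + mss m C * (E * R) = E * q := by
  obtain ⟨η, h1, h2⟩ := (mem_Ball_iff_Df h.hE.ne' hkN).1 hγ
  have hnot : ¬ (PowerSeries.X : PowerSeries ℂ) ^ (E * R + 1) ∣ Df h.hE.ne' k γ η φ := by
    intro h3
    apply hγ'
    refine (mem_Ball_iff_Df h.hE.ne' hkN).2 ⟨η, h1, hA.Df_dvd h.hE.ne' hk ?_ h3⟩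
    rw [Nat.mul_add, mul_one]
    omega
  have hroot : ∀ i ∈ C, (PowerSeries.X : PowerSeries ℂ) ^ (E * R + 1) ∣
      ev (tOf h.hE.ne' k η) (ζ i - φ) := by
    intro i hi
    rcases hC i hi with h3 | ⟨lam, g, h3, h4⟩
    · rw [h3, sub_self]
      have h5 := ev_sub (const_tOf h.hE.ne' hk η) (0 : PS d) 0
      rw [sub_zero, sub_self] at h5
      rw [h5]
      exact dvd_zero _
    · rw [h3]
      exact (pow_dvd_pow _ h4).trans (dvd_ev_mon hk (X_pow_dvd_tOf h.hE.ne' k η) lam g)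
  refine Stage.order_iff h hst hk hkN h1 hR h2 (fun i hi => ?_) hq
  rw [Df_sub h.hE.ne' hk γ η φ (ζ i)]
  refine ⟨dvd_sub h2 ((pow_dvd_pow _ (Nat.le_succ _)).trans (hroot i hi)), fun h3 => hnot ?_⟩
  exact (dvd_sub_left (hroot i hi)).1 h3

/-- The order is large on small balls. -/
theorem order_small (h : IsQO F E N0 ζ m L) {φ : PS d}
    (h0 : MvPowerSeries.constantCoeff φ = 0) {C : Finset (Fin r)} (hCne : C.Nonempty) {N : ℕ}
    {k : Fin d → ℕ} (hk : ∀ j, 0 < k j) (hkN : ∀ j, k j ≤ N) {R : ℕ}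
    (hC : Cl ζ φ C k (E * R)) {γ : Fin (d + 1) × Fin N → ℂ}
    (hγ : γ ∈ Ball E h.hE.ne' N φ k R) {q : ℕ} (hq : q < R) : (ev (arc γ) F).order ≠ q := by
  classical
  obtain ⟨η, h1, h2⟩ := (mem_Ball_iff_Df h.hE.ne' hkN).1 hγ
  have hR0 : 0 < E * R := Nat.mul_pos h.hE (by omega)
  have hz := const_arc_last h.hE.ne' hk h0 hR0 h2
  refine order_F_ne h hk h1 hz (b := fun i => if i ∈ C then E * R else 0) (fun i => ?_) ?_
  · beta_reduce
    split_ifs with hi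
    · rw [Df_sub h.hE.ne' hk γ η φ (ζ i)]
      refine dvd_sub h2 ?_
      rcases hC i hi with h3 | ⟨lam, g, h3, h4⟩
      · rw [h3, sub_self]
        have h5 := ev_sub (const_tOf h.hE.ne' hk η) (0 : PS d) 0
        rw [sub_zero, sub_self] at h5
        rw [h5]
        exact dvd_zero _
      · rw [h3]
        exact (pow_dvd_pow _ h4).trans (dvd_ev_mon hk (X_pow_dvd_tOf h.hE.ne' k η) lam g)
    · rw [pow_zero]
      exact one_dvd _
  · obtain ⟨i, hi⟩ := hCne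
    have h3 : E * R ≤ ∑ i, m i * (if i ∈ C then E * R else 0) := by
      refine le_trans ?_ (Finset.single_le_sum
        (f := fun i => m i * (if i ∈ C then E * R else 0)) (fun _ _ => Nat.zero_le _)
        (Finset.mem_univ i))
      beta_reduce
      rw [if_pos hi]
      exact Nat.le_mul_of_pos_left _ (h.hm i)
    have h5 : E * q < E * R := (Nat.mul_lt_mul_left h.hE).2 hq
    omega

/-- The vertex. -/
theorem Step.order_vertex (h : IsQO F E N0 ζ m L) {φ : PS d} {C : Finset (Fin r)}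
    {l : Fin d → ℕ} {c : Fin r → Fin d → ℕ} (hst : Stage E ζ φ C l c) {φ' : PS d}
    {lam : Fin d → ℕ} {p s : ℕ} {v : Fin s → ℂ} {C₀ : Finset (Fin r)}
    {Cb : Fin s → Finset (Fin r)} (hs : Step E ζ φ C l φ' lam p s v C₀ Cb) {N : ℕ}
    {k : Fin d → ℕ} (hk : ∀ j, 0 < k j) (hkN : ∀ j, k j ≤ N) (hA : Adm E φ k) {R : ℕ}
    (hR : PT.dk lam k = E * R) (hl : PT.dk l k < E * R) {γ : Fin (d + 1) × Fin N → ℂ}
    (hγ : γ ∈ Ball E h.hE.ne' N φ' k R) (hγ' : γ ∉ Ball E h.hE.ne' N φ' k (R + 1))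
    (hγb : ∀ a, γ ∉ Ball E h.hE.ne' N (φ' + MvPowerSeries.C (v a) * mon lam) k (R + 1)) {q : ℕ}
    (hq : E * q < N) :
    (ev (arc γ) F).order = q ↔ PT.dk (AA E N0 m C c) k + mss m C * PT.dk lam k = E * q := by
  have hE := h.hE.ne'
  obtain ⟨η, h1, h2⟩ := (mem_Ball_iff_Df hE hkN).1 hγ
  -- admissibility of the centers
  have hAZ := (adm_iff_admZ φ k).1 hA
  have hA' : Adm E φ' k := (adm_iff_admZ φ' k).2 (hs.admZ₀ h.hE hAZ).1
  have hlamE : (E : ℤ) ∣ ∑ j, (lam j : ℤ) * (k j : ℤ) := by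
    have h3 : (∑ j, (lam j : ℤ) * (k j : ℤ)) = ((PT.dk lam k : ℕ) : ℤ) := by
      unfold PT.dk
      push_cast
      rfl
    rw [h3, hR]
    exact ⟨R, by push_cast; ring⟩
  have hAb : ∀ a, Adm E (φ' + MvPowerSeries.C (v a) * mon lam) k := fun a =>
    (adm_iff_admZ _ k).2 ((hs.admZb h.hE hAZ a).2 hlamE)
  have hER : E * (R + 1) < E * R + 1 + E := by
    rw [Nat.mul_add, mul_one]
    omega
  have hval : ∀ i ∈ C, (PowerSeries.X : PowerSeries ℂ) ^ (E * R) ∣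
      ev (tOf hE k η) (ζ i - φ') := by
    intro i hi
    obtain ⟨g, hg⟩ := hs.val i hi
    rw [hg, ← hR]
    exact dvd_ev_mon hk (X_pow_dvd_tOf hE k η) lam g
  rw [hR]
  refine Stage.order_iff h (hs.center hst) hk hkN h1 hl h2 (fun i hi => ⟨?_, fun h3 => ?_⟩) hq
  · rw [Df_sub hE hk γ η φ' (ζ i)]
    exact dvd_sub h2 (hval i hi)
  · by_cases hi0 : i ∈ C₀
    · have h4 := ((hs.memC₀ i).1 hi0).2.dvd_ev hk (X_pow_dvd_tOf hE k η)
      rw [hR] at h4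
      rw [Df_sub hE hk γ η φ' (ζ i)] at h3
      exact hγ' ((mem_Ball_iff_Df hE hkN).2 ⟨η, h1, hA'.Df_dvd hE hk hER
        ((dvd_sub_left h4).1 h3)⟩)
    · obtain ⟨a, ω, hω, h4⟩ := hs.cover i hi hi0
      obtain ⟨ε, hε, hεφ, hεω⟩ := hs.gals ω hω
      have hεφ' := (hs.galp ε hε hεφ).1
      obtain ⟨h5, h6⟩ := h1.smul hE hε
      have h7 : MvPowerSeries.rescale ε (φ' + MvPowerSeries.C (v a) * mon lam) =
          φ' + MvPowerSeries.C (ω * v a) * mon lam := by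
        rw [map_add, map_mul, P2.rescale_C, P2.rescale_mon, hεφ', hεω, map_mul]
        ring
      have h8 : Df hE k γ (fun j => PowerSeries.C (ε j) * η j)
          (φ' + MvPowerSeries.C (v a) * mon lam) =
          Df hE k γ η (φ' + MvPowerSeries.C (ω * v a) * mon lam) := by
        unfold Df
        rw [h6, ev_smul (const_tOf hE hk η), h7]
      have h9 := h4.dvd_ev hk (X_pow_dvd_tOf hE k η)
      rw [hR] at h9
      rw [Df_sub hE hk γ η (φ' + MvPowerSeries.C (ω * v a) * mon lam) (ζ i)] at h3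
      refine hγb a ((mem_Ball_iff_Df hE hkN).2 ⟨_, h5, (hAb a).Df_dvd hE hk hER ?_⟩)
      rw [h8]
      exact (dvd_sub_left h9).1 h3

end QO

end MPb07157
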