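import Pool.Agent.Lib.MP_b07157_agO.PM
import Pool.Agent.Lib.MP_b07157_agO.PA2

/-!
# Decomposition of the zeta function by the orders of `x`
-/

noncomputable section

namespace MPb07157

open MvPolynomial

namespace QO

variable {d N : ℕ}

theorem isConstr_XStr (N : ℕ) (k : Fin d → ℕ) : IsConstr (XStr N k) :=
  (isConstr_Strat N k).reindex (fun p : Fin d × Fin N => (p.1.castSucc, p.2))

theorem exists_Strat {n : ℕ} (hN : 1 ≤ N) {γ : Fin n × Fin N → ℂ} (hγ : γ ∈ Start n 1 N) :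
    ∃ c ∈ Fintype.piFinset (fun _ : Fin n => Finset.Icc 1 N), γ ∈ Strat N c := by
  have h1 : γ ∈ arcs (1 : MvPolynomial (Fin n) ℂ) N 0 ∩ Start n 1 N := by
    refine ⟨?_, hγ⟩
    unfold arcs
    rw [Set.mem_ofPred_eq, map_one, PowerSeries.order_one]
    rfl
  rw [arcs_eq_iUnion _ 0 hN] at h1
  simp only [Set.mem_iUnion, exists_prop] at h1
  obtain ⟨c, hc, h2⟩ := h1
  exact ⟨c, hc, h2.2⟩

theorem disjoint_XStr {k k' : Fin d → ℕ} (hk : ∀ j, k j ≤ N) (hk' : ∀ j, k' j ≤ N)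
    (h : k ≠ k') : Disjoint (XStr N k) (XStr N k') := by
  rw [Set.disjoint_left]
  intro γ h1 h2
  exact Set.disjoint_left.1 (disjoint_Strat hk hk' h) h1 h2

/-- The ball of radius `1` around the origin. -/
theorem mem_Ball_one {E : ℕ} (hE : E ≠ 0) {k : Fin d → ℕ} (hk : ∀ j, 0 < k j)
    (hkN : ∀ j, k j ≤ N)
    {γ : Fin (d + 1) × Fin N → ℂ} (hγ : γ ∈ Start (d + 1) 1 N) :
    γ ∈ Ball E hE N (0 : PS d) k 1 ↔ γ ∈ XStr N k := by
  constructor
  · exact fun h => h.1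
  · intro h
    obtain ⟨η, hη⟩ := exists_lift hE hkN h
    refine (mem_Ball_iff_Df hE hkN).2 ⟨η, hη, ?_⟩
    have h1 : ev (tOf hE k η) (0 : PS d) = 0 := by
      have h0 := ev_sub (const_tOf hE hk η) (0 : PS d) 0
      rwa [sub_zero, sub_self] at h0
    have h2 : (PowerSeries.X : PowerSeries ℂ) ^ 1 ∣ arc γ (Fin.last d) := by
      rw [PowerSeries.X_pow_dvd_iff]
      intro i hi
      rw [coeff_arc]
      split_ifs with h3
      · exact hγ (Fin.last d) ⟨i, h3⟩ hi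
      · rfl
    unfold Df
    rw [h1, sub_zero]
    obtain ⟨g, hg⟩ := h2
    rw [hg, map_mul, map_pow, PowerSeries.expand_X, ← pow_mul]
    exact dvd_mul_right _ _

theorem coeff_ZQ {E : ℕ} (hE : E ≠ 0) (F : MvPowerSeries (Fin (d + 1)) ℂ) {m : ℕ} (hm : m < N)
    (hBall : ∀ k ∈ Fintype.piFinset (fun _ : Fin d => Finset.Icc 1 N),
      IsConstr (Ball E hE N (0 : PS d) k 1)) :
    PowerSeries.coeff m (ZQ F) = ∑ k ∈ Fintype.piFinset (fun _ : Fin d => Finset.Icc 1 N),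
      muQ (d + 1) N (Ball E hE N (0 : PS d) k 1 ∩ arcsQ F N m) := by
  unfold ZQ
  rw [PowerSeries.coeff_mk, ← muQ_arcsQ F hm, ← muQ_biUnion]
  · congr 1
    ext γ
    simp only [Set.mem_iUnion, exists_prop]
    constructor
    · intro h
      have h1 : (fun p : Fin d × Fin N => γ (p.1.castSucc, p.2)) ∈ Start d 1 N :=
        fun j k hk => h.1 j.castSucc k hk
      obtain ⟨k, hk, h2⟩ := exists_Strat (by omega) h1
      have hk0 : ∀ j, 0 < k j := fun j =>
        (Finset.mem_Icc.1 (Fintype.mem_piFinset.1 hk j)).1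
      have hkN : ∀ j, k j ≤ N := fun j =>
        (Finset.mem_Icc.1 (Fintype.mem_piFinset.1 hk j)).2
      exact ⟨k, hk, (mem_Ball_one hE hk0 hkN h.1).2 h2, h⟩
    · rintro ⟨k, -, -, h⟩
      exact h
  · intro k hk
    exact (hBall k hk).inter (isConstr_arcsQ F hm)
  · intro k hk k' hk' hne
    have hkN : ∀ j, k j ≤ N := fun j => (Finset.mem_Icc.1 (Fintype.mem_piFinset.1 hk j)).2
    have hkN' : ∀ j, k' j ≤ N := fun j => (Finset.mem_Icc.1 (Fintype.mem_piFinset.1 hk' j)).2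
    refine (disjoint_XStr hkN hkN' hne).mono ?_ ?_
    · exact fun γ h => h.1.1
    · exact fun γ h => h.1.1

end QO

end MPb07157
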