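import Pool.Agent.Lib.MP_b07157_agO.PE
import Pool.Agent.Lib.MP_b07157_agO.PN
import Pool.Agent.Lib.MP_b07157_agO.PBall
import Pool.Agent.Lib.MP_b07157_agO.P4

/-!
# Auxiliary facts for the fibre identity
-/

noncomputable section

namespace MPb07157

namespace PT

variable {d : ℕ}

/-- Beyond the cut-off the contribution vanishes. -/
theorem psi_eq_zero {E n : ℕ} {k : Fin d → ℕ} (t : QT d) {l A : Fin d → ℕ}
    {Λ : AddSubgroup (Fin d → ℤ)} (hV : Valid E t Λ l) (hl : E * (n + 1) ≤ dk l k)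
    (h : 0 < t.mass ∨ ∀ j, l j ≤ A j) (hE : 0 < E) : psi E n t l A k = 0 := by
  induction t generalizing l A Λ with
  | leaf μ =>
    unfold psi
    split_ifs with h1 h2
    · exfalso
      subst h1
      rcases h with h | h
      · exact absurd h (lt_irrefl _)
      · have h3 : dk l k ≤ dk A k := by
          unfold dk
          exact Finset.sum_le_sum fun j _ => Nat.mul_le_mul (h j) le_rfl
        rw [h2] at h3
        have h4 := (Nat.mul_le_mul_left_iff hE).1 (hl.trans h3)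
        omega
    · rfl
    · refine Finset.sum_eq_zero fun i hi => if_neg ?_
      rintro ⟨h2, -⟩
      have h3 := Nat.mul_le_mul_left E (Finset.mem_Icc.1 hi).2
      omega
  | node L p s z b ihz ihb =>
    obtain ⟨hlL, -, hp, hs, hb, hVz, hVb⟩ := hV
    have hL : dk l k ≤ dk L k := by
      unfold dk
      exact Finset.sum_le_sum fun j _ => Nat.mul_le_mul (hlL j) le_rfl
    have hM : z.mass + 1 ≤ (QT.node L p s z b).mass := by
      show z.mass + 1 ≤ z.mass + p * ∑ i, (b i).mass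
      have h1 : 0 < ∑ i, (b i).mass := by
        refine lt_of_lt_of_le (hb ⟨0, hs⟩) ?_
        exact Finset.single_le_sum (f := fun i => (b i).mass) (fun _ _ => Nat.zero_le _)
          (Finset.mem_univ _)
      have h2 := Nat.mul_pos hp h1
      omega
    unfold psi
    have e1 : (∑ h ∈ Finset.Icc 1 (n + 1),
        if dk l k < E * h ∧ E * h < dk L k ∧
          dk A k + (QT.node L p s z b).mass * (E * h) = E * n then Lp h - Lp (h + 1) else 0) =
        0 := by
      refine Finset.sum_eq_zero fun i hi => if_neg ?_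
      rintro ⟨h2, -⟩
      have h3 := Nat.mul_le_mul_left E (Finset.mem_Icc.1 hi).2
      omega
    have e2 : ¬ dk A k + (QT.node L p s z b).mass * dk L k = E * n := by
      intro h1
      have h2 : dk L k ≤ (QT.node L p s z b).mass * dk L k :=
        Nat.le_mul_of_pos_left _ (by omega)
      have h3 : E * (n + 1) = E * n + E := by ring
      omega
    have e3 : (∑ i, psi E n (b i) L (nextA (QT.node L p s z b).mass (b i).mass L A) k) = 0 :=
      Finset.sum_eq_zero fun i _ => ihb i (hVb i) (hl.trans hL) (Or.inl (hb i))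
    have e4 : psi E n z L (nextA (QT.node L p s z b).mass z.mass L A) k = 0 := by
      refine ihz hVz (hl.trans hL) (Or.inr fun j => ?_)
      unfold nextA
      refine (Nat.le_mul_of_pos_left (L j) (?_ : 0 < (QT.node L p s z b).mass - z.mass)).trans
        (Nat.le_add_left _ _)
      omega
    rw [e1, if_neg e2, e3, e4]
    simp

end PT

namespace QO

variable {d r : ℕ} {F : MvPowerSeries (Fin (d + 1)) ℂ} {E : ℕ} {N0 : Fin d → ℕ}
  {ζ : Fin r → PS d} {m : Fin r → ℕ} {L : Fin r → Fin r → Fin d → ℕ}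

/-- The exponents of the stage of a child. -/
theorem AA_cc' {C C' : Finset (Fin r)} (hC : C' ⊆ C) (lam : Fin d → ℕ)
    (c : Fin r → Fin d → ℕ) : AA E N0 m C' (cc' C lam c) =
      PT.nextA (mss m C) (mss m C') lam (AA E N0 m C c) := by
  funext j
  unfold AA PT.nextA mss
  have h1 : C'ᶜ = Cᶜ ∪ (C \ C') := by
    ext i
    simp only [Finset.mem_compl, Finset.mem_union, Finset.mem_sdiff]
    constructor
    · intro h
      by_cases hi : i ∈ C
      · exact Or.inr ⟨hi, h⟩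
      · exact Or.inl hi
    · rintro (h | h) hi
      · exact h (hC hi)
      · exact h.2 hi
  have h2 : Disjoint Cᶜ (C \ C') := by
    rw [Finset.disjoint_left]
    intro i h h'
    exact (Finset.mem_compl.1 h) (Finset.mem_sdiff.1 h').1
  rw [h1, Finset.sum_union h2]
  have h3 : ∑ i ∈ Cᶜ, m i * cc' C lam c i j = ∑ i ∈ Cᶜ, m i * c i j := by
    refine Finset.sum_congr rfl fun i hi => ?_
    unfold cc'
    rw [if_neg (Finset.mem_compl.1 hi)]
  have h4 : ∑ i ∈ C \ C', m i * cc' C lam c i j = (∑ i ∈ C \ C', m i) * lam j := by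
    rw [Finset.sum_mul]
    refine Finset.sum_congr rfl fun i hi => ?_
    unfold cc'
    rw [if_pos (Finset.mem_sdiff.1 hi).1]
  have h5 : ∑ i ∈ C, m i - ∑ i ∈ C', m i = ∑ i ∈ C \ C', m i := by
    rw [← Finset.sum_sdiff hC, Nat.add_sub_cancel]
  rw [h3, h4, h5]
  ring

/-! ### The class of a ball (glue to `PBall`) -/

theorem Stage.isConstr_Ball (hE : E ≠ 0) {φ : PS d} {C : Finset (Fin r)} {l : Fin d → ℕ}
    {c : Fin r → Fin d → ℕ} (hst : Stage E ζ φ C l c) {N : ℕ} {k : Fin d → ℕ}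
    (hk : ∀ j, 0 < k j) (hkN : ∀ j, k j ≤ N) (hA : Adm E φ k) {R : ℕ}
    (hR : PT.dk l k < E * R) (hRN : E * R ≤ N) : IsConstr (Ball E hE N φ k R) :=
  QO.isConstr_Ball hE hst.gal hk hkN hR hRN

theorem Stage.muQ_Ball (hE : E ≠ 0) {φ : PS d} {C : Finset (Fin r)} {l : Fin d → ℕ}
    {c : Fin r → Fin d → ℕ} (hst : Stage E ζ φ C l c) {N : ℕ} {k : Fin d → ℕ}
    (hk : ∀ j, 0 < k j) (hkN : ∀ j, k j ≤ N) (hA : Adm E φ k) {R : ℕ}
    (hR : PT.dk l k < E * R) (hRN : E * R ≤ N) :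
    muQ (d + 1) N (Ball E hE N φ k R) = PT.wN N k * PT.Lp R :=
  QO.muQ_Ball hE hst.gal hk hkN hR hRN hA

/-- Balls of radius at least `1` consist of arcs at the origin. -/
theorem Ball_subset_Start (hE : E ≠ 0) {N : ℕ} {φ : PS d}
    (h0 : MvPowerSeries.constantCoeff φ = 0) {k : Fin d → ℕ} (hk : ∀ j, 0 < k j)
    (hkN : ∀ j, k j ≤ N) {R : ℕ} (hR : 0 < R) : Ball E hE N φ k R ⊆ Start (d + 1) 1 N := by
  intro γ hγ
  obtain ⟨η, h1, h2⟩ := (mem_Ball_iff_Df hE hkN).1 hγ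
  intro j s hs
  revert hs
  refine Fin.lastCases ?_ (fun j => ?_) j
  · intro hs
    have h3 := PowerSeries.X_dvd_iff.1 ((dvd_pow_self (PowerSeries.X : PowerSeries ℂ)
      (Nat.mul_pos (Nat.pos_of_ne_zero hE) hR).ne').trans h2)
    unfold Df at h3
    rw [map_sub, PowerSeries.constantCoeff_expand, constantCoeff_ev (const_tOf hE hk η), h0,
      sub_zero, ← PowerSeries.coeff_zero_eq_constantCoeff_apply, coeff_arc, dif_pos s.pos] at h3
    have h4 : s = ⟨0, s.pos⟩ := Fin.ext (Nat.lt_one_iff.1 hs)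
    rw [h4]
    exact h3
  · intro hs
    exact hγ.1.1 j s (by
      have := hk j
      omega)

theorem mem_arcsQ_iff (hE : E ≠ 0) {N : ℕ} {φ : PS d}
    (h0 : MvPowerSeries.constantCoeff φ = 0) {k : Fin d → ℕ} (hk : ∀ j, 0 < k j)
    (hkN : ∀ j, k j ≤ N) {R : ℕ} (hR : 0 < R) {γ : Fin (d + 1) × Fin N → ℂ}
    (hγ : γ ∈ Ball E hE N φ k R) (F : MvPowerSeries (Fin (d + 1)) ℂ) (n : ℕ) :
    γ ∈ arcsQ F N n ↔ (ev (arc γ) F).order = n :=
  ⟨fun h => h.2, fun h => ⟨Ball_subset_Start hE h0 hk hkN hR hγ, h⟩⟩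

/-- The smallest radius `R` with `E R > a`. -/
theorem lt_mul_div_add_one (hE : 0 < E) (a : ℕ) : a < E * (a / E + 1) := by
  have h1 := Nat.div_add_mod a E
  have h2 := Nat.mod_lt a hE
  rw [Nat.mul_add, mul_one]
  omega

/-- A shell. -/
theorem Stage.muQ_shell (h : IsQO F E N0 ζ m L) {φ : PS d} {C : Finset (Fin r)}
    {l : Fin d → ℕ} {c : Fin r → Fin d → ℕ} (hst : Stage E ζ φ C l c) {N : ℕ}
    {k : Fin d → ℕ} (hk : ∀ j, 0 < k j) (hkN : ∀ j, k j ≤ N) (hA : Adm E φ k) {R : ℕ}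
    (hR : PT.dk l k < E * R) (hRN : E * (R + 1) ≤ N) (hC : Cl ζ φ C k (E * R + 1)) {n : ℕ}
    (hn : E * n < N) :
    muQ (d + 1) N ((Ball E h.hE.ne' N φ k R \ Ball E h.hE.ne' N φ k (R + 1)) ∩ arcsQ F N n) =
      PT.wN N k * if PT.dk (AA E N0 m C c) k + mss m C * (E * R) = E * n
        then PT.Lp R - PT.Lp (R + 1) else 0 := by
  have hR0 : 0 < R := by
    rcases Nat.eq_zero_or_pos R with rfl | h1
    · rw [mul_zero] at hR
      exact absurd hR (Nat.not_lt_zero _)
    · exact h1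
  have hR1 : E * R ≤ E * (R + 1) := Nat.mul_le_mul_left _ (Nat.le_succ R)
  rw [muQ_inter_of_iff (P := PT.dk (AA E N0 m C c) k + mss m C * (E * R) = E * n)
    (fun γ hγ => ?_), muQ_diff (hst.isConstr_Ball h.hE.ne' hk hkN hA hR (hR1.trans hRN))
      (hst.isConstr_Ball h.hE.ne' hk hkN hA (lt_of_lt_of_le hR hR1) hRN)
      (Ball_anti h.hE.ne' φ k (Nat.le_succ R)),
    hst.muQ_Ball h.hE.ne' hk hkN hA hR (hR1.trans hRN),
    hst.muQ_Ball h.hE.ne' hk hkN hA (lt_of_lt_of_le hR hR1) hRN]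
  · rw [mul_ite, mul_zero, mul_sub]
  · rw [mem_arcsQ_iff h.hE.ne' hst.zero hk hkN hR0 hγ.1]
    exact Stage.order_shell h hst hk hkN hA hR hC hγ.1 hγ.2 hn

/-- The shells between two radii, and the rest. -/
theorem Stage.muQ_shells (h : IsQO F E N0 ζ m L) {φ : PS d} {C : Finset (Fin r)}
    {l : Fin d → ℕ} {c : Fin r → Fin d → ℕ} (hst : Stage E ζ φ C l c) {N : ℕ}
    {k : Fin d → ℕ} (hk : ∀ j, 0 < k j) (hkN : ∀ j, k j ≤ N) (hA : Adm E φ k) {a b : ℕ}
    (hab : a ≤ b) (ha : PT.dk l k < E * a) (hbN : E * b ≤ N)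
    (hC : ∀ R < b, Cl ζ φ C k (E * R + 1)) {n : ℕ} (hn : E * n < N) :
    muQ (d + 1) N (Ball E h.hE.ne' N φ k a ∩ arcsQ F N n) =
      PT.wN N k * (∑ R ∈ Finset.Ico a b,
        if PT.dk (AA E N0 m C c) k + mss m C * (E * R) = E * n
          then PT.Lp R - PT.Lp (R + 1) else 0) +
      muQ (d + 1) N (Ball E h.hE.ne' N φ k b ∩ arcsQ F N n) := by
  rw [muQ_tel (B := fun R => Ball E h.hE.ne' N φ k R)
    (fun i => Ball_anti h.hE.ne' φ k (Nat.le_succ i)) hab (fun i h1 h2 =>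
      hst.isConstr_Ball h.hE.ne' hk hkN hA (lt_of_lt_of_le ha (Nat.mul_le_mul_left _ h1))
        ((Nat.mul_le_mul_left _ h2).trans hbN)) (isConstr_arcsQ F (by
          have := Nat.le_mul_of_pos_left n h.hE
          omega)), Finset.mul_sum]
  congr 1
  refine Finset.sum_congr rfl fun R hR => ?_
  obtain ⟨h1, h2⟩ := Finset.mem_Ico.1 hR
  exact Stage.muQ_shell h hst hk hkN hA (lt_of_lt_of_le ha (Nat.mul_le_mul_left _ h1))
    ((Nat.mul_le_mul_left _ h2).trans hbN) (hC R h2) hn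

end QO

end MPb07157
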