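import Pool.Agent.Lib.MP_b07157_agO.PG0

/-!
# The fibre identity: leaves
-/

noncomputable section

namespace MPb07157

namespace QO

variable {d r : ℕ} {F : MvPowerSeries (Fin (d + 1)) ℂ} {E : ℕ} {N0 : Fin d → ℕ}
  {ζ : Fin r → PS d} {m : Fin r → ℕ} {L : Fin r → Fin r → Fin d → ℕ}

/-- The fibre identity at the stage `(φ, l, A)` with the tree `t`. -/
def FibEq (F : MvPowerSeries (Fin (d + 1)) ℂ) {E : ℕ} (hE : E ≠ 0) (N n : ℕ) (k : Fin d → ℕ)
    (φ : PS d) (l A : Fin d → ℕ) (t : PT.QT d) : Prop :=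
  muQ (d + 1) N (Ball E hE N φ k (PT.dk l k / E + 1) ∩ arcsQ F N n) =
    PT.wN N k * PT.psi E n t l A k

/-- The sum over the shells. -/
theorem sum_shells {M : Type*} [AddCommMonoid M] {E : ℕ} (hE : 0 < E) {a n b : ℕ}
    (hbn : b ≤ n + 2) {Q P : ℕ → Prop} [∀ h, Decidable (P h)]
    [∀ h, Decidable (a < E * h ∧ Q h ∧ P h)] (f : ℕ → M)
    (hb : ∀ h, a < E * h → h ≤ n + 1 → P h → (h < b ↔ Q h)) :
    ∑ h ∈ Finset.Icc 1 (n + 1), (if a < E * h ∧ Q h ∧ P h then f h else 0) =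
      ∑ h ∈ Finset.Ico (a / E + 1) b, if P h then f h else 0 := by
  classical
  have key : ∀ h, a < E * h ↔ a / E + 1 ≤ h := fun h => by
    rw [Nat.succ_le_iff, Nat.div_lt_iff_lt_mul hE, mul_comm]
  rw [← Finset.sum_filter, ← Finset.sum_filter]
  refine Finset.sum_congr ?_ fun _ _ => rfl
  ext h
  simp only [Finset.mem_filter, Finset.mem_Icc, Finset.mem_Ico]
  constructor
  · rintro ⟨⟨h1, h2⟩, h3, h4, h5⟩
    exact ⟨⟨(key h).1 h3, (hb h h3 h2 h5).2 h4⟩, h5⟩
  · rintro ⟨⟨h1, h2⟩, h3⟩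
    have h4 := (key h).2 h1
    have h5 : h ≤ n + 1 := by omega
    exact ⟨⟨(Nat.succ_pos _).trans_le h1, h5⟩, h4, (hb h h4 h5 h3).1 h2, h3⟩

theorem sum_shells' {M : Type*} [AddCommMonoid M] {E : ℕ} (hE : 0 < E) {a n b : ℕ}
    (hbn : b ≤ n + 2) {P : ℕ → Prop} [∀ h, Decidable (P h)]
    [∀ h, Decidable (a < E * h ∧ P h)] (f : ℕ → M)
    (hb : ∀ h, a < E * h → h ≤ n + 1 → P h → h < b) :
    ∑ h ∈ Finset.Icc 1 (n + 1), (if a < E * h ∧ P h then f h else 0) =
      ∑ h ∈ Finset.Ico (a / E + 1) b, if P h then f h else 0 := by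
  classical
  rw [← sum_shells (Q := fun _ => True) hE hbn f
    (fun h h1 h2 h3 => ⟨fun _ => trivial, fun _ => hb h h1 h2 h3⟩)]
  refine Finset.sum_congr rfl fun h _ => ?_
  simp only [true_and]

theorem mss_pos (h : IsQO F E N0 ζ m L) {C : Finset (Fin r)} (hC : C.Nonempty) :
    0 < mss m C := Finset.sum_pos (fun i _ => h.hm i) hC

/-- No roots. -/
theorem fib_none (h : IsQO F E N0 ζ m L) {N n : ℕ} (hN : E * (n + 1) ≤ N) {k : Fin d → ℕ}
    (hk : ∀ j, 0 < k j) (hkN : ∀ j, k j ≤ N) {φ : PS d} {l : Fin d → ℕ}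
    {c : Fin r → Fin d → ℕ} (hst : Stage E ζ φ ∅ l c) (hA : Adm E φ k) :
    FibEq F h.hE.ne' N n k φ l (AA E N0 m ∅ c) (.leaf 0) := by
  classical
  have hE := h.hE
  have hn : E * n < N := by
    rw [Nat.mul_add, mul_one] at hN
    omega
  set R := PT.dk l k / E + 1 with hR
  have hlR : PT.dk l k < E * R := lt_mul_div_add_one hE _
  unfold FibEq
  rw [← hR, PT.psi, if_pos rfl, muQ_inter_of_iff (P := PT.dk (AA E N0 m ∅ c) k = E * n)
    (fun γ hγ => by
      rw [mem_arcsQ_iff hE.ne' hst.zero hk hkN (Nat.succ_pos _) hγ]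
      exact hst.order_leaf h hk hkN hlR hγ hn), mul_ite, mul_zero]
  by_cases h1 : PT.dk (AA E N0 m ∅ c) k = E * n
  · rw [if_pos h1, if_pos h1]
    refine hst.muQ_Ball hE.ne' hk hkN hA hlR ?_
    refine le_trans (Nat.mul_le_mul_left E ?_) hN
    rw [hR, Nat.succ_le_succ_iff]
    have h2 : PT.dk l k ≤ E * n := by
      rcases hst.low with h3 | ⟨i, -, h3⟩
      · rw [h3]
        unfold PT.dk
        simp
      · rw [← h1]
        unfold PT.dk AA
        refine Finset.sum_le_sum fun j _ => Nat.mul_le_mul_right _ ?_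
        refine le_trans ?_ (Nat.le_add_left _ _)
        refine le_trans ?_ (Finset.single_le_sum (f := fun i => m i * c i j)
          (fun _ _ => Nat.zero_le _) (Finset.mem_compl.2 (Finset.notMem_empty i)))
        rw [h3]
        exact Nat.le_mul_of_pos_left _ (h.hm i)
    exact (Nat.div_le_div_right h2).trans (by rw [Nat.mul_div_cancel_left _ hE])
  · rw [if_neg h1, if_neg h1]

/-- One root. -/
theorem fib_single (h : IsQO F E N0 ζ m L) {N n : ℕ} (hN : E * (n + 1) ≤ N) {k : Fin d → ℕ}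
    (hk : ∀ j, 0 < k j) (hkN : ∀ j, k j ≤ N) {φ : PS d} {i : Fin r} {l : Fin d → ℕ}
    {c : Fin r → Fin d → ℕ} (hst : Stage E ζ φ {i} l c) (hA : Adm E φ k) :
    FibEq F h.hE.ne' N n k φ l (AA E N0 m {i} c) (.leaf (m i)) := by
  classical
  have hE := h.hE
  have hn : E * n < N := by
    rw [Nat.mul_add, mul_one] at hN
    omega
  have hmi := h.hm i
  set R := PT.dk l k / E + 1 with hR
  have hlR : PT.dk l k < E * R := lt_mul_div_add_one hE _
  have hst' : Stage E ζ (ζ i) {i} l c := hst.single h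
  have hA' : Adm E (ζ i) k := by
    rw [adm_iff_admZ] at hA ⊢
    exact hst.admZ_single hE h hA
  have hB : Ball E hE.ne' N φ k R = Ball E hE.ne' N (ζ i) k R :=
    (Ball_center hE.ne' hk hkN hA hA' (hst.near i (Finset.mem_singleton_self i)) (by
      rw [hR, Nat.mul_add, mul_one]
      have := Nat.mul_div_le (PT.dk l k) E
      omega)).symm
  have hCl : ∀ B, Cl ζ (ζ i) {i} k B := fun B i' hi' => Or.inl (by
    rw [Finset.mem_singleton.1 hi'])
  have hmss : mss m {i} = m i := Finset.sum_singleton _ _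
  have hsmall : ∀ R', n < R' →
      muQ (d + 1) N (Ball E hE.ne' N (ζ i) k R' ∩ arcsQ F N n) = 0 := fun R' hR' =>
    muQ_inter_eq_zero fun γ hγ h1 => order_small h hst'.zero (Finset.singleton_nonempty i) hk hkN
      (hCl _) hγ hR' h1.2
  unfold FibEq
  rw [← hR, hB, PT.psi, if_neg hmi.ne']
  rw [sum_shells' (b := n + 1) (P := fun h' => PT.dk (AA E N0 m {i} c) k + m i * (E * h') = E * n)
    hE (by omega) (fun h' => PT.Lp h' - PT.Lp (h' + 1)) (fun h' _ h2 h3 => by
      by_contra h4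
      have h5 : h' = n + 1 := by omega
      have h6 : E * h' ≤ m i * (E * h') := Nat.le_mul_of_pos_left _ hmi
      rw [h5, Nat.mul_add, mul_one] at h6
      rw [h5, Nat.mul_add, mul_one] at h3
      omega)]
  rcases Nat.lt_or_ge (n + 1) R with h1 | h1
  · rw [hsmall R (by omega), Finset.Ico_eq_empty (by omega), Finset.sum_empty, mul_zero]
  · rw [hst'.muQ_shells h hk hkN hA' h1 hlR hN (fun _ _ => hCl _) hn, hsmall _ (Nat.lt_succ_self n),
      add_zero, hmss]

end QO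

end MPb07157
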