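import Pool.Agent.Lib.MP_b07157_agO.PG1

/-!
# The fibre identity: nodes
-/

noncomputable section

namespace MPb07157

namespace QO

variable {d r : ℕ} {F : MvPowerSeries (Fin (d + 1)) ℂ} {E : ℕ} {N0 : Fin d → ℕ}
  {ζ : Fin r → PS d} {m : Fin r → ℕ} {L : Fin r → Fin r → Fin d → ℕ}

theorem dk_lt {l lam k : Fin d → ℕ} (hk : ∀ j, 0 < k j) (hle : l ≤ lam) (hne : l ≠ lam) :
    PT.dk l k < PT.dk lam k := by
  unfold PT.dk
  obtain ⟨j, hj⟩ : ∃ j, l j ≠ lam j := by
    by_contra h
    push Not at h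
    exact hne (funext h)
  refine Finset.sum_lt_sum (fun j _ => Nat.mul_le_mul_right _ (hle j)) ⟨j, Finset.mem_univ j, ?_⟩
  exact Nat.mul_lt_mul_of_pos_right (lt_of_le_of_ne (hle j) hj) (hk j)

/-- The vertex and the children, for `E ∣ lam · k`. -/
theorem Step.muQ_vertex (h : IsQO F E N0 ζ m L) {N n : ℕ} (hN : E * (n + 1) ≤ N)
    {k : Fin d → ℕ} (hk : ∀ j, 0 < k j) (hkN : ∀ j, k j ≤ N) {φ : PS d} {C : Finset (Fin r)}
    {l : Fin d → ℕ} {c : Fin r → Fin d → ℕ} (hst : Stage E ζ φ C l c) (hA : Adm E φ k)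
    {φ' : PS d} {lam : Fin d → ℕ} {p s : ℕ} {v : Fin s → ℂ} {C₀ : Finset (Fin r)}
    {Cb : Fin s → Finset (Fin r)} (hs : Step E ζ φ C l φ' lam p s v C₀ Cb) {q : ℕ}
    (hq : PT.dk lam k = E * q) (hqn : q ≤ n) :
    muQ (d + 1) N (Ball E h.hE.ne' N φ' k q ∩ arcsQ F N n) =
      PT.wN N k * (if PT.dk (AA E N0 m C c) k + mss m C * PT.dk lam k = E * n
        then PT.Lp q - (1 + s) * PT.Lp (q + 1) else 0) +
      ∑ a, muQ (d + 1) N (Ball E h.hE.ne' N (φ' + MvPowerSeries.C (v a) * mon lam) k (q + 1) ∩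
        arcsQ F N n) +
      muQ (d + 1) N (Ball E h.hE.ne' N φ' k (q + 1) ∩ arcsQ F N n) := by
  classical
  have hE := h.hE
  have hn : E * n < N := by
    rw [Nat.mul_add, mul_one] at hN
    omega
  have hnN : n < N := lt_of_le_of_lt (Nat.le_mul_of_pos_left n hE) hn
  have hlt : PT.dk l k < PT.dk lam k := dk_lt hk hs.le hs.ne
  have hst' := hs.center hst
  have hA' : Adm E φ' k := by
    rw [adm_iff_admZ] at hA ⊢
    exact (hs.admZ₀ hE hA).1
  have hdvd : (E : ℤ) ∣ ∑ j, (lam j : ℤ) * (k j : ℤ) := by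
    refine ⟨q, ?_⟩
    have h1 : ((PT.dk lam k : ℕ) : ℤ) = ((E * q : ℕ) : ℤ) := by rw [hq]
    unfold PT.dk at h1
    push_cast at h1
    exact h1
  have hAb : ∀ a, Adm E (φ' + MvPowerSeries.C (v a) * mon lam) k := fun a => by
    rw [adm_iff_admZ] at hA ⊢
    exact (hs.admZb hE hA a).2 hdvd
  have hq1 : E * (q + 1) ≤ N := (Nat.mul_le_mul_left E (by omega)).trans hN
  have hq0 : E * q ≤ N := (Nat.mul_le_mul_left E (Nat.le_succ q)).trans hq1
  have hlq : PT.dk l k < E * q := by omega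
  have hlamq : PT.dk lam k < E * (q + 1) := by
    rw [hq, Nat.mul_add, mul_one]
    omega
  have hlamN : PT.dk lam k < N := by
    rw [hq]
    exact lt_of_le_of_lt (Nat.mul_le_mul_left E hqn) hn
  have hq00 : 0 < q := by
    rcases Nat.eq_zero_or_pos q with h0 | h0
    · rw [h0, mul_zero] at hlq
      omega
    · exact h0
  -- the sets
  set S := Ball E hE.ne' N φ' k q with hS
  set T := Ball E hE.ne' N φ' k (q + 1) with hT
  set B := fun a => Ball E hE.ne' N (φ' + MvPowerSeries.C (v a) * mon lam) k (q + 1) with hB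
  have hcS : IsConstr S := hst'.isConstr_Ball hE.ne' hk hkN hA' hlq hq0
  have hcT : IsConstr T := (hs.stage₀ hst).isConstr_Ball hE.ne' hk hkN hA' hlamq hq1
  have hcB : ∀ a, IsConstr (B a) := fun a =>
    (hs.stageb hst a).isConstr_Ball hE.ne' hk hkN (hAb a) hlamq hq1
  have hX : IsConstr (arcsQ F N n) := isConstr_arcsQ F hnN
  have hTS : T ⊆ S := Ball_anti hE.ne' φ' k (Nat.le_succ q)
  have hBS : ∀ a, B a ⊆ S := fun a =>
    (Ball_anti hE.ne' _ k (Nat.le_succ q)).trans (Ball_add_subset hE.ne' hk hkN φ' (v a) lam hq.ge)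
  have hTB : ∀ a, Disjoint T (B a) := fun a =>
    hs.disjoint₀ hE.ne' hst hk hkN hlamN hlamq a
  have hBB : ∀ a b, a ≠ b → Disjoint (B a) (B b) := fun a b hab =>
    hs.disjointb hE.ne' hst hk hkN hlamN hlamq hab
  set U := ⋃ a ∈ (Finset.univ : Finset (Fin s)), B a with hU
  have hcU : IsConstr U := isConstr_biUnion _ _ fun a _ => hcB a
  have hUS : U ⊆ S := by
    rw [hU]
    exact Set.iUnion₂_subset fun a _ => hBS a
  have hTU : Disjoint U T := by
    rw [Set.disjoint_left]
    intro γ h1 h2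
    rw [hU, Set.mem_iUnion₂] at h1
    obtain ⟨a, -, h3⟩ := h1
    exact Set.disjoint_left.1 (hTB a) h2 h3
  have hUT : U ∪ T ⊆ S := Set.union_subset hUS hTS
  -- the generic part
  have hgen : muQ (d + 1) N ((S \ (U ∪ T)) ∩ arcsQ F N n) =
      PT.wN N k * (if PT.dk (AA E N0 m C c) k + mss m C * PT.dk lam k = E * n
        then PT.Lp q - (1 + s) * PT.Lp (q + 1) else 0) := by
    rw [muQ_inter_of_iff (P := PT.dk (AA E N0 m C c) k + mss m C * PT.dk lam k = E * n)
      (fun γ hγ => by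
        rw [mem_arcsQ_iff hE.ne' hst'.zero hk hkN hq00 hγ.1]
        refine hs.order_vertex h hst hk hkN hA hq hlq hγ.1 (fun h1 => hγ.2 (Or.inr h1))
          (fun a h1 => hγ.2 (Or.inl ?_)) hn
        rw [hU, Set.mem_iUnion₂]
        exact ⟨a, Finset.mem_univ a, h1⟩), mul_ite, mul_zero]
    refine if_congr Iff.rfl ?_ rfl
    rw [muQ_diff hcS (hcU.union hcT) hUT, muQ_union hcU hcT hTU, hU,
      muQ_biUnion _ _ (fun a _ => hcB a) (fun a _ b _ hab => hBB a b hab),
      hst'.muQ_Ball hE.ne' hk hkN hA' hlq hq0,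
      (hs.stage₀ hst).muQ_Ball hE.ne' hk hkN hA' hlamq hq1,
      Finset.sum_congr rfl fun a _ =>
        (hs.stageb hst a).muQ_Ball hE.ne' hk hkN (hAb a) hlamq hq1]
    rw [Finset.sum_const, Finset.card_univ, Fintype.card_fin, nsmul_eq_mul]
    ring
  have hUX : muQ (d + 1) N (U ∩ arcsQ F N n) = ∑ a, muQ (d + 1) N (B a ∩ arcsQ F N n) := by
    rw [← muQ_biUnion _ _ (fun a _ => (hcB a).inter hX) (fun a _ b _ hab =>
      (hBB a b hab).mono Set.inter_subset_left Set.inter_subset_left), hU, Set.iUnion₂_inter]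
  rw [muQ_split hcS (hcU.union hcT) hX hUT, hgen, Set.union_inter_distrib_right,
    muQ_union (hcU.inter hX) (hcT.inter hX)
      (hTU.mono Set.inter_subset_left Set.inter_subset_left), hUX, add_assoc]

theorem fib_node (h : IsQO F E N0 ζ m L) {N n : ℕ} (hN : E * (n + 1) ≤ N) {k : Fin d → ℕ}
    (hk : ∀ j, 0 < k j) (hkN : ∀ j, k j ≤ N) {φ : PS d} {C : Finset (Fin r)}
    {l : Fin d → ℕ} {c : Fin r → Fin d → ℕ} (hst : Stage E ζ φ C l c) (hA : Adm E φ k)
    {φ' : PS d} {lam : Fin d → ℕ} {p s : ℕ} {v : Fin s → ℂ} {C₀ : Finset (Fin r)}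
    {Cb : Fin s → Finset (Fin r)} (hs : Step E ζ φ C l φ' lam p s v C₀ Cb)
    {z : PT.QT d} {b : Fin s → PT.QT d}
    (hmass : (PT.QT.node lam p s z b).mass = mss m C) (hzm : z.mass = mss m C₀)
    (hbm : ∀ a, (b a).mass = mss m (Cb a))
    (hVz : PT.Valid E z ⊥ lam) (hVb : ∀ a, PT.Valid E (b a) ⊥ lam)
    (ihz : ∀ c', Stage E ζ φ' C₀ lam c' → Adm E φ' k →
      FibEq F h.hE.ne' N n k φ' lam (AA E N0 m C₀ c') z)
    (ihb : ∀ a c', Stage E ζ (φ' + MvPowerSeries.C (v a) * mon lam) (Cb a) lam c' →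
      Adm E (φ' + MvPowerSeries.C (v a) * mon lam) k →
      FibEq F h.hE.ne' N n k (φ' + MvPowerSeries.C (v a) * mon lam) lam
        (AA E N0 m (Cb a) c') (b a)) :
    FibEq F h.hE.ne' N n k φ l (AA E N0 m C c) (.node lam p s z b) := by
  classical
  have hE := h.hE
  have hn : E * n < N := by
    rw [Nat.mul_add, mul_one] at hN
    omega
  have hlt : PT.dk l k < PT.dk lam k := dk_lt hk hs.le hs.ne
  have hst' := hs.center hst
  have hA' : Adm E φ' k := by
    rw [adm_iff_admZ] at hA ⊢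
    exact (hs.admZ₀ hE hA).1
  have hC₀ : C₀ ⊆ C := fun i hi => ((hs.memC₀ i).1 hi).1
  have hCb : ∀ a, Cb a ⊆ C := fun a i hi => ((hs.memCb a i).1 hi).1
  have hCne : C.Nonempty := by
    obtain ⟨i, hi⟩ := hs.Cb_ne ⟨0, hs.hs⟩
    exact ⟨i, hCb _ hi⟩
  have hM := mss_pos h hCne
  have hCl : ∀ B, B ≤ PT.dk lam k → Cl ζ φ' C k B := fun B hB i hi => by
    obtain ⟨g, hg⟩ := hs.val i hi
    exact Or.inr ⟨lam, g, hg, hB⟩
  set R := PT.dk l k / E + 1 with hR
  have hlR : PT.dk l k < E * R := lt_mul_div_add_one hE _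
  have hB : Ball E hE.ne' N φ k R = Ball E hE.ne' N φ' k R :=
    (Ball_center hE.ne' hk hkN hA hA' hs.cen (by
      rw [hR, Nat.mul_add, mul_one]
      have := Nat.mul_div_le (PT.dk l k) E
      omega)).symm
  have hnA : ∀ C', C' ⊆ C → AA E N0 m C' (cc' C lam c) =
      PT.nextA (mss m C) (mss m C') lam (AA E N0 m C c) := fun C' hC' => AA_cc' hC' lam c
  have hsumb : ∑ a, PT.psi E n (b a) lam (PT.nextA (mss m C) (mss m (Cb a)) lam
      (AA E N0 m C c)) k = ∑ a, PT.psi E n (b a) lam (AA E N0 m (Cb a) (cc' C lam c)) k :=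
    Finset.sum_congr rfl fun a _ => by rw [hnA _ (hCb a)]
  unfold FibEq
  rw [← hR, hB, PT.psi]
  simp only [hmass, hzm, hbm]
  rw [← hnA C₀ hC₀, hsumb]
  rcases Nat.lt_or_ge (PT.dk lam k) (E * (n + 1)) with h1 | h1
  · -- `lam · k < E (n + 1)`
    have hqn : PT.dk lam k / E ≤ n := by
      rw [← Nat.lt_succ_iff, Nat.div_lt_iff_lt_mul hE, mul_comm]
      exact h1
    by_cases hdv : E ∣ PT.dk lam k
    · obtain ⟨q, hq⟩ := hdv
      have hqE : PT.dk lam k / E = q := by rw [hq, Nat.mul_div_cancel_left _ hE]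
      rw [hqE] at hqn
      have hRq : R ≤ q := by
        rw [hR, Nat.succ_le_iff, Nat.div_lt_iff_lt_mul hE, mul_comm, ← hq]
        exact hlt
      have hdvd : (E : ℤ) ∣ ∑ j, (lam j : ℤ) * (k j : ℤ) := by
        refine ⟨q, ?_⟩
        have h1 : ((PT.dk lam k : ℕ) : ℤ) = ((E * q : ℕ) : ℤ) := by rw [hq]
        unfold PT.dk at h1
        push_cast at h1
        exact h1
      have hAb : ∀ a, Adm E (φ' + MvPowerSeries.C (v a) * mon lam) k := fun a => by
        rw [adm_iff_admZ] at hA ⊢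
        exact (hs.admZb hE hA a).2 hdvd
      rw [hst'.muQ_shells h hk hkN hA' hRq hlR
        ((Nat.mul_le_mul_left E (by omega)).trans hN) (fun R' hR' => hCl _ (by
          rw [hq]
          have := Nat.mul_le_mul_left E (Nat.succ_le_of_lt hR')
          rw [Nat.mul_succ] at this
          omega)) hn,
        hs.muQ_vertex h hN hk hkN hst hA hq hqn]
      have ih0 := ihz _ (hs.stage₀ hst) hA'
      have ih1 := fun a => ihb a _ (hs.stageb hst a) (hAb a)
      unfold FibEq at ih0 ih1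
      rw [hqE] at ih0 ih1
      rw [ih0, Finset.sum_congr rfl fun a _ => ih1 a]
      rw [sum_shells (b := q) (Q := fun h' => E * h' < PT.dk lam k)
        (P := fun h' => PT.dk (AA E N0 m C c) k + mss m C * (E * h') = E * n) hE (by omega)
        (fun h' => PT.Lp h' - PT.Lp (h' + 1)) (fun h' _ _ _ => by
          rw [hq]
          exact (Nat.mul_lt_mul_left hE).symm), if_pos (Dvd.intro q hq.symm), hqE,
        ← Finset.mul_sum]
      ring
    · have hRq : R ≤ PT.dk lam k / E + 1 := by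
        rw [hR]
        exact Nat.succ_le_succ (Nat.div_le_div_right hlt.le)
      have hlt' : ∀ R', R' < PT.dk lam k / E + 1 ↔ E * R' < PT.dk lam k := fun R' => by
        constructor
        · intro h2
          have h3 : R' ≤ PT.dk lam k / E := Nat.lt_succ_iff.1 h2
          have h4 : E * R' ≤ PT.dk lam k := (Nat.mul_le_mul_left E h3).trans (Nat.mul_div_le _ _)
          refine lt_of_le_of_ne h4 fun h5 => hdv ⟨R', h5.symm⟩
        · intro h2
          rw [Nat.lt_succ_iff, Nat.le_div_iff_mul_le hE, mul_comm]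
          exact h2.le
      rw [hst'.muQ_shells h hk hkN hA' hRq hlR
        ((Nat.mul_le_mul_left E (Nat.succ_le_succ hqn)).trans hN)
        (fun R' hR' => hCl _ ((hlt' R').1 hR')) hn]
      have ih0 := ihz _ (hs.stage₀ hst) hA'
      unfold FibEq at ih0
      rw [ih0]
      rw [sum_shells (b := PT.dk lam k / E + 1) (Q := fun h' => E * h' < PT.dk lam k)
        (P := fun h' => PT.dk (AA E N0 m C c) k + mss m C * (E * h') = E * n) hE
        (Nat.add_le_add_right (hqn.trans (Nat.le_succ n)) 1)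
        (fun h' => PT.Lp h' - PT.Lp (h' + 1)) (fun h' _ _ _ => hlt' h'), if_neg hdv, add_zero]
      ring
  · -- beyond the cut-off
    have hsmall : ∀ R', n < R' →
        muQ (d + 1) N (Ball E hE.ne' N φ' k R' ∩ arcsQ F N n) = 0 := fun R' hR' =>
      muQ_inter_eq_zero fun γ hγ h2 => order_small h hst'.zero hCne hk hkN (R := n + 1)
        (hCl _ h1) (Ball_anti hE.ne' φ' k hR' hγ) (Nat.lt_succ_self n) h2.2
    have hMle : ∀ x, x ≤ mss m C * x := fun x => Nat.le_mul_of_pos_left _ hM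
    have hpz : PT.psi E n z lam (AA E N0 m C₀ (cc' C lam c)) k = 0 := by
      refine PT.psi_eq_zero z hVz h1 ?_ hE
      rcases Nat.eq_zero_or_pos z.mass with h2 | h2
      · right
        intro j
        rw [hnA C₀ hC₀]
        unfold PT.nextA
        rw [← hzm, h2, Nat.sub_zero]
        exact (hMle (lam j)).trans (Nat.le_add_left _ _)
      · exact Or.inl h2
    have hpb : ∀ a, PT.psi E n (b a) lam (AA E N0 m (Cb a) (cc' C lam c)) k = 0 := fun a =>
      PT.psi_eq_zero (b a) (hVb a) h1 (Or.inl (by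
        rw [hbm a]
        exact mss_pos h (hs.Cb_ne a))) hE
    have hvt : ¬ (PT.dk (AA E N0 m C c) k + mss m C * PT.dk lam k = E * n) := by
      intro h2
      have h3 := hMle (PT.dk lam k)
      rw [Nat.mul_add, mul_one] at h1
      omega
    rw [hpz, add_zero, Finset.sum_congr rfl (fun a _ => hpb a), Finset.sum_const_zero,
      if_neg hvt, add_zero, ite_self, add_zero]
    rw [sum_shells (b := n + 1) (Q := fun h' => E * h' < PT.dk lam k)
        (P := fun h' => PT.dk (AA E N0 m C c) k + mss m C * (E * h') = E * n) hE (by omega)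
        (fun h' => PT.Lp h' - PT.Lp (h' + 1)) (fun h' _ h2 h3 => by
          have h5 := hMle (E * h')
          constructor
          · intro h4
            refine lt_of_lt_of_le ((Nat.mul_lt_mul_left hE).2 h4) h1
          · intro _
            by_contra h4
            have h6 : h' = n + 1 := by omega
            rw [h6, Nat.mul_add, mul_one] at h5
            rw [h6, Nat.mul_add, mul_one] at h3
            omega)]
    rcases Nat.lt_or_ge (n + 1) R with h2 | h2
    · rw [hsmall R (by omega), Finset.Ico_eq_empty (by omega), Finset.sum_empty, mul_zero]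
    · rw [hst'.muQ_shells h hk hkN hA' h2 hlR hN (fun R' hR' => hCl _ (by
          have := Nat.mul_le_mul_left E (Nat.succ_le_of_lt hR')
          rw [Nat.mul_succ] at this
          omega)) hn, hsmall _ (Nat.lt_succ_self n), add_zero]

end QO

end MPb07157
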