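import Pool.Agent.Lib.MP_b07157_agO.PG2
import Pool.Agent.Lib.MP_b07157_agO.P5

/-!
# The zeta function of a quasi-ordinary germ
-/

noncomputable section

namespace MPb07157

namespace QO

variable {d r : ℕ} {F : MvPowerSeries (Fin (d + 1)) ℂ} {E : ℕ} {N0 : Fin d → ℕ}
  {ζ : Fin r → PS d} {m : Fin r → ℕ} {L : Fin r → Fin r → Fin d → ℕ}

/-- The fibre identity. -/
theorem TreeOf.fibre (h : IsQO F E N0 ζ m L) {N n : ℕ} (hN : E * (n + 1) ≤ N)
    {k : Fin d → ℕ} (hk : ∀ j, 0 < k j) (hkN : ∀ j, k j ≤ N) {φ : PS d} {C : Finset (Fin r)}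
    {l : Fin d → ℕ} {t : PT.QT d} (ht : TreeOf E ζ m φ C l t) :
    ∀ {c : Fin r → Fin d → ℕ}, Stage E ζ φ C l c → Adm E φ k →
      FibEq F h.hE.ne' N n k φ l (AA E N0 m C c) t := by
  induction ht with
  | none φ l => exact fun hst hA => fib_none h hN hk hkN hst hA
  | single φ i l => exact fun hst hA => fib_single h hN hk hkN hst hA
  | node hs hz hb ihz ihb =>
    intro c hst hA
    have hbot : ∀ φ : PS d, ∀ k ∈ (⊥ : AddSubgroup (Fin d → ℤ)), AdmZ E φ k := by
      intro φ k hk0 a _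
      rw [AddSubgroup.mem_bot.1 hk0]
      simp
    exact fib_node h hN hk hkN hst hA hs
      ((TreeOf.node hs hz hb).mass h hst) (hz.mass h (hs.stage₀ hst))
      (fun a => (hb a).mass h (hs.stageb hst a))
      (hz.valid h (hs.stage₀ hst) ⊥ (hbot _))
      (fun a => (hb a).valid h (hs.stageb hst a) ⊥ (hbot _))
      (fun c' h1 h2 => ihz h1 h2) (fun a c' h1 h2 => ihb a h1 h2)

theorem adm_zero (E : ℕ) (k : Fin d → ℕ) : Adm E (0 : PS d) k := by
  intro a ha
  rw [map_zero] at ha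
  exact absurd rfl ha

theorem dk_zero (k : Fin d → ℕ) : PT.dk 0 k = 0 := by
  unfold PT.dk
  simp

theorem AA_zero : AA E N0 m Finset.univ (fun _ => 0) = fun j => E * N0 j := by
  funext j
  unfold AA
  simp

/-- The zeta function is the zeta function of the tree. -/
theorem ZQ_eq_ZT (h : IsQO F E N0 ζ m L) {t : PT.QT d}
    (ht : TreeOf E ζ m (0 : PS d) Finset.univ 0 t) {K : ℕ} (hK : E ≤ K) :
    ZQ F = PT.ZT E K t (fun j => E * N0 j) := by
  have hE := h.hE
  have hst := stage_zero h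
  ext n
  have hN : E * (n + 1) ≤ K * (n + 1) := Nat.mul_le_mul_right _ hK
  have hn : n < K * (n + 1) := by
    refine lt_of_lt_of_le (Nat.lt_succ_self n) (Nat.le_mul_of_pos_left _ (hE.trans_le hK))
  have hE1 : PT.dk (0 : Fin d → ℕ) (0 : Fin d → ℕ) < E * 1 := by
    rw [dk_zero, mul_one]
    exact hE
  rw [coeff_ZQ hE.ne' F hn]
  · unfold PT.ZT
    rw [PowerSeries.coeff_mk]
    refine Finset.sum_congr rfl fun k hk => ?_
    have hk0 : ∀ j, 0 < k j := fun j => (Finset.mem_Icc.1 (Fintype.mem_piFinset.1 hk j)).1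
    have hkN : ∀ j, k j ≤ K * (n + 1) := fun j =>
      (Finset.mem_Icc.1 (Fintype.mem_piFinset.1 hk j)).2
    have h1 := ht.fibre h hN hk0 hkN hst (adm_zero E k)
    unfold FibEq at h1
    rw [dk_zero, Nat.zero_div, zero_add, AA_zero] at h1
    exact h1
  · intro k hk
    have hk0 : ∀ j, 0 < k j := fun j => (Finset.mem_Icc.1 (Fintype.mem_piFinset.1 hk j)).1
    have hkN : ∀ j, k j ≤ K * (n + 1) := fun j =>
      (Finset.mem_Icc.1 (Fintype.mem_piFinset.1 hk j)).2
    refine hst.isConstr_Ball hE.ne' hk0 hkN (adm_zero E k) ?_ ?_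
    · rw [dk_zero, mul_one]
      exact hE
    · exact (Nat.mul_le_mul_left E (Nat.succ_le_succ (Nat.zero_le n))).trans hN

/-- The pole side, given the regularity of the zeta function of a tree. -/
theorem pole_qo_of (hPT : ∀ {E : ℕ}, 0 < E → ∀ {s₀ : ℚ} {K : ℕ}, -s₀ < K → E ≤ K →
      ∀ (t : PT.QT d) (A : Fin d → ℕ), (∀ j, E ∣ A j) → PT.Valid E t ⊤ 0 →
      PT.Good E s₀ t 0 A → (∀ j, (E : ℚ) ≠ -s₀ * A j) → PT.ZT E K t A ∈ regularAt s₀)
    (h : IsQO F E N0 ζ m L) {s₀ : ℚ} (hs : s₀ < 0) (hn : NoCand E N0 m L s₀) :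
    ZQ F ∈ regularAt s₀ := by
  have hst := stage_zero h
  obtain ⟨t, ht⟩ := hst.exists_tree h
  obtain ⟨K₀, hK₀⟩ := exists_nat_gt (-s₀)
  have hK : E ≤ max E K₀ := le_max_left _ _
  rw [ZQ_eq_ZT h ht hK]
  refine hPT h.hE ?_ hK t _ (fun j => dvd_mul_right _ _)
    (ht.valid h hst ⊤ (fun k _ a ha => absurd (map_zero _) ha)) ?_ ?_
  · refine lt_of_lt_of_le hK₀ ?_
    exact_mod_cast le_max_right E K₀
  · have h1 := ht.good h hs hn hst
    rwa [AA_zero] at h1
  · intro j hj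
    have hE : (E : ℚ) ≠ 0 := by exact_mod_cast h.hE.ne'
    apply hn.axis j
    push_cast at hj
    have h2 : (E : ℚ) * (s₀ * N0 j + 1) = 0 := by linear_combination hj
    rcases mul_eq_zero.1 h2 with h3 | h3
    · exact absurd h3 hE
    · linear_combination h3

end QO

end MPb07157
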