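import Pool.Agent.Lib.MP_b07157_agO.PDef

/-!
# The measure `muQ`
-/

noncomputable section

namespace MPb07157

open MvPolynomial

namespace QO

variable {n N : ℕ}

theorem muQ_empty (n N : ℕ) : muQ n N ∅ = 0 := by
  unfold muQ clsM
  rw [cls_empty, map_zero, mul_zero]

theorem muQ_union {S T : Set (Fin n × Fin N → ℂ)} (hS : IsConstr S) (hT : IsConstr T)
    (h : Disjoint S T) : muQ n N (S ∪ T) = muQ n N S + muQ n N T := by
  unfold muQ clsM
  rw [cls_union hS hT h, map_add, mul_add]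

theorem muQ_biUnion {α : Type*} (s : Finset α) (S : α → Set (Fin n × Fin N → ℂ))
    (h : ∀ i ∈ s, IsConstr (S i)) (hd : ∀ i ∈ s, ∀ j ∈ s, i ≠ j → Disjoint (S i) (S j)) :
    muQ n N (⋃ i ∈ s, S i) = ∑ i ∈ s, muQ n N (S i) := by
  unfold muQ clsM
  rw [cls_biUnion s S h hd, map_sum, Finset.mul_sum]

theorem muQ_diff {S T : Set (Fin n × Fin N → ℂ)} (hS : IsConstr S) (hT : IsConstr T)
    (h : T ⊆ S) : muQ n N (S \ T) = muQ n N S - muQ n N T := by
  rw [eq_sub_iff_add_eq, ← muQ_union (hS.diff hT) hT Set.disjoint_sdiff_left,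
    Set.sdiff_union_of_subset h]

/-- Splitting with respect to a subset. -/
theorem muQ_split {S T X : Set (Fin n × Fin N → ℂ)} (hS : IsConstr S) (hT : IsConstr T)
    (hX : IsConstr X) (h : T ⊆ S) :
    muQ n N (S ∩ X) = muQ n N ((S \ T) ∩ X) + muQ n N (T ∩ X) := by
  rw [← muQ_union ((hS.diff hT).inter hX) (hT.inter hX)]
  · rw [← Set.union_inter_distrib_right, Set.sdiff_union_of_subset h]
  · rw [Set.disjoint_left]
    rintro γ ⟨⟨-, h1⟩, -⟩ ⟨h2, -⟩
    exact h1 h2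

/-- A decreasing sequence of sets. -/
theorem muQ_tel {B : ℕ → Set (Fin n × Fin N → ℂ)} (hB : ∀ i, B (i + 1) ⊆ B i) {a b : ℕ}
    (hab : a ≤ b) (hc : ∀ i, a ≤ i → i ≤ b → IsConstr (B i)) {X : Set (Fin n × Fin N → ℂ)}
    (hX : IsConstr X) : muQ n N (B a ∩ X) =
      ∑ i ∈ Finset.Ico a b, muQ n N ((B i \ B (i + 1)) ∩ X) + muQ n N (B b ∩ X) := by
  induction b, hab using Nat.le_induction with
  | base => rw [Finset.Ico_self, Finset.sum_empty, zero_add]
  | succ b hab ih =>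
    rw [ih fun i h1 h2 => hc i h1 (h2.trans (Nat.le_succ b)), Finset.sum_Ico_succ_top hab,
      muQ_split (hc b hab (Nat.le_succ b)) (hc (b + 1) (hab.trans (Nat.le_succ b)) le_rfl) hX
        (hB b), add_assoc]

/-- A set on which the condition `X` is constant. -/
theorem muQ_inter_of_iff {S X : Set (Fin n × Fin N → ℂ)} {P : Prop} [Decidable P]
    (h : ∀ γ ∈ S, γ ∈ X ↔ P) : muQ n N (S ∩ X) = if P then muQ n N S else 0 := by
  split_ifs with hP
  · congr 1
    ext γ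
    exact ⟨fun h1 => h1.1, fun h1 => ⟨h1, (h γ h1).2 hP⟩⟩
  · rw [← muQ_empty n N]
    congr 1
    ext γ
    simp only [Set.mem_inter_iff, Set.mem_empty_iff_false, iff_false, not_and]
    exact fun h1 h2 => hP ((h γ h1).1 h2)

theorem muQ_inter_eq_zero {S X : Set (Fin n × Fin N → ℂ)} (h : ∀ γ ∈ S, γ ∉ X) :
    muQ n N (S ∩ X) = 0 := by
  rw [← muQ_empty n N]
  congr 1
  ext γ
  simp only [Set.mem_inter_iff, Set.mem_empty_iff_false, iff_false, not_and]
  exact h γ

/-! ### The arcs with `ord F = m` -/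

theorem arcsQ_eq {F : MvPowerSeries (Fin n) ℂ} {P : MvPolynomial (Fin n) ℂ} {m : ℕ} (hm : m < N)
    (hP : ∀ v : Fin n →₀ ℕ, wt (fun _ => 1) v < m + 1 → MvPowerSeries.coeff v F = P.coeff v) :
    arcsQ F N m = arcs P N m ∩ Start n 1 N := by
  ext γ
  have key : γ ∈ Start n 1 N → (PowerSeries.order (ev (arc γ) F) = m ↔
      (aeval (arc γ) P : PowerSeries ℂ).order = m) := by
    intro hγ
    obtain ⟨H, hH⟩ := subst_eq_add (F := F) (P := P) (w := fun _ => 1) (r := m + 1)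
      (fun _ => one_pos) hP (x := arc γ) (fun j => by
        rw [PowerSeries.X_pow_dvd_iff]
        intro k hk
        rw [coeff_arc]
        split_ifs with h
        · exact hγ j ⟨k, h⟩ hk
        · rfl)
    unfold ev
    refine order_congr (Nat.lt_succ_self m) ?_
    rw [hH]
    exact ⟨H, add_sub_cancel_left _ _⟩
  constructor
  · rintro ⟨h1, h2⟩
    exact ⟨(key h1).1 h2, h1⟩
  · rintro ⟨h1, h2⟩
    exact ⟨h2, (key h2).2 h1⟩

theorem exists_arcsQ (F : MvPowerSeries (Fin n) ℂ) (m : ℕ) :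
    ∃ P : MvPolynomial (Fin n) ℂ, ∀ N, m < N → arcsQ F N m = arcs P N m ∩ Start n 1 N :=
  ⟨trW (fun _ => 1) (m + 1) F, fun _ hm => arcsQ_eq hm fun v hv => by
    rw [coeff_trW (fun _ => one_pos), if_pos hv]⟩

theorem isConstr_arcsQ (F : MvPowerSeries (Fin n) ℂ) {m : ℕ} (hm : m < N) :
    IsConstr (arcsQ F N m) := by
  obtain ⟨P, hP⟩ := exists_arcsQ F m
  rw [hP N hm]
  exact (isConstr_arcs P N m).inter (isConstr_Start n 1 N)

/-- Independence of the level. -/
theorem muQ_arcsQ (F : MvPowerSeries (Fin n) ℂ) {m : ℕ} (hm : m < N) :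
    muQ n N (arcsQ F N m) = muQ n (m + 1) (arcsQ F (m + 1) m) := by
  obtain ⟨P, hP⟩ := exists_arcsQ F m
  rw [hP N hm, hP (m + 1) (Nat.lt_succ_self m)]
  have key : ∀ M, muQ n (m + 1 + M) (arcs P (m + 1 + M) m ∩ Start n 1 (m + 1 + M)) =
      muQ n (m + 1) (arcs P (m + 1) m ∩ Start n 1 (m + 1)) := by
    intro M
    induction M with
    | zero => rfl
    | succ M ih =>
      rw [← ih]
      exact muE_succ P (ε := 1) (N := m + 1 + M) (m := m) (by omega) (by omega)
  obtain ⟨M, rfl⟩ := Nat.exists_eq_add_of_le (Nat.succ_le_of_lt hm)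
  exact key M

end QO

end MPb07157
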