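import Pool.Agent.Lib.MP_b07157_ag.NewtMain

/-!
# Generating functions of cells with cut-offs
-/

noncomputable section

namespace MPb07157

open Finset

namespace PT

/-! ### Extremal rays -/

section Ray

variable {G ι : Type} [AddCommGroup G] [Fintype ι] (lam : ι → G →+ ℤ)

/-- Decomposition criterion for the extremal rays; the constraints in `C` are not tight. -/
theorem ray_of_dec (hinj : ∀ z, (∀ k, lam k z = 0) → z = 0) (mu nu : G →+ ℤ) (s₀ : ℚ)
    {E : Finset ι} {z : G} (hz : MaxTight lam E z) (C : Set ι) (hC : ∀ k ∈ C, lam k z ≠ 0)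
    (hdec : ∃ N : ℕ, 0 < N ∧ N • z ∈ AddSubmonoid.closure
      {y : G | (∀ k, k ∉ C → 0 ≤ lam k y) ∧ (y = 0 ∨ (nu y : ℚ) ≠ -s₀ * mu y)}) :
    (nu z : ℚ) ≠ -s₀ * mu z := by
  obtain ⟨N, hN, hmem⟩ := hdec
  have htor : ∀ (p : ℤ) (y : G), p ≠ 0 → p • y = 0 → y = 0 := by
    intro p y hp hy
    refine hinj y fun k => ?_
    have h1 := congrArg (lam k) hy
    rw [map_zsmul, map_zero, smul_eq_mul] at h1
    exact (mul_eq_zero.1 h1).resolve_left hp
  have key : ∀ w ∈ AddSubmonoid.closure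
      {y : G | (∀ k, k ∉ C → 0 ≤ lam k y) ∧ (y = 0 ∨ (nu y : ℚ) ≠ -s₀ * mu y)},
      (∀ k, k ∉ C → 0 ≤ lam k w) ∧ (w = 0 ∨ ∃ y : G, y ≠ 0 ∧ (nu y : ℚ) ≠ -s₀ * mu y ∧
        ∀ k, k ∉ C → lam k w = 0 → lam k y = 0) := by
    intro w hw
    induction hw using AddSubmonoid.closure_induction with
    | mem y hy =>
      refine ⟨hy.1, ?_⟩
      by_cases h : y = 0
      · exact Or.inl h
      · exact Or.inr ⟨y, h, hy.2.resolve_left h, fun k _ hk => hk⟩
    | zero => exact ⟨fun k _ => by rw [map_zero], Or.inl rfl⟩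
    | add a b _ _ ha hb =>
      refine ⟨fun k hk => by rw [map_add]; exact add_nonneg (ha.1 k hk) (hb.1 k hk), ?_⟩
      rcases ha.2 with h | ⟨y, hy0, hy1, hy2⟩
      · rw [h, zero_add]
        exact hb.2
      · refine Or.inr ⟨y, hy0, hy1, fun k hk hk0 => hy2 k hk ?_⟩
        rw [map_add] at hk0
        have h1 := ha.1 k hk
        have h2 := hb.1 k hk
        omega
  obtain ⟨-, hw⟩ := key _ hmem
  have hz0 : N • z ≠ 0 := by
    intro h
    refine hz.1 (htor N z (by exact_mod_cast hN.ne') ?_)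
    rw [natCast_zsmul]
    exact h
  obtain ⟨y, hy0, hy1, hy2⟩ := hw.resolve_left hz0
  obtain ⟨p, q, hp, hpq⟩ := MaxTight.proportional lam hinj hz y fun k hk => by
    refine hy2 k (fun hkC => hC k hkC hk) ?_
    rw [map_nsmul, hk, nsmul_zero]
  intro hbad
  apply hy1
  have h1 : (p : ℤ) * nu y = q * nu z := by
    have := congrArg nu hpq
    simpa using this
  have h2 : (p : ℤ) * mu y = q * mu z := by
    have := congrArg mu hpq
    simpa using this
  have h3 : (p : ℚ) * nu y = q * nu z := by exact_mod_cast h1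
  have h4 : (p : ℚ) * mu y = q * mu z := by exact_mod_cast h2
  have h5 : (p : ℚ) ≠ 0 := by exact_mod_cast hp
  apply mul_left_cancel₀ h5
  rw [h3, hbad]
  linear_combination s₀ * h4

end Ray

/-! ### Cells -/

section Cell

variable {J ι : Type} [Fintype J]

/-- The group of the points `(x, n)` with `x ∈ Λ` and `D n = B·x`. -/
def GC (Λ : AddSubgroup (J → ℤ)) (D : ℕ) (B : J → ℕ) : AddSubgroup ((J → ℤ) × ℤ) where
  carrier := {z | z.1 ∈ Λ ∧ (D : ℤ) * z.2 = ∑ j, (B j : ℤ) * z.1 j}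
  zero_mem' := ⟨Λ.zero_mem, by simp⟩
  add_mem' := by
    rintro a b ⟨ha, ha'⟩ ⟨hb, hb'⟩
    refine ⟨Λ.add_mem ha hb, ?_⟩
    simp only [Prod.snd_add, Prod.fst_add, Pi.add_apply, mul_add, Finset.sum_add_distrib]
    rw [ha', hb']
  neg_mem' := by
    rintro a ⟨ha, ha'⟩
    refine ⟨Λ.neg_mem ha, ?_⟩
    simp only [Prod.snd_neg, Prod.fst_neg, Pi.neg_apply, mul_neg, Finset.sum_neg_distrib]
    rw [ha']

variable (Λ : AddSubgroup (J → ℤ)) (D : ℕ) (B : J → ℕ)

def coC (j : J) : GC Λ D B →+ ℤ :=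
  (Pi.evalAddMonoidHom (fun _ : J => ℤ) j).comp
    ((AddMonoidHom.fst (J → ℤ) ℤ).comp (GC Λ D B).subtype)

def muC : GC Λ D B →+ ℤ := (AddMonoidHom.snd (J → ℤ) ℤ).comp (GC Λ D B).subtype

def doC (a : J → ℤ) : GC Λ D B →+ ℤ := ∑ j, a j • coC Λ D B j

def nuCC : GC Λ D B →+ ℤ := ∑ j, coC Λ D B j

theorem coC_apply (j : J) (z : GC Λ D B) : coC Λ D B j z = z.1.1 j := rfl

theorem muC_apply (z : GC Λ D B) : muC Λ D B z = z.1.2 := rfl

theorem doC_apply (a : J → ℤ) (z : GC Λ D B) : doC Λ D B a z = ∑ j, a j * z.1.1 j := by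
  simp [doC, AddMonoidHom.finsetSum_apply, coC_apply]

theorem nuCC_apply (z : GC Λ D B) : nuCC Λ D B z = ∑ j, z.1.1 j := by
  simp [nuCC, AddMonoidHom.finsetSum_apply, coC_apply]

def lamC (K : ℕ) (a : ι → J → ℤ) : (J ⊕ J) ⊕ ι → GC Λ D B →+ ℤ
  | .inl (.inl j) => coC Λ D B j
  | .inl (.inr j) => (K : ℤ) • muC Λ D B - coC Λ D B j
  | .inr i => doC Λ D B (a i)

open Classical in
def cC (K : ℕ) (c : ι → ℤ) (S : Finset J) : (J ⊕ J) ⊕ ι → ℤ
  | .inl (.inl _) => 1
  | .inl (.inr j) => -(K : ℤ) + if j ∈ S then 0 else 1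
  | .inr i => c i

open Classical in
def EC [Fintype ι] (Q : Finset ι) (S : Finset J) : Finset ((J ⊕ J) ⊕ ι) :=
  Finset.univ.filter fun k => match k with
    | .inl (.inl _) => False
    | .inl (.inr j) => j ∈ S
    | .inr i => i ∈ Q

/-- The weight of a point of a cell: `N` is the cut-off, where the class `1 - L⁻¹` is replaced. -/
def cellW (N : ℕ) (c0 c1 : J → Mot) (x : J → ℕ) : Mot :=
  ∏ j, ((if x j < N then c0 j else c1 j) * ((LU ^ (-(x j : ℤ)) : Motˣ) : Mot))

/-- The points of a cell. -/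
def InCell (a : ι → J → ℤ) (c : ι → ℤ) (Q : Finset ι) (n : ℕ) (x : J → ℕ) : Prop :=
  (fun j => (x j : ℤ)) ∈ Λ ∧ (∀ i, c i ≤ ∑ j, a i j * (x j : ℤ)) ∧
    (∀ i ∈ Q, ∑ j, a i j * (x j : ℤ) = c i) ∧ D * n = ∑ j, B j * x j

open Classical in
/-- The generating function of a cell. -/
def cellF (K : ℕ) (c0 c1 : J → Mot) (a : ι → J → ℤ) (c : ι → ℤ) (Q : Finset ι) :
    PowerSeries Mot :=
  PowerSeries.mk fun n => ∑ x ∈ Fintype.piFinset (fun _ : J => Finset.Icc 1 (K * (n + 1))),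
    if InCell Λ D B a c Q n x then cellW (K * (n + 1)) c0 c1 x else 0

variable {Λ D B}

theorem mem_PSet_iff' [Fintype ι] {K : ℕ} {a : ι → J → ℤ} {c : ι → ℤ} {Q : Finset ι}
    {S : Finset J} {z : GC Λ D B} :
    z ∈ PSet (lamC Λ D B K a) (cC K c S) (EC Q S) ↔
      (∀ j, 1 ≤ z.1.1 j) ∧ (∀ j, z.1.1 j ≤ K * z.1.2 + K) ∧
      (∀ j, j ∈ S ↔ z.1.1 j = K * z.1.2 + K) ∧
      (∀ i, c i ≤ ∑ j, a i j * z.1.1 j) ∧ (∀ i ∈ Q, ∑ j, a i j * z.1.1 j = c i) := by
  classical
  unfold PSet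
  simp only [Set.mem_ofPred_eq]
  constructor
  · rintro ⟨h1, h2⟩
    have h3 : ∀ j, z.1.1 j ≤ K * z.1.2 + K ∧ (j ∉ S → z.1.1 j < K * z.1.2 + K) := by
      intro j
      have := h1 (.inl (.inr j))
      simp only [lamC, cC, AddMonoidHom.sub_apply, AddMonoidHom.smul_apply, muC_apply,
        coC_apply, smul_eq_mul] at this
      split_ifs at this with hj
      · exact ⟨by omega, fun h => absurd hj h⟩
      · exact ⟨by omega, fun _ => by omega⟩
    refine ⟨fun j => h1 (.inl (.inl j)), fun j => (h3 j).1, fun j => ⟨fun hj => ?_, fun hj => ?_⟩,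
      fun i => ?_, fun i hi => ?_⟩
    · have := h2 (.inl (.inr j)) (by simp [EC, hj])
      simp only [lamC, cC, AddMonoidHom.sub_apply, AddMonoidHom.smul_apply, muC_apply,
        coC_apply, smul_eq_mul, if_pos hj] at this
      omega
    · by_contra h
      have := (h3 j).2 h
      omega
    · have := h1 (.inr i)
      simpa only [lamC, cC, doC_apply] using this
    · have := h2 (.inr i) (by simp [EC, hi])
      simpa only [lamC, cC, doC_apply] using this
  · rintro ⟨h1, h2, h3, h4, h5⟩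
    refine ⟨?_, ?_⟩
    · rintro ((j | j) | i)
      · exact h1 j
      · simp only [lamC, cC, AddMonoidHom.sub_apply, AddMonoidHom.smul_apply, muC_apply,
          coC_apply, smul_eq_mul]
        have h6 := h2 j
        split_ifs with hj
        · omega
        · have h7 : z.1.1 j ≠ K * z.1.2 + K := fun h => hj ((h3 j).2 h)
          omega
      · simpa only [lamC, cC, doC_apply] using h4 i
    · rintro ((j | j) | i) hk
      · simp [EC] at hk
      · have hj : j ∈ S := by simpa [EC] using hk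
        simp only [lamC, cC, AddMonoidHom.sub_apply, AddMonoidHom.smul_apply, muC_apply,
          coC_apply, smul_eq_mul, if_pos hj]
        have := (h3 j).1 hj
        omega
      · have hi : i ∈ Q := by simpa [EC] using hk
        simpa only [lamC, cC, doC_apply] using h5 i hi

theorem mem_cone_iff' [Fintype ι] {K : ℕ} {a : ι → J → ℤ} {Q : Finset ι}
    {S : Finset J} {z : GC Λ D B} (hz : z ∈ PSet (lamC Λ D B K a) 0 (EC Q S)) :
      (∀ j, 0 ≤ z.1.1 j) ∧ (∀ j, z.1.1 j ≤ K * z.1.2) ∧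
      (∀ i, 0 ≤ ∑ j, a i j * z.1.1 j) ∧ (∀ i ∈ Q, ∑ j, a i j * z.1.1 j = 0) := by
  classical
  obtain ⟨h1, h2⟩ := hz
  refine ⟨fun j => h1 (.inl (.inl j)), fun j => ?_, fun i => ?_, fun i hi => ?_⟩
  · have := h1 (.inl (.inr j))
    simp only [lamC, AddMonoidHom.sub_apply, AddMonoidHom.smul_apply, muC_apply,
        coC_apply, smul_eq_mul, Pi.zero_apply] at this
    omega
  · have := h1 (.inr i)
    simpa only [lamC, doC_apply, Pi.zero_apply] using this
  · have := h2 (.inr i) (by simp [EC, hi])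
    simpa only [lamC, doC_apply, Pi.zero_apply] using this

theorem lamC_inj [Fintype ι] (hD : 0 < D) (K : ℕ) (a : ι → J → ℤ) (z : GC Λ D B)
    (h : ∀ k, lamC Λ D B K a k z = 0) : z = 0 := by
  have h1 : ∀ j, z.1.1 j = 0 := fun j => h (.inl (.inl j))
  have h2 := z.2.2
  have h3 : z.1.2 = 0 := by
    simp only [h1, mul_zero, Finset.sum_const_zero] at h2
    exact (mul_eq_zero.1 h2).resolve_left (by exact_mod_cast hD.ne')
  exact Subtype.ext (Prod.ext (funext h1) h3)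

end Cell

end PT

end MPb07157
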