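import Pool.Agent.Lib.MP_b07157_agO.PT1
import Pool.Agent.Lib.MP_b07157_agO.PTDefs

/-!
# Generating functions of cells are regular
-/

noncomputable section

namespace MPb07157

open Finset

namespace PT

section Cell

variable {J ι : Type} [Fintype J] [Fintype ι] {Λ : AddSubgroup (J → ℤ)} {D : ℕ} {B : J → ℕ}

theorem prod_LU {J : Type} (s : Finset J) (x : J → ℤ) :
    ∏ j ∈ s, ((LU ^ (-(x j)) : Motˣ) : Mot) = ((LU ^ (-∑ j ∈ s, x j) : Motˣ) : Mot) := by
  classical
  induction s using Finset.induction_on with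
  | empty => simp
  | insert j s hj ih =>
    rw [Finset.prod_insert hj, Finset.sum_insert hj, ih, neg_add, zpow_add, Units.val_mul]

open Classical in
/-- The points of a cell with the cut-off coordinates `S`. -/
def boxS (Λ : AddSubgroup (J → ℤ)) (D : ℕ) (B : J → ℕ) (K : ℕ) (a : ι → J → ℤ) (c : ι → ℤ)
    (Q : Finset ι) (S : Finset J) (n : ℕ) : Finset (J → ℕ) :=
  (Fintype.piFinset (fun _ : J => Finset.Icc 1 (K * (n + 1)))).filter fun x =>
    InCell Λ D B a c Q n x ∧ ∀ j, j ∈ S ↔ x j = K * (n + 1)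

omit [Fintype ι] in
theorem mem_boxS {K : ℕ} {a : ι → J → ℤ} {c : ι → ℤ}
    {Q : Finset ι} {S : Finset J} {n : ℕ} {x : J → ℕ} : x ∈ boxS Λ D B K a c Q S n ↔
      (∀ j, 1 ≤ x j ∧ x j ≤ K * (n + 1)) ∧ InCell Λ D B a c Q n x ∧
        ∀ j, j ∈ S ↔ x j = K * (n + 1) := by
  classical
  simp only [boxS, Finset.mem_filter, Fintype.mem_piFinset, Finset.mem_Icc]

theorem bijOn_boxS {K : ℕ} {a : ι → J → ℤ} {c : ι → ℤ} {Q : Finset ι} {S : Finset J} {n : ℕ} :
    Set.BijOn (fun (z : GC Λ D B) (j : J) => (z.1.1 j).toNat)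
      {z ∈ PSet (lamC Λ D B K a) (cC K c S) (EC Q S) | muC Λ D B z = n}
      (boxS Λ D B K a c Q S n : Set (J → ℕ)) := by
  refine ⟨?_, ?_, ?_⟩
  · rintro z ⟨hz, hn⟩
    rw [mem_PSet_iff'] at hz
    obtain ⟨h1, h2, h3, h4, h5⟩ := hz
    rw [muC_apply] at hn
    rw [hn] at h2 h3
    have h0 : ∀ j, (((z.1.1 j).toNat : ℕ) : ℤ) = z.1.1 j := fun j =>
      Int.toNat_of_nonneg (by have := h1 j; omega)
    rw [Finset.mem_coe, mem_boxS]
    refine ⟨fun j => ?_, ⟨?_, fun i => ?_, fun i hi => ?_, ?_⟩, fun j => ?_⟩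
    · have h7 := h1 j
      change 1 ≤ (z.1.1 j).toNat ∧ (z.1.1 j).toNat ≤ K * (n + 1)
      refine ⟨by omega, ?_⟩
      have h8 : (((z.1.1 j).toNat : ℕ) : ℤ) ≤ ((K * (n + 1) : ℕ) : ℤ) := by
        rw [h0]
        push_cast
        have := h2 j
        linarith
      exact_mod_cast h8
    · have : (fun j => (((z.1.1 j).toNat : ℕ) : ℤ)) = z.1.1 := funext h0
      rw [this]
      exact z.2.1
    · simp only [h0]
      exact h4 i
    · simp only [h0]
      exact h5 i hi
    · have h6 := z.2.2
      rw [hn] at h6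
      zify
      simp only [h0]
      exact h6
    · rw [h3 j, ← h0 j]
      push_cast
      constructor
      · intro h
        have h8 : (((z.1.1 j).toNat : ℕ) : ℤ) = ((K * (n + 1) : ℕ) : ℤ) := by
          rw [h]
          push_cast
          ring
        exact_mod_cast h8
      · intro h
        rw [h]
        push_cast
        ring
  · rintro z ⟨hz, hn⟩ y ⟨hy, hm⟩ hzy
    rw [mem_PSet_iff'] at hz hy
    have h0 : ∀ j, z.1.1 j = y.1.1 j := by
      intro j
      have h1 := congrFun hzy j
      have h2 := hz.1 j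
      have h3 := hy.1 j
      simp only at h1
      omega
    rw [muC_apply] at hn hm
    exact Subtype.ext (Prod.ext (funext h0) (hn.trans hm.symm))
  · intro x hx
    rw [Finset.mem_coe, mem_boxS] at hx
    obtain ⟨h1, ⟨h2, h3, h4, h5⟩, h6⟩ := hx
    refine ⟨⟨(fun j => (x j : ℤ), (n : ℤ)), h2, ?_⟩, ⟨?_, rfl⟩, ?_⟩
    · simp only
      have := congrArg (Nat.cast : ℕ → ℤ) h5
      push_cast at this
      exact this
    · rw [mem_PSet_iff']
      simp only
      refine ⟨fun j => by exact_mod_cast (h1 j).1, fun j => ?_, fun j => ?_, h3, h4⟩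
      · have := (h1 j).2
        zify at this
        linarith
      · rw [h6 j]
        constructor
        · intro h
          rw [h]
          push_cast
          ring
        · intro h
          zify
          rw [h]
          ring
    · funext j
      simp

theorem coeff_genF_cell {K : ℕ} {a : ι → J → ℤ} {c : ι → ℤ} {Q : Finset ι} {S : Finset J} (n : ℕ) :
    PowerSeries.coeff n (genF (muC Λ D B) (nuCC Λ D B)
      (PSet (lamC Λ D B K a) (cC K c S) (EC Q S))) =
      ∑ x ∈ boxS Λ D B K a c Q S n, ∏ j, ((LU ^ (-(x j : ℤ)) : Motˣ) : Mot) := by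
  classical
  rw [genF, PowerSeries.coeff_mk]
  rw [← finsum_mem_coe_finset]
  refine finsum_mem_eq_of_bijOn (fun (z : GC Λ D B) (j : J) => (z.1.1 j).toNat)
    (bijOn_boxS (Λ := Λ) (D := D) (B := B) (K := K) (a := a) (c := c) (Q := Q) (S := S) (n := n)) ?_
  rintro z ⟨hz, hn⟩
  rw [mem_PSet_iff'] at hz
  rw [nuCC_apply, prod_LU Finset.univ (fun j => (((z.1.1 j).toNat : ℕ) : ℤ))]
  have h0 : ∑ j, (((z.1.1 j).toNat : ℕ) : ℤ) = ∑ j, z.1.1 j :=
    Finset.sum_congr rfl fun j _ => Int.toNat_of_nonneg (by have := hz.1 j; omega)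
  rw [h0]

open Classical in
theorem cellF_eq_sum {K : ℕ} (c0 c1 : J → Mot) {a : ι → J → ℤ} {c : ι → ℤ} {Q : Finset ι} :
    cellF Λ D B K c0 c1 a c Q = ∑ S : Finset J, ((∏ j ∈ S, c1 j) * ∏ j ∈ Sᶜ, c0 j) •
      genF (muC Λ D B) (nuCC Λ D B) (PSet (lamC Λ D B K a) (cC K c S) (EC Q S)) := by
  classical
  ext n
  rw [map_sum]
  simp only [PowerSeries.coeff_smul, smul_eq_mul, coeff_genF_cell]
  rw [cellF, PowerSeries.coeff_mk]
  set box := Fintype.piFinset (fun _ : J => Finset.Icc 1 (K * (n + 1))) with hbox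
  have h1 : ∀ S : Finset J, ((∏ j ∈ S, c1 j) * ∏ j ∈ Sᶜ, c0 j) *
      ∑ x ∈ boxS Λ D B K a c Q S n, ∏ j, ((LU ^ (-(x j : ℤ)) : Motˣ) : Mot) =
      ∑ x ∈ box.filter (fun x => (Finset.univ.filter fun j => x j = K * (n + 1)) = S),
        if InCell Λ D B a c Q n x then cellW (K * (n + 1)) c0 c1 x else 0 := by
    intro S
    rw [Finset.mul_sum, ← Finset.sum_filter, Finset.filter_filter]
    have h2 : boxS Λ D B K a c Q S n = box.filter (fun x =>
        (Finset.univ.filter fun j => x j = K * (n + 1)) = S ∧ InCell Λ D B a c Q n x) := by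
      ext x
      rw [mem_boxS, Finset.mem_filter, hbox, Fintype.mem_piFinset]
      simp only [Finset.mem_Icc]
      have h3 : ((Finset.univ.filter fun j => x j = K * (n + 1)) = S) ↔
          ∀ j, j ∈ S ↔ x j = K * (n + 1) := by
        rw [Finset.ext_iff]
        simp only [Finset.mem_filter, Finset.mem_univ, true_and]
        exact forall_congr' fun j => ⟨fun h => h.symm, fun h => h.symm⟩
      rw [h3]
      tauto
    rw [h2]
    refine Finset.sum_congr rfl fun x hx => ?_
    rw [Finset.mem_filter, hbox, Fintype.mem_piFinset] at hx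
    obtain ⟨h4, h5, -⟩ := hx
    rw [cellW, Finset.prod_mul_distrib, ← Finset.prod_mul_prod_compl S
      (fun j => if x j < K * (n + 1) then c0 j else c1 j)]
    have h6 : ∀ j, j ∈ S ↔ x j = K * (n + 1) := by
      intro j
      rw [← h5]
      simp
    have h7 : ∏ j ∈ S, (if x j < K * (n + 1) then c0 j else c1 j) = ∏ j ∈ S, c1 j :=
      Finset.prod_congr rfl fun j hj => by
        rw [if_neg (by rw [(h6 j).1 hj]; exact lt_irrefl _)]
    have h8 : ∏ j ∈ Sᶜ, (if x j < K * (n + 1) then c0 j else c1 j) = ∏ j ∈ Sᶜ, c0 j :=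
      Finset.prod_congr rfl fun j hj => by
        have h9 : x j ≠ K * (n + 1) := fun h => (Finset.mem_compl.1 hj) ((h6 j).2 h)
        have h10 := (Finset.mem_Icc.1 (h4 j)).2
        rw [if_pos (lt_of_le_of_ne h10 h9)]
    rw [h7, h8]
  simp only [h1]
  exact (Finset.sum_fiberwise box (fun x => Finset.univ.filter fun j => x j = K * (n + 1)) _).symm

/-- **The generating function of a cell is regular** if the recession cone is generated (up to
multiples) by good vectors. -/
theorem cellF_mem_regularAt (hD : 0 < D) (hΛ : ∀ y : J → ℤ, (D : ℤ) • y ∈ Λ) {s₀ : ℚ} {K : ℕ}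
    (hK : -s₀ < K) (c0 c1 : J → Mot) (a : ι → J → ℤ) (c : ι → ℤ) (Q : Finset ι)
    (hdec : ∀ x : J → ℤ, (∀ j, 0 ≤ x j) → (∀ i, 0 ≤ ∑ j, a i j * x j) →
      (∀ i ∈ Q, ∑ j, a i j * x j = 0) → ∃ N : ℕ, 0 < N ∧ N • x ∈ AddSubmonoid.closure
        {y : J → ℤ | (∀ j, 0 ≤ y j) ∧ (∀ i, 0 ≤ ∑ j, a i j * y j) ∧
          (y = 0 ∨ (D : ℚ) * ∑ j, (y j : ℚ) ≠ -s₀ * ∑ j, (B j : ℚ) * y j)}) :
    cellF Λ D B K c0 c1 a c Q ∈ regularAt s₀ := by
  classical
  rw [cellF_eq_sum]
  refine Subalgebra.sum_mem _ fun S _ => Subalgebra.smul_mem _ ?_ _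
  have hinj := lamC_inj (Λ := Λ) (B := B) hD K a
  have hmu : ∀ z : GC Λ D B, (∀ j, 0 ≤ z.1.1 j) → 0 ≤ z.1.2 := by
    intro z hz
    have h1 := z.2.2
    have h2 : (0 : ℤ) ≤ D * z.1.2 := by
      rw [h1]
      exact Finset.sum_nonneg fun j _ => mul_nonneg (by positivity) (hz j)
    have h3 : (0 : ℤ) < D := by exact_mod_cast hD
    nlinarith
  refine genF_mem_regularAt _ hinj _ _ s₀ _ _ ?_ ?_ ?_
  · intro z hz
    rw [mem_PSet_iff'] at hz
    exact hmu z fun j => by have := hz.1 j; omega
  · intro m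
    rcases lt_or_ge m 0 with hm | hm
    · refine Set.Finite.subset Set.finite_empty ?_
      rintro z ⟨h2, h3⟩
      rw [mem_PSet_iff'] at h2
      have := hmu z fun j => by have := h2.1 j; omega
      rw [muC_apply] at h3
      omega
    · obtain ⟨m, rfl⟩ := Int.eq_ofNat_of_zero_le hm
      have h := bijOn_boxS (Λ := Λ) (D := D) (B := B) (K := K) (a := a) (c := c) (Q := Q) (S := S)
        (n := m)
      exact Set.Finite.of_injOn h.mapsTo h.injOn (Finset.finite_toSet _)
  · intro z hz
    have hcone := mem_cone_iff' hz.2.1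
    obtain ⟨h1, h2, h3, h4⟩ := hcone
    by_cases hcut : ∃ j, z.1.1 j = K * z.1.2
    · obtain ⟨j, hj⟩ := hcut
      rw [nuCC_apply, muC_apply]
      have h5 : z.1.1 j ≤ ∑ j, z.1.1 j := Finset.single_le_sum (fun i _ => h1 i) (Finset.mem_univ j)
      have h6 : 0 < z.1.2 := by
        rcases (hmu z h1).lt_or_eq with h | h
        · exact h
        · exfalso
          apply hz.1
          refine hinj z ?_
          have h7 : ∀ j, z.1.1 j = 0 := by
            intro j
            have := h2 j
            rw [← h, mul_zero] at this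
            exact le_antisymm this (h1 j)
          rintro ((j | j) | i)
          · exact h7 j
          · simp only [lamC, AddMonoidHom.sub_apply, AddMonoidHom.smul_apply, muC_apply,
              coC_apply, h7, ← h, smul_zero, sub_zero]
          · simp only [lamC, doC_apply, h7, mul_zero, Finset.sum_const_zero]
      intro hbad
      have h7 : ((K : ℤ) * z.1.2 : ℤ) ≤ ∑ j, z.1.1 j := hj ▸ h5
      have h8 : ((K : ℚ)) * (z.1.2 : ℚ) ≤ ((∑ j, z.1.1 j : ℤ) : ℚ) := by exact_mod_cast h7
      have h9 : (0 : ℚ) < z.1.2 := by exact_mod_cast h6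
      rw [hbad] at h8
      nlinarith
    · push Not at hcut
      refine ray_of_dec (lamC Λ D B K a) hinj _ _ s₀ hz {k | ∃ j, k = .inl (.inr j)} ?_ ?_
      · rintro k ⟨j, rfl⟩ h
        apply hcut j
        simp only [lamC, AddMonoidHom.sub_apply, AddMonoidHom.smul_apply, muC_apply,
              coC_apply, smul_eq_mul] at h
        omega
      · obtain ⟨N, hN, hmem⟩ := hdec z.1.1 h1 h3 h4
        -- the homomorphism `y ↦ (D y, B·y)`
        let φ : (J → ℤ) →+ GC Λ D B :=
          { toFun := fun y => ⟨((D : ℤ) • y, ∑ j, (B j : ℤ) * y j), hΛ y, by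
              simp only [Pi.smul_apply, smul_eq_mul, Finset.mul_sum]
              exact Finset.sum_congr rfl fun j _ => by ring⟩
            map_zero' := by
              refine Subtype.ext (Prod.ext ?_ ?_)
              · simp
              · simp
            map_add' := by
              intro x y
              refine Subtype.ext (Prod.ext ?_ ?_)
              · simp [smul_add]
              · simp [mul_add, Finset.sum_add_distrib] }
        have hφ : ∀ y, (φ y).1.1 = (D : ℤ) • y := fun _ => rfl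
        have hφ' : ∀ y, (φ y).1.2 = ∑ j, (B j : ℤ) * y j := fun _ => rfl
        refine ⟨N * D, Nat.mul_pos hN hD, ?_⟩
        have h5 : (N * D) • z = φ (N • z.1.1) := by
          have h6 : φ z.1.1 = D • z := by
            refine Subtype.ext (Prod.ext ?_ ?_)
            · rw [hφ]
              funext j
              simp
            · rw [hφ', ← z.2.2]
              simp
          rw [map_nsmul, h6, smul_smul]
        rw [h5]
        have h6 : φ (N • z.1.1) ∈ (AddSubmonoid.closure
            {y : J → ℤ | (∀ j, 0 ≤ y j) ∧ (∀ i, 0 ≤ ∑ j, a i j * y j) ∧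
              (y = 0 ∨ (D : ℚ) * ∑ j, (y j : ℚ) ≠ -s₀ * ∑ j, (B j : ℚ) * y j)}).map φ :=
          AddSubmonoid.mem_map_of_mem φ hmem
        rw [AddMonoidHom.map_mclosure] at h6
        refine AddSubmonoid.closure_mono ?_ h6
        rintro _ ⟨y, ⟨hy1, hy2, hy3⟩, rfl⟩
        have hD' : (0 : ℤ) ≤ D := by positivity
        refine ⟨?_, ?_⟩
        · rintro ((j | j) | i) hk
          · change 0 ≤ (φ y).1.1 j
            rw [hφ]
            exact mul_nonneg hD' (hy1 j)
          · exact absurd ⟨j, rfl⟩ hk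
          · simp only [lamC, doC_apply, hφ, Pi.smul_apply, smul_eq_mul]
            have h7 : ∑ j, a i j * ((D : ℤ) * y j) = D * ∑ j, a i j * y j := by
              rw [Finset.mul_sum]
              exact Finset.sum_congr rfl fun j _ => by ring
            rw [h7]
            exact mul_nonneg hD' (hy2 i)
        · rcases hy3 with rfl | h7
          · left
            exact map_zero φ
          · right
            rw [nuCC_apply, muC_apply, hφ, hφ']
            simp only [Pi.smul_apply, smul_eq_mul]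
            push_cast
            rw [← Finset.mul_sum]
            exact h7

end Cell

end PT

end MPb07157
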