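import Pool.Agent.Lib.MP_b07157_agO.PT2

/-!
# Edges and walls of the tree
-/

noncomputable section

namespace MPb07157

open Finset

namespace PT

variable {d : ℕ}

/-! ### Sums over boxes -/

/-- The point `(k, h)`. -/
def ox {α : Type} (k : Fin d → α) (h : α) : Option (Fin d) → α := fun o => o.elim h k

@[simp] theorem ox_none {α : Type} (k : Fin d → α) (h : α) : ox k h none = h := rfl

@[simp] theorem ox_some {α : Type} (k : Fin d → α) (h : α) (j : Fin d) : ox k h (some j) = k j := rfl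

theorem sum_box_option [DecidableEq (Option (Fin d))] (I : Finset ℕ) (F : (Option (Fin d) → ℕ) → Mot) :
    ∑ x ∈ Fintype.piFinset (fun _ : Option (Fin d) => I), F x =
      ∑ k ∈ Fintype.piFinset (fun _ : Fin d => I), ∑ h ∈ I, F (ox k h) := by
  rw [← Finset.sum_product']
  symm
  refine Finset.sum_nbij' (fun q => ox q.1 q.2) (fun x => (fun j => x (some j), x none)) ?_ ?_ ?_ ?_ ?_
  · rintro ⟨k, h⟩ hq
    rw [Finset.mem_product, Fintype.mem_piFinset] at hq
    rw [Fintype.mem_piFinset]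
    rintro (_ | j)
    · exact hq.2
    · exact hq.1 j
  · intro x hx
    rw [Fintype.mem_piFinset] at hx
    rw [Finset.mem_product, Fintype.mem_piFinset]
    exact ⟨fun j => hx _, hx _⟩
  · rintro ⟨k, h⟩ _
    rfl
  · intro x _
    funext o
    cases o <;> rfl
  · rintro ⟨k, h⟩ _
    rfl

theorem Lp_add (a b : ℕ) : Lp (a + b) = Lp a * Lp b := by
  unfold Lp
  rw [Nat.cast_add, neg_add, zpow_add, Units.val_mul]

theorem Lp_succ (a : ℕ) : Lp (a + 1) = Lp a * Lp 1 := Lp_add a 1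

theorem w1_eq (N x : ℕ) : w1 N x = (if x < N then 1 - Lp 1 else 1) * ((LU ^ (-(x : ℤ)) : Motˣ) : Mot) := by
  unfold w1
  have : ((LU ^ (-(x : ℤ)) : Motˣ) : Mot) = Lp x := rfl
  rw [this]
  split_ifs
  · rw [Lp_succ]
    ring
  · ring

/-- Telescoping. -/
theorem sum_w1 {N h0 : ℕ} (h : h0 ≤ N) : ∑ x ∈ Finset.Icc h0 N, w1 N x = Lp h0 := by
  obtain ⟨c, hc⟩ := Nat.exists_eq_add_of_le h
  clear h
  induction c generalizing h0 with
  | zero =>
    rw [hc, add_zero, Finset.Icc_self, Finset.sum_singleton, w1, if_neg (lt_irrefl _)]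
  | succ c ih =>
    rw [← Finset.add_sum_Ioc_eq_sum_Icc (by omega : h0 ≤ N)]
    have h1 : Finset.Ioc h0 N = Finset.Icc (h0 + 1) N := by
      ext x
      simp only [Finset.mem_Ioc, Finset.mem_Icc]
      omega
    rw [h1, ih (by omega), w1, if_pos (by omega)]
    ring

/-- The weighted sum of a function of the orders. -/
def WF (K : ℕ) (Φ : (Fin d → ℕ) → ℕ → Mot) : PowerSeries Mot :=
  PowerSeries.mk fun n => ∑ k ∈ Fintype.piFinset (fun _ : Fin d => Finset.Icc 1 (K * (n + 1))),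
    wN (K * (n + 1)) k * Φ k n

theorem WF_add (K : ℕ) (Φ Ψ : (Fin d → ℕ) → ℕ → Mot) :
    WF K (fun k n => Φ k n + Ψ k n) = WF K Φ + WF K Ψ := by
  ext n
  simp only [WF, PowerSeries.coeff_mk, map_add, mul_add, Finset.sum_add_distrib]

theorem WF_sub (K : ℕ) (Φ Ψ : (Fin d → ℕ) → ℕ → Mot) :
    WF K (fun k n => Φ k n - Ψ k n) = WF K Φ - WF K Ψ := by
  ext n
  simp only [WF, PowerSeries.coeff_mk, map_sub, mul_sub, Finset.sum_sub_distrib]

theorem WF_sum {κ : Type} (K : ℕ) (s : Finset κ) (Φ : κ → (Fin d → ℕ) → ℕ → Mot) :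
    WF K (fun k n => ∑ i ∈ s, Φ i k n) = ∑ i ∈ s, WF K (Φ i) := by
  classical
  ext n
  rw [map_sum]
  simp only [WF, PowerSeries.coeff_mk, Finset.mul_sum]
  rw [Finset.sum_comm]

theorem WF_smul (K : ℕ) (a : Mot) (Φ : (Fin d → ℕ) → ℕ → Mot) :
    WF K (fun k n => a * Φ k n) = a • WF K Φ := by
  ext n
  rw [PowerSeries.coeff_smul, smul_eq_mul]
  simp only [WF, PowerSeries.coeff_mk, Finset.mul_sum]
  exact Finset.sum_congr rfl fun k _ => by ring

theorem WF_congr {K : ℕ} {Φ Ψ : (Fin d → ℕ) → ℕ → Mot}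
    (h : ∀ k n, (∀ j, 1 ≤ k j ∧ k j ≤ K * (n + 1)) → Φ k n = Ψ k n) : WF K Φ = WF K Ψ := by
  ext n
  simp only [WF, PowerSeries.coeff_mk]
  refine Finset.sum_congr rfl fun k hk => ?_
  rw [h k n fun j => Finset.mem_Icc.1 (Fintype.mem_piFinset.1 hk j)]

/-! ### Cells with the last coordinate `h` -/

/-- The lattice of the points `(k, h)` with `k ∈ Λ`. -/
def lattO (Λ : AddSubgroup (Fin d → ℤ)) : AddSubgroup (Option (Fin d) → ℤ) where
  carrier := {x | (fun j => x (some j)) ∈ Λ}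
  zero_mem' := Λ.zero_mem
  add_mem' := fun ha hb => Λ.add_mem ha hb
  neg_mem' := fun ha => Λ.neg_mem ha

theorem lattO_smul {Λ : AddSubgroup (Fin d → ℤ)} {E : ℕ} (hΛ : ∀ y : Fin d → ℤ, (E : ℤ) • y ∈ Λ)
    (y : Option (Fin d) → ℤ) : (E : ℤ) • y ∈ lattO Λ := hΛ fun j => y (some j)

def cc0 (a b : Mot) : Option (Fin d) → Mot := fun o => o.elim a fun _ => b

theorem cellW_ox (N : ℕ) (k : Fin d → ℕ) (h : ℕ) (a b : Mot) :
    cellW N (cc0 (d := d) a (1 - Lp 1)) (cc0 b 1) (ox k h) =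
      ((if h < N then a else b) * Lp h) * wN N k := by
  unfold cellW wN
  rw [Fintype.prod_option]
  simp only [ox_none, ox_some, cc0, Option.elim_none, Option.elim_some, w1_eq]
  rfl

open Classical in
/-- The cut of a stage: `none`, or the condition `E h + σ ≤ U·k`. -/
def CutOK (E : ℕ) (c : Option ((Fin d → ℕ) × ℕ)) (k : Fin d → ℕ) (h : ℕ) : Prop :=
  match c with
  | none => True
  | some (U, σ) => E * h + σ ≤ dk U k

open Classical in
/-- The edge above the cut. -/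
def edge (E K : ℕ) (l : Fin d → ℕ) (c : Option ((Fin d → ℕ) × ℕ)) (A : Fin d → ℕ) (M : ℕ)
    (k : Fin d → ℕ) (n : ℕ) : Mot :=
  ∑ h ∈ Finset.Icc 1 (K * (n + 1)),
    if dk l k < E * h ∧ CutOK E c k h ∧ dk A k + M * (E * h) = E * n then
      w1 (K * (n + 1)) h else 0

/-- The conditions for a cut. -/
def GoodCut (E : ℕ) (s₀ : ℚ) (c : Option ((Fin d → ℕ) × ℕ)) (l A : Fin d → ℕ) (M : ℕ) : Prop :=
  match c with
  | none => (1 : ℚ) ≠ -s₀ * M
  | some (U, _) => (∀ j, l j ≤ U j) ∧ ∀ j, (E : ℚ) + U j ≠ -s₀ * (A j + M * U j)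

/-- The vector `(E e_j, t)`. -/
def gv (E : ℕ) (j : Fin d) (t : ℤ) : Option (Fin d) → ℤ := ox (Pi.single j (E : ℤ)) t

theorem sum_gv (E : ℕ) (j : Fin d) (t : ℤ) (a : Option (Fin d) → ℤ) :
    ∑ o, a o * gv E j t o = a none * t + a (some j) * E := by
  rw [Fintype.sum_option]
  simp only [gv, ox_none, ox_some]
  rw [Finset.sum_eq_single j]
  · rw [Pi.single_eq_same]
  · intro i _ hij
    rw [Pi.single_eq_of_ne hij, mul_zero]
  · simp

theorem gv_nonneg (E : ℕ) (j : Fin d) {t : ℤ} (ht : 0 ≤ t) (o : Option (Fin d)) :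
    0 ≤ gv E j t o := by
  rcases o with _ | i
  · exact ht
  · simp only [gv, ox_some]
    by_cases hij : i = j
    · subst hij
      rw [Pi.single_eq_same]
      positivity
    · rw [Pi.single_eq_of_ne hij]

theorem sum_gv_rat (E : ℕ) (j : Fin d) (t : ℤ) (a : Option (Fin d) → ℚ) :
    ∑ o, a o * (gv E j t o : ℚ) = a none * t + a (some j) * E := by
  rw [Fintype.sum_option]
  simp only [gv, ox_none, ox_some]
  rw [Finset.sum_eq_single j]
  · rw [Pi.single_eq_same]
    push_cast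
    ring
  · intro i _ hij
    rw [Pi.single_eq_of_ne hij]
    simp
  · simp

end PT

end MPb07157
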