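import Pool.Agent.Lib.MP_b07157_agO.PT3

/-!
# Edges and walls are regular
-/

noncomputable section

namespace MPb07157

open Finset

namespace PT

variable {d : ℕ}

theorem sum_option_dk (a : Fin d → ℤ) (b : ℤ) (k : Fin d → ℕ) (h : ℕ) :
    ∑ o, ox a b o * ((ox k h o : ℕ) : ℤ) = b * h + ∑ j, a j * (k j : ℤ) := by
  rw [Fintype.sum_option]
  rfl

/-- The cell of an edge: constraints. -/
def eA (E : ℕ) (l : Fin d → ℕ) (c : Option ((Fin d → ℕ) × ℕ)) : Bool → Option (Fin d) → ℤ
  | true => ox (fun j => -(l j : ℤ)) E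
  | false => match c with
    | none => 0
    | some (U, _) => ox (fun j => (U j : ℤ)) (-(E : ℤ))

def eC (c : Option ((Fin d → ℕ) × ℕ)) : Bool → ℤ
  | true => 1
  | false => match c with
    | none => 0
    | some (_, σ) => σ

theorem dk_cast (a k : Fin d → ℕ) : ((dk a k : ℕ) : ℤ) = ∑ j, (a j : ℤ) * (k j : ℤ) := by
  unfold dk
  push_cast
  rfl

theorem eA_true (E : ℕ) (l : Fin d → ℕ) (c : Option ((Fin d → ℕ) × ℕ)) (k : Fin d → ℕ) (h : ℕ) :
    ∑ o, eA E l c true o * ((ox k h o : ℕ) : ℤ) = E * h - dk l k := by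
  change ∑ o, ox (fun j => -(l j : ℤ)) (E : ℤ) o * ((ox k h o : ℕ) : ℤ) = _
  rw [sum_option_dk, dk_cast]
  simp only [neg_mul, Finset.sum_neg_distrib]
  ring

theorem eA_false (E : ℕ) (l U : Fin d → ℕ) (σ : ℕ) (k : Fin d → ℕ) (h : ℕ) :
    ∑ o, eA E l (some (U, σ)) false o * ((ox k h o : ℕ) : ℤ) = dk U k - E * h := by
  change ∑ o, ox (fun j => (U j : ℤ)) (-(E : ℤ)) o * ((ox k h o : ℕ) : ℤ) = _
  rw [sum_option_dk, dk_cast]
  ring

theorem inCell_edge {E : ℕ} {l A : Fin d → ℕ} {c : Option ((Fin d → ℕ) × ℕ)} {M : ℕ}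
    {Λ : AddSubgroup (Fin d → ℤ)} {k : Fin d → ℕ} {h n : ℕ} :
    InCell (lattO Λ) E (ox A (M * E)) (eA E l c) (eC c) ∅ n (ox k h) ↔
      (fun j => (k j : ℤ)) ∈ Λ ∧ dk l k < E * h ∧ CutOK E c k h ∧
        dk A k + M * (E * h) = E * n := by
  unfold InCell
  have h1 : (fun j => ((ox k h j : ℕ) : ℤ)) ∈ lattO Λ ↔ (fun j => (k j : ℤ)) ∈ Λ := Iff.rfl
  have h2 : ∑ o, ox A (M * E) o * ox k h o = dk A k + M * (E * h) := by
    rw [Fintype.sum_option]
    simp only [ox_none, ox_some, dk]
    ring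
  rw [h1, h2, Bool.forall_bool, eA_true]
  have h3 : eC c false ≤ ∑ o, eA E l c false o * ((ox k h o : ℕ) : ℤ) ↔ CutOK E c k h := by
    rcases c with _ | ⟨U, σ⟩
    · simp [eC, eA, CutOK]
    · rw [eA_false]
      simp only [eC, CutOK]
      constructor
      · intro h
        zify
        linarith
      · intro h
        zify at h
        linarith
  rw [h3]
  simp only [eC, Finset.notMem_empty, false_imp_iff, implies_true, true_and]
  have h4 : (1 : ℤ) ≤ E * h - dk l k ↔ dk l k < E * h := by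
    constructor
    · intro h
      zify
      linarith
    · intro h
      zify at h
      linarith
  rw [h4]
  constructor
  · rintro ⟨e1, ⟨e2, e3⟩, e4⟩
    exact ⟨e1, e3, e2, e4.symm⟩
  · rintro ⟨e1, e2, e3, e4⟩
    exact ⟨e1, ⟨e3, e2⟩, e4.symm⟩

open Classical in
theorem WF_edge (E K : ℕ) (l A : Fin d → ℕ) (c : Option ((Fin d → ℕ) × ℕ)) (M : ℕ)
    (Λ : AddSubgroup (Fin d → ℤ)) :
    WF K (fun k n => if (fun j => (k j : ℤ)) ∈ Λ then edge E K l c A M k n else 0) =
      cellF (lattO Λ) E (ox A (M * E)) K (cc0 (1 - Lp 1) (1 - Lp 1)) (cc0 1 1)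
        (eA E l c) (eC c) ∅ := by
  ext n
  simp only [WF, cellF, PowerSeries.coeff_mk]
  rw [@sum_box_option d (fun a b => Classical.propDecidable (a = b))]
  refine Finset.sum_congr rfl fun k _ => ?_
  by_cases hk : (fun j => (k j : ℤ)) ∈ Λ
  · rw [if_pos hk, edge, Finset.mul_sum]
    refine Finset.sum_congr rfl fun h _ => ?_
    by_cases hh : dk l k < E * h ∧ CutOK E c k h ∧ dk A k + M * (E * h) = E * n
    · rw [if_pos hh, if_pos (inCell_edge.2 ⟨hk, hh⟩), cellW_ox, w1_eq]
      have : ((LU ^ (-(h : ℤ)) : Motˣ) : Mot) = Lp h := rfl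
      rw [this]
      ring
    · rw [if_neg hh, if_neg (fun h1 => hh (inCell_edge.1 h1).2), mul_zero]
  · rw [if_neg hk, mul_zero]
    symm
    exact Finset.sum_eq_zero fun h _ => if_neg fun h1 => hk (inCell_edge.1 h1).1

/-- The decomposition of the lower face. -/
theorem dec_low {E : ℕ} {k : Fin d → ℤ} (hk : ∀ j, 0 ≤ k j) (u : Fin d → ℤ) (r : ℤ)
    {P : Set (Option (Fin d) → ℤ)} (hP : ∀ j, gv E j (u j) ∈ P) {q : ℤ}
    (hq : q = ∑ j, u j * k j) (hr : 0 ≤ r) :
    ox (fun j => r * ((E : ℤ) * k j)) (r * q) ∈ AddSubmonoid.closure P := by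
  classical
  have h1 : ox (fun j => r * ((E : ℤ) * k j)) (r * q) =
      ∑ j, (r * k j).toNat • gv E j (u j) := by
    have h2 : ∀ j, (((r * k j).toNat : ℕ) : ℤ) = r * k j := fun j =>
      Int.toNat_of_nonneg (mul_nonneg hr (hk j))
    funext o
    rw [Finset.sum_apply]
    rcases o with _ | i
    · simp only [ox_none, Pi.smul_apply, gv, nsmul_eq_mul, h2, hq, Finset.mul_sum]
      exact Finset.sum_congr rfl fun j _ => by ring
    · simp only [ox_some, Pi.smul_apply, gv, nsmul_eq_mul, h2]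
      rw [Finset.sum_eq_single i]
      · rw [Pi.single_eq_same]
        ring
      · intro j _ hji
        rw [Pi.single_eq_of_ne hji.symm, mul_zero]
      · simp
  rw [h1]
  exact sum_mem fun j _ => AddSubmonoid.nsmul_mem _ (AddSubmonoid.subset_closure (hP j)) _

theorem edge_mem {E : ℕ} (hE : 0 < E) {Λ : AddSubgroup (Fin d → ℤ)}
    (hΛ : ∀ y : Fin d → ℤ, (E : ℤ) • y ∈ Λ) {s₀ : ℚ} {K : ℕ} (hK : -s₀ < K)
    (l A : Fin d → ℕ) (c : Option ((Fin d → ℕ) × ℕ)) (M : ℕ) (hc : GoodCut E s₀ c l A M)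
    (hl : ∀ j, (E : ℚ) + l j ≠ -s₀ * (A j + M * l j)) :
    cellF (lattO Λ) E (ox A (M * E)) K (cc0 (1 - Lp 1) (1 - Lp 1)) (cc0 1 1)
        (eA E l c) (eC c) ∅ ∈ regularAt s₀ := by
  classical
  refine cellF_mem_regularAt hE (lattO_smul hΛ) hK _ _ _ _ _ ?_
  intro x hx hcone _
  set P : Set (Option (Fin d) → ℤ) := {y | (∀ o, 0 ≤ y o) ∧
    (∀ i, 0 ≤ ∑ o, eA E l c i o * y o) ∧
    (y = 0 ∨ (E : ℚ) * ∑ o, (y o : ℚ) ≠ -s₀ * ∑ o, ((ox A (M * E) o : ℕ) : ℚ) * y o)} with hP
  set k : Fin d → ℤ := fun j => x (some j) with hk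
  set h : ℤ := x none with hh
  have hx' : x = ox k h := by
    funext o
    cases o <;> rfl
  have hk0 : ∀ j, 0 ≤ k j := fun j => hx _
  have hE' : (0 : ℚ) < E := by exact_mod_cast hE
  have hEz : (0 : ℤ) < E := by exact_mod_cast hE
  have hlow := hcone true
  have hup := hcone false
  have e1 : ∑ o, eA E l c true o * x o = E * h - ∑ j, (l j : ℤ) * k j := by
    rw [Fintype.sum_option]
    simp only [eA, ox_none, ox_some, neg_mul, Finset.sum_neg_distrib]
    rw [hh, hk]
    ring
  rw [e1] at hlow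
  -- good vectors
  have hgood : ∀ j (t : ℕ), (E : ℚ) + t ≠ -s₀ * (A j + M * t) →
      (E : ℚ) * ∑ o, (gv E j (t : ℤ) o : ℚ) ≠
        -s₀ * ∑ o, ((ox A (M * E) o : ℕ) : ℚ) * gv E j (t : ℤ) o := by
    intro j t ht heq
    apply ht
    have h1 := sum_gv_rat E j (t : ℤ) (fun _ => 1)
    have h2 := sum_gv_rat E j (t : ℤ) (fun o => ((ox A (M * E) o : ℕ) : ℚ))
    simp only [one_mul] at h1
    rw [h1, h2] at heq
    simp only [ox_none, ox_some] at heq
    push_cast at heq
    apply mul_left_cancel₀ hE'.ne'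
    linarith
  have hgl : ∀ j, gv E j (l j : ℤ) ∈ P := by
    intro j
    refine ⟨gv_nonneg E j (by positivity), ?_, Or.inr (hgood j (l j) (hl j))⟩
    rintro (_ | _)
    · rcases c with _ | ⟨U, σ⟩
      · simp [eA]
      · rw [sum_gv]
        simp only [eA, ox_none, ox_some]
        have h1 : (l j : ℤ) ≤ U j := by exact_mod_cast hc.1 j
        nlinarith
    · rw [sum_gv]
      simp only [eA, ox_none, ox_some]
      linarith
  rcases c with _ | ⟨U, σ⟩
  · -- no upper bound
    have hg1 : ox (0 : Fin d → ℤ) 1 ∈ P := by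
      refine ⟨?_, ?_, Or.inr ?_⟩
      · rintro (_ | j)
        · exact zero_le_one
        · exact le_rfl
      · rintro (_ | _)
        · simp [eA]
        · rw [Fintype.sum_option]
          simp [eA]
      · rw [Fintype.sum_option, Fintype.sum_option]
        simp only [ox_none, ox_some, Pi.zero_apply, Int.cast_one, Int.cast_zero, mul_zero,
          Finset.sum_const_zero, add_zero, mul_one]
        intro heq
        apply hc
        push_cast at heq
        apply mul_left_cancel₀ hE'.ne'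
        linarith
    refine ⟨E, hE, ?_⟩
    have h1 := dec_low (E := E) hk0 (fun j => (l j : ℤ)) 1 hgl rfl zero_le_one
    have h2 : E • x = ox (fun j => 1 * ((E : ℤ) * k j)) (1 * ∑ j, (l j : ℤ) * k j) +
        (E * h - ∑ j, (l j : ℤ) * k j).toNat • ox (0 : Fin d → ℤ) 1 := by
      have h3 : (((E * h - ∑ j, (l j : ℤ) * k j).toNat : ℕ) : ℤ) = E * h - ∑ j, (l j : ℤ) * k j :=
        Int.toNat_of_nonneg hlow
      rw [hx']
      funext o
      rcases o with _ | i
      · simp only [Pi.smul_apply, Pi.add_apply, ox_none, nsmul_eq_mul, Pi.mul_apply,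
          Pi.natCast_apply, h3]
        ring
      · simp only [Pi.smul_apply, Pi.add_apply, ox_some, nsmul_eq_mul, Pi.mul_apply,
          Pi.natCast_apply, Pi.zero_apply]
        ring
    rw [h2]
    exact add_mem h1 (AddSubmonoid.nsmul_mem _ (AddSubmonoid.subset_closure hg1) _)
  · -- upper bound `U`
    have e2 : ∑ o, eA E l (some (U, σ)) false o * x o = ∑ j, (U j : ℤ) * k j - E * h := by
      rw [Fintype.sum_option]
      simp only [eA, ox_none, ox_some]
      rw [hh, hk]
      ring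
    rw [e2] at hup
    have hgu : ∀ j, gv E j (U j : ℤ) ∈ P := by
      intro j
      refine ⟨gv_nonneg E j (by positivity), ?_, Or.inr (hgood j (U j) (hc.2 j))⟩
      rintro (_ | _)
      · rw [sum_gv]
        simp only [eA, ox_none, ox_some]
        linarith
      · rw [sum_gv]
        simp only [eA, ox_none, ox_some]
        have h1 : (l j : ℤ) ≤ U j := by exact_mod_cast hc.1 j
        nlinarith
    set a : ℤ := ∑ j, (l j : ℤ) * k j with ha
    set b : ℤ := ∑ j, (U j : ℤ) * k j with hb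
    rcases (by omega : a = b ∨ a < b) with hab | hab
    · refine ⟨E, hE, ?_⟩
      have h1 := dec_low (E := E) hk0 (fun j => (l j : ℤ)) 1 hgl rfl zero_le_one
      have h2 : E • x = ox (fun j => 1 * ((E : ℤ) * k j)) (1 * ∑ j, (l j : ℤ) * k j) := by
        have h3 : (E : ℤ) * h = a := by omega
        rw [hx']
        funext o
        rcases o with _ | i
        · simp only [Pi.smul_apply, ox_none, nsmul_eq_mul]
          rw [h3, one_mul]
        · simp only [Pi.smul_apply, ox_some, nsmul_eq_mul]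
          ring
      rw [h2]
      exact h1
    · refine ⟨(b - a).toNat * E, Nat.mul_pos (by omega) hE, ?_⟩
      have h1 := dec_low (E := E) hk0 (fun j => (l j : ℤ)) (b - E * h) hgl rfl (by omega)
      have h2 := dec_low (E := E) hk0 (fun j => (U j : ℤ)) (E * h - a) hgu rfl (by omega)
      have h3 : ((b - a).toNat * E) • x =
          ox (fun j => (b - E * h) * ((E : ℤ) * k j)) ((b - E * h) * ∑ j, (l j : ℤ) * k j) +
          ox (fun j => (E * h - a) * ((E : ℤ) * k j)) ((E * h - a) * ∑ j, (U j : ℤ) * k j) := by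
        have h4 : (((b - a).toNat : ℕ) : ℤ) = b - a := Int.toNat_of_nonneg (by omega)
        rw [hx', ← ha, ← hb]
        funext o
        rcases o with _ | i
        · simp only [Pi.smul_apply, Pi.add_apply, ox_none, nsmul_eq_mul]
          push_cast [h4]
          ring
        · simp only [Pi.smul_apply, Pi.add_apply, ox_some, nsmul_eq_mul]
          push_cast [h4]
          ring
      rw [h3]
      exact add_mem h1 h2

end PT

end MPb07157
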