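import Pool.Agent.Lib.MP_b07157_agO.PT4

/-!
# Walls are regular
-/

noncomputable section

namespace MPb07157

open Finset

namespace PT

variable {d : ℕ}

open Classical in
/-- The wall `E h = L·k`. -/
def wall (E : ℕ) (L A : Fin d → ℕ) (M : ℕ) (k : Fin d → ℕ) (n : ℕ) : Mot :=
  if E ∣ dk L k ∧ dk A k + M * dk L k = E * n then Lp (dk L k / E) else 0

def wA (E : ℕ) (L : Fin d → ℕ) : Unit → Option (Fin d) → ℤ := fun _ => ox (fun j => -(L j : ℤ)) E

/-- The exponents of the wall. -/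
def wB (L A : Fin d → ℕ) (M : ℕ) : Fin d → ℕ := fun j => A j + M * L j

theorem inCell_wall {E : ℕ} {L A : Fin d → ℕ} {M : ℕ}
    {Λ : AddSubgroup (Fin d → ℤ)} {k : Fin d → ℕ} {h n : ℕ} :
    InCell (lattO Λ) E (ox (wB L A M) 0) (wA E L) (fun _ => (E : ℤ)) {()} n (ox k h) ↔
      (fun j => (k j : ℤ)) ∈ Λ ∧ E * h = dk L k + E ∧ dk A k + M * dk L k = E * n := by
  unfold InCell
  have h1 : (fun j => ((ox k h j : ℕ) : ℤ)) ∈ lattO Λ ↔ (fun j => (k j : ℤ)) ∈ Λ := Iff.rfl
  have h2 : ∑ o, ox (wB L A M) 0 o * ox k h o = dk A k + M * dk L k := by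
    rw [Fintype.sum_option]
    simp only [ox_none, ox_some, dk, wB, zero_mul, zero_add, Finset.mul_sum]
    rw [← Finset.sum_add_distrib]
    exact Finset.sum_congr rfl fun j _ => by ring
  have h3 : ∀ i, ∑ o, wA E L i o * ((ox k h o : ℕ) : ℤ) = E * h - dk L k := by
    intro i
    change ∑ o, ox (fun j => -(L j : ℤ)) (E : ℤ) o * ((ox k h o : ℕ) : ℤ) = _
    rw [sum_option_dk, dk_cast]
    simp only [neg_mul, Finset.sum_neg_distrib]
    ring
  rw [h1, h2]
  simp only [h3, Finset.mem_singleton, forall_const]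
  constructor
  · rintro ⟨e1, e2, e3, e4⟩
    refine ⟨e1, ?_, e4.symm⟩
    zify
    linarith
  · rintro ⟨e1, e2, e3⟩
    have h4 : (E : ℤ) * h = dk L k + E := by exact_mod_cast e2
    exact ⟨e1, by linarith, by linarith, e3.symm⟩

open Classical in
theorem WF_wall {E K : ℕ} (hE : 0 < E) (hK : 0 < K) (L A : Fin d → ℕ) {M : ℕ} (hM : 0 < M)
    (Λ : AddSubgroup (Fin d → ℤ)) :
    WF K (fun k n => if (fun j => (k j : ℤ)) ∈ Λ then wall E L A M k n else 0) =
      ((LU : Motˣ) : Mot) • cellF (lattO Λ) E (ox (wB L A M) 0) K (cc0 1 (1 - Lp 1)) (cc0 1 1)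
        (wA E L) (fun _ => (E : ℤ)) {()} := by
  ext n
  rw [PowerSeries.coeff_smul, smul_eq_mul]
  simp only [WF, cellF, PowerSeries.coeff_mk]
  rw [@sum_box_option d (fun a b => Classical.propDecidable (a = b)), Finset.mul_sum]
  refine Finset.sum_congr rfl fun k hk1 => ?_
  by_cases hk : (fun j => (k j : ℤ)) ∈ Λ
  · rw [if_pos hk, wall]
    by_cases hw : E ∣ dk L k ∧ dk A k + M * dk L k = E * n
    · rw [if_pos hw]
      obtain ⟨⟨h0, hh0⟩, hw2⟩ := hw
      have h1 : dk L k / E = h0 := by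
        rw [hh0]
        exact Nat.mul_div_cancel_left _ hE
      have h4 : h0 ≤ n := by
        have h5 : E * h0 ≤ E * n := by
          calc E * h0 = dk L k := hh0.symm
            _ ≤ M * dk L k := Nat.le_mul_of_pos_left _ hM
            _ ≤ E * n := by omega
        exact Nat.le_of_mul_le_mul_left h5 hE
      have h5 : n + 1 ≤ K * (n + 1) := Nat.le_mul_of_pos_left _ hK
      rw [Finset.sum_eq_single (h0 + 1), if_pos (inCell_wall.2 ⟨hk, by rw [hh0]; ring, hw2⟩),
        cellW_ox, h1]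
      · simp only [ite_self, one_mul]
        have h6 : ((LU : Motˣ) : Mot) * Lp (h0 + 1) = Lp h0 := by
          unfold Lp
          rw [← Units.val_mul, ← zpow_one_add]
          congr 2
          push_cast
          ring
        rw [← mul_assoc, h6]
        ring
      · intro h _ hne
        refine if_neg fun h6 => hne ?_
        have h7 := (inCell_wall.1 h6).2.1
        rw [hh0] at h7
        have h8 : E * h = E * (h0 + 1) := by rw [h7]; ring
        exact Nat.eq_of_mul_eq_mul_left hE h8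
      · intro h6
        exact absurd (Finset.mem_Icc.2 ⟨by omega, by omega⟩) h6
    · rw [if_neg hw, mul_zero]
      symm
      refine mul_eq_zero_of_right _ (Finset.sum_eq_zero fun h _ => if_neg fun h1 => hw ?_)
      obtain ⟨-, h2, h3⟩ := inCell_wall.1 h1
      refine ⟨?_, h3⟩
      rw [← Nat.dvd_add_left (dvd_refl E), ← h2]
      exact Dvd.intro _ rfl
  · rw [if_neg hk, mul_zero]
    symm
    exact mul_eq_zero_of_right _
      (Finset.sum_eq_zero fun h _ => if_neg fun h1 => hk (inCell_wall.1 h1).1)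

theorem good_gv {E : ℕ} (hE : 0 < E) {s₀ : ℚ} {A : Fin d → ℕ} {M : ℕ} (j : Fin d) (t : ℕ)
    (ht : (E : ℚ) + t ≠ -s₀ * (A j + M * t)) :
      (E : ℚ) * ∑ o, (gv E j (t : ℤ) o : ℚ) ≠
        -s₀ * ∑ o, ((ox A (M * E) o : ℕ) : ℚ) * gv E j (t : ℤ) o := by
  have hE' : (0 : ℚ) < E := by exact_mod_cast hE
  intro heq
  apply ht
  have h1 := sum_gv_rat E j (t : ℤ) (fun _ => 1)
  have h2 := sum_gv_rat E j (t : ℤ) (fun o => ((ox A (M * E) o : ℕ) : ℚ))
  simp only [one_mul] at h1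
  rw [h1, h2] at heq
  simp only [ox_none, ox_some] at heq
  push_cast at heq
  apply mul_left_cancel₀ hE'.ne'
  linarith

theorem wall_mem {E : ℕ} (hE : 0 < E) {Λ : AddSubgroup (Fin d → ℤ)}
    (hΛ : ∀ y : Fin d → ℤ, (E : ℤ) • y ∈ Λ) {s₀ : ℚ} {K : ℕ} (hK : -s₀ < K)
    (L A : Fin d → ℕ) (M : ℕ)
    (hl : ∀ j, (E : ℚ) + L j ≠ -s₀ * (A j + M * L j)) :
    cellF (lattO Λ) E (ox (wB L A M) 0) K (cc0 1 (1 - Lp 1)) (cc0 1 1)
        (wA E L) (fun _ => (E : ℤ)) {()} ∈ regularAt s₀ := by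
  classical
  refine cellF_mem_regularAt hE (lattO_smul hΛ) hK _ _ _ _ _ ?_
  intro x hx hcone hQ
  set P : Set (Option (Fin d) → ℤ) := {y | (∀ o, 0 ≤ y o) ∧
    (∀ i, 0 ≤ ∑ o, wA E L i o * y o) ∧
    (y = 0 ∨ (E : ℚ) * ∑ o, (y o : ℚ) ≠ -s₀ * ∑ o, ((ox (wB L A M) 0 o : ℕ) : ℚ) * y o)} with hP
  set k : Fin d → ℤ := fun j => x (some j) with hk
  set h : ℤ := x none with hh
  have hx' : x = ox k h := by
    funext o
    cases o <;> rfl
  have hk0 : ∀ j, 0 ≤ k j := fun j => hx _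
  have e1 : ∑ o, wA E L () o * x o = E * h - ∑ j, (L j : ℤ) * k j := by
    rw [Fintype.sum_option]
    simp only [wA, ox_none, ox_some, neg_mul, Finset.sum_neg_distrib]
    rw [hh, hk]
    ring
  have hlow := hQ () (Finset.mem_singleton_self _)
  rw [e1] at hlow
  have hE' : (0 : ℚ) < E := by exact_mod_cast hE
  have hgl : ∀ j, gv E j (L j : ℤ) ∈ P := by
    intro j
    refine ⟨gv_nonneg E j (by positivity), ?_, Or.inr ?_⟩
    · intro i
      rw [sum_gv]
      simp only [wA, ox_none, ox_some]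
      linarith
    · intro heq
      apply hl j
      have h1 := sum_gv_rat E j (L j : ℤ) (fun _ => 1)
      have h2 := sum_gv_rat E j (L j : ℤ) (fun o => ((ox (wB L A M) 0 o : ℕ) : ℚ))
      simp only [one_mul] at h1
      rw [h1, h2] at heq
      simp only [ox_none, ox_some, wB] at heq
      push_cast at heq
      apply mul_left_cancel₀ hE'.ne'
      linarith
  refine ⟨E, hE, ?_⟩
  have h1 := dec_low (E := E) hk0 (fun j => (L j : ℤ)) 1 hgl rfl zero_le_one
  have h2 : E • x = ox (fun j => 1 * ((E : ℤ) * k j)) (1 * ∑ j, (L j : ℤ) * k j) := by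
    have h3 : (E : ℤ) * h = ∑ j, (L j : ℤ) * k j := by linarith
    rw [hx']
    funext o
    rcases o with _ | i
    · simp only [Pi.smul_apply, ox_none, nsmul_eq_mul]
      rw [h3, one_mul]
    · simp only [Pi.smul_apply, ox_some, nsmul_eq_mul]
      ring
  rw [h2]
  exact h1

end PT

end MPb07157
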