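import Pool.Agent.Lib.MP_b07157_agO.PT3

/-!
# The merging identity at a bad direction
-/

noncomputable section

namespace MPb07157

open Finset

namespace PT

theorem w1_lt {N x : ℕ} (h : x < N) : w1 N x = Lp x * (1 - Lp 1) := by
  rw [w1, if_pos h, Lp_succ]
  ring

theorem w1_mul {N x h y g : ℕ} (h1 : x < N) (h2 : h < N) (h3 : y < N) (h4 : g < N)
    (h5 : x + h = y + g) : w1 N x * w1 N h = w1 N y * w1 N g := by
  rw [w1_lt h1, w1_lt h2, w1_lt h3, w1_lt h4]
  have h6 : Lp x * Lp h = Lp y * Lp g := by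
    rw [← Lp_add, ← Lp_add, h5]
  linear_combination (1 - Lp 1) ^ 2 * h6

open Classical in
/-- The two cells next to the wall: the wall and the part above it. -/
theorem merge_wall {p w B μ n N E a : ℕ} (hE : 0 < E) (hμ : 0 < μ) (hp : 0 < p)
    (hN : p * n < N) :
    ∑ x ∈ Finset.Icc 1 N, ∑ h ∈ Finset.Icc 1 N,
      ((if w < p * h ∧ p * h < w + x ∧ a + (B + p * μ) * (E * h) = E * n then
        w1 N x * w1 N h else 0) +
      (if w + x = p * h ∧ a + (B + p * μ) * (E * h) = E * n then
        w1 N x * (Lp h - 2 * Lp (h + 1)) else 0)) =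
    ∑ x ∈ Finset.Icc 1 N, ∑ h ∈ Finset.Icc 1 N,
      if w + x = p * h ∧ a + B * (E * h) + μ * (E * x + E * w) = E * n then
        w1 N x * w1 N h else 0 := by
  rw [Finset.sum_comm, Finset.sum_comm (s := Finset.Icc 1 N) (t := Finset.Icc 1 N)
    (f := fun x h => if w + x = p * h ∧ a + B * (E * h) + μ * (E * x + E * w) = E * n then
        w1 N x * w1 N h else 0)]
  refine Finset.sum_congr rfl fun h hh => ?_
  rw [Finset.sum_add_distrib]
  by_cases hc : w < p * h ∧ a + (B + p * μ) * (E * h) = E * n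
  · obtain ⟨h1, h2⟩ := hc
    obtain ⟨κ, hκ⟩ := Nat.exists_eq_add_of_lt h1
    -- `κ + 1` is the value of `x` on the wall
    have hn : h ≤ n := by
      have h3 : E * h ≤ E * n := by
        calc E * h ≤ (p * μ) * (E * h) := Nat.le_mul_of_pos_left _ (Nat.mul_pos hp hμ)
          _ ≤ (B + p * μ) * (E * h) := Nat.mul_le_mul_right _ (by omega)
          _ ≤ E * n := by omega
      exact Nat.le_of_mul_le_mul_left h3 hE
    have hpn : p * h ≤ p * n := Nat.mul_le_mul_left _ hn
    have hhp : h ≤ p * h := Nat.le_mul_of_pos_left _ hp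
    have e1 : ∑ x ∈ Finset.Icc 1 N, (if w < p * h ∧ p * h < w + x ∧
        a + (B + p * μ) * (E * h) = E * n then w1 N x * w1 N h else 0) =
        Lp (κ + 2) * w1 N h := by
      rw [← Finset.sum_filter]
      have h3 : (Finset.Icc 1 N).filter (fun x => w < p * h ∧ p * h < w + x ∧
          a + (B + p * μ) * (E * h) = E * n) = Finset.Icc (κ + 2) N := by
        ext x
        simp only [Finset.mem_filter, Finset.mem_Icc]
        constructor
        · rintro ⟨⟨e1, e2⟩, e3, e4, -⟩
          omega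
        · rintro ⟨e1, e2⟩
          exact ⟨by omega, h1, by omega, h2⟩
      rw [h3, ← Finset.sum_mul, sum_w1 (by omega)]
    have e2 : ∑ x ∈ Finset.Icc 1 N, (if w + x = p * h ∧ a + (B + p * μ) * (E * h) = E * n then
        w1 N x * (Lp h - 2 * Lp (h + 1)) else 0) = w1 N (κ + 1) * (Lp h - 2 * Lp (h + 1)) := by
      rw [Finset.sum_eq_single (κ + 1)]
      · rw [if_pos ⟨by omega, h2⟩]
      · intro x _ hx
        exact if_neg fun h3 => hx (by omega)
      · intro h3
        exact absurd (Finset.mem_Icc.2 ⟨by omega, by omega⟩) h3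
    have e3 : ∑ x ∈ Finset.Icc 1 N, (if w + x = p * h ∧
        a + B * (E * h) + μ * (E * x + E * w) = E * n then w1 N x * w1 N h else 0) =
        w1 N (κ + 1) * w1 N h := by
      rw [Finset.sum_eq_single (κ + 1)]
      · have h4 : E * (κ + 1) + E * w = E * (p * h) := by
          rw [hκ]; ring
        refine if_pos ⟨by omega, ?_⟩
        rw [h4, ← h2]
        ring
      · intro x _ hx
        exact if_neg fun h3 => hx (by omega)
      · intro h3
        exact absurd (Finset.mem_Icc.2 ⟨by omega, by omega⟩) h3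
    rw [e1, e2, e3, w1_lt (by omega : h < N), w1_lt (by omega : κ + 1 < N), Lp_succ (κ + 1),
      Lp_succ h]
    ring
  · have e1 : ∑ x ∈ Finset.Icc 1 N, (if w < p * h ∧ p * h < w + x ∧
        a + (B + p * μ) * (E * h) = E * n then w1 N x * w1 N h else 0) = 0 :=
      Finset.sum_eq_zero fun x _ => if_neg fun h1 => hc ⟨h1.1, h1.2.2⟩
    have e2 : ∑ x ∈ Finset.Icc 1 N, (if w + x = p * h ∧ a + (B + p * μ) * (E * h) = E * n then
        w1 N x * (Lp h - 2 * Lp (h + 1)) else 0) = 0 :=
      Finset.sum_eq_zero fun x hx => if_neg fun h1 => hc ⟨by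
        have := (Finset.mem_Icc.1 hx).1
        omega, h1.2⟩
    have e3 : ∑ x ∈ Finset.Icc 1 N, (if w + x = p * h ∧
        a + B * (E * h) + μ * (E * x + E * w) = E * n then w1 N x * w1 N h else 0) = 0 :=
      Finset.sum_eq_zero fun x hx => if_neg fun h1 => hc ⟨by
        have := (Finset.mem_Icc.1 hx).1
        omega, by
        have h4 : E * x + E * w = E * (p * h) := by
          rw [← h1.1]; ring
        rw [← h1.2, h4]
        ring⟩
    rw [e1, e2, e3, add_zero]

open Classical in
/-- The first edge of the root branch. -/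
theorem merge_root {p w B μ n N E a : ℕ} (hE : 0 < E) (hμ : 0 < μ) (hp : 0 < p) (hN : p * n < N)
    (cb R : ℕ → ℕ → Prop) (h3 : ∀ κ h t, 1 ≤ κ → w + κ = p * h → 1 ≤ t → (R (κ + t) h ↔ cb κ (h + t))) :
    ∑ x ∈ Finset.Icc 1 N, ∑ g ∈ Finset.Icc 1 N,
      (if p ∣ w + x ∧ w + x < p * g ∧ cb x g ∧
          a + (B + p * μ - μ) * (E * ((w + x) / p)) + μ * (E * g) = E * n then
        w1 N x * w1 N g else 0) =
    ∑ y ∈ Finset.Icc 1 N, ∑ h ∈ Finset.Icc 1 N,
      if w < p * h ∧ p * h < w + y ∧ R y h ∧ a + B * (E * h) + μ * (E * y + E * w) = E * n then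
        w1 N y * w1 N h else 0 := by
  rw [← Finset.sum_product', ← Finset.sum_product', ← Finset.sum_filter, ← Finset.sum_filter]
  have hMμ : ∀ X : ℕ, (B + p * μ - μ) * X + μ * X = (B + p * μ) * X := by
    intro X
    rw [← Nat.add_mul, Nat.sub_add_cancel]
    have := Nat.le_mul_of_pos_left μ hp
    omega
  refine Finset.sum_nbij'
    (fun q => (q.1 + (q.2 - (w + q.1) / p), (w + q.1) / p))
    (fun q => (p * q.2 - w, q.2 + (w + q.1 - p * q.2))) ?_ ?_ ?_ ?_ ?_
  · rintro ⟨x, g⟩ hq
    rw [Finset.mem_filter, Finset.mem_product, Finset.mem_Icc, Finset.mem_Icc] at hq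
    obtain ⟨⟨⟨hx1, hx2⟩, hg1, hg2⟩, ⟨h, hh⟩, hlt, hcb, heq⟩ := hq
    simp only at hx1 hx2 hg1 hg2 hh hlt hcb heq ⊢
    have hdiv : (w + x) / p = h := by
      rw [hh]
      exact Nat.mul_div_cancel_left _ hp
    rw [hdiv] at heq ⊢
    rw [hh] at hlt
    have hhg : h < g := Nat.lt_of_mul_lt_mul_left hlt
    obtain ⟨t, rfl⟩ := Nat.exists_eq_add_of_lt hhg
    have hgn : h + t + 1 ≤ n := by
      have h5 : E * (h + t + 1) ≤ E * n := by
        calc E * (h + t + 1) ≤ μ * (E * (h + t + 1)) := Nat.le_mul_of_pos_left _ hμ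
          _ ≤ E * n := by omega
      exact Nat.le_of_mul_le_mul_left h5 hE
    have hph : p * h ≤ p * n := Nat.mul_le_mul_left _ (by omega)
    have hh0 : 0 < h := by
      rcases Nat.eq_zero_or_pos h with h6 | h6
      · rw [h6] at hh
        omega
      · exact h6
    have e2 : h + t + 1 - h = t + 1 := by omega
    rw [e2]
    have eq2 : a + B * (E * h) + μ * (E * (x + (t + 1)) + E * w) = E * n := by
      have h5 : E * (x + (t + 1)) + E * w = E * (w + x) + E * (t + 1) := by ring
      have h6 := hMμ (E * h)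
      have h7 : μ * (E * (h + t + 1)) = μ * (E * h) + μ * (E * (t + 1)) := by ring
      have h8 : (B + p * μ) * (E * h) = B * (E * h) + μ * (E * (p * h)) := by ring
      rw [h5, hh, Nat.mul_add μ]
      omega
    have hyn : x + (t + 1) ≤ n := by
      have h5 : E * (x + (t + 1)) ≤ E * n := by
        calc E * (x + (t + 1)) ≤ μ * (E * (x + (t + 1)) + E * w) := by
              refine le_trans ?_ (Nat.le_mul_of_pos_left _ hμ)
              omega
          _ ≤ E * n := by omega
      exact Nat.le_of_mul_le_mul_left h5 hE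
    have hnN : n ≤ p * n := Nat.le_mul_of_pos_left _ hp
    rw [Finset.mem_filter, Finset.mem_product, Finset.mem_Icc, Finset.mem_Icc]
    refine ⟨⟨⟨?_, ?_⟩, ?_, ?_⟩, ?_, ?_, ?_, eq2⟩
    · simp only; omega
    · simp only; omega
    · simp only; omega
    · simp only; omega
    · simp only; omega
    · simp only; omega
    · exact (h3 x h (t + 1) hx1 hh (by omega)).2 hcb
  · rintro ⟨y, h⟩ hq
    rw [Finset.mem_filter, Finset.mem_product, Finset.mem_Icc, Finset.mem_Icc] at hq
    obtain ⟨⟨⟨hy1, hy2⟩, hh1, hh2⟩, hw, hlt, hR, heq⟩ := hq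
    simp only at hy1 hy2 hh1 hh2 hw hlt hR heq ⊢
    obtain ⟨κ, hκ⟩ := Nat.exists_eq_add_of_lt hw
    obtain ⟨t, ht⟩ := Nat.exists_eq_add_of_lt hlt
    have e1 : p * h - w = κ + 1 := by omega
    have e2 : w + y - p * h = t + 1 := by omega
    rw [e1, e2]
    have hy : y = κ + 1 + (t + 1) := by omega
    have hwk : w + (κ + 1) = p * h := by omega
    have hdiv : (w + (κ + 1)) / p = h := by
      rw [hwk]
      exact Nat.mul_div_cancel_left _ hp
    have hyn : y + w ≤ n := by
      have h5 : E * (y + w) ≤ E * n := by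
        calc E * (y + w) = E * y + E * w := by ring
          _ ≤ μ * (E * y + E * w) := Nat.le_mul_of_pos_left _ hμ
          _ ≤ E * n := by omega
      exact Nat.le_of_mul_le_mul_left h5 hE
    have hnN : n ≤ p * n := Nat.le_mul_of_pos_left _ hp
    have hhp : h ≤ p * h := Nat.le_mul_of_pos_left _ hp
    rw [Finset.mem_filter, Finset.mem_product, Finset.mem_Icc, Finset.mem_Icc]
    refine ⟨⟨⟨?_, ?_⟩, ?_, ?_⟩, ?_, ?_, ?_, ?_⟩
    · simp only; omega
    · simp only; omega
    · simp only; omega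
    · simp only; omega
    · simp only
      rw [hwk]
      exact Dvd.intro _ rfl
    · simp only
      rw [hwk]
      exact Nat.mul_lt_mul_of_pos_left (by omega) hp
    · simp only
      rw [← h3 (κ + 1) h (t + 1) (by omega) hwk (by omega), ← hy]
      exact hR
    · simp only
      rw [hdiv]
      have h5 : E * y + E * w = E * (p * h) + E * (t + 1) := by
        rw [hy, ← hwk]; ring
      have h6 := hMμ (E * h)
      have h7 : μ * (E * (h + (t + 1))) = μ * (E * h) + μ * (E * (t + 1)) := by ring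
      have h8 : (B + p * μ) * (E * h) = B * (E * h) + μ * (E * (p * h)) := by ring
      rw [h5, Nat.mul_add μ] at heq
      omega
  · rintro ⟨x, g⟩ hq
    rw [Finset.mem_filter, Finset.mem_product, Finset.mem_Icc, Finset.mem_Icc] at hq
    obtain ⟨⟨⟨hx1, hx2⟩, hg1, hg2⟩, ⟨h, hh⟩, hlt, hcb, heq⟩ := hq
    simp only at hx1 hx2 hg1 hg2 hh hlt hcb heq ⊢
    have hdiv : (w + x) / p = h := by
      rw [hh]
      exact Nat.mul_div_cancel_left _ hp
    rw [hdiv]
    rw [hh] at hlt
    have hhg : h < g := Nat.lt_of_mul_lt_mul_left hlt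
    ext
    · simp only; omega
    · simp only; omega
  · rintro ⟨y, h⟩ hq
    rw [Finset.mem_filter, Finset.mem_product, Finset.mem_Icc, Finset.mem_Icc] at hq
    obtain ⟨⟨⟨hy1, hy2⟩, hh1, hh2⟩, hw, hlt, hR, heq⟩ := hq
    simp only at hy1 hy2 hh1 hh2 hw hlt hR heq ⊢
    have hwk : w + (p * h - w) = p * h := by omega
    have hdiv : (w + (p * h - w)) / p = h := by
      rw [hwk]
      exact Nat.mul_div_cancel_left _ hp
    rw [hdiv]
    ext
    · simp only; omega
    · simp only
  · rintro ⟨x, g⟩ hq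
    rw [Finset.mem_filter, Finset.mem_product, Finset.mem_Icc, Finset.mem_Icc] at hq
    obtain ⟨⟨⟨hx1, hx2⟩, hg1, hg2⟩, ⟨h, hh⟩, hlt, hcb, heq⟩ := hq
    simp only at hx1 hx2 hg1 hg2 hh hlt hcb heq ⊢
    have hdiv : (w + x) / p = h := by
      rw [hh]
      exact Nat.mul_div_cancel_left _ hp
    rw [hdiv] at heq ⊢
    rw [hh] at hlt
    have hhg : h < g := Nat.lt_of_mul_lt_mul_left hlt
    obtain ⟨t, rfl⟩ := Nat.exists_eq_add_of_lt hhg
    have hgn : h + t + 1 ≤ n := by
      have h5 : E * (h + t + 1) ≤ E * n := by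
        calc E * (h + t + 1) ≤ μ * (E * (h + t + 1)) := Nat.le_mul_of_pos_left _ hμ
          _ ≤ E * n := by omega
      exact Nat.le_of_mul_le_mul_left h5 hE
    have hph : p * h ≤ p * n := Nat.mul_le_mul_left _ (by omega)
    have e2 : h + t + 1 - h = t + 1 := by omega
    rw [e2]
    have eq2 : a + B * (E * h) + μ * (E * (x + (t + 1)) + E * w) = E * n := by
      have h5 : E * (x + (t + 1)) + E * w = E * (w + x) + E * (t + 1) := by ring
      have h6 := hMμ (E * h)
      have h7 : μ * (E * (h + t + 1)) = μ * (E * h) + μ * (E * (t + 1)) := by ring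
      have h8 : (B + p * μ) * (E * h) = B * (E * h) + μ * (E * (p * h)) := by ring
      rw [h5, hh, Nat.mul_add μ]
      omega
    have hyn : x + (t + 1) ≤ n := by
      have h5 : E * (x + (t + 1)) ≤ E * n := by
        calc E * (x + (t + 1)) ≤ μ * (E * (x + (t + 1)) + E * w) := by
              refine le_trans ?_ (Nat.le_mul_of_pos_left _ hμ)
              omega
          _ ≤ E * n := by omega
      exact Nat.le_of_mul_le_mul_left h5 hE
    have hnN : n ≤ p * n := Nat.le_mul_of_pos_left _ hp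
    exact w1_mul (by omega) (by omega) (by omega) (by omega) (by omega)

end PT

end MPb07157
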