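import Pool.Agent.Lib.MP_b07157_agO.PT5

/-!
# The merged cell at a bad direction is regular
-/

noncomputable section

namespace MPb07157

open Finset

namespace PT

variable {d : ℕ}

/-- The vector with the entries `s` at `i`, `t` at `j` and the last entry `r`. -/
def gw (i j : Fin d) (s t r : ℤ) : Option (Fin d) → ℤ := ox (Pi.single i s + Pi.single j t) r

theorem sum_gw (i j : Fin d) (s t r : ℤ) (a : Option (Fin d) → ℤ) :
    ∑ o, a o * gw i j s t r o = a none * r + a (some i) * s + a (some j) * t := by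
  rw [Fintype.sum_option]
  simp only [gw, ox_none, ox_some, Pi.add_apply, mul_add, Finset.sum_add_distrib]
  rw [Finset.sum_eq_single i, Finset.sum_eq_single j, Pi.single_eq_same, Pi.single_eq_same]
  · ring
  · intro b _ hb
    rw [Pi.single_eq_of_ne hb, mul_zero]
  · simp
  · intro b _ hb
    rw [Pi.single_eq_of_ne hb, mul_zero]
  · simp

theorem sum_gw_rat (i j : Fin d) (s t r : ℤ) (a : Option (Fin d) → ℚ) :
    ∑ o, a o * (gw i j s t r o : ℚ) = a none * r + a (some i) * s + a (some j) * t := by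
  rw [Fintype.sum_option]
  simp only [gw, ox_none, ox_some, Pi.add_apply, Int.cast_add, mul_add, Finset.sum_add_distrib]
  rw [Finset.sum_eq_single i, Finset.sum_eq_single j, Pi.single_eq_same, Pi.single_eq_same]
  · ring
  · intro b _ hb
    rw [Pi.single_eq_of_ne hb]
    simp
  · simp
  · intro b _ hb
    rw [Pi.single_eq_of_ne hb]
    simp
  · simp

theorem single_nonneg' (i : Fin d) {s : ℤ} (hs : 0 ≤ s) (b : Fin d) :
    0 ≤ (Pi.single i s : Fin d → ℤ) b := by
  by_cases h : b = i
  · rw [h, Pi.single_eq_same]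
    exact hs
  · rw [Pi.single_eq_of_ne h]

theorem gw_nonneg (i j : Fin d) {s t r : ℤ} (hs : 0 ≤ s) (ht : 0 ≤ t) (hr : 0 ≤ r)
    (o : Option (Fin d)) : 0 ≤ gw i j s t r o := by
  rcases o with _ | b
  · exact hr
  · exact add_nonneg (single_nonneg' i hs b) (single_nonneg' j ht b)

/-- Goodness of `gw`. -/
theorem good_gw {E : ℕ} {s₀ : ℚ} {A : Fin d → ℕ} {M : ℕ} (i j : Fin d) (s t r : ℤ)
    (h : (E : ℚ) * (s + t + r) ≠ -s₀ * ((A i : ℚ) * s + A j * t + M * E * r)) :
      (E : ℚ) * ∑ o, (gw i j s t r o : ℚ) ≠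
        -s₀ * ∑ o, ((ox A (M * E) o : ℕ) : ℚ) * gw i j s t r o := by
  intro heq
  apply h
  have h1 := sum_gw_rat i j s t r (fun _ => 1)
  have h2 := sum_gw_rat i j s t r (fun o => ((ox A (M * E) o : ℕ) : ℚ))
  simp only [one_mul] at h1
  rw [h1, h2] at heq
  simp only [ox_none, ox_some] at heq
  push_cast at heq
  linarith

/-- Sums of the generators. -/
theorem dec_gw {E : ℕ} {k : Fin d → ℤ} (hk : ∀ i, 0 ≤ k i) (j : Fin d) (τ u : Fin d → ℤ) (r : ℤ)
    {P : Set (Option (Fin d) → ℤ)} (hP : ∀ i, i ≠ j → gw i j E (τ i) (u i) ∈ P) (hr : 0 ≤ r) :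
    ox (Function.update (fun i => r * ((E : ℤ) * k i)) j
      (r * ∑ i ∈ Finset.univ.erase j, τ i * k i))
      (r * ∑ i ∈ Finset.univ.erase j, u i * k i) ∈ AddSubmonoid.closure P := by
  classical
  have h1 : ox (Function.update (fun i => r * ((E : ℤ) * k i)) j
      (r * ∑ i ∈ Finset.univ.erase j, τ i * k i))
      (r * ∑ i ∈ Finset.univ.erase j, u i * k i) =
      ∑ i ∈ Finset.univ.erase j, (r * k i).toNat • gw i j E (τ i) (u i) := by
    have h2 : ∀ j, (((r * k j).toNat : ℕ) : ℤ) = r * k j := fun j =>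
      Int.toNat_of_nonneg (mul_nonneg hr (hk j))
    funext o
    rw [Finset.sum_apply]
    rcases o with _ | i
    · simp only [ox_none, Pi.smul_apply, gw, nsmul_eq_mul, h2, Finset.mul_sum]
      exact Finset.sum_congr rfl fun i _ => by ring
    · simp only [ox_some, Pi.smul_apply, gw, nsmul_eq_mul, h2, Pi.add_apply]
      by_cases hij : i = j
      · subst hij
        rw [Function.update_self, Finset.mul_sum]
        refine Finset.sum_congr rfl fun b hb => ?_
        rw [Pi.single_eq_same, Pi.single_eq_of_ne (Finset.ne_of_mem_erase hb).symm]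
        ring
      · rw [Function.update_of_ne hij, Finset.sum_eq_single i]
        · rw [Pi.single_eq_same, Pi.single_eq_of_ne hij]
          ring
        · intro b _ hb
          rw [Pi.single_eq_of_ne hb.symm, Pi.single_eq_of_ne hij]
          ring
        · intro h
          exact absurd (Finset.mem_erase.2 ⟨hij, Finset.mem_univ i⟩) h
  rw [h1]
  exact sum_mem fun i hi => AddSubmonoid.nsmul_mem _
    (AddSubmonoid.subset_closure (hP i (Finset.ne_of_mem_erase hi))) _

theorem gw_none (i j : Fin d) (s t r : ℤ) : gw i j s t r none = r := rfl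

theorem gw_self (j : Fin d) (t r : ℤ) : gw j j 0 t r (some j) = t := by
  simp [gw]

theorem gw_ne {i j : Fin d} (h : i ≠ j) (t r : ℤ) : gw j j 0 t r (some i) = 0 := by
  simp [gw, Pi.single_eq_of_ne h]

theorem ext_ox {y z : Option (Fin d) → ℤ} (j : Fin d) (h1 : y none = z none)
    (h2 : y (some j) = z (some j)) (h3 : ∀ i, i ≠ j → y (some i) = z (some i)) : y = z := by
  funext o
  rcases o with _ | i
  · exact h1
  · by_cases h : i = j
    · rw [h]
      exact h2
    · exact h3 i h

theorem zsmul_mem_closure {P : Set (Option (Fin d) → ℤ)} {c : ℤ} (hc : 0 ≤ c)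
    {y : Option (Fin d) → ℤ} (hy : y ∈ AddSubmonoid.closure P) :
    c • y ∈ AddSubmonoid.closure P := by
  have h : c • y = c.toNat • y := by
    conv_lhs => rw [← Int.toNat_of_nonneg hc]
    exact natCast_zsmul _ _
  rw [h]
  exact AddSubmonoid.nsmul_mem _ hy _

theorem exists_nsmul_mem {P : Set (Option (Fin d) → ℤ)} {c : ℤ} (hc : 0 < c)
    {y : Option (Fin d) → ℤ} (hy : c • y ∈ AddSubmonoid.closure P) :
    ∃ N : ℕ, 0 < N ∧ N • y ∈ AddSubmonoid.closure P := by
  refine ⟨c.toNat, by omega, ?_⟩
  have h : c • y = c.toNat • y := by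
    conv_lhs => rw [← Int.toNat_of_nonneg hc.le]
    exact natCast_zsmul _ _
  rw [← h]
  exact hy

/-- The constraints of the merged cell. -/
def mA (E p : ℕ) (j : Fin d) (L : Fin d → ℕ) (cb cz : Option ((Fin d → ℕ) × ℕ)) :
    Option Bool → Option (Fin d) → ℤ
  | some β => eA E (Function.update L j 0) cz β
  | none => match cb with
    | none => 0
    | some (U, _) => ox (fun i => if i = j then -((E : ℤ) * E) else
        (E : ℤ) * U i - ((U j : ℤ) + E) * (p * L i)) (((U j : ℤ) + E) * (p * E) - (E : ℤ) * E)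

def mC (E : ℕ) (cb cz : Option ((Fin d → ℕ) × ℕ)) : Option Bool → ℤ
  | some β => eC cz β
  | none => match cb with
    | none => 0
    | some (_, σ) => (E : ℤ) * σ

/-- The cut of a child at the bad direction. -/
def BadCut (j : Fin d) (L : Fin d → ℕ) (c : Option ((Fin d → ℕ) × ℕ)) : Prop :=
  match c with
  | none => True
  | some (U, σ) => L j < U j ∧ σ ≤ 1

theorem merged_mem {E p : ℕ} (hE : 0 < E) {j : Fin d} {L : Fin d → ℕ} (hp : p * L j = E)
    {Λ : AddSubgroup (Fin d → ℤ)}
    (hΛ : ∀ y : Fin d → ℤ, (E : ℤ) • y ∈ Λ) {s₀ : ℚ} {K : ℕ} (hK : -s₀ < K)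
    (A : Fin d → ℕ) (hA : A j = 0) (cb cz : Option ((Fin d → ℕ) × ℕ)) (B μ : ℕ)
    (hb : GoodCut E s₀ cb L (nextA (B + p * μ) μ L A) μ) (hb' : BadCut j L cb)
    (hz : GoodCut E s₀ cz L (nextA (B + p * μ) B L A) B) (hz' : BadCut j L cz)
    (hl : ∀ i, i ≠ j → (E : ℚ) + L i ≠ -s₀ * (A i + (B + p * μ : ℕ) * L i)) :
    cellF (lattO Λ) E (ox (nextA (B + p * μ) B L A) (B * E)) K (cc0 (1 - Lp 1) (1 - Lp 1))
      (cc0 1 1) (mA E p j L cb cz) (mC E cb cz) ∅ ∈ regularAt s₀ := by
  classical
  have hp0 : 0 < p := by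
    rcases Nat.eq_zero_or_pos p with h | h
    · rw [h, zero_mul] at hp
      omega
    · exact h
  have hLj : 0 < L j := by
    rcases Nat.eq_zero_or_pos (L j) with h | h
    · rw [h, mul_zero] at hp
      omega
    · exact h
  set A' := nextA (B + p * μ) B L A with hA'
  have hA'i : ∀ i, A' i = A i + p * μ * L i := by
    intro i
    rw [hA', nextA, Nat.add_sub_cancel_left]
  have hA'j : A' j = μ * E := by
    rw [hA'i, hA, zero_add, ← hp]
    ring
  have hμb : μ ≤ B + p * μ := by
    have := Nat.le_mul_of_pos_left μ hp0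
    omega
  have hAb : ∀ i, ((nextA (B + p * μ) μ L A i : ℕ) : ℚ) = A i + (B + p * μ - μ) * L i := by
    intro i
    unfold nextA
    push_cast [Nat.cast_sub hμb]
    ring
  have hpQ : (p : ℚ) * L j = E := by exact_mod_cast hp
  have hpZ : (p : ℤ) * L j = E := by exact_mod_cast hp
  have hEq : (0 : ℚ) < E := by exact_mod_cast hE
  have hEz : (0 : ℤ) < E := by exact_mod_cast hE
  have hpz : (0 : ℤ) < p := by exact_mod_cast hp0
  have hpq : (0 : ℚ) < p := by exact_mod_cast hp0
  refine cellF_mem_regularAt hE (lattO_smul hΛ) hK _ _ _ _ _ ?_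
  intro x hx hcone _
  set P : Set (Option (Fin d) → ℤ) := {y | (∀ o, 0 ≤ y o) ∧
    (∀ i, 0 ≤ ∑ o, mA E p j L cb cz i o * y o) ∧
    (y = 0 ∨ (E : ℚ) * ∑ o, (y o : ℚ) ≠ -s₀ * ∑ o, ((ox A' (B * E) o : ℕ) : ℚ) * y o)} with hP
  set k : Fin d → ℤ := fun i => x (some i) with hk
  set h : ℤ := x none with hh
  have hx' : x = ox k h := by
    funext o
    cases o <;> rfl
  have hk0 : ∀ i, 0 ≤ k i := fun i => hx _
  have hh0 : 0 ≤ h := hx _
  set X : ℤ := k j with hX
  have hX0 : 0 ≤ X := hk0 j
  -- the numbers of the cone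
  set e : ℤ := ∑ i ∈ Finset.univ.erase j, (L i : ℤ) * k i with he
  have hsplit : ∀ f : Fin d → ℤ, ∑ i, f i * k i = ∑ i ∈ Finset.univ.erase j, f i * k i + f j * X := by
    intro f
    rw [Finset.sum_erase_add _ _ (Finset.mem_univ j)]
  have hq0 : 0 ≤ (E : ℤ) * h - e := by
    have h1 := hcone (some true)
    have h2 : ∑ o, mA E p j L cb cz (some true) o * x o = (E : ℤ) * h - e := by
      rw [Fintype.sum_option]
      simp only [mA, eA, ox_none, ox_some, neg_mul, Finset.sum_neg_distrib]
      change (E : ℤ) * h + -∑ i, ((Function.update L j 0 i : ℕ) : ℤ) * k i = _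
      rw [hsplit (fun i => ((Function.update L j 0 i : ℕ) : ℤ)), Function.update_self, he]
      have h3 : ∑ i ∈ Finset.univ.erase j, ((Function.update L j 0 i : ℕ) : ℤ) * k i =
          ∑ i ∈ Finset.univ.erase j, (L i : ℤ) * k i :=
        Finset.sum_congr rfl fun i hi => by
          rw [Function.update_of_ne (Finset.ne_of_mem_erase hi)]
      rw [h3]
      push_cast
      ring
    rw [h2] at h1
    exact h1
  -- the constraint functionals on the vectors `gw`
  have cT : ∀ (i : Fin d) (s t r : ℤ), i ≠ j → ∑ o, mA E p j L cb cz (some true) o * gw i j s t r o =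
      E * r - L i * s := by
    intro i s t r hij
    rw [sum_gw]
    simp only [mA, eA, ox_none, ox_some]
    rw [Function.update_of_ne hij, Function.update_self]
    push_cast
    ring
  have cTj : ∀ (t r : ℤ), ∑ o, mA E p j L cb cz (some true) o * gw j j 0 t r o = E * r := by
    intro t r
    rw [sum_gw]
    simp only [mA, eA, ox_none, ox_some]
    rw [Function.update_self]
    push_cast
    ring
  have cF : ∀ (V : Fin d → ℕ) (σ : ℕ), cz = some (V, σ) → ∀ (i : Fin d) (s t r : ℤ),
      ∑ o, mA E p j L cb cz (some false) o * gw i j s t r o = V i * s + V j * t - E * r := by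
    intro V σ hV i s t r
    rw [sum_gw, hV]
    simp only [mA, eA, ox_none, ox_some]
    ring
  have cF0 : cz = none → ∀ y : Option (Fin d) → ℤ,
      ∑ o, mA E p j L cb cz (some false) o * y o = 0 := by
    intro hV y
    rw [hV]
    simp [mA, eA]
  have cN : ∀ (U : Fin d → ℕ) (σ : ℕ), cb = some (U, σ) → ∀ (i : Fin d) (s t r : ℤ), i ≠ j →
      ∑ o, mA E p j L cb cz none o * gw i j s t r o =
        (((U j : ℤ) + E) * (p * E) - (E : ℤ) * E) * r +
        ((E : ℤ) * U i - ((U j : ℤ) + E) * (p * L i)) * s - E * E * t := by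
    intro U σ hU i s t r hij
    rw [sum_gw, hU]
    simp only [mA, ox_none, ox_some, if_neg hij, if_true]
    ring
  have cNj : ∀ (U : Fin d → ℕ) (σ : ℕ), cb = some (U, σ) → ∀ (t r : ℤ),
      ∑ o, mA E p j L cb cz none o * gw j j 0 t r o =
        (((U j : ℤ) + E) * (p * E) - (E : ℤ) * E) * r - E * E * t := by
    intro U σ hU t r
    rw [sum_gw, hU]
    simp only [mA, ox_none, ox_some, if_true]
    ring
  have cN0 : cb = none → ∀ y : Option (Fin d) → ℤ,
      ∑ o, mA E p j L cb cz none o * y o = 0 := by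
    intro hU y
    rw [hU]
    simp [mA]
  have hall : ∀ f : Option Bool → Prop, f (some true) → f (some false) → f none → ∀ i, f i := by
    intro f h1 h2 h3 i
    rcases i with _ | (_ | _)
    · exact h3
    · exact h2
    · exact h1
  -- the lower vectors
  have g0 : ∀ i, i ≠ j → gw i j E 0 (L i) ∈ P := by
    intro i hij
    refine ⟨gw_nonneg i j (by positivity) le_rfl (by positivity), hall _ ?_ ?_ ?_,
      Or.inr (good_gw _ _ _ _ _ ?_)⟩
    · rw [cT i _ _ _ hij]
      linarith
    · rcases hcz : cz with _ | ⟨V, σ⟩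
      · rw [← hcz, cF0 hcz]
      · rw [← hcz, cF V σ hcz]
        rw [hcz] at hz
        have h1 : (L i : ℤ) ≤ V i := by exact_mod_cast hz.1 i
        nlinarith
    · rcases hcb : cb with _ | ⟨U, σ⟩
      · rw [← hcb, cN0 hcb]
      · rw [← hcb, cN U σ hcb i _ _ _ hij]
        rw [hcb] at hb
        have h1 : (L i : ℤ) ≤ U i := by exact_mod_cast hb.1 i
        have h2 : (((U j : ℤ) + E) * (p * E) - (E : ℤ) * E) * L i +
            ((E : ℤ) * U i - ((U j : ℤ) + E) * (p * L i)) * E - E * E * 0 =
            E * E * (U i - L i) := by ring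
        rw [h2]
        exact mul_nonneg (by positivity) (by linarith)
    · intro heq
      apply hl i hij
      rw [hA'i] at heq
      push_cast at heq ⊢
      apply mul_left_cancel₀ hEq.ne'
      linarith
  have dlow : ∀ r : ℤ, 0 ≤ r → ox (Function.update (fun i => r * ((E : ℤ) * k i)) j 0) (r * e) ∈
      AddSubmonoid.closure P := by
    intro r hr
    have h1 := dec_gw hk0 j (fun _ => 0) (fun i => (L i : ℤ)) r g0 hr
    simp only [zero_mul, Finset.sum_const_zero, mul_zero] at h1
    exact h1
  -- the vectors of the `0`-branch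
  have gz : ∀ (V : Fin d → ℕ) (σ : ℕ), cz = some (V, σ) → ∀ i, i ≠ j → gw i j E 0 (V i) ∈ P := by
    intro V σ hV i hij
    have hz1 := hz
    rw [hV] at hz1
    have h1 : (L i : ℤ) ≤ V i := by exact_mod_cast hz1.1 i
    refine ⟨gw_nonneg i j (by positivity) le_rfl (by positivity), hall _ ?_ ?_ ?_,
      Or.inr (good_gw _ _ _ _ _ ?_)⟩
    · rw [cT i _ _ _ hij]
      nlinarith
    · rw [cF V σ hV]
      linarith
    · rcases hcb : cb with _ | ⟨U, σ'⟩
      · rw [← hcb, cN0 hcb]
      · rw [← hcb, cN U σ' hcb i _ _ _ hij]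
        rw [hcb] at hb
        have h2 : (L i : ℤ) ≤ U i := by exact_mod_cast hb.1 i
        have h3 : (((U j : ℤ) + E) * (p * E) - (E : ℤ) * E) * V i +
            ((E : ℤ) * U i - ((U j : ℤ) + E) * (p * L i)) * E - E * E * 0 =
            E * E * (U i - L i) + E * (((U j : ℤ) + E) * p - E) * (V i - L i) := by ring
        rw [h3]
        have h4 : (0 : ℤ) ≤ ((U j : ℤ) + E) * p - E := by nlinarith
        exact add_nonneg (mul_nonneg (by positivity) (by linarith))
          (mul_nonneg (mul_nonneg hEz.le h4) (by linarith))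
    · intro heq
      apply hz1.2 i
      push_cast at heq ⊢
      apply mul_left_cancel₀ hEq.ne'
      linarith
  have gzj : ∀ (V : Fin d → ℕ) (σ : ℕ), cz = some (V, σ) → gw j j 0 E (V j) ∈ P := by
    intro V σ hV
    have hz1 := hz
    have hz2 := hz'
    rw [hV] at hz1 hz2
    have h1 : (E : ℤ) + 1 ≤ p * V j := by
      have h2 : (L j : ℤ) + 1 ≤ V j := by exact_mod_cast hz2.1
      nlinarith
    refine ⟨gw_nonneg j j le_rfl (by positivity) (by positivity), hall _ ?_ ?_ ?_,
      Or.inr (good_gw _ _ _ _ _ ?_)⟩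
    · rw [cTj]
      positivity
    · rw [cF V σ hV]
      linarith
    · rcases hcb : cb with _ | ⟨U, σ'⟩
      · rw [← hcb, cN0 hcb]
      · rw [← hcb, cNj U σ' hcb]
        have h3 : (((U j : ℤ) + E) * (p * E) - (E : ℤ) * E) * V j - E * E * E =
            E * ((U j : ℤ) * (p * V j) + E * (p * V j - V j - E)) := by ring
        rw [h3]
        have h4 : (0 : ℤ) ≤ U j := by positivity
        have h5 : (0 : ℤ) ≤ V j := by positivity
        rw [hcb] at hb'
        have h6 : (L j : ℤ) + 1 ≤ U j := by exact_mod_cast hb'.1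
        refine mul_nonneg hEz.le ?_
        have h7 : (V j : ℤ) * E = V j * (p * L j) := by rw [hpZ]
        have h8 : (0 : ℤ) ≤ (U j - L j) * (p * V j) := mul_nonneg (by linarith) (by linarith)
        nlinarith
    · intro heq
      apply hz1.2 j
      push_cast at heq ⊢
      apply mul_left_cancel₀ hEq.ne'
      linarith
  -- the vectors of the root branch
  have gc : ∀ (U : Fin d → ℕ) (σ : ℕ), cb = some (U, σ) → ∀ i, i ≠ j →
      gw i j E ((U i : ℤ) - L i) (L i) ∈ P := by
    intro U σ hU i hij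
    have hb1 := hb
    rw [hU] at hb1
    have h1 : (L i : ℤ) ≤ U i := by exact_mod_cast hb1.1 i
    refine ⟨gw_nonneg i j (by positivity) (by linarith) (by positivity), hall _ ?_ ?_ ?_,
      Or.inr (good_gw _ _ _ _ _ ?_)⟩
    · rw [cT i _ _ _ hij]
      linarith
    · rcases hcz : cz with _ | ⟨V, σ'⟩
      · rw [← hcz, cF0 hcz]
      · rw [← hcz, cF V σ' hcz]
        rw [hcz] at hz
        have h2 : (L i : ℤ) ≤ V i := by exact_mod_cast hz.1 i
        have h3 : (0 : ℤ) ≤ V j * ((U i : ℤ) - L i) := mul_nonneg (by positivity) (by linarith)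
        nlinarith
    · rw [cN U σ hU i _ _ _ hij]
      have h2 : (((U j : ℤ) + E) * (p * E) - (E : ℤ) * E) * L i +
            ((E : ℤ) * U i - ((U j : ℤ) + E) * (p * L i)) * E - E * E * ((U i : ℤ) - L i) = 0 := by
        ring
      rw [h2]
    · intro heq
      apply hb1.2 i
      rw [hAb]
      rw [hA'i, hA'j] at heq
      push_cast at heq ⊢
      apply mul_left_cancel₀ hEq.ne'
      linarith
  have gcj : ∀ (U : Fin d → ℕ) (σ : ℕ), cb = some (U, σ) →
      gw j j 0 ((p : ℤ) * U j + p * E - E) E ∈ P := by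
    intro U σ hU
    have hb1 := hb
    have hb2 := hb'
    rw [hU] at hb1 hb2
    have h1 : (E : ℤ) + 1 ≤ p * U j := by
      have h2 : (L j : ℤ) + 1 ≤ U j := by exact_mod_cast hb2.1
      nlinarith
    have h2 : (E : ℤ) ≤ p * E := by nlinarith
    refine ⟨gw_nonneg j j le_rfl (by linarith) (by positivity), hall _ ?_ ?_ ?_,
      Or.inr (good_gw _ _ _ _ _ ?_)⟩
    · rw [cTj]
      positivity
    · rcases hcz : cz with _ | ⟨V, σ'⟩
      · rw [← hcz, cF0 hcz]
      · rw [← hcz, cF V σ' hcz]
        rw [hcz] at hz'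
        have h5 : (L j : ℤ) + 1 ≤ V j := by exact_mod_cast hz'.1
        have h6 : (E : ℤ) + 1 ≤ p * V j := by nlinarith
        have h7 : (0 : ℤ) ≤ V j := by positivity
        have h8 : (E : ℤ) * E ≤ E * (p * V j) := mul_le_mul_of_nonneg_left (by linarith) hEz.le
        have h9 : (0 : ℤ) ≤ V j * (p * U j - E) := mul_nonneg h7 (by linarith)
        nlinarith
    · rw [cNj U σ hU]
      have h3 : (((U j : ℤ) + E) * (p * E) - (E : ℤ) * E) * E -
          E * E * ((p : ℤ) * U j + p * E - E) = 0 := by ring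
      rw [h3]
    · intro heq
      apply hb1.2 j
      rw [hAb]
      rw [hA'j] at heq
      push_cast at heq ⊢
      rw [hA]
      apply mul_left_cancel₀ hEq.ne'
      apply mul_left_cancel₀ hpq.ne'
      have h4 : (p : ℚ) * (E * (-s₀ * ((0 : ℕ) + ((B : ℚ) + p * μ - μ) * L j + μ * U j))) =
          E * (-s₀ * (((B : ℚ) + p * μ - μ) * (p * L j) + p * μ * U j)) := by
        push_cast
        ring
      rw [h4, hpQ]
      linarith
  have gX : cb = none → gw j j 0 1 0 ∈ P := by
    intro hU
    have hb1 := hb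
    rw [hU] at hb1
    refine ⟨gw_nonneg j j le_rfl zero_le_one le_rfl, hall _ ?_ ?_ ?_,
      Or.inr (good_gw _ _ _ _ _ ?_)⟩
    · rw [cTj]
      simp
    · rcases hcz : cz with _ | ⟨V, σ'⟩
      · rw [← hcz, cF0 hcz]
      · rw [← hcz, cF V σ' hcz]
        have : (0 : ℤ) ≤ V j := by positivity
        linarith
    · rw [cN0 hU]
    · intro heq
      apply hb1
      rw [hA'j] at heq
      push_cast at heq ⊢
      apply mul_left_cancel₀ hEq.ne'
      linarith
  have gh : cz = none → gw j j 0 0 1 ∈ P := by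
    intro hV
    have hz1 := hz
    rw [hV] at hz1
    refine ⟨gw_nonneg j j le_rfl le_rfl zero_le_one, hall _ ?_ ?_ ?_,
      Or.inr (good_gw _ _ _ _ _ ?_)⟩
    · rw [cTj]
      positivity
    · rw [cF0 hV]
    · rcases hcb : cb with _ | ⟨U, σ'⟩
      · rw [← hcb, cN0 hcb]
      · rw [← hcb, cNj U σ' hcb]
        have h4 : (((U j : ℤ) + E) * (p * E) - (E : ℤ) * E) * 1 - E * E * 0 =
          E * (p * U j + (p - 1) * E) := by ring
        rw [h4]
        exact mul_nonneg hEz.le (add_nonneg (by positivity) (mul_nonneg (by linarith) hEz.le))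
    · intro heq
      apply hz1
      push_cast at heq ⊢
      apply mul_left_cancel₀ hEq.ne'
      linarith
  -- the case distinction
  have vk : ∀ i, i ≠ j → x (some i) = k i := fun i _ => rfl
  have vj : x (some j) = X := rfl
  have vn : x none = h := rfl
  by_cases hZ : ∃ (V : Fin d → ℕ) (σ : ℕ), cz = some (V, σ) ∧ V j * X < E * h - e
  · -- excess in the `0`-branch
    obtain ⟨V, σ, hV, hlt⟩ := hZ
    have hup := hcone (some false)
    have h2 : ∑ o, mA E p j L cb cz (some false) o * x o =
        ∑ i ∈ Finset.univ.erase j, (V i : ℤ) * k i + V j * X - E * h := by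
      rw [Fintype.sum_option, hV]
      simp only [mA, eA, ox_none, ox_some]
      change -(E : ℤ) * h + ∑ i, (V i : ℤ) * k i = _
      rw [hsplit (fun i => (V i : ℤ))]
      ring
    rw [h2] at hup
    set v : ℤ := ∑ i ∈ Finset.univ.erase j, (V i : ℤ) * k i with hv
    have hD : 0 < v - e := by linarith
    have hs : 0 ≤ E * h - e - V j * X := by linarith
    have hs' : 0 ≤ v - e - (E * h - e - V j * X) := by linarith
    refine exists_nsmul_mem (c := (v - e) * E) (mul_pos hD hEz) ?_
    have m1 := zsmul_mem_closure (mul_nonneg hD.le hX0)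
      (AddSubmonoid.subset_closure (gzj V σ hV))
    have m2 := dlow _ hs'
    have m3 := dec_gw hk0 j (fun _ => 0) (fun i => (V i : ℤ)) _ (gz V σ hV) hs
    have heq : ((v - e) * E) • x = ((v - e) * X) • gw j j 0 E (V j) +
        ox (Function.update (fun i => (v - e - (E * h - e - V j * X)) * ((E : ℤ) * k i)) j 0)
          ((v - e - (E * h - e - V j * X)) * e) +
        ox (Function.update (fun i => (E * h - e - V j * X) * ((E : ℤ) * k i)) j
          ((E * h - e - V j * X) * ∑ i ∈ Finset.univ.erase j, 0 * k i))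
          ((E * h - e - V j * X) * ∑ i ∈ Finset.univ.erase j, (V i : ℤ) * k i) := by
      rw [← hv]
      refine ext_ox j ?_ ?_ ?_
      · simp only [Pi.add_apply, Pi.smul_apply, smul_eq_mul, vn, gw_none, ox_none]
        ring
      · simp only [Pi.add_apply, Pi.smul_apply, smul_eq_mul, vj, gw_self, ox_some,
          Function.update_self, zero_mul, Finset.sum_const_zero]
        ring
      · intro i hi
        simp only [Pi.add_apply, Pi.smul_apply, smul_eq_mul, vk i hi, gw_ne hi, ox_some,
          Function.update_of_ne hi]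
        ring
    rw [heq]
    exact add_mem (add_mem m1 m2) m3
  have hZ' : ∀ (V : Fin d → ℕ) (σ : ℕ), cz = some (V, σ) → E * h - e ≤ V j * X := by
    intro V σ hV
    by_contra hcon
    exact hZ ⟨V, σ, hV, by linarith⟩
  by_cases hR : ∃ (U : Fin d → ℕ) (σ : ℕ), cb = some (U, σ) ∧
      ((p : ℤ) * U j + p * E - E) * (E * h - e) < E * E * X
  · -- excess in the root branch
    obtain ⟨U, σ, hU, hlt⟩ := hR
    have hup := hcone none
    have h2 : ∑ o, mA E p j L cb cz none o * x o =
        E * ∑ i ∈ Finset.univ.erase j, (U i : ℤ) * k i - E * e +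
        ((p : ℤ) * U j + p * E - E) * (E * h - e) - E * E * X := by
      rw [Fintype.sum_option, hU]
      simp only [mA, ox_none, ox_some]
      change (((U j : ℤ) + E) * (p * E) - (E : ℤ) * E) * h + ∑ i, (if i = j then -((E : ℤ) * E)
        else (E : ℤ) * U i - ((U j : ℤ) + E) * (p * L i)) * k i = _
      rw [hsplit (fun i => if i = j then -((E : ℤ) * E)
        else (E : ℤ) * U i - ((U j : ℤ) + E) * (p * L i)), if_pos rfl]
      have h3 : ∑ i ∈ Finset.univ.erase j, (if i = j then -((E : ℤ) * E)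
          else (E : ℤ) * U i - ((U j : ℤ) + E) * (p * L i)) * k i =
          E * ∑ i ∈ Finset.univ.erase j, (U i : ℤ) * k i - (((U j : ℤ) + E) * p) * e := by
        rw [he, Finset.mul_sum, Finset.mul_sum, ← Finset.sum_sub_distrib]
        refine Finset.sum_congr rfl fun i hi => ?_
        rw [if_neg (Finset.ne_of_mem_erase hi)]
        ring
      rw [h3]
      ring
    rw [h2] at hup
    set u : ℤ := ∑ i ∈ Finset.univ.erase j, (U i : ℤ) * k i with hu
    set s : ℤ := E * E * X - ((p : ℤ) * U j + p * E - E) * (E * h - e) with hs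
    have hs0 : 0 < s := by linarith
    have hsD : s ≤ E * (u - e) := by linarith
    have hD : 0 < u - e := by
      by_contra hcon
      have : E * (u - e) ≤ 0 := mul_nonpos_of_nonneg_of_nonpos hEz.le (by linarith)
      linarith
    refine exists_nsmul_mem (c := (u - e) * (E * E)) (mul_pos hD (mul_pos hEz hEz)) ?_
    have m1 := zsmul_mem_closure (mul_nonneg hD.le hq0)
      (AddSubmonoid.subset_closure (gcj U σ hU))
    have m2 := dlow (E * (u - e) - s) (by linarith)
    have m3 := dec_gw hk0 j (fun i => (U i : ℤ) - L i) (fun i => (L i : ℤ)) s (gc U σ hU) hs0.le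
    have hsum : ∑ i ∈ Finset.univ.erase j, ((U i : ℤ) - L i) * k i = u - e := by
      rw [hu, he, ← Finset.sum_sub_distrib]
      exact Finset.sum_congr rfl fun i _ => by ring
    rw [hsum, ← he] at m3
    have heq : ((u - e) * (E * E)) • x =
        ((u - e) * (E * h - e)) • gw j j 0 ((p : ℤ) * U j + p * E - E) E +
        ox (Function.update (fun i => (E * (u - e) - s) * ((E : ℤ) * k i)) j 0)
          ((E * (u - e) - s) * e) +
        ox (Function.update (fun i => s * ((E : ℤ) * k i)) j (s * (u - e))) (s * e) := by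
      refine ext_ox j ?_ ?_ ?_
      · simp only [Pi.add_apply, Pi.smul_apply, smul_eq_mul, vn, gw_none, ox_none]
        ring
      · simp only [Pi.add_apply, Pi.smul_apply, smul_eq_mul, vj, gw_self, ox_some,
          Function.update_self]
        rw [hs]
        ring
      · intro i hi
        simp only [Pi.add_apply, Pi.smul_apply, smul_eq_mul, vk i hi, gw_ne hi, ox_some,
          Function.update_of_ne hi]
        ring
    rw [heq]
    exact add_mem (add_mem m1 m2) m3
  have hR' : ∀ (U : Fin d → ℕ) (σ : ℕ), cb = some (U, σ) →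
      E * E * X ≤ ((p : ℤ) * U j + p * E - E) * (E * h - e) := by
    intro U σ hU
    by_contra hcon
    exact hR ⟨U, σ, hU, by linarith⟩
  -- the middle part
  have hmid : ∀ (c t r : ℤ), 0 < c → c * (E * X) = t → c * (E * h - e) = r →
      gw j j 0 t r ∈ AddSubmonoid.closure P →
      ∃ N : ℕ, 0 < N ∧ N • x ∈ AddSubmonoid.closure P := by
    intro c t r hc ht hr hmem
    refine exists_nsmul_mem (c := c * E) (mul_pos hc hEz) ?_
    have m2 := dlow c hc.le
    have heq : (c * E) • x = gw j j 0 t r +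
        ox (Function.update (fun i => c * ((E : ℤ) * k i)) j 0) (c * e) := by
      refine ext_ox j ?_ ?_ ?_
      · simp only [Pi.add_apply, Pi.smul_apply, smul_eq_mul, vn, gw_none, ox_none]
        rw [← hr]
        ring
      · simp only [Pi.add_apply, Pi.smul_apply, smul_eq_mul, vj, gw_self, ox_some,
          Function.update_self]
        rw [← ht]
        ring
      · intro i hi
        simp only [Pi.add_apply, Pi.smul_apply, smul_eq_mul, vk i hi, gw_ne hi, ox_some,
          Function.update_of_ne hi]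
        ring
    rw [heq]
    exact add_mem hmem m2
  have hcomb : ∀ (a b t₁ r₁ t₂ r₂ t r : ℤ), 0 ≤ a → 0 ≤ b → gw j j 0 t₁ r₁ ∈ P →
      gw j j 0 t₂ r₂ ∈ P → t = a * t₁ + b * t₂ → r = a * r₁ + b * r₂ →
      gw j j 0 t r ∈ AddSubmonoid.closure P := by
    intro a b t₁ r₁ t₂ r₂ t r ha hb h1 h2 ht hr
    have heq : gw j j 0 t r = a • gw j j 0 t₁ r₁ + b • gw j j 0 t₂ r₂ := by
      refine ext_ox j ?_ ?_ ?_
      · simp only [Pi.add_apply, Pi.smul_apply, smul_eq_mul, gw_none]
        exact hr
      · simp only [Pi.add_apply, Pi.smul_apply, smul_eq_mul, gw_self]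
        exact ht
      · intro i hi
        simp only [Pi.add_apply, Pi.smul_apply, smul_eq_mul, gw_ne hi]
        ring
    rw [heq]
    exact add_mem (zsmul_mem_closure ha (AddSubmonoid.subset_closure h1))
      (zsmul_mem_closure hb (AddSubmonoid.subset_closure h2))
  rcases hcb : cb with _ | ⟨U, σ⟩
  · rcases hcz : cz with _ | ⟨V, σ'⟩
    · exact hmid 1 _ _ one_pos rfl rfl (hcomb (E * X) (E * h - e) 1 0 0 1 _ _
        (mul_nonneg hEz.le hX0) hq0 (gX hcb) (gh hcz) (by ring) (by ring))
    · have h1 := hZ' V σ' hcz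
      have h2 : (0 : ℤ) < V j := by
        rw [hcz] at hz'
        have h3 : (L j : ℤ) + 1 ≤ V j := by exact_mod_cast hz'.1
        have h4 : (0 : ℤ) < L j := by exact_mod_cast hLj
        linarith
      exact hmid (V j) _ _ h2 rfl rfl (hcomb (E * h - e) (E * (V j * X - (E * h - e))) E (V j) 1 0
        _ _ hq0 (mul_nonneg hEz.le (by linarith)) (gzj V σ' hcz) (gX hcb) (by ring) (by ring))
  · have h1 := hR' U σ hcb
    have h5 : (E : ℤ) + 1 ≤ p * U j := by
      rw [hcb] at hb'
      have h2 : (L j : ℤ) + 1 ≤ U j := by exact_mod_cast hb'.1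
      nlinarith
    have h6 : (E : ℤ) ≤ p * E := by nlinarith
    have ha : (0 : ℤ) < p * U j + p * E - E := by linarith
    rcases hcz : cz with _ | ⟨V, σ'⟩
    · exact hmid ((p : ℤ) * U j + p * E - E) _ _ ha rfl rfl (hcomb (E * X)
        (((p : ℤ) * U j + p * E - E) * (E * h - e) - E * E * X)
        ((p : ℤ) * U j + p * E - E) E 0 1 _ _ (mul_nonneg hEz.le hX0) (by linarith)
        (gcj U σ hcb) (gh hcz) (by ring) (by ring))
    · have h2 := hZ' V σ' hcz
      have h3 : (L j : ℤ) + 1 ≤ V j := by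
        rw [hcz] at hz'
        exact_mod_cast hz'.1
      have h7 : (E : ℤ) + 1 ≤ p * V j := by nlinarith
      have h8 : (0 : ℤ) ≤ V j := by positivity
      have hdet : (0 : ℤ) < ((p : ℤ) * U j + p * E - E) * V j - E * E := by
        have h9 : (0 : ℤ) ≤ (p * U j - E - 1) * V j := mul_nonneg (by linarith) h8
        have h10 : (0 : ℤ) ≤ E * (p * V j - E - 1) := mul_nonneg hEz.le (by linarith)
        nlinarith
      exact hmid (((p : ℤ) * U j + p * E - E) * V j - E * E) _ _ hdet rfl rfl
        (hcomb (E * (V j * X - (E * h - e)))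
        (((p : ℤ) * U j + p * E - E) * (E * h - e) - E * E * X)
        ((p : ℤ) * U j + p * E - E) E E (V j) _ _ (mul_nonneg hEz.le (by linarith))
        (by linarith) (gcj U σ hcb) (gzj V σ' hcz) (by ring) (by ring))

end PT

end MPb07157
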