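import Pool.Agent.Lib.MP_b07157_agO.PT6
import Pool.Agent.Lib.MP_b07157_agO.PT7

/-!
# The generating function of the cells next to a bad direction
-/

noncomputable section

namespace MPb07157

open Finset

namespace PT

variable {d : ℕ}

theorem sum_box_update (j : Fin d) (N : ℕ) (hN : 1 ≤ N) (F : (Fin d → ℕ) → Mot) :
    ∑ k ∈ Fintype.piFinset (fun _ : Fin d => Finset.Icc 1 N), F k =
      ∑ k ∈ (Fintype.piFinset (fun _ : Fin d => Finset.Icc 1 N)).filter (fun k => k j = 1),
        ∑ x ∈ Finset.Icc 1 N, F (Function.update k j x) := by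
  rw [← Finset.sum_product']
  symm
  refine Finset.sum_nbij' (fun q => Function.update q.1 j q.2)
    (fun k => (Function.update k j 1, k j)) ?_ ?_ ?_ ?_ ?_
  · rintro ⟨k, x⟩ hq
    rw [Finset.mem_product, Finset.mem_filter, Fintype.mem_piFinset] at hq
    rw [Fintype.mem_piFinset]
    intro i
    by_cases hi : i = j
    · subst hi
      simp only [Function.update_self]
      exact hq.2
    · simp only [Function.update_of_ne hi]
      exact hq.1.1 i
  · intro k hk
    rw [Fintype.mem_piFinset] at hk
    rw [Finset.mem_product, Finset.mem_filter, Fintype.mem_piFinset]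
    refine ⟨⟨fun i => ?_, Function.update_self _ _ _⟩, hk j⟩
    by_cases hi : i = j
    · subst hi
      simp only [Function.update_self]
      exact Finset.mem_Icc.2 ⟨le_rfl, hN⟩
    · simp only [Function.update_of_ne hi]
      exact hk i
  · rintro ⟨k, x⟩ hq
    rw [Finset.mem_product, Finset.mem_filter, Fintype.mem_piFinset] at hq
    have h1 : k j = 1 := hq.1.2
    refine Prod.ext ?_ ?_
    · simp only [Function.update_idem]
      rw [← h1]
      exact Function.update_eq_self j k
    · simp only [Function.update_self]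
  · intro k _
    simp
  · rintro ⟨k, x⟩ _
    rfl

theorem dk_update (a k : Fin d → ℕ) (j : Fin d) (x : ℕ) :
    dk a (Function.update k j x) = dk (Function.update a j 0) k + a j * x := by
  unfold dk
  rw [← Finset.sum_erase_add _ _ (Finset.mem_univ j),
    ← Finset.sum_erase_add (Finset.univ) (fun i => Function.update a j 0 i * k i)
      (Finset.mem_univ j), Function.update_self, Function.update_self, zero_mul, add_zero]
  congr 1
  refine Finset.sum_congr rfl fun i hi => ?_
  rw [Function.update_of_ne (Finset.ne_of_mem_erase hi),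
    Function.update_of_ne (Finset.ne_of_mem_erase hi)]

theorem dk_split (a k : Fin d → ℕ) (j : Fin d) :
    dk a k = dk (Function.update a j 0) k + a j * k j := by
  have h := dk_update a k j (k j)
  rwa [Function.update_eq_self] at h

theorem dk_nextA (M μ : ℕ) (L A k : Fin d → ℕ) :
    dk (nextA M μ L A) k = dk A k + (M - μ) * dk L k := by
  unfold dk nextA
  rw [Finset.mul_sum, ← Finset.sum_add_distrib]
  exact Finset.sum_congr rfl fun i _ => by ring

theorem wN_update (N : ℕ) (k : Fin d → ℕ) (j : Fin d) (x : ℕ) :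
    wN N (Function.update k j x) = w1 N x * ∏ i ∈ Finset.univ.erase j, w1 N (k i) := by
  unfold wN
  rw [← Finset.mul_prod_erase _ _ (Finset.mem_univ j), Function.update_self]
  congr 1
  refine Finset.prod_congr rfl fun i hi => ?_
  rw [Function.update_of_ne (Finset.ne_of_mem_erase hi)]

theorem mem_update_iff {Λ : AddSubgroup (Fin d → ℤ)} {j : Fin d}
    (hj : (Pi.single j 1 : Fin d → ℤ) ∈ Λ) (k : Fin d → ℕ) (x : ℕ) :
    (fun i => ((Function.update k j x i : ℕ) : ℤ)) ∈ Λ ↔ (fun i => (k i : ℤ)) ∈ Λ := by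
  have h1 : (fun i => ((Function.update k j x i : ℕ) : ℤ)) =
      (fun i => (k i : ℤ)) + ((x : ℤ) - k j) • (Pi.single j 1 : Fin d → ℤ) := by
    funext i
    by_cases hi : i = j
    · subst hi
      simp
    · simp [Function.update_of_ne hi, Pi.single_eq_of_ne hi]
  rw [h1]
  exact AddSubgroup.add_mem_cancel_right Λ (Λ.zsmul_mem hj _)

/-- The constraint of the root branch in the merged cell. -/
def rootOK (E p : ℕ) (j : Fin d) (L : Fin d → ℕ) (cb : Option ((Fin d → ℕ) × ℕ))
    (k : Fin d → ℕ) (h : ℕ) : Prop :=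
  match cb with
  | none => True
  | some (U, σ) => E * E * (h + k j) + E * σ + (U j + E) * (p * dk (Function.update L j 0) k) ≤
      E * dk (Function.update U j 0) k + (U j + E) * (p * (E * h))

theorem inCell_merged {E p : ℕ} {j : Fin d} {L A : Fin d → ℕ}
    {cb cz : Option ((Fin d → ℕ) × ℕ)} {B : ℕ}
    {Λ : AddSubgroup (Fin d → ℤ)} {k : Fin d → ℕ} {h n : ℕ} :
    InCell (lattO Λ) E (ox A (B * E)) (mA E p j L cb cz) (mC E cb cz) ∅ n (ox k h) ↔
      (fun j => (k j : ℤ)) ∈ Λ ∧ dk (Function.update L j 0) k < E * h ∧ CutOK E cz k h ∧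
        rootOK E p j L cb k h ∧ dk A k + B * (E * h) = E * n := by
  have h0 := inCell_edge (E := E) (l := Function.update L j 0) (A := A) (c := cz) (M := B)
    (Λ := Λ) (k := k) (h := h) (n := n)
  unfold InCell at h0 ⊢
  have h3 : mC E cb cz none ≤ ∑ o, mA E p j L cb cz none o * ((ox k h o : ℕ) : ℤ) ↔
      rootOK E p j L cb k h := by
    rcases cb with _ | ⟨U, σ⟩
    · simp [mC, mA, rootOK]
    · have h4 : ∑ o, mA E p j L (some (U, σ)) cz none o * ((ox k h o : ℕ) : ℤ) =
          ((E * dk (Function.update U j 0) k + (U j + E) * (p * (E * h)) : ℕ) : ℤ) -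
          ((E * E * (h + k j) + (U j + E) * (p * dk (Function.update L j 0) k) : ℕ) : ℤ) := by
        rw [Fintype.sum_option]
        simp only [mA, ox_none, ox_some]
        rw [← Finset.sum_erase_add _ _ (Finset.mem_univ j), if_pos rfl]
        have h5 : ∀ a : Fin d → ℕ, ((dk (Function.update a j 0) k : ℕ) : ℤ) =
            ∑ i ∈ Finset.univ.erase j, (a i : ℤ) * k i := by
          intro a
          rw [dk_cast, ← Finset.sum_erase_add _ _ (Finset.mem_univ j), Function.update_self]
          push_cast
          rw [zero_mul, add_zero]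
          refine Finset.sum_congr rfl fun i hi => ?_
          rw [Function.update_of_ne (Finset.ne_of_mem_erase hi)]
        have h6 : ∑ i ∈ Finset.univ.erase j, (if i = j then -((E : ℤ) * E) else
            (E : ℤ) * U i - ((U j : ℤ) + E) * (p * L i)) * ((k i : ℕ) : ℤ) =
            E * ∑ i ∈ Finset.univ.erase j, (U i : ℤ) * k i -
              (((U j : ℤ) + E) * p) * ∑ i ∈ Finset.univ.erase j, (L i : ℤ) * k i := by
          rw [Finset.mul_sum, Finset.mul_sum, ← Finset.sum_sub_distrib]
          refine Finset.sum_congr rfl fun i hi => ?_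
          rw [if_neg (Finset.ne_of_mem_erase hi)]
          ring
        rw [h6]
        push_cast
        rw [h5, h5]
        ring
      rw [h4]
      simp only [mC, rootOK]
      constructor
      · intro h7
        zify at h7 ⊢
        push_cast at h7
        linarith
      · intro h7
        zify at h7
        push_cast
        linarith
  have h8 : (∀ i, mC E cb cz i ≤ ∑ o, mA E p j L cb cz i o * ((ox k h o : ℕ) : ℤ)) ↔
      (∀ i, eC cz i ≤ ∑ o, eA E (Function.update L j 0) cz i o * ((ox k h o : ℕ) : ℤ)) ∧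
      rootOK E p j L cb k h := by
    constructor
    · intro h9
      exact ⟨fun i => h9 (some i), h3.1 (h9 none)⟩
    · rintro ⟨h9, h10⟩ (_ | i)
      · exact h3.2 h10
      · exact h9 i
  rw [h8]
  simp only [Finset.notMem_empty, false_imp_iff, implies_true, true_and] at h0 ⊢
  constructor
  · rintro ⟨e1, ⟨e2, e3⟩, e4⟩
    obtain ⟨f1, f2, f3, f4⟩ := h0.1 ⟨e1, e2, e4⟩
    exact ⟨f1, f2, f3, e3, f4⟩
  · rintro ⟨f1, f2, f3, e3, f4⟩
    obtain ⟨e1, e2, e4⟩ := h0.2 ⟨f1, f2, f3, f4⟩
    exact ⟨e1, ⟨e2, e3⟩, e4⟩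

open Classical in
/-- The four cells next to the bad direction. -/
def mergeF (E K p : ℕ) (j : Fin d) (L A : Fin d → ℕ) (cb cz : Option ((Fin d → ℕ) × ℕ))
    (B μ : ℕ) (k : Fin d → ℕ) (n : ℕ) : Mot :=
  (∑ h ∈ Finset.Icc 1 (K * (n + 1)),
    if dk (Function.update L j 0) k < E * h ∧ E * h < dk L k ∧
      dk A k + (B + p * μ) * (E * h) = E * n then w1 (K * (n + 1)) h else 0) +
  (if E ∣ dk L k then
    (if dk A k + (B + p * μ) * dk L k = E * n then
      Lp (dk L k / E) - 2 * Lp (dk L k / E + 1) else 0) +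
    edge E K L cb (nextA (B + p * μ) μ L A) μ k n
   else 0) +
  edge E K L cz (nextA (B + p * μ) B L A) B k n

open Classical in
/-- The numerical identity for fixed orders of the other coordinates. -/
theorem merge_line {E p q w e a B μ n N : ℕ} (hE : 0 < E) (hp : 0 < p) (hpq : p * q = E)
    (hpe : p * e = E * w) (hμ : 0 < μ) (hN : p * n < N) (cb cz R : ℕ → ℕ → Prop)
    (h1 : ∀ x h, 1 ≤ x → w + x ≤ p * h → R x h)
    (h2 : ∀ x h, 1 ≤ x → w < p * h → p * h ≤ w + x → cz x h)
    (h3 : ∀ κ h t, 1 ≤ κ → w + κ = p * h → 1 ≤ t → (R (κ + t) h ↔ cb κ (h + t))) :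
    ∑ x ∈ Finset.Icc 1 N, w1 N x * (
      (∑ h ∈ Finset.Icc 1 N,
        if e < E * h ∧ E * h < e + q * x ∧ a + (B + p * μ) * (E * h) = E * n then
          w1 N h else 0) +
      (if E ∣ e + q * x then
        (if a + (B + p * μ) * (e + q * x) = E * n then
          Lp ((e + q * x) / E) - 2 * Lp ((e + q * x) / E + 1) else 0) +
        ∑ g ∈ Finset.Icc 1 N, (if e + q * x < E * g ∧ cb x g ∧
          a + (B + p * μ - μ) * (e + q * x) + μ * (E * g) = E * n then w1 N g else 0)
       else 0) +
      ∑ h ∈ Finset.Icc 1 N, (if e + q * x < E * h ∧ cz x h ∧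
          a + (B + p * μ - B) * (e + q * x) + B * (E * h) = E * n then w1 N h else 0)) =
    ∑ x ∈ Finset.Icc 1 N, w1 N x * ∑ h ∈ Finset.Icc 1 N,
      (if e < E * h ∧ cz x h ∧ R x h ∧
          a + (B + p * μ - B) * (e + q * x) + B * (E * h) = E * n then w1 N h else 0) := by
  have hpx : ∀ x, p * (e + q * x) = E * (w + x) := by
    intro x
    rw [Nat.mul_add, hpe, ← Nat.mul_assoc, hpq]
    ring
  have hph : ∀ h, p * (E * h) = E * (p * h) := fun h => by ring
  have lt1 : ∀ x h, e + q * x < E * h ↔ w + x < p * h := by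
    intro x h
    rw [← Nat.mul_lt_mul_left hp, hpx, hph, Nat.mul_lt_mul_left hE]
  have gt1 : ∀ x h, E * h < e + q * x ↔ p * h < w + x := by
    intro x h
    rw [← Nat.mul_lt_mul_left hp, hpx, hph, Nat.mul_lt_mul_left hE]
  have eq1 : ∀ x h, e + q * x = E * h ↔ w + x = p * h := by
    intro x h
    have := lt1 x h
    have := gt1 x h
    omega
  have lt0 : ∀ h, e < E * h ↔ w < p * h := by
    intro h
    rw [← Nat.mul_lt_mul_left hp, hpe, hph, Nat.mul_lt_mul_left hE]
  have eqm : ∀ x h, a + (B + p * μ - B) * (e + q * x) + B * (E * h) = E * n ↔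
      a + B * (E * h) + μ * (E * x + E * w) = E * n := by
    intro x h
    rw [Nat.add_sub_cancel_left]
    have h4 : p * μ * (e + q * x) = μ * (E * x + E * w) := by
      calc p * μ * (e + q * x) = μ * (p * (e + q * x)) := by ring
        _ = μ * (E * x + E * w) := by rw [hpx]; ring
    rw [h4]
    constructor <;> intro h5 <;> omega
  -- the right hand side
  have hR : ∀ x ∈ Finset.Icc 1 N, w1 N x * ∑ h ∈ Finset.Icc 1 N,
      (if e < E * h ∧ cz x h ∧ R x h ∧
          a + (B + p * μ - B) * (e + q * x) + B * (E * h) = E * n then w1 N h else 0) =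
      (∑ h ∈ Finset.Icc 1 N, if w + x = p * h ∧
        a + B * (E * h) + μ * (E * x + E * w) = E * n then w1 N x * w1 N h else 0) +
      (∑ h ∈ Finset.Icc 1 N, if w < p * h ∧ p * h < w + x ∧ R x h ∧
        a + B * (E * h) + μ * (E * x + E * w) = E * n then w1 N x * w1 N h else 0) +
      (∑ h ∈ Finset.Icc 1 N, if w + x < p * h ∧ cz x h ∧
        a + B * (E * h) + μ * (E * x + E * w) = E * n then w1 N x * w1 N h else 0) := by
    intro x hx
    have hx1 := (Finset.mem_Icc.1 hx).1
    rw [Finset.mul_sum, ← Finset.sum_add_distrib, ← Finset.sum_add_distrib]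
    refine Finset.sum_congr rfl fun h _ => ?_
    simp only [lt0, eqm]
    by_cases heq : a + B * (E * h) + μ * (E * x + E * w) = E * n
    · simp only [heq, and_true]
      rcases lt_trichotomy (w + x) (p * h) with hlt | he | hgt
      · have c1 : ¬ (w + x = p * h) := by omega
        have c2 : ¬ (w < p * h ∧ p * h < w + x ∧ R x h) := fun hc => by omega
        rw [if_neg c1, if_neg c2, zero_add, zero_add]
        by_cases hcz : cz x h
        · rw [if_pos ⟨by omega, hcz, h1 x h hx1 hlt.le⟩, if_pos ⟨hlt, hcz⟩]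
        · rw [if_neg (fun hc => hcz hc.2.1), if_neg (fun hc => hcz hc.2), mul_zero]
      · have c2 : ¬ (w < p * h ∧ p * h < w + x ∧ R x h) := fun hc => by omega
        have c3 : ¬ (w + x < p * h ∧ cz x h) := fun hc => by omega
        rw [if_pos he, if_neg c2, if_neg c3, add_zero, add_zero,
          if_pos ⟨by omega, h2 x h hx1 (by omega) he.ge, h1 x h hx1 he.le⟩]
      · have c1 : ¬ (w + x = p * h) := by omega
        have c3 : ¬ (w + x < p * h ∧ cz x h) := fun hc => by omega
        rw [if_neg c1, if_neg c3, zero_add, add_zero]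
        by_cases hw : w < p * h
        · by_cases hRx : R x h
          · rw [if_pos ⟨hw, h2 x h hx1 hw hgt.le, hRx⟩, if_pos ⟨hw, hgt, hRx⟩]
          · rw [if_neg (fun hc => hRx hc.2.2), if_neg (fun hc => hRx hc.2.2), mul_zero]
        · rw [if_neg (fun hc => hw hc.1), if_neg (fun hc => hw hc.1), mul_zero]
    · rw [if_neg (fun hc => heq hc.2.2.2), if_neg (fun hc => heq hc.2),
        if_neg (fun hc => heq hc.2.2.2), if_neg (fun hc => heq hc.2.2), mul_zero, add_zero, add_zero]
  rw [Finset.sum_congr rfl hR, Finset.sum_add_distrib, Finset.sum_add_distrib,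
    ← merge_wall hE hμ hp hN, ← merge_root hE hμ hp hN cb R h3, ← Finset.sum_add_distrib,
    ← Finset.sum_add_distrib]
  refine Finset.sum_congr rfl fun x hx => ?_
  have hx1 := (Finset.mem_Icc.1 hx).1
  have hdvd : E ∣ e + q * x ↔ p ∣ w + x := by
    constructor
    · rintro ⟨c, hc⟩
      exact ⟨c, (eq1 x c).1 hc⟩
    · rintro ⟨c, hc⟩
      exact ⟨c, (eq1 x c).2 hc⟩
  -- the four parts
  have p1 : w1 N x * (∑ h ∈ Finset.Icc 1 N,
        if e < E * h ∧ E * h < e + q * x ∧ a + (B + p * μ) * (E * h) = E * n then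
          w1 N h else 0) =
      ∑ h ∈ Finset.Icc 1 N, (if w < p * h ∧ p * h < w + x ∧
        a + (B + p * μ) * (E * h) = E * n then w1 N x * w1 N h else 0) := by
    rw [Finset.mul_sum]
    refine Finset.sum_congr rfl fun h _ => ?_
    simp only [lt0, gt1]
    split_ifs
    · rfl
    · rw [mul_zero]
  have p4 : w1 N x * ∑ h ∈ Finset.Icc 1 N, (if e + q * x < E * h ∧ cz x h ∧
          a + (B + p * μ - B) * (e + q * x) + B * (E * h) = E * n then w1 N h else 0) =
      ∑ h ∈ Finset.Icc 1 N, (if w + x < p * h ∧ cz x h ∧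
        a + B * (E * h) + μ * (E * x + E * w) = E * n then w1 N x * w1 N h else 0) := by
    rw [Finset.mul_sum]
    refine Finset.sum_congr rfl fun h _ => ?_
    simp only [lt1, eqm]
    split_ifs
    · rfl
    · rw [mul_zero]
  have p2 : w1 N x * (if E ∣ e + q * x then
        (if a + (B + p * μ) * (e + q * x) = E * n then
          Lp ((e + q * x) / E) - 2 * Lp ((e + q * x) / E + 1) else 0) else 0) =
      ∑ h ∈ Finset.Icc 1 N, (if w + x = p * h ∧ a + (B + p * μ) * (E * h) = E * n then
        w1 N x * (Lp h - 2 * Lp (h + 1)) else 0) := by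
    by_cases hd : E ∣ e + q * x
    · rw [if_pos hd]
      obtain ⟨c, hc⟩ := hd
      have hdiv : (e + q * x) / E = c := by
        rw [hc]
        exact Nat.mul_div_cancel_left _ hE
      rw [hdiv, hc]
      have hwc := (eq1 x c).1 hc
      by_cases heq : a + (B + p * μ) * (E * c) = E * n
      · rw [if_pos heq, Finset.sum_eq_single c]
        · rw [if_pos ⟨hwc, heq⟩]
        · intro h _ hne
          refine if_neg fun hcon => hne ?_
          exact Nat.eq_of_mul_eq_mul_left hp (hcon.1.symm.trans hwc)
        · intro hcon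
          exfalso
          apply hcon
          have h4 : E * c ≤ E * n := by
            calc E * c ≤ (p * μ) * (E * c) := Nat.le_mul_of_pos_left _ (Nat.mul_pos hp hμ)
              _ ≤ (B + p * μ) * (E * c) := Nat.mul_le_mul_right _ (by omega)
              _ ≤ E * n := by omega
          have h5 : c ≤ n := Nat.le_of_mul_le_mul_left h4 hE
          have h6 : n ≤ p * n := Nat.le_mul_of_pos_left _ hp
          have h7 : 0 < c := by
            rcases Nat.eq_zero_or_pos c with h8 | h8
            · rw [h8] at hwc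
              omega
            · exact h8
          exact Finset.mem_Icc.2 ⟨h7, by omega⟩
      · rw [if_neg heq, mul_zero]
        symm
        refine Finset.sum_eq_zero fun h _ => if_neg fun hcon => heq ?_
        have : h = c := Nat.eq_of_mul_eq_mul_left hp (hcon.1.symm.trans hwc)
        rw [← this]
        exact hcon.2
    · rw [if_neg hd, mul_zero]
      symm
      refine Finset.sum_eq_zero fun h _ => if_neg fun hcon => hd ?_
      exact hdvd.2 ⟨h, hcon.1⟩
  have p3 : w1 N x * (if E ∣ e + q * x then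
        ∑ g ∈ Finset.Icc 1 N, (if e + q * x < E * g ∧ cb x g ∧
          a + (B + p * μ - μ) * (e + q * x) + μ * (E * g) = E * n then w1 N g else 0) else 0) =
      ∑ g ∈ Finset.Icc 1 N, (if p ∣ w + x ∧ w + x < p * g ∧ cb x g ∧
          a + (B + p * μ - μ) * (E * ((w + x) / p)) + μ * (E * g) = E * n then
        w1 N x * w1 N g else 0) := by
    by_cases hd : E ∣ e + q * x
    · rw [if_pos hd, Finset.mul_sum]
      have hd' := hdvd.1 hd
      obtain ⟨c, hc⟩ := hd
      have hwc := (eq1 x c).1 hc
      have hdiv : (w + x) / p = c := by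
        rw [hwc]
        exact Nat.mul_div_cancel_left _ hp
      refine Finset.sum_congr rfl fun g _ => ?_
      simp only [lt1]
      simp only [hdiv, hc, hd', true_and]
      split_ifs
      · rfl
      · rw [mul_zero]
    · rw [if_neg hd, mul_zero]
      symm
      exact Finset.sum_eq_zero fun h _ => if_neg fun hcon => hd (hdvd.2 hcon.1)
  rw [Finset.sum_add_distrib, ← p1, ← p2, ← p3, ← p4]
  have hsp : ∀ (a b : Mot), (if E ∣ e + q * x then a + b else 0) =
      (if E ∣ e + q * x then a else 0) + (if E ∣ e + q * x then b else 0) := by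
    intro a b
    split_ifs
    · rfl
    · rw [add_zero]
  rw [hsp]
  ring

end PT

end MPb07157
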