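import Pool.Agent.Lib.MP_b07157_agO.PT8

/-!
# The four cells next to a bad direction are one cell
-/

noncomputable section

namespace MPb07157

open Finset

namespace PT

variable {d : ℕ}

theorem dk_update0 (a k : Fin d → ℕ) (j : Fin d) (x : ℕ) :
    dk (Function.update a j 0) (Function.update k j x) = dk (Function.update a j 0) k := by
  rw [dk_update, Function.update_idem, Function.update_self, zero_mul, add_zero]

theorem dk_le {a b : Fin d → ℕ} (h : ∀ j, a j ≤ b j) (k : Fin d → ℕ) : dk a k ≤ dk b k :=
  Finset.sum_le_sum fun j _ => Nat.mul_le_mul_right _ (h j)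

theorem dk_update_le {a b : Fin d → ℕ} (h : ∀ j, a j ≤ b j) (j : Fin d) (k : Fin d → ℕ) :
    dk (Function.update a j 0) k ≤ dk (Function.update b j 0) k := by
  refine dk_le (fun i => ?_) k
  by_cases hi : i = j
  · subst hi
    simp
  · rw [Function.update_of_ne hi, Function.update_of_ne hi]
    exact h i

/-- The cut lies above `L`. -/
def CutGE (L : Fin d → ℕ) (c : Option ((Fin d → ℕ) × ℕ)) : Prop :=
  match c with
  | none => True
  | some (U, _) => ∀ j, L j ≤ U j

open Classical in
theorem WF_merge {E K p : ℕ} (hE : 0 < E) (hEK : E ≤ K) {j : Fin d} {L A : Fin d → ℕ}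
    (hp : p * L j = E) (hA : A j = 0) (B : ℕ) {μ : ℕ} (hμ : 0 < μ)
    {Λ : AddSubgroup (Fin d → ℤ)} (hΛj : (Pi.single j 1 : Fin d → ℤ) ∈ Λ)
    (hΛp : ∀ k ∈ Λ, (E : ℤ) ∣ p * ∑ i, (L i : ℤ) * k i)
    {cb cz : Option ((Fin d → ℕ) × ℕ)} (hcb : CutGE L cb) (hcb' : BadCut j L cb)
    (hcz : CutGE L cz) (hcz' : BadCut j L cz) :
    WF K (fun k n => if (fun i => (k i : ℤ)) ∈ Λ then mergeF E K p j L A cb cz B μ k n else 0) =
      cellF (lattO Λ) E (ox (nextA (B + p * μ) B L A) (B * E)) K (cc0 (1 - Lp 1) (1 - Lp 1))
        (cc0 1 1) (mA E p j L cb cz) (mC E cb cz) ∅ := by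
  have hp0 : 0 < p := by
    rcases Nat.eq_zero_or_pos p with h | h
    · rw [h, zero_mul] at hp
      omega
    · exact h
  have hLj : 0 < L j := by
    rcases Nat.eq_zero_or_pos (L j) with h | h
    · rw [h, mul_zero] at hp
      omega
    · exact h
  ext n
  simp only [WF, cellF, PowerSeries.coeff_mk]
  rw [@sum_box_option d (fun a b => Classical.propDecidable (a = b))]
  set N := K * (n + 1) with hN
  have hpE : p ≤ E := by
    rw [← hp]
    exact Nat.le_mul_of_pos_right _ hLj
  have hpn : p * n < N := by
    rw [hN]
    calc p * n < p * (n + 1) := Nat.mul_lt_mul_of_pos_left (Nat.lt_succ_self n) hp0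
      _ ≤ K * (n + 1) := Nat.mul_le_mul_right _ (hpE.trans hEK)
  have hN1 : 1 ≤ N := by omega
  rw [sum_box_update j N hN1, sum_box_update j N hN1]
  refine Finset.sum_congr rfl fun k0 _ => ?_
  by_cases hk : (fun i => (k0 i : ℤ)) ∈ Λ
  · -- the numbers
    set e := dk (Function.update L j 0) k0 with he
    set a := dk (Function.update A j 0) k0 with ha
    obtain ⟨w, hw⟩ : ∃ w, p * e = E * w := by
      have h1 := hΛp _ hk
      have h2 : (p : ℤ) * ∑ i, (L i : ℤ) * (k0 i : ℤ) = ((p * e + E * k0 j : ℕ) : ℤ) := by
        rw [← dk_cast, dk_split L k0 j, ← hp]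
        push_cast
        ring
      rw [h2] at h1
      have h3 : E ∣ p * e + E * k0 j := by exact_mod_cast h1
      exact (Nat.dvd_add_left (Dvd.intro _ rfl)).1 h3
    set W' := ∏ i ∈ Finset.univ.erase j, w1 N (k0 i) with hW'
    -- consequences of `p h = w + κ`
    have hEh : ∀ h κ, p * h = w + κ → E * h = e + L j * κ := by
      intro h κ hκ
      apply Nat.eq_of_mul_eq_mul_left hp0
      calc p * (E * h) = E * (p * h) := by ring
        _ = E * w + E * κ := by rw [hκ]; ring
        _ = p * (e + L j * κ) := by rw [← hw, ← hp]; ring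
    have hline := merge_line (E := E) (p := p) (q := L j) (w := w) (e := e) (a := a) (B := B)
      (μ := μ) (n := n) (N := N) hE hp0 hp hw hμ hpn
      (fun x g => CutOK E cb (Function.update k0 j x) g)
      (fun x h => CutOK E cz (Function.update k0 j x) h)
      (fun x h => rootOK E p j L cb (Function.update k0 j x) h)
      (by
        intro x h hx hle
        rcases cb with _ | ⟨U, σ⟩
        · trivial
        · obtain ⟨κ, hκ⟩ := Nat.exists_eq_add_of_le (by omega : w ≤ p * h)
          have hxκ : x ≤ κ := by omega
          have h1 := hEh h κ hκ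
          simp only [rootOK, dk_update0, Function.update_self]
          obtain ⟨hb1, hb2⟩ := hcb'
          have h2 : (L j + 1) * κ ≤ U j * κ := Nat.mul_le_mul_right _ hb1
          have h3 : E * x ≤ E * κ := Nat.mul_le_mul_left _ hxκ
          have h4 : e ≤ dk (Function.update U j 0) k0 := dk_update_le hcb j k0
          have h5 : E * h + E * x + σ ≤ dk (Function.update U j 0) k0 + U j * κ + E * κ := by
            have h6 : (L j + 1) * κ = L j * κ + κ := by ring
            omega
          have h7 := Nat.mul_le_mul_left E h5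
          calc E * E * (h + x) + E * σ + (U j + E) * (p * e)
              = E * (E * h + E * x + σ) + (U j + E) * (E * w) := by rw [hw]; ring
            _ ≤ E * (dk (Function.update U j 0) k0 + U j * κ + E * κ) + (U j + E) * (E * w) := by
                omega
            _ = E * dk (Function.update U j 0) k0 + (U j + E) * (p * (E * h)) := by
                have h8 : p * (E * h) = E * (w + κ) := by rw [← hκ]; ring
                rw [h8]
                ring)
      (by
        intro x h hx hlt hle
        rcases cz with _ | ⟨V, σ⟩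
        · trivial
        · obtain ⟨κ, hκ⟩ := Nat.exists_eq_add_of_le hlt.le
          have hκx : κ ≤ x := by omega
          have h1 := hEh h κ hκ
          simp only [CutOK]
          rw [dk_update]
          obtain ⟨hb1, hb2⟩ := hcz'
          have h2 : (L j + 1) * κ ≤ V j * x := Nat.mul_le_mul hb1 hκx
          have h4 : e ≤ dk (Function.update V j 0) k0 := dk_update_le hcz j k0
          have h6 : (L j + 1) * κ = L j * κ + κ := by ring
          omega)
      (by
        intro κ h t hκ1 hκ ht
        rcases cb with _ | ⟨U, σ⟩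
        · simp [rootOK, CutOK]
        · simp only [rootOK, CutOK, dk_update0, Function.update_self]
          rw [dk_update]
          have h1 : E * E * (h + (κ + t)) + E * σ + (U j + E) * (p * e) =
              E * (E * (h + t) + σ) + E * (E * κ + (U j + E) * w) := by rw [hw]; ring
          have h2 : E * dk (Function.update U j 0) k0 + (U j + E) * (p * (E * h)) =
              E * (dk (Function.update U j 0) k0 + U j * κ) + E * (E * κ + (U j + E) * w) := by
            have h8 : p * (E * h) = E * (w + κ) := by rw [hκ]; ring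
            rw [h8]
            ring
          rw [h1, h2, Nat.add_le_add_iff_right, Nat.mul_le_mul_left_iff hE])
    have hL : ∑ x ∈ Finset.Icc 1 N, wN N (Function.update k0 j x) *
        (if (fun i => ((Function.update k0 j x i : ℕ) : ℤ)) ∈ Λ then
          mergeF E K p j L A cb cz B μ (Function.update k0 j x) n else 0) =
        W' * ∑ x ∈ Finset.Icc 1 N, w1 N x * (
      (∑ h ∈ Finset.Icc 1 N,
        if e < E * h ∧ E * h < e + L j * x ∧ a + (B + p * μ) * (E * h) = E * n then
          w1 N h else 0) +
      (if E ∣ e + L j * x then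
        (if a + (B + p * μ) * (e + L j * x) = E * n then
          Lp ((e + L j * x) / E) - 2 * Lp ((e + L j * x) / E + 1) else 0) +
        ∑ g ∈ Finset.Icc 1 N, (if e + L j * x < E * g ∧ CutOK E cb (Function.update k0 j x) g ∧
          a + (B + p * μ - μ) * (e + L j * x) + μ * (E * g) = E * n then w1 N g else 0)
       else 0) +
      ∑ h ∈ Finset.Icc 1 N, (if e + L j * x < E * h ∧ CutOK E cz (Function.update k0 j x) h ∧
          a + (B + p * μ - B) * (e + L j * x) + B * (E * h) = E * n then w1 N h else 0)) := by
      rw [Finset.mul_sum]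
      refine Finset.sum_congr rfl fun x _ => ?_
      rw [if_pos ((mem_update_iff hΛj k0 x).2 hk), wN_update]
      have hdA : dk A (Function.update k0 j x) = a := by
        rw [dk_update, hA, zero_mul, add_zero]
      unfold mergeF edge
      simp only [dk_nextA, hdA, dk_update0, dk_update L k0 j x, ← he, ← hN]
      ring
    have hR : ∑ x ∈ Finset.Icc 1 N, ∑ h ∈ Finset.Icc 1 N,
        (if InCell (lattO Λ) E (ox (nextA (B + p * μ) B L A) (B * E)) (mA E p j L cb cz)
            (mC E cb cz) ∅ n (ox (Function.update k0 j x) h) then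
          cellW N (cc0 (1 - Lp 1) (1 - Lp 1)) (cc0 1 1) (ox (Function.update k0 j x) h) else 0) =
        W' * ∑ x ∈ Finset.Icc 1 N, w1 N x * ∑ h ∈ Finset.Icc 1 N,
      (if e < E * h ∧ CutOK E cz (Function.update k0 j x) h ∧
          rootOK E p j L cb (Function.update k0 j x) h ∧
          a + (B + p * μ - B) * (e + L j * x) + B * (E * h) = E * n then w1 N h else 0) := by
      rw [Finset.mul_sum]
      refine Finset.sum_congr rfl fun x _ => ?_
      have hdA : dk A (Function.update k0 j x) = a := by
        rw [dk_update, hA, zero_mul, add_zero]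
      rw [← mul_assoc, Finset.mul_sum]
      refine Finset.sum_congr rfl fun h _ => ?_
      have hiff := inCell_merged (E := E) (p := p) (j := j) (L := L)
        (A := nextA (B + p * μ) B L A) (cb := cb) (cz := cz) (B := B) (Λ := Λ)
        (k := Function.update k0 j x) (h := h) (n := n)
      rw [dk_nextA, hdA, dk_update0, dk_update L k0 j x, ← he, mem_update_iff hΛj] at hiff
      simp only [hk, true_and] at hiff
      by_cases hc : e < E * h ∧ CutOK E cz (Function.update k0 j x) h ∧
          rootOK E p j L cb (Function.update k0 j x) h ∧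
          a + (B + p * μ - B) * (e + L j * x) + B * (E * h) = E * n
      · rw [if_pos (hiff.2 hc), if_pos hc, cellW_ox, wN_update, w1_eq N h]
        have : ((LU ^ (-(h : ℤ)) : Motˣ) : Mot) = Lp h := rfl
        rw [this]
        ring
      · rw [if_neg (fun h1 => hc (hiff.1 h1)), if_neg hc, mul_zero]
    rw [hL, hR, hline]
  · have h1 : ∀ x, ¬ (fun i => ((Function.update k0 j x i : ℕ) : ℤ)) ∈ Λ :=
      fun x h => hk ((mem_update_iff hΛj k0 x).1 h)
    rw [Finset.sum_eq_zero fun x _ => by rw [if_neg (h1 x), mul_zero]]
    symm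
    refine Finset.sum_eq_zero fun x _ => Finset.sum_eq_zero fun h _ => if_neg fun h2 => h1 x ?_
    exact (inCell_merged.1 h2).1

end PT

end MPb07157
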