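import Pool.Agent.Lib.MP_b07157_agO.PT9

/-!
# The zeta function of a tree is regular away from the candidates
-/

noncomputable section

namespace MPb07157

open Finset

namespace PT

variable {d : ℕ}

theorem ite_iff {P Q : Prop} {dP : Decidable P} {dQ : Decidable Q} {x y : Mot} (h : P ↔ Q) :
    @ite _ P dP x y = @ite _ Q dQ x y := by
  by_cases hP : P
  · rw [if_pos hP, if_pos (h.1 hP)]
  · rw [if_neg hP, if_neg (fun hQ => hP (h.2 hQ))]

open Classical in
theorem sum_trunc {E M K n a : ℕ} (hE : 0 < E) (hM : 0 < M) (hK : 0 < K) (P : ℕ → Prop) :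
    ∑ h ∈ Finset.Icc 1 (n + 1), (if P h ∧ a + M * (E * h) = E * n then
      Lp h - Lp (h + 1) else 0) =
    ∑ h ∈ Finset.Icc 1 (K * (n + 1)), (if P h ∧ a + M * (E * h) = E * n then
      w1 (K * (n + 1)) h else 0) := by
  have hNK : n + 1 ≤ K * (n + 1) := Nat.le_mul_of_pos_left _ hK
  have hle : ∀ h, a + M * (E * h) = E * n → h ≤ n := by
    intro h heq
    have h1 : E * h ≤ E * n := by
      calc E * h ≤ M * (E * h) := Nat.le_mul_of_pos_left _ hM
        _ ≤ E * n := by omega
    exact Nat.le_of_mul_le_mul_left h1 hE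
  rw [← Finset.sum_subset (Finset.Icc_subset_Icc_right hNK)]
  · refine Finset.sum_congr rfl fun h _ => ?_
    by_cases hc : P h ∧ a + M * (E * h) = E * n
    · have h1 := hle h hc.2
      rw [if_pos hc, if_pos hc, w1, if_pos (by omega)]
    · rw [if_neg hc, if_neg hc]
  · intro h _ hh
    refine if_neg fun hc => hh ?_
    have h1 := hle h hc.2
    rename_i hmem
    have := (Finset.mem_Icc.1 hmem).1
    exact Finset.mem_Icc.2 ⟨this, by omega⟩

theorem psi_leaf {E K : ℕ} (hE : 0 < E) (hK : 0 < K) (μ : ℕ) (l A k : Fin d → ℕ)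
    (hl : μ = 0 → ∀ j, l j ≤ A j) (n : ℕ) :
    psi E n (.leaf μ) l A k = edge E K l none A μ k n := by
  classical
  have hNK : n + 1 ≤ K * (n + 1) := Nat.le_mul_of_pos_left _ hK
  unfold psi edge
  by_cases hμ : μ = 0
  · rw [if_pos hμ]
    by_cases hA : dk A k = E * n
    · rw [if_pos hA]
      have h1 : dk l k ≤ dk A k := dk_le (hl hμ) k
      have h2 : dk l k / E ≤ n := by
        rw [hA] at h1
        exact Nat.div_le_of_le_mul h1
      rw [← sum_w1 (by omega : dk l k / E + 1 ≤ K * (n + 1)), ← Finset.sum_filter]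
      refine Finset.sum_congr ?_ fun _ _ => rfl
      ext h
      simp only [Finset.mem_filter, Finset.mem_Icc, CutOK, true_and, hμ, zero_mul, add_zero]
      have h3 : dk l k < E * h ↔ dk l k / E < h := by
        rw [Nat.div_lt_iff_lt_mul hE, Nat.mul_comm]
      rw [h3]
      generalize dk l k / E = q
      constructor
      · rintro ⟨e1, e2⟩
        exact ⟨⟨by omega, e2⟩, by omega, hA⟩
      · rintro ⟨⟨e1, e2⟩, e3, -⟩
        exact ⟨by omega, e2⟩
    · rw [if_neg hA]
      symm
      refine Finset.sum_eq_zero fun h _ => if_neg fun hc => hA ?_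
      have := hc.2.2
      rwa [hμ, zero_mul, add_zero] at this
  · rw [if_neg hμ]
    have h1 := sum_trunc (n := n) (a := dk A k) hE (Nat.pos_of_ne_zero hμ) hK
      (fun h => dk l k < E * h)
    refine Eq.trans (Finset.sum_congr rfl fun h _ => ite_iff Iff.rfl) (h1.trans
      (Finset.sum_congr rfl fun h _ => ite_iff ?_))
    simp only [CutOK, true_and]

open Classical in
theorem psi_node {E K : ℕ} (hE : 0 < E) (hK : 0 < K) (L : Fin d → ℕ) (p s : ℕ) (z : QT d)
    (b : Fin s → QT d) (l A k : Fin d → ℕ) (n : ℕ) (hM : 0 < (QT.node L p s z b).mass) :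
    psi E n (.node L p s z b) l A k =
      edge E K l (some (L, 1)) A (QT.node L p s z b).mass k n +
      (1 - (1 + (s : Mot)) * Lp 1) * wall E L A (QT.node L p s z b).mass k n +
      (∑ i, if E ∣ dk L k then
        psi E n (b i) L (nextA (QT.node L p s z b).mass (b i).mass L A) k else 0) +
      psi E n z L (nextA (QT.node L p s z b).mass z.mass L A) k := by
  rw [psi]
  have h1 := sum_trunc (n := n) (a := dk A k) hE hM hK
      (fun h => dk l k < E * h ∧ E * h < dk L k)
  have h2 : (∑ h ∈ Finset.Icc 1 (n + 1),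
      if dk l k < E * h ∧ E * h < dk L k ∧
        dk A k + (QT.node L p s z b).mass * (E * h) = E * n then Lp h - Lp (h + 1) else 0) =
      edge E K l (some (L, 1)) A (QT.node L p s z b).mass k n := by
    rw [edge]
    refine Eq.trans (Finset.sum_congr rfl fun h _ => ite_iff ?_) (h1.trans
      (Finset.sum_congr rfl fun h _ => ite_iff ?_))
    · simp only [and_assoc]
    · simp only [CutOK, and_assoc, Nat.lt_iff_add_one_le]
  rw [h2]
  congr 1
  rw [add_assoc]
  congr 1
  unfold wall
  by_cases hd : E ∣ dk L k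
  · simp only [hd, if_true, true_and]
    congr 1
    split_ifs
    · rw [Lp_succ (dk L k / E)]
      ring
    · rw [mul_zero]
  · simp only [hd, if_false, false_and, mul_zero, Finset.sum_const_zero, add_zero]

theorem mem_latt_iff {E : ℕ} {L k : Fin d → ℕ} :
    (fun i => (k i : ℤ)) ∈ latt E L ↔ E ∣ dk L k := by
  change (E : ℤ) ∣ ∑ j, (L j : ℤ) * (k j : ℤ) ↔ _
  rw [← dk_cast]
  exact Int.natCast_dvd_natCast

open Classical in
theorem edge_reg {E : ℕ} (hE : 0 < E) {Λ : AddSubgroup (Fin d → ℤ)}
    (hΛ : ∀ y : Fin d → ℤ, (E : ℤ) • y ∈ Λ) {s₀ : ℚ} {K : ℕ} (hK : -s₀ < K)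
    (l A : Fin d → ℕ) (c : Option ((Fin d → ℕ) × ℕ)) (M : ℕ) (hc : GoodCut E s₀ c l A M)
    (hl : ∀ j, (E : ℚ) + l j ≠ -s₀ * (A j + M * l j)) :
    WF K (fun k n => if (fun j => (k j : ℤ)) ∈ Λ then edge E K l c A M k n else 0) ∈
      regularAt s₀ := by
  rw [WF_edge]
  exact edge_mem hE hΛ hK l A c M hc hl

/-- The claim of the induction. -/
def Claim (E K : ℕ) (s₀ : ℚ) (t : QT d) (Λ : AddSubgroup (Fin d → ℤ)) (l A : Fin d → ℕ) : Prop :=
  ∃ c : Option ((Fin d → ℕ) × ℕ), GoodCut E s₀ c l A t.mass ∧
    (∀ j, 0 < l j → Above j (l j) t → BadCut j l c) ∧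
    WF K (fun k n => open Classical in if (fun j => (k j : ℤ)) ∈ Λ then
      psi E n t l A k - edge E K l c A t.mass k n else 0) ∈ regularAt s₀

open Classical in
theorem Claim.psi_mem {E : ℕ} (hE : 0 < E) {Λ : AddSubgroup (Fin d → ℤ)}
    (hΛ : ∀ y : Fin d → ℤ, (E : ℤ) • y ∈ Λ) {s₀ : ℚ} {K : ℕ} (hK : -s₀ < K)
    {l A : Fin d → ℕ} {t : QT d} (h : Claim E K s₀ t Λ l A)
    (hl : ∀ j, (E : ℚ) + l j ≠ -s₀ * (A j + t.mass * l j)) :
    WF K (fun k n => if (fun j => (k j : ℤ)) ∈ Λ then psi E n t l A k else 0) ∈
      regularAt s₀ := by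
  obtain ⟨c, hc, -, hmem⟩ := h
  have h1 := add_mem hmem (edge_reg hE hΛ hK l A c t.mass hc hl)
  rw [← WF_add] at h1
  have h2 : WF K (fun k n => if (fun j => (k j : ℤ)) ∈ Λ then psi E n t l A k else 0) =
      WF K (fun k n => (if (fun j => (k j : ℤ)) ∈ Λ then
        psi E n t l A k - edge E K l c A t.mass k n else 0) +
        if (fun j => (k j : ℤ)) ∈ Λ then edge E K l c A t.mass k n else 0) := by
    refine WF_congr fun k n _ => ?_
    split_ifs
    · ring
    · rw [add_zero]
  rw [h2]
  exact h1

theorem CutGE_of_GoodCut {E : ℕ} {s₀ : ℚ} {c : Option ((Fin d → ℕ) × ℕ)} {l A : Fin d → ℕ}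
    {M : ℕ} (h : GoodCut E s₀ c l A M) : CutGE l c := by
  rcases c with _ | ⟨U, σ⟩
  · trivial
  · exact h.1

theorem ray_next {E M μ : ℕ} {s₀ : ℚ} {L A : Fin d → ℕ} (hμ : μ ≤ M)
    (h : ∀ j, (E : ℚ) + L j ≠ -s₀ * (A j + M * L j)) (j : Fin d) :
    (E : ℚ) + L j ≠ -s₀ * ((nextA M μ L A j : ℕ) + μ * L j) := by
  have h1 : ((nextA M μ L A j : ℕ) : ℚ) + μ * L j = A j + M * L j := by
    unfold nextA
    push_cast [Nat.cast_sub hμ]
    ring
  rw [h1]
  exact h j

open Classical in
theorem claim_of_valid {E : ℕ} (hE : 0 < E) {s₀ : ℚ} {K : ℕ} (hK : -s₀ < K) (hEK : E ≤ K)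
    (t : QT d) : ∀ (Λ : AddSubgroup (Fin d → ℤ)) (l A : Fin d → ℕ),
      (∀ y : Fin d → ℤ, (E : ℤ) • y ∈ Λ) → (∀ j, l j = 0 → (Pi.single j 1 : Fin d → ℤ) ∈ Λ) →
      (t.mass = 0 → ∀ j, l j ≤ A j) → Valid E t Λ l → Good E s₀ t l A → Claim E K s₀ t Λ l A := by
  have hK0 : 0 < K := by omega
  induction t with
  | leaf μ =>
    intro Λ l A hΛ hΛ1 hm hV hG
    refine ⟨none, hG, fun j _ _ => trivial, ?_⟩
    have h1 : WF K (fun k n => if (fun j => (k j : ℤ)) ∈ Λ then
        psi E n (.leaf μ) l A k - edge E K l none A (QT.leaf μ : QT d).mass k n else 0) =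
        WF K (fun (_ : Fin d → ℕ) (_ : ℕ) => (0 : Mot)) := by
      refine WF_congr fun k n _ => ?_
      rw [psi_leaf (K := K) hE hK0 μ l A k hm n]
      change (if _ then edge E K l none A μ k n - edge E K l none A μ k n else 0) = 0
      rw [sub_self, ite_self]
    rw [h1]
    have h2 : WF K (fun (_ : Fin d → ℕ) (_ : ℕ) => (0 : Mot)) = 0 := by
      ext n
      simp [WF]
    rw [h2]
    exact zero_mem _
  | node L p s z b ihz ihb =>
    intro Λ l A hΛ hΛ1 hm hV hG
    obtain ⟨hlL, hΛp, hp0, hs0, hbm, hVz, hVb⟩ := hV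
    obtain ⟨⟨F, hF1, hF2, hF3⟩, hGz, hGb⟩ := hG
    set M := (QT.node L p s z b).mass with hM
    have hMeq : M = z.mass + p * ∑ i, (b i).mass := rfl
    have hsum : 0 < ∑ i, (b i).mass :=
      Finset.sum_pos (fun i _ => hbm i) ⟨⟨0, hs0⟩, Finset.mem_univ _⟩
    have hM0 : 0 < M := by
      have := Nat.mul_pos hp0 hsum
      omega
    have hzM : z.mass ≤ M := by omega
    have hbM : ∀ i, (b i).mass ≤ M := by
      intro i
      have h1 : (b i).mass ≤ ∑ i, (b i).mass :=
        Finset.single_le_sum (f := fun i => (b i).mass) (fun _ _ => Nat.zero_le _)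
          (Finset.mem_univ i)
      have h2 : ∑ i, (b i).mass ≤ p * ∑ i, (b i).mass := Nat.le_mul_of_pos_left _ hp0
      omega
    have hΛb : ∀ y : Fin d → ℤ, (E : ℤ) • y ∈ Λ ⊓ latt E L := by
      intro y
      refine ⟨hΛ y, ?_⟩
      change (E : ℤ) ∣ ∑ j, (L j : ℤ) * ((E : ℤ) • y) j
      refine ⟨∑ j, (L j : ℤ) * y j, ?_⟩
      rw [Finset.mul_sum]
      refine Finset.sum_congr rfl fun j _ => ?_
      simp only [Pi.smul_apply, smul_eq_mul]
      ring
    have hΛ1z : ∀ j, L j = 0 → (Pi.single j 1 : Fin d → ℤ) ∈ Λ := fun j hj =>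
      hΛ1 j (Nat.le_zero.1 (hj ▸ hlL j))
    have hΛ1b : ∀ j, L j = 0 → (Pi.single j 1 : Fin d → ℤ) ∈ Λ ⊓ latt E L := by
      intro j hj
      refine ⟨hΛ1z j hj, ?_⟩
      change (E : ℤ) ∣ ∑ i, (L i : ℤ) * (Pi.single j 1 : Fin d → ℤ) i
      rw [Finset.sum_eq_single j]
      · rw [hj]
        simp
      · intro i _ hij
        rw [Pi.single_eq_of_ne hij, mul_zero]
      · simp
    have hcz := ihz Λ L (nextA M z.mass L A) hΛ hΛ1z (by
      intro h0 j
      unfold nextA
      rw [h0, Nat.sub_zero]
      have := Nat.le_mul_of_pos_left (L j) hM0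
      omega) hVz hGz
    have hcb := fun i => ihb i (Λ ⊓ latt E L) L (nextA M (b i).mass L A) hΛb hΛ1b
      (fun h0 => absurd (hbm i) (by omega)) (hVb i) (hGb i)
    -- the part of the branches
    have hmemb : ∀ (k : Fin d → ℕ), (fun i => (k i : ℤ)) ∈ Λ ⊓ latt E L ↔
        (fun i => (k i : ℤ)) ∈ Λ ∧ E ∣ dk L k := by
      intro k
      rw [AddSubgroup.mem_inf, mem_latt_iff]
    rcases F.eq_empty_or_nonempty with hFe | ⟨j, hj⟩
    · -- a good vertex
      have hgood : ∀ j, (E : ℚ) + L j ≠ -s₀ * (A j + M * L j) := fun j =>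
        hF3 j (by rw [hFe]; exact Finset.notMem_empty j)
      refine ⟨some (L, 1), ⟨hlL, hgood⟩, fun j _ hj => ⟨hj, le_rfl⟩, ?_⟩
      have h1 : WF K (fun k n => if (fun j => (k j : ℤ)) ∈ Λ then
          psi E n (.node L p s z b) l A k - edge E K l (some (L, 1)) A M k n else 0) =
          (1 - (1 + (s : Mot)) * Lp 1) •
            WF K (fun k n => if (fun j => (k j : ℤ)) ∈ Λ then wall E L A M k n else 0) +
          ∑ i, WF K (fun k n => if (fun j => (k j : ℤ)) ∈ Λ ⊓ latt E L then
            psi E n (b i) L (nextA M (b i).mass L A) k else 0) +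
          WF K (fun k n => if (fun j => (k j : ℤ)) ∈ Λ then
            psi E n z L (nextA M z.mass L A) k else 0) := by
        rw [← WF_smul, ← WF_sum, ← WF_add, ← WF_add]
        refine WF_congr fun k n _ => ?_
        simp only [hmemb]
        by_cases hk : (fun j => (k j : ℤ)) ∈ Λ
        · simp only [hk, if_true, true_and]
          rw [psi_node (K := K) hE hK0 L p s z b l A k n hM0]
          ring
        · simp only [hk, if_false, false_and, mul_zero, Finset.sum_const_zero, add_zero]
      rw [h1]
      refine add_mem (add_mem (Subalgebra.smul_mem _ ?_ _) (sum_mem fun i _ => ?_)) ?_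
      · rw [WF_wall hE hK0 L A hM0]
        exact Subalgebra.smul_mem _ (wall_mem hE hΛ hK L A M hgood) _
      · exact (hcb i).psi_mem hE hΛb hK (ray_next (hbM i) hgood)
      · exact hcz.psi_mem hE hΛ hK (ray_next hzM hgood)
    · -- a bad vertex
      obtain ⟨hAj, hlj, hpL, hs1, habz, habb⟩ := hF2 j hj
      have hF : F = {j} := Finset.eq_singleton_iff_unique_mem.2
        ⟨hj, fun i hi => Finset.card_le_one.1 hF1 i hi j hj⟩
      have hgood : ∀ i, i ≠ j → (E : ℚ) + L i ≠ -s₀ * (A i + M * L i) := fun i hi =>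
        hF3 i (by rw [hF]; simpa using hi)
      subst hs1
      have hLj : 0 < L j := by
        rcases Nat.eq_zero_or_pos (L j) with h | h
        · rw [h, mul_zero] at hpL
          omega
        · exact h
      have hMeq' : M = z.mass + p * (b 0).mass := by
        rw [hMeq, Fin.sum_univ_one]
      have hlU : ∀ i, l i ≤ Function.update L j 0 i := by
        intro i
        by_cases hi : i = j
        · subst hi
          rw [Function.update_self, hlj]
        · rw [Function.update_of_ne hi]
          exact hlL i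
      obtain ⟨cz, hgz, hbz, htz⟩ := hcz
      obtain ⟨cb, hgb, hbb, htb⟩ := hcb 0
      have hbz' := hbz j hLj habz
      have hbb' := hbb j hLj (habb 0)
      refine ⟨some (Function.update L j 0, 0), ⟨hlU, fun i => ?_⟩, fun i hi hab => ?_, ?_⟩
      · by_cases hi : i = j
        · subst hi
          rw [Function.update_self, hAj]
          have hE' : (0 : ℚ) < E := by exact_mod_cast hE
          simp only [Nat.cast_zero, mul_zero, add_zero]
          exact hE'.ne'
        · rw [Function.update_of_ne hi]
          exact hgood i hi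
      · have hij : i ≠ j := by
          rintro rfl
          omega
        refine ⟨?_, Nat.zero_le _⟩
        rw [Function.update_of_ne hij]
        exact hab
      · have h1 : WF K (fun k n => if (fun j => (k j : ℤ)) ∈ Λ then
          psi E n (.node L p 1 z b) l A k -
            edge E K l (some (Function.update L j 0, 0)) A M k n else 0) =
          WF K (fun k n => if (fun i => (k i : ℤ)) ∈ Λ then
            mergeF E K p j L A cb cz z.mass (b 0).mass k n else 0) +
          WF K (fun k n => if (fun j => (k j : ℤ)) ∈ Λ ⊓ latt E L then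
            psi E n (b 0) L (nextA M (b 0).mass L A) k -
              edge E K L cb (nextA M (b 0).mass L A) (b 0).mass k n else 0) +
          WF K (fun k n => if (fun j => (k j : ℤ)) ∈ Λ then
            psi E n z L (nextA M z.mass L A) k -
              edge E K L cz (nextA M z.mass L A) z.mass k n else 0) := by
          rw [← WF_add, ← WF_add]
          refine WF_congr fun k n hkb => ?_
          simp only [hmemb]
          by_cases hk : (fun j => (k j : ℤ)) ∈ Λ
          · simp only [hk, if_true, true_and]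
            rw [psi_node (K := K) hE hK0 L p 1 z b l A k n hM0, Fin.sum_univ_one]
            -- the edge
            have h2 : edge E K l (some (L, 1)) A M k n =
                edge E K l (some (Function.update L j 0, 0)) A M k n +
                ∑ h ∈ Finset.Icc 1 (K * (n + 1)),
                  if dk (Function.update L j 0) k < E * h ∧ E * h < dk L k ∧
                    dk A k + (z.mass + p * (b 0).mass) * (E * h) = E * n then
                    w1 (K * (n + 1)) h else 0 := by
              unfold edge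
              rw [← Finset.sum_add_distrib]
              refine Finset.sum_congr rfl fun h _ => ?_
              rw [← hMeq']
              have h3 : dk l k ≤ dk (Function.update L j 0) k := dk_le hlU k
              have h4 : dk (Function.update L j 0) k < dk L k := by
                rw [dk_split L k j]
                have := Nat.mul_pos hLj (hkb j).1
                omega
              simp only [CutOK, add_zero]
              by_cases heq : dk A k + M * (E * h) = E * n
              · simp only [heq, and_true]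
                by_cases h5 : E * h ≤ dk (Function.update L j 0) k
                · have c1 : ¬ (dk (Function.update L j 0) k < E * h ∧ E * h < dk L k) := by
                    omega
                  rw [if_neg c1, add_zero]
                  by_cases h6 : dk l k < E * h
                  · rw [if_pos ⟨h6, by omega⟩, if_pos ⟨h6, h5⟩]
                  · rw [if_neg (fun hc => h6 hc.1), if_neg (fun hc => h6 hc.1)]
                · rw [if_neg (fun hc : dk l k < E * h ∧ E * h ≤ dk (Function.update L j 0) k =>
                    h5 hc.2), zero_add]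
                  by_cases h6 : E * h < dk L k
                  · rw [if_pos ⟨by omega, by omega⟩, if_pos ⟨by omega, h6⟩]
                  · rw [if_neg (fun hc => h6 (by omega)), if_neg (fun hc => h6 hc.2)]
              · simp only [heq, and_false, if_false, add_zero]
            rw [h2]
            unfold mergeF wall
            rw [← hMeq']
            by_cases hd : E ∣ dk L k
            · simp only [hd, if_true, true_and]
              have h5 : (1 - (1 + ((1 : ℕ) : Mot)) * Lp 1) *
                  (if dk A k + M * dk L k = E * n then Lp (dk L k / E) else 0) =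
                  if dk A k + M * dk L k = E * n then
                    Lp (dk L k / E) - 2 * Lp (dk L k / E + 1) else 0 := by
                split_ifs
                · rw [Lp_succ (dk L k / E)]
                  push_cast
                  ring
                · rw [mul_zero]
              rw [h5]
              ring
            · simp only [hd, if_false, false_and, mul_zero, add_zero]
              ring
          · simp only [hk, if_false, false_and, add_zero]
        rw [h1]
        refine add_mem (add_mem ?_ htb) htz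
        rw [WF_merge hE hEK hpL hAj z.mass (hbm 0) (hΛ1 j hlj) hΛp (CutGE_of_GoodCut hgb) hbb'
          (CutGE_of_GoodCut hgz) hbz']
        rw [hMeq'] at hgb hgz hgood
        exact merged_mem hE hpL hΛ hK A hAj cb cz z.mass (b 0).mass hgb hbb' hgz hbz' hgood

/-- **The pole side for trees.** The zeta function of a valid tree is regular at every number which
is not a candidate. -/
theorem ZT_mem_regularAt {E : ℕ} (hE : 0 < E) {s₀ : ℚ} {K : ℕ} (hK : -s₀ < K) (hEK : E ≤ K)
    (t : QT d) (A : Fin d → ℕ) (hV : Valid E t ⊤ 0) (hG : Good E s₀ t 0 A)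
    (hax : ∀ j, (E : ℚ) ≠ -s₀ * A j) : ZT E K t A ∈ regularAt s₀ := by
  classical
  have hc := claim_of_valid hE hK hEK t ⊤ 0 A (fun _ => AddSubgroup.mem_top _)
    (fun _ _ => AddSubgroup.mem_top _) (fun _ _ => Nat.zero_le _) hV hG
  have h1 := hc.psi_mem hE (fun _ => AddSubgroup.mem_top _) hK (fun j => by
    simp only [Pi.zero_apply, Nat.cast_zero, add_zero, mul_zero]
    exact hax j)
  have h2 : ZT E K t A = WF K (fun k n =>
      if (fun j => (k j : ℤ)) ∈ (⊤ : AddSubgroup (Fin d → ℤ)) then psi E n t 0 A k else 0) := by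
    ext n
    simp only [ZT, WF, PowerSeries.coeff_mk, AddSubgroup.mem_top, if_true]
  rw [h2]
  exact h1

end PT

end MPb07157
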