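import Pool.Agent.Lib.MP_b07157_agO.PG3
import Pool.Agent.Lib.MP_b07157_agO.PTMain

/-!
# Quasi-ordinary germs: the pole side
-/

noncomputable section

namespace MPb07157

namespace QO

variable {d r : ℕ} {F : MvPowerSeries (Fin (d + 1)) ℂ} {E : ℕ} {N0 : Fin d → ℕ}
  {ζ : Fin r → PS d} {m : Fin r → ℕ} {L : Fin r → Fin r → Fin d → ℕ}

/-- **The poles of the zeta function of a quasi-ordinary germ.** -/
theorem pole_qo (h : IsQO F E N0 ζ m L) {s₀ : ℚ} (hs : s₀ < 0) (hn : NoCand E N0 m L s₀) :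
    ZQ F ∈ regularAt s₀ :=
  pole_qo_of (fun hE _ _ hK hEK t A _ hV hG hax => PT.ZT_mem_regularAt hE hK hEK t A hV hG hax)
    h hs hn

end QO

end MPb07157
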