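import Pool.Agent.Lib.MP_b07157_agS.SMain
import Pool.Agent.Lib.MP_b07157_agM.MU
import Pool.Agent.Lib.MP_b07157_agM.StrHom
import Pool.Agent.Lib.MP_b07157_agM.Arr
import Pool.Agent.Lib.MP_b07157_agV.T1

/-!
# Quasi-ordinary germs: definitions
-/

noncomputable section

namespace MPb07157

open MvPowerSeries

namespace QO

variable {d r : ℕ}

/-- The substitution `x_k ↦ t_k ^ E`, `z ↦ z`; the last variable is `z`. -/
def tsub (d E : ℕ) : Fin (d + 1) → MvPowerSeries (Fin (d + 1)) ℂ :=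
  Fin.lastCases (X (Fin.last d)) (fun k => X k.castSucc ^ E)

/-- The embedding of `ℂ[[t]]` in `ℂ[[t, z]]`. -/
def emb (a : MvPowerSeries (Fin d) ℂ) : MvPowerSeries (Fin (d + 1)) ℂ :=
  MvPowerSeries.subst (fun k : Fin d => (X k.castSucc : MvPowerSeries (Fin (d + 1)) ℂ)) a

/-- `F` is quasi-ordinary: `F(t^E, z) = U(t, z) t^(E N0) ∏ (z - ζ_i(t))^(m_i)` with a unit `U`, and
`ζ_i - ζ_j` is the monomial `t^(L_ij)` times a unit for `i ≠ j`. -/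
structure IsQO (F : MvPowerSeries (Fin (d + 1)) ℂ) (E : ℕ) (N0 : Fin d → ℕ)
    (ζ : Fin r → MvPowerSeries (Fin d) ℂ) (m : Fin r → ℕ) (L : Fin r → Fin r → Fin d → ℕ) :
    Prop where
  hE : 0 < E
  hm : ∀ i, 0 < m i
  h0 : ∀ i, constantCoeff (ζ i) = 0
  hL : ∀ i j, i ≠ j → ∃ u : MvPowerSeries (Fin d) ℂ, constantCoeff u ≠ 0 ∧
    ζ i - ζ j = (∏ k, X k ^ L i j k) * u
  hF : ∃ U : MvPowerSeries (Fin (d + 1)) ℂ, constantCoeff U ≠ 0 ∧
    MvPowerSeries.subst (tsub d E) F =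
      U * (∏ k : Fin d, X k.castSucc ^ (E * N0 k)) * ∏ i, (X (Fin.last d) - emb (ζ i)) ^ m i

/-- `b(s) F^s = P(s) F^(s+1)` with formal coefficients. -/
def IsB (F : MvPowerSeries (Fin (d + 1)) ℂ) (b : Polynomial ℂ) : Prop :=
  InPs F 1 (b.map (MvPowerSeries.C (σ := Fin (d + 1)) (R := ℂ)))

/-! ### Numerical data in the direction `j` -/

/-- The roots which agree with `ζ_i` below `t_j ^ Q`. -/
def clu (L : Fin r → Fin r → Fin d → ℕ) (i : Fin r) (j : Fin d) (Q : ℕ) : Finset (Fin r) :=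
  Finset.univ.filter fun l => l = i ∨ Q ≤ L i l j

/-- The total multiplicity of the cluster. -/
def mas (m : Fin r → ℕ) (L : Fin r → Fin r → Fin d → ℕ) (i : Fin r) (j : Fin d) (Q : ℕ) : ℕ :=
  ∑ l ∈ clu L i j Q, m l

/-- The order of `F` on `z = ζ_i + t_j ^ Q w` in `t_j`. -/
def NN (E : ℕ) (N0 : Fin d → ℕ) (m : Fin r → ℕ) (L : Fin r → Fin r → Fin d → ℕ) (i : Fin r)
    (j : Fin d) (Q : ℕ) : ℕ :=
  E * N0 j + ∑ l, m l * if l = i then Q else min (L i l j) Q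

/-- The direction `j` is bad for the vertex `(i, Q)`: the divisor of the transversal curve has only
two special points.  Here `E = p Q`, `ζ_i` has no contact between `0` and `Q` in the direction `j`,
`x_j` does not divide `F`, and there are at most `p + 1` different values at `Q`. -/
def Bad (E : ℕ) (N0 : Fin d → ℕ) (L : Fin r → Fin r → Fin d → ℕ) (i : Fin r) (j : Fin d)
    (Q : ℕ) : Prop :=
  N0 j = 0 ∧ (∀ l, l ≠ i → L i l j = 0 ∨ Q ≤ L i l j) ∧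
    ∃ p : ℕ, E = p * Q ∧ ∀ S : Finset (Fin r), S ⊆ clu L i j Q →
      (∀ l ∈ S, ∀ l' ∈ S, l ≠ l' → L l l' j = Q) → S.card ≤ p + 1

/-- Two directions `j ≠ j'` of the same vertex `(i, Q)`, as in `z^2 - x_1 x_2`. -/
def Two (N0 : Fin d → ℕ) (L : Fin r → Fin r → Fin d → ℕ) (i : Fin r) (j j' : Fin d)
    (Q : ℕ) : Prop :=
  j ≠ j' ∧ N0 j = 0 ∧ N0 j' = 0 ∧
    (∀ l, l ≠ i → (L i l j = 0 ∧ L i l j' = 0) ∨ (Q ≤ L i l j ∧ Q ≤ L i l j')) ∧
    ∃ l, l ≠ i ∧ L i l j = Q ∧ L i l j' = Q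

/-- The number `s₀` is not one of the candidates of the quasi-ordinary germ. -/
structure NoCand (E : ℕ) (N0 : Fin d → ℕ) (m : Fin r → ℕ) (L : Fin r → Fin r → Fin d → ℕ)
    (s₀ : ℚ) : Prop where
  one : s₀ ≠ -1
  leaf : ∀ i, s₀ * m i ≠ -1
  axis : ∀ j, s₀ * N0 j ≠ -1
  node : ∀ i j Q l, l ≠ i → L i l j = Q → 0 < Q → ¬ Bad E N0 L i j Q →
    s₀ * NN E N0 m L i j Q ≠ -((E : ℚ) + Q)
  two : ∀ i j j' Q, 0 < Q → Two N0 L i j j' Q → s₀ * (mas m L i j Q * Q : ℕ) ≠ -((E : ℚ) + Q)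

end QO

end MPb07157
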