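import Pool.Agent.Lib.MP_b07157_agO.MQ
import Pool.Agent.Lib.MP_b07157_agO.PG3
import Pool.Agent.Lib.MP_b07157_agO.PTMain

/-!
# The strong monodromy conjecture for quasi-ordinary germs
-/

noncomputable section

namespace MPb07157

open MvPolynomial

namespace QO

/-- **The pole side.** -/
theorem pole_qo {d r : ℕ} {F : MvPowerSeries (Fin (d + 1)) ℂ} {E : ℕ} {N0 : Fin d → ℕ}
    {ζ : Fin r → MvPowerSeries (Fin d) ℂ} {m : Fin r → ℕ} {L : Fin r → Fin r → Fin d → ℕ}
    (h : IsQO F E N0 ζ m L) {s₀ : ℚ} (hs : s₀ < 0) (hn : NoCand E N0 m L s₀) :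
    ZQ F ∈ regularAt s₀ :=
  pole_qo_of (fun hE _ _ hK hEK t A _ hV hG hax => PT.ZT_mem_regularAt hE hK hEK t A hV hG hax)
    h hs hn

/-- **The strong monodromy conjecture, local version**, for quasi-ordinary germs: all
Bernstein–Sato polynomials vanish at the negative poles of `Z_{f,0}`. -/
theorem smcLoc_quasiOrd {d : ℕ} {f : MvPolynomial (Fin (d + 1)) ℂ} (hf : f ≠ 0)
    (h0 : coeff 0 f = 0) (h : QuasiOrd f) : SmcLoc f :=
  smcLoc_of_pole (fun h _ hs hn => pole_qo h hs hn) hf h0 h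

/-- **The strong monodromy conjecture, local version**, for quasi-ordinary germs. -/
theorem smc_quasiOrd {d : ℕ} {f : MvPolynomial (Fin (d + 1)) ℂ} (hf : f ≠ 0)
    (h0 : coeff 0 f = 0) (h : QuasiOrd f) (s₀ : ℚ) (hs : s₀ < 0)
    (hp : IsPole (Zmot0 f) s₀) : IsLocalBernsteinSatoRoot f s₀ :=
  (roots_of_form fun b hb => smcLoc_quasiOrd hf h0 h s₀ hs hp b hb).2

end QO

end MPb07157
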