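import Pool.Agent.Lib.MP_b07157_agO.RDef
import Pool.Agent.Lib.MP_b07157_agR.Two

/-!
# Quasi-ordinary germs: the residue lemmas
-/

noncomputable section

namespace MPb07157

namespace QO

variable {d : ℕ}

namespace RAaux

open ARL

/-- The rows. -/
def rows (d : ℕ) : Fin (d + 1) → Fin d ⊕ Unit := Fin.lastCases (Sum.inr ()) (fun k => Sum.inl k)

theorem rows_last : rows d (Fin.last d) = Sum.inr () := Fin.lastCases_last

theorem rows_castSucc (k : Fin d) : rows d k.castSucc = Sum.inl k := Fin.lastCases_castSucc _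

theorem arcv_last (E : ℕ) (Λ : Fin d → ℕ) (φ₀ : MvPowerSeries (Fin d) ℂ) :
    arcv E Λ φ₀ (Fin.last d) = MvPowerSeries.map (algebraMap ℂ (RatFunc ℂ)) φ₀ +
      MvPowerSeries.monomial (expo Λ) (RatFunc.X : RatFunc ℂ) := Fin.lastCases_last

theorem arcv_castSucc (E : ℕ) (Λ : Fin d → ℕ) (φ₀ : MvPowerSeries (Fin d) ℂ) (k : Fin d) :
    arcv E Λ φ₀ k.castSucc = MvPowerSeries.monomial (Finsupp.single k E) 1 := by
  have h : arcv E Λ φ₀ k.castSucc = MvPowerSeries.X k ^ E := Fin.lastCases_castSucc _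
  rw [h, MvPowerSeries.X_pow_eq]

theorem expo_apply (Λ : Fin d → ℕ) (k : Fin d) : expo Λ k = Λ k := rfl

theorem constantCoeff_arcv {E : ℕ} (hE : 0 < E) {φ₀ : MvPowerSeries (Fin d) ℂ}
    (h0 : MvPowerSeries.constantCoeff φ₀ = 0) {Λ : Fin d → ℕ} {j : Fin d} (hΛ : 0 < Λ j)
    (i : Fin (d + 1)) : MvPowerSeries.constantCoeff (arcv E Λ φ₀ i) = 0 := by
  classical
  refine Fin.lastCases ?_ (fun k => ?_) i
  · rw [arcv_last, map_add, MvPowerSeries.constantCoeff_map, h0, map_zero, zero_add,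
      ← MvPowerSeries.coeff_zero_eq_constantCoeff_apply, MvPowerSeries.coeff_monomial, if_neg]
    intro h
    have h1 := DFunLike.congr_fun h j
    rw [expo_apply, Finsupp.zero_apply] at h1
    omega
  · rw [arcv_castSucc, ← MvPowerSeries.coeff_zero_eq_constantCoeff_apply,
      MvPowerSeries.coeff_monomial, if_neg]
    intro h
    have h1 := DFunLike.congr_fun h k
    rw [Finsupp.single_eq_same, Finsupp.zero_apply] at h1
    omega

theorem det_arcv {E : ℕ} {φ₀ : MvPowerSeries (Fin d) ℂ} {Λ : Fin d → ℕ}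
    {δ : Derivation ℂ (RatFunc ℂ) (RatFunc ℂ)} (hX : δ RatFunc.X = 1) :
    (jm (fun a => rowD (fun _ => δ) (rows d a)) (arcv E Λ φ₀)).det =
      MvPowerSeries.monomial (expo fun k => E + Λ k) 1 *
        (MvPowerSeries.C ((E : RatFunc ℂ) ^ d)) := by
  classical
  have hjm : ∀ a i, jm (fun a => rowD (fun _ => δ) (rows d a)) (arcv E Λ φ₀) a i =
      rowD (fun _ => δ) (rows d a) (arcv E Λ φ₀ i) := fun a i => rfl
  have htri : (jm (fun a => rowD (fun _ => δ) (rows d a)) (arcv E Λ φ₀)).BlockTriangular id := by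
    intro a i hai
    simp only [id] at hai
    rw [hjm]
    revert hai
    refine Fin.lastCases ?_ (fun k => ?_) i
    · intro hai
      exact absurd hai (not_lt.2 (Fin.le_last a))
    · refine Fin.lastCases ?_ (fun k' => ?_) a
      · intro _
        rw [rows_last, arcv_castSucc]
        exact cw_monomial δ _
      · intro hai
        rw [rows_castSucc, arcv_castSucc]
        have h1 : k' ≠ k := by
          rintro rfl
          exact lt_irrefl _ hai
        change lg k' (MvPowerSeries.monomial (Finsupp.single k E) 1) = 0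
        rw [lg_monomial, Finsupp.single_eq_of_ne h1, Nat.cast_zero, zero_mul]
  rw [Matrix.det_of_isUpperTriangular htri, Fin.prod_univ_castSucc]
  have h1 : ∀ k : Fin d, jm (fun a => rowD (fun _ => δ) (rows d a)) (arcv E Λ φ₀) k.castSucc
      k.castSucc = (E : MvPowerSeries (Fin d) (RatFunc ℂ)) *
        MvPowerSeries.monomial (Finsupp.single k E) 1 := by
    intro k
    rw [hjm, rows_castSucc, arcv_castSucc]
    change lg k (MvPowerSeries.monomial (Finsupp.single k E) 1) = _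
    rw [lg_monomial, Finsupp.single_eq_same]
  have h2 : jm (fun a => rowD (fun _ => δ) (rows d a)) (arcv E Λ φ₀) (Fin.last d) (Fin.last d) =
      MvPowerSeries.monomial (expo Λ) 1 := by
    rw [hjm, rows_last, arcv_last]
    change cw δ (_ + _) = _
    rw [map_add]
    have h3 : cw δ (MvPowerSeries.map (algebraMap ℂ (RatFunc ℂ)) φ₀) = 0 := by
      ext v
      rw [coeff_cw, MvPowerSeries.coeff_map, Derivation.map_algebraMap, map_zero]
    have h4 : cw δ (MvPowerSeries.monomial (expo Λ) (RatFunc.X : RatFunc ℂ)) =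
        MvPowerSeries.monomial (expo Λ) 1 := by
      ext v
      rw [coeff_cw, MvPowerSeries.coeff_monomial, MvPowerSeries.coeff_monomial]
      split_ifs with h
      · exact hX
      · exact map_zero δ
    rw [h3, h4, zero_add]
  rw [Finset.prod_congr rfl fun k _ => h1 k, h2, Finset.prod_mul_distrib, Finset.prod_const,
    prod_monomial, Finset.card_univ, Fintype.card_fin, map_pow, map_natCast]
  have h5 : (expo fun k => E + Λ k) = ∑ k : Fin d, Finsupp.single k E + expo Λ := by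
    ext k
    rw [expo_apply, Finsupp.add_apply, expo_apply, Finsupp.finsetSum_apply,
      Finset.sum_eq_single k]
    · rw [Finsupp.single_eq_same]
    · intro k' _ hk'
      exact Finsupp.single_eq_of_ne hk'.symm
    · intro h
      exact absurd (Finset.mem_univ k) h
  have h6 := MvPowerSeries.monomial_mul_monomial (∑ k : Fin d, Finsupp.single k E) (expo Λ)
    (1 : RatFunc ℂ) 1
  rw [one_mul] at h6
  rw [h5, ← h6]
  ring

/-- The exponents of the coordinates. -/
def mex (d E : ℕ) : Fin (d + 1) → Fin d →₀ ℕ := Fin.lastCases 0 (fun k => Finsupp.single k E)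

theorem mex_castSucc (E : ℕ) (k : Fin d) : mex d E k.castSucc = Finsupp.single k E :=
  Fin.lastCases_castSucc _

/-- The twists. -/
def lex (E : ℕ) (Λ γ : Fin d → ℕ) (s : ℂ) : Fin (d + 1) → ℂ :=
  Fin.lastCases 0 (fun k => -((E : ℂ) + Λ k + s * γ k) / E)

theorem lex_castSucc (E : ℕ) (Λ γ : Fin d → ℕ) (s : ℂ) (k : Fin d) :
    lex E Λ γ s k.castSucc = -((E : ℂ) + Λ k + s * γ k) / E := Fin.lastCases_castSucc _

/-- The set of twisted coordinates. -/
def monS (S : Finset (Fin d)) : Finset (Fin (d + 1)) := S.map Fin.castSuccEmb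

theorem mem_monS {S : Finset (Fin d)} {i : Fin (d + 1)} :
    i ∈ monS S ↔ ∃ k ∈ S, k.castSucc = i := by
  unfold monS
  rw [Finset.mem_map]
  rfl

theorem twist_sum {E : ℕ} (hE : 0 < E) (Λ γ : Fin d → ℕ) (s : ℂ) (S : Finset (Fin d))
    (k : Fin d) : ∑ i ∈ monS S, lex E Λ γ s i * mex d E i k =
      if k ∈ S then -((E : ℂ) + Λ k + s * γ k) else 0 := by
  classical
  unfold monS
  rw [Finset.sum_map]
  have h1 : ∀ k' ∈ S, lex E Λ γ s (Fin.castSuccEmb k') * (mex d E (Fin.castSuccEmb k') k : ℕ) =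
      if k' = k then -((E : ℂ) + Λ k + s * γ k) else 0 := by
    intro k' _
    change lex E Λ γ s k'.castSucc * (mex d E k'.castSucc k : ℕ) = _
    rw [lex_castSucc, mex_castSucc]
    split_ifs with h
    · subst h
      have hE' : (E : ℂ) ≠ 0 := Nat.cast_ne_zero.2 hE.ne'
      rw [Finsupp.single_eq_same, div_mul_cancel₀ _ hE']
    · rw [Finsupp.single_eq_of_ne (Ne.symm h), Nat.cast_zero, mul_zero]
  rw [Finset.sum_congr rfl h1, Finset.sum_ite_eq']

theorem mex_of_notMem {E : ℕ} {S : Finset (Fin d)} {j : Fin d} (hj : j ∉ S) {i : Fin (d + 1)}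
    (hi : i ∈ monS S) : mex d E i j = 0 := by
  obtain ⟨k, hk, rfl⟩ := mem_monS.1 hi
  rw [mex_castSucc, Finsupp.single_eq_of_ne]
  rintro rfl
  exact hj hk

theorem delta_X {δ : Derivation ℂ (RatFunc ℂ) (RatFunc ℂ)}
    (hδ : ∀ P : Polynomial ℂ, δ (algebraMap (Polynomial ℂ) (RatFunc ℂ) P) =
      algebraMap (Polynomial ℂ) (RatFunc ℂ) (Polynomial.derivative P)) : δ RatFunc.X = 1 := by
  have := hδ Polynomial.X
  rwa [RatFunc.algebraMap_X, Polynomial.derivative_X, map_one] at this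

theorem solve {E : ℕ} (hE : 0 < E) {δ : Derivation ℂ (RatFunc ℂ) (RatFunc ℂ)}
    {φ : RatFunc ℂ} {s : ℂ} {c : RatFunc ℂ} (hc : algebraMap ℂ (RatFunc ℂ) s = -c)
    {r : RatFunc ℂ} (h : (E : RatFunc ℂ) ^ d =
      δ r + algebraMap ℂ (RatFunc ℂ) s * (φ⁻¹ * δ φ) * r) :
    δ (((E : ℂ) ^ d)⁻¹ • r) - c * (δ φ / φ) * (((E : ℂ) ^ d)⁻¹ • r) = 1 := by
  have hE' : ((E : ℂ) ^ d) ≠ 0 := pow_ne_zero _ (Nat.cast_ne_zero.2 hE.ne')
  rw [hc] at h
  rw [Derivation.map_smul, mul_smul_comm, ← smul_sub]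
  have h1 : δ r - c * (δ φ / φ) * r = ((E : ℂ) ^ d) • (1 : RatFunc ℂ) := by
    rw [Algebra.smul_def, map_pow, map_natCast, mul_one, h, div_eq_mul_inv]
    ring
  rw [h1, smul_smul, inv_mul_cancel₀ hE', one_smul]

end RAaux

open RAaux ARL in
/-- **Residue lemma, one direction.** -/
theorem res_one {F : MvPowerSeries (Fin (d + 1)) ℂ} {E : ℕ} (hE : 0 < E)
    {φ₀ : MvPowerSeries (Fin d) ℂ} (h0 : MvPowerSeries.constantCoeff φ₀ = 0)
    {Λ γ : Fin d → ℕ} {j : Fin d} (hΛ : 0 < Λ j) (hγ : 0 < γ j)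
    {δ : Derivation ℂ (RatFunc ℂ) (RatFunc ℂ)}
    (hδ : ∀ P : Polynomial ℂ, δ (algebraMap (Polynomial ℂ) (RatFunc ℂ) P) =
      algebraMap (Polynomial ℂ) (RatFunc ℂ) (Polynomial.derivative P))
    {φ : RatFunc ℂ} (hφ : φ ≠ 0) {F1 : MvPowerSeries (Fin d) (RatFunc ℂ)}
    (hF1 : MvPowerSeries.constantCoeff F1 = φ)
    (hF : MvPowerSeries.subst (arcv E Λ φ₀) F = MvPowerSeries.monomial (expo γ) 1 * F1)
    {b : Polynomial ℂ} (hb : IsB F b) (hb₀ : b.eval (-(((E : ℂ) + Λ j) / γ j)) ≠ 0) :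
    ∃ r : RatFunc ℂ, δ r - (((E : RatFunc ℂ) + Λ j) / γ j) * (δ φ / φ) * r = 1 := by
  classical
  have hX := delta_X hδ
  have hsub := MvPowerSeries.hasSubst_of_constantCoeff_zero (constantCoeff_arcv hE h0 hΛ)
  set θ : MvPowerSeries (Fin (d + 1)) ℂ →ₐ[ℂ] MvPowerSeries (Fin d) (RatFunc ℂ) :=
    MvPowerSeries.substAlgHom hsub with hθ
  have hθX : ∀ i, θ (MvPowerSeries.X i) = arcv E Λ φ₀ i := fun i =>
    MvPowerSeries.substAlgHom_X hsub i
  have hfun : (fun i => θ (MvPowerSeries.X i)) = arcv E Λ φ₀ := funext hθX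
  set s : ℂ := -(((E + Λ j : ℕ) : ℂ) / (γ j : ℕ)) with hs
  have hs' : s = -(((E : ℂ) + Λ j) / γ j) := by rw [hs]; push_cast; rfl
  have hγ' : (γ j : ℂ) ≠ 0 := Nat.cast_ne_zero.2 hγ.ne'
  have hj : j ∉ Finset.univ.erase j := Finset.notMem_erase j _
  obtain ⟨r, hr⟩ := residue_corner (R := RatFunc ℂ) (β := Unit) (rows d) (δ := fun _ => δ)
    (fun _ _ _ => rfl) (θ := θ) (fun i => by rw [hθX]; exact constantCoeff_arcv hE h0 hΛ i)
    (f := F) (N := expo γ) (F₁ := F1)
    (by rw [hθ, MvPowerSeries.coe_substAlgHom]; exact hF) (φ := Units.mk0 φ hφ)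
    (by rw [hF1, Units.val_mk0]) (ν := E + Λ j) (D := γ j) hγ (s := s) hs
    (Mon := monS (Finset.univ.erase j)) (M := mex d E)
    (fun i hi => by
      obtain ⟨k, _, rfl⟩ := mem_monS.1 hi
      rw [hθX, arcv_castSucc, mex_castSucc]) (l := lex E Λ γ s)
    (E := expo fun k => E + Λ k) (J' := MvPowerSeries.C ((E : RatFunc ℂ) ^ d))
    (by rw [hfun]; exact det_arcv hX)
    (fun k => by
      rw [twist_sum hE, expo_apply, expo_apply]
      by_cases hk : k = j
      · subst hk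
        rw [if_neg hj, hs']
        push_cast
        field_simp
        ring
      · rw [if_pos (Finset.mem_erase.2 ⟨hk, Finset.mem_univ k⟩)]
        push_cast
        ring) (j₀ := j) (by rw [expo_apply]; exact hγ) (fun i hi => mex_of_notMem hj hi) hb
    (by rw [hs']; exact hb₀)
  refine ⟨_, solve (d := d) hE (s := s) ?_ (r := r ()) ?_⟩
  · rw [hs', map_neg, map_div₀, map_add, map_natCast, map_natCast, map_natCast]
  · rw [MvPowerSeries.constantCoeff_C] at hr
    rw [hr]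
    simp

namespace RAaux

open ARL

theorem DB_arcv {E : ℕ} {φ₀ : MvPowerSeries (Fin d) ℂ} {Λ : Fin d → ℕ} {j : Fin d} {Q : ℕ}
    (hΛ : Λ j = Q) (i : Fin (d + 1)) : DB j Q 0 (arcv E Λ φ₀ i) := by
  classical
  refine Fin.lastCases ?_ (fun k => ?_) i
  · rw [arcv_last]
    refine DB.add ?_ ?_
    · intro v
      rw [MvPowerSeries.coeff_map]
      refine dg_mono ?_ (dg_algebraMap Q _)
      rw [add_zero]
      exact Int.natCast_nonneg _
    · intro v
      rw [MvPowerSeries.coeff_monomial]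
      split_ifs with h
      · rw [h, expo_apply, hΛ, add_zero]
        right
        rw [RatFunc.intDegree_X, mul_one]
      · exact (dg Q _).zero_mem
  · rw [arcv_castSucc]
    have := DB.monomial (j := j) (dg_one Q) (Finsupp.single k E)
    refine this.mono ?_
    have h1 : (0 : ℤ) ≤ ((Finsupp.single k E) j : ℕ) := Int.natCast_nonneg _
    linarith

theorem DB_cancel {γ : Fin d →₀ ℕ} {j : Fin d} {Q : ℕ} {m : ℤ} (hγ : (γ j : ℤ) = m)
    {F1 : MvPowerSeries (Fin d) (RatFunc ℂ)}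
    (h : DB j Q 0 (MvPowerSeries.monomial γ 1 * F1)) : DB j Q m F1 := by
  intro v
  have h1 := h (γ + v)
  rw [MvPowerSeries.coeff_add_monomial_mul, one_mul, Finsupp.add_apply] at h1
  refine dg_mono (le_of_eq ?_) h1
  push_cast
  rw [hγ]
  ring

end RAaux

open RAaux ARL in
/-- **Residue lemma, two directions.** -/
theorem res_two {F : MvPowerSeries (Fin (d + 1)) ℂ} {E : ℕ} (hE : 0 < E)
    {φ₀ : MvPowerSeries (Fin d) ℂ} (h0 : MvPowerSeries.constantCoeff φ₀ = 0)
    {Λ γ : Fin d → ℕ} {j j' : Fin d} (hjj : j ≠ j') {Q M : ℕ} (hQ : 0 < Q) (hM : 0 < M)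
    (hΛj : Λ j = Q) (hΛj' : Λ j' = Q) (hγj : γ j = M * Q) (hγj' : γ j' = M * Q)
    {δ : Derivation ℂ (RatFunc ℂ) (RatFunc ℂ)}
    (hδ : ∀ P : Polynomial ℂ, δ (algebraMap (Polynomial ℂ) (RatFunc ℂ) P) =
      algebraMap (Polynomial ℂ) (RatFunc ℂ) (Polynomial.derivative P))
    {P : Polynomial ℂ} (hP : P ≠ 0) (hPM : P.natDegree = M)
    {F1 : MvPowerSeries (Fin d) (RatFunc ℂ)}
    (hF1 : MvPowerSeries.constantCoeff F1 = algebraMap (Polynomial ℂ) (RatFunc ℂ) P)
    (hF : MvPowerSeries.subst (arcv E Λ φ₀) F = MvPowerSeries.monomial (expo γ) 1 * F1)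
    {b : Polynomial ℂ} (hb : IsB F b) (hb₀ : b.eval (-(((E : ℂ) + Q) / (M * Q : ℕ))) ≠ 0) :
    ∃ r : RatFunc ℂ, r.intDegree ≤ 1 ∧
      δ r - (((E : RatFunc ℂ) + Q) / (M * Q : ℕ)) *
        (δ (algebraMap (Polynomial ℂ) (RatFunc ℂ) P) / algebraMap (Polynomial ℂ) (RatFunc ℂ) P) *
        r = 1 := by
  classical
  have hX := delta_X hδ
  have hΛ : 0 < Λ j := by rw [hΛj]; exact hQ
  have hMQ : 0 < M * Q := Nat.mul_pos hM hQ
  have hφ : algebraMap (Polynomial ℂ) (RatFunc ℂ) P ≠ 0 := RatFunc.algebraMap_ne_zero hP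
  have hsub := MvPowerSeries.hasSubst_of_constantCoeff_zero (constantCoeff_arcv hE h0 hΛ)
  set s : ℂ := -(((E + Q : ℕ) : ℂ) / (M * Q : ℕ)) with hs
  have hs' : s = -(((E : ℂ) + Q) / (M * Q : ℕ)) := by rw [hs]; push_cast; rfl
  have hMQ' : ((M * Q : ℕ) : ℂ) ≠ 0 := Nat.cast_ne_zero.2 hMQ.ne'
  set S : Finset (Fin d) := (Finset.univ.erase j).erase j' with hS
  have hjS : j ∉ S := fun h => Finset.notMem_erase j _ (Finset.mem_of_mem_erase h)
  have hjS' : j' ∉ S := Finset.notMem_erase j' _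
  have hdeg : ((Units.mk0 _ hφ : (RatFunc ℂ)ˣ) : RatFunc ℂ).intDegree = M := by
    rw [Units.val_mk0, RatFunc.intDegree_polynomial, hPM]
  have hDB : ∀ j, Λ j = Q → γ j = M * Q →
      DB j Q (Q * ((Units.mk0 _ hφ : (RatFunc ℂ)ˣ) : RatFunc ℂ).intDegree) F1 := by
    intro j h1 h2
    refine DB_cancel (γ := expo γ) ?_ ?_
    · rw [expo_apply, h2, hdeg]
      push_cast
      ring
    · rw [← hF]
      exact DB.mv_subst hsub (DB_arcv h1) F
  obtain ⟨r, hrd, hr⟩ := residue_two (rows d) δ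
    (fun a a' => by
      refine Fin.lastCases ?_ (fun k => ?_) a
      · refine Fin.lastCases (fun _ _ => rfl) (fun k' => ?_) a'
        intro _ h
        rw [rows_castSucc] at h
        cases h
      · intro h
        rw [rows_castSucc] at h
        cases h)
    (Θ := arcv E Λ φ₀) (constantCoeff_arcv hE h0 hΛ)
    (f := F) (N := expo γ) (F₁ := F1) hF (φ := Units.mk0 _ hφ)
    (by rw [hF1, Units.val_mk0]) (ν := E + Q) (D := M * Q) hMQ (s := s) hs
    (Mon := monS S) (M := mex d E)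
    (fun i hi => by
      obtain ⟨k, _, rfl⟩ := mem_monS.1 hi
      rw [arcv_castSucc, mex_castSucc]) (l := lex E Λ γ s)
    (E := expo fun k => E + Λ k) (J' := MvPowerSeries.C ((E : RatFunc ℂ) ^ d))
    (det_arcv hX)
    (fun k => by
      rw [twist_sum hE, expo_apply, expo_apply]
      by_cases hk : k ∈ S
      · rw [if_pos hk]
        push_cast
        ring
      · have h1 : Λ k = Q ∧ γ k = M * Q := by
          by_cases hk' : k = j'
          · subst hk'
            exact ⟨hΛj', hγj'⟩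
          · by_cases hk'' : k = j
            · subst hk''
              exact ⟨hΛj, hγj⟩
            · exact absurd (Finset.mem_erase.2 ⟨hk', Finset.mem_erase.2
                ⟨hk'', Finset.mem_univ k⟩⟩) hk
        rw [if_neg hk, hs', h1.1, h1.2, neg_mul, div_mul_cancel₀ _ hMQ']
        push_cast
        ring) (j₀ := j) (j₁ := j') (Q := Q) (E₀ := E) (x₀ := j.castSucc) (x₁ := j'.castSucc)
    (fun h => hjj (Fin.castSucc_injective d h)) (arcv_castSucc _ _ _ _) (arcv_castSucc _ _ _ _)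
    (fun i => ⟨DB_arcv hΛj i, DB_arcv hΛj' i⟩) (hDB j hΛj hγj) (hDB j' hΛj' hγj')
    (by rw [expo_apply, hγj, hdeg]; push_cast; ring)
    (by rw [expo_apply, hγj', hdeg]; push_cast; ring)
    (by rw [expo_apply, hΛj]) (by rw [expo_apply, hΛj'])
    (by rw [expo_apply, hγj]; exact hMQ) (fun i hi => mex_of_notMem hjS hi)
    (fun i hi => mex_of_notMem hjS' hi) hb (by rw [hs']; exact hb₀)
  refine ⟨((E : ℂ) ^ d)⁻¹ • r, ?_, solve (d := d) hE (s := s) ?_ (r := r) ?_⟩
  · have hE' : ((E : ℂ) ^ d)⁻¹ ≠ 0 := inv_ne_zero (pow_ne_zero _ (Nat.cast_ne_zero.2 hE.ne'))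
    rcases mem_dg.1 hrd with h | h
    · rw [h, smul_zero, RatFunc.intDegree_zero]
      norm_num
    · by_cases hr0 : r = 0
      · rw [hr0, smul_zero, RatFunc.intDegree_zero]
        norm_num
      · rw [Algebra.smul_def, RatFunc.algebraMap_eq_C,
          RatFunc.intDegree_mul (by rwa [Ne, map_eq_zero]) hr0, RatFunc.intDegree_C, zero_add]
        have hQ' : (0 : ℤ) < Q := by exact_mod_cast hQ
        nlinarith
  · rw [hs', map_neg, map_div₀, map_add, map_natCast, map_natCast, map_natCast]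
  · rw [MvPowerSeries.constantCoeff_C, Units.val_inv_eq_inv_val, Units.val_mk0] at hr
    exact hr

end QO

end MPb07157
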