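import Pool.Agent.Lib.MP_b07157_agO.RDef

/-!
# Quasi-ordinary germs: forms which are not exact
-/

noncomputable section

namespace MPb07157

namespace QO

namespace RB

open Polynomial

/-- The zeros and the degree of a polynomial solution. -/
theorem poly_deg {S : Finset ℂ} {ν : ℂ → ℕ} {s : ℚ} (hs : s < 0) (hν : ∀ c ∈ S, 0 < ν c)
    {P : ℂ[X]} (hE : (∏ c ∈ S, (X - C c)) * derivative P + C (s : ℂ) *
      (∑ c ∈ S, C (ν c : ℂ) * ∏ d ∈ S.erase c, (X - C d)) * P = ∏ c ∈ S, (X - C c)) :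
    P ≠ 0 ∧ (∀ c ∈ S, P.eval c = 0) ∧
      (P.natDegree ≤ 1 ∨ (P.natDegree : ℚ) = -(s * ∑ c ∈ S, (ν c : ℚ))) := by
  classical
  set T : ℂ[X] := ∏ c ∈ S, (X - C c) with hT
  set L : ℂ[X] := ∑ c ∈ S, C (ν c : ℂ) * ∏ d ∈ S.erase c, (X - C d) with hL
  have hTm : T.Monic := monic_prod_of_monic _ _ fun c _ => monic_X_sub_C c
  have hTd : T.natDegree = S.card := by
    rw [hT, natDegree_prod_of_monic _ _ fun c _ => monic_X_sub_C c]
    simp
  have hTc : ∀ c ∈ S, T.eval c = 0 := by
    intro c hc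
    rw [hT, eval_prod]
    exact Finset.prod_eq_zero hc (by simp)
  have hLc : ∀ c ∈ S, L.eval c ≠ 0 := by
    intro c hc
    rw [hL, eval_finsetSum, Finset.sum_eq_single c]
    · rw [eval_mul, eval_C, eval_prod]
      refine mul_ne_zero (by exact_mod_cast (hν c hc).ne') (Finset.prod_ne_zero_iff.2 fun d hd => ?_)
      simp only [eval_sub, eval_X, eval_C]
      exact sub_ne_zero.2 (Ne.symm (Finset.ne_of_mem_erase hd))
    · intro d hd hdc
      rw [eval_mul, eval_prod, Finset.prod_eq_zero (Finset.mem_erase.2 ⟨Ne.symm hdc, hc⟩) (by simp),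
        mul_zero]
    · intro h
      exact absurd hc h
  have hP0 : P ≠ 0 := by
    rintro rfl
    rw [derivative_zero, mul_zero, mul_zero, add_zero] at hE
    exact hTm.ne_zero hE.symm
  have hs0 : (s : ℂ) ≠ 0 := by exact_mod_cast hs.ne
  refine ⟨hP0, ?_, ?_⟩
  · intro c hc
    have h2 := congrArg (eval c) hE
    simp only [eval_add, eval_mul, eval_C, hTc c hc, zero_mul, zero_add] at h2
    exact (mul_eq_zero.1 h2).resolve_left (mul_ne_zero hs0 (hLc c hc))
  · by_cases hD : P.natDegree ≤ 1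
    · exact Or.inl hD
    right
    set D := P.natDegree with hDd
    have hE' : X * T * derivative P + C (s : ℂ) * (X * L) * P = X * T := by
      linear_combination X * hE
    have e1 : (X * T * derivative P).coeff ((S.card + 1) + (D - 1)) = D * P.coeff D := by
      rw [coeff_mul_add_eq_of_natDegree_le]
      · have h2 : (X * T).coeff (S.card + 1) = 1 := by
          rw [coeff_X_mul, ← hTd]
          exact hTm.coeff_natDegree
        rw [h2, one_mul, coeff_derivative, Nat.sub_add_cancel (by omega)]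
        have h3 : ((D - 1 : ℕ) : ℂ) + 1 = D := by
          rw [Nat.cast_sub (by omega)]; push_cast; ring
        rw [h3, mul_comm]
      · rw [natDegree_X_mul hTm.ne_zero, hTd]
      · exact natDegree_derivative_le P
    have hBd : ∀ c ∈ S, (X * ∏ d ∈ S.erase c, (X - C d) : ℂ[X]).natDegree = S.card ∧
        (X * ∏ d ∈ S.erase c, (X - C d) : ℂ[X]).coeff S.card = 1 := by
      intro c hc
      have hm : (∏ d ∈ S.erase c, (X - C d) : ℂ[X]).Monic :=
        monic_prod_of_monic _ _ fun c _ => monic_X_sub_C c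
      have hd : (X * ∏ d ∈ S.erase c, (X - C d) : ℂ[X]).natDegree = S.card := by
        rw [natDegree_X_mul hm.ne_zero, natDegree_prod_of_monic _ _ fun c _ => monic_X_sub_C c]
        simp only [natDegree_X_sub_C, Finset.sum_const, smul_eq_mul, mul_one]
        exact Finset.card_erase_add_one hc
      refine ⟨hd, ?_⟩
      have h2 := (monic_X.mul hm).coeff_natDegree
      rwa [hd] at h2
    have hXL : X * L = ∑ c ∈ S, C (ν c : ℂ) * (X * ∏ d ∈ S.erase c, (X - C d)) := by
      rw [hL, Finset.mul_sum]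
      exact Finset.sum_congr rfl fun c _ => by ring
    have hBdeg : (C (s : ℂ) * (X * L)).natDegree ≤ S.card := by
      rw [hXL]
      refine (natDegree_C_mul_le _ _).trans (natDegree_sum_le_of_forall_le _ _ fun c hc => ?_)
      exact (natDegree_C_mul_le _ _).trans (hBd c hc).1.le
    have hBco : (C (s : ℂ) * (X * L)).coeff S.card = ((s * ∑ c ∈ S, (ν c : ℚ) : ℚ) : ℂ) := by
      rw [coeff_C_mul, hXL, finsetSum_coeff]
      rw [Finset.sum_congr rfl fun c hc => by
        rw [coeff_C_mul, (hBd c hc).2, mul_one]]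
      push_cast
      ring
    have e2 : (C (s : ℂ) * (X * L) * P).coeff (S.card + D) =
        ((s * ∑ c ∈ S, (ν c : ℚ) : ℚ) : ℂ) * P.coeff D := by
      rw [coeff_mul_add_eq_of_natDegree_le hBdeg le_rfl, hBco]
    have e3 : (X * T).coeff (S.card + D) = 0 := by
      refine coeff_eq_zero_of_natDegree_lt ?_
      rw [natDegree_X_mul hTm.ne_zero, hTd]
      omega
    have e4 := congrArg (fun p => coeff p (S.card + D)) hE'
    simp only [coeff_add] at e4
    rw [show S.card + D = (S.card + 1) + (D - 1) by omega] at e4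
    rw [e1] at e4
    rw [show (S.card + 1) + (D - 1) = S.card + D by omega] at e4
    rw [e2, e3, ← add_mul] at e4
    have hPD : P.coeff D ≠ 0 := by
      rw [hDd, coeff_natDegree]
      exact leadingCoeff_ne_zero.2 hP0
    have e5 : ((D + s * ∑ c ∈ S, (ν c : ℚ) : ℚ) : ℂ) = 0 := by
      have := (mul_eq_zero.1 e4).resolve_right hPD
      push_cast at this ⊢
      exact this
    have e6 : (D + s * ∑ c ∈ S, (ν c : ℚ) : ℚ) = 0 := by exact_mod_cast e5
    linarith

/-- A rational solution is a polynomial. -/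
theorem poly_of_exact {δ : Derivation ℂ (RatFunc ℂ) (RatFunc ℂ)}
    (hδ : ∀ P : Polynomial ℂ, δ (algebraMap (Polynomial ℂ) (RatFunc ℂ) P) =
      algebraMap (Polynomial ℂ) (RatFunc ℂ) (Polynomial.derivative P))
    {g : Polynomial ℂ} (hg0 : g ≠ 0) {s : ℚ} (hs : s < 0) {r : RatFunc ℂ}
    (hr : δ r + (s : RatFunc ℂ) * (δ (algebraMap (Polynomial ℂ) (RatFunc ℂ) g) /
      algebraMap (Polynomial ℂ) (RatFunc ℂ) g) * r = 1) :
    ∃ P : Polynomial ℂ, r = algebraMap (Polynomial ℂ) (RatFunc ℂ) P ∧ P ≠ 0 ∧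
      (∀ c ∈ g.roots, P.eval c = 0) ∧
      (P.natDegree ≤ 1 ∨ (P.natDegree : ℚ) = -(s * g.natDegree)) := by
  classical
  set φ := algebraMap (Polynomial ℂ) (RatFunc ℂ) with hφ
  have hinj : Function.Injective φ := RatFunc.algebraMap_injective ℂ
  have hne : ∀ {p : Polynomial ℂ}, p ≠ 0 → φ p ≠ 0 := fun hp h =>
    hp ((map_eq_zero_iff _ hinj).1 h)
  set S : Finset ℂ := g.roots.toFinset with hS
  set ν : ℂ → ℕ := fun c => g.roots.count c with hν
  have hνpos : ∀ c ∈ S, 0 < ν c := by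
    intro c hc
    rw [hS, Multiset.mem_toFinset] at hc
    exact Multiset.count_pos.2 hc
  set T : Polynomial ℂ := ∏ c ∈ S, (Polynomial.X - Polynomial.C c) with hT
  set L : Polynomial ℂ := ∑ c ∈ S, Polynomial.C (ν c : ℂ) *
    ∏ d ∈ S.erase c, (Polynomial.X - Polynomial.C d) with hL
  have hgprod : g = Polynomial.C g.leadingCoeff *
      ∏ c ∈ S, (Polynomial.X - Polynomial.C c) ^ ν c := by
    have h1 := (IsAlgClosed.splits g).eq_prod_roots
    rw [← Finset.prod_multiset_map_count]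
    exact h1
  have hdeg : (g.natDegree : ℚ) = ∑ c ∈ S, (ν c : ℚ) := by
    rw [(IsAlgClosed.splits g).natDegree_eq_card_roots, ← Multiset.toFinset_sum_count_eq]
    push_cast
    rfl
  have hgd : T * derivative g = L * g := by
    have h1 := PC.mul_deriv_prod S ν
    rw [← hT, ← hL] at h1
    rw [hgprod, derivative_C_mul]
    linear_combination (C g.leadingCoeff) * h1
  have hfd : φ T * (δ (φ g) / φ g) = φ L := by
    rw [hδ, ← mul_div_assoc, ← map_mul, hgd, map_mul, mul_div_assoc, div_self (hne hg0), mul_one]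
  have hsφ : (s : RatFunc ℂ) = φ (Polynomial.C (s : ℂ)) := by
    have h5 : φ (Polynomial.C (s : ℂ)) = algebraMap ℂ (RatFunc ℂ) (s : ℂ) := rfl
    rw [h5, map_ratCast]
  have hred : φ T = φ T * δ r + φ (Polynomial.C (s : ℂ) * L) * r := by
    rw [map_mul, ← hsφ]
    linear_combination -(φ T) * hr + (s : RatFunc ℂ) * r * hfd
  set P := r.num with hP
  set Q := r.denom with hQ
  have hQ0 : Q ≠ 0 := r.denom_ne_zero
  have hPQ : φ P = r * φ Q := by
    rw [hP, hQ, hφ]
    exact ((div_eq_iff (hne r.denom_ne_zero)).1 r.num_div_denom)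
  have hdr : δ r * φ Q ^ 2 = φ (derivative P * Q - P * derivative Q) := by
    have h5 := congrArg δ hPQ
    rw [Derivation.leibniz, hδ, hδ, smul_eq_mul, smul_eq_mul] at h5
    rw [map_sub, map_mul, map_mul, h5, hPQ]
    ring
  have hE : T * (derivative P * Q - P * derivative Q) +
      (Polynomial.C (s : ℂ) * L) * P * Q = T * Q ^ 2 := by
    apply hinj
    rw [map_add, map_mul φ T, ← hdr, map_mul φ T (Q ^ 2), map_pow, hred,
      map_mul φ _ Q, map_mul φ _ P, hPQ, ← hred]
    linear_combination (-(φ Q ^ 2)) * hred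
  have hQd : Q.natDegree = 0 := by
    refine PC.natDegree_den _ _ P Q _ r.isCoprime_num_denom hQ0 hE ?_
    intro a ha k hk hak
    simp only [eval_mul, eval_C] at hak
    have haS : a ∈ S := by
      rw [hT, eval_prod] at ha
      obtain ⟨c, hc, hca⟩ := Finset.prod_eq_zero_iff.1 ha
      simp only [eval_sub, eval_X, eval_C] at hca
      rw [sub_eq_zero.1 hca]
      exact hc
    set T1 : Polynomial ℂ := ∏ d ∈ S.erase a, (Polynomial.X - Polynomial.C d) with hT1
    have hTT : T = (Polynomial.X - Polynomial.C a) * T1 := by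
      rw [hT, hT1, Finset.mul_prod_erase S (fun c => Polynomial.X - Polynomial.C c) haS]
    have hT1a : T1.eval a ≠ 0 := by
      rw [hT1, eval_prod]
      refine Finset.prod_ne_zero_iff.2 fun d hd => ?_
      simp only [eval_sub, eval_X, eval_C]
      exact sub_ne_zero.2 (Ne.symm (Finset.ne_of_mem_erase hd))
    have hdT : (derivative T).eval a = T1.eval a := by
      rw [hTT, derivative_mul, derivative_X_sub_C]
      simp
    have hLa : L.eval a = ν a * T1.eval a := by
      rw [hL, eval_finsetSum, Finset.sum_eq_single a]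
      · rw [eval_mul, eval_C]
      · intro d hd hda
        rw [eval_mul, eval_prod,
          Finset.prod_eq_zero (Finset.mem_erase.2 ⟨Ne.symm hda, haS⟩) (by simp), mul_zero]
      · intro h
        exact absurd haS h
    rw [hdT, hLa] at hak
    have h5 : (s : ℂ) * (ν a : ℂ) = (k : ℂ) := by
      apply mul_right_cancel₀ hT1a
      linear_combination hak
    have h6 : s * (ν a : ℚ) = k := by exact_mod_cast h5
    have h7 : (0 : ℚ) < k := by exact_mod_cast hk
    have h8 : (0 : ℚ) < ν a := by exact_mod_cast hνpos a haS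
    nlinarith
  have hQ1 : Q = 1 := eq_one_of_monic_natDegree_zero (RatFunc.monic_denom r) hQd
  have hrP : r = φ P := by
    rw [hPQ, hQ1, map_one, mul_one]
  rw [hQ1, derivative_one, mul_zero, sub_zero, mul_one, mul_one, one_pow, mul_one] at hE
  obtain ⟨h1, h2, h3⟩ := poly_deg hs hνpos hE
  refine ⟨P, hrP, h1, fun c hc => h2 c ?_, ?_⟩
  · rw [hS, Multiset.mem_toFinset]
    exact hc
  · rw [hdeg]
    exact h3

/-- The squarefree part divides the solution. -/
theorem sqfree_dvd {p B : ℕ} (hp : 0 < p) {R : Finset ℂ} (hR0 : (0 : ℂ) ∉ R) {μ : ℂ → ℕ}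
    (hμ : ∀ c ∈ R, 0 < μ c) {lam : ℂ} (hlam : lam ≠ 0) {P : ℂ[X]} (hP : P ≠ 0)
    (hroot : ∀ c ∈ (C lam * (X ^ B * ∏ c ∈ R, (X ^ p - C c) ^ μ c) : ℂ[X]).roots,
      P.eval c = 0) :
    (if B = 0 then 1 else X) * (∏ c ∈ R, (X ^ p - C c)) ∣ P := by
  classical
  have hm : ∀ c : ℂ, (X ^ p - C c : ℂ[X]).Monic := fun c => monic_X_pow_sub_C c hp.ne'
  have hg0 : (C lam * (X ^ B * ∏ c ∈ R, (X ^ p - C c) ^ μ c) : ℂ[X]) ≠ 0 :=
    mul_ne_zero (C_ne_zero.2 hlam) (mul_ne_zero (pow_ne_zero _ X_ne_zero)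
      (Finset.prod_ne_zero_iff.2 fun c _ => pow_ne_zero _ (hm c).ne_zero))
  have hne : ∀ c ∈ R, c ≠ 0 := by
    rintro c hc rfl
    exact hR0 hc
  have hp' : (p : ℂ) ≠ 0 := by exact_mod_cast hp.ne'
  have hsep : (∏ c ∈ R, (X ^ p - C c) : ℂ[X]).Separable := by
    refine separable_prod' (fun x hx y hy hxy => ?_) fun c hc =>
      separable_X_pow_sub_C c hp' (hne c hc)
    refine ⟨C (y - x)⁻¹, -C (y - x)⁻¹, ?_⟩
    have h1 : (y - x)⁻¹ * (y - x) = 1 := inv_mul_cancel₀ (sub_ne_zero.2 (Ne.symm hxy))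
    have h2 : (C (y - x)⁻¹ : ℂ[X]) * (C y - C x) = 1 := by
      rw [← C_sub, ← C_mul, h1, C_1]
    linear_combination h2
  have hcop : IsCoprime (X : ℂ[X]) (∏ c ∈ R, (X ^ p - C c)) := by
    refine IsCoprime.prod_right fun c hc => ?_
    refine ⟨C c⁻¹ * X ^ (p - 1), -C c⁻¹, ?_⟩
    have h1 : (C c⁻¹ : ℂ[X]) * C c = 1 := by
      rw [← C_mul, inv_mul_cancel₀ (hne c hc), C_1]
    have h2 : (X ^ (p - 1) : ℂ[X]) * X = X ^ p := by
      rw [← pow_succ, Nat.sub_add_cancel hp]
    linear_combination h1 + C c⁻¹ * h2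
  have hsep2 : ((if B = 0 then 1 else X) * (∏ c ∈ R, (X ^ p - C c)) : ℂ[X]).Separable := by
    split_ifs with hB
    · rw [one_mul]
      exact hsep
    · exact Separable.mul separable_X hsep hcop
  refine (IsAlgClosed.splits _).dvd_of_roots_le_roots hsep2.ne_zero ?_
  rw [Multiset.le_iff_subset (Polynomial.nodup_roots hsep2)]
  intro c hc
  rw [mem_roots hP]
  apply hroot
  rw [mem_roots hg0]
  have h1 := (mem_roots hsep2.ne_zero).1 hc
  have h2 : ((if B = 0 then 1 else X : ℂ[X])).eval c = 0 ∨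
      (∏ c ∈ R, (X ^ p - C c) : ℂ[X]).eval c = 0 := by
    rw [← mul_eq_zero, ← eval_mul]
    exact h1
  rw [IsRoot.def, eval_mul, eval_mul]
  rcases h2 with h2 | h2
  · split_ifs at h2 with hB
    · rw [eval_one] at h2
      exact absurd h2 one_ne_zero
    · rw [eval_X] at h2
      rw [h2, eval_pow, eval_X, zero_pow hB, zero_mul, mul_zero]
  · rw [eval_prod] at h2
    obtain ⟨c', hc', h3⟩ := Finset.prod_eq_zero_iff.1 h2
    rw [eval_prod, Finset.prod_eq_zero hc' (by rw [eval_pow, h3, zero_pow (hμ c' hc').ne']),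
      mul_zero, mul_zero]

end RB

open Polynomial in
/-- The form `w^(sB) ∏ (w^p - c)^(s μ_c) dw` is not exact if it has at least three special points on
the quotient by the `p`-th roots of unity. -/
theorem not_exact_cyc {δ : Derivation ℂ (RatFunc ℂ) (RatFunc ℂ)}
    (hδ : ∀ P : Polynomial ℂ, δ (algebraMap (Polynomial ℂ) (RatFunc ℂ) P) =
      algebraMap (Polynomial ℂ) (RatFunc ℂ) (Polynomial.derivative P))
    {p B : ℕ} (hp : 0 < p) {R : Finset ℂ} (hR0 : (0 : ℂ) ∉ R) {μ : ℂ → ℕ}
    (hμ : ∀ c ∈ R, 0 < μ c) {s : ℚ} (hs : s < 0)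
    (hinf : -(((B + p * ∑ c ∈ R, μ c : ℕ) : ℚ) * s) - 1 ≤ p)
    (h3 : 3 ≤ R.card + (if p = 1 ∧ B = 0 then 0 else 1) +
      (if -(((B + p * ∑ c ∈ R, μ c : ℕ) : ℚ) * s) - 1 = p then 0 else 1))
    {lam : ℂ} (hlam : lam ≠ 0) {φ : RatFunc ℂ}
    (hφ : φ = algebraMap (Polynomial ℂ) (RatFunc ℂ)
      (Polynomial.C lam * (Polynomial.X ^ B *
        ∏ c ∈ R, (Polynomial.X ^ p - Polynomial.C c) ^ μ c))) :
    ¬ ∃ r : RatFunc ℂ, δ r + (s : RatFunc ℂ) * (δ φ / φ) * r = 1 := by
  classical
  rintro ⟨r, hr⟩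
  set g : ℂ[X] := C lam * (X ^ B * ∏ c ∈ R, (X ^ p - C c) ^ μ c) with hg
  have hm : ∀ c : ℂ, (X ^ p - C c : ℂ[X]).Monic := fun c => monic_X_pow_sub_C c hp.ne'
  have hg0 : g ≠ 0 :=
    mul_ne_zero (C_ne_zero.2 hlam) (mul_ne_zero (pow_ne_zero _ X_ne_zero)
      (Finset.prod_ne_zero_iff.2 fun c _ => pow_ne_zero _ (hm c).ne_zero))
  have hgd : g.natDegree = B + p * ∑ c ∈ R, μ c := by
    rw [hg, natDegree_C_mul hlam, natDegree_mul (pow_ne_zero _ X_ne_zero)
      (Finset.prod_ne_zero_iff.2 fun c _ => pow_ne_zero _ (hm c).ne_zero), natDegree_X_pow,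
      natDegree_prod_of_monic _ _ fun c _ => (hm c).pow _, Finset.mul_sum]
    congr 1
    refine Finset.sum_congr rfl fun c _ => ?_
    rw [(hm c).natDegree_pow, natDegree_X_pow_sub_C, mul_comm]
  rw [hφ] at hr
  obtain ⟨P, hrP, hP0, hroot, hD⟩ := RB.poly_of_exact hδ hg0 hs hr
  have hdvd := RB.sqfree_dvd hp hR0 hμ hlam hP0 hroot
  have hWd : ((if B = 0 then 1 else X) * (∏ c ∈ R, (X ^ p - C c)) : ℂ[X]).natDegree =
      (if B = 0 then 0 else 1) + R.card * p := by
    have h1 : (if B = 0 then 1 else X : ℂ[X]) ≠ 0 := by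
      split_ifs
      · exact one_ne_zero
      · exact X_ne_zero
    rw [natDegree_mul h1 (Finset.prod_ne_zero_iff.2 fun c _ => (hm c).ne_zero),
      natDegree_prod_of_monic _ _ fun c _ => hm c, Finset.sum_congr rfl fun c _ =>
        natDegree_X_pow_sub_C, Finset.sum_const, smul_eq_mul]
    congr 1
    split_ifs
    · exact natDegree_one
    · exact natDegree_X
  have hle := natDegree_le_of_dvd hdvd hP0
  rw [hWd] at hle
  rw [hgd] at hD
  set G : ℚ := ((B + p * ∑ c ∈ R, μ c : ℕ) : ℚ) with hG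
  have hD' : P.natDegree ≤ 1 ∨ (P.natDegree ≤ p + 1 ∧
      (P.natDegree = p + 1 → -(G * s) - 1 = p)) := by
    rcases hD with hD | hD
    · exact Or.inl hD
    · right
      have h4 : (P.natDegree : ℚ) ≤ (p + 1 : ℕ) := by
        rw [hD]
        push_cast
        linarith
      refine ⟨by exact_mod_cast h4, fun h5 => ?_⟩
      rw [h5] at hD
      push_cast at hD
      linarith
  rcases Nat.lt_or_ge 1 R.card with hc | hc
  · -- at least two values
    have h5 : 2 * p ≤ R.card * p := Nat.mul_le_mul_right p hc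
    rcases hD' with h6 | ⟨h6, h7⟩
    · omega
    · have h8 : p = 1 := by omega
      subst h8
      have h9 : R.card = 2 := by omega
      have h10 : B = 0 := by
        by_contra hB
        rw [if_neg hB] at hle
        omega
      rw [if_pos ⟨rfl, h10⟩, h9, if_pos (h7 (by omega))] at h3
      omega
  · have h4 : (if p = 1 ∧ B = 0 then 0 else 1) ≤ 1 := by split_ifs <;> omega
    have h5 : (if -(G * s) - 1 = p then 0 else 1) ≤ 1 := by split_ifs <;> omega
    have h6 : R.card = 1 := by omega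
    have h7 : ¬ (p = 1 ∧ B = 0) := by
      intro h
      rw [if_pos h] at h3
      omega
    have h8 : ¬ (-(G * s) - 1 = p) := by
      intro h
      rw [if_pos h] at h3
      omega
    rw [h6, one_mul] at hle
    have h9 : P.natDegree ≤ p := by
      rcases hD' with h | ⟨h, h'⟩
      · omega
      · by_contra hcon
        exact h8 (h' (by omega))
    have hB : B = 0 := by
      by_contra hB
      rw [if_neg hB] at hle
      omega
    have hp2 : 2 ≤ p := by
      rcases Nat.lt_or_ge p 2 with h | h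
      · exact absurd ⟨by omega, hB⟩ h7
      · exact h
    obtain ⟨c, hRc⟩ := Finset.card_eq_one.1 h6
    have hc0 : c ≠ 0 := by
      rintro rfl
      apply hR0
      rw [hRc]
      exact Finset.mem_singleton_self _
    rw [if_pos hB, one_mul, hRc, Finset.prod_singleton] at hdvd
    obtain ⟨q, hq⟩ := hdvd
    have hq0 : q ≠ 0 := by
      rintro rfl
      rw [mul_zero] at hq
      exact hP0 hq
    have hqd : q.natDegree = 0 := by
      have h10 := congrArg natDegree hq
      rw [natDegree_mul (hm c).ne_zero hq0, natDegree_X_pow_sub_C] at h10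
      rw [if_pos hB] at hle
      omega
    obtain ⟨a, ha⟩ := natDegree_eq_zero.1 hqd
    -- the polynomial equation
    have hge : g = C lam * (X ^ p - C c) ^ μ c := by
      rw [hg, hB, hRc, Finset.prod_singleton, pow_zero, one_mul]
    clear_value g
    have hinj : Function.Injective (algebraMap ℂ[X] (RatFunc ℂ)) :=
      RatFunc.algebraMap_injective ℂ
    have hφg : algebraMap ℂ[X] (RatFunc ℂ) g ≠ 0 := fun h =>
      hg0 ((map_eq_zero_iff _ hinj).1 h)
    have hsφ : (s : RatFunc ℂ) = algebraMap ℂ[X] (RatFunc ℂ) (C (s : ℂ)) := by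
      have h5 : algebraMap ℂ[X] (RatFunc ℂ) (C (s : ℂ)) = algebraMap ℂ (RatFunc ℂ) (s : ℂ) := rfl
      rw [h5, map_ratCast]
    have hpe : derivative P * g + C (s : ℂ) * derivative g * P = g := by
      apply hinj
      rw [map_add, map_mul, map_mul, map_mul, ← hδ, ← hδ, ← hsφ, ← hrP]
      have h10 : algebraMap ℂ[X] (RatFunc ℂ) g * (δ (algebraMap ℂ[X] (RatFunc ℂ) g) /
          algebraMap ℂ[X] (RatFunc ℂ) g) = δ (algebraMap ℂ[X] (RatFunc ℂ) g) := by
        rw [← mul_div_assoc, mul_div_assoc, mul_div_cancel₀ _ hφg]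
      linear_combination (algebraMap ℂ[X] (RatFunc ℂ) g) * hr - (s : RatFunc ℂ) * r * h10
    have hX : (X ^ (p - 1) : ℂ[X]).eval 0 = 0 := by
      rw [eval_pow, eval_X, zero_pow (by omega)]
    have hP' : (derivative P).eval 0 = 0 := by
      rw [hq, ← ha, derivative_mul, derivative_C, mul_zero, add_zero, derivative_sub,
        derivative_C, sub_zero, derivative_X_pow, eval_mul, eval_mul, hX, mul_zero, zero_mul]
    have hg' : (derivative g).eval 0 = 0 := by
      rw [hge, derivative_C_mul, derivative_pow, derivative_sub, derivative_C, sub_zero,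
        derivative_X_pow]
      simp only [eval_mul, hX, mul_zero]
    have hgv : g.eval 0 ≠ 0 := by
      rw [hge, eval_mul, eval_C, eval_pow, eval_sub, eval_pow, eval_X, eval_C,
        zero_pow hp.ne', zero_sub]
      exact mul_ne_zero hlam (pow_ne_zero _ (neg_ne_zero.2 hc0))
    have h11 := congrArg (eval 0) hpe
    rw [eval_add, eval_mul, eval_mul, eval_mul, hP', hg', zero_mul, mul_zero, zero_mul,
      add_zero] at h11
    exact hgv h11.symm

/-- There is no primitive with a pole of order at most one at infinity if there are at least two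
special points. -/
theorem not_exact_two {δ : Derivation ℂ (RatFunc ℂ) (RatFunc ℂ)}
    (hδ : ∀ P : Polynomial ℂ, δ (algebraMap (Polynomial ℂ) (RatFunc ℂ) P) =
      algebraMap (Polynomial ℂ) (RatFunc ℂ) (Polynomial.derivative P))
    {P : Polynomial ℂ} (hP : P ≠ 0) (h2 : 2 ≤ P.roots.toFinset.card) {s : ℚ} (hs : s < 0) :
    ¬ ∃ r : RatFunc ℂ, r.intDegree ≤ 1 ∧ δ r + (s : RatFunc ℂ) *
      (δ (algebraMap (Polynomial ℂ) (RatFunc ℂ) P) / algebraMap (Polynomial ℂ) (RatFunc ℂ) P) *
      r = 1 := by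
  rintro ⟨r, hr1, hr⟩
  obtain ⟨Q, hQ, hQ0, hQr, -⟩ := RB.poly_of_exact hδ hP hs hr
  rw [hQ, RatFunc.intDegree_polynomial] at hr1
  have h1 : Q.natDegree ≤ 1 := by exact_mod_cast hr1
  have h3 : P.roots.toFinset.card ≤ Q.natDegree := by
    refine Polynomial.card_le_degree_of_subset_roots (Multiset.subset_iff.2 fun c hc => ?_)
    rw [Polynomial.mem_roots hQ0]
    exact hQr c (Multiset.mem_toFinset.1 hc)
  omega

end QO

end MPb07157
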