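import Pool.Agent.Lib.MP_b07157_agO.QDef
import Pool.Agent.Lib.MP_b07157_agV.R3

/-!
# Quasi-ordinary germs, root side: definitions
-/

noncomputable section

namespace MPb07157

namespace QO

variable {d r : ℕ}

/-- The exponent `Λ` as a finitely supported function. -/
def expo (Λ : Fin d → ℕ) : Fin d →₀ ℕ := Finsupp.equivFunOnFinite.symm Λ

/-- The terms of `a` which are not divisible by `t ^ Λ`. -/
def trunc (Λ : Fin d → ℕ) (a : MvPowerSeries (Fin d) ℂ) : MvPowerSeries (Fin d) ℂ := fun v =>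
  if expo Λ ≤ v then 0 else MvPowerSeries.coeff v a

/-- The map `(t, w) ↦ (x, z) = (t^E, φ₀(t) + t^Λ w)` with values in `ℂ(w)[[t]]`. -/
def arcv (E : ℕ) (Λ : Fin d → ℕ) (φ₀ : MvPowerSeries (Fin d) ℂ) :
    Fin (d + 1) → MvPowerSeries (Fin d) (RatFunc ℂ) :=
  Fin.lastCases
    (MvPowerSeries.map (algebraMap ℂ (RatFunc ℂ)) φ₀ +
      MvPowerSeries.monomial (expo Λ) (RatFunc.X : RatFunc ℂ))
    (fun k => MvPowerSeries.X k ^ E)

/-- `Λ` is a contact exponent of the root `i` with another root. -/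
def IsV (L : Fin r → Fin r → Fin d → ℕ) (i : Fin r) (Λ : Fin d → ℕ) : Prop :=
  ∃ l, l ≠ i ∧ L i l = Λ

/-- The roots which agree with `ζ_i` up to `t ^ Λ`. -/
def vcl (L : Fin r → Fin r → Fin d → ℕ) (i : Fin r) (Λ : Fin d → ℕ) : Finset (Fin r) :=
  Finset.univ.filter fun l => l = i ∨ ∀ k, Λ k ≤ L i l k

/-- The exponent of `t_j` in `F` on `z = trunc ζ_i + t ^ Λ w`. -/
def gam (E : ℕ) (N0 : Fin d → ℕ) (m : Fin r → ℕ) (L : Fin r → Fin r → Fin d → ℕ) (i : Fin r)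
    (Λ : Fin d → ℕ) (j : Fin d) : ℕ :=
  E * N0 j + ∑ l, m l * if l = i then Λ j else min (L i l j) (Λ j)

/-- The coefficient of `t ^ Λ` in `ζ_l`. -/
def val (ζ : Fin r → MvPowerSeries (Fin d) ℂ) (Λ : Fin d → ℕ) (l : Fin r) : ℂ :=
  MvPowerSeries.coeff (expo Λ) (ζ l)

/-- The polynomial `∏ (w - c_l) ^ m_l`, over the cluster of `i` at `Λ`. -/
def vpoly (ζ : Fin r → MvPowerSeries (Fin d) ℂ) (m : Fin r → ℕ)
    (L : Fin r → Fin r → Fin d → ℕ) (i : Fin r) (Λ : Fin d → ℕ) : Polynomial ℂ :=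
  ∏ l ∈ vcl L i Λ, (Polynomial.X - Polynomial.C (val ζ Λ l)) ^ m l

/-- The vertex `(i, Λ)` fails in the direction `j`. -/
def VBad (E : ℕ) (N0 : Fin d → ℕ) (ζ : Fin r → MvPowerSeries (Fin d) ℂ)
    (L : Fin r → Fin r → Fin d → ℕ) (i : Fin r) (Λ : Fin d → ℕ) (j : Fin d) : Prop :=
  N0 j = 0 ∧ (∀ l, l ≠ i → L i l j = 0 ∨ ∀ k, Λ k ≤ L i l k) ∧
    ∃ p : ℕ, E = p * Λ j ∧ ((vcl L i Λ).image (val ζ Λ)).card ≤ p + 1

end QO

end MPb07157
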