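import Pool.Agent.Lib.MP_b07157_agO.RO

/-!
# Quasi-ordinary germs: the Galois action in one variable
-/

noncomputable section

namespace MPb07157

namespace QO

variable {d r : ℕ} {F : MvPowerSeries (Fin (d + 1)) ℂ} {E : ℕ} {N0 : Fin d → ℕ}
  {ζ : Fin r → MvPowerSeries (Fin d) ℂ} {m : Fin r → ℕ} {L : Fin r → Fin r → Fin d → ℕ}

/-- The substitution `t_j ↦ ε t_j`. -/
def rotj (j : Fin d) (ε : ℂ) (a : MvPowerSeries (Fin d) ℂ) : MvPowerSeries (Fin d) ℂ := fun v =>
  ε ^ v j * MvPowerSeries.coeff v a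

theorem rg_coeff_rotj (j : Fin d) (ε : ℂ) (a : MvPowerSeries (Fin d) ℂ) (v : Fin d →₀ ℕ) :
    MvPowerSeries.coeff v (rotj j ε a) = ε ^ v j * MvPowerSeries.coeff v a := rfl

theorem rg_ne_zero (h : IsQO F E N0 ζ m L) {ε : ℂ} (hε : ε ^ E = 1) : ε ≠ 0 := by
  rintro rfl
  rw [zero_pow h.hE.ne'] at hε
  exact zero_ne_one hε

theorem rg_rotj_inj {j : Fin d} {ε : ℂ} (h0 : ε ≠ 0) {a b : MvPowerSeries (Fin d) ℂ}
    (hab : rotj j ε a = rotj j ε b) : a = b := by
  refine MvPowerSeries.ext fun v => ?_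
  have h1 : MvPowerSeries.coeff v (rotj j ε a) = MvPowerSeries.coeff v (rotj j ε b) := by
    rw [hab]
  rw [rg_coeff_rotj, rg_coeff_rotj] at h1
  exact mul_left_cancel₀ (pow_ne_zero _ h0) h1

theorem rg_zeta_inj (h : IsQO F E N0 ζ m L) {i l : Fin r} (hil : ζ i = ζ l) : i = l := by
  by_contra hne
  apply (contact_coeff h hne).2
  rw [hil, sub_self]

theorem rg_prod_update {n : ℕ} (j : Fin n) (ε : ℂ) (v : Fin n →₀ ℕ) :
    (v.prod fun s k => Function.update (1 : Fin n → ℂ) j ε s ^ k) = ε ^ v j := by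
  classical
  rw [Finsupp.prod_fintype _ _ (fun s => pow_zero _), Finset.prod_eq_single j]
  · rw [Function.update_self]
  · intro s _ hs
    rw [Function.update_of_ne hs, Pi.one_apply, one_pow]
  · intro hj
    exact absurd (Finset.mem_univ j) hj

theorem rg_rotj_eq (j : Fin d) (ε : ℂ) (a : MvPowerSeries (Fin d) ℂ) :
    rotj j ε a = MvPowerSeries.rescale (Function.update (1 : Fin d → ℂ) j ε) a := by
  refine MvPowerSeries.ext fun v => ?_
  rw [rg_coeff_rotj, MvPowerSeries.coeff_rescale, rg_prod_update]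

theorem rg_rescale_X {n : ℕ} (a : Fin n → ℂ) (s : Fin n) :
    MvPowerSeries.rescale a (MvPowerSeries.X s : MvPowerSeries (Fin n) ℂ) =
      a s • MvPowerSeries.X s := by
  rw [MvPowerSeries.rescale_eq_subst, MvPowerSeries.subst_X (MvPowerSeries.HasSubst.smul_X a)]
  rfl

theorem rg_tsub_hs {E : ℕ} (hE : 0 < E) : MvPowerSeries.HasSubst (tsub d E) := by
  refine MvPowerSeries.hasSubst_of_constantCoeff_zero (fun s => ?_)
  refine Fin.lastCases ?_ (fun _ => ?_) s
  · simp [tsub]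
  · simp [tsub, hE.ne']

theorem rg_emb_hs : MvPowerSeries.HasSubst
    (fun k : Fin d => (MvPowerSeries.X k.castSucc : MvPowerSeries (Fin (d + 1)) ℂ)) :=
  MvPowerSeries.hasSubst_of_constantCoeff_zero (fun _ => MvPowerSeries.constantCoeff_X _)

theorem rg_rescale_tsub {E : ℕ} (hE : 0 < E) (j : Fin d) {ε : ℂ} (hε : ε ^ E = 1)
    (G : MvPowerSeries (Fin (d + 1)) ℂ) :
    MvPowerSeries.rescale (Function.update (1 : Fin (d + 1) → ℂ) j.castSucc ε)
      (MvPowerSeries.subst (tsub d E) G) = MvPowerSeries.subst (tsub d E) G := by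
  rw [MvPowerSeries.rescale_eq_subst, MvPowerSeries.subst_comp_subst_apply (rg_tsub_hs hE)
    (MvPowerSeries.HasSubst.smul_X _)]
  congr 1
  funext s
  rw [← MvPowerSeries.rescale_eq_subst]
  refine Fin.lastCases ?_ (fun k => ?_) s
  · rw [tsub, Fin.lastCases_last, rg_rescale_X, Function.update_of_ne (Fin.castSucc_ne_last j).symm,
      Pi.one_apply, one_smul]
  · rw [tsub, Fin.lastCases_castSucc, map_pow, rg_rescale_X, smul_pow]
    by_cases hk : k = j
    · rw [hk, Function.update_self, hε, one_smul]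
    · rw [Function.update_of_ne (fun hc => hk (Fin.castSucc_injective _ hc)), Pi.one_apply,
        one_pow, one_smul]

theorem rg_rescale_emb (j : Fin d) (ε : ℂ) (a : MvPowerSeries (Fin d) ℂ) :
    MvPowerSeries.rescale (Function.update (1 : Fin (d + 1) → ℂ) j.castSucc ε) (emb a) =
      emb (rotj j ε a) := by
  rw [rg_rotj_eq, emb, emb, MvPowerSeries.rescale_eq_subst, MvPowerSeries.rescale_eq_subst,
    MvPowerSeries.subst_comp_subst_apply rg_emb_hs (MvPowerSeries.HasSubst.smul_X _),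
    MvPowerSeries.subst_comp_subst_apply (MvPowerSeries.HasSubst.smul_X _) rg_emb_hs]
  congr 1
  funext k
  rw [← MvPowerSeries.rescale_eq_subst, rg_rescale_X]
  have h1 : (Function.update (1 : Fin d → ℂ) j ε • MvPowerSeries.X) k =
      (Function.update (1 : Fin d → ℂ) j ε k) • (MvPowerSeries.X k : MvPowerSeries (Fin d) ℂ) :=
    rfl
  rw [h1, MvPowerSeries.subst_smul rg_emb_hs, MvPowerSeries.subst_X rg_emb_hs]
  congr 1
  by_cases hk : k = j
  · rw [hk, Function.update_self, Function.update_self]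
  · rw [Function.update_of_ne hk, Function.update_of_ne
      (fun hc => hk (Fin.castSucc_injective _ hc)), Pi.one_apply, Pi.one_apply]

/-- The evaluation `z ↦ a`. -/
def rgev (a : MvPowerSeries (Fin d) ℂ) : Fin (d + 1) → MvPowerSeries (Fin d) ℂ :=
  Fin.lastCases a (fun k => MvPowerSeries.X k)

theorem rgev_hs {a : MvPowerSeries (Fin d) ℂ} (ha : MvPowerSeries.constantCoeff a = 0) :
    MvPowerSeries.HasSubst (rgev a) := by
  refine MvPowerSeries.hasSubst_of_constantCoeff_zero (fun s => ?_)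
  refine Fin.lastCases ?_ (fun _ => ?_) s
  · rw [rgev, Fin.lastCases_last, ha]
  · rw [rgev, Fin.lastCases_castSucc, MvPowerSeries.constantCoeff_X]

theorem rgev_emb {a : MvPowerSeries (Fin d) ℂ} (ha : MvPowerSeries.constantCoeff a = 0)
    (b : MvPowerSeries (Fin d) ℂ) :
    MvPowerSeries.substAlgHom (R := ℂ) (rgev_hs ha) (emb b) = b := by
  rw [MvPowerSeries.substAlgHom_apply, emb,
    MvPowerSeries.subst_comp_subst_apply rg_emb_hs (rgev_hs ha)]
  have h1 : (fun k : Fin d => MvPowerSeries.subst (rgev a)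
      (MvPowerSeries.X k.castSucc : MvPowerSeries (Fin (d + 1)) ℂ)) = MvPowerSeries.X := by
    funext k
    rw [MvPowerSeries.subst_X (rgev_hs ha), rgev, Fin.lastCases_castSucc]
  rw [h1, MvPowerSeries.subst_self, id]

theorem rgev_last {a : MvPowerSeries (Fin d) ℂ} (ha : MvPowerSeries.constantCoeff a = 0) :
    MvPowerSeries.substAlgHom (R := ℂ) (rgev_hs ha) (MvPowerSeries.X (Fin.last d)) = a := by
  rw [MvPowerSeries.substAlgHom_apply, MvPowerSeries.subst_X (rgev_hs ha), rgev,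
    Fin.lastCases_last]

theorem rg_factor_ne (b : MvPowerSeries (Fin d) ℂ) :
    (MvPowerSeries.X (Fin.last d) - emb b : MvPowerSeries (Fin (d + 1)) ℂ) ≠ 0 := by
  intro hc
  have h0 : MvPowerSeries.constantCoeff (0 : MvPowerSeries (Fin d) ℂ) = 0 := map_zero _
  have h1 : b = 0 := by
    have h2 := congrArg (MvPowerSeries.substAlgHom (R := ℂ) (rgev_hs h0)) hc
    rw [map_sub, rgev_last h0, rgev_emb h0, map_zero, zero_sub, neg_eq_zero] at h2
    exact h2
  have h3 : emb b = 0 := by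
    rw [h1, emb, ← MvPowerSeries.substAlgHom_apply rg_emb_hs, map_zero]
  rw [h3, sub_zero] at hc
  have h4 := congrArg (MvPowerSeries.coeff (Finsupp.single (Fin.last d) 1)) hc
  rw [MvPowerSeries.coeff_index_single_self_X, map_zero] at h4
  exact one_ne_zero h4

theorem rg_main (h : IsQO F E N0 ζ m L) (j : Fin d) {ε : ℂ} (hε : ε ^ E = 1) :
    ∃ U U' : MvPowerSeries (Fin (d + 1)) ℂ, IsUnit U ∧ IsUnit U' ∧
      U * ∏ i, (MvPowerSeries.X (Fin.last d) - emb (ζ i)) ^ m i =
        U' * ∏ i, (MvPowerSeries.X (Fin.last d) - emb (rotj j ε (ζ i))) ^ m i := by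
  obtain ⟨U, hU, hF⟩ := h.hF
  have hUu : IsUnit U := MvPowerSeries.isUnit_iff_constantCoeff.2 (isUnit_iff_ne_zero.2 hU)
  refine ⟨U, MvPowerSeries.rescale (Function.update (1 : Fin (d + 1) → ℂ) j.castSucc ε) U, hUu,
    hUu.map _, ?_⟩
  have hT : (∏ k : Fin d, (MvPowerSeries.X k.castSucc : MvPowerSeries (Fin (d + 1)) ℂ) ^
      (E * N0 k)) ≠ 0 := by
    rw [Finset.prod_ne_zero_iff]
    intro k _
    refine pow_ne_zero _ fun hc => ?_
    have h4 := congrArg (MvPowerSeries.coeff (Finsupp.single k.castSucc 1)) hc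
    rw [MvPowerSeries.coeff_index_single_self_X, map_zero] at h4
    exact one_ne_zero h4
  have h1 := congrArg (MvPowerSeries.rescale (Function.update (1 : Fin (d + 1) → ℂ)
    j.castSucc ε)) hF
  rw [rg_rescale_tsub h.hE j hε, map_mul, map_mul, map_prod, map_prod] at h1
  have h2 : (∏ k : Fin d, MvPowerSeries.rescale (Function.update (1 : Fin (d + 1) → ℂ)
      j.castSucc ε) ((MvPowerSeries.X k.castSucc : MvPowerSeries (Fin (d + 1)) ℂ) ^
      (E * N0 k))) = ∏ k : Fin d, (MvPowerSeries.X k.castSucc :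
        MvPowerSeries (Fin (d + 1)) ℂ) ^ (E * N0 k) := by
    refine Finset.prod_congr rfl fun k _ => ?_
    rw [map_pow, rg_rescale_X, smul_pow]
    by_cases hk : k = j
    · rw [hk, Function.update_self, pow_mul, hε, one_pow, one_smul]
    · rw [Function.update_of_ne (fun hc => hk (Fin.castSucc_injective _ hc)), Pi.one_apply,
        one_pow, one_smul]
  have h3 : (∏ i : Fin r, MvPowerSeries.rescale (Function.update (1 : Fin (d + 1) → ℂ)
      j.castSucc ε) ((MvPowerSeries.X (Fin.last d) - emb (ζ i)) ^ m i)) =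
      ∏ i, (MvPowerSeries.X (Fin.last d) - emb (rotj j ε (ζ i))) ^ m i := by
    refine Finset.prod_congr rfl fun i _ => ?_
    rw [map_pow, map_sub, rg_rescale_X, Function.update_of_ne (Fin.castSucc_ne_last j).symm,
      Pi.one_apply, one_smul, rg_rescale_emb]
  rw [h2, h3, hF] at h1
  refine mul_left_cancel₀ hT ?_
  linear_combination h1

theorem rg_const (h : IsQO F E N0 ζ m L) (j : Fin d) (ε : ℂ) (i : Fin r) :
    MvPowerSeries.constantCoeff (rotj j ε (ζ i)) = 0 := by
  have h1 : MvPowerSeries.coeff 0 (rotj j ε (ζ i)) = ε ^ (0 : Fin d →₀ ℕ) j *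
      MvPowerSeries.coeff 0 (ζ i) := rg_coeff_rotj _ _ _ _
  rw [MvPowerSeries.coeff_zero_eq_constantCoeff_apply,
    MvPowerSeries.coeff_zero_eq_constantCoeff_apply, h.h0 i, mul_zero] at h1
  exact h1

/-- The roots are permuted, with their multiplicities. -/
theorem exists_rot (h : IsQO F E N0 ζ m L) (j : Fin d) {ε : ℂ} (hε : ε ^ E = 1) (i : Fin r) :
    ∃ l, ζ l = rotj j ε (ζ i) ∧ m l = m i := by
  classical
  obtain ⟨U, U', hU, hU', he⟩ := rg_main h j hε
  have hε0 := rg_ne_zero h hε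
  have ha := rg_const h j ε i
  have hev : ∀ (x : Fin r → MvPowerSeries (Fin d) ℂ) (S : Finset (Fin r)),
      MvPowerSeries.substAlgHom (R := ℂ) (rgev_hs ha)
        (∏ i' ∈ S, (MvPowerSeries.X (Fin.last d) - emb (x i')) ^ m i') =
      ∏ i' ∈ S, (rotj j ε (ζ i) - x i') ^ m i' := by
    intro x S
    rw [map_prod]
    refine Finset.prod_congr rfl fun i' _ => ?_
    rw [map_pow, map_sub, rgev_last ha, rgev_emb ha]
  have hUe := (hU.map (MvPowerSeries.substAlgHom (R := ℂ) (rgev_hs ha))).ne_zero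
  have hUe' := (hU'.map (MvPowerSeries.substAlgHom (R := ℂ) (rgev_hs ha))).ne_zero
  obtain ⟨l, hl⟩ : ∃ l, ζ l = rotj j ε (ζ i) := by
    have h1 := congrArg (MvPowerSeries.substAlgHom (R := ℂ) (rgev_hs ha)) he
    rw [map_mul, map_mul, hev, hev] at h1
    have h2 : ∏ i', (rotj j ε (ζ i) - rotj j ε (ζ i')) ^ m i' = 0 :=
      Finset.prod_eq_zero (Finset.mem_univ i) (by rw [sub_self, zero_pow (h.hm i).ne'])
    rw [h2, mul_zero] at h1
    rcases mul_eq_zero.1 h1 with h3 | h3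
    · exact absurd h3 hUe
    · obtain ⟨l, _, hl⟩ := Finset.prod_eq_zero_iff.1 h3
      refine ⟨l, ?_⟩
      have := eq_zero_of_pow_eq_zero hl
      exact (sub_eq_zero.1 this).symm
  refine ⟨l, hl, ?_⟩
  rw [← Finset.mul_prod_erase _ _ (Finset.mem_univ l),
    ← Finset.mul_prod_erase Finset.univ
      (fun i' => (MvPowerSeries.X (Fin.last d) - emb (rotj j ε (ζ i'))) ^ m i')
      (Finset.mem_univ i), hl] at he
  have hR : ∏ i' ∈ Finset.univ.erase l, (rotj j ε (ζ i) - ζ i') ^ m i' ≠ 0 := by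
    rw [Finset.prod_ne_zero_iff]
    intro i' hi'
    refine pow_ne_zero _ (sub_ne_zero.2 fun hc => ?_)
    exact Finset.ne_of_mem_erase hi' (rg_zeta_inj h (hl.trans hc)).symm
  have hR' : ∏ i' ∈ Finset.univ.erase i, (rotj j ε (ζ i) - rotj j ε (ζ i')) ^ m i' ≠ 0 := by
    rw [Finset.prod_ne_zero_iff]
    intro i' hi'
    refine pow_ne_zero _ (sub_ne_zero.2 fun hc => ?_)
    exact Finset.ne_of_mem_erase hi' (rg_zeta_inj h (rg_rotj_inj hε0 hc)).symm
  have hq : (rotj j ε (ζ i) - rotj j ε (ζ i) : MvPowerSeries (Fin d) ℂ) = 0 := sub_self _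
  have hqe : MvPowerSeries.substAlgHom (R := ℂ) (rgev_hs ha)
      (MvPowerSeries.X (Fin.last d) - emb (rotj j ε (ζ i))) = 0 := by
    rw [map_sub, rgev_last ha, rgev_emb ha, sub_self]
  have hq0 := rg_factor_ne (rotj j ε (ζ i))
  rcases lt_trichotomy (m l) (m i) with hlt | heq | hlt
  · exfalso
    obtain ⟨c, hc⟩ := Nat.exists_eq_add_of_lt hlt
    have h5 : U * ∏ i' ∈ Finset.univ.erase l, (MvPowerSeries.X (Fin.last d) - emb (ζ i')) ^ m i' =
        U' * ((MvPowerSeries.X (Fin.last d) - emb (rotj j ε (ζ i))) ^ (c + 1) *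
          ∏ i' ∈ Finset.univ.erase i,
            (MvPowerSeries.X (Fin.last d) - emb (rotj j ε (ζ i'))) ^ m i') := by
      refine mul_left_cancel₀ (pow_ne_zero (m l) hq0) ?_
      rw [hc, show m l + c + 1 = m l + (c + 1) by ring, pow_add] at he
      linear_combination he
    have h6 := congrArg (MvPowerSeries.substAlgHom (R := ℂ) (rgev_hs ha)) h5
    rw [map_mul, map_mul, map_mul, map_pow, hqe, hev ζ, zero_pow (Nat.succ_ne_zero c), zero_mul,
      mul_zero] at h6
    rcases mul_eq_zero.1 h6 with h7 | h7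
    · exact hUe h7
    · exact hR h7
  · exact heq
  · exfalso
    obtain ⟨c, hc⟩ := Nat.exists_eq_add_of_lt hlt
    have h5 : U * ((MvPowerSeries.X (Fin.last d) - emb (rotj j ε (ζ i))) ^ (c + 1) *
        ∏ i' ∈ Finset.univ.erase l, (MvPowerSeries.X (Fin.last d) - emb (ζ i')) ^ m i') =
        U' * ∏ i' ∈ Finset.univ.erase i,
            (MvPowerSeries.X (Fin.last d) - emb (rotj j ε (ζ i'))) ^ m i' := by
      refine mul_left_cancel₀ (pow_ne_zero (m i) hq0) ?_
      rw [hc, show m i + c + 1 = m i + (c + 1) by ring, pow_add] at he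
      linear_combination he
    have h6 := congrArg (MvPowerSeries.substAlgHom (R := ℂ) (rgev_hs ha)) h5
    rw [map_mul, map_mul, map_mul, map_pow, hqe, hev (fun i' => rotj j ε (ζ i')),
      zero_pow (Nat.succ_ne_zero c), zero_mul, mul_zero] at h6
    rcases mul_eq_zero.1 h6.symm with h7 | h7
    · exact hUe' h7
    · exact hR' h7

theorem rot_contact (h : IsQO F E N0 ζ m L) {j : Fin d} {ε : ℂ} (hε : ε ^ E = 1)
    {i i' l l' : Fin r} (hl : ζ l = rotj j ε (ζ i)) (hl' : ζ l' = rotj j ε (ζ i'))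
    (hii : i ≠ i') : l ≠ l' ∧ L l l' = L i i' := by
  have hε0 := rg_ne_zero h hε
  have hne : l ≠ l' := by
    intro hc
    rw [← hc, hl] at hl'
    exact hii (rg_zeta_inj h (rg_rotj_inj hε0 hl'))
  refine ⟨hne, ?_⟩
  obtain ⟨a1, a2⟩ := contact_coeff h hne
  obtain ⟨b1, b2⟩ := contact_coeff h hii
  have key : ∀ v, MvPowerSeries.coeff v (ζ l) - MvPowerSeries.coeff v (ζ l') =
      ε ^ v j * (MvPowerSeries.coeff v (ζ i) - MvPowerSeries.coeff v (ζ i')) := by
    intro v
    rw [hl, hl', rg_coeff_rotj, rg_coeff_rotj]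
    ring
  apply expo_inj
  apply le_antisymm
  · apply a1
    rw [key]
    exact mul_ne_zero (pow_ne_zero _ hε0) b2
  · apply b1
    intro hc
    apply a2
    rw [key, hc, mul_zero]

/-- If `ζ_l` is the image of `ζ_i` and `l ≠ i`, then `ε^(L i l j) ≠ 1`, and the terms of `ζ_i` which
are not divisible by `t ^ (L i l)` are fixed. -/
theorem rot_self (h : IsQO F E N0 ζ m L) {j : Fin d} {ε : ℂ} (hε : ε ^ E = 1)
    {i l : Fin r} (hl : ζ l = rotj j ε (ζ i)) (hne : l ≠ i) :
    ε ^ L i l j ≠ 1 ∧ MvPowerSeries.coeff (expo (L i l)) (ζ i) ≠ 0 ∧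
      ∀ v : Fin d →₀ ℕ, ¬ expo (L i l) ≤ v → MvPowerSeries.coeff v (ζ i) ≠ 0 → ε ^ v j = 1 := by
  obtain ⟨a1, a2⟩ := contact_coeff h hne.symm
  have key : ∀ v, MvPowerSeries.coeff v (ζ i) - MvPowerSeries.coeff v (ζ l) =
      (1 - ε ^ v j) * MvPowerSeries.coeff v (ζ i) := by
    intro v
    rw [hl, rg_coeff_rotj]
    ring
  rw [key, expo_apply] at a2
  refine ⟨?_, ?_, ?_⟩
  · intro hc
    apply a2
    rw [hc, sub_self, zero_mul]
  · intro hc
    apply a2
    rw [hc, mul_zero]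
  · intro v hv hvc
    by_contra hc
    apply hv
    apply a1
    rw [key]
    exact mul_ne_zero (sub_ne_zero.2 (Ne.symm hc)) hvc

end QO

end MPb07157
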