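import Pool.Agent.Lib.MP_b07157_agO.RG

/-!
# Quasi-ordinary germs: the inequality at a vertex
-/

noncomputable section

namespace MPb07157

namespace QO

variable {d r : ℕ} {F : MvPowerSeries (Fin (d + 1)) ℂ} {E : ℕ} {N0 : Fin d → ℕ}
  {ζ : Fin r → MvPowerSeries (Fin d) ℂ} {m : Fin r → ℕ} {L : Fin r → Fin r → Fin d → ℕ}

/-- Two roots agree up to `t ^ Λ`. -/
def Near (L : Fin r → Fin r → Fin d → ℕ) (Λ : Fin d → ℕ) (a b : Fin r) : Prop :=
  b = a ∨ ∀ k, Λ k ≤ L a b k

theorem Near.symm (h : IsQO F E N0 ζ m L) {Λ : Fin d → ℕ} {a b : Fin r} (hab : Near L Λ a b) :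
    Near L Λ b a := by
  by_cases hne : b = a
  · exact Or.inl hne.symm
  · rcases hab with h1 | h1
    · exact absurd h1 hne
    · right
      rw [L_symm h hne]
      exact h1

theorem Near.trans (h : IsQO F E N0 ζ m L) {Λ : Fin d → ℕ} {a b c : Fin r}
    (hab : Near L Λ a b) (hbc : Near L Λ b c) : Near L Λ a c := by
  by_cases hca : c = a
  · exact Or.inl hca
  rcases hab with h1 | h1
  · subst h1; exact hbc
  rcases hbc with h2 | h2
  · subst h2; exact Or.inr h1
  by_cases hba : b = a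
  · subst hba; exact Or.inr h2
  by_cases hcb : c = b
  · subst hcb; exact Or.inr h1
  right
  have h3 : L b a = L a b := L_symm h hba
  rcases L_total h (i := b) (l := a) (l' := c) (fun e => hba e.symm) hcb with h4 | h4
  · have h5 := L_ultra h (i := b) (l := a) (l' := c) (fun e => hba e.symm) hcb
      (fun e => hca e.symm) h4
    intro k
    rw [h3] at h5
    exact (h1 k).trans (h5 k)
  · have h5 := L_ultra h (i := b) (l := c) (l' := a) hcb (fun e => hba e.symm) hca h4
    intro k
    rw [L_symm h (fun e => hca e.symm : a ≠ c)]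
    exact (h2 k).trans (h5 k)

theorem mem_vcl {i : Fin r} {Λ : Fin d → ℕ} {l : Fin r} : l ∈ vcl L i Λ ↔ Near L Λ i l := by
  unfold vcl Near
  simp

theorem zeta_inj (h : IsQO F E N0 ζ m L) {a b : Fin r} (hab : ζ a = ζ b) : a = b := by
  by_contra hne
  obtain ⟨u, hu, he⟩ := h.hL a b hne
  rw [hab, sub_self] at he
  have h1 : (∏ k, (MvPowerSeries.X k : MvPowerSeries (Fin d) ℂ) ^ L a b k) ≠ 0 := by
    apply Finset.prod_ne_zero_iff.mpr
    intro k _
    apply pow_ne_zero
    intro h2
    have h3 := congrArg (MvPowerSeries.coeff (Finsupp.single k 1)) h2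
    rw [MvPowerSeries.coeff_index_single_self_X] at h3
    simp at h3
  have h2 : u ≠ 0 := by
    rintro rfl
    exact hu (map_zero _)
  exact mul_ne_zero h1 h2 he.symm

theorem ri_prod_X_pow (a : Fin d → ℕ) :
    (∏ k, (MvPowerSeries.X k : MvPowerSeries (Fin d) ℂ) ^ a k) =
      MvPowerSeries.monomial (expo a) 1 := by
  classical
  have h1 : ∀ s : Finset (Fin d), (∏ k ∈ s, (MvPowerSeries.X k : MvPowerSeries (Fin d) ℂ) ^ a k) =
      MvPowerSeries.monomial (∑ k ∈ s, Finsupp.single k (a k)) 1 := by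
    intro s
    induction s using Finset.induction_on with
    | empty =>
      rw [Finset.prod_empty, Finset.sum_empty]
      rfl
    | insert k s hk ih =>
      rw [Finset.prod_insert hk, Finset.sum_insert hk, ih, MvPowerSeries.X_pow_eq,
        MvPowerSeries.monomial_mul_monomial, one_mul]
  have e : ∑ k, Finsupp.single k (a k) = expo a := by
    ext k
    simp [expo, Finsupp.finsetSum_apply, Finsupp.single_apply]
  rw [h1 Finset.univ, e]

theorem coeff_rotj (j : Fin d) (ε : ℂ) (a : MvPowerSeries (Fin d) ℂ) (v : Fin d →₀ ℕ) :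
    MvPowerSeries.coeff v (rotj j ε a) = ε ^ v j * MvPowerSeries.coeff v a := rfl

theorem rotj_mul (j : Fin d) (ε ε' : ℂ) (a : MvPowerSeries (Fin d) ℂ) :
    rotj j (ε * ε') a = rotj j ε (rotj j ε' a) := by
  ext v
  rw [coeff_rotj, coeff_rotj, coeff_rotj, mul_pow, mul_assoc]

theorem rotj_one (j : Fin d) (a : MvPowerSeries (Fin d) ℂ) : rotj j 1 a = a := by
  ext v
  rw [coeff_rotj, one_pow, one_mul]

/-- The permutations of the roots. -/
structure Rots (h : IsQO F E N0 ζ m L) (j : Fin d) (σ : ℂ → Fin r → Fin r) : Prop where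
  z : ∀ ε, ε ^ E = 1 → ∀ a, ζ (σ ε a) = rotj j ε (ζ a)
  m : ∀ ε, ε ^ E = 1 → ∀ a, m (σ ε a) = m a

theorem exists_rots (h : IsQO F E N0 ζ m L) (j : Fin d) : ∃ σ, Rots h j σ := by
  have h1 : ∀ (ε : ℂ) (a : Fin r), ∃ l, ε ^ E = 1 → (ζ l = rotj j ε (ζ a) ∧ m l = m a) := by
    intro ε a
    by_cases hε : ε ^ E = 1
    · obtain ⟨l, hl⟩ := exists_rot h j hε a
      exact ⟨l, fun _ => hl⟩
    · exact ⟨a, fun h2 => absurd h2 hε⟩
  choose σ hσ using h1
  exact ⟨σ, fun ε hε a => (hσ ε a hε).1, fun ε hε a => (hσ ε a hε).2⟩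

section rots

variable {h : IsQO F E N0 ζ m L} {j : Fin d} {σ : ℂ → Fin r → Fin r}

theorem Rots.mul (R : Rots h j σ) {ε ε' : ℂ} (h1 : ε ^ E = 1) (h2 : ε' ^ E = 1) (a : Fin r) :
    σ (ε * ε') a = σ ε (σ ε' a) := by
  apply zeta_inj h
  rw [R.z _ (by rw [mul_pow, h1, h2, one_mul]), R.z _ h1, R.z _ h2, rotj_mul]

theorem Rots.one (R : Rots h j σ) (a : Fin r) : σ 1 a = a := by
  apply zeta_inj h
  rw [R.z _ (one_pow E), rotj_one]

theorem Rots.inj (R : Rots h j σ) {ε : ℂ} (h1 : ε ^ E = 1) : Function.Injective (σ ε) := by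
  intro a b hab
  by_contra hne
  exact (rot_contact h h1 (R.z _ h1 a) (R.z _ h1 b) hne).1 hab

theorem Rots.near (R : Rots h j σ) {ε : ℂ} (h1 : ε ^ E = 1) {Λ : Fin d → ℕ} {a b : Fin r} :
    Near L Λ (σ ε a) (σ ε b) ↔ Near L Λ a b := by
  by_cases hab : b = a
  · subst hab
    exact ⟨fun _ => Or.inl rfl, fun _ => Or.inl rfl⟩
  · have h2 := rot_contact h h1 (R.z _ h1 a) (R.z _ h1 b) (fun e => hab e.symm)
    unfold Near
    rw [h2.2]
    have h3 : ¬ (σ ε b = σ ε a) := fun e => h2.1 e.symm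
    simp [hab, h3]

/-- The group of the rotations of the values at `Λ` which preserve the cluster. -/
def Zg (h : IsQO F E N0 ζ m L) {j : Fin d} {σ : ℂ → Fin r → Fin r} (R : Rots h j σ) (i : Fin r)
    (Λ : Fin d → ℕ) : Subgroup ℂˣ where
  carrier := {u | ∃ e : ℂˣ, (e : ℂ) ^ E = 1 ∧ Near L Λ i (σ e i) ∧ u = e ^ Λ j}
  mul_mem' := by
    rintro u v ⟨e, he1, he2, rfl⟩ ⟨e', he1', he2', rfl⟩
    refine ⟨e * e', ?_, ?_, ?_⟩
    · rw [Units.val_mul, mul_pow, he1, he1', one_mul]
    · rw [Units.val_mul, R.mul he1 he1']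
      exact he2.trans h ((R.near he1).mpr he2')
    · rw [mul_pow]
  one_mem' := ⟨1, by simp, by rw [Units.val_one, R.one]; exact Or.inl rfl, by simp⟩
  inv_mem' := by
    rintro u ⟨e, he1, he2, rfl⟩
    have hi1 : ((e⁻¹ : ℂˣ) : ℂ) ^ E = 1 := by
      rw [Units.val_inv_eq_inv_val, inv_pow, he1, inv_one]
    refine ⟨e⁻¹, hi1, ?_, ?_⟩
    · have h1 := (R.near hi1).mpr he2
      rw [← R.mul hi1 he1] at h1
      have h2 : ((e⁻¹ : ℂˣ) : ℂ) * (e : ℂ) = 1 := by
        rw [Units.val_inv_eq_inv_val]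
        exact inv_mul_cancel₀ e.ne_zero
      rw [h2, R.one] at h1
      exact h1.symm h
    · rw [inv_pow]

theorem Zg_le (R : Rots h j σ) (i : Fin r) (Λ : Fin d → ℕ) : Zg h R i Λ ≤ rootsOfUnity E ℂ := by
  rintro u ⟨e, he1, he2, rfl⟩
  rw [mem_rootsOfUnity]
  ext
  push_cast
  rw [← pow_mul, mul_comm, pow_mul, he1, one_pow]

theorem Zg_finite (R : Rots h j σ) (i : Fin r) (Λ : Fin d → ℕ) : Finite (Zg h R i Λ) := by
  have : NeZero E := ⟨h.hE.ne'⟩
  exact Finite.of_injective (Subgroup.inclusion (Zg_le R i Λ)) (Subgroup.inclusion_injective _)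

theorem Zg_eq (R : Rots h j σ) (i : Fin r) (Λ : Fin d → ℕ) :
    Zg h R i Λ = rootsOfUnity (Nat.card (Zg h R i Λ)) ℂ := by
  have := Zg_finite R i Λ
  have : NeZero (Nat.card (Zg h R i Λ)) := ⟨Nat.card_pos.ne'⟩
  apply Subgroup.eq_of_le_of_card_ge
  · intro u hu
    rw [mem_rootsOfUnity]
    have h1 : (⟨u, hu⟩ : Zg h R i Λ) ^ Nat.card (Zg h R i Λ) = 1 := pow_card_eq_one'
    exact congrArg Subtype.val h1
  · exact card_rootsOfUnity _ _

/-- Invariance of the polynomial of the vertex. -/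
theorem vpoly_comp (R : Rots h j σ) {i : Fin r} {Λ : Fin d → ℕ} {ω : ℂ}
    (hω : ω ^ Nat.card (Zg h R i Λ) = 1) :
    (vpoly ζ m L i Λ).comp (Polynomial.C ω * Polynomial.X) =
      Polynomial.C (ω ^ (vpoly ζ m L i Λ).natDegree) * vpoly ζ m L i Λ := by
  classical
  have := Zg_finite R i Λ
  have hp : Nat.card (Zg h R i Λ) ≠ 0 := Nat.card_pos.ne'
  have hω0 : ω ≠ 0 := by
    rintro rfl
    rw [zero_pow hp] at hω
    exact zero_ne_one hω
  have h1 : Units.mk0 ω hω0 ∈ Zg h R i Λ := by
    rw [Zg_eq R i Λ, mem_rootsOfUnity]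
    ext
    push_cast
    exact hω
  obtain ⟨e, he1, he2, he3⟩ := h1
  have he4 : ω = (e : ℂ) ^ Λ j := by
    have := congrArg Units.val he3
    simpa using this
  have hmap : ∀ l ∈ vcl L i Λ, σ e l ∈ vcl L i Λ := by
    intro l hl
    rw [mem_vcl] at hl ⊢
    exact he2.trans h ((R.near he1).mpr hl)
  have hval : ∀ l, val ζ Λ (σ e l) = ω * val ζ Λ l := by
    intro l
    unfold val
    rw [R.z _ he1, coeff_rotj, he4]
    rfl
  have hdeg : (vpoly ζ m L i Λ).natDegree = ∑ l ∈ vcl L i Λ, m l := by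
    unfold vpoly
    rw [Polynomial.natDegree_prod_of_monic _ _ (fun l _ => (Polynomial.monic_X_sub_C _).pow _)]
    apply Finset.sum_congr rfl
    intro l _
    rw [Polynomial.natDegree_pow, Polynomial.natDegree_X_sub_C, mul_one]
  rw [hdeg]
  unfold vpoly
  rw [Polynomial.prod_comp]
  have h2 : ∏ l ∈ vcl L i Λ, ((Polynomial.X - Polynomial.C (val ζ Λ l)) ^ m l).comp
      (Polynomial.C ω * Polynomial.X) =
      ∏ l ∈ vcl L i Λ, ((Polynomial.X - Polynomial.C (val ζ Λ (σ e l))) ^ m (σ e l)).comp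
      (Polynomial.C ω * Polynomial.X) := by
    symm
    apply Finset.prod_bij (fun l _ => σ e l) hmap
    · intro a _ b _ hab
      exact R.inj he1 hab
    · intro b hb
      have hsurj : Set.SurjOn (σ e) (vcl L i Λ) (vcl L i Λ) :=
        Finset.surjOn_of_injOn_of_card_le (σ e) hmap (fun a _ b _ hab => R.inj he1 hab) le_rfl
      obtain ⟨a, ha, hab⟩ := hsurj hb
      exact ⟨a, ha, hab⟩
    · intro a _
      rfl
  rw [h2]
  have h3 : ∀ l ∈ vcl L i Λ, ((Polynomial.X - Polynomial.C (val ζ Λ (σ e l))) ^ m (σ e l)).comp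
      (Polynomial.C ω * Polynomial.X) =
      Polynomial.C (ω ^ m l) * (Polynomial.X - Polynomial.C (val ζ Λ l)) ^ m l := by
    intro l _
    rw [R.m _ he1, hval, Polynomial.pow_comp, Polynomial.sub_comp, Polynomial.X_comp,
      Polynomial.C_comp, Polynomial.C_mul, ← mul_sub, mul_pow, Polynomial.C_pow]
  rw [Finset.prod_congr rfl h3, Finset.prod_mul_distrib, ← map_prod, Finset.prod_pow_eq_pow_sum]

end rots

theorem prim_dvd {E a : ℕ} (hE : 0 < E) (h : ∀ ω : ℂ, ω ^ E = 1 → ω ^ a = 1) : E ∣ a := by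
  have h1 := Complex.isPrimitiveRoot_exp E hE.ne'
  exact h1.dvd_of_pow_eq_one a (h _ h1.pow_eq_one)

/-- The numerical data of a vertex in the direction `j`. -/
theorem exists_p (h : IsQO F E N0 ζ m L) {i : Fin r} {Λ : Fin d → ℕ} (hΛ : IsV L i Λ)
    {j : Fin d} (hj : 0 < Λ j) : ∃ p A : ℕ, 0 < p ∧
      gam E N0 m L i Λ j = A + (∑ l ∈ vcl L i Λ, m l) * Λ j ∧
      ((A = 0 ∧ p * Λ j = E) ∨
        (∑ l ∈ vcl L i Λ, m l) * E < (p + 1) * A + p * ((∑ l ∈ vcl L i Λ, m l) * Λ j)) ∧
      (A = 0 → N0 j = 0 ∧ ∀ l, l ≠ i → L i l j = 0 ∨ ∀ k, Λ k ≤ L i l k) ∧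
      ∀ ω : ℂ, ω ^ p = 1 → (vpoly ζ m L i Λ).comp (Polynomial.C ω * Polynomial.X) =
        Polynomial.C (ω ^ (vpoly ζ m L i Λ).natDegree) * vpoly ζ m L i Λ := by
  classical
  obtain ⟨σ, R⟩ := exists_rots h j
  have := Zg_finite R i Λ
  set p := Nat.card (Zg h R i Λ) with hp
  have hp0 : 0 < p := Nat.card_pos
  set M := ∑ l ∈ vcl L i Λ, m l with hM
  have hi : i ∈ vcl L i Λ := mem_vcl.mpr (Or.inl rfl)
  have hM0 : 0 < M := Finset.sum_pos (fun l _ => h.hm l) ⟨i, hi⟩
  set O : Finset (Fin r) := Finset.univ.filter (fun l => l ∉ vcl L i Λ) with hO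
  set A := E * N0 j + ∑ l ∈ O, m l * L i l j with hA
  obtain ⟨l1, hl1, hl1e⟩ := hΛ
  -- the elements outside the cluster
  have hout : ∀ l ∈ O, l ≠ i ∧ ∀ k, L i l k ≤ Λ k := by
    intro l hl
    rw [hO, Finset.mem_filter, mem_vcl] at hl
    have hli : l ≠ i := by
      rintro rfl
      exact hl.2 (Or.inl rfl)
    refine ⟨hli, ?_⟩
    rcases L_total h hli hl1 with h2 | h2
    · rw [hl1e] at h2; exact h2
    · rw [hl1e] at h2
      exact absurd (Or.inr h2) hl.2
  have hgam : gam E N0 m L i Λ j = A + M * Λ j := by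
    unfold gam
    have h1 : ∑ l, m l * (if l = i then Λ j else min (L i l j) (Λ j)) =
        ∑ l ∈ vcl L i Λ, m l * Λ j + ∑ l ∈ O, m l * L i l j := by
      rw [← Finset.sum_filter_add_sum_filter_not Finset.univ (fun l => l ∈ vcl L i Λ)]
      congr 1
      · rw [Finset.filter_mem_eq_inter, Finset.univ_inter]
        apply Finset.sum_congr rfl
        intro l hl
        split_ifs with h2
        · rfl
        · rw [mem_vcl] at hl
          rcases hl with h3 | h3
          · exact absurd h3 h2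
          · rw [min_eq_right (h3 j)]
      · apply Finset.sum_congr rfl
        intro l hl
        obtain ⟨h2, h3⟩ := hout l hl
        rw [if_neg h2, min_eq_left (h3 j)]
    rw [h1, ← Finset.sum_mul, ← hM, hA]
    ring
  refine ⟨p, A, hp0, hgam, ?_, ?_, fun ω hω => vpoly_comp R hω⟩
  swap
  · intro hA0
    have h1 : E * N0 j = 0 := by omega
    have h2 : ∑ l ∈ O, m l * L i l j = 0 := by omega
    refine ⟨(Nat.mul_eq_zero.mp h1).resolve_left h.hE.ne', fun l hl => ?_⟩
    by_cases hlv : l ∈ vcl L i Λ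
    · right
      rcases mem_vcl.mp hlv with h3 | h3
      · exact absurd h3 hl
      · exact h3
    · left
      have h3 := (Finset.sum_eq_zero_iff.mp h2) l (by rw [hO, Finset.mem_filter]; exact ⟨Finset.mem_univ _, hlv⟩)
      exact (Nat.mul_eq_zero.mp h3).resolve_left (h.hm l).ne'
  by_cases hall : ∀ ε : ℂ, ε ^ E = 1 → Near L Λ i (σ ε i)
  · -- all rotations preserve the cluster
    have h1 : E ∣ Λ j * p := by
      apply prim_dvd h.hE
      intro ω hω
      have hω0 : ω ≠ 0 := by
        rintro rfl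
        rw [zero_pow h.hE.ne'] at hω
        exact zero_ne_one hω
      have h2 : (Units.mk0 ω hω0) ^ Λ j ∈ Zg h R i Λ :=
        ⟨Units.mk0 ω hω0, by simpa using hω, by simpa using hall ω hω, rfl⟩
      rw [Zg_eq R i Λ, mem_rootsOfUnity] at h2
      have h3 := congrArg Units.val h2
      push_cast at h3
      rw [pow_mul]
      simpa using h3
    have h2 : E ≤ Λ j * p := Nat.le_of_dvd (Nat.mul_pos hj hp0) h1
    have h3 : M * E ≤ p * (M * Λ j) := by
      calc M * E ≤ M * (Λ j * p) := Nat.mul_le_mul_left _ h2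
        _ = p * (M * Λ j) := by ring
    rcases Nat.eq_zero_or_pos A with hA0 | hA0
    · rcases Nat.lt_or_ge E (Λ j * p) with h4 | h4
      · right
        have h5 : M * E < M * (Λ j * p) := Nat.mul_lt_mul_of_pos_left h4 hM0
        calc M * E < M * (Λ j * p) := h5
          _ = p * (M * Λ j) := by ring
          _ ≤ (p + 1) * A + p * (M * Λ j) := Nat.le_add_left _ _
      · left
        refine ⟨hA0, ?_⟩
        rw [mul_comm]
        exact le_antisymm h4 h2
    · right
      have h4 : 0 < (p + 1) * A := Nat.mul_pos (Nat.succ_pos p) hA0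
      omega
  · -- some rotation moves the cluster
    right
    push Not at hall
    obtain ⟨ε1, hε1, hn1⟩ := hall
    -- a moved root with minimal contact
    set S : Finset (Fin r) := Finset.univ.filter (fun l => ¬ Near L Λ i l ∧
      ∃ ε : ℂ, ε ^ E = 1 ∧ l = σ ε i) with hS
    have hSne : S.Nonempty := ⟨σ ε1 i, by
      rw [hS, Finset.mem_filter]
      exact ⟨Finset.mem_univ _, hn1, ε1, hε1, rfl⟩⟩
    obtain ⟨l0, hl0, hmin⟩ := Finset.exists_min_image S (fun l => ∑ k, L i l k) hSne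
    rw [hS, Finset.mem_filter] at hl0
    obtain ⟨-, hl0n, ε0, hε0, hl0e⟩ := hl0
    have hl0i : l0 ≠ i := by
      rintro rfl
      exact hl0n (Or.inl rfl)
    set b := L i l0 with hb
    have hbmin : ∀ ε : ℂ, ε ^ E = 1 → σ ε i ≠ i → ∀ k, b k ≤ L i (σ ε i) k := by
      intro ε hε hne
      rcases L_total h hl0i hne with h2 | h2
      · exact h2
      · by_cases hnear : Near L Λ i (σ ε i)
        · exfalso
          rcases hnear with h3 | h3
          · exact hne h3
          · exact hl0n (Or.inr (fun k => (h3 k).trans (h2 k)))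
        · have h3 : ∑ k, b k ≤ ∑ k, L i (σ ε i) k := hmin (σ ε i) (by
            rw [hS, Finset.mem_filter]
            exact ⟨Finset.mem_univ _, hnear, ε, hε, rfl⟩)
          intro k
          by_contra hlt
          push Not at hlt
          have h4 : ∑ k, L i (σ ε i) k < ∑ k, b k :=
            Finset.sum_lt_sum (fun k _ => h2 k) ⟨k, Finset.mem_univ _, hlt⟩
          omega
    obtain ⟨hrs1, hrs2, -⟩ := rot_self h hε0 (i := i) (l := l0)
      (by rw [hl0e]; exact R.z _ hε0 i) hl0i
    rw [← hb] at hrs1 hrs2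
    -- exact contact
    have hexact : ∀ ε : ℂ, ε ^ E = 1 → ε ^ b j ≠ 1 → σ ε i ≠ i ∧ L i (σ ε i) = b := by
      intro ε hε hbj
      have hco : MvPowerSeries.coeff (expo b) (ζ (σ ε i) - ζ i) ≠ 0 := by
        rw [map_sub, R.z _ hε, coeff_rotj]
        have h3 : ε ^ (expo b) j * MvPowerSeries.coeff (expo b) (ζ i) -
            MvPowerSeries.coeff (expo b) (ζ i) =
            (ε ^ b j - 1) * MvPowerSeries.coeff (expo b) (ζ i) := by
          rw [sub_mul, one_mul]
          rfl
        rw [h3]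
        exact mul_ne_zero (sub_ne_zero.mpr hbj) hrs2
      have hne : σ ε i ≠ i := by
        intro h3
        rw [h3, sub_self, map_zero] at hco
        exact hco rfl
      refine ⟨hne, ?_⟩
      obtain ⟨u, hu, hLu⟩ := h.hL (σ ε i) i hne
      rw [hLu, L_symm h hne] at hco
      have hle : ∀ k, L i (σ ε i) k ≤ b k := by
        rw [ri_prod_X_pow, MvPowerSeries.coeff_monomial_mul] at hco
        split_ifs at hco with h5
        · intro k
          have := h5 k
          simpa [expo] using this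
        · exact absurd rfl hco
      funext k
      exact le_antisymm (hle k) (hbmin ε hε hne k)
    have hbj0 : 0 < b j := by
      by_contra h3
      have : b j = 0 := by omega
      rw [this, pow_zero] at hrs1
      exact hrs1 rfl
    -- a primitive root
    obtain ⟨w, hw⟩ : ∃ w : ℂ, IsPrimitiveRoot w E := ⟨_, Complex.isPrimitiveRoot_exp E h.hE.ne'⟩
    set n := E / Nat.gcd E (b j) with hn
    have hg0 : 0 < Nat.gcd E (b j) := Nat.gcd_pos_of_pos_left _ h.hE
    have hwn : ∀ u, 0 < u → u < n → (w ^ u) ^ b j ≠ 1 := by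
      intro u hu0 hun h3
      rw [← pow_mul] at h3
      have h4 := hw.dvd_of_pow_eq_one _ h3
      -- E ∣ u * b j
      have h5 : n ∣ u := by
        have h6 : E / Nat.gcd E (b j) ∣ u * (b j / Nat.gcd E (b j)) := by
          have h7 : Nat.gcd E (b j) ∣ b j := Nat.gcd_dvd_right _ _
          rw [← Nat.mul_div_assoc _ h7]
          exact Nat.div_dvd_div (Nat.gcd_dvd_left _ _) h4
        have h8 : Nat.Coprime (E / Nat.gcd E (b j)) (b j / Nat.gcd E (b j)) :=
          Nat.coprime_div_gcd_div_gcd hg0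
        exact h8.dvd_of_dvd_mul_right h6
      have := Nat.le_of_dvd hu0 h5
      omega
    have hnb : E ≤ n * b j := by
      have h7 : Nat.gcd E (b j) ≤ b j := Nat.gcd_le_right _ hbj0
      calc E = n * Nat.gcd E (b j) := (Nat.div_mul_cancel (Nat.gcd_dvd_left _ _)).symm
        _ ≤ n * b j := Nat.mul_le_mul_left _ h7
    have hn2 : 2 ≤ n := by
      by_contra h3
      have hn0 : 0 < n := Nat.div_pos (Nat.le_of_dvd h.hE (Nat.gcd_dvd_left _ _)) hg0
      have hn1 : n = 1 := by omega
      have h4 : E ∣ b j := by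
        have h5 : E = 1 * Nat.gcd E (b j) := by
          rw [← hn1]
          exact (Nat.div_mul_cancel (Nat.gcd_dvd_left _ _)).symm
        rw [one_mul] at h5
        rw [h5]
        exact Nat.gcd_dvd_right _ _
      obtain ⟨c, hc⟩ := h4
      rw [hc, pow_mul, hε0, one_pow] at hrs1
      exact hrs1 rfl
    have hwE : ∀ s : ℕ, (w ^ s) ^ E = 1 := by
      intro s
      rw [← pow_mul, mul_comm, pow_mul, hw.pow_eq_one, one_pow]
    have hbΛ : ¬ ∀ k, Λ k ≤ b k := fun h3 => hl0n (Or.inr h3)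
    have hbleΛ : ∀ k, b k ≤ Λ k := by
      have h3 := (hout l0 (by
        rw [hO, Finset.mem_filter, mem_vcl]
        exact ⟨Finset.mem_univ _, hl0n⟩)).2
      exact h3
    -- members of the rotated clusters
    have hrot : ∀ s, 0 < s → s < n → ∀ l ∈ vcl L i Λ,
        σ (w ^ s) l ∈ O ∧ L i (σ (w ^ s) l) = b := by
      intro s hs0 hsn l hl
      obtain ⟨h3, h4⟩ := hexact (w ^ s) (hwE s) (hwn s hs0 hsn)
      have h5 : L i (σ (w ^ s) l) = b ∧ σ (w ^ s) l ≠ i := by
        by_cases hli : l = i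
        · rw [hli]
          exact ⟨h4, h3⟩
        · have h6 : Near L Λ (σ (w ^ s) i) (σ (w ^ s) l) := (R.near (hwE s)).mpr (mem_vcl.mp hl)
          have h7 : σ (w ^ s) l ≠ σ (w ^ s) i := fun e => hli (R.inj (hwE s) e)
          have h8 : ∀ k, Λ k ≤ L (σ (w ^ s) i) (σ (w ^ s) l) k := by
            rcases h6 with h9 | h9
            · exact absurd h9 h7
            · exact h9
          have h10 : L (σ (w ^ s) i) i = b := by rw [L_symm h h3, h4]
          have h11 : σ (w ^ s) l ≠ i := by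
            intro h12
            rw [h12, h10] at h8
            exact hbΛ h8
          have h13 := L_eq h (i := σ (w ^ s) i) (l := i) (l' := σ (w ^ s) l) (fun e => h3 e.symm) h7
            (fun e => h11 e.symm) (by
              intro k
              rw [h10]
              exact (hbleΛ k).trans (h8 k)) (by
              rw [h10]
              intro h14
              apply hbΛ
              rw [h14]
              exact h8)
          rw [h10] at h13
          exact ⟨h13, h11⟩
      refine ⟨?_, h5.1⟩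
      rw [hO, Finset.mem_filter, mem_vcl]
      refine ⟨Finset.mem_univ _, ?_⟩
      rintro (h6 | h6)
      · exact h5.2 h6
      · rw [h5.1] at h6
        exact hbΛ h6
    -- disjointness
    have hdisj : ∀ s s', s < s' → s' < n → ∀ l ∈ vcl L i Λ, ∀ l' ∈ vcl L i Λ,
        σ (w ^ s) l ≠ σ (w ^ s') l' := by
      intro s s' hss hs' l hl l' hl' heq
      have h3 : w ^ s' = w ^ s * w ^ (s' - s) := by
        rw [← pow_add]
        congr 1
        omega
      rw [h3, R.mul (hwE s) (hwE _)] at heq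
      have h4 := R.inj (hwE s) heq
      have h5 := (hrot (s' - s) (by omega) (by omega) l' hl').1
      rw [← h4, hO, Finset.mem_filter] at h5
      exact h5.2 hl
    -- the sum
    have hsum : (n - 1) * (M * b j) ≤ ∑ l ∈ O, m l * L i l j := by
      set C : ℕ → Finset (Fin r) := fun s => (vcl L i Λ).image (σ (w ^ s)) with hC
      have hCsub : (Finset.Ico 1 n).biUnion C ⊆ O := by
        intro x hx
        rw [Finset.mem_biUnion] at hx
        obtain ⟨s, hs, hx⟩ := hx
        rw [Finset.mem_Ico] at hs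
        rw [hC, Finset.mem_image] at hx
        obtain ⟨l, hl, rfl⟩ := hx
        exact (hrot s (by omega) hs.2 l hl).1
      have hCd : Set.PairwiseDisjoint (↑(Finset.Ico 1 n) : Set ℕ) C := by
        intro s hs s' hs' hne
        rw [Function.onFun, Finset.disjoint_left]
        intro x hx hx'
        simp only [hC, Finset.mem_image] at hx hx'
        obtain ⟨l, hl, rfl⟩ := hx
        obtain ⟨l', hl', heq⟩ := hx'
        rw [Finset.mem_coe, Finset.mem_Ico] at hs hs'
        rcases lt_or_gt_of_ne hne with h3 | h3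
        · exact hdisj s s' h3 hs'.2 l hl l' hl' heq.symm
        · exact hdisj s' s h3 hs.2 l' hl' l hl heq
      calc (n - 1) * (M * b j) = ∑ _s ∈ Finset.Ico 1 n, M * b j := by
            rw [Finset.sum_const, Nat.card_Ico, smul_eq_mul]
        _ = ∑ s ∈ Finset.Ico 1 n, ∑ x ∈ C s, m x * L i x j := by
            apply Finset.sum_congr rfl
            intro s hs
            rw [Finset.mem_Ico] at hs
            rw [hC]
            simp only
            rw [Finset.sum_image (fun a _ b _ hab => R.inj (hwE s) hab), hM, Finset.sum_mul]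
            apply Finset.sum_congr rfl
            intro l hl
            rw [R.m _ (hwE s), (hrot s (by omega) hs.2 l hl).2]
        _ = ∑ x ∈ (Finset.Ico 1 n).biUnion C, m x * L i x j := by
            rw [Finset.sum_biUnion hCd]
        _ ≤ ∑ l ∈ O, m l * L i l j :=
            Finset.sum_le_sum_of_subset_of_nonneg hCsub (fun _ _ _ => Nat.zero_le _)
    have hAge : (n - 1) * (M * b j) ≤ A := hsum.trans (Nat.le_add_left _ _)
    have h20 : M * E ≤ (p + 1) * A := by
      calc M * E ≤ M * (n * b j) := Nat.mul_le_mul_left _ hnb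
        _ = n * (M * b j) := by ring
        _ ≤ (2 * (n - 1)) * (M * b j) := Nat.mul_le_mul_right _ (by omega)
        _ = 2 * ((n - 1) * (M * b j)) := by ring
        _ ≤ 2 * A := Nat.mul_le_mul_left _ hAge
        _ ≤ (p + 1) * A := Nat.mul_le_mul_right _ (by omega)
    have h21 : 0 < p * (M * Λ j) := Nat.mul_pos hp0 (Nat.mul_pos hM0 hj)
    omega

end QO

end MPb07157
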