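import Pool.Agent.Lib.MP_b07157_agO.RDef

/-!
# Polynomials which are invariant under rotations
-/

noncomputable section

namespace MPb07157

namespace QO

/-- A polynomial which is invariant under the `p`-th roots of unity up to a character. -/
theorem exists_cyc {p : ℕ} (hp : 0 < p) {P : Polynomial ℂ} (hP : P.Monic)
    (hinv : ∀ ω : ℂ, ω ^ p = 1 → P.comp (Polynomial.C ω * Polynomial.X) =
      Polynomial.C (ω ^ P.natDegree) * P) :
    ∃ (B : ℕ) (R : Finset ℂ) (μ : ℂ → ℕ), (0 : ℂ) ∉ R ∧ (∀ c ∈ R, 0 < μ c) ∧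
      P = Polynomial.X ^ B * ∏ c ∈ R, (Polynomial.X ^ p - Polynomial.C c) ^ μ c ∧
      P.natDegree = B + p * ∑ c ∈ R, μ c ∧
      P.roots.toFinset.card = p * R.card + if B = 0 then 0 else 1 := by
  have h0 : P ≠ 0 := hP.ne_zero
  obtain ⟨Q, hQ, hX⟩ := Polynomial.exists_eq_pow_rootMultiplicity_mul_and_not_dvd P h0 0
  rw [Polynomial.C_0, sub_zero] at hQ hX
  generalize P.rootMultiplicity 0 = B at hQ
  have hQm : Q.Monic := by
    have h1 := hP
    rw [hQ] at h1
    exact (Polynomial.monic_X_pow B).of_mul_monic_left h1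
  have hQ0 : Q.coeff 0 ≠ 0 := fun h => hX (Polynomial.X_dvd_iff.2 h)
  have hQne : Q ≠ 0 := hQm.ne_zero
  have hdeg : P.natDegree = B + Q.natDegree := by
    rw [hQ, (Polynomial.monic_X_pow B).natDegree_mul hQm, Polynomial.natDegree_X_pow]
  have hζ := Complex.isPrimitiveRoot_exp p hp.ne'
  generalize Complex.exp (2 * (Real.pi : ℂ) * Complex.I / (p : ℂ)) = ζ at hζ
  have hcoef : ∀ n, P.coeff n ≠ 0 → ζ ^ n = ζ ^ P.natDegree := by
    intro n hn
    have h1 := congrArg (fun q => Polynomial.coeff q n) (hinv ζ hζ.pow_eq_one)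
    simp only [Polynomial.comp_C_mul_X_coeff, Polynomial.coeff_C_mul] at h1
    exact mul_left_cancel₀ hn (h1.trans (mul_comm _ _))
  have hPQ : ∀ n, P.coeff (n + B) = Q.coeff n := by
    intro n
    rw [hQ, Polynomial.coeff_X_pow_mul]
  have hζ0 : ζ ≠ 0 := hζ.ne_zero hp.ne'
  have hQc : ∀ n, Q.coeff n ≠ 0 → p ∣ n := by
    intro n hn
    have h3 := (hcoef (n + B) (by rwa [hPQ])).trans (hcoef (0 + B) (by rwa [hPQ])).symm
    rw [pow_add, pow_add, pow_zero] at h3
    exact (hζ.pow_eq_one_iff_dvd n).1 (mul_right_cancel₀ (pow_ne_zero _ hζ0) h3)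
  obtain ⟨S, hS⟩ : ∃ S : Polynomial ℂ, Polynomial.expand ℂ p S = Q := by
    refine ⟨Polynomial.contract p Q, ?_⟩
    ext n
    rw [Polynomial.coeff_expand hp]
    split_ifs with h
    · rw [Polynomial.coeff_contract hp.ne', Nat.div_mul_cancel h]
    · by_contra hne
      exact h (hQc n (Ne.symm hne))
  have hSm : S.Monic := by
    have h1 := hQm
    rw [← hS] at h1
    unfold Polynomial.Monic at h1 ⊢
    rwa [Polynomial.leadingCoeff_expand hp] at h1
  have hSne : S ≠ 0 := hSm.ne_zero
  have hS0 : S.eval 0 ≠ 0 := by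
    have h1 : Q.eval 0 = S.eval 0 := by
      rw [← hS, Polynomial.expand_eval, zero_pow hp.ne']
    rw [← h1, ← Polynomial.coeff_zero_eq_eval_zero]
    exact hQ0
  have hSp : S = ∏ c ∈ S.roots.toFinset,
      (Polynomial.X - Polynomial.C c) ^ Multiset.count c S.roots := by
    rw [← Finset.prod_multiset_map_count]
    exact (IsAlgClosed.splits S).eq_prod_roots_of_monic hSm
  have hSd : S.natDegree = ∑ c ∈ S.roots.toFinset, Multiset.count c S.roots := by
    rw [Multiset.toFinset_sum_count_eq]
    exact (IsAlgClosed.splits S).natDegree_eq_card_roots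
  refine ⟨B, S.roots.toFinset, fun c => Multiset.count c S.roots, ?_, ?_, ?_, ?_, ?_⟩
  · rw [Multiset.mem_toFinset, Polynomial.mem_roots hSne]
    exact hS0
  · intro c hc
    exact Multiset.count_pos.2 (Multiset.mem_toFinset.1 hc)
  · have h1 : Q = ∏ c ∈ S.roots.toFinset,
        (Polynomial.X ^ p - Polynomial.C c) ^ Multiset.count c S.roots := by
      have h2 := congrArg (Polynomial.expand ℂ p) hSp
      rw [hS] at h2
      rw [h2, map_prod]
      refine Finset.prod_congr rfl fun c _ => ?_
      rw [map_pow, map_sub, Polynomial.expand_X, Polynomial.expand_C]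
    rw [← h1]
    exact hQ
  · rw [hdeg, ← hS, Polynomial.natDegree_expand, hSd, mul_comm]
  · have hroots : Q.roots.toFinset = S.roots.toFinset.biUnion
        fun c => (Polynomial.nthRoots p c).toFinset := by
      ext x
      rw [Multiset.mem_toFinset, Polynomial.mem_roots hQne, Finset.mem_biUnion,
        Polynomial.IsRoot.def, ← hS, Polynomial.expand_eval]
      constructor
      · intro h
        exact ⟨x ^ p, Multiset.mem_toFinset.2 ((Polynomial.mem_roots hSne).2 h),
          Multiset.mem_toFinset.2 ((Polynomial.mem_nthRoots hp).2 rfl)⟩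
      · rintro ⟨c, hc, hx⟩
        rw [(Polynomial.mem_nthRoots hp).1 (Multiset.mem_toFinset.1 hx)]
        exact (Polynomial.mem_roots hSne).1 (Multiset.mem_toFinset.1 hc)
    have hcardQ : Q.roots.toFinset.card = p * S.roots.toFinset.card := by
      rw [hroots, Finset.card_biUnion, Finset.sum_const_nat (m := p), mul_comm]
      · intro c hc
        have hc0 : c ≠ 0 := by
          rintro rfl
          exact hS0 ((Polynomial.mem_roots hSne).1 (Multiset.mem_toFinset.1 hc))
        rw [Multiset.toFinset_card_of_nodup (hζ.nthRoots_nodup hc0), hζ.card_nthRoots, if_pos]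
        exact IsAlgClosed.exists_pow_nat_eq c hp
      · intro c _ d _ hcd
        rw [Function.onFun, Finset.disjoint_left]
        intro x hx hx'
        refine hcd ?_
        rw [← (Polynomial.mem_nthRoots hp).1 (Multiset.mem_toFinset.1 hx),
          (Polynomial.mem_nthRoots hp).1 (Multiset.mem_toFinset.1 hx')]
    have h0Q : (0 : ℂ) ∉ Q.roots.toFinset := by
      rw [Multiset.mem_toFinset, Polynomial.mem_roots hQne, Polynomial.IsRoot.def,
        ← Polynomial.coeff_zero_eq_eval_zero]
      exact hQ0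
    rcases Nat.eq_zero_or_pos B with hB | hB
    · subst hB
      rw [pow_zero, one_mul] at hQ
      rw [hQ, hcardQ, if_pos rfl, add_zero]
    · have hPr : P.roots.toFinset = insert 0 Q.roots.toFinset := by
        ext x
        rw [Multiset.mem_toFinset, Polynomial.mem_roots h0, Finset.mem_insert,
          Multiset.mem_toFinset, Polynomial.mem_roots hQne, Polynomial.IsRoot.def, hQ,
          Polynomial.eval_mul, Polynomial.eval_pow, Polynomial.eval_X, mul_eq_zero,
          pow_eq_zero_iff hB.ne']
        rfl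
      rw [hPr, Finset.card_insert_of_notMem h0Q, hcardQ, if_neg hB.ne']

end QO

end MPb07157
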