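import Pool.Agent.Lib.MP_b07157_agO.RO

/-!
# Quasi-ordinary germs: expansion at a vertex
-/

noncomputable section

namespace MPb07157

namespace QO

variable {d r : ℕ} {F : MvPowerSeries (Fin (d + 1)) ℂ} {E : ℕ} {N0 : Fin d → ℕ}
  {ζ : Fin r → MvPowerSeries (Fin d) ℂ} {m : Fin r → ℕ} {L : Fin r → Fin r → Fin d → ℕ}

theorem constantCoeff_trunc (Λ : Fin d → ℕ) {a : MvPowerSeries (Fin d) ℂ}
    (ha : MvPowerSeries.constantCoeff a = 0) : MvPowerSeries.constantCoeff (trunc Λ a) = 0 := by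
  rw [← MvPowerSeries.coeff_zero_eq_constantCoeff_apply] at ha ⊢
  change (if expo Λ ≤ 0 then (0 : ℂ) else MvPowerSeries.coeff 0 a) = 0
  rw [ha]
  simp

namespace RTaux

theorem expo_apply (Λ : Fin d → ℕ) (k : Fin d) : expo Λ k = Λ k := rfl

theorem constantCoeff_monomial_ne {S : Type} [CommRing S] {v : Fin d →₀ ℕ} (hv : v ≠ 0) (a : S) :
    MvPowerSeries.constantCoeff (MvPowerSeries.monomial v a) = 0 := by
  classical
  rw [← MvPowerSeries.coeff_zero_eq_constantCoeff_apply, MvPowerSeries.coeff_monomial,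
    if_neg (Ne.symm hv)]

theorem prod_X_pow {S : Type} [CommRing S] (a : Fin d → ℕ) :
    (∏ k, (MvPowerSeries.X k : MvPowerSeries (Fin d) S) ^ a k) =
      MvPowerSeries.monomial (expo a) 1 := by
  rw [MvPowerSeries.monomial_one_eq, Finsupp.prod_fintype _ _ (fun i => pow_zero _)]
  rfl

theorem monomial_mul_one {S : Type} [CommRing S] (v w : Fin d →₀ ℕ) (a : S) :
    (MvPowerSeries.monomial v 1 : MvPowerSeries (Fin d) S) * MvPowerSeries.monomial w a =
      MvPowerSeries.monomial (v + w) a := by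
  rw [MvPowerSeries.monomial_mul_monomial, one_mul]

theorem monomial_pow_one {S : Type} [CommRing S] (v : Fin d →₀ ℕ) (n : ℕ) :
    (MvPowerSeries.monomial v 1 : MvPowerSeries (Fin d) S) ^ n =
      MvPowerSeries.monomial (n • v) 1 := by
  induction n with
  | zero => simp
  | succ n ih => rw [pow_succ, ih, monomial_mul_one, succ_nsmul]

theorem monomial_prod_one {S ι : Type} [CommRing S] [Fintype ι] (v : ι → Fin d →₀ ℕ) :
    (∏ l, (MvPowerSeries.monomial (v l) 1 : MvPowerSeries (Fin d) S)) =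
      MvPowerSeries.monomial (∑ l, v l) 1 := by
  classical
  have h : ∀ s : Finset ι, (∏ l ∈ s, (MvPowerSeries.monomial (v l) 1 : MvPowerSeries (Fin d) S)) =
      MvPowerSeries.monomial (∑ l ∈ s, v l) 1 := by
    intro s
    induction s using Finset.induction_on with
    | empty => simp
    | insert a s ha ih => rw [Finset.prod_insert ha, Finset.sum_insert ha, ih, monomial_mul_one]
  exact h Finset.univ

theorem trunc_add (Λ : Fin d → ℕ) (a : MvPowerSeries (Fin d) ℂ) :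
    ∃ g : MvPowerSeries (Fin d) ℂ, MvPowerSeries.constantCoeff g =
      MvPowerSeries.coeff (expo Λ) a ∧ a = trunc Λ a + MvPowerSeries.monomial (expo Λ) 1 * g := by
  classical
  refine ⟨fun v => MvPowerSeries.coeff (expo Λ + v) a, ?_, ?_⟩
  · rw [← MvPowerSeries.coeff_zero_eq_constantCoeff_apply]
    change MvPowerSeries.coeff (expo Λ + 0) a = _
    rw [add_zero]
  · ext v
    rw [map_add, MvPowerSeries.coeff_monomial_mul]
    change _ = (if expo Λ ≤ v then (0 : ℂ) else MvPowerSeries.coeff v a) +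
      (if expo Λ ≤ v then (1 : ℂ) * MvPowerSeries.coeff (expo Λ + (v - expo Λ)) a else 0)
    split_ifs with h
    · rw [add_tsub_cancel_of_le h, zero_add, one_mul]
    · rw [add_zero]

/-- The substitution `X k ↦ t_k`, `z ↦ φ₀ + t ^ Λ w`. -/
def eta (Λ : Fin d → ℕ) (φ₀ : MvPowerSeries (Fin d) ℂ) :
    Fin (d + 1) → MvPowerSeries (Fin d) (RatFunc ℂ) :=
  Fin.lastCases
    (MvPowerSeries.map (algebraMap ℂ (RatFunc ℂ)) φ₀ +
      MvPowerSeries.monomial (expo Λ) (RatFunc.X : RatFunc ℂ))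
    (fun k => MvPowerSeries.X k)

theorem eta_last (Λ : Fin d → ℕ) (φ₀ : MvPowerSeries (Fin d) ℂ) :
    eta Λ φ₀ (Fin.last d) = MvPowerSeries.map (algebraMap ℂ (RatFunc ℂ)) φ₀ +
      MvPowerSeries.monomial (expo Λ) (RatFunc.X : RatFunc ℂ) := by
  simp [eta]

theorem eta_cast (Λ : Fin d → ℕ) (φ₀ : MvPowerSeries (Fin d) ℂ) (k : Fin d) :
    eta Λ φ₀ k.castSucc = MvPowerSeries.X k := by
  simp [eta]

theorem eta_const {Λ : Fin d → ℕ} {φ₀ : MvPowerSeries (Fin d) ℂ}
    (h0 : MvPowerSeries.constantCoeff φ₀ = 0) (hΛ : expo Λ ≠ 0) (s : Fin (d + 1)) :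
    MvPowerSeries.constantCoeff (eta Λ φ₀ s) = 0 := by
  refine Fin.lastCases ?_ (fun k => ?_) s
  · rw [eta_last, map_add, constantCoeff_monomial_ne hΛ, MvPowerSeries.constantCoeff_map, h0,
      map_zero, add_zero]
  · rw [eta_cast, MvPowerSeries.constantCoeff_X]

theorem eta_hs {Λ : Fin d → ℕ} {φ₀ : MvPowerSeries (Fin d) ℂ}
    (h0 : MvPowerSeries.constantCoeff φ₀ = 0) (hΛ : expo Λ ≠ 0) :
    MvPowerSeries.HasSubst (eta Λ φ₀) :=
  MvPowerSeries.hasSubst_of_constantCoeff_zero (eta_const h0 hΛ)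

theorem tsub_hs {E : ℕ} (hE : 0 < E) : MvPowerSeries.HasSubst (tsub d E) := by
  refine MvPowerSeries.hasSubst_of_constantCoeff_zero (fun s => ?_)
  refine Fin.lastCases ?_ (fun _ => ?_) s
  · simp [tsub]
  · simp [tsub, hE.ne']

theorem emb_hs : MvPowerSeries.HasSubst
    (fun k : Fin d => (MvPowerSeries.X k.castSucc : MvPowerSeries (Fin (d + 1)) ℂ)) :=
  MvPowerSeries.hasSubst_of_constantCoeff_zero (fun k => MvPowerSeries.constantCoeff_X _)

theorem subst_arcv {E : ℕ} (hE : 0 < E) {Λ : Fin d → ℕ} {φ₀ : MvPowerSeries (Fin d) ℂ}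
    (h0 : MvPowerSeries.constantCoeff φ₀ = 0) (hΛ : expo Λ ≠ 0)
    (F : MvPowerSeries (Fin (d + 1)) ℂ) :
    MvPowerSeries.subst (arcv E Λ φ₀) F =
      MvPowerSeries.subst (eta Λ φ₀) (MvPowerSeries.subst (tsub d E) F) := by
  rw [MvPowerSeries.subst_comp_subst_apply (tsub_hs hE) (eta_hs h0 hΛ)]
  congr 1
  funext s
  refine Fin.lastCases ?_ (fun k => ?_) s
  · rw [tsub, Fin.lastCases_last, MvPowerSeries.subst_X (eta_hs h0 hΛ), eta_last, arcv,
      Fin.lastCases_last]
  · rw [tsub, Fin.lastCases_castSucc, MvPowerSeries.subst_pow (eta_hs h0 hΛ),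
      MvPowerSeries.subst_X (eta_hs h0 hΛ), eta_cast, arcv, Fin.lastCases_castSucc]

theorem subst_emb {Λ : Fin d → ℕ} {φ₀ : MvPowerSeries (Fin d) ℂ}
    (h0 : MvPowerSeries.constantCoeff φ₀ = 0) (hΛ : expo Λ ≠ 0)
    (a : MvPowerSeries (Fin d) ℂ) :
    MvPowerSeries.subst (eta Λ φ₀) (emb a) =
      MvPowerSeries.map (algebraMap ℂ (RatFunc ℂ)) a := by
  rw [emb, MvPowerSeries.subst_comp_subst_apply emb_hs (eta_hs h0 hΛ),
    MvPowerSeries.map_algebraMap_eq_subst_X]
  congr 1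
  funext k
  rw [MvPowerSeries.subst_X (eta_hs h0 hΛ), eta_cast]

theorem const_subst {Λ : Fin d → ℕ} {φ₀ : MvPowerSeries (Fin d) ℂ}
    (h0 : MvPowerSeries.constantCoeff φ₀ = 0) (hΛ : expo Λ ≠ 0)
    (U : MvPowerSeries (Fin (d + 1)) ℂ) :
    MvPowerSeries.constantCoeff (MvPowerSeries.subst (eta Λ φ₀) U) =
      algebraMap ℂ (RatFunc ℂ) (MvPowerSeries.constantCoeff U) := by
  have hs := eta_hs h0 hΛ
  have h1 : U = MvPowerSeries.C (MvPowerSeries.constantCoeff U) +
      (U - MvPowerSeries.C (MvPowerSeries.constantCoeff U)) := by ring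
  have h2 : MvPowerSeries.constantCoeff (U - MvPowerSeries.C (MvPowerSeries.constantCoeff U)) =
      0 := by
    rw [map_sub, MvPowerSeries.constantCoeff_C, sub_self]
  have h3 : MvPowerSeries.subst (eta Λ φ₀)
      (MvPowerSeries.C (MvPowerSeries.constantCoeff U) : MvPowerSeries (Fin (d + 1)) ℂ) =
      MvPowerSeries.C (algebraMap ℂ (RatFunc ℂ) (MvPowerSeries.constantCoeff U)) := by
    have h4 := (MvPowerSeries.substAlgHom (R := ℂ) hs).commutes (MvPowerSeries.constantCoeff U)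
    rw [MvPowerSeries.substAlgHom_apply, MvPowerSeries.algebraMap_apply,
      MvPowerSeries.algebraMap_apply] at h4
    exact h4
  conv_lhs => rw [h1]
  rw [MvPowerSeries.subst_add hs, h3, map_add,
    MvPowerSeries.constantCoeff_subst_eq_zero hs (eta_const h0 hΛ) h2,
    MvPowerSeries.constantCoeff_C, add_zero]

theorem mem_vcl {i l : Fin r} {Λ : Fin d → ℕ} :
    l ∈ vcl L i Λ ↔ l = i ∨ ∀ k, Λ k ≤ L i l k := by
  simp [vcl]

/-- One factor. -/
theorem factor (h : IsQO F E N0 ζ m L) {i : Fin r} {Λ : Fin d → ℕ} (hΛ : IsV L i Λ)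
    (hΛ0 : expo Λ ≠ 0) (l : Fin r) :
    ∃ (Q : MvPowerSeries (Fin d) (RatFunc ℂ)) (q : Polynomial ℂ),
      MvPowerSeries.map (algebraMap ℂ (RatFunc ℂ)) (trunc Λ (ζ i)) +
        MvPowerSeries.monomial (expo Λ) (RatFunc.X : RatFunc ℂ) -
        MvPowerSeries.map (algebraMap ℂ (RatFunc ℂ)) (ζ l) =
        MvPowerSeries.monomial (expo (fun k => if l = i then Λ k else min (L i l k) (Λ k))) 1 * Q ∧
      MvPowerSeries.constantCoeff Q = algebraMap (Polynomial ℂ) (RatFunc ℂ) q ∧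
      (l ∈ vcl L i Λ → q = Polynomial.X - Polynomial.C (val ζ Λ l)) ∧
      (l ∉ vcl L i Λ → ∃ c : ℂ, c ≠ 0 ∧ q = Polynomial.C c) := by
  have hmapm : ∀ v : Fin d →₀ ℕ, MvPowerSeries.map (algebraMap ℂ (RatFunc ℂ))
      (MvPowerSeries.monomial v 1) = MvPowerSeries.monomial v 1 := by
    intro v
    rw [MvPowerSeries.map_monomial, map_one]
  have hXm : (MvPowerSeries.monomial (expo Λ) (RatFunc.X : RatFunc ℂ) :
      MvPowerSeries (Fin d) (RatFunc ℂ)) =
      MvPowerSeries.monomial (expo Λ) 1 * MvPowerSeries.C RatFunc.X := by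
    rw [← MvPowerSeries.monomial_zero_eq_C_apply, monomial_mul_one, add_zero]
  by_cases hl : l ∈ vcl L i Λ
  · have hfun : (fun k => if l = i then Λ k else min (L i l k) (Λ k)) = Λ := by
      funext k
      rcases mem_vcl.1 hl with h1 | h1
      · rw [if_pos h1]
      · split_ifs
        · rfl
        · exact min_eq_right (h1 k)
    rw [hfun]
    obtain ⟨g, hg1, hg2⟩ := trunc_add Λ (ζ l)
    rw [trunc_eq h hΛ hl] at hg2
    refine ⟨MvPowerSeries.C RatFunc.X - MvPowerSeries.map (algebraMap ℂ (RatFunc ℂ)) g,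
      Polynomial.X - Polynomial.C (val ζ Λ l), ?_, ?_, fun _ => rfl, fun hn => absurd hl hn⟩
    · rw [hXm]
      conv_lhs => rw [hg2]
      rw [map_add, map_mul, hmapm]
      ring
    · rw [map_sub, MvPowerSeries.constantCoeff_C, MvPowerSeries.constantCoeff_map, hg1, map_sub,
        RatFunc.algebraMap_X, RatFunc.algebraMap_C]
      rfl
  · have hli : l ≠ i := fun h1 => hl (mem_vcl.2 (Or.inl h1))
    obtain ⟨l0, hl0, hl0Λ⟩ := hΛ
    have hnle : ¬ ∀ k, Λ k ≤ L i l k := fun h1 => hl (mem_vcl.2 (Or.inr h1))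
    have hle : ∀ k, L i l k ≤ Λ k := by
      rcases L_total h hli hl0 with h1 | h1
      · rw [hl0Λ] at h1
        exact h1
      · rw [hl0Λ] at h1
        exact absurd h1 hnle
    have hfun : (fun k => if l = i then Λ k else min (L i l k) (Λ k)) = L i l := by
      funext k
      rw [if_neg hli]
      exact min_eq_left (hle k)
    rw [hfun]
    obtain ⟨u, hu, hu2⟩ := h.hL i l (Ne.symm hli)
    rw [prod_X_pow] at hu2
    obtain ⟨g, hg1, hg2⟩ := trunc_add Λ (ζ i)
    have hadd : expo Λ = expo (L i l) + (expo Λ - expo (L i l)) :=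
      (add_tsub_cancel_of_le (fun k => hle k)).symm
    have hd : expo Λ - expo (L i l) ≠ 0 := by
      intro h1
      apply hnle
      intro k
      have h2 := DFunLike.congr_fun h1 k
      rw [Finsupp.tsub_apply, expo_apply, expo_apply] at h2
      change Λ k - L i l k = 0 at h2
      omega
    refine ⟨MvPowerSeries.map (algebraMap ℂ (RatFunc ℂ)) u +
      MvPowerSeries.monomial (expo Λ - expo (L i l)) 1 * (MvPowerSeries.C RatFunc.X -
        MvPowerSeries.map (algebraMap ℂ (RatFunc ℂ)) g),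
      Polynomial.C (MvPowerSeries.constantCoeff u), ?_, ?_, fun hn => absurd hn hl,
      fun _ => ⟨_, hu, rfl⟩⟩
    · have hm1 : (MvPowerSeries.monomial (expo Λ) 1 : MvPowerSeries (Fin d) (RatFunc ℂ)) =
          MvPowerSeries.monomial (expo (L i l)) 1 *
            MvPowerSeries.monomial (expo Λ - expo (L i l)) 1 := by
        rw [monomial_mul_one, ← hadd]
      have h5 : MvPowerSeries.map (algebraMap ℂ (RatFunc ℂ)) (ζ i) =
          MvPowerSeries.map (algebraMap ℂ (RatFunc ℂ)) (trunc Λ (ζ i)) +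
          MvPowerSeries.monomial (expo Λ) 1 * MvPowerSeries.map (algebraMap ℂ (RatFunc ℂ)) g := by
        conv_lhs => rw [hg2]
        rw [map_add, map_mul, hmapm]
      have h6 : MvPowerSeries.map (algebraMap ℂ (RatFunc ℂ)) (ζ i) -
          MvPowerSeries.map (algebraMap ℂ (RatFunc ℂ)) (ζ l) =
          MvPowerSeries.monomial (expo (L i l)) 1 *
            MvPowerSeries.map (algebraMap ℂ (RatFunc ℂ)) u := by
        rw [← map_sub, hu2, map_mul, hmapm]
      rw [hXm]
      linear_combination h6 - h5 + (MvPowerSeries.C RatFunc.X -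
        MvPowerSeries.map (algebraMap ℂ (RatFunc ℂ)) g) * hm1
    · rw [map_add, map_mul, constantCoeff_monomial_ne hd, zero_mul, add_zero,
        MvPowerSeries.constantCoeff_map, RatFunc.algebraMap_C]
      rfl

end RTaux

/-- `F(t^E, trunc ζ_i + t^Λ w) = t^γ (lam ∏ (w - c_l)^(m_l) + ...)`. -/
theorem subst_vertex (h : IsQO F E N0 ζ m L) {i : Fin r} {Λ : Fin d → ℕ} (hΛ : IsV L i Λ) :
    ∃ (lam : ℂ) (F1 : MvPowerSeries (Fin d) (RatFunc ℂ)), lam ≠ 0 ∧
      MvPowerSeries.constantCoeff F1 = algebraMap (Polynomial ℂ) (RatFunc ℂ)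
        (Polynomial.C lam * vpoly ζ m L i Λ) ∧
      MvPowerSeries.subst (arcv E Λ (trunc Λ (ζ i))) F =
        MvPowerSeries.monomial (expo (gam E N0 m L i Λ)) 1 * F1 := by
  classical
  have hΛ0 : expo Λ ≠ 0 := by
    obtain ⟨l0, hl0, hl0Λ⟩ := hΛ
    obtain ⟨k, hk⟩ := L_pos h (Ne.symm hl0)
    rw [hl0Λ] at hk
    intro h1
    have h2 := DFunLike.congr_fun h1 k
    rw [RTaux.expo_apply] at h2
    change Λ k = 0 at h2
    omega
  have h0 : MvPowerSeries.constantCoeff (trunc Λ (ζ i)) = 0 := constantCoeff_trunc Λ (h.h0 i)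
  have hs := RTaux.eta_hs h0 hΛ0
  choose Q q hQ1 hQ2 hQ3 hQ4 using RTaux.factor h hΛ hΛ0
  obtain ⟨U, hU, hUF⟩ := h.hF
  have hc : ∀ l : Fin r, ∃ c : ℂ, c ≠ 0 ∧ (l ∉ vcl L i Λ → q l = Polynomial.C c) := by
    intro l
    by_cases hl : l ∈ vcl L i Λ
    · exact ⟨1, one_ne_zero, fun hn => absurd hl hn⟩
    · obtain ⟨c, hc1, hc2⟩ := hQ4 l hl
      exact ⟨c, hc1, fun _ => hc2⟩
  choose c hc1 hc2 using hc
  refine ⟨MvPowerSeries.constantCoeff U * ∏ l ∈ (vcl L i Λ)ᶜ, c l ^ m l,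
    MvPowerSeries.subst (RTaux.eta Λ (trunc Λ (ζ i))) U * ∏ l, Q l ^ m l, ?_, ?_, ?_⟩
  · exact mul_ne_zero hU (Finset.prod_ne_zero_iff.2 fun l _ => pow_ne_zero _ (hc1 l))
  · have h1 : ∏ l, q l ^ m l =
        Polynomial.C (∏ l ∈ (vcl L i Λ)ᶜ, c l ^ m l) * vpoly ζ m L i Λ := by
      rw [← Finset.prod_mul_prod_compl (vcl L i Λ) (fun l => q l ^ m l), mul_comm]
      congr 1
      · rw [map_prod]
        refine Finset.prod_congr rfl (fun l hl => ?_)
        rw [hc2 l (Finset.mem_compl.1 hl), map_pow]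
      · refine Finset.prod_congr rfl (fun l hl => ?_)
        rw [hQ3 l hl]
    rw [map_mul, RTaux.const_subst h0 hΛ0, map_prod, map_mul Polynomial.C, mul_assoc, ← h1, map_mul,
      map_prod]
    congr 1
    refine Finset.prod_congr rfl (fun l _ => ?_)
    rw [map_pow, map_pow, hQ2]
  · rw [RTaux.subst_arcv h.hE h0 hΛ0, hUF, MvPowerSeries.subst_mul hs, MvPowerSeries.subst_mul hs]
    have h1 : MvPowerSeries.subst (RTaux.eta Λ (trunc Λ (ζ i)))
        (∏ k : Fin d, (MvPowerSeries.X k.castSucc : MvPowerSeries (Fin (d + 1)) ℂ) ^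
          (E * N0 k)) = MvPowerSeries.monomial (expo fun k => E * N0 k) 1 := by
      rw [← RTaux.prod_X_pow, ← MvPowerSeries.substAlgHom_apply hs, map_prod]
      refine Finset.prod_congr rfl (fun k _ => ?_)
      rw [map_pow, MvPowerSeries.substAlgHom_apply hs, MvPowerSeries.subst_X hs, RTaux.eta_cast]
    have h2 : MvPowerSeries.subst (RTaux.eta Λ (trunc Λ (ζ i)))
        (∏ l, ((MvPowerSeries.X (Fin.last d) : MvPowerSeries (Fin (d + 1)) ℂ) -
          emb (ζ l)) ^ m l) =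
        MvPowerSeries.monomial (∑ l, m l •
          expo (fun k => if l = i then Λ k else min (L i l k) (Λ k))) 1 * ∏ l, Q l ^ m l := by
      rw [← RTaux.monomial_prod_one, ← Finset.prod_mul_distrib,
        ← MvPowerSeries.substAlgHom_apply hs, map_prod]
      refine Finset.prod_congr rfl (fun l _ => ?_)
      rw [map_pow, map_sub, MvPowerSeries.substAlgHom_apply hs, MvPowerSeries.substAlgHom_apply hs,
        MvPowerSeries.subst_X hs, RTaux.eta_last, RTaux.subst_emb h0 hΛ0, hQ1 l, mul_pow,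
        RTaux.monomial_pow_one]
    have h3 : expo (gam E N0 m L i Λ) = expo (fun k => E * N0 k) + ∑ l, m l •
        expo (fun k => if l = i then Λ k else min (L i l k) (Λ k)) := by
      ext k
      rw [Finsupp.add_apply, Finsupp.finsetSum_apply]
      rfl
    rw [h1, h2, h3, ← RTaux.monomial_mul_one]
    ring

end QO

end MPb07157
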