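import Pool.Agent.Lib.MP_b07157_agO.RA
import Pool.Agent.Lib.MP_b07157_agO.RB
import Pool.Agent.Lib.MP_b07157_agO.RT
import Pool.Agent.Lib.MP_b07157_agO.RN
import Pool.Agent.Lib.MP_b07157_agO.RI

/-!
# Quasi-ordinary germs: the roots of the vertices
-/

noncomputable section

namespace MPb07157

namespace QO

variable {d r : ℕ} {F : MvPowerSeries (Fin (d + 1)) ℂ} {E : ℕ} {N0 : Fin d → ℕ}
  {ζ : Fin r → MvPowerSeries (Fin d) ℂ} {m : Fin r → ℕ} {L : Fin r → Fin r → Fin d → ℕ}

theorem mem_vcl_self (L : Fin r → Fin r → Fin d → ℕ) (i : Fin r) (Λ : Fin d → ℕ) :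
    i ∈ vcl L i Λ := by
  simp [vcl]

theorem mem_clu_self (L : Fin r → Fin r → Fin d → ℕ) (i : Fin r) (j : Fin d) (Q : ℕ) :
    i ∈ clu L i j Q := by
  simp [clu]

theorem vpoly_monic (ζ : Fin r → MvPowerSeries (Fin d) ℂ) (m : Fin r → ℕ)
    (L : Fin r → Fin r → Fin d → ℕ) (i : Fin r) (Λ : Fin d → ℕ) :
    (vpoly ζ m L i Λ).Monic :=
  Polynomial.monic_prod_of_monic _ _ fun _ _ => (Polynomial.monic_X_sub_C _).pow _

theorem natDegree_vpoly (ζ : Fin r → MvPowerSeries (Fin d) ℂ) (m : Fin r → ℕ)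
    (L : Fin r → Fin r → Fin d → ℕ) (i : Fin r) (Λ : Fin d → ℕ) :
    (vpoly ζ m L i Λ).natDegree = ∑ l ∈ vcl L i Λ, m l := by
  unfold vpoly
  rw [Polynomial.natDegree_prod_of_monic _ _ fun _ _ => (Polynomial.monic_X_sub_C _).pow _]
  refine Finset.sum_congr rfl fun l _ => ?_
  rw [Polynomial.natDegree_pow, Polynomial.natDegree_X_sub_C, mul_one]

theorem roots_vpoly (h : IsQO F E N0 ζ m L) (i : Fin r) (Λ : Fin d → ℕ) :
    (vpoly ζ m L i Λ).roots.toFinset = (vcl L i Λ).image (val ζ Λ) := by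
  classical
  ext a
  rw [Multiset.mem_toFinset, Polynomial.mem_roots (vpoly_monic ζ m L i Λ).ne_zero,
    Polynomial.IsRoot.def]
  unfold vpoly
  rw [Polynomial.eval_prod, Finset.prod_eq_zero_iff, Finset.mem_image]
  constructor
  · rintro ⟨l, hl, ha⟩
    refine ⟨l, hl, ?_⟩
    rw [Polynomial.eval_pow] at ha
    have h1 := pow_eq_zero_iff (h.hm l).ne' |>.mp ha
    rw [Polynomial.eval_sub, Polynomial.eval_X, Polynomial.eval_C] at h1
    exact (sub_eq_zero.mp h1).symm
  · rintro ⟨l, hl, rfl⟩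
    refine ⟨l, hl, ?_⟩
    rw [Polynomial.eval_pow, Polynomial.eval_sub, Polynomial.eval_X, Polynomial.eval_C, sub_self,
      zero_pow (h.hm l).ne']

theorem two_le_card_image (h : IsQO F E N0 ζ m L) {i : Fin r} {Λ : Fin d → ℕ}
    (hΛ : IsV L i Λ) : 2 ≤ ((vcl L i Λ).image (val ζ Λ)).card := by
  classical
  obtain ⟨l, hl, hL⟩ := hΛ
  have hlm : l ∈ vcl L i Λ := by
    simp only [vcl, Finset.mem_filter, Finset.mem_univ, true_and]
    right
    intro k
    rw [hL]
  have hne : val ζ Λ i ≠ val ζ Λ l :=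
    (val_ne_iff h ⟨l, hl, hL⟩ (mem_vcl_self L i Λ) hlm hl.symm).mpr hL
  change 1 < ((vcl L i Λ).image (val ζ Λ)).card
  rw [Finset.one_lt_card]
  exact ⟨_, Finset.mem_image_of_mem _ (mem_vcl_self L i Λ), _, Finset.mem_image_of_mem _ hlm, hne⟩

theorem root_vertex (h : IsQO F E N0 ζ m L) {i : Fin r} {Λ : Fin d → ℕ} (hΛ : IsV L i Λ)
    {j : Fin d} (hj : 0 < Λ j) (hbad : ¬ VBad E N0 ζ L i Λ j) {b : Polynomial ℂ}
    (hb : IsB F b) : b.eval (-(((E : ℂ) + Λ j) / gam E N0 m L i Λ j)) = 0 := by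
  classical
  by_contra hb₀
  have : CharZero (RatFunc ℂ) :=
    charZero_of_injective_algebraMap (algebraMap ℂ (RatFunc ℂ)).injective
  obtain ⟨δ, hδ⟩ := PC.exists_deriv
  obtain ⟨p, A, hp, hgam, halt, hA0, hinv⟩ := exists_p h hΛ hj
  obtain ⟨lam, F1, hlam, hF1, hFs⟩ := subst_vertex h hΛ
  obtain ⟨B, R, μ, hR0, hμ, hP, hdeg, hcard⟩ := exists_cyc hp (vpoly_monic ζ m L i Λ) hinv
  rw [natDegree_vpoly] at hdeg
  rw [roots_vpoly h] at hcard
  have h2 := two_le_card_image h hΛ
  set M := ∑ l ∈ vcl L i Λ, m l with hM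
  have hMpos : 0 < M := by
    rw [hM]
    exact Finset.sum_pos (fun l _ => h.hm l) ⟨i, mem_vcl_self L i Λ⟩
  have hγ : 0 < gam E N0 m L i Λ j := by
    rw [hgam]
    positivity
  have hφ : algebraMap (Polynomial ℂ) (RatFunc ℂ) (Polynomial.C lam * vpoly ζ m L i Λ) ≠ 0 := by
    rw [Ne, FaithfulSMul.algebraMap_eq_zero_iff]
    exact mul_ne_zero (Polynomial.C_ne_zero.mpr hlam) (vpoly_monic ζ m L i Λ).ne_zero
  obtain ⟨ρ, hρ⟩ := res_one h.hE (constantCoeff_trunc Λ (h.h0 i)) hj hγ hδ hφ hF1 hFs hb hb₀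
  have hEpos : (0 : ℚ) < E := by exact_mod_cast h.hE
  have hQpos : (0 : ℚ) < Λ j := by exact_mod_cast hj
  have hγpos : (0 : ℚ) < gam E N0 m L i Λ j := by exact_mod_cast hγ
  have hgq : (gam E N0 m L i Λ j : ℚ) = A + M * Λ j := by
    rw [hgam]
    push_cast
    ring
  refine not_exact_cyc (B := B) hδ (s := -(((E : ℚ) + Λ j) / gam E N0 m L i Λ j)) hp hR0 hμ
    ?_ ?_ ?_ hlam
    (φ := algebraMap (Polynomial ℂ) (RatFunc ℂ) (Polynomial.C lam * vpoly ζ m L i Λ))
    (by rw [hP]) ⟨ρ, ?_⟩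
  · rw [neg_lt_zero]
    positivity
  · rw [← hdeg]
    rw [mul_neg, neg_neg, sub_le_iff_le_add, ← mul_div_assoc, div_le_iff₀ hγpos, hgq]
    rcases halt with ⟨hA, hpE⟩ | hlt
    · have hpE' : (p : ℚ) * Λ j = E := by exact_mod_cast hpE
      have hA' : (A : ℚ) = 0 := by exact_mod_cast hA
      rw [hA', ← hpE']
      apply le_of_eq
      ring
    · have hlt' : (M : ℚ) * E < (p + 1) * A + p * (M * Λ j) := by exact_mod_cast hlt
      nlinarith
  · rw [← hdeg]
    rcases halt with ⟨hA, hpE⟩ | hlt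
    · have hc : p + 1 < ((vcl L i Λ).image (val ζ Λ)).card := by
        by_contra hc
        push Not at hc
        exact hbad ⟨(hA0 hA).1, (hA0 hA).2, p, hpE.symm, hc⟩
      rw [hcard] at hc
      by_cases hpB : p = 1 ∧ B = 0
      · rw [if_pos hpB]
        rw [if_pos hpB.2, hpB.1] at hc
        omega
      · rw [if_neg hpB]
        have hR : 2 ≤ R.card := by
          by_contra hR
          push Not at hR
          have hR1 : R.card ≤ 1 := by omega
          have h3 : p * R.card ≤ p * 1 := Nat.mul_le_mul_left p hR1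
          split_ifs at hc
          · omega
          · omega
        omega
    · have hlt' : (M : ℚ) * E < (p + 1) * A + p * (M * Λ j) := by exact_mod_cast hlt
      have hne : ¬ (-((M : ℚ) * -(((E : ℚ) + Λ j) / gam E N0 m L i Λ j)) - 1 = p) := by
        intro heq
        rw [mul_neg, neg_neg, sub_eq_iff_eq_add, ← mul_div_assoc, div_eq_iff hγpos.ne', hgq]
          at heq
        nlinarith
      rw [if_neg hne]
      rw [hcard] at h2
      by_cases hpB : p = 1 ∧ B = 0
      · rw [if_pos hpB]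
        rw [if_pos hpB.2, hpB.1] at h2
        omega
      · rw [if_neg hpB]
        have hR : 1 ≤ R.card := by
          by_contra hR
          push Not at hR
          have hR1 : R.card = 0 := by omega
          rw [hR1, mul_zero] at h2
          split_ifs at h2
          · omega
          · omega
        omega
  · have h5 : ((-(((E : ℚ) + Λ j) / gam E N0 m L i Λ j) : ℚ) : RatFunc ℂ) =
        -(((E : RatFunc ℂ) + Λ j) / gam E N0 m L i Λ j) := by
      push_cast
      ring
    rw [h5]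
    rw [← hρ]
    ring

theorem root_two (h : IsQO F E N0 ζ m L) {i : Fin r} {j j' : Fin d} {Q : ℕ} (hQ : 0 < Q)
    (h2 : Two N0 L i j j' Q) {b : Polynomial ℂ} (hb : IsB F b) :
    b.eval (-(((E : ℂ) + Q) / (mas m L i j Q * Q : ℕ))) = 0 := by
  classical
  by_contra hb₀
  have : CharZero (RatFunc ℂ) :=
    charZero_of_injective_algebraMap (algebraMap ℂ (RatFunc ℂ)).injective
  obtain ⟨δ, hδ⟩ := PC.exists_deriv
  obtain ⟨hjj, hNj, hNj', hcon, l1, hl1, hl1j, hl1j'⟩ := h2
  -- the minimal contact exponent in the cluster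
  obtain ⟨l0, hl0, hmin⟩ : ∃ l0 ∈ (clu L i j Q).erase i, ∀ l ∈ (clu L i j Q).erase i,
      ∀ k, L i l0 k ≤ L i l k := by
    have hne : ((clu L i j Q).erase i).Nonempty := by
      refine ⟨l1, ?_⟩
      simp only [clu, Finset.mem_erase, Finset.mem_filter, Finset.mem_univ, true_and]
      exact ⟨hl1, Or.inr hl1j.ge⟩
    obtain ⟨l0, hl0, hl0min⟩ := Finset.exists_min_image ((clu L i j Q).erase i)
      (fun l => ∑ k, L i l k) hne
    refine ⟨l0, hl0, fun l hl k => ?_⟩
    rcases L_total h (Finset.ne_of_mem_erase hl0) (Finset.ne_of_mem_erase hl) with h3 | h3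
    · exact h3 k
    · have h4 := hl0min l hl
      by_contra h5
      push Not at h5
      have h6 : ∑ k, L i l k < ∑ k, L i l0 k :=
        Finset.sum_lt_sum (fun k _ => h3 k) ⟨k, Finset.mem_univ k, h5⟩
      omega
  have hl0i : l0 ≠ i := Finset.ne_of_mem_erase hl0
  have hl0j : Q ≤ L i l0 j := by
    have h3 := Finset.mem_of_mem_erase hl0
    simp only [clu, Finset.mem_filter, Finset.mem_univ, true_and] at h3
    exact h3.resolve_left hl0i
  have hl1m : l1 ∈ (clu L i j Q).erase i := by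
    simp only [clu, Finset.mem_erase, Finset.mem_filter, Finset.mem_univ, true_and]
    exact ⟨hl1, Or.inr hl1j.ge⟩
  set Λ := L i l0 with hΛdef
  have hΛ : IsV L i Λ := ⟨l0, hl0i, rfl⟩
  have hΛj : Λ j = Q := le_antisymm ((hmin l1 hl1m j).trans_eq hl1j) hl0j
  have hΛj' : Λ j' = Q := by
    refine le_antisymm ((hmin l1 hl1m j').trans_eq hl1j') ?_
    rcases hcon l0 hl0i with h3 | h3
    · have h4 : Λ j = 0 := h3.1
      omega
    · exact h3.2
  have hvcl : vcl L i Λ = clu L i j Q := by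
    ext l
    simp only [vcl, clu, Finset.mem_filter, Finset.mem_univ, true_and]
    constructor
    · rintro (h3 | h3)
      · exact Or.inl h3
      · right
        rw [← hΛj]
        exact h3 j
    · rintro (h3 | h3)
      · exact Or.inl h3
      · by_cases hli : l = i
        · exact Or.inl hli
        · right
          refine hmin l ?_
          simp only [clu, Finset.mem_erase, Finset.mem_filter, Finset.mem_univ, true_and]
          exact ⟨hli, Or.inr h3⟩
  have hterm : ∀ l : Fin r, ∀ j0 : Fin d, (j0 = j ∨ j0 = j') →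
      m l * (if l = i then Λ j0 else min (L i l j0) (Λ j0)) =
        if l ∈ clu L i j Q then m l * Q else 0 := by
    intro l j0 hj0
    have hΛj0 : Λ j0 = Q := by
      rcases hj0 with rfl | rfl
      · exact hΛj
      · exact hΛj'
    rw [hΛj0]
    by_cases hli : l = i
    · rw [if_pos hli, if_pos (hli ▸ mem_clu_self L i j Q)]
    · rw [if_neg hli]
      rcases hcon l hli with h3 | h3
      · have h4 : L i l j0 = 0 := by
          rcases hj0 with rfl | rfl
          · exact h3.1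
          · exact h3.2
        have h5 : l ∉ clu L i j Q := by
          simp only [clu, Finset.mem_filter, Finset.mem_univ, true_and, not_or]
          refine ⟨hli, ?_⟩
          rw [h3.1]
          omega
        rw [if_neg h5, h4, Nat.zero_min, mul_zero]
      · have h4 : Q ≤ L i l j0 := by
          rcases hj0 with rfl | rfl
          · exact h3.1
          · exact h3.2
        have h5 : l ∈ clu L i j Q := by
          simp only [clu, Finset.mem_filter, Finset.mem_univ, true_and]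
          exact Or.inr h3.1
        rw [if_pos h5, min_eq_right h4]
  have hgam : ∀ j0 : Fin d, (j0 = j ∨ j0 = j') → gam E N0 m L i Λ j0 = mas m L i j Q * Q := by
    intro j0 hj0
    have hN : N0 j0 = 0 := by
      rcases hj0 with rfl | rfl
      · exact hNj
      · exact hNj'
    unfold gam mas
    rw [hN, mul_zero, zero_add, Finset.sum_congr rfl fun l _ => hterm l j0 hj0,
      ← Finset.sum_filter, Finset.filter_mem_eq_inter, Finset.univ_inter, Finset.sum_mul]
  have hmas : 0 < mas m L i j Q :=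
    Finset.sum_pos (fun l _ => h.hm l) ⟨i, mem_clu_self L i j Q⟩
  obtain ⟨lam, F1, hlam, hF1, hFs⟩ := subst_vertex h hΛ
  have hP0 : Polynomial.C lam * vpoly ζ m L i Λ ≠ 0 :=
    mul_ne_zero (Polynomial.C_ne_zero.mpr hlam) (vpoly_monic ζ m L i Λ).ne_zero
  have hdeg : (Polynomial.C lam * vpoly ζ m L i Λ).natDegree = mas m L i j Q := by
    rw [Polynomial.natDegree_C_mul hlam, natDegree_vpoly, hvcl, mas]
  obtain ⟨ρ, hρ1, hρ⟩ := res_two h.hE (constantCoeff_trunc Λ (h.h0 i)) hjj hQ hmas hΛj hΛj'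
    (hgam j (Or.inl rfl)) (hgam j' (Or.inr rfl)) hδ hP0 hdeg hF1 hFs hb hb₀
  have hEpos : (0 : ℚ) < E := by exact_mod_cast h.hE
  have hcard : 2 ≤ (Polynomial.C lam * vpoly ζ m L i Λ).roots.toFinset.card := by
    rw [Polynomial.roots_C_mul _ hlam, roots_vpoly h]
    exact two_le_card_image h hΛ
  refine not_exact_two hδ hP0 hcard (s := -(((E : ℚ) + Q) / (mas m L i j Q * Q : ℕ))) ?_
    ⟨ρ, hρ1, ?_⟩
  · rw [neg_lt_zero]
    positivity
  · have h5 : ((-(((E : ℚ) + Q) / (mas m L i j Q * Q : ℕ)) : ℚ) : RatFunc ℂ) =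
        -(((E : RatFunc ℂ) + Q) / (mas m L i j Q * Q : ℕ)) := by
      push_cast
      ring
    rw [h5]
    rw [← hρ]
    ring

end QO

end MPb07157
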